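import Pool.Agent.Work.MP_bf98aa_gt.Th.Stmt

-- merged part: Pool.Agent.Work.MP_bf98aa_gt.Th.FBasic
section
-- merged part: Pool.Agent.Work.MP_bf98aa_gt.Th.Defs
section
/-!
Working definitions, part 1: forms on open subsets of a vector space, group actions.
See the team-store file `h8_bf98aa_thurston.md` for the mathematics.
-/

set_option autoImplicit false

open scoped ContDiff

namespace Pool.Agent.Work.MP_bf98aa_gt.Th

/-- Alternating forms. -/
abbrev Alt (E : Type) [NormedAddCommGroup E] [NormedSpace ℝ E] (k : ℕ) : Type :=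
  E [⋀^Fin k]→L[ℝ] ℝ

/-- Differential forms on a vector space. -/
abbrev Fm (E : Type) [NormedAddCommGroup E] [NormedSpace ℝ E] (k : ℕ) : Type := E → Alt E k

section
variable {E F : Type} [NormedAddCommGroup E] [NormedSpace ℝ E] [NormedAddCommGroup F]
  [NormedSpace ℝ F] {k : ℕ}

/-- Pull-back. -/
noncomputable def pb (f : E → F) (α : Fm F k) : Fm E k :=
  fun x => (α (f x)).compContinuousLinearMap (fderiv ℝ f x)

/-- Smooth on `U`. -/
def Sm (α : Fm E k) (U : Set E) : Prop := ContDiffOn ℝ ∞ α U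

/-- Smooth and closed on `U`. -/
def Cl (α : Fm E k) (U : Set E) : Prop := Sm α U ∧ ∀ x ∈ U, extDeriv α x = 0

/-- `β` is a smooth primitive of `α` on `U`. -/
def IsD (β : Fm E k) (α : Fm E (k + 1)) (U : Set E) : Prop :=
  Sm β U ∧ ∀ x ∈ U, extDeriv β x = α x

/-- Reduced de Rham cohomology of `A` vanishes in the given degree. -/
def RA : ℕ → Set E → Prop
  | 0, A => ∀ α : Fm E 0, Cl α A → ∃ c, ∀ x ∈ A, α x = c
  | k + 1, A => ∀ α : Fm E (k + 1), Cl α A → ∃ β : Fm E k, IsD β α A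

/-- A linear form as an alternating 1-form. -/
noncomputable def alt1 (a : E →L[ℝ] ℝ) : Alt E 1 :=
  ContinuousAlternatingMap.ofSubsingletonLIE (0 : Fin 1) a

/-- The alternating form `B u v - B v u`. -/
noncomputable def alt2 (B : E →L[ℝ] E →L[ℝ] ℝ) : Alt E 2 :=
  ContinuousAlternatingMap.alternatizeUncurryFin
    ((ContinuousAlternatingMap.ofSubsingletonLIE (𝕜 := ℝ) (E := E) (F := ℝ)
      (0 : Fin 1)).toContinuousLinearEquiv.toContinuousLinearMap.comp B)

/-- The wedge product of two linear forms. -/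
noncomputable def wedge (a b : E →L[ℝ] ℝ) : Alt E 2 := alt2 (a.smulRight b)

/-- The second derivative. -/
noncomputable def D2 (f : E → F) (x : E) : E →L[ℝ] E →L[ℝ] F := fderiv ℝ (fderiv ℝ f) x

/-- The time `t` pull-back along a homotopy. -/
noncomputable def hA (H : ℝ × E → F) (α : Fm F k) (t : ℝ) : Fm E k := pb (fun y => H (t, y)) α

/-- The weighted homotopy operator. -/
noncomputable def hK (w : ℝ → ℝ) (H : ℝ × E → F) (α : Fm F (k + 1)) : Fm E k := fun x =>
  ∫ t in (0 : ℝ)..1, w t • ((α (H (t, x))).curryLeft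
    (fderiv ℝ H (t, x) (1, 0))).compContinuousLinearMap (fderiv ℝ (fun y => H (t, y)) x)

/-- The Hessian at `0` is negative definite on a four-dimensional subspace. -/
def NegDir (f : E → ℝ) : Prop :=
  ∃ v : Fin 4 → E, ∀ c : Fin 4 → ℝ, c ≠ 0 → D2 f 0 (∑ i, c i • v i) (∑ i, c i • v i) < 0

/-- In some global chart centred at `x` the function has a regular point or index at least 4. -/
def GoodAt (f : E → ℝ) (x : E) : Prop :=
  ∃ Φ : E ≃ₜ E, ContDiff ℝ ∞ Φ ∧ ContDiff ℝ ∞ Φ.symm ∧ Φ 0 = x ∧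
    (fderiv ℝ (f ∘ Φ) 0 ≠ 0 ∨ NegDir (f ∘ Φ))

/-- The open box with directions `v`, dual coordinates `ξ` and radii `ρ, ρ'`. -/
def Box {d : ℕ} (v : Fin d → E) (ξ : Fin d → E →L[ℝ] ℝ) (ρ ρ' : ℝ) : Set E :=
  {y | (∀ i, |ξ i y| < ρ) ∧ ‖y - ∑ i, ξ i y • v i‖ < ρ'}

variable (Γ : Type) [Group Γ] [MulAction Γ E]

/-- A free, properly discontinuous, cocompact action by smooth maps. -/
structure Act (E : Type) [NormedAddCommGroup E] [NormedSpace ℝ E] [MulAction Γ E] : Prop where
  smooth : ∀ γ : Γ, ContDiff ℝ ∞ fun x : E => γ • x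
  fin : ∀ K : Set E, IsCompact K → {γ : Γ | ∃ x ∈ K, γ • x ∈ K}.Finite
  free : ∀ (γ : Γ) (x : E), γ • x = x → γ = 1
  cocpt : ∃ K : Set E, IsCompact K ∧ ∀ x : E, ∃ γ : Γ, γ • x ∈ K

/-- An invariant set. -/
def InvSet (U : Set E) : Prop := ∀ (γ : Γ), ∀ x ∈ U, γ • x ∈ U

/-- An invariant form. -/
def Inv (α : Fm E k) (U : Set E) : Prop :=
  ∀ (γ : Γ), ∀ x ∈ U, pb (fun y : E => γ • y) α x = α x

/-- Zero in invariant cohomology. -/
def Triv : (k : ℕ) → Fm E k → Set E → Prop
  | 0, α, U => ∀ x ∈ U, α x = 0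
  | k + 1, α, U => ∃ β : Fm E k, IsD β α U ∧ Inv Γ β U

/-- Restriction from `W` to `U` is onto in invariant cohomology. -/
def Surj (k : ℕ) (U W : Set E) : Prop :=
  ∀ α : Fm E k, Cl α U → Inv Γ α U → ∃ α' : Fm E k, Cl α' W ∧ Inv Γ α' W ∧ Triv Γ k (α - α') U

/-- Restriction from `W` to `U` is injective in invariant cohomology. -/
def Inj (k : ℕ) (U W : Set E) : Prop :=
  ∀ α : Fm E k, Cl α W → Inv Γ α W → Triv Γ k α U → Triv Γ k α W

end

end Pool.Agent.Work.MP_bf98aa_gt.Th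
end

-- merged part: Pool.Agent.Work.MP_bf98aa_gt.Th.FBasic
section
/-!
Basic calculus of forms on open subsets of finite-dimensional spaces.

PLAN. `contDiffAt_alt_iff`: `Alt E k` is finite-dimensional and evaluation on all `k`-tuples of basis
vectors is an injective linear map to a function space (go through `toContinuousMultilinearMap`,
`toMultilinearMap`, `Module.Basis.ext_multilinear`); an injective linear map between
finite-dimensional spaces has a continuous linear left inverse. Smoothness of an evaluation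
`fun y => α y (v y)`: expand `v y i` in a basis (`MultilinearMap.map_sum`, `map_smul_univ`), or use
`ContinuousMultilinearMap` analyticity. `extDeriv_pb` is `extDeriv_pullback`.
-/

set_option autoImplicit false

open scoped ContDiff Topology
open Set

namespace Pool.Agent.Work.MP_bf98aa_gt.Th

variable {E F H X : Type} [NormedAddCommGroup E] [NormedSpace ℝ E] [NormedAddCommGroup F]
  [NormedSpace ℝ F] [NormedAddCommGroup H] [NormedSpace ℝ H] [NormedAddCommGroup X]
  [NormedSpace ℝ X] {k : ℕ}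

theorem alt1_apply (a : E →L[ℝ] ℝ) (v : Fin 1 → E) : alt1 a v = a (v 0) := by
  rfl

theorem alt2_apply (B : E →L[ℝ] E →L[ℝ] ℝ) (v : Fin 2 → E) :
    alt2 B v = B (v 0) (v 1) - B (v 1) (v 0) := by
  rw [alt2, ContinuousAlternatingMap.alternatizeUncurryFin_apply, Fin.sum_univ_two]
  simp [Fin.removeNth, Fin.tail, sub_eq_add_neg]

theorem wedge_apply (a b : E →L[ℝ] ℝ) (v : Fin 2 → E) :
    wedge a b v = a (v 0) * b (v 1) - a (v 1) * b (v 0) := by
  rw [wedge, alt2_apply]
  simp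

theorem alt2_swap (w : Alt E 2) (u v : E) : w ![u, v] = -w ![v, u] := by
  have h := w.map_insertNth 1 v ![u]
  rw [show ((1 : Fin 2).insertNth v ![u] : Fin 2 → E) = ![u, v] from
    funext fun i => by fin_cases i <;> rfl] at h
  simpa using h

theorem alt_ext_two {w w' : Alt E 2} (h : ∀ u v, w ![u, v] = w' ![u, v]) : w = w' := by
  ext v
  rw [show v = ![v 0, v 1] from funext fun i => by fin_cases i <;> rfl]
  exact h _ _

theorem alt_ext_one {w w' : Alt E 1} (h : ∀ u, w ![u] = w' ![u]) : w = w' := by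
  ext v
  rw [show v = ![v 0] from funext fun i => by fin_cases i; rfl]
  exact h _

theorem alt_ext_three {w w' : Alt E 3} (h : ∀ u v z, w ![u, v, z] = w' ![u, v, z]) : w = w' := by
  ext v
  rw [show v = ![v 0, v 1, v 2] from funext fun i => by fin_cases i <;> rfl]
  exact h _ _ _

/-- A 2-form as a bilinear map. -/
theorem exists_bilin (w : Alt E 2) : ∃ B : E →L[ℝ] E →L[ℝ] ℝ, ∀ u v, w ![u, v] = B u v := by
  refine ⟨((ContinuousAlternatingMap.ofSubsingletonLIE (𝕜 := ℝ) (E := E) (F := ℝ)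
    (0 : Fin 1)).symm.toContinuousLinearEquiv.toContinuousLinearMap).comp w.curryLeft,
    fun u v => ?_⟩
  exact (congrArg (fun a : Alt E 1 => a ![v]) ((ContinuousAlternatingMap.ofSubsingletonLIE
    (𝕜 := ℝ) (E := E) (F := ℝ) (0 : Fin 1)).apply_symm_apply (w.curryLeft u))).symm

theorem exists_lin (w : Alt E 1) : ∃ a : E →L[ℝ] ℝ, w = alt1 a := by
  exact ⟨_, ((ContinuousAlternatingMap.ofSubsingletonLIE (0 : Fin 1)).apply_symm_apply w).symm⟩

theorem FBasic_expand {d : ℕ} (b : Module.Basis (Fin d) ℝ E) (w : Alt E k) (v : Fin k → E) :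
    w v = ∑ r : Fin k → Fin d, (∏ i, b.repr (v i) (r i)) * w fun i => b (r i) := by
  conv_lhs => rw [show v = fun i => ∑ j, b.repr (v i) j • b j from
    funext fun i => (b.sum_repr (v i)).symm]
  rw [w.map_sum]
  exact Finset.sum_congr rfl fun r _ => w.map_smul_univ _ _

/-- The coefficients of a form in a basis. -/
noncomputable def FBasic_ev {d : ℕ} (b : Module.Basis (Fin d) ℝ E) :
    Alt E k →ₗ[ℝ] (Fin k → Fin d) → ℝ :=
  LinearMap.pi fun r => (ContinuousAlternatingMap.apply ℝ E ℝ fun i => b (r i)).toLinearMap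

theorem FBasic_inj {d : ℕ} (b : Module.Basis (Fin d) ℝ E) :
    Function.Injective (FBasic_ev (k := k) b) := fun w w' h => by
  ext v
  rw [FBasic_expand b w, FBasic_expand b w']
  exact Finset.sum_congr rfl fun r _ => congrArg _ (congrFun h r)

theorem finiteDimensional_alt [FiniteDimensional ℝ E] : FiniteDimensional ℝ (Alt E k) := by
  exact FiniteDimensional.of_injective _ (FBasic_inj (Module.finBasis ℝ E))

theorem contDiffAt_alt_iff [FiniteDimensional ℝ E] {n : WithTop ℕ∞} {α : X → Alt E k} {x : X} :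
    ContDiffAt ℝ n α x ↔ ∀ v, ContDiffAt ℝ n (fun y => α y v) x := by
  refine ⟨fun h v => (ContinuousAlternatingMap.apply ℝ E ℝ v).contDiff.contDiffAt.comp x h,
    fun h => ?_⟩
  obtain ⟨g, hg⟩ := (FBasic_ev (k := k) (Module.finBasis ℝ E)).exists_leftInverse_of_injective
    (LinearMap.ker_eq_bot.2 (FBasic_inj _))
  have h1 : ContDiffAt ℝ n (fun y => FBasic_ev (Module.finBasis ℝ E) (α y)) x :=
    contDiffAt_pi.2 fun r => h _
  have h2 := (LinearMap.toContinuousLinearMap g).contDiff.contDiffAt.comp x h1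
  exact h2.congr_of_eventuallyEq (.of_forall fun y => (LinearMap.congr_fun hg (α y)).symm)

theorem ContDiffAt.alt_apply [FiniteDimensional ℝ E] {n : WithTop ℕ∞} {α : X → Alt E k}
    {v : X → Fin k → E} {x : X} (hα : ContDiffAt ℝ n α x) (hv : ∀ i, ContDiffAt ℝ n (v · i) x) :
    ContDiffAt ℝ n (fun y => α y (v y)) x := by
  simp only [FBasic_expand (Module.finBasis ℝ E) _ (v _)]
  refine ContDiffAt.sum fun r _ => ContDiffAt.mul (contDiffAt_prod fun i _ => ?_)
    (contDiffAt_alt_iff.1 hα _)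
  exact (LinearMap.toContinuousLinearMap
    ((Module.finBasis ℝ E).coord (r i))).contDiff.contDiffAt.comp x (hv i)

theorem ContDiffAt.alt_comp [FiniteDimensional ℝ E] [FiniteDimensional ℝ F] {n : WithTop ℕ∞}
    {α : X → Alt F k} {A : X → E →L[ℝ] F} {x : X} (hα : ContDiffAt ℝ n α x)
    (hA : ContDiffAt ℝ n A x) :
    ContDiffAt ℝ n (fun y => (α y).compContinuousLinearMap (A y)) x := by
  exact contDiffAt_alt_iff.2 fun v => ContDiffAt.alt_apply (v := fun y i => A y (v i)) hα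
    fun i => hA.clm_apply contDiffAt_const

theorem continuous_alt_comp [FiniteDimensional ℝ E] [FiniteDimensional ℝ F] :
    Continuous fun p : Alt F k × (E →L[ℝ] F) => p.1.compContinuousLinearMap p.2 := by
  exact continuous_iff_continuousAt.2 fun p =>
    (ContDiffAt.alt_comp (n := 0) contDiffAt_fst contDiffAt_snd).continuousAt

theorem contDiff_alt1 {n : WithTop ℕ∞} : ContDiff ℝ n (alt1 : (E →L[ℝ] ℝ) → Alt E 1) := by
  exact (ContinuousAlternatingMap.ofSubsingletonLIE (𝕜 := ℝ) (E := E) (F := ℝ)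
    (0 : Fin 1)).toContinuousLinearEquiv.contDiff

theorem contDiff_wedge {n : WithTop ℕ∞} :
    ContDiff ℝ n fun p : (E →L[ℝ] ℝ) × (E →L[ℝ] ℝ) => wedge p.1 p.2 := by
  have h1 : ContDiff ℝ n (alt2 : (E →L[ℝ] E →L[ℝ] ℝ) → Alt E 2) :=
    (ContinuousAlternatingMap.alternatizeUncurryFinCLM ℝ E ℝ).contDiff.comp
      (contDiff_const.clm_comp contDiff_id)
  exact h1.comp (contDiff_fst.smulRight contDiff_snd)

theorem pb_id (α : Fm E k) : pb (fun x => x) α = α := by
  funext x
  ext v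
  simp [pb]

theorem pb_comp {f : E → F} {g : F → H} {x : E} (α : Fm H k) (hf : DifferentiableAt ℝ f x)
    (hg : DifferentiableAt ℝ g (f x)) : pb (fun y => g (f y)) α x = pb f (pb g α) x := by
  rw [pb, fderiv_fun_comp x hg hf]
  rfl

theorem pb_congr {f g : E → F} {x : E} (α : Fm F k) (h : f =ᶠ[𝓝 x] g) : pb f α x = pb g α x := by
  rw [pb, pb, h.fderiv_eq, h.self_of_nhds]

theorem pb_congr' {f : E → F} {x : E} {α β : Fm F k} (h : α (f x) = β (f x)) :
    pb f α x = pb f β x := by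
  rw [pb, pb, h]

theorem pb_add (f : E → F) (α β : Fm F k) : pb f (α + β) = pb f α + pb f β := by
  rfl

theorem pb_sub (f : E → F) (α β : Fm F k) : pb f (α - β) = pb f α - pb f β := by
  rfl

theorem pb_smul (f : E → F) (c : ℝ) (α : Fm F k) : pb f (c • α) = c • pb f α := by
  rfl

theorem pb_fun_smul (f : E → F) (c : F → ℝ) (α : Fm F k) (x : E) :
    pb f (fun y => c y • α y) x = c (f x) • pb f α x := by
  rfl

theorem pb_zero (f : E → F) : pb f (0 : Fm F k) = 0 := by
  rfl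

theorem pb_sum {I : Type} (s : Finset I) (f : E → F) (α : I → Fm F k) :
    pb f (∑ i ∈ s, α i) = ∑ i ∈ s, pb f (α i) := by
  funext x
  ext v
  simp [pb]

/-- Forms of degree zero are functions. -/
theorem pb_deg_zero (f : E → E) (α : Fm E 0) (x : E) : pb f α x = α (f x) := by
  ext v
  exact congrArg (α (f x)) (Subsingleton.elim _ _)

theorem Sm.at {α : Fm E k} {U : Set E} (h : Sm α U) (hU : IsOpen U) {x : E} (hx : x ∈ U) :
    ContDiffAt ℝ ∞ α x := by
  exact ContDiffOn.contDiffAt h (hU.mem_nhds hx)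

theorem Sm.diffAt {α : Fm E k} {U : Set E} (h : Sm α U) (hU : IsOpen U) {x : E} (hx : x ∈ U) :
    DifferentiableAt ℝ α x := by
  exact (h.at hU hx).differentiableAt (by simp)

theorem Sm.extDeriv {α : Fm E k} {U : Set E} (h : Sm α U) (hU : IsOpen U) :
    Sm (extDeriv α) U := by
  exact (ContinuousAlternatingMap.alternatizeUncurryFinCLM ℝ E ℝ).contDiff.comp_contDiffOn
    (ContDiffOn.fderiv_of_isOpen (m := ∞) h hU le_rfl)

theorem extDeriv_sub' {α β : Fm E k} {x : E} (hα : DifferentiableAt ℝ α x)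
    (hβ : DifferentiableAt ℝ β x) : extDeriv (α - β) x = extDeriv α x - extDeriv β x := by
  rw [extDeriv, fderiv_sub hα hβ]
  exact (ContinuousAlternatingMap.alternatizeUncurryFinCLM ℝ E ℝ).map_sub _ _

theorem extDeriv_sum' {I : Type} (s : Finset I) {α : I → Fm E k} {x : E}
    (h : ∀ i ∈ s, DifferentiableAt ℝ (α i) x) :
    extDeriv (∑ i ∈ s, α i) x = ∑ i ∈ s, extDeriv (α i) x := by
  rw [extDeriv, fderiv_sum h]
  exact map_sum (ContinuousAlternatingMap.alternatizeUncurryFinCLM ℝ E ℝ) _ _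

theorem extDeriv_const (c : Alt E k) (x : E) : extDeriv (fun _ : E => c) x = 0 := by
  rw [extDeriv, fderiv_fun_const]
  exact (ContinuousAlternatingMap.alternatizeUncurryFinCLM ℝ E ℝ).map_zero

theorem FBasic_two : minSmoothness ℝ 2 ≤ ∞ := by
  rw [minSmoothness_of_isRCLikeNormedField]
  exact WithTop.coe_le_coe.2 le_top

theorem IsD.cl {β : Fm E k} {α : Fm E (k + 1)} {U : Set E} (h : IsD β α U) (hU : IsOpen U) :
    Cl α U := by
  refine ⟨(h.1.extDeriv hU).congr fun x hx => (h.2 x hx).symm, fun x hx => ?_⟩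
  rw [← Filter.EventuallyEq.extDeriv_eq (Filter.mem_of_superset (hU.mem_nhds hx) h.2)]
  exact extDeriv_extDeriv_apply (h.1.at hU hx) FBasic_two

theorem Cl.sub {α β : Fm E k} {U : Set E} (hU : IsOpen U) (hα : Cl α U) (hβ : Cl β U) :
    Cl (α - β) U := by
  refine ⟨ContDiffOn.sub hα.1 hβ.1, fun x hx => ?_⟩
  rw [extDeriv_sub' (hα.1.diffAt hU hx) (hβ.1.diffAt hU hx), hα.2 x hx, hβ.2 x hx, sub_zero]

theorem extDeriv_one_apply {α : Fm E 1} {x : E} (h : DifferentiableAt ℝ α x) (u v : E) :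
    extDeriv α x ![u, v] = fderiv ℝ α x u ![v] - fderiv ℝ α x v ![u] := by
  rw [extDeriv, ContinuousAlternatingMap.alternatizeUncurryFin_apply, Fin.sum_univ_two,
    show Fin.removeNth 0 ![u, v] = ![v] from funext fun i => by fin_cases i; rfl,
    show Fin.removeNth 1 ![u, v] = ![u] from funext fun i => by fin_cases i; rfl]
  simp [sub_eq_add_neg]

theorem extDeriv_two_apply {α : Fm E 2} {x : E} (h : DifferentiableAt ℝ α x) (u v z : E) :
    extDeriv α x ![u, v, z] =
      fderiv ℝ α x u ![v, z] + fderiv ℝ α x v ![z, u] + fderiv ℝ α x z ![u, v] := by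
  rw [extDeriv, ContinuousAlternatingMap.alternatizeUncurryFin_apply, Fin.sum_univ_three,
    show Fin.removeNth 0 ![u, v, z] = ![v, z] from funext fun i => by fin_cases i <;> rfl,
    show Fin.removeNth 1 ![u, v, z] = ![u, z] from funext fun i => by fin_cases i <;> rfl,
    show Fin.removeNth 2 ![u, v, z] = ![u, v] from funext fun i => by fin_cases i <;> rfl,
    alt2_swap _ z u]
  simp

/-- A closed form of degree zero has zero derivative. -/
theorem extDeriv_zero_iff {α : Fm E 0} {x : E} : extDeriv α x = 0 ↔ fderiv ℝ α x = 0 := by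
  refine ⟨fun h => ?_, fun h => ?_⟩
  · ext u v
    have h1 := congrArg (fun w : Alt E 1 => w ![u]) h
    simp only [extDeriv, ContinuousAlternatingMap.alternatizeUncurryFin_apply] at h1
    rw [Subsingleton.elim v (Fin.removeNth 0 ![u])]
    simpa using h1
  · rw [extDeriv, h]
    exact (ContinuousAlternatingMap.alternatizeUncurryFinCLM ℝ E ℝ).map_zero

theorem Cl.const {α : Fm E 0} {U : Set E} (h : Cl α U) (hU : IsOpen U) (hc : IsPreconnected U)
    {x y : E} (hx : x ∈ U) (hy : y ∈ U) : α x = α y := by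
  exact hU.is_const_of_fderiv_eq_zero hc (ContDiffOn.differentiableOn h.1 (by simp))
    (fun z hz => extDeriv_zero_iff.1 (h.2 z hz)) hx hy

variable [FiniteDimensional ℝ E] [FiniteDimensional ℝ F]

theorem Sm.pb {f : E → F} {α : Fm F k} {U : Set E} {W : Set F} (hα : Sm α W) (hU : IsOpen U)
    (hW : IsOpen W) (hf : ContDiffOn ℝ ∞ f U) (hm : MapsTo f U W) : Sm (pb f α) U := by
  intro x hx
  have h1 := hf.contDiffAt (hU.mem_nhds hx)
  exact (ContDiffAt.alt_comp ((hα.at hW (hm hx)).comp x h1)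
    (h1.fderiv_right le_rfl)).contDiffWithinAt

theorem extDeriv_pb {f : E → F} {α : Fm F k} {x : E} (hα : DifferentiableAt ℝ α (f x))
    (hf : ContDiffAt ℝ ∞ f x) : extDeriv (pb f α) x = pb f (extDeriv α) x := by
  exact extDeriv_pullback hα hf FBasic_two

theorem Cl.pb {f : E → F} {α : Fm F k} {U : Set E} {W : Set F} (hα : Cl α W) (hU : IsOpen U)
    (hW : IsOpen W) (hf : ContDiffOn ℝ ∞ f U) (hm : MapsTo f U W) : Cl (pb f α) U := by
  refine ⟨hα.1.pb hU hW hf hm, fun x hx => ?_⟩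
  rw [extDeriv_pb (hα.1.diffAt hW (hm hx)) (hf.contDiffAt (hU.mem_nhds hx)),
    pb_congr' (β := 0) (hα.2 _ (hm hx))]
  rfl

theorem IsD.pb {f : E → F} {β : Fm F k} {α : Fm F (k + 1)} {U : Set E} {W : Set F}
    (h : IsD β α W) (hU : IsOpen U) (hW : IsOpen W) (hf : ContDiffOn ℝ ∞ f U)
    (hm : MapsTo f U W) : IsD (pb f β) (pb f α) U := by
  refine ⟨h.1.pb hU hW hf hm, fun x hx => ?_⟩
  rw [extDeriv_pb (h.1.diffAt hW (hm hx)) (hf.contDiffAt (hU.mem_nhds hx)),
    pb_congr' (h.2 _ (hm hx))]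

theorem RA.homeo (Φ : E ≃ₜ E) (h1 : ContDiff ℝ ∞ Φ) (h2 : ContDiff ℝ ∞ Φ.symm) {A : Set E}
    (hA : IsOpen A) (h : RA k A) : RA k (Φ '' A) := by
  have hA' : IsOpen (Φ '' A) := Φ.isOpenMap A hA
  have m1 : MapsTo Φ A (Φ '' A) := mapsTo_image Φ A
  have m2 : MapsTo Φ.symm (Φ '' A) A := by
    rintro _ ⟨x, hx, rfl⟩
    rwa [Φ.symm_apply_apply]
  cases k with
  | zero =>
    intro α hα
    obtain ⟨c, hc⟩ := h _ (hα.pb hA hA' h1.contDiffOn m1)
    refine ⟨c, ?_⟩
    rintro _ ⟨x, hx, rfl⟩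
    rw [← pb_deg_zero Φ α x, hc x hx]
  | succ k =>
    intro α hα
    obtain ⟨β, hβ⟩ := h _ (hα.pb hA hA' h1.contDiffOn m1)
    have h3 := hβ.pb hA' hA h2.contDiffOn m2
    refine ⟨_, h3.1, fun x hx => (h3.2 x hx).trans ?_⟩
    rw [← pb_comp α (h2.differentiable (by simp) x) (h1.differentiable (by simp) _)]
    simp only [Φ.apply_symm_apply, pb_id]

/-- The second derivative along a line. -/
theorem hasDerivAt_D2 {f : E → H} {x : E} (hf : ContDiffAt ℝ ∞ f x) (v : E) :
    HasDerivAt (fun t : ℝ => fderiv ℝ f (x + t • v) v) (D2 f x v v) 0 ∧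
      ∀ᶠ t : ℝ in 𝓝 0, HasDerivAt (fun t : ℝ => f (x + t • v)) (fderiv ℝ f (x + t • v) v) t := by
  have hl : ∀ t : ℝ, HasDerivAt (fun t : ℝ => x + t • v) v t := fun t => by
    simpa using ((hasDerivAt_id t).smul_const v).const_add x
  have h0 : x + (0 : ℝ) • v = x := by simp
  constructor
  · have h1 : HasFDerivAt (fderiv ℝ f) (D2 f x) (x + (0 : ℝ) • v) := by
      rw [h0]
      exact ((hf.fderiv_right (m := ∞) le_rfl).differentiableAt (by simp)).hasFDerivAt
    have h2 : HasDerivAt (fun t : ℝ => fderiv ℝ f (x + t • v)) (D2 f x v) 0 :=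
      HasFDerivAt.comp_hasDerivAt (l := fderiv ℝ f) (f := fun t : ℝ => x + t • v) 0 h1 (hl 0)
    simpa using h2.clm_apply (hasDerivAt_const (0 : ℝ) v)
  · have h1 : ∀ᶠ y in 𝓝 (x + (0 : ℝ) • v), ContDiffAt ℝ 1 f y := by
      rw [h0]
      exact (hf.of_le (by simp)).eventually (by simp)
    have h2 : Filter.Tendsto (fun t : ℝ => x + t • v) (𝓝 0) (𝓝 (x + (0 : ℝ) • v)) :=
      (hl 0).continuousAt
    filter_upwards [h2.eventually h1] with t ht
    exact (ht.differentiableAt one_ne_zero).hasFDerivAt.comp_hasDerivAt t (hl t)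

theorem D2_symm {f : E → H} {x : E} (hf : ContDiffAt ℝ ∞ f x) (u v : E) :
    D2 f x u v = D2 f x v u := by
  exact hf.isSymmSndFDerivAt FBasic_two u v

end Pool.Agent.Work.MP_bf98aa_gt.Th
end
end

-- merged part: Pool.Agent.Work.MP_bf98aa_gt.Th.FHom
section
/-!
Integrals over a parameter and the homotopy formula.

PLAN. `contDiffOn_integral`: localise at `x₀ ∈ U`: by the tube lemma `Icc 0 1 ×ˢ closedBall x₀ r ⊆ O`;
multiply by a smooth bump to get a globally smooth function (`exists_contDiff_tsupport_subset` style, or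
`exists_contMDiff_support_eq`..., any smooth function equal to 1 near the compact set with support in
`O`), then copy the induction of `Gen_contDiff_integral` in `Work/MP_14af4f_an/Gen.lean` (do not import it).
`homotopy_deriv`: the form `pb H α` on `ℝ × E` is closed (`Cl.pb`); evaluate `extDeriv_apply` on
`Fin.cons (1,0) (fun i => (0, v i))` (`Fin.sum_univ_succ`): the first term is the `t`-derivative of
`hA H α t x v`, the others give minus the exterior derivative of the integrand of `hK`.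
`homotopy`: integrate `w t • d/dt` by parts with `w t = p + q t`
(`intervalIntegral.integral_eq_sub_of_hasDerivAt` applied to `t ↦ w t • hA H α t x`).
-/

set_option autoImplicit false

open scoped ContDiff Topology
open Set

namespace Pool.Agent.Work.MP_bf98aa_gt.Th

variable {E F E' F' : Type} [NormedAddCommGroup E] [NormedSpace ℝ E] [NormedAddCommGroup F]
  [NormedSpace ℝ F] [FiniteDimensional ℝ E] [FiniteDimensional ℝ F] [NormedAddCommGroup E']
  [NormedSpace ℝ E'] [NormedAddCommGroup F'] [NormedSpace ℝ F'] [FiniteDimensional ℝ E']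
  [FiniteDimensional ℝ F'] {k : ℕ}

section aux
variable {V : Type} [NormedAddCommGroup V] [NormedSpace ℝ V] {O : Set (ℝ × E)} {U : Set E}

omit [NormedSpace ℝ E] [FiniteDimensional ℝ E] [NormedSpace ℝ V] in
theorem FHom_slice {f : ℝ × E → V} (hf : ContinuousOn f O) {x : E}
    (hx : ∀ t ∈ Icc (0 : ℝ) 1, (t, x) ∈ O) : ContinuousOn (fun t => f (t, x)) (Icc 0 1) :=
  hf.comp (Continuous.prodMk_left x).continuousOn fun t ht => hx t ht

omit [NormedSpace ℝ E] [FiniteDimensional ℝ E] [NormedSpace ℝ V] in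
theorem FHom_int {f : ℝ × E → V} (hf : ContinuousOn f O) {x : E}
    (hx : ∀ t ∈ Icc (0 : ℝ) 1, (t, x) ∈ O) :
    IntervalIntegrable (fun t => f (t, x)) MeasureTheory.volume 0 1 :=
  (FHom_slice hf hx).intervalIntegrable_of_Icc zero_le_one

omit [NormedSpace ℝ E] [FiniteDimensional ℝ E] [NormedSpace ℝ V] in
theorem FHom_meas {f : ℝ × E → V} (hf : ContinuousOn f O) {x : E}
    (hx : ∀ t ∈ Icc (0 : ℝ) 1, (t, x) ∈ O) :
    MeasureTheory.AEStronglyMeasurable (fun t => f (t, x))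
      (MeasureTheory.volume.restrict (uIoc (0 : ℝ) 1)) :=
  (intervalIntegrable_iff.1 (FHom_int hf hx)).aestronglyMeasurable

omit [NormedSpace ℝ V] in
theorem FHom_bound {f : ℝ × E → V} (hf : ContinuousOn f O) (hU : IsOpen U)
    (hUO : ∀ t ∈ Icc (0 : ℝ) 1, ∀ x ∈ U, (t, x) ∈ O) {x : E} (hx : x ∈ U) :
    ∃ s ∈ 𝓝 x, s ⊆ U ∧ ∃ C : ℝ, ∀ t ∈ uIoc (0 : ℝ) 1, ∀ y ∈ s, ‖f (t, y)‖ ≤ C := by
  haveI : ProperSpace E := FiniteDimensional.proper ℝ E
  obtain ⟨s, hs, hsU, hc⟩ := local_compact_nhds (hU.mem_nhds hx)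
  obtain ⟨C, hC⟩ := ((isCompact_Icc (a := (0 : ℝ)) (b := 1)).prod hc).exists_bound_of_continuousOn
    (hf.mono fun p hp => hUO p.1 hp.1 p.2 (hsU hp.2))
  refine ⟨s, hs, hsU, C, fun t ht y hy => hC (t, y) ⟨?_, hy⟩⟩
  rw [uIoc_of_le zero_le_one] at ht
  exact Ioc_subset_Icc_self ht

theorem FHom_mem {t : ℝ} (ht : t ∈ uIoc (0 : ℝ) 1) : t ∈ Icc (0 : ℝ) 1 := by
  rw [uIoc_of_le zero_le_one] at ht
  exact Ioc_subset_Icc_self ht

omit [FiniteDimensional ℝ E] in
theorem FHom_right {f : ℝ × E → V} {t : ℝ} {x : E} (hf : DifferentiableAt ℝ f (t, x)) :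
    HasFDerivAt (fun y => f (t, y))
      ((fderiv ℝ f (t, x)).comp (ContinuousLinearMap.inr ℝ ℝ E)) x :=
  hf.hasFDerivAt.comp x (hasFDerivAt_prodMk_right t x)

omit [FiniteDimensional ℝ E] in
theorem FHom_left {f : ℝ × E → V} {t : ℝ} {x : E} (hf : DifferentiableAt ℝ f (t, x)) :
    HasDerivAt (fun s => f (s, x)) (fderiv ℝ f (t, x) (1, 0)) t := by
  have h := (hf.hasFDerivAt.comp t (hasFDerivAt_prodMk_left t x)).hasDerivAt
  simpa [Function.comp_def] using h

theorem FHom_has [CompleteSpace V] (hO : IsOpen O) {f : ℝ × E → V} (hf : ContDiffOn ℝ 1 f O)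
    (hU : IsOpen U) (hUO : ∀ t ∈ Icc (0 : ℝ) 1, ∀ x ∈ U, (t, x) ∈ O) {x : E} (hx : x ∈ U) :
    HasFDerivAt (fun x => ∫ t in (0 : ℝ)..1, f (t, x))
      (∫ t in (0 : ℝ)..1, (fderiv ℝ f (t, x)).comp (ContinuousLinearMap.inr ℝ ℝ E)) x := by
  have hc := hf.continuousOn
  have hc' : ContinuousOn (fun p => (fderiv ℝ f p).comp (ContinuousLinearMap.inr ℝ ℝ E)) O :=
    (hf.continuousOn_fderiv_of_isOpen hO le_rfl).clm_comp continuousOn_const
  obtain ⟨s, hs, hsU, C, hC⟩ := FHom_bound hc' hU hUO hx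
  refine intervalIntegral.hasFDerivAt_integral_of_dominated_of_fderiv_le
    (F := fun x t => f (t, x))
    (F' := fun x t => (fderiv ℝ f (t, x)).comp (ContinuousLinearMap.inr ℝ ℝ E))
    (bound := fun _ => C) hs ?_ ?_ ?_ ?_ ?_ ?_
  · filter_upwards [hU.mem_nhds hx] with y hy
    exact FHom_meas hc fun t ht => hUO t ht y hy
  · exact FHom_int hc fun t ht => hUO t ht x hx
  · exact FHom_meas hc' fun t ht => hUO t ht x hx
  · exact Filter.Eventually.of_forall hC
  · exact intervalIntegrable_const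
  · refine Filter.Eventually.of_forall fun t ht y hy => FHom_right ?_
    exact (hf.contDiffAt (hO.mem_nhds (hUO t (FHom_mem ht) y (hsU hy)))).differentiableAt
      one_ne_zero

theorem FHom_ind (hO : IsOpen O) (hU : IsOpen U)
    (hUO : ∀ t ∈ Icc (0 : ℝ) 1, ∀ x ∈ U, (t, x) ∈ O) (n : ℕ) :
    ∀ (V : Type) [NormedAddCommGroup V] [NormedSpace ℝ V] [CompleteSpace V] (f : ℝ × E → V),
      ContDiffOn ℝ n f O → ContDiffOn ℝ n (fun x => ∫ t in (0 : ℝ)..1, f (t, x)) U := by
  induction n with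
  | zero =>
    intro V _ _ _ f hf
    have hc := hf.continuousOn
    rw [Nat.cast_zero, contDiffOn_zero]
    intro x hx
    obtain ⟨s, hs, hsU, C, hC⟩ := FHom_bound hc hU hUO hx
    refine ContinuousAt.continuousWithinAt ?_
    refine intervalIntegral.continuousAt_of_dominated_interval (F := fun x t => f (t, x))
      (bound := fun _ => C) ?_ ?_ intervalIntegrable_const ?_
    · filter_upwards [hU.mem_nhds hx] with y hy
      exact FHom_meas hc fun t ht => hUO t ht y hy
    · filter_upwards [hs] with y hy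
      exact Filter.Eventually.of_forall fun t ht => hC t ht y hy
    · refine Filter.Eventually.of_forall fun t ht => ?_
      exact (hc.continuousAt (hO.mem_nhds (hUO t (FHom_mem ht) x hx))).comp
        (f := fun y : E => (t, y)) (Continuous.prodMk_right t).continuousAt
  | succ n ih =>
    intro V _ _ _ f hf
    have hf' : ContDiffOn ℝ ((n : WithTop ℕ∞) + 1) f O := by exact_mod_cast hf
    have h1 : ContDiffOn ℝ 1 f O := hf'.of_le le_add_self
    have hd : ContDiffOn ℝ n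
        (fun p => (fderiv ℝ f p).comp (ContinuousLinearMap.inr ℝ ℝ E)) O :=
      (hf'.fderiv_of_isOpen hO le_rfl).clm_comp contDiffOn_const
    rw [Nat.cast_succ, contDiffOn_succ_iff_fderiv_of_isOpen hU]
    refine ⟨fun x hx => (FHom_has hO h1 hU hUO hx).differentiableAt.differentiableWithinAt,
      fun h => absurd h (by simp), ?_⟩
    exact (ih _ _ hd).congr fun x hx => (FHom_has hO h1 hU hUO hx).fderiv

theorem FHom_one_le : (1 : WithTop ℕ∞) ≤ ∞ := WithTop.coe_le_coe.2 (le_top : (1 : ℕ∞) ≤ ⊤)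

omit [FiniteDimensional ℝ E] in
theorem FHom_diff (hO : IsOpen O) {f : ℝ × E → V} (hf : ContDiffOn ℝ ∞ f O) {p : ℝ × E}
    (hp : p ∈ O) : DifferentiableAt ℝ f p :=
  (hf.contDiffAt (hO.mem_nhds hp)).differentiableAt (by simp)

end aux

theorem contDiffOn_integral {V : Type} [NormedAddCommGroup V] [NormedSpace ℝ V] [CompleteSpace V]
    {O : Set (ℝ × E)} (hO : IsOpen O) {f : ℝ × E → V} (hf : ContDiffOn ℝ ∞ f O) {U : Set E}
    (hU : IsOpen U) (hUO : ∀ t ∈ Icc (0 : ℝ) 1, ∀ x ∈ U, (t, x) ∈ O) :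
    ContDiffOn ℝ ∞ (fun x => ∫ t in (0 : ℝ)..1, f (t, x)) U ∧
      ∀ x ∈ U, fderiv ℝ (fun x => ∫ t in (0 : ℝ)..1, f (t, x)) x =
        ∫ t in (0 : ℝ)..1, fderiv ℝ (fun y => f (t, y)) x := by
  refine ⟨contDiffOn_infty.2 fun n => FHom_ind hO hU hUO n V f (contDiffOn_infty.1 hf n),
    fun x hx => ?_⟩
  rw [(FHom_has hO (hf.of_le FHom_one_le) hU hUO hx).fderiv]
  refine intervalIntegral.integral_congr fun t ht => ?_
  rw [uIcc_of_le zero_le_one] at ht
  exact (FHom_right (FHom_diff hO hf (hUO t ht x hx))).fderiv.symm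

theorem extDeriv_integral {O : Set (ℝ × E)} (hO : IsOpen O) {f : ℝ × E → Alt E k}
    (hf : ContDiffOn ℝ ∞ f O) {U : Set E} (hU : IsOpen U)
    (hUO : ∀ t ∈ Icc (0 : ℝ) 1, ∀ x ∈ U, (t, x) ∈ O) {x : E} (hx : x ∈ U) :
    extDeriv (fun x => ∫ t in (0 : ℝ)..1, f (t, x)) x =
      ∫ t in (0 : ℝ)..1, extDeriv (fun y => f (t, y)) x := by
  have hc' : ContinuousOn (fun p => (fderiv ℝ f p).comp (ContinuousLinearMap.inr ℝ ℝ E)) O :=
    (hf.continuousOn_fderiv_of_isOpen hO FHom_one_le).clm_comp continuousOn_const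
  have hi := FHom_int (V := E →L[ℝ] Alt E k) hc' fun t ht => hUO t ht x hx
  have h1 := (FHom_has hO (hf.of_le FHom_one_le) hU hUO hx).fderiv
  have h2 := ContinuousLinearMap.intervalIntegral_comp_comm (𝕜 := ℝ) (E := E →L[ℝ] Alt E k)
    (F := Alt E (k + 1)) (ContinuousAlternatingMap.alternatizeUncurryFinCLM (n := k) ℝ E ℝ) hi
  unfold extDeriv
  rw [h1, ← ContinuousAlternatingMap.alternatizeUncurryFinCLM_apply, ← h2]
  refine intervalIntegral.integral_congr fun t ht => ?_
  rw [uIcc_of_le zero_le_one] at ht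
  simp only [ContinuousAlternatingMap.alternatizeUncurryFinCLM_apply]
  rw [(FHom_right (FHom_diff hO hf (hUO t ht x hx))).fderiv]

theorem pb_integral (g : E → F) (f : ℝ → Fm F k) (x : E)
    (hf : ContinuousOn (fun t => f t (g x)) (Icc 0 1)) :
    pb g (fun y => ∫ t in (0 : ℝ)..1, f t y) x = ∫ t in (0 : ℝ)..1, pb g (f t) x := by
  have hi : IntervalIntegrable (fun t => f t (g x)) MeasureTheory.volume 0 1 :=
    hf.intervalIntegrable_of_Icc zero_le_one
  exact ((ContinuousAlternatingMap.compContinuousLinearMapCLM (𝕜 := ℝ) (ι := Fin k) (F := ℝ)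
    (fderiv ℝ g x)).intervalIntegral_comp_comm hi).symm

/-- The restriction of the total pull-back to the time slices. -/
noncomputable def FHom_A (G : Fm (ℝ × E) k) (p : ℝ × E) : Alt E k :=
  (G p).compContinuousLinearMap (ContinuousLinearMap.inr ℝ ℝ E)

/-- The contraction with the time direction, restricted to the time slices. -/
noncomputable def FHom_B (G : Fm (ℝ × E) (k + 1)) (p : ℝ × E) : Alt E k :=
  ((G p).curryLeft (1, 0)).compContinuousLinearMap (ContinuousLinearMap.inr ℝ ℝ E)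

theorem FHom_A_smooth {O : Set (ℝ × E)} (hO : IsOpen O) {G : Fm (ℝ × E) k} (hG : Sm G O) :
    ContDiffOn ℝ ∞ (FHom_A G) O := fun p hp =>
  (ContDiffAt.alt_comp (hG.at hO hp) contDiffAt_const).contDiffWithinAt

theorem FHom_B_smooth {O : Set (ℝ × E)} (hO : IsOpen O) {G : Fm (ℝ × E) (k + 1)} (hG : Sm G O) :
    ContDiffOn ℝ ∞ (FHom_B G) O := fun p hp =>
  (contDiffAt_alt_iff.2 fun v => contDiffAt_alt_iff.1 (hG.at hO hp)
    (Matrix.vecCons (1, 0) (ContinuousLinearMap.inr ℝ ℝ E ∘ v))).contDiffWithinAt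

omit [FiniteDimensional ℝ E] [FiniteDimensional ℝ F] in
theorem FHom_hA {H : ℝ × E → F} (α : Fm F k) {t : ℝ} {x : E}
    (hH : DifferentiableAt ℝ H (t, x)) : hA H α t x = FHom_A (pb H α) (t, x) := by
  unfold hA FHom_A pb
  rw [(FHom_right hH).fderiv]
  rfl

omit [FiniteDimensional ℝ E] [FiniteDimensional ℝ F] in
theorem FHom_hB {H : ℝ × E → F} (α : Fm F (k + 1)) {t : ℝ} {x : E}
    (hH : DifferentiableAt ℝ H (t, x)) :
    ((α (H (t, x))).curryLeft (fderiv ℝ H (t, x) (1, 0))).compContinuousLinearMap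
      (fderiv ℝ (fun y => H (t, y)) x) = FHom_B (pb H α) (t, x) := by
  unfold FHom_B pb
  rw [(FHom_right hH).fderiv, ContinuousAlternatingMap.curryLeft_compContinuousLinearMap]
  rfl

omit [FiniteDimensional ℝ E] [FiniteDimensional ℝ F] in
theorem FHom_hK {O : Set (ℝ × E)} (hO : IsOpen O) {H : ℝ × E → F} (hH : ContDiffOn ℝ ∞ H O)
    (w : ℝ → ℝ) (α : Fm F (k + 1)) {x : E} (hx : ∀ t ∈ Icc (0 : ℝ) 1, (t, x) ∈ O) :
    hK w H α x = ∫ t in (0 : ℝ)..1, w t • FHom_B (pb H α) (t, x) := by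
  refine intervalIntegral.integral_congr fun t ht => ?_
  rw [uIcc_of_le zero_le_one] at ht
  rw [FHom_hB α (FHom_diff hO hH (hx t ht))]

theorem FHom_remove {X : Type} (a : X) (w : Fin (k + 1) → X) (i : Fin (k + 1)) :
    Fin.removeNth (α := fun _ => X) i.succ (Matrix.vecCons a w) =
      Matrix.vecCons a (Fin.removeNth (α := fun _ => X) i w) := by
  funext j
  refine Fin.cases ?_ (fun j => ?_) j
  · simp [Fin.removeNth]
  · simp only [Fin.removeNth, Fin.succ_succAbove_succ, Matrix.cons_val_succ]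

/-- The formula of Cartan for a closed form on the product. -/
theorem FHom_cartan {O : Set (ℝ × E)} (hO : IsOpen O) {G : Fm (ℝ × E) (k + 1)} (hG : Cl G O)
    {t : ℝ} {x : E} (hp : (t, x) ∈ O) :
    fderiv ℝ (FHom_A G) (t, x) (1, 0) = extDeriv (fun y => FHom_B G (t, y)) x := by
  have dG := hG.1.diffAt hO hp
  have dA := FHom_diff hO (FHom_A_smooth hO hG.1) hp
  have dB := FHom_diff hO (FHom_B_smooth hO hG.1) hp
  ext v
  have h0 := extDeriv_apply dG (Matrix.vecCons (1, 0) (ContinuousLinearMap.inr ℝ ℝ E ∘ v))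
  rw [hG.2 _ hp, Fin.sum_univ_succ] at h0
  rw [extDeriv_apply (FHom_right dB).differentiableAt,
    ← fderiv_continuousAlternatingMap_apply_const_apply dA]
  have e1 : ∀ i : Fin (k + 1), fderiv ℝ (fun y => FHom_B G (t, y) (i.removeNth v)) x (v i) =
      fderiv ℝ (fun q => G q (Fin.removeNth (α := fun _ => ℝ × E) i.succ
        (Matrix.vecCons (1, 0) (ContinuousLinearMap.inr ℝ ℝ E ∘ v)))) (t, x) (0, v i) := by
    intro i
    rw [FHom_remove]
    have d1 := dG.continuousAlternatingMap_apply_const (Matrix.vecCons ((1 : ℝ), (0 : E))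
      (Fin.removeNth (α := fun _ => ℝ × E) i (ContinuousLinearMap.inr ℝ ℝ E ∘ v)))
    have := (FHom_right d1).fderiv
    exact congrArg (fun L : E →L[ℝ] ℝ => L (v i)) this
  simp only [e1]
  have e2 : (fun q => FHom_A G q v) = fun q => G q (Fin.removeNth (α := fun _ => ℝ × E) 0
      (Matrix.vecCons (1, 0) (ContinuousLinearMap.inr ℝ ℝ E ∘ v))) := rfl
  rw [e2]
  simp only [ContinuousAlternatingMap.coe_zero, Pi.zero_apply, Fin.val_zero, pow_zero, one_smul,
    Matrix.cons_val_zero, Fin.val_succ, pow_succ, mul_neg, mul_one, neg_smul,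
    Finset.sum_neg_distrib, Matrix.cons_val_succ, Function.comp_apply,
    ContinuousLinearMap.inr_apply] at h0
  linarith

theorem contDiffOn_hA {O : Set (ℝ × E)} (hO : IsOpen O) {H : ℝ × E → F} (hH : ContDiffOn ℝ ∞ H O)
    {W : Set F} (hW : IsOpen W) (hm : MapsTo H O W) {α : Fm F k} (hα : Sm α W) :
    ContDiffOn ℝ ∞ (fun p : ℝ × E => hA H α p.1 p.2) O := by
  refine (FHom_A_smooth hO (hα.pb hO hW hH hm)).congr fun p hp => ?_
  exact FHom_hA α (FHom_diff hO hH hp)

theorem homotopy {O : Set (ℝ × E)} (hO : IsOpen O) {H : ℝ × E → F} (hH : ContDiffOn ℝ ∞ H O)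
    {W : Set F} (hW : IsOpen W) (hm : MapsTo H O W) {α : Fm F (k + 1)} (hα : Cl α W) {U : Set E}
    (hU : IsOpen U) (hUO : ∀ t ∈ Icc (0 : ℝ) 1, ∀ x ∈ U, (t, x) ∈ O) (p q : ℝ) :
    IsD (hK (fun t => p + q * t) H α)
      (fun x => (p + q) • hA H α 1 x - p • hA H α 0 x - q • ∫ t in (0 : ℝ)..1, hA H α t x) U := by
  have hG := hα.pb hO hW hH hm
  have sA := FHom_A_smooth hO hG.1
  have sB := FHom_B_smooth hO hG.1
  have sw : ContDiffOn ℝ ∞ (fun z : ℝ × E => (p + q * z.1) • FHom_B (pb H α) z) O :=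
    (by fun_prop : ContDiff ℝ ∞ fun z : ℝ × E => p + q * z.1).contDiffOn.smul sB
  have e : ∀ x ∈ U, hK (fun t => p + q * t) H α x =
      ∫ t in (0 : ℝ)..1, (p + q * t) • FHom_B (pb H α) (t, x) := fun x hx =>
    FHom_hK hO hH _ α fun t ht => hUO t ht x hx
  refine ⟨(contDiffOn_integral hO sw hU hUO).1.congr e, fun x hx => ?_⟩
  have hx' : ∀ t ∈ Icc (0 : ℝ) 1, (t, x) ∈ O := fun t ht => hUO t ht x hx
  have e' : hK (fun t => p + q * t) H α =ᶠ[𝓝 x] fun x =>
      ∫ t in (0 : ℝ)..1, (p + q * t) • FHom_B (pb H α) (t, x) := by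
    filter_upwards [hU.mem_nhds hx] with y hy using e y hy
  rw [e'.extDeriv_eq, extDeriv_integral hO sw hU hUO hx]
  have cA := sA.continuousOn
  have cD : ContinuousOn
      (fun z : ℝ × E => (p + q * z.1) • fderiv ℝ (FHom_A (pb H α)) z (1, 0)) O :=
    (by fun_prop : Continuous fun z : ℝ × E => p + q * z.1).continuousOn.smul
      ((sA.continuousOn_fderiv_of_isOpen hO FHom_one_le).clm_apply continuousOn_const)
  have iA := FHom_int cA hx'
  have iD := FHom_int cD hx'
  have hd : ∀ t ∈ uIcc (0 : ℝ) 1, HasDerivAt (fun s => (p + q * s) • FHom_A (pb H α) (s, x))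
      ((p + q * t) • fderiv ℝ (FHom_A (pb H α)) (t, x) (1, 0) + q • FHom_A (pb H α) (t, x)) t := by
    intro t ht
    rw [uIcc_of_le zero_le_one] at ht
    have h1 : HasDerivAt (fun s : ℝ => p + q * s) q t := by
      simpa using ((hasDerivAt_id t).const_mul q).const_add p
    exact h1.smul (FHom_left (FHom_diff hO sA (hx' t ht)))
  have iA' : IntervalIntegrable (fun t => q • FHom_A (pb H α) (t, x)) MeasureTheory.volume 0 1 :=
    iA.smul q
  have iD' : IntervalIntegrable (fun t => (p + q * t) • fderiv ℝ (FHom_A (pb H α)) (t, x) (1, 0))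
    MeasureTheory.volume 0 1 := iD
  have hF := intervalIntegral.integral_eq_sub_of_hasDerivAt hd (iD'.add iA')
  rw [intervalIntegral.integral_add iD' iA', intervalIntegral.integral_smul] at hF
  have e1 : (∫ t in (0 : ℝ)..1, extDeriv (fun y => (p + q * t) • FHom_B (pb H α) (t, y)) x) =
      ∫ t in (0 : ℝ)..1, (p + q * t) • fderiv ℝ (FHom_A (pb H α)) (t, x) (1, 0) := by
    refine intervalIntegral.integral_congr fun t ht => ?_
    rw [uIcc_of_le zero_le_one] at ht
    rw [FHom_cartan hO hG (hx' t ht)]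
    exact extDeriv_smul (p + q * t) fun y => FHom_B (pb H α) (t, y)
  have e2 : (∫ t in (0 : ℝ)..1, hA H α t x) = ∫ t in (0 : ℝ)..1, FHom_A (pb H α) (t, x) := by
    refine intervalIntegral.integral_congr fun t ht => ?_
    rw [uIcc_of_le zero_le_one] at ht
    exact FHom_hA α (FHom_diff hO hH (hx' t ht))
  simp only
  rw [e1, e2, FHom_hA α (FHom_diff hO hH (hx' 1 ⟨zero_le_one, le_rfl⟩)),
    FHom_hA α (FHom_diff hO hH (hx' 0 ⟨le_rfl, zero_le_one⟩))]
  simp only [mul_one, mul_zero, add_zero] at hF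
  rw [← hF, add_sub_cancel_right]

theorem homotopy_zero {O : Set (ℝ × E)} (hO : IsOpen O) {H : ℝ × E → F} (hH : ContDiffOn ℝ ∞ H O)
    {W : Set F} (hW : IsOpen W) (hm : MapsTo H O W) {α : Fm F 0} (hα : Cl α W) {x : E}
    (hx : ∀ t ∈ Icc (0 : ℝ) 1, (t, x) ∈ O) : α (H (1, x)) = α (H (0, x)) := by
  have hd : ∀ t ∈ uIcc (0 : ℝ) 1, HasDerivAt (fun s => α (H (s, x))) 0 t := by
    intro t ht
    rw [uIcc_of_le zero_le_one] at ht
    have h1 := (hα.1.diffAt hW (hm (hx t ht))).hasFDerivAt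
    rw [extDeriv_zero_iff.1 (hα.2 _ (hm (hx t ht)))] at h1
    exact h1.comp_hasDerivAt t (FHom_left (FHom_diff hO hH (hx t ht)))
  have hF := intervalIntegral.integral_eq_sub_of_hasDerivAt hd intervalIntegrable_const
  rw [intervalIntegral.integral_zero] at hF
  exact (sub_eq_zero.1 hF.symm)

/-- Naturality of the homotopy operator under a pair of maps commuting with the homotopy. -/
theorem hK_nat {O : Set (ℝ × E)} (hO : IsOpen O) {H : ℝ × E → F} (hH : ContDiffOn ℝ ∞ H O)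
    {W : Set F} (hW : IsOpen W) (hm : MapsTo H O W) {α : Fm F (k + 1)} (hα : Sm α W)
    {f : E → E} {g : F → F} (hf : ContDiff ℝ ∞ f) (hg : ContDiff ℝ ∞ g)
    (hO' : ∀ p ∈ O, (p.1, f p.2) ∈ O) (hc : ∀ p ∈ O, H (p.1, f p.2) = g (H p))
    (hi : ∀ y ∈ W, pb g α y = α y) {w : ℝ → ℝ} (hw : Continuous w) {x : E}
    (hx : ∀ t ∈ Icc (0 : ℝ) 1, (t, x) ∈ O) : pb f (hK w H α) x = hK w H α x := by
  have hx' : ∀ t ∈ Icc (0 : ℝ) 1, (t, f x) ∈ O := fun t ht => hO' _ (hx t ht)
  have sB := FHom_B_smooth hO (hα.pb hO hW hH hm)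
  have cB : ContinuousOn (fun z : ℝ × E => w z.1 • FHom_B (pb H α) z) O :=
    (hw.comp continuous_fst).continuousOn.smul sB.continuousOn
  have e1 : pb f (hK w H α) x =
      pb f (fun y => ∫ t in (0 : ℝ)..1, w t • FHom_B (pb H α) (t, y)) x :=
    pb_congr' (FHom_hK hO hH w α hx')
  rw [e1, pb_integral f (fun t y => w t • FHom_B (pb H α) (t, y)) x (FHom_slice cB hx'),
    FHom_hK hO hH w α hx]
  refine intervalIntegral.integral_congr fun t ht => ?_
  rw [uIcc_of_le zero_le_one] at ht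
  rw [pb_fun_smul f (fun _ => w t) (fun y => FHom_B (pb H α) (t, y)) x]
  congr 1
  have df : DifferentiableAt ℝ f x := hf.differentiable (by simp) x
  have dΦ : HasFDerivAt (fun z : ℝ × E => (z.1, f z.2))
      ((ContinuousLinearMap.fst ℝ ℝ E).prod
        ((fderiv ℝ f x).comp (ContinuousLinearMap.snd ℝ ℝ E))) (t, x) :=
    hasFDerivAt_fst.prodMk (HasFDerivAt.comp (f := Prod.snd) (t, x) df.hasFDerivAt hasFDerivAt_snd)
  have h1 : pb (fun z : ℝ × E => H (z.1, f z.2)) α (t, x) = pb (fun z => g (H z)) α (t, x) :=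
    pb_congr α (by filter_upwards [hO.mem_nhds (hx t ht)] with z hz using hc z hz)
  rw [pb_comp (f := fun z : ℝ × E => (z.1, f z.2)) (g := H) α dΦ.differentiableAt
      (FHom_diff hO hH (hx' t ht)),
    pb_comp α (FHom_diff hO hH (hx t ht)) (hg.differentiable (by simp) _),
    pb_congr' (β := α) (hi _ (hm (hx t ht)))] at h1
  unfold FHom_B
  rw [← h1]
  ext v
  simp only [pb, dΦ.fderiv, ContinuousAlternatingMap.compContinuousLinearMap_apply,
    ContinuousAlternatingMap.curryLeft_apply_apply]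
  congr 1
  funext j
  refine Fin.cases ?_ (fun j => ?_) j
  · simp
  · simp only [Function.comp_apply, Matrix.cons_val_succ]
    rfl

end Pool.Agent.Work.MP_bf98aa_gt.Th
end
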