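import Pool.Agent.Work.MP_bf98aa_gt.Th.FHom

/-!
Working definitions, part 2: nilpotent Lie algebra data, the group law, left invariant forms.
-/

set_option autoImplicit false

open scoped ContDiff

namespace Pool.Agent.Work.MP_bf98aa_gt.Th

section
variable {S : Type} [Fintype S]

/-- The standard symplectic form. -/
def om (u v : Sp S) : ℝ := ∑ s, (u (s, 0) * v (s, 1) - u (s, 1) * v (s, 0))

/-- The bilinear form `u i * v j`. -/
noncomputable def dxy (i j : S × Fin 2) : Sp S →L[ℝ] Sp S →L[ℝ] ℝ :=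
  (ContinuousLinearMap.proj (R := ℝ) (φ := fun _ : S × Fin 2 => ℝ) i).smulRight
    (ContinuousLinearMap.proj (R := ℝ) (φ := fun _ : S × Fin 2 => ℝ) j)

/-- The standard symplectic form as an alternating form. -/
noncomputable def omA : Alt (Sp S) 2 := alt2 (∑ s, dxy (s, 0) (s, 1))

/-- The form with slot eigenvalues `α s ± i β s`; `π` pairs the slots. -/
noncomputable def etaA (α β : S → ℝ) (π : S → S) : Alt (Sp S) 2 :=
  alt2 (∑ s, (α s • dxy (s, 0) (s, 1) + β s • dxy (s, 0) (π s, 1)))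

/-- The complex structure. -/
def Jv (v : Sp S) : Sp S := fun i => if i.2 = 0 then -v (i.1, 1) else v (i.1, 0)

/-- The squared Euclidean norm. -/
def nsq (v : Sp S) : ℝ := ∑ i, v i ^ 2

/-- Complex coordinates. -/
def zc (v : Sp S) (s : S) : ℂ := ⟨v (s, 0), v (s, 1)⟩

/-- The vectors of level at least `l`. -/
def Fl (lev : S × Fin 2 → ℕ) (l : ℕ) : Submodule ℝ (Sp S) where
  carrier := {v | ∀ i, lev i < l → v i = 0}
  add_mem' := fun ha hb i hi => by simp [ha i hi, hb i hi]
  zero_mem' := fun _ _ => rfl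
  smul_mem' := fun c v hv i hi => by simp [hv i hi]

/-- The group law (Baker-Campbell-Hausdorff up to order three). -/
noncomputable def mulB (b : Sp S →L[ℝ] Sp S →L[ℝ] Sp S) (x y : Sp S) : Sp S :=
  x + y + (1 / 2 : ℝ) • b x y + (1 / 12 : ℝ) • (b x (b x y) + b y (b y x))

/-- The central component of the group law of the extension by `om`. -/
noncomputable def phiB (b : Sp S →L[ℝ] Sp S →L[ℝ] Sp S) (x y : Sp S) : ℝ :=
  1 / 2 * om x y + 1 / 12 * (om x (b x y) + om y (b y x)) - 1 / 24 * om y (b x (b x y))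

/-- The family with `w` on the first `n` slots and `τ l` on the others. -/
def fam {X : Type} {n n' : ℕ} (e : Fin n ⊕ Fin n' ≃ S) (w : X) (τ : Fin n' → X) : S → X :=
  fun s => Sum.elim (fun _ => w) τ (e.symm s)

variable {G : Type} [AddCommGroup G]

/-- The sign of a class mod two. -/
def sgn (a : ZMod 2) : ℝ := if a = 0 then 1 else -1

/-- The diagonal action by signs. -/
noncomputable def sg (ch : S → G →+ ZMod 2) (g : G) : Sp S →L[ℝ] Sp S :=
  ContinuousLinearMap.pi fun i =>
    sgn (ch i.1 g) • ContinuousLinearMap.proj (R := ℝ) (φ := fun _ : S × Fin 2 => ℝ) i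

end

/-- A rational nilpotent Lie algebra with closed standard form and a diagonal group of signs. -/
structure Nil (S G : Type) [Fintype S] [DecidableEq S] [AddCommGroup G] where
  br : Sp S →L[ℝ] Sp S →L[ℝ] Sp S
  lev : S × Fin 2 → ℕ
  ch : S → G →+ ZMod 2
  tau : S × Fin 2 → G →+ ZMod 2
  anti : ∀ u v, br u v = -br v u
  jac : ∀ u v w, br u (br v w) + br v (br w u) + br w (br u v) = 0
  lev_pos : ∀ i, 1 ≤ lev i
  lev_sum : ∀ s, lev (s, 0) + lev (s, 1) ≤ 4
  filt : ∀ a b, ∀ u ∈ Fl lev a, ∀ v ∈ Fl lev b, br u v ∈ Fl lev (a + b)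
  rat : ∀ i j k, ∃ q : ℚ, br (Pi.single i 1) (Pi.single j 1) k = q
  aut : ∀ g u v, br (sg ch g u) (sg ch g v) = sg ch g (br u v)
  free : ∀ g, g ≠ 0 → ∃ i, lev i = 1 ∧ ch i.1 g = 0 ∧ tau i g = 1
  clo : ∀ u v w, om (br u v) w + om (br v w) u + om (br w u) v = 0

namespace Nil

variable {S G : Type} [Fintype S] [DecidableEq S] [AddCommGroup G] (D : Nil S G)

/-- The group law. -/
noncomputable def mul (x y : Sp S) : Sp S := mulB D.br x y

/-- The cocycle. -/
noncomputable def phi (x y : Sp S) : ℝ := phiB D.br x y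

/-- The sign action. -/
noncomputable def sg (g : G) : Sp S →L[ℝ] Sp S := Th.sg D.ch g

/-- The left invariant frame: the derivative of `mul x` at `0`. -/
noncomputable def fr (x : Sp S) : Sp S →L[ℝ] Sp S :=
  ContinuousLinearMap.id ℝ _ + (1 / 2 : ℝ) • D.br x + (1 / 12 : ℝ) • (D.br x).comp (D.br x)

/-- The left invariant coframe: the derivative of `mul (-x)` at `x`. -/
noncomputable def th (x : Sp S) : Sp S →L[ℝ] Sp S :=
  ContinuousLinearMap.id ℝ _ - (1 / 2 : ℝ) • D.br x + (1 / 6 : ℝ) • (D.br x).comp (D.br x)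

/-- The left invariant form with value `c` at the origin. -/
noncomputable def lf {k : ℕ} (c : Alt (Sp S) k) : Fm (Sp S) k :=
  fun x => c.compContinuousLinearMap (D.th x)

/-- The connection form. -/
noncomputable def lam (x : Sp S) : Sp S →L[ℝ] ℝ := (fderiv ℝ (D.phi x) 0).comp (D.th x)

/-- Invariance under the signs. -/
def GI {k : ℕ} (c : Alt (Sp S) k) : Prop := ∀ g, c.compContinuousLinearMap (D.sg g) = c

/-- Closed 2-cochains. -/
def CE2 (w : Alt (Sp S) 2) : Prop :=
  ∀ u v z, w ![D.br u v, z] + w ![D.br v z, u] + w ![D.br z u, v] = 0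

/-- Coboundaries of invariant 1-cochains. -/
def EX (w : Alt (Sp S) 2) : Prop :=
  ∃ β : Alt (Sp S) 1, D.GI β ∧ ∀ u v, w ![u, v] = β ![D.br u v]

/-- No invariant closed 1-cochain. -/
def H1 : Prop := ∀ β : Alt (Sp S) 1, D.GI β → (∀ u v, β ![D.br u v] = 0) → β = 0

/-- The same data with the bracket divided by `k`. -/
noncomputable def scale (k : ℕ) : Nil S G where
  br := ((k : ℝ))⁻¹ • D.br
  lev := D.lev
  ch := D.ch
  tau := D.tau
  anti := fun u v => by
    simp only [smul_apply]; rw [D.anti u v, smul_neg]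
  jac := fun u v w => by
    simp only [smul_apply, map_smul]
    rw [← smul_add, ← smul_add, ← smul_add, ← smul_add, D.jac, smul_zero, smul_zero]
  lev_pos := D.lev_pos
  lev_sum := D.lev_sum
  filt := fun a b u hu v hv => (Fl D.lev (a + b)).smul_mem _ (D.filt a b u hu v hv)
  rat := fun i j l => by
    obtain ⟨q, hq⟩ := D.rat i j l
    exact ⟨(k : ℚ)⁻¹ * q, by simp [hq]⟩
  aut := fun g u v => by
    simp only [smul_apply, map_smul]; rw [D.aut]
  free := D.free
  clo := fun u v w => by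
    have h := D.clo u v w
    have h2 : ∀ (c : ℝ) (p q : Sp S), om (c • p) q = c * om p q := fun c p q => by
      simp only [om, Finset.mul_sum, Pi.smul_apply, smul_eq_mul]
      exact Finset.sum_congr rfl fun s _ => by ring
    simp only [smul_apply, h2]
    rw [← mul_add, ← mul_add, h, mul_zero]

/-- A lattice spacing for which the group law and the cocycle are integral. -/
structure Lt where
  L : ℝ
  pos : 0 < L
  int_mul : ∀ u v : Sp S, (∀ i, ∃ z : ℤ, u i = L / 2 * z) → (∀ i, ∃ z : ℤ, v i = L / 2 * z) →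
    ∀ i, ∃ z : ℤ, D.mul u v i = u i + v i + L * z
  int_phi : ∀ u v : Sp S, (∀ i, ∃ z : ℤ, u i = L / 2 * z) → (∀ i, ∃ z : ℤ, v i = L / 2 * z) →
    ∃ z : ℤ, D.phi u v = z

variable {D}

/-- The deck group: pairs `(ν, g)` acting by `x ↦ ν * g x`. -/
@[ext] structure Lt.Gp (Λ : D.Lt) where
  nu : Sp S
  g : G
  mem : ∀ i, ∃ z : ℤ, nu i = Λ.L * (((D.tau i g).val : ℝ) / 2 + z)

end Nil

end Pool.Agent.Work.MP_bf98aa_gt.Th
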