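import Mathlib
import Pool.Agent.Work.MP_bf98aa_gt.Th.NDefs
import Pool.Agent.Work.MP_bf98aa_gt.Th.FHom
import Pool.Agent.Work.MP_bf98aa_gt.Ns.Lin

-- merged part: Pool.Agent.Work.MP_bf98aa_gt.Th.NBch
section
/-!
Associativity of the Baker-Campbell-Hausdorff product in a four-step nilpotent Lie algebra.

PLAN. Expand both sides by bilinearity (`map_add, map_smul, map_sub, LinearMap.add_apply ...`); all monomials of degree
at least five vanish (membership in `Fi 5 = ⊥`). Rewrite every monomial as a combination of right-nested brackets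
`b a (b c (b d e))` (`b (b p q) r = b p (b q r) - b q (b p r)`), order the innermost pair by `anti`. The remaining
identity is a linear combination of: Jacobi for `(x, y, z)`, `b a (Jacobi)` for `a = x, y, z`, and
`b (b p q) (b r s) = - b (b r s) (b p q)` for the pairs `xy, xz, yz` (9 relations in degree four); find the
coefficients with a small script and finish with `linear_combination (exp := 1) c • h + ...` (`module`).
It may be easier to treat the degrees separately, or to prove first `b (m x y) z` formulas.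
-/

set_option autoImplicit false

namespace Pool.Agent.Work.MP_bf98aa_gt.Th

/-- The truncated product. -/
noncomputable def bch4 {V : Type} [AddCommGroup V] [Module ℝ V] (b : V →ₗ[ℝ] V →ₗ[ℝ] V)
    (x y : V) : V :=
  x + y + (1 / 2 : ℝ) • b x y + (1 / 12 : ℝ) • (b x (b x y) + b y (b y x)) -
    (1 / 24 : ℝ) • b y (b x (b x y))

section
variable {V : Type} [AddCommGroup V] [Module ℝ V] (b : V →ₗ[ℝ] V →ₗ[ℝ] V) (Fi : ℕ → Submodule ℝ V)
  (h1 : ∀ v, v ∈ Fi 1) (h5 : ∀ v ∈ Fi 5, v = 0)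
  (hf : ∀ i j, ∀ u ∈ Fi i, ∀ v ∈ Fi j, b u v ∈ Fi (i + j))
include h1 h5 hf

theorem NBch_left (u1 z : V) {u2 u3 u4 : V} (k2 : u2 ∈ Fi 2) (k3 : u3 ∈ Fi 3) (k4 : u4 ∈ Fi 4) :
    bch4 b (u1 + u2 + u3 + u4) z = u1 + u2 + u3 + u4 + z +
      (1 / 2 : ℝ) • (b u1 z + b u2 z + b u3 z) +
      (1 / 12 : ℝ) • (b u1 (b u1 z) + b u1 (b u2 z) + b u2 (b u1 z) + b z (b z u1) + b z (b z u2)) -
      (1 / 24 : ℝ) • b z (b u1 (b u1 z)) := by
  have a1 : ∀ w, b u4 w = 0 := fun w => h5 _ (hf 4 1 _ k4 _ (h1 w))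
  have a2 : ∀ w, b w u4 = 0 := fun w => h5 _ (hf 1 4 _ (h1 w) _ k4)
  have a3 : ∀ w w', b w (b u3 w') = 0 := fun w w' =>
    h5 _ (hf 1 4 _ (h1 w) _ (hf 3 1 _ k3 _ (h1 w')))
  have a4 : ∀ w w', b w (b w' u3) = 0 := fun w w' =>
    h5 _ (hf 1 4 _ (h1 w) _ (hf 1 3 _ (h1 w') _ k3))
  have a5 : ∀ w w', b u3 (b w w') = 0 := fun w w' =>
    h5 _ (hf 3 2 _ k3 _ (hf 1 1 _ (h1 w) _ (h1 w')))
  have a6 : ∀ w, b u2 (b u2 w) = 0 := fun w => h5 _ (hf 2 3 _ k2 _ (hf 2 1 _ k2 _ (h1 w)))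
  have a7 : ∀ w w' w'', b w (b u2 (b w' w'')) = 0 := fun w w' w'' =>
    h5 _ (hf 1 4 _ (h1 w) _ (hf 2 2 _ k2 _ (hf 1 1 _ (h1 w') _ (h1 w''))))
  have a8 : ∀ w w' w'', b w (b w' (b u2 w'')) = 0 := fun w w' w'' =>
    h5 _ (hf 1 4 _ (h1 w) _ (hf 1 3 _ (h1 w') _ (hf 2 1 _ k2 _ (h1 w''))))
  simp only [bch4, map_add, LinearMap.add_apply, a1, a2, a3, a4, a5, a6, a7, a8, add_zero]
  module

theorem NBch_right (x u1 : V) {u2 u3 u4 : V} (k2 : u2 ∈ Fi 2) (k3 : u3 ∈ Fi 3) (k4 : u4 ∈ Fi 4) :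
    bch4 b x (u1 + u2 + u3 + u4) = x + (u1 + u2 + u3 + u4) +
      (1 / 2 : ℝ) • (b x u1 + b x u2 + b x u3) +
      (1 / 12 : ℝ) • (b x (b x u1) + b x (b x u2) + b u1 (b u1 x) + b u1 (b u2 x) + b u2 (b u1 x)) -
      (1 / 24 : ℝ) • b u1 (b x (b x u1)) := by
  have a1 : ∀ w, b u4 w = 0 := fun w => h5 _ (hf 4 1 _ k4 _ (h1 w))
  have a2 : ∀ w, b w u4 = 0 := fun w => h5 _ (hf 1 4 _ (h1 w) _ k4)
  have a3 : ∀ w w', b w (b u3 w') = 0 := fun w w' =>
    h5 _ (hf 1 4 _ (h1 w) _ (hf 3 1 _ k3 _ (h1 w')))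
  have a4 : ∀ w w', b w (b w' u3) = 0 := fun w w' =>
    h5 _ (hf 1 4 _ (h1 w) _ (hf 1 3 _ (h1 w') _ k3))
  have a5 : ∀ w w', b u3 (b w w') = 0 := fun w w' =>
    h5 _ (hf 3 2 _ k3 _ (hf 1 1 _ (h1 w) _ (h1 w')))
  have a6 : ∀ w, b u2 (b u2 w) = 0 := fun w => h5 _ (hf 2 3 _ k2 _ (hf 2 1 _ k2 _ (h1 w)))
  have a7 : ∀ w w' w'', b u2 (b w (b w' w'')) = 0 := fun w w' w'' =>
    h5 _ (hf 2 3 _ k2 _ (hf 1 2 _ (h1 w) _ (hf 1 1 _ (h1 w') _ (h1 w''))))
  have a8 : ∀ w w' w'', b w (b w' (b w'' u2)) = 0 := fun w w' w'' =>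
    h5 _ (hf 1 4 _ (h1 w) _ (hf 1 3 _ (h1 w') _ (hf 1 2 _ (h1 w'') _ k2)))
  simp only [bch4, map_add, LinearMap.add_apply, a1, a2, a3, a4, a5, a6, a7, a8, add_zero]
  module

end

theorem bch4_assoc {V : Type} [AddCommGroup V] [Module ℝ V] (b : V →ₗ[ℝ] V →ₗ[ℝ] V)
    (anti : ∀ u v, b u v = -b v u)
    (jac : ∀ u v w, b u (b v w) + b v (b w u) + b w (b u v) = 0) (Fi : ℕ → Submodule ℝ V)
    (h1 : ∀ v, v ∈ Fi 1) (h5 : ∀ v ∈ Fi 5, v = 0)
    (hf : ∀ i j, ∀ u ∈ Fi i, ∀ v ∈ Fi j, b u v ∈ Fi (i + j)) (x y z : V) :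
    bch4 b (bch4 b x y) z = bch4 b x (bch4 b y z) := by
  have e : ∀ u v, bch4 b u v = (u + v) + (1 / 2 : ℝ) • b u v +
      (1 / 12 : ℝ) • (b u (b u v) + b v (b v u)) + (-(1 / 24) : ℝ) • b v (b u (b u v)) := by
    intro u v
    simp only [bch4]
    module
  have f2 : ∀ u v, b u v ∈ Fi 2 := fun u v => hf 1 1 _ (h1 u) _ (h1 v)
  have f3 : ∀ u v w, b u (b v w) ∈ Fi 3 := fun u v w => hf 1 2 _ (h1 u) _ (f2 v w)
  have f4 : ∀ t u v w, b t (b u (b v w)) ∈ Fi 4 := fun t u v w => hf 1 3 _ (h1 t) _ (f3 u v w)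
  rw [e x y, e y z,
    NBch_left b Fi h1 h5 hf _ _ ((Fi 2).smul_mem _ (f2 _ _))
      ((Fi 3).smul_mem _ ((Fi 3).add_mem (f3 _ _ _) (f3 _ _ _))) ((Fi 4).smul_mem _ (f4 _ _ _ _)),
    NBch_right b Fi h1 h5 hf _ _ ((Fi 2).smul_mem _ (f2 _ _))
      ((Fi 3).smul_mem _ ((Fi 3).add_mem (f3 _ _ _) (f3 _ _ _))) ((Fi 4).smul_mem _ (f4 _ _ _ _))]
  have nest : ∀ p q r, b (b p q) r = b p (b q r) - b q (b p r) := by
    intro p q r
    have h := jac p q r
    rw [anti r p, map_neg, anti r (b p q)] at h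
    linear_combination (norm := module) -h
  have sf : ∀ u, b u u = 0 := by
    intro u
    have h := anti u u
    linear_combination (norm := module) (1 / 2 : ℝ) • h
  have r1 := anti y x
  have r2 := anti z x
  have r3 := anti z y
  have j : b z (b x y) = b y (b x z) - b x (b y z) := by
    have h := jac x y z
    rw [r2, map_neg] at h
    linear_combination (norm := module) h
  have s1 : ∀ p q, b q (b p (b p q)) = b p (b q (b p q)) := by
    intro p q
    have h := sf (b p q)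
    rw [nest] at h
    linear_combination (norm := module) -h
  have s2 : ∀ p q r s, b s (b r (b p q)) = b p (b q (b r s)) - b q (b p (b r s)) +
      b r (b s (b p q)) := by
    intro p q r s
    have h := anti (b p q) (b r s)
    rw [nest, nest] at h
    linear_combination (norm := module) -h
  have t1 := s1 x y
  have t2 := s1 x z
  have t3 := s1 y z
  have t4 := s2 x y x z
  have t5 := s2 x y y z
  have t6 := s2 x z y z
  simp only [map_add, map_smul, map_sub, map_neg, LinearMap.add_apply, LinearMap.smul_apply,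
    LinearMap.neg_apply, nest, r1, r2, r3, t1, t2, t3, t4, t5, t6, j]
  module

end Pool.Agent.Work.MP_bf98aa_gt.Th
end

-- merged part: Pool.Agent.Work.MP_bf98aa_gt.Th.NGrp
section
/-!
The simply connected group: group law, cocycle, signs, frames.

PLAN. `mul_assoc` and `phi_cocycle`: apply `bch4_assoc` to `V = Sp S × ℝ` with
`b (u, s) (v, t) = (br u v, om u v)` and `Fi l = Fl lev l × ⊤` for `l ≤ 4`, `⊥` for `l ≥ 5` (`lev_sum` gives
`om u v = 0` for `u ∈ Fl a`, `v ∈ Fl b`, `5 ≤ a + b`; `Fl 4 = ⊥` since `lev ≤ 3`); `bch4 b (x,s) (y,t) = (mul x y, s + t + phi x y)`.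
`det_one_of_raise`: `A - 1` is nilpotent (`(A - 1) ^ 3 = 0`), so `det A = 1` (for example `t ↦ det (1 + t N)` is a
polynomial without roots..., or `Matrix.BlockTriangular` for the order by `lev`, or `IsNilpotent` and `charpoly`).
-/

set_option autoImplicit false

open scoped ContDiff Topology

namespace Pool.Agent.Work.MP_bf98aa_gt.Th

section
variable {S : Type} [Fintype S]

theorem NGrp_dxy (i j : S × Fin 2) (u v : Sp S) : dxy i j u v = u i * v j := by
  simp [dxy]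

theorem NGrp_one (β : Alt (Sp S) 1) (c : ℝ) (v : Sp S) : β ![c • v] = c * β ![v] := by
  obtain ⟨a, rfl⟩ := exists_lin β
  simp [alt1_apply]

theorem om_anti (u v : Sp S) : om u v = -om v u := by
  simp only [om, ← Finset.sum_neg_distrib]
  exact Finset.sum_congr rfl fun s _ => by ring

theorem omA_apply (u v : Sp S) : (omA : Alt (Sp S) 2) ![u, v] = om u v := by
  rw [omA, alt2_apply]
  simp only [sum_apply, NGrp_dxy, om, ← Finset.sum_sub_distrib]
  exact Finset.sum_congr rfl fun s _ => by simp [mul_comm]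

theorem etaA_apply (α β : S → ℝ) (π : S → S) (u v : Sp S) :
    etaA α β π ![u, v] = ∑ s, (u (s, 0) * (α s * v (s, 1) + β s * v (π s, 1)) -
      v (s, 0) * (α s * u (s, 1) + β s * u (π s, 1))) := by
  rw [etaA, alt2_apply]
  simp only [sum_apply, add_apply,
    smul_apply, NGrp_dxy, ← Finset.sum_sub_distrib, smul_eq_mul]
  refine Finset.sum_congr rfl fun s _ => ?_
  simp only [Matrix.cons_val_zero, Matrix.cons_val_one]
  ring

/-- `om` as a continuous bilinear map. -/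
theorem exists_omL : ∃ B : Sp S →L[ℝ] Sp S →L[ℝ] ℝ, ∀ u v, om u v = B u v := by
  refine ⟨∑ s, (dxy (s, 0) (s, 1) - dxy (s, 1) (s, 0)), fun u v => ?_⟩
  simp only [sum_apply, sub_apply, NGrp_dxy, om]

theorem om_Jv (v : Sp S) : om v (Jv v) = nsq v := by
  simp only [om, nsq, Fintype.sum_prod_type, Fin.sum_univ_two]
  refine Finset.sum_congr rfl fun s _ => ?_
  simp [Jv]
  ring

theorem zc_Jv (v : Sp S) (s : S) : zc (Jv v) s = Complex.I * zc v s := by
  apply Complex.ext <;> simp [zc, Jv]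

theorem Jv_Jv (v : Sp S) : Jv (Jv v) = -v := by
  funext ⟨s, j⟩
  fin_cases j <;> simp [Jv]

theorem norm_Jv (v : Sp S) : ‖Jv v‖ = ‖v‖ := by
  have h (u : Sp S) : ‖Jv u‖ ≤ ‖u‖ := (pi_norm_le_iff_of_nonneg (norm_nonneg _)).2 fun i => by
    unfold Jv
    split
    · rw [norm_neg]
      exact norm_le_pi_norm u _
    · exact norm_le_pi_norm u _
  refine le_antisymm (h v) ?_
  have := h (Jv v)
  rwa [Jv_Jv, norm_neg] at this

theorem nsq_Jv (v : Sp S) : nsq (Jv v) = nsq v := by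
  simp only [nsq, Fintype.sum_prod_type, Fin.sum_univ_two]
  refine Finset.sum_congr rfl fun s _ => ?_
  simp [Jv]
  ring

theorem exists_JL : ∃ J : Sp S →L[ℝ] Sp S, ∀ v, Jv v = J v := by
  refine ⟨ContinuousLinearMap.pi fun i => if i.2 = 0 then
    -ContinuousLinearMap.proj (R := ℝ) (φ := fun _ : S × Fin 2 => ℝ) (i.1, 1) else
    ContinuousLinearMap.proj (R := ℝ) (φ := fun _ : S × Fin 2 => ℝ) (i.1, 0), fun v => ?_⟩
  funext ⟨s, j⟩
  fin_cases j <;> simp [Jv]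

theorem norm_sq_le_nsq (v : Sp S) : ‖v‖ ^ 2 ≤ nsq v := by
  have h0 : 0 ≤ nsq v := Finset.sum_nonneg fun i _ => sq_nonneg _
  have h : ‖v‖ ≤ √(nsq v) := (pi_norm_le_iff_of_nonneg (Real.sqrt_nonneg _)).2 fun i =>
    Real.abs_le_sqrt (Finset.single_le_sum (f := fun i => v i ^ 2) (fun i _ => sq_nonneg _)
      (Finset.mem_univ i))
  exact (Real.le_sqrt (norm_nonneg _) h0).1 h

theorem nsq_le (v : Sp S) : nsq v ≤ 2 * Fintype.card S * ‖v‖ ^ 2 := by
  have h := Finset.sum_le_card_nsmul Finset.univ (fun i => v i ^ 2) (‖v‖ ^ 2) fun i _ => by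
    rw [← sq_abs]
    exact pow_le_pow_left₀ (abs_nonneg _) (norm_le_pi_norm v i) 2
  rw [Finset.card_univ, Fintype.card_prod, Fintype.card_fin, nsmul_eq_mul] at h
  push_cast at h
  unfold nsq
  linarith

theorem norm_zc_le (v : Sp S) (s : S) : ‖zc v s‖ ≤ 2 * ‖v‖ := by
  have h0 : |v (s, 0)| ≤ ‖v‖ := norm_le_pi_norm v _
  have h1 : |v (s, 1)| ≤ ‖v‖ := norm_le_pi_norm v _
  have h : ‖zc v s‖ ≤ |v (s, 0)| + |v (s, 1)| := Complex.norm_le_abs_re_add_abs_im _
  linarith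

theorem contDiff_nsq : ContDiff ℝ ∞ (nsq : Sp S → ℝ) := by
  exact ContDiff.sum fun i _ => (contDiff_apply ℝ ℝ i).pow 2

theorem contDiff_zc (s : S) : ContDiff ℝ ∞ fun v : Sp S => zc v s := by
  exact Complex.equivRealProdCLM.symm.contDiff.comp
    ((contDiff_apply ℝ ℝ ((s, 0) : S × Fin 2)).prodMk (contDiff_apply ℝ ℝ ((s, 1) : S × Fin 2)))

theorem contDiff_mulB : ContDiff ℝ ∞ fun p : (Sp S →L[ℝ] Sp S →L[ℝ] Sp S) × Sp S × Sp S =>
    mulB p.1 p.2.1 p.2.2 := by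
  unfold mulB
  fun_prop

theorem contDiff_phiB : ContDiff ℝ ∞ fun p : (Sp S →L[ℝ] Sp S →L[ℝ] Sp S) × Sp S × Sp S =>
    phiB p.1 p.2.1 p.2.2 := by
  obtain ⟨B, hB⟩ := exists_omL (S := S)
  simp only [phiB, hB]
  fun_prop

theorem sgn_add (a b : ZMod 2) : sgn (a + b) = sgn a * sgn b := by
  have h : ∀ a : ZMod 2, a = 0 ∨ a = 1 := by decide
  have h2 : (1 + 1 : ZMod 2) = 0 := rfl
  rcases h a with rfl | rfl <;> rcases h b with rfl | rfl <;> simp [sgn, h2]

theorem sgn_mul_self (a : ZMod 2) : sgn a * sgn a = 1 := by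
  unfold sgn
  split <;> norm_num

theorem mem_Fl {lev : S × Fin 2 → ℕ} {l : ℕ} {v : Sp S} :
    v ∈ Fl lev l ↔ ∀ i, lev i < l → v i = 0 := Iff.rfl

theorem Fl_anti (lev : S × Fin 2 → ℕ) {a b : ℕ} (h : a ≤ b) : Fl lev b ≤ Fl lev a := by
  exact fun v hv i hi => hv i (hi.trans_le h)

theorem det_one_of_raise {lev : S × Fin 2 → ℕ} (h1 : ∀ i, 1 ≤ lev i) (h3 : ∀ i, lev i ≤ 3)
    (A : Sp S →L[ℝ] Sp S) (h : ∀ l, ∀ v ∈ Fl lev l, A v - v ∈ Fl lev (l + 1)) : A.det = 1 := by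
  classical
  have hN : IsNilpotent (1 - (A : Module.End ℝ (Sp S))) := by
    have k (l : ℕ) (v : Sp S) (hv : v ∈ Fl lev l) :
        (1 - (A : Module.End ℝ (Sp S))) v ∈ Fl lev (l + 1) := by
      have := neg_mem (h l v hv)
      rwa [neg_sub] at this
    refine ⟨3, LinearMap.ext fun v => funext fun i => ?_⟩
    exact k 3 _ (k 2 _ (k 1 v fun j hj => absurd (h1 j) (by omega))) i (Nat.lt_succ_of_le (h3 i))
  have e := LinearMap.eval_charpoly (1 - (A : Module.End ℝ (Sp S))) 1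
  rw [hN.charpoly_eq_X_pow_finrank, map_one, sub_sub_cancel] at e
  rw [ContinuousLinearMap.det, ← e]
  simp

end

namespace Nil

variable {S G : Type} [Fintype S] [DecidableEq S] [AddCommGroup G] (D : Nil S G)

theorem lev_le (i : S × Fin 2) : D.lev i ≤ 3 := by
  obtain ⟨s, j⟩ := i
  have h := D.lev_sum s
  have h0 := D.lev_pos (s, 0)
  have h1 := D.lev_pos (s, 1)
  fin_cases j
  · show D.lev (s, 0) ≤ 3
    omega
  · show D.lev (s, 1) ≤ 3
    omega

theorem mem_Fl_one (v : Sp S) : v ∈ Fl D.lev 1 := by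
  exact fun i hi => absurd (D.lev_pos i) (by omega)

theorem eq_zero_of_Fl_four {v : Sp S} (h : v ∈ Fl D.lev 4) : v = 0 := by
  exact funext fun i => h i (Nat.lt_succ_of_le (D.lev_le i))

theorem br_self (v : Sp S) : D.br v v = 0 := by
  funext i
  have := congrFun (D.anti v v) i
  rw [Pi.neg_apply] at this
  rw [Pi.zero_apply]
  linarith

theorem NGrp_r {l : ℕ} {h : Sp S} (hh : h ∈ Fl D.lev l) (u : Sp S) :
    D.br u h ∈ Fl D.lev (l + 1) := by
  rw [add_comm]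
  exact D.filt 1 l u (D.mem_Fl_one u) h hh

theorem NGrp_l {l : ℕ} {h : Sp S} (hh : h ∈ Fl D.lev l) (u : Sp S) :
    D.br h u ∈ Fl D.lev (l + 1) := D.filt l 1 h hh u (D.mem_Fl_one u)

theorem NGrp_k {l : ℕ} {h : Sp S} (hh : h ∈ Fl D.lev l) (u : Sp S) : D.br u h ∈ Fl D.lev l :=
  Fl_anti _ (Nat.le_succ l) (D.NGrp_r hh u)

theorem NGrp_three (x y z v : Sp S) : D.br x (D.br y (D.br z v)) = 0 :=
  D.eq_zero_of_Fl_four (D.NGrp_r (D.NGrp_r (D.NGrp_r (D.mem_Fl_one v) z) y) x)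

theorem NGrp_cube (x v : Sp S) : D.br x (D.br x (D.br x v)) = 0 := D.NGrp_three x x x v

theorem NGrp_om {a b : ℕ} (hab : 5 ≤ a + b) {u v : Sp S} (hu : u ∈ Fl D.lev a)
    (hv : v ∈ Fl D.lev b) : om u v = 0 := by
  refine Finset.sum_eq_zero fun s _ => ?_
  have h := D.lev_sum s
  have e1 : u (s, 0) * v (s, 1) = 0 := by
    by_cases e : D.lev (s, 0) < a
    · rw [hu _ e, MulZeroClass.zero_mul]
    · rw [hv (s, 1) (by omega), MulZeroClass.mul_zero]
  have e2 : u (s, 1) * v (s, 0) = 0 := by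
    by_cases e : D.lev (s, 1) < a
    · rw [hu _ e, MulZeroClass.zero_mul]
    · rw [hv (s, 0) (by omega), MulZeroClass.mul_zero]
  rw [e1, e2, sub_zero]

theorem NGrp_assoc (x y z : Sp S) : D.mul (D.mul x y) z = D.mul x (D.mul y z) ∧
    D.phi x y + D.phi (D.mul x y) z = D.phi y z + D.phi x (D.mul y z) := by
  obtain ⟨B, hB⟩ := exists_omL (S := S)
  let b : (Sp S × ℝ) →ₗ[ℝ] (Sp S × ℝ) →ₗ[ℝ] Sp S × ℝ :=
    LinearMap.mk₂ ℝ (fun p q => (D.br p.1 q.1, B p.1 q.1)) (fun _ _ _ => by simp)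
      (fun _ _ _ => by simp) (fun _ _ _ => by simp) (fun _ _ _ => by simp)
  have hb (p q : Sp S × ℝ) : b p q = (D.br p.1 q.1, om p.1 q.1) := by rw [hB]; rfl
  have key (p q : Sp S × ℝ) : bch4 b p q = (D.mul p.1 q.1, p.2 + q.2 + D.phi p.1 q.1) := by
    refine Prod.ext ?_ ?_
    · simp [bch4, hb, mul, mulB, D.NGrp_three]
    · simp only [bch4, hb, phi, phiB, Prod.snd_add, Prod.snd_sub, Prod.smul_snd, smul_eq_mul]
      ring
  have h := bch4_assoc b (fun u v => by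
      rw [hb, hb, D.anti, om_anti]
      rfl)
    (fun u v w => by
      simp only [hb]
      refine Prod.ext (D.jac _ _ _) ?_
      have := D.clo u.1 v.1 w.1
      rw [om_anti _ w.1, om_anti _ u.1, om_anti _ v.1] at this
      simp only [Prod.snd_add, Prod.snd_zero]
      linarith)
    (fun l => if l ≤ 4 then (Fl D.lev l).prod ⊤ else ⊥)
    (fun v => by
      rw [if_pos (by omega)]
      exact ⟨D.mem_Fl_one _, trivial⟩)
    (fun v hv => by
      rw [if_neg (by omega)] at hv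
      exact hv)
    (fun i j u hu v hv => by
      by_cases hi : i ≤ 4
      swap
      · rw [if_neg hi, Submodule.mem_bot] at hu
        rw [hu, map_zero, LinearMap.zero_apply]
        exact zero_mem _
      by_cases hj : j ≤ 4
      swap
      · rw [if_neg hj, Submodule.mem_bot] at hv
        rw [hv, map_zero]
        exact zero_mem _
      rw [if_pos hi] at hu
      rw [if_pos hj] at hv
      have e := D.filt i j _ hu.1 _ hv.1
      rw [hb]
      split_ifs with hij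
      · exact ⟨e, trivial⟩
      · exact Prod.ext (D.eq_zero_of_Fl_four (Fl_anti _ (by omega) e))
          (D.NGrp_om (by omega) hu.1 hv.1))
    (x, 0) (y, 0) (z, 0)
  simp only [key, Prod.mk.injEq] at h
  exact ⟨h.1, by linarith [h.2]⟩

theorem NGrp_deriv (a x : Sp S) : HasFDerivAt (D.mul a)
    (ContinuousLinearMap.id ℝ _ + (1 / 2 : ℝ) • D.br a + (1 / 12 : ℝ) • ((D.br a).comp (D.br a) +
      ((D.br x).comp (D.br.flip a) + D.br.flip (D.br x a)))) x := by
  exact (((hasFDerivAt_id x).const_add a).add ((D.br a).hasFDerivAt.const_smul (1 / 2 : ℝ))).add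
    ((((D.br a).comp (D.br a)).hasFDerivAt.add
      (D.br.hasFDerivAt.clm_apply (D.br.flip a).hasFDerivAt)).const_smul (1 / 12 : ℝ))

theorem NGrp_scale (k : ℕ) (u v : Sp S) : (D.scale k).br u v = ((k : ℝ))⁻¹ • D.br u v := rfl

theorem NGrp_GI {j : ℕ} {c : Alt (Sp S) j} (h : D.GI c) (t : ℝ) : D.GI (t • c) := fun g => by
  ext v
  have := DFunLike.congr_fun (h g) v
  simp only [ContinuousAlternatingMap.compContinuousLinearMap_apply,
    ContinuousAlternatingMap.smul_apply] at this ⊢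
  rw [this]

theorem sg_apply (g : G) (v : Sp S) (i : S × Fin 2) : D.sg g v i = sgn (D.ch i.1 g) * v i := by
  rfl

theorem sg_add (g g' : G) (v : Sp S) : D.sg (g + g') v = D.sg g (D.sg g' v) := by
  funext i
  rw [sg_apply, sg_apply, sg_apply, map_add, sgn_add, _root_.mul_assoc]

theorem sg_zero (v : Sp S) : D.sg 0 v = v := by
  funext i
  simp [sg_apply, sgn]

theorem sg_neg (g : G) (v : Sp S) : D.sg (-g) v = D.sg g v := by
  funext i
  rw [sg_apply, sg_apply, map_neg, ZMod.neg_eq_self_mod_two]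

theorem sg_sg (g : G) (v : Sp S) : D.sg g (D.sg g v) = v := by
  funext i
  rw [sg_apply, sg_apply, ← _root_.mul_assoc, sgn_mul_self, one_mul]

theorem norm_sg (g : G) (v : Sp S) : ‖D.sg g v‖ = ‖v‖ := by
  have h (u : Sp S) : ‖D.sg g u‖ ≤ ‖u‖ := (pi_norm_le_iff_of_nonneg (norm_nonneg _)).2 fun i => by
    have e : ‖sgn (D.ch i.1 g)‖ = 1 := by
      unfold sgn
      split <;> simp
    rw [sg_apply, norm_mul, e, one_mul]
    exact norm_le_pi_norm u _
  refine le_antisymm (h v) ?_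
  have := h (D.sg g v)
  rwa [sg_sg] at this

theorem nsq_sg (g : G) (v : Sp S) : nsq (D.sg g v) = nsq v := by
  refine Finset.sum_congr rfl fun i _ => ?_
  rw [sg_apply, mul_pow, sq (sgn _), sgn_mul_self, one_mul]

theorem om_sg (g : G) (u v : Sp S) : om (D.sg g u) (D.sg g v) = om u v := by
  refine Finset.sum_congr rfl fun s _ => ?_
  simp only [sg_apply]
  linear_combination (u (s, 0) * v (s, 1) - u (s, 1) * v (s, 0)) * sgn_mul_self (D.ch s g)

theorem zc_sg (g : G) (v : Sp S) (s : S) : zc (D.sg g v) s = (sgn (D.ch s g) : ℝ) * zc v s := by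
  apply Complex.ext <;> simp [zc, sg_apply]

theorem Jv_sg (g : G) (v : Sp S) : Jv (D.sg g v) = D.sg g (Jv v) := by
  funext ⟨s, j⟩
  fin_cases j <;> simp [Jv, sg_apply]

theorem br_sg (g : G) (u v : Sp S) : D.br (D.sg g u) (D.sg g v) = D.sg g (D.br u v) := D.aut g u v

theorem det_sg (g : G) : (D.sg g).det = 1 := by
  have e : (D.sg g : Sp S →ₗ[ℝ] Sp S) =
      Matrix.toLin' (Matrix.diagonal fun i => sgn (D.ch i.1 g)) := by
    refine LinearMap.ext fun v => funext fun i => ?_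
    rw [Matrix.toLin'_apply, Matrix.mulVec_diagonal]
    rfl
  rw [ContinuousLinearMap.det, e, LinearMap.det_toLin', Matrix.det_diagonal, Fintype.prod_prod_type]
  simp only [Fin.prod_univ_two, sgn_mul_self, Finset.prod_const_one]

theorem mul_assoc (x y z : Sp S) : D.mul (D.mul x y) z = D.mul x (D.mul y z) := by
  exact (D.NGrp_assoc x y z).1

theorem phi_cocycle (x y z : Sp S) :
    D.phi x y + D.phi (D.mul x y) z = D.phi y z + D.phi x (D.mul y z) := by
  exact (D.NGrp_assoc x y z).2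

theorem mul_zero (x : Sp S) : D.mul x 0 = x := by
  simp [mul, mulB]

theorem zero_mul (x : Sp S) : D.mul 0 x = x := by
  simp [mul, mulB]

theorem phi_zero_left (x : Sp S) : D.phi 0 x = 0 := by
  simp [phi, phiB, om]

theorem phi_zero_right (x : Sp S) : D.phi x 0 = 0 := by
  simp [phi, phiB, om]

theorem mul_smul_smul (e : Sp S) (s t : ℝ) : D.mul (s • e) (t • e) = (s + t) • e := by
  simp [mul, mulB, br_self, add_smul]

theorem neg_mul (x : Sp S) : D.mul (-x) x = 0 := by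
  simp [mul, mulB, br_self]

theorem mul_neg (x : Sp S) : D.mul x (-x) = 0 := by
  simp [mul, mulB, br_self]

theorem phi_neg (x : Sp S) : D.phi (-x) x = 0 := by
  simp [phi, phiB, br_self, om, mul_comm]

theorem neg_mul_rev (x y : Sp S) : -D.mul x y = D.mul (-y) (-x) := by
  simp only [mul, mulB, map_neg, neg_apply, neg_neg, D.anti y x]
  module

theorem neg_mul_cancel (x y : Sp S) : D.mul (-x) (D.mul x y) = y := by
  rw [← D.mul_assoc, D.neg_mul, D.zero_mul]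

theorem mul_neg_cancel (x y : Sp S) : D.mul x (D.mul (-x) y) = y := by
  rw [← D.mul_assoc, D.mul_neg, D.zero_mul]

theorem mul_sg (g : G) (x y : Sp S) : D.mul (D.sg g x) (D.sg g y) = D.sg g (D.mul x y) := by
  simp only [mul, mulB, br_sg, map_add, map_smul]

theorem phi_sg (g : G) (x y : Sp S) : D.phi (D.sg g x) (D.sg g y) = D.phi x y := by
  simp only [phi, phiB, br_sg, om_sg]

theorem mul_add_right {l : ℕ} {h : Sp S} (hh : h ∈ Fl D.lev l) (u v : Sp S) :
    D.mul u (v + h) - D.mul u v - h ∈ Fl D.lev (l + 1) := by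
  have e : D.mul u (v + h) - D.mul u v - h = (1 / 2 : ℝ) • D.br u h + (1 / 12 : ℝ) •
      (D.br u (D.br u h) + D.br v (D.br h u) + D.br h (D.br v u) + D.br h (D.br h u)) := by
    simp only [mul, mulB, map_add, add_apply]
    module
  rw [e]
  exact add_mem (Submodule.smul_mem _ _ (D.NGrp_r hh _)) (Submodule.smul_mem _ _
    (add_mem (add_mem (add_mem (D.NGrp_k (D.NGrp_r hh _) _) (D.NGrp_k (D.NGrp_l hh _) _))
      (D.NGrp_l hh _)) (D.NGrp_l hh _)))

theorem mul_add_left {l : ℕ} {h : Sp S} (hh : h ∈ Fl D.lev l) (u v : Sp S) :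
    D.mul (u + h) v - D.mul u v - h ∈ Fl D.lev (l + 1) := by
  have e : D.mul (u + h) v - D.mul u v - h = (1 / 2 : ℝ) • D.br h v + (1 / 12 : ℝ) •
      (D.br v (D.br v h) + D.br u (D.br h v) + D.br h (D.br u v) + D.br h (D.br h v)) := by
    simp only [mul, mulB, map_add, add_apply]
    module
  rw [e]
  exact add_mem (Submodule.smul_mem _ _ (D.NGrp_l hh _)) (Submodule.smul_mem _ _
    (add_mem (add_mem (add_mem (D.NGrp_k (D.NGrp_r hh _) _) (D.NGrp_k (D.NGrp_l hh _) _))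
      (D.NGrp_l hh _)) (D.NGrp_l hh _)))

theorem contDiff_mul : ContDiff ℝ ∞ fun p : Sp S × Sp S => D.mul p.1 p.2 := by
  exact (contDiff_mulB (S := S)).comp ((contDiff_const (c := D.br)).prodMk contDiff_id)

theorem contDiff_phi : ContDiff ℝ ∞ fun p : Sp S × Sp S => D.phi p.1 p.2 := by
  exact ((contDiff_phiB (S := S)).comp ((contDiff_const (c := D.br)).prodMk contDiff_id) :)

theorem contDiff_th : ContDiff ℝ ∞ D.th := by
  exact (contDiff_const.sub (D.br.contDiff.const_smul _)).add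
    ((D.br.contDiff.clm_comp D.br.contDiff).const_smul _)

theorem hasFDerivAt_mul_zero (x : Sp S) : HasFDerivAt (D.mul x) (D.fr x) 0 := by
  refine (D.NGrp_deriv x 0).congr_fderiv ?_
  ext v i
  simp [fr]

theorem hasFDerivAt_neg_mul (x : Sp S) : HasFDerivAt (D.mul (-x)) (D.th x) x := by
  refine (D.NGrp_deriv (-x) x).congr_fderiv (ContinuousLinearMap.ext fun v => ?_)
  simp only [th, add_apply, sub_apply,
    smul_apply, ContinuousLinearMap.comp_apply, ContinuousLinearMap.flip_apply,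
    map_neg, neg_apply, neg_neg, br_self, neg_zero, D.anti v x, map_zero,
    ContinuousLinearMap.id_apply, zero_apply]
  module

theorem th_fr (x v : Sp S) : D.th x (D.fr x v) = v := by
  have h := D.NGrp_cube x v
  simp only [th, fr, add_apply, sub_apply,
    smul_apply, ContinuousLinearMap.comp_apply, ContinuousLinearMap.id_apply,
    map_add, map_smul, h, map_zero]
  module

theorem fr_th (x v : Sp S) : D.fr x (D.th x v) = v := by
  have h := D.NGrp_cube x v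
  simp only [th, fr, add_apply, sub_apply,
    smul_apply, ContinuousLinearMap.comp_apply, ContinuousLinearMap.id_apply,
    map_add, map_sub, map_smul, h, map_zero]
  module

theorem th_zero : D.th 0 = ContinuousLinearMap.id ℝ _ := by
  simp [th]

theorem th_mul (a x : Sp S) : (D.th (D.mul a x)).comp (fderiv ℝ (D.mul a) x) = D.th x := by
  have h := (D.hasFDerivAt_neg_mul (D.mul a x)).comp x
    (D.NGrp_deriv a x).differentiableAt.hasFDerivAt
  have e : D.mul (-D.mul a x) ∘ D.mul a = D.mul (-x) := funext fun y => by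
    rw [Function.comp_apply, neg_mul_rev, D.mul_assoc, neg_mul_cancel]
  rw [e] at h
  exact h.unique (D.hasFDerivAt_neg_mul x)

theorem th_sg (g : G) (x : Sp S) : (D.th (D.sg g x)).comp (D.sg g) = (D.sg g).comp (D.th x) := by
  refine ContinuousLinearMap.ext fun v => ?_
  simp only [th, add_apply, sub_apply,
    smul_apply, ContinuousLinearMap.comp_apply, ContinuousLinearMap.id_apply,
    map_add, map_sub, map_smul, br_sg]

theorem det_th (x : Sp S) : (D.th x).det = 1 := by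
  refine det_one_of_raise D.lev_pos D.lev_le _ fun l v hv => ?_
  have e : D.th x v - v = (-1 / 2 : ℝ) • D.br x v + (1 / 6 : ℝ) • D.br x (D.br x v) := by
    simp only [th, add_apply, sub_apply,
      smul_apply, ContinuousLinearMap.comp_apply, ContinuousLinearMap.id_apply]
    module
  rw [e]
  exact add_mem (Submodule.smul_mem _ _ (D.NGrp_r hv _))
    (Submodule.smul_mem _ _ (D.NGrp_k (D.NGrp_r hv _) _))

theorem det_fderiv_mul (a x : Sp S) : (fderiv ℝ (D.mul a) x).det = 1 := by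
  have h := congrArg ContinuousLinearMap.det (D.th_mul a x)
  have h1 : LinearMap.det (D.th (D.mul a x) : Sp S →ₗ[ℝ] Sp S) = 1 := D.det_th _
  have h2 := LinearMap.det_comp (D.th (D.mul a x) : Sp S →ₗ[ℝ] Sp S)
    (fderiv ℝ (D.mul a) x : Sp S →ₗ[ℝ] Sp S)
  rw [h1, one_mul] at h2
  exact h2.symm.trans (h.trans (D.det_th x))

theorem exists_homeo (x : Sp S) : ∃ Φ : Sp S ≃ₜ Sp S, (Φ : Sp S → Sp S) = D.mul x ∧
    (Φ.symm : Sp S → Sp S) = D.mul (-x) := by
  have c (a : Sp S) : Continuous (D.mul a) :=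
    continuous_iff_continuousAt.2 fun y => (D.NGrp_deriv a y).continuousAt
  exact ⟨⟨⟨D.mul x, D.mul (-x), D.neg_mul_cancel x, D.mul_neg_cancel x⟩, c _, c _⟩, rfl, rfl⟩

theorem scale_GI (k : ℕ) {j : ℕ} (c : Alt (Sp S) j) : (D.scale k).GI c ↔ D.GI c := Iff.rfl

theorem scale_CE2 {k : ℕ} (hk : 1 ≤ k) (w : Alt (Sp S) 2) : (D.scale k).CE2 w ↔ D.CE2 w := by
  obtain ⟨B, hB⟩ := exists_bilin w
  have k0 : ((k : ℝ))⁻¹ ≠ 0 := inv_ne_zero (Nat.cast_ne_zero.2 (by omega))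
  simp only [CE2, hB, NGrp_scale, map_smul, smul_apply, smul_eq_mul, ← mul_add,
    mul_eq_zero, k0, false_or]

theorem scale_EX {k : ℕ} (hk : 1 ≤ k) (w : Alt (Sp S) 2) : (D.scale k).EX w ↔ D.EX w := by
  have k0 : (k : ℝ) ≠ 0 := Nat.cast_ne_zero.2 (by omega)
  constructor
  · rintro ⟨β, h1, h2⟩
    refine ⟨((k : ℝ))⁻¹ • β, D.NGrp_GI h1 _, fun u v => ?_⟩
    rw [h2, NGrp_scale, NGrp_one, ContinuousAlternatingMap.smul_apply, smul_eq_mul]
  · rintro ⟨β, h1, h2⟩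
    refine ⟨(k : ℝ) • β, D.NGrp_GI h1 _, fun u v => ?_⟩
    rw [h2, NGrp_scale, NGrp_one, ContinuousAlternatingMap.smul_apply, smul_eq_mul,
      inv_mul_cancel_left₀ k0]

theorem scale_H1 {k : ℕ} (hk : 1 ≤ k) : (D.scale k).H1 ↔ D.H1 := by
  have k0 : ((k : ℝ))⁻¹ ≠ 0 := inv_ne_zero (Nat.cast_ne_zero.2 (by omega))
  simp only [H1, scale_GI, NGrp_scale, NGrp_one, mul_eq_zero, k0, false_or]

end Nil

end Pool.Agent.Work.MP_bf98aa_gt.Th
end

-- merged part: Pool.Agent.Work.MP_bf98aa_gt.Th.NLat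
section
/-!
The deck group and its action.

PLAN. `mem_mul`: entries of `nu` lie in `(L/2) ℤ`; use `int_mul` and the cases of `tau i g, tau i g' ∈ ZMod 2` and of the sign.
`sep`: if `γ.g ≠ 0` take `i` from `free`: level one coordinates of brackets vanish (`filt 1 1`), so the `i`-th
coordinate of `mul (-x) (γ • x)` is `nu i ∈ L (1/2 + ℤ)`. If `γ.g = 0`, `nu ≠ 0`, take `i` with `nu i ≠ 0` of least level `l`;
`nu ∈ Fl l`, and by `mul_add_left` (with `u = 0`), `mul_add_right` the `i`-th coordinate is `nu i ∈ L ℤ`.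
`cocpt0`: correct the levels `1, 2, 3` one after the other by `nu ∈ Fl l`, `nu i = -L ⌊x i / L⌋`.
`act.fin`: `nu = mul (γ • x) (-(sg g x))` is bounded and lies in `(L/2) ℤ ^ ι`.
`exists_lt`: `d` a common denominator of the structure constants, `A = 96 d`; for integer vectors `u, v` the vectors
`d • br u v` are integral; `mul`, `phi` for `k⁻¹ • br` at `(L/2) u, (L/2) v` with `L = A k`.
-/

set_option autoImplicit false

open scoped ContDiff Topology

namespace Pool.Agent.Work.MP_bf98aa_gt.Th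

namespace Nil

variable {S G : Type} [Fintype S] [DecidableEq S] [AddCommGroup G] {D : Nil S G} {Λ : D.Lt}

theorem NLat_iff {L x : ℝ} {t : ZMod 2} : (∃ z : ℤ, x = L * ((t.val : ℝ) / 2 + z)) ↔
    ∃ w : ℤ, (w : ZMod 2) = t ∧ x = L / 2 * w := by
  constructor
  · rintro ⟨z, rfl⟩
    refine ⟨t.val + (z + z), ?_, by rw [Int.cast_add, Int.cast_add, Int.cast_natCast]; ring⟩
    rw [Int.cast_add, Int.cast_add, CharTwo.add_self_eq_zero, add_zero, Int.cast_natCast,
      ZMod.natCast_zmod_val]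
  · rintro ⟨w, rfl, rfl⟩
    refine ⟨w / 2, ?_⟩
    have h : (w : ℝ) = ((((w : ZMod 2).val : ℤ) + 2 * (w / 2) : ℤ) : ℝ) := by
      rw [ZMod.val_intCast]
      exact congrArg _ (by omega)
    rw [Int.cast_add, Int.cast_natCast, Int.cast_mul, Int.cast_ofNat] at h
    linear_combination L / 2 * h

theorem NLat_sgn (c : ZMod 2) : ∃ e : ℤ, sgn c = e ∧ (e : ZMod 2) = 1 := by
  unfold sgn
  split_ifs
  exacts [⟨1, by simp, by simp⟩, ⟨-1, by simp, by decide⟩]

theorem NLat_half (a : Λ.Gp) (i : S × Fin 2) : ∃ z : ℤ, a.nu i = Λ.L / 2 * z :=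
  (NLat_iff.1 (a.mem i)).imp fun _ h => h.2

theorem NLat_half' (g : G) (a : Λ.Gp) (i : S × Fin 2) :
    ∃ z : ℤ, D.sg g a.nu i = Λ.L / 2 * z := by
  obtain ⟨z, hz⟩ := NLat_half a i
  obtain ⟨e, he, -⟩ := NLat_sgn (D.ch i.1 g)
  exact ⟨e * z, by rw [D.sg_apply, he, hz, Int.cast_mul, mul_left_comm]⟩

theorem Lt.mem_mul (a b : Λ.Gp) (i : S × Fin 2) : ∃ z : ℤ,
    D.mul a.nu (D.sg a.g b.nu) i = Λ.L * (((D.tau i (a.g + b.g)).val : ℝ) / 2 + z) := by
  obtain ⟨z, hz⟩ := Λ.int_mul _ _ (NLat_half a) (NLat_half' a.g b) i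
  obtain ⟨u, h1, h2⟩ := NLat_iff.1 (a.mem i)
  obtain ⟨v, h3, h4⟩ := NLat_iff.1 (b.mem i)
  obtain ⟨e, h5, h6⟩ := NLat_sgn (D.ch i.1 a.g)
  refine NLat_iff.2 ⟨u + e * v + (z + z), ?_, ?_⟩
  · rw [Int.cast_add, Int.cast_add, Int.cast_add, Int.cast_mul, CharTwo.add_self_eq_zero, h1, h3,
      h6, one_mul, add_zero, map_add]
  · rw [hz, D.sg_apply, h2, h4, h5]
    push_cast
    ring

theorem Lt.mem_inv (a : Λ.Gp) (i : S × Fin 2) : ∃ z : ℤ,
    (-D.sg a.g a.nu) i = Λ.L * (((D.tau i (-a.g)).val : ℝ) / 2 + z) := by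
  obtain ⟨u, h1, h2⟩ := NLat_iff.1 (a.mem i)
  obtain ⟨e, h5, h6⟩ := NLat_sgn (D.ch i.1 a.g)
  refine NLat_iff.2 ⟨-(e * u), ?_, ?_⟩
  · rw [Int.cast_neg, Int.cast_mul, h1, h6, one_mul, map_neg]
  · rw [Pi.neg_apply, D.sg_apply, h2, h5]
    push_cast
    ring

noncomputable instance : Group Λ.Gp where
  mul a b := ⟨D.mul a.nu (D.sg a.g b.nu), a.g + b.g, Lt.mem_mul a b⟩
  one := ⟨0, 0, fun i => ⟨0, by simp⟩⟩
  inv a := ⟨-D.sg a.g a.nu, -a.g, Lt.mem_inv a⟩
  mul_assoc a b c := by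
    refine Lt.Gp.ext ?_ (add_assoc _ _ _)
    show D.mul (D.mul a.nu (D.sg a.g b.nu)) (D.sg (a.g + b.g) c.nu) =
      D.mul a.nu (D.sg a.g (D.mul b.nu (D.sg b.g c.nu)))
    rw [D.mul_assoc, D.sg_add, D.mul_sg]
  one_mul a := by
    refine Lt.Gp.ext ?_ (zero_add _)
    show D.mul 0 (D.sg 0 a.nu) = a.nu
    rw [D.zero_mul, D.sg_zero]
  mul_one a := by
    refine Lt.Gp.ext ?_ (add_zero _)
    show D.mul a.nu (D.sg a.g 0) = a.nu
    rw [map_zero, D.mul_zero]
  inv_mul_cancel a := by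
    refine Lt.Gp.ext ?_ (neg_add_cancel _)
    show D.mul (-D.sg a.g a.nu) (D.sg (-a.g) a.nu) = 0
    rw [D.sg_neg, D.neg_mul]

noncomputable instance : MulAction Λ.Gp (Sp S) where
  smul γ x := D.mul γ.nu (D.sg γ.g x)
  one_smul x := by
    show D.mul 0 (D.sg 0 x) = x
    rw [D.zero_mul, D.sg_zero]
  mul_smul a b x := by
    show D.mul (D.mul a.nu (D.sg a.g b.nu)) (D.sg (a.g + b.g) x) =
      D.mul a.nu (D.sg a.g (D.mul b.nu (D.sg b.g x)))
    rw [D.mul_assoc, D.sg_add, D.mul_sg]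

theorem Lt.smul_def (γ : Λ.Gp) (x : Sp S) : γ • x = D.mul γ.nu (D.sg γ.g x) := rfl

theorem Lt.mul_g (a b : Λ.Gp) : (a * b).g = a.g + b.g := rfl

theorem Lt.mul_nu (a b : Λ.Gp) : (a * b).nu = D.mul a.nu (D.sg a.g b.nu) := rfl

theorem Lt.inv_g (a : Λ.Gp) : a⁻¹.g = -a.g := rfl

theorem Lt.one_g : (1 : Λ.Gp).g = 0 := rfl

theorem Lt.one_nu : (1 : Λ.Gp).nu = 0 := rfl

/-- The factor of automorphy. -/
noncomputable def Lt.jj (γ : Λ.Gp) (x : Sp S) : ℝ := D.phi γ.nu (D.sg γ.g x)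

theorem Lt.jj_mul (a b : Λ.Gp) : ∃ z : ℤ, ∀ x, Lt.jj (a * b) x = Lt.jj b x + Lt.jj a (b • x) + z := by
  obtain ⟨z, hz⟩ := Λ.int_phi _ _ (NLat_half a) (NLat_half' a.g b)
  refine ⟨-z, fun x => ?_⟩
  have h := D.phi_cocycle a.nu (D.sg a.g b.nu) (D.sg a.g (D.sg b.g x))
  rw [hz, D.phi_sg, D.mul_sg] at h
  simp only [Lt.jj, Lt.mul_nu, Lt.mul_g, Lt.smul_def, D.sg_add, Int.cast_neg]
  linear_combination h

theorem Lt.jj_one (x : Sp S) : Lt.jj (1 : Λ.Gp) x = 0 := by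
  exact D.phi_zero_left _

theorem Lt.contDiff_jj (γ : Λ.Gp) : ContDiff ℝ ∞ (Lt.jj γ) := by
  exact D.contDiff_phi.comp (contDiff_const.prodMk (D.sg γ.g).contDiff)

theorem Lt.smul_mul (γ : Λ.Gp) (x y : Sp S) : γ • D.mul x y = D.mul (γ • x) (D.sg γ.g y) := by
  rw [Lt.smul_def, Lt.smul_def, D.mul_assoc, D.mul_sg]

theorem Lt.phi_smul (γ : Λ.Gp) (x y : Sp S) :
    D.phi (γ • x) (D.sg γ.g y) = D.phi x y + Lt.jj γ (D.mul x y) - Lt.jj γ x := by
  have h := D.phi_cocycle γ.nu (D.sg γ.g x) (D.sg γ.g y)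
  rw [D.phi_sg, D.mul_sg] at h
  simp only [Lt.jj, Lt.smul_def]
  linear_combination h

theorem Lt.neg_smul_mul (γ : Λ.Gp) (a b : Sp S) :
    D.mul (-(γ • a)) (γ • b) = D.sg γ.g (D.mul (-a) b) := by
  rw [Lt.smul_def, Lt.smul_def, D.neg_mul_rev, D.mul_assoc, D.neg_mul_cancel, ← map_neg, D.mul_sg]

theorem NLat_fderiv (γ : Λ.Gp) (x : Sp S) : fderiv ℝ (fun y : Sp S => γ • y) x =
    (fderiv ℝ (D.mul γ.nu) (D.sg γ.g x)).comp (D.sg γ.g) :=
  ((((D.contDiff_mul.comp (contDiff_const.prodMk contDiff_id) :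
    ContDiff ℝ ∞ (D.mul γ.nu)).differentiable (by simp)) _).hasFDerivAt.comp x
      (D.sg γ.g).hasFDerivAt).fderiv

theorem Lt.th_smul (γ : Λ.Gp) (x : Sp S) :
    (D.th (γ • x)).comp (fderiv ℝ (fun y : Sp S => γ • y) x) = (D.sg γ.g).comp (D.th x) := by
  rw [NLat_fderiv, ← ContinuousLinearMap.comp_assoc, Lt.smul_def, D.th_mul, D.th_sg]

theorem Lt.det_smul (γ : Λ.Gp) (x : Sp S) : (fderiv ℝ (fun y : Sp S => γ • y) x).det = 1 := by
  rw [NLat_fderiv]
  exact (LinearMap.det_comp _ _).trans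
    ((congrArg₂ (· * ·) (D.det_fderiv_mul _ _) (D.det_sg _)).trans (one_mul _))

theorem Lt.exists_g (Λ : D.Lt) (g : G) : ∃ γ : Λ.Gp, γ.g = g := by
  exact ⟨⟨fun i => Λ.L * (((D.tau i g).val : ℝ) / 2 + (0 : ℤ)), g, fun _ => ⟨0, rfl⟩⟩, rfl⟩

theorem Lt.exists_nu (Λ : D.Lt) (z : S × Fin 2 → ℤ) :
    ∃ γ : Λ.Gp, γ.g = 0 ∧ γ.nu = fun i => Λ.L * z i := by
  exact ⟨⟨fun i => Λ.L * z i, 0, fun i => ⟨z i, by simp⟩⟩, rfl, rfl⟩

theorem NLat_left {l : ℕ} {h : Sp S} (hh : h ∈ Fl D.lev l) (v : Sp S) :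
    D.mul h v - v - h ∈ Fl D.lev (l + 1) := by
  simpa only [zero_add, D.zero_mul] using D.mul_add_left hh 0 v

theorem NLat_coord {l : ℕ} {h : Sp S} (hh : h ∈ Fl D.lev l) (v : Sp S) {i : S × Fin 2}
    (hi : D.lev i ≤ l) : D.mul h v i = v i + h i := by
  have := NLat_left hh v i (Nat.lt_succ_of_le hi)
  rw [Pi.sub_apply, Pi.sub_apply] at this
  linear_combination this

theorem Lt.sep {γ : Λ.Gp} (h : γ ≠ 1) (x : Sp S) : Λ.L / 2 ≤ ‖D.mul (-x) (γ • x)‖ := by
  obtain ⟨i, h1, h2⟩ : ∃ i, γ.nu i ≠ 0 ∧ D.mul (-x) (γ • x) i = γ.nu i := by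
    by_cases hg : γ.g = 0
    · obtain ⟨j, hj⟩ : ∃ j, γ.nu j ≠ 0 := Function.ne_iff.1 fun e => h (Lt.Gp.ext e hg)
      obtain ⟨i, hi, hm⟩ := Set.exists_min_image {j | γ.nu j ≠ 0} D.lev (Set.toFinite _) ⟨j, hj⟩
      have k1 : γ.nu ∈ Fl D.lev (D.lev i) := fun j hj => not_not.1 fun n => (hm j n).not_gt hj
      have k2 : D.mul γ.nu x - x ∈ Fl D.lev (D.lev i) := by
        simpa using add_mem (Fl_anti _ (Nat.le_succ _) (NLat_left k1 x)) k1
      have k3 := D.mul_add_right k2 (-x) x i (Nat.lt_succ_self _)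
      rw [add_sub_cancel, D.neg_mul, sub_zero, Pi.sub_apply, Pi.sub_apply,
        NLat_coord k1 x le_rfl] at k3
      refine ⟨i, hi, ?_⟩
      rw [Lt.smul_def, hg, D.sg_zero]
      linear_combination k3
    · obtain ⟨i, k1, k2, k3⟩ := D.free _ hg
      refine ⟨i, fun e => ?_, ?_⟩
      · obtain ⟨w, k4, k5⟩ := NLat_iff.1 (γ.mem i)
        rw [e, eq_comm, mul_eq_zero, Int.cast_eq_zero] at k5
        rw [k5.resolve_left (half_pos Λ.pos).ne', k3] at k4
        exact absurd k4 (by decide)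
      · rw [NLat_coord (D.mem_Fl_one _) _ k1.le, Lt.smul_def, NLat_coord (D.mem_Fl_one _) _ k1.le,
          D.sg_apply, k2]
        simp [sgn]
  refine le_trans ?_ (norm_le_pi_norm _ i)
  obtain ⟨w, hw⟩ := NLat_half γ i
  rw [h2, hw, Real.norm_eq_abs, abs_mul, abs_of_pos (half_pos Λ.pos)]
  refine le_mul_of_one_le_right (half_pos Λ.pos).le ?_
  exact_mod_cast Int.one_le_abs fun e : w = 0 => h1 (by simp [hw, e])

theorem Lt.cocpt0 (Λ : D.Lt) (x : Sp S) :
    ∃ γ : Λ.Gp, γ.g = 0 ∧ ∀ i, 0 ≤ (γ • x) i ∧ (γ • x) i ≤ Λ.L := by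
  have key : ∀ l, ∃ γ : Λ.Gp, γ.g = 0 ∧ ∀ i, D.lev i < l → 0 ≤ (γ • x) i ∧ (γ • x) i ≤ Λ.L := by
    intro l
    induction l with
    | zero => exact ⟨1, rfl, fun i hi => absurd hi (Nat.not_lt_zero _)⟩
    | succ l ih =>
      obtain ⟨γ, h1, h2⟩ := ih
      obtain ⟨δ, h3, h4⟩ := Λ.exists_nu fun i => if D.lev i = l then -⌊(γ • x) i / Λ.L⌋ else 0
      refine ⟨δ * γ, by rw [Lt.mul_g, h1, h3, add_zero], fun i hi => ?_⟩
      rw [mul_smul, Lt.smul_def δ, h3, D.sg_zero,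
        NLat_coord (l := l) (fun j hj => by simp [h4, hj.ne]) _ (Nat.le_of_lt_succ hi), h4]
      rcases (Nat.le_of_lt_succ hi).eq_or_lt with e | e
      · have k1 := (le_div_iff₀ Λ.pos).1 (Int.floor_le ((γ • x) i / Λ.L))
        have k2 := (div_lt_iff₀ Λ.pos).1 (Int.lt_floor_add_one ((γ • x) i / Λ.L))
        simp only [if_pos e, Int.cast_neg]
        constructor <;> linarith
      · simpa [e.ne] using h2 i e
  exact (key 4).imp fun γ h => ⟨h.1, fun i => h.2 i (Nat.lt_succ_of_le (D.lev_le i))⟩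

theorem Lt.act [Fintype G] (Λ : D.Lt) : Act Λ.Gp (Sp S) := by
  refine ⟨fun γ => D.contDiff_mul.comp (contDiff_const.prodMk (D.sg γ.g).contDiff),
    fun K hK => ?_, fun γ x h => not_not.1 fun n => ?_,
    Set.Icc 0 fun _ => Λ.L, isCompact_Icc, fun x => (Λ.cocpt0 x).imp fun γ h =>
      ⟨fun i => (h.2 i).1, fun i => (h.2 i).2⟩⟩
  · obtain ⟨R, hR⟩ := hK.isBounded.exists_norm_le
    obtain ⟨C, hC⟩ := ((hK.prod (isCompact_closedBall (0 : Sp S) R)).image
      D.contDiff_mul.continuous).isBounded.exists_norm_le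
    obtain ⟨N, hN⟩ := exists_int_ge (C / (Λ.L / 2))
    refine Set.Finite.of_finite_image (f := fun γ : Λ.Gp => (γ.nu, γ.g))
      (((Set.Finite.pi' fun _ => (Set.finite_Icc (-N) N).image
        fun w : ℤ => Λ.L / 2 * (w : ℝ)).prod Set.finite_univ).subset ?_)
      fun a _ b _ e => Lt.Gp.ext (congrArg Prod.fst e) (congrArg Prod.snd e)
    rintro _ ⟨γ, ⟨x, hx, hx'⟩, rfl⟩
    refine ⟨fun i => ?_, trivial⟩
    obtain ⟨w, hw⟩ := NLat_half γ i
    refine ⟨w, abs_le.1 ?_, hw.symm⟩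
    have k := (norm_le_pi_norm _ i).trans (hC _ ⟨(γ • x, -D.sg γ.g x),
      ⟨hx', mem_closedBall_zero_iff.2 (by rw [norm_neg, D.norm_sg]; exact hR x hx)⟩, rfl⟩)
    simp only [Lt.smul_def, D.mul_assoc, D.mul_neg, D.mul_zero] at k
    rw [hw, Real.norm_eq_abs, abs_mul, abs_of_pos (half_pos Λ.pos),
      ← le_div_iff₀' (half_pos Λ.pos)] at k
    exact_mod_cast k.trans hN
  · have := Lt.sep n x
    rw [h, D.neg_mul, norm_zero] at this
    exact this.not_gt (half_pos Λ.pos)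

omit [DecidableEq S] in
theorem NLat_om (s t : ℝ) {u v : Sp S} (hu : ∀ i, u i ∈ (Int.castRingHom ℝ).range)
    (hv : ∀ i, v i ∈ (Int.castRingHom ℝ).range) : ∃ z : ℤ, om (s • u) (t • v) = s * t * z := by
  obtain ⟨z, hz⟩ : om u v ∈ (Int.castRingHom ℝ).range :=
    sum_mem fun _ _ => sub_mem (mul_mem (hu _) (hv _)) (mul_mem (hu _) (hv _))
  refine ⟨z, Eq.trans ?_ (congrArg _ hz.symm)⟩
  simp only [om, Finset.mul_sum, Pi.smul_apply, smul_eq_mul]
  exact Finset.sum_congr rfl fun _ _ => by ring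

theorem NLat_lt (D : Nil S G) {c : ℕ} (hc : 0 < c)
    (H : ∀ u v : Sp S, (∀ i, u i ∈ (Int.castRingHom ℝ).range) →
      (∀ i, v i ∈ (Int.castRingHom ℝ).range) → ∃ w : Sp S, (∀ i, w i ∈ (Int.castRingHom ℝ).range) ∧
        D.br ((2 * c : ℝ) • u) ((2 * c : ℝ) • v) = (48 : ℝ) • (2 * c : ℝ) • w) :
    ∃ Λ : D.Lt, Λ.L = 4 * c := by
  have key : ∀ u : Sp S, (∀ i, ∃ z : ℤ, u i = 4 * (c : ℝ) / 2 * z) → ∃ U : Sp S,
      (∀ i, U i ∈ (Int.castRingHom ℝ).range) ∧ u = (2 * c : ℝ) • U := fun u hu => by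
    choose z hz using hu
    exact ⟨fun i => z i, fun i => ⟨z i, rfl⟩, funext fun i => by
      rw [hz, Pi.smul_apply, smul_eq_mul]; ring⟩
  refine ⟨⟨4 * c, by positivity, fun u v hu0 hv0 i => ?_, fun u v hu0 hv0 => ?_⟩, rfl⟩
  all_goals
    obtain ⟨u, hu, rfl⟩ := key u hu0
    obtain ⟨v, hv, rfl⟩ := key v hv0
    obtain ⟨a, ha, h1⟩ := H u v hu hv
    obtain ⟨b, hb, h2⟩ := H v u hv hu
    obtain ⟨a', ha', h3⟩ := H u a hu ha
  · obtain ⟨b', hb', h4⟩ := H v b hv hb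
    obtain ⟨x, hx⟩ := ha i
    obtain ⟨y, hy⟩ := ha' i
    obtain ⟨z, hz⟩ := hb' i
    refine ⟨12 * x + 96 * (y + z), ?_⟩
    rw [eq_intCast] at hx hy hz
    rw [Nil.mul, mulB, h1, h2, map_smul _ (48 : ℝ), map_smul _ (48 : ℝ), h3, h4]
    simp only [Pi.add_apply, Pi.smul_apply, smul_eq_mul, ← hx, ← hy, ← hz]
    push_cast
    ring
  · obtain ⟨x, hx⟩ := NLat_om (2 * c) (2 * c) hu hv
    obtain ⟨y, hy⟩ := NLat_om (2 * c) (48 * (2 * c)) hu ha
    obtain ⟨z, hz⟩ := NLat_om (2 * c) (48 * (2 * c)) hv hb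
    obtain ⟨t, ht⟩ := NLat_om (2 * c) (48 * (48 * (2 * c))) hv ha'
    refine ⟨2 * c ^ 2 * x + 16 * c ^ 2 * (y + z) - 384 * c ^ 2 * t, ?_⟩
    rw [Nil.phi, phiB, h1, h2, map_smul _ (48 : ℝ), h3]
    simp only [smul_smul (48 : ℝ), hx, hy, hz, ht]
    push_cast
    ring

theorem exists_lt (D : Nil S G) :
    ∃ A : ℕ, 0 < A ∧ ∀ k : ℕ, 1 ≤ k → ∃ Λ : (D.scale k).Lt, Λ.L = A * k := by
  choose q hq using D.rat
  obtain ⟨d, hd, h⟩ : ∃ d : ℕ, 0 < d ∧ ∀ i j k, (q i j k).den ∣ d :=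
    ⟨∏ t : _ × _ × _, (q t.1 t.2.1 t.2.2).den, Finset.prod_pos fun _ _ => Rat.pos _,
      fun i j k => Finset.dvd_prod_of_mem _ (Finset.mem_univ (i, j, k))⟩
  refine ⟨96 * d, by omega, fun k hk => ?_⟩
  refine (NLat_lt (D.scale k) (c := 24 * d * k) (by positivity) fun u v hu hv =>
    ⟨(d : ℝ) • D.br u v, fun l => ?_, ?_⟩).imp fun Λ e => by rw [e]; push_cast; ring
  · rw [pi_eq_sum_univ' u, pi_eq_sum_univ' v]
    simp only [map_sum, map_smul, sum_apply, smul_apply,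
      Pi.smul_apply, Finset.sum_apply, smul_eq_mul, Finset.mul_sum, hq, mul_left_comm (d : ℝ)]
    refine sum_mem fun j _ => sum_mem fun i _ => mul_mem (hv j) (mul_mem (hu i) ?_)
    obtain ⟨e, he⟩ := h i j l
    refine ⟨e * (q i j l).num, ?_⟩
    rw [eq_intCast, he]
    exact_mod_cast (by push_cast; rw [← Rat.mul_den_eq_num]; ring)
  · have : (k : ℝ) ≠ 0 := by positivity
    simp only [scale, map_smul, smul_apply, smul_smul]
    refine congrArg (· • D.br u v) ?_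
    push_cast
    field_simp
    norm_num

end Nil

end Pool.Agent.Work.MP_bf98aa_gt.Th
end

-- merged part: Pool.Agent.Work.MP_bf98aa_gt.Th.IPf
section
-- merged part: Pool.Agent.Work.MP_bf98aa_gt.Th.DDefs
section
/-!
Working definitions, part 3: peak sections, approximately holomorphic sections, the zero set.
-/

set_option autoImplicit false

open scoped ContDiff Manifold ComplexConjugate

namespace Pool.Agent.Work.MP_bf98aa_gt.Th

/-- The fibre. -/
abbrev Cn (n' : ℕ) : Type := Fin n' → ℂ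

/-- Coefficients of a vector valued polynomial of degree one. -/
abbrev Co (S : Type) (n' : ℕ) : Type := Option S → Cn n'

/-- Grid points in the square. -/
abbrev Gr (N : ℕ) : Type := Fin (2 * N + 1) × Fin (2 * N + 1)

/-- The complex number of a grid point. -/
noncomputable def gv (N : ℕ) (a : Gr N) : ℂ := ⟨((a.1 : ℝ) - N) / N, ((a.2 : ℝ) - N) / N⟩

/-- `exp (2 π i t)`. -/
noncomputable def ee (t : ℝ) : ℂ := Complex.exp (2 * Real.pi * Complex.I * t)

/-- Equal to one for `t ≤ 1` and to zero for `2 ≤ t`. -/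
noncomputable def cut (t : ℝ) : ℝ := Real.smoothTransition (2 - t)

/-- Equal to zero for `t ≤ 1 / 2` and to one for `1 ≤ t`. -/
noncomputable def rr (t : ℝ) : ℝ := Real.smoothTransition (2 * t - 1)

section
variable {S : Type} [Fintype S] {n n' : ℕ}

/-- The hermitian product. -/
noncomputable def cip (u w : Cn n') : ℂ := ∑ l, conj (u l) * w l

/-- The real inner product. -/
noncomputable def rip (u w : Cn n') : ℝ := (cip u w).re

/-- The squared norm. -/
noncomputable def nsc (w : Cn n') : ℝ := ∑ l, Complex.normSq (w l)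

/-- The polynomial with coefficients `c`. -/
noncomputable def Pc (c : Co S n') (z : Sp S) : Cn n' := c none + ∑ s, zc z s • c (some s)

/-- Signs on the coefficients. -/
noncomputable def csg (ε : S → ℝ) (c : Co S n') : Co S n'
  | none => c none
  | some s => (ε s : ℂ) • c (some s)

/-- The truncated Gaussian. -/
noncomputable def gau (R : ℝ) (z : Sp S) : ℝ :=
  cut (nsq z / R ^ 2) * Real.exp (-(Real.pi * nsq z / 2))

/-- The peak. -/
noncomputable def pk (R : ℝ) (c : Co S n') (z : Sp S) : Cn n' := (gau R z : ℂ) • Pc c z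

/-- One peak seen from the point `q * y₀`. -/
noncomputable def Tm (b : Sp S →L[ℝ] Sp S →L[ℝ] Sp S) (R : ℝ) (q y₀ : Sp S) (c : Co S n')
    (y : Sp S) : Cn n' :=
  ((Real.exp (Real.pi * nsq y / 2) : ℝ) * ee (-(phiB b q y₀ + phiB b (mulB b q y₀) y))) •
    pk R c (mulB b (mulB b q y₀) y)

/-- The flat value. -/
noncomputable def J0 (R : ℝ) (q y₀ : Sp S) (c : Co S n') : Cn n' :=
  ee (-(om q y₀ / 2)) • pk R c (q + y₀)

/-- The flat holomorphic derivative. -/
noncomputable def J1 (R : ℝ) (q y₀ : Sp S) (c : Co S n') (s : S) : Cn n' :=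
  (ee (-(om q y₀ / 2)) * (gau R (q + y₀) : ℝ)) •
    (c (some s) - ((Real.pi : ℝ) * conj (zc (q + y₀) s)) • Pc c (q + y₀))

/-- The real part of the differential of a component. -/
noncomputable def dre (s : Sp S → Cn n') (l : Fin n') (x : Sp S) : Sp S →L[ℝ] ℝ :=
  fderiv ℝ (fun y => (s y l).re) x

/-- The imaginary part of the differential of a component. -/
noncomputable def dim (s : Sp S → Cn n') (l : Fin n') (x : Sp S) : Sp S →L[ℝ] ℝ :=
  fderiv ℝ (fun y => (s y l).im) x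

/-- The transgression form. -/
noncomputable def aF (s : Sp S → Cn n') (lam : Sp S → Sp S →L[ℝ] ℝ) (l : Fin n') (ε : ℝ) :
    Fm (Sp S) 1 := fun x =>
  alt1 ((rr (Complex.normSq (s x l) / ε ^ 2) / Complex.normSq (s x l)) •
      ((s x l).re • dim s l x - (s x l).im • dre s l x) -
    (2 * Real.pi * rr (Complex.normSq (s x l) / ε ^ 2)) • lam x)

/-- The Thom form. -/
noncomputable def tauG (s : Sp S → Cn n') (Ω : Fm (Sp S) 2) (lam : Sp S → Sp S →L[ℝ] ℝ)
    (l : Fin n') (ε : ℝ) : Fm (Sp S) 2 := fun x =>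
  (2 * Real.pi * (1 - rr (Complex.normSq (s x l) / ε ^ 2))) • Ω x +
    (2 * deriv rr (Complex.normSq (s x l) / ε ^ 2) / ε ^ 2) • wedge (dre s l x) (dim s l x) -
    (2 * Real.pi * deriv rr (Complex.normSq (s x l) / ε ^ 2) / ε ^ 2) •
      wedge ((2 * (s x l).re) • dre s l x + (2 * (s x l).im) • dim s l x) (lam x)

/-- Restriction to the first group of slots. -/
noncomputable def prE (e : Fin n ⊕ Fin n' ≃ S) : Sp S →L[ℝ] Sp (Fin n) :=
  ContinuousLinearMap.pi fun i =>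
    ContinuousLinearMap.proj (R := ℝ) (φ := fun _ : S × Fin 2 => ℝ) (e (Sum.inl i.1), i.2)

/-- Restriction to the second group of slots. -/
noncomputable def prC (e : Fin n ⊕ Fin n' ≃ S) : Sp S →L[ℝ] Sp (Fin n') :=
  ContinuousLinearMap.pi fun i =>
    ContinuousLinearMap.proj (R := ℝ) (φ := fun _ : S × Fin 2 => ℝ) (e (Sum.inr i.1), i.2)

/-- Extension by zero from the first group of slots. -/
noncomputable def inE (e : Fin n ⊕ Fin n' ≃ S) : Sp (Fin n) →L[ℝ] Sp S :=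
  ContinuousLinearMap.pi fun i => Sum.elim
    (fun j => ContinuousLinearMap.proj (R := ℝ) (φ := fun _ : Fin n × Fin 2 => ℝ) (j, i.2))
    (fun _ => 0) (e.symm i.1)

/-- Extension by zero from the second group of slots. -/
noncomputable def inC (e : Fin n ⊕ Fin n' ≃ S) : Sp (Fin n') →L[ℝ] Sp S :=
  ContinuousLinearMap.pi fun i => Sum.elim (fun _ => 0)
    (fun j => ContinuousLinearMap.proj (R := ℝ) (φ := fun _ : Fin n' × Fin 2 => ℝ) (j, i.2))
    (e.symm i.1)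

/-- Complex coordinates as a linear map. -/
noncomputable def zL (n' : ℕ) : Sp (Fin n') →L[ℝ] Cn n' :=
  ContinuousLinearMap.pi fun l =>
    Complex.ofRealCLM.comp
        (ContinuousLinearMap.proj (R := ℝ) (φ := fun _ : Fin n' × Fin 2 => ℝ) (l, 0)) +
      Complex.I • Complex.ofRealCLM.comp
        (ContinuousLinearMap.proj (R := ℝ) (φ := fun _ : Fin n' × Fin 2 => ℝ) (l, 1))

/-- The splitting of the space into tangential and normal coordinates. -/
noncomputable def spl (e : Fin n ⊕ Fin n' ≃ S) : Sp S →L[ℝ] Sp (Fin n) × Cn n' :=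
  (prE e).prod ((zL n').comp (prC e))

/-- The fibre integral of the model Thom forms. -/
noncomputable def kap (n' : ℕ) : ℝ :=
  ∫ ζ : Sp (Fin n'), pf fun l : Fin n' =>
    (2 * deriv rr (Complex.normSq (zc ζ l))) • alt2 (dxy (l, 0) (l, 1))

end

namespace Nil

variable {S G : Type} [Fintype S] [DecidableEq S] [AddCommGroup G] {n' : ℕ}

/-- The section seen from `x`, in the radial gauge and divided by the Gaussian. -/
noncomputable def hx (D : Nil S G) (s : Sp S → Cn n') (x y : Sp S) : Cn n' :=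
  ((Real.exp (Real.pi * nsq y / 2) : ℝ) * ee (-D.phi x y)) • s (D.mul x y)

variable {D : Nil S G}

/-- An approximately holomorphic, uniformly transverse section. -/
structure Don (Λ : D.Lt) (s : Sp S → Cn n') (η δ : ℝ) : Prop where
  smooth : ContDiff ℝ ∞ s
  auto : ∀ (γ : Λ.Gp) (x : Sp S), s (γ • x) = ee (Lt.jj γ x) • s x
  trans : ∀ x, ‖s x‖ < η → ∀ u : Cn n', ∃ v : Sp S, ‖v‖ ≤ 1 ∧
    η * ‖u‖ ≤ rip u (fderiv ℝ (D.hx s x) 0 v)
  hol1 : ∀ x v, ‖fderiv ℝ (D.hx s x) 0 (Jv v) - Complex.I • fderiv ℝ (D.hx s x) 0 v‖ ≤ δ * ‖v‖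
  hol2 : ∀ x v, ‖D2 (D.hx s x) 0 v v + D2 (D.hx s x) 0 (Jv v) (Jv v)‖ ≤ δ * ‖v‖ ^ 2

/-- The sum of peaks. -/
noncomputable def sec (Λ : D.Lt) {V : Type} [Fintype V] (p : V → Sp S) (c : V → Co S n') (R : ℝ)
    (x : Sp S) : Cn n' :=
  ∑ v, ∑ᶠ γ : Λ.Gp, ee (-(Lt.jj γ x + D.phi (-p v) (γ • x))) • pk R (c v) (D.mul (-p v) (γ • x))

/-- The position of `p v` relative to a neighbouring peak. -/
noncomputable def qq {Λ : D.Lt} {V : Type} (p : V → Sp S) (v : V) (i : V × Λ.Gp) : Sp S :=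
  D.sg i.2.g (D.mul (-p i.1) (i.2 • p v))

/-- The phase of a neighbouring peak. -/
noncomputable def tq {Λ : D.Lt} {V : Type} (p : V → Sp S) (v : V) (i : V × Λ.Gp) : ℝ :=
  Lt.jj i.2 (p v) + D.phi (-p i.1) (i.2 • p v)

end Nil

/-- A manifold structure on the quotient of the zero set of `s`. -/
structure Pack {S : Type} [Fintype S] {n n' : ℕ} (Γ : Type) [Group Γ] [MulAction Γ (Sp S)]
    (s : Sp S → Cn n') (M : Type) [TopologicalSpace M] [ChartedSpace (Sp (Fin n)) M] where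
  q : Sp S → M
  Θ : M → OpenPartialHomeomorph (Sp S) (Sp (Fin n) × Cn n')
  π : M → Sp S →L[ℝ] Sp (Fin n)
  q_eq : ∀ z z', s z = 0 → s z' = 0 → (q z = q z' ↔ ∃ γ : Γ, γ • z = z')
  q_cont : ContinuousOn q {z | s z = 0}
  q_surj : ∀ m, ∃ z, s z = 0 ∧ q z = m
  Θ_eq : ∀ p x, Θ p x = (π p x, s x)
  symm_smooth : ∀ p, ContDiffOn ℝ ∞ (Θ p).symm (Θ p).target
  small : ∀ p (γ : Γ), ∀ x ∈ (Θ p).source, γ • x ∈ (Θ p).source → γ = 1
  src : ∀ p m, m ∈ (chartAt (Sp (Fin n)) p).source ↔ ∃ z ∈ (Θ p).source, s z = 0 ∧ q z = m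
  tgt : ∀ p y, y ∈ (chartAt (Sp (Fin n)) p).target ↔ (y, 0) ∈ (Θ p).target
  symm_eq : ∀ p, ∀ y ∈ (chartAt (Sp (Fin n)) p).target,
    (chartAt (Sp (Fin n)) p).symm y = q ((Θ p).symm (y, 0))
  chart_eq : ∀ p, ∀ z ∈ (Θ p).source, s z = 0 → chartAt (Sp (Fin n)) p (q z) = π p z

namespace Pack

variable {S : Type} [Fintype S] {n n' : ℕ} {Γ : Type} [Group Γ] [MulAction Γ (Sp S)]
  {s : Sp S → Cn n'} {M : Type} [TopologicalSpace M] [ChartedSpace (Sp (Fin n)) M]
  (P : Pack (n := n) Γ s M) {k : ℕ}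

/-- The local parametrisation of the zero set. -/
noncomputable def ψ (p : M) (y : Sp (Fin n)) : Sp S := (P.Θ p).symm (y, 0)

/-- The base point of the fibre over `m`. -/
noncomputable def pt (m : M) : Sp S := P.ψ m (chartAt (Sp (Fin n)) m m)

/-- The differential of the parametrisation. -/
noncomputable def T (m : M) : TangentSpace 𝓘(ℝ, Sp (Fin n)) m →L[ℝ] Sp S :=
  fderiv ℝ (P.ψ m) (chartAt (Sp (Fin n)) m m)

/-- Restriction of an invariant form to the quotient of the zero set. -/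
noncomputable def res (α : Fm (Sp S) k) : Form (Sp (Fin n)) M k :=
  fun m => (α (P.pt m)).compContinuousLinearMap (P.T m)

/-- Pull-back of a form on the quotient along a retraction. -/
noncomputable def lift (r : Sp S → Sp S) (w : Form (Sp (Fin n)) M k) : Fm (Sp S) k := fun x =>
  pb (fun y => chartAt (Sp (Fin n)) (P.q (r x)) (P.q (r y))) (w.loc (P.q (r x))) x

end Pack

/-- An equivariant smooth retraction of an invariant open set onto the zero set. -/
structure Retr {S : Type} [Fintype S] {n' : ℕ} (Γ : Type) [Group Γ] [MulAction Γ (Sp S)]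
    (s : Sp S → Cn n') (U : Set (Sp S)) (r : Sp S → Sp S) : Prop where
  isOpen : IsOpen U
  inv : InvSet Γ U
  sub : ∀ z, s z = 0 → z ∈ U
  smooth : ContDiffOn ℝ ∞ r U
  zero : ∀ x ∈ U, s (r x) = 0
  fix : ∀ z, s z = 0 → r z = z
  equi : ∀ (γ : Γ), ∀ x ∈ U, r (γ • x) = γ • r x

end Pool.Agent.Work.MP_bf98aa_gt.Th
end

-- merged part: Pool.Agent.Work.MP_bf98aa_gt.Th.IPf
section
/-!
Algebra of mixed Pfaffians.

PLAN. `pf_comp`: the map `(v : S × Fin 2 → Sp S) ↦ ∑ σ, sign σ * ∏ s, w s ![v (σ (s,0)), v (σ (s,1))]` is the alternatization of a multilinear map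
(`MultilinearMap.alternatization_apply`), so it is a multiple of `(Pi.basisFun ℝ _).det` (`AlternatingMap.eq_smul_basis_det`, `Module.Basis.det_comp`).
`pf_perm`: reindex `σ ↦ σ * prodCongrLeft`, whose sign is a square (`Equiv.Perm.sign_prodCongrLeft`). `pf_block`, `pf_block'`: transport along
`S × Fin 2 ≃ (Fin n × Fin 2) ⊕ (Fin n' × Fin 2)` (`Equiv.permCongr`, `sign_permCongr`); only permutations preserving the two blocks contribute
(`Equiv.Perm.mem_sumCongrHom_range_of_perm_mapsTo_inl`, as in `Matrix.det_fromBlocks_zero₂₁`). `pf_area`: only `prodCongrRight` permutations contribute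
(`Equiv.Perm.sign_prodCongrRight`). `pf_omA`: expand by multilinearity (`MultilinearMap.map_sum`), non-bijective choices vanish, bijective ones give `pf_area`.
`exists_darboux`: induction building a symplectic family (see `lin_ext` in `Work/MP_bf98aa_gt/Ns/Lin.lean`; it may be imported).
-/

set_option autoImplicit false
set_option linter.unusedSectionVars false

open scoped ContDiff

namespace Pool.Agent.Work.MP_bf98aa_gt.Th

variable {S : Type} [Fintype S] [DecidableEq S] {n n' : ℕ}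

theorem exists_pfM : ∃ Φ : MultilinearMap ℝ (fun _ : S => Alt (Sp S) 2) ℝ, ∀ w, Φ w = pf w := by
  refine ⟨∑ σ : Equiv.Perm (S × Fin 2), ((Equiv.Perm.sign σ : ℤ) : ℝ) •
    (MultilinearMap.mkPiAlgebra ℝ S ℝ).compLinearMap fun s =>
      (ContinuousAlternatingMap.apply ℝ (Sp S) ℝ
        ![Pi.single (σ (s, 0)) 1, Pi.single (σ (s, 1)) 1]).toLinearMap, fun w => ?_⟩
  rw [sum_apply]
  rfl

theorem IPf_vec {X Y : Type} (f : X → Y) (a b : X) : f ∘ ![a, b] = ![f a, f b] :=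
  funext fun i => by fin_cases i <;> rfl

theorem IPf_comp {E F : Type} [NormedAddCommGroup E] [NormedSpace ℝ E] [NormedAddCommGroup F]
    [NormedSpace ℝ F] (w : Alt F 2) (A : E →L[ℝ] F) (u v : E) :
    w.compContinuousLinearMap A ![u, v] = w ![A u, A v] :=
  congrArg w (IPf_vec A u v)

theorem IPf_alt (w : S → Alt (Sp S) 2) : ∃ f : Sp S [⋀^S × Fin 2]→ₗ[ℝ] ℝ, ∀ v,
    f v = ∑ σ : Equiv.Perm (S × Fin 2), ((Equiv.Perm.sign σ : ℤ) : ℝ) *
      ∏ s, w s ![v (σ (s, 0)), v (σ (s, 1))] := by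
  refine ⟨MultilinearMap.alternatization (((MultilinearMap.mkPiAlgebra ℝ S ℝ).compMultilinearMap
    fun s => (w s).toContinuousMultilinearMap.toMultilinearMap).domDomCongr
      (Equiv.sigmaEquivProd S (Fin 2))), fun v => ?_⟩
  rw [MultilinearMap.alternatization_apply]
  refine Finset.sum_congr rfl fun σ _ => ?_
  rw [Units.smul_def, zsmul_eq_mul]
  refine congrArg _ (Finset.prod_congr rfl fun s _ => congrArg (w s) ?_)
  funext i
  fin_cases i <;> rfl

theorem pf_comp (w : S → Alt (Sp S) 2) (A : Sp S →L[ℝ] Sp S) :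
    pf (fun s => (w s).compContinuousLinearMap A) = A.det * pf w := by
  obtain ⟨f, hf⟩ := IPf_alt w
  have e1 : pf w = f (Pi.basisFun ℝ (S × Fin 2)) := by
    rw [hf]
    simp only [pf, Pi.basisFun_apply]
  have e2 : pf (fun s => (w s).compContinuousLinearMap A) =
      f ((A : Sp S →ₗ[ℝ] Sp S) ∘ Pi.basisFun ℝ (S × Fin 2)) := by
    rw [hf]
    simp only [pf, IPf_comp, Pi.basisFun_apply, Function.comp_apply, ContinuousLinearMap.coe_coe]
  rw [e2, f.eq_smul_basis_det (Pi.basisFun ℝ (S × Fin 2)), AlternatingMap.smul_apply,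
    Module.Basis.det_comp, Module.Basis.det_self, ← e1, smul_eq_mul, mul_one, mul_comm]

theorem pf_perm (w : S → Alt (Sp S) 2) (σ : Equiv.Perm S) : pf (fun s => w (σ s)) = pf w := by
  unfold pf
  rw [← Equiv.sum_comp (Equiv.mulRight (Equiv.prodCongrLeft fun _ : Fin 2 => σ))]
  refine Finset.sum_congr rfl fun τ _ => ?_
  rw [Equiv.coe_mulRight, Equiv.Perm.sign_mul, Equiv.Perm.sign_prodCongrLeft, Fin.prod_univ_two,
    Int.units_mul_self, mul_one]
  exact congrArg _ (Equiv.prod_comp σ fun s =>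
    w s ![Pi.single (τ (s, 0)) 1, Pi.single (τ (s, 1)) 1])

theorem pf_eq_zero {w : S → Alt (Sp S) 2} {s : S} (h : w s = 0) : pf w = 0 := by
  refine Finset.sum_eq_zero fun σ _ => ?_
  rw [Finset.prod_eq_zero (Finset.mem_univ s) (by rw [h]; rfl), mul_zero]

theorem pf_smul (c : S → ℝ) (w : S → Alt (Sp S) 2) :
    pf (fun s => c s • w s) = (∏ s, c s) * pf w := by
  obtain ⟨Φ, h⟩ := exists_pfM (S := S)
  rw [← h, ← h, Φ.map_smul_univ, smul_eq_mul]

theorem contDiff_pf : ContDiff ℝ ∞ (pf : (S → Alt (Sp S) 2) → ℝ) := by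
  unfold pf
  exact ContDiff.sum fun σ _ => contDiff_const.mul (contDiff_prod fun s _ =>
    (ContinuousAlternatingMap.apply ℝ (Sp S) ℝ
      ![Pi.single (σ (s, 0)) 1, Pi.single (σ (s, 1)) 1]).contDiff.comp
        (contDiff_apply ℝ (Alt (Sp S) 2) s))

theorem IPf_sum {α β : Type} [Fintype α] [Fintype β] [DecidableEq α] [DecidableEq β]
    (F : Equiv.Perm (α ⊕ β) → ℝ)
    (h : ∀ σ : Equiv.Perm (α ⊕ β), ¬ Set.MapsTo σ (Set.range Sum.inl) (Set.range Sum.inl) →
      F σ = 0) : ∑ σ, F σ = ∑ σ₁, ∑ σ₂, F (Equiv.sumCongr σ₁ σ₂) := by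
  rw [← Fintype.sum_prod_type']
  refine (Finset.sum_of_injOn (fun p : Equiv.Perm α × Equiv.Perm β => Equiv.sumCongr p.1 p.2)
    (Equiv.Perm.sumCongrHom_injective (α := α) (β := β)).injOn (fun _ _ => Finset.mem_univ _)
    (fun σ _ hσ => h σ fun k => hσ ?_) fun _ _ => rfl).symm
  obtain ⟨p, hp⟩ := Equiv.Perm.mem_sumCongrHom_range_of_perm_mapsTo_inl k
  exact ⟨p, Finset.mem_coe.2 (Finset.mem_univ _), hp⟩

/-- The splitting of the index set. -/
def IPf_E (e : Fin n ⊕ Fin n' ≃ S) : (Fin n × Fin 2) ⊕ (Fin n' × Fin 2) ≃ S × Fin 2 :=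
  (Equiv.sumProdDistrib _ _ _).symm.trans (e.prodCongr (Equiv.refl _))

theorem IPf_inE (e : Fin n ⊕ Fin n' ≃ S) (p : Fin n × Fin 2) :
    inE e (Pi.single p 1) = Pi.single (IPf_E e (Sum.inl p)) 1 := by
  funext q
  obtain ⟨q, rfl⟩ := (IPf_E e).surjective q
  rw [Pi.single_apply]
  simp only [EmbeddingLike.apply_eq_iff_eq]
  rcases q with q | q <;> simp [inE, IPf_E, Pi.single_apply]

theorem IPf_inC (e : Fin n ⊕ Fin n' ≃ S) (p : Fin n' × Fin 2) :
    inC e (Pi.single p 1) = Pi.single (IPf_E e (Sum.inr p)) 1 := by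
  funext q
  obtain ⟨q, rfl⟩ := (IPf_E e).surjective q
  rw [Pi.single_apply]
  simp only [EmbeddingLike.apply_eq_iff_eq]
  rcases q with q | q <;> simp [inC, IPf_E, Pi.single_apply]

theorem IPf_zero {E : Type} [NormedAddCommGroup E] [NormedSpace ℝ E] (w : Alt E 2) {u v : E}
    (h : u = 0 ∨ v = 0) : w ![u, v] = 0 := by
  rcases h with h | h
  · exact w.map_coord_zero 0 h
  · exact w.map_coord_zero 1 h

theorem IPf_block (e : Fin n ⊕ Fin n' ≃ S) (w : S → Alt (Sp S) 2)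
    (h : (∀ j u v, w (e (Sum.inl j)) ![inC e u, v] = 0) ∨
      ∀ l u v, w (e (Sum.inr l)) ![inE e u, v] = 0) :
    pf w = pf (fun j => (w (e (Sum.inl j))).compContinuousLinearMap (inE e)) *
      pf fun l => (w (e (Sum.inr l))).compContinuousLinearMap (inC e) := by
  have key : ∀ τ : Equiv.Perm ((Fin n × Fin 2) ⊕ (Fin n' × Fin 2)),
      ∏ s, w s ![Pi.single ((IPf_E e).permCongr τ (s, 0)) 1,
        Pi.single ((IPf_E e).permCongr τ (s, 1)) 1] =
      (∏ j, w (e (Sum.inl j)) ![Pi.single (IPf_E e (τ (Sum.inl (j, 0)))) 1,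
        Pi.single (IPf_E e (τ (Sum.inl (j, 1)))) 1]) *
      ∏ l, w (e (Sum.inr l)) ![Pi.single (IPf_E e (τ (Sum.inr (l, 0)))) 1,
        Pi.single (IPf_E e (τ (Sum.inr (l, 1)))) 1] := fun τ => by
    have e1 : ∀ j i, (IPf_E e).symm (e (Sum.inl j), i) = Sum.inl (j, i) := fun j i =>
      (Equiv.symm_apply_eq _).2 rfl
    have e2 : ∀ j i, (IPf_E e).symm (e (Sum.inr j), i) = Sum.inr (j, i) := fun j i =>
      (Equiv.symm_apply_eq _).2 rfl
    rw [← Equiv.prod_comp e, Fintype.prod_sum_type]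
    simp only [Equiv.permCongr_apply, e1, e2]
  unfold pf
  rw [← Equiv.sum_comp (IPf_E e).permCongr, IPf_sum, Finset.sum_mul_sum]
  · refine Finset.sum_congr rfl fun σ₁ _ => Finset.sum_congr rfl fun σ₂ _ => ?_
    rw [key, Equiv.Perm.sign_permCongr, Equiv.Perm.sign_sumCongr, Units.val_mul, Int.cast_mul,
      mul_mul_mul_comm]
    simp only [IPf_comp, IPf_inE, IPf_inC, Equiv.sumCongr_apply, Sum.map_inl, Sum.map_inr]
  · intro τ hτ
    rw [key]
    rcases h with h | h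
    · obtain ⟨⟨j, i⟩, k, hk⟩ : ∃ p k, τ (Sum.inl p) = Sum.inr k := by
        by_contra hc
        refine hτ ?_
        rintro _ ⟨p, rfl⟩
        rcases hp : τ (Sum.inl p) with k | k
        exacts [⟨k, rfl⟩, (hc ⟨p, k, hp⟩).elim]
      rw [Finset.prod_eq_zero (Finset.mem_univ j), zero_mul, mul_zero]
      fin_cases i
      · rw [show τ (Sum.inl (j, 0)) = Sum.inr k from hk, ← IPf_inC, h]
      · rw [show τ (Sum.inl (j, 1)) = Sum.inr k from hk, ← IPf_inC, alt2_swap, h, neg_zero]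
    · obtain ⟨⟨j, i⟩, k, hk⟩ : ∃ p k, τ (Sum.inr p) = Sum.inl k := by
        by_contra hc
        refine hτ ((Equiv.Perm.perm_mapsTo_inl_iff_mapsTo_inr τ).2 ?_)
        rintro _ ⟨p, rfl⟩
        rcases hp : τ (Sum.inr p) with k | k
        exacts [(hc ⟨p, k, hp⟩).elim, ⟨k, rfl⟩]
      rw [Finset.prod_eq_zero (Finset.mem_univ j) (f := fun l => w (e (Sum.inr l)) _), mul_zero,
        mul_zero]
      fin_cases i
      · rw [show τ (Sum.inr (j, 0)) = Sum.inl k from hk, ← IPf_inE, h]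
      · rw [show τ (Sum.inr (j, 1)) = Sum.inl k from hk, ← IPf_inE, alt2_swap, h, neg_zero]

theorem IPf_EE (e : Fin n ⊕ Fin n' ≃ S) (u : Sp (Fin n)) : prE e (inE e u) = u := by
  funext p; simp [prE, inE]

theorem IPf_CC (e : Fin n ⊕ Fin n' ≃ S) (u : Sp (Fin n')) : prC e (inC e u) = u := by
  funext p; simp [prC, inC]

theorem IPf_EC (e : Fin n ⊕ Fin n' ≃ S) (u : Sp (Fin n')) : prE e (inC e u) = 0 := by
  funext p; simp [prE, inC]

theorem IPf_CE (e : Fin n ⊕ Fin n' ≃ S) (u : Sp (Fin n)) : prC e (inE e u) = 0 := by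
  funext p; simp [prC, inE]

theorem pf_block (e : Fin n ⊕ Fin n' ≃ S) (w : Alt (Sp (Fin n)) 2) (τ : Fin n' → Alt (Sp S) 2) :
    pf (fam e (w.compContinuousLinearMap (prE e)) τ) =
      pf (fun _ : Fin n => w) * pf fun l => (τ l).compContinuousLinearMap (inC e) := by
  rw [IPf_block e _ (Or.inl fun j u v => ?_)]
  · simp only [fam, Equiv.symm_apply_apply, Sum.elim_inl, Sum.elim_inr]
    rw [show (w.compContinuousLinearMap (prE e)).compContinuousLinearMap (inE e) = w from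
      alt_ext_two fun u v => by rw [IPf_comp, IPf_comp, IPf_EE, IPf_EE]]
  · simp only [fam, Equiv.symm_apply_apply, Sum.elim_inl]
    rw [IPf_comp]
    exact IPf_zero w (Or.inl (IPf_EC e u))

theorem pf_block' (e : Fin n ⊕ Fin n' ≃ S) (w : Alt (Sp S) 2) (τ : Fin n' → Alt (Sp (Fin n')) 2) :
    pf (fam e w fun l => (τ l).compContinuousLinearMap (prC e)) =
      pf (fun _ : Fin n => w.compContinuousLinearMap (inE e)) * pf τ := by
  rw [IPf_block e _ (Or.inr fun l u v => ?_)]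
  · simp only [fam, Equiv.symm_apply_apply, Sum.elim_inl, Sum.elim_inr]
    rw [show (fun l => ((τ l).compContinuousLinearMap (prC e)).compContinuousLinearMap (inC e)) = τ
      from funext fun l => alt_ext_two fun u v => by rw [IPf_comp, IPf_comp, IPf_CC, IPf_CC]]
  · simp only [fam, Equiv.symm_apply_apply, Sum.elim_inr]
    rw [IPf_comp]
    exact IPf_zero _ (Or.inl (IPf_CE e u))

theorem IPf_dxy (i j : S × Fin 2) (u v : Sp S) :
    alt2 (dxy i j) ![u, v] = u i * v j - v i * u j := by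
  rw [alt2_apply]
  rfl

theorem IPf_two (l : S) (v : Fin 2 → Sp S) : alt2 (dxy (l, 0) (l, 1)) ![v 0, v 1] =
    ∑ ε : Equiv.Perm (Fin 2), ((Equiv.Perm.sign ε : ℤ) : ℝ) * ∏ i, v (ε i) (l, i) := by
  rw [IPf_dxy]
  exact ((Matrix.det_apply' (Matrix.of fun a b : Fin 2 => v a (l, b))).symm.trans
    ((Matrix.det_fin_two _).trans (by simp only [Matrix.of_apply]; ring))).symm

theorem pf_area : pf (fun l : S => alt2 (dxy (l, 0) (l, 1))) = 2 ^ Fintype.card S := by
  have e1 : ∀ σ : Equiv.Perm (S × Fin 2),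
      ∏ s : S, alt2 (dxy (s, 0) (s, 1)) ![Pi.single (σ (s, 0)) 1, Pi.single (σ (s, 1)) 1] =
      ∑ ε : S → Equiv.Perm (Fin 2), ((Equiv.Perm.sign (Equiv.prodCongrRight ε) : ℤ) : ℝ) *
        ∏ x, (1 : Matrix (S × Fin 2) (S × Fin 2) ℝ) ((σ * Equiv.prodCongrRight ε) x) x := by
    intro σ
    rw [Finset.prod_congr rfl fun s _ => IPf_two s fun i => Pi.single (σ (s, i)) 1,
      Fintype.prod_sum]
    refine Finset.sum_congr rfl fun ε _ => ?_
    rw [Finset.prod_mul_distrib, Equiv.Perm.sign_prodCongrRight, Units.coe_prod, Int.cast_prod,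
      Fintype.prod_prod_type]
    refine congrArg _ (Finset.prod_congr rfl fun s _ => Finset.prod_congr rfl fun i _ => ?_)
    rw [Matrix.one_apply, Pi.single_apply]
    exact if_congr eq_comm rfl rfl
  unfold pf
  simp only [e1, Finset.mul_sum]
  rw [Finset.sum_comm, Finset.sum_congr rfl (g := fun _ => (1 : ℝ)) fun ε _ => ?_]
  · simp [Fintype.card_perm]
  · refine Eq.trans ?_ ((Matrix.det_apply' _).symm.trans (Matrix.det_one (n := S × Fin 2)))
    refine Eq.trans (Finset.sum_congr rfl fun σ _ => ?_) (Equiv.sum_comp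
      (Equiv.mulRight (Equiv.prodCongrRight ε : Equiv.Perm (S × Fin 2))) _)
    rw [Equiv.coe_mulRight, Equiv.Perm.sign_mul, Units.val_mul, Int.cast_mul, mul_assoc]

theorem IPf_omA (u v : Sp S) :
    (omA : Alt (Sp S) 2) ![u, v] = ∑ s, (u (s, 0) * v (s, 1) - u (s, 1) * v (s, 0)) := by
  rw [omA, alt2_apply, Finset.sum_sub_distrib]
  simp [dxy, mul_comm]

theorem pf_omA : 0 < pf fun _ : S => (omA : Alt (Sp S) 2) := by
  obtain ⟨Φ, h⟩ := exists_pfM (S := S)
  have e : (omA : Alt (Sp S) 2) = ∑ s, alt2 (dxy (s, 0) (s, 1)) := alt_ext_two fun u v => by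
    rw [IPf_omA, ContinuousAlternatingMap.sum_apply]
    exact Finset.sum_congr rfl fun s _ => by rw [IPf_dxy]; ring
  rw [e, ← h, Φ.map_sum fun _ s => alt2 (dxy (s, 0) (s, 1))]
  refine Finset.sum_pos' (fun r _ => ?_) ⟨id, Finset.mem_univ _, ?_⟩
  · rw [h]
    by_cases hr : Function.Surjective r
    · refine le_of_le_of_eq ?_ ((pf_perm (fun l => alt2 (dxy (l, 0) (l, 1)))
        (Equiv.ofBijective r (Finite.surjective_iff_bijective.1 hr))).trans pf_area).symm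
      positivity
    · obtain ⟨l, hl⟩ := not_forall.1 hr
      refine le_of_eq (Finset.sum_eq_zero fun σ _ => ?_).symm
      obtain ⟨⟨s, i⟩, hs⟩ := σ.surjective (l, 0)
      have k : ∀ j, (Pi.single (l, 0) 1 : Sp S) (r s, j) = 0 := fun j =>
        Pi.single_eq_of_ne (fun k => hl ⟨s, congrArg Prod.fst k⟩) _
      rw [Finset.prod_eq_zero (Finset.mem_univ s), mul_zero]
      fin_cases i
      · rw [IPf_dxy, show σ (s, 0) = (l, 0) from hs, k, k]; ring
      · rw [IPf_dxy, show σ (s, 1) = (l, 0) from hs, k, k]; ring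
  · rw [h]
    exact pf_area (S := S) ▸ by positivity

theorem exists_darboux (w : Alt (Sp S) 2) (h : ∀ u, (∀ v, w ![u, v] = 0) → u = 0) :
    ∃ A : Sp S →L[ℝ] Sp S, w.compContinuousLinearMap A = omA := by
  obtain ⟨B, hB⟩ := exists_bilin w
  have hs : Ns.Skew B := fun u v => by rw [← hB, ← hB, alt2_swap]
  have hn : Ns.Nd B := fun u k => h u fun v => by rw [hB, k]
  obtain ⟨a, c, r⟩ : ∃ a c : S → Sp S, Ns.lin_Rel B a c := by
    rcases isEmpty_or_nonempty S with k | k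
    · exact ⟨fun _ => 0, fun _ => 0, k.elim, k.elim, k.elim, k.elim⟩
    obtain ⟨m, hm⟩ := Nat.exists_eq_succ_of_ne_zero (Fintype.card_ne_zero (α := S))
    have hd : Module.finrank ℝ (Sp S) = 2 * m + 2 := by
      simp only [Module.finrank_fintype_fun_eq_card, Fintype.card_prod, Fintype.card_fin, hm]
      omega
    obtain ⟨x, y, xy, -⟩ := Ns.lin_ext (ι := Empty) (a := Empty.elim) (c := Empty.elim) hs hn
      ⟨fun i => i.elim, fun i => i.elim, fun i => i.elim, fun i => i.elim⟩ (by rw [hd]; simp)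
    obtain ⟨a, c, r, -⟩ := Ns.lin_fam hs hn xy m hd.ge
    have e := Fintype.equivFinOfCardEq hm
    exact ⟨fun s => a (e s), fun s => c (e s), fun _ _ => r.aa _ _, fun _ _ => r.cc _ _,
      fun _ => r.ac _, fun i j k => r.ne _ _ (e.injective.ne k)⟩
  refine ⟨∑ s, (ContinuousLinearMap.proj (R := ℝ) (φ := fun _ : S × Fin 2 => ℝ) (s, 0)).smulRight
    (a s) + ∑ s, (ContinuousLinearMap.proj (R := ℝ) (φ := fun _ : S × Fin 2 => ℝ) (s, 1)).smulRight
    (c s), alt_ext_two fun u v => ?_⟩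
  rw [IPf_comp, hB, IPf_omA, ← Ns.lin_comp hs r]
  simp only [add_apply, sum_apply, ContinuousLinearMap.smulRight_apply,
    ContinuousLinearMap.proj_apply]

theorem pf_ne_zero (w : Alt (Sp S) 2) (h : ∀ u, (∀ v, w ![u, v] = 0) → u = 0) :
    pf (fun _ : S => w) ≠ 0 := by
  obtain ⟨A, hA⟩ := exists_darboux w h
  intro k
  have e := pf_comp (fun _ : S => w) A
  rw [hA, k, mul_zero] at e
  exact (pf_omA (S := S)).ne' e

end Pool.Agent.Work.MP_bf98aa_gt.Th
end

-- merged part: Pool.Agent.Work.MP_bf98aa_gt.Th.FAct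
section
/-!
Free properly discontinuous actions: small sets, spreading and gluing of forms, invariant partitions of unity.

PLAN. `Act.nhds`: finitely many `γ` move the closed unit ball at `x` to meet itself; separate `x` from `γ • x`.
`Act.locfin`: apply `fin` to `K ∪ closedBall x 1`. `spread`: put `δ' x = pb (γ • ·) δ x` for the unique `γ` with
`γ • x ∈ V` (zero if there is none); near such an `x` the same `γ` works; `pb_comp` and `mul_smul` give invariance.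
`spread_cpt`: the same function; at points of `U` outside the closed set `orb K` it vanishes identically nearby.
`inv_partition`: `SmoothPartitionOfUnity.exists_isSubordinate` for the compact set of `cocpt`-type `K₀`
(`𝓘(ℝ, E)`, `contMDiff_iff_contDiff`) gives `φ i`; put `Φ i x = ∑ᶠ γ, φ i (γ • x)` (locally a finite sum by
`locfin`), `ψ i = Φ i / ∑ j, Φ j`.
-/

set_option autoImplicit false

open scoped ContDiff Topology
open Set

namespace Pool.Agent.Work.MP_bf98aa_gt.Th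

variable {E : Type} [NormedAddCommGroup E] [NormedSpace ℝ E] [FiniteDimensional ℝ E] {k : ℕ}
  {Γ : Type} [Group Γ] [MulAction Γ E]

/-- The saturation of a set. -/
def orb (Γ : Type) [Group Γ] [MulAction Γ E] (V : Set E) : Set E := {x | ∃ γ : Γ, γ • x ∈ V}

/-- No two points of the set are in the same orbit through a nontrivial element. -/
def Small (Γ : Type) [Group Γ] [MulAction Γ E] (V : Set E) : Prop :=
  ∀ (γ : Γ), ∀ x ∈ V, γ • x ∈ V → γ = 1

theorem Act.nhds (h : Act Γ E) (x : E) : ∃ O ∈ 𝓝 x, Small Γ O := by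
  have h1 : ∀ γ : Γ, ∃ O ∈ 𝓝 x, ∀ y ∈ O, γ • y ∈ O → γ = 1 := fun γ => by
    by_cases e : γ • x = x
    · exact ⟨univ, Filter.univ_mem, fun _ _ _ => h.free γ x e⟩
    · obtain ⟨u, v, hu, hv, hd⟩ := t2_separation_nhds e
      exact ⟨(fun y => γ • y) ⁻¹' u ∩ v,
        Filter.inter_mem ((h.smooth γ).continuous.continuousAt.preimage_mem_nhds hu) hv,
        fun y hy hy' => (disjoint_left.1 hd hy.1 hy'.2).elim⟩
  choose O h2 h3 using h1
  refine ⟨Metric.closedBall x 1 ∩ ⋂ γ ∈ {γ : Γ | ∃ y ∈ Metric.closedBall x 1,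
    γ • y ∈ Metric.closedBall x 1}, O γ, Filter.inter_mem (Metric.closedBall_mem_nhds x one_pos)
    ((Filter.biInter_mem (h.fin _ (isCompact_closedBall x 1))).2 fun γ _ => h2 γ),
    fun γ y hy hy' => ?_⟩
  exact h3 γ y (mem_iInter₂.1 hy.2 γ ⟨y, hy.1, hy'.1⟩) (mem_iInter₂.1 hy'.2 γ ⟨y, hy.1, hy'.1⟩)

theorem Act.locfin (h : Act Γ E) {K : Set E} (hK : IsCompact K) (x : E) :
    ∃ O ∈ 𝓝 x, {γ : Γ | ∃ y ∈ O, γ • y ∈ K}.Finite := by
  exact ⟨Metric.closedBall x 1, Metric.closedBall_mem_nhds x one_pos,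
    (h.fin _ (hK.union (isCompact_closedBall x 1))).subset
      fun γ ⟨y, h1, h2⟩ => ⟨y, Or.inr h1, Or.inl h2⟩⟩

theorem Act.countable (h : Act Γ E) : Countable Γ := by
  refine countable_univ_iff.1 ((countable_iUnion fun n : ℕ =>
    (h.fin _ (isCompact_closedBall (0 : E) n)).countable).mono fun γ _ => ?_)
  obtain ⟨n, hn⟩ := exists_nat_ge ‖γ • (0 : E)‖
  exact mem_iUnion.2 ⟨n, 0, Metric.mem_closedBall_self n.cast_nonneg, mem_closedBall_zero_iff.2 hn⟩

theorem FAct_lf (h : Act Γ E) {K : Set E} (hK : IsCompact K) :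
    LocallyFinite fun γ : Γ => (fun y : E => γ • y) ⁻¹' K := fun x =>
  let ⟨O, h1, h2⟩ := h.locfin hK x
  ⟨O, h1, h2.subset fun _ ⟨y, h3, h4⟩ => ⟨y, h4, h3⟩⟩

omit [NormedAddCommGroup E] [NormedSpace ℝ E] [FiniteDimensional ℝ E] in
theorem FAct_orb (V : Set E) : orb Γ V = ⋃ γ : Γ, (fun y : E => γ • y) ⁻¹' V :=
  Set.ext fun _ => by rw [mem_iUnion]; rfl

theorem Act.isClosed_orb (h : Act Γ E) {K : Set E} (hK : IsCompact K) : IsClosed (orb Γ K) := by
  rw [FAct_orb]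
  exact (FAct_lf h hK).isClosed_iUnion fun γ => hK.isClosed.preimage (h.smooth γ).continuous

theorem Act.isOpen_orb (h : Act Γ E) {V : Set E} (hV : IsOpen V) : IsOpen (orb Γ V) := by
  rw [FAct_orb]
  exact isOpen_iUnion fun γ => hV.preimage (h.smooth γ).continuous

theorem invSet_orb (V : Set E) : InvSet Γ (orb Γ V) := by
  rintro γ x ⟨g, hg⟩
  exact ⟨g * γ⁻¹, by rwa [mul_smul, inv_smul_smul]⟩

theorem Inv.extDeriv (h : Act Γ E) {α : Fm E k} {U : Set E} (hU : IsOpen U) (hI : InvSet Γ U)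
    (hα : Sm α U) (hi : Inv Γ α U) : Inv Γ (extDeriv α) U := by
  intro γ x hx
  rw [← extDeriv_pb (hα.diffAt hU (hI γ x hx)) (h.smooth γ).contDiffAt]
  exact Filter.EventuallyEq.extDeriv_eq (Filter.mem_of_superset (hU.mem_nhds hx) (hi γ))

theorem Inv.sub {α β : Fm E k} {U : Set E} (hα : Inv Γ α U) (hβ : Inv Γ β U) :
    Inv Γ (α - β) U := by
  intro γ x hx
  rw [pb_sub, Pi.sub_apply, Pi.sub_apply, hα γ x hx, hβ γ x hx]

theorem Inv.add {α β : Fm E k} {U : Set E} (hα : Inv Γ α U) (hβ : Inv Γ β U) :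
    Inv Γ (α + β) U := by
  intro γ x hx
  rw [pb_add, Pi.add_apply, Pi.add_apply, hα γ x hx, hβ γ x hx]

open Classical in
/-- The spread of a form given on a small set. -/
noncomputable def FAct_sp (Γ : Type) [Group Γ] [MulAction Γ E] (B : Set E) (δ : Fm E k) : Fm E k :=
  fun x => if h : ∃ γ : Γ, γ • x ∈ B then pb (fun y => h.choose • y) δ x else 0

omit [FiniteDimensional ℝ E] in
theorem FAct_eq {B : Set E} (hs : Small Γ B) (δ : Fm E k) {γ : Γ} {x : E} (hx : γ • x ∈ B) :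
    FAct_sp Γ B δ x = pb (fun y => γ • y) δ x := by
  have h : ∃ γ : Γ, γ • x ∈ B := ⟨γ, hx⟩
  have e := hs (h.choose * γ⁻¹) _ hx (by rw [mul_smul, inv_smul_smul]; exact h.choose_spec)
  rw [FAct_sp, dif_pos h, mul_inv_eq_one.1 e]

omit [FiniteDimensional ℝ E] in
theorem FAct_self {B : Set E} (hs : Small Γ B) (δ : Fm E k) {x : E} (hx : x ∈ B) :
    FAct_sp Γ B δ x = δ x := by
  rw [FAct_eq hs δ (γ := 1) (by rwa [one_smul])]
  simp only [one_smul, pb_id]

omit [FiniteDimensional ℝ E] in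
theorem FAct_inv (h : Act Γ E) {B : Set E} (hs : Small Γ B) (δ : Fm E k) (U : Set E) :
    Inv Γ (FAct_sp Γ B δ) U := fun g x _ => by
  by_cases hx : ∃ γ : Γ, γ • g • x ∈ B
  · obtain ⟨γ, hx⟩ := hx
    rw [pb_congr' (FAct_eq hs δ hx), FAct_eq hs δ (γ := γ * g) (by rwa [mul_smul]),
      ← pb_comp δ ((h.smooth g).differentiable (by simp) x)
        ((h.smooth γ).differentiable (by simp) _)]
    simp only [mul_smul]
  · have h1 : ¬∃ γ : Γ, γ • x ∈ B := fun ⟨γ, k⟩ =>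
      hx ⟨γ * g⁻¹, by rwa [mul_smul, inv_smul_smul]⟩
    rw [pb_congr' (β := 0) (dif_neg hx), FAct_sp, dif_neg h1]
    rfl

theorem FAct_sm (h : Act Γ E) {B : Set E} (hB : IsOpen B) (hs : Small Γ B) {δ : Fm E k} {γ : Γ}
    {x : E} (hx : γ • x ∈ B) (hδ : ContDiffAt ℝ ∞ δ (γ • x)) :
    ContDiffAt ℝ ∞ (FAct_sp Γ B δ) x := by
  have h1 := (h.smooth γ).contDiffAt (x := x)
  refine (ContDiffAt.alt_comp (hδ.comp x h1) (h1.fderiv_right le_rfl)).congr_of_eventuallyEq ?_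
  filter_upwards [h1.continuousAt.preimage_mem_nhds (hB.mem_nhds hx)] with y hy
  exact FAct_eq hs δ hy

theorem spread (h : Act Γ E) {V : Set E} (hV : IsOpen V) (hs : Small Γ V) {δ : Fm E k}
    (hδ : Sm δ V) : ∃ δ' : Fm E k, Sm δ' (orb Γ V) ∧ Inv Γ δ' (orb Γ V) ∧ ∀ x ∈ V, δ' x = δ x := by
  exact ⟨FAct_sp Γ V δ, fun x ⟨γ, hx⟩ => (FAct_sm h hV hs hx (hδ.at hV hx)).contDiffWithinAt,
    FAct_inv h hs δ _, fun x hx => FAct_self hs δ hx⟩

theorem spread_cpt (h : Act Γ E) {B K U : Set E} (hB : IsOpen B) (hs : Small Γ B)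
    (hK : IsCompact K) (hKB : K ⊆ B) (hU : IsOpen U) (hI : InvSet Γ U) {δ : Fm E k}
    (hδ : Sm δ (U ∩ B)) (h0 : ∀ x ∈ U ∩ B, x ∉ K → δ x = 0) :
    ∃ δ' : Fm E k, Sm δ' U ∧ Inv Γ δ' U ∧ ∀ x ∈ U ∩ B, δ' x = δ x := by
  refine ⟨FAct_sp Γ B δ, fun x hx => ContDiffAt.contDiffWithinAt ?_, FAct_inv h hs δ _,
    fun x hx => FAct_self hs δ hx.2⟩
  by_cases hx' : x ∈ orb Γ K
  · obtain ⟨γ, k⟩ := hx'
    exact FAct_sm h hB hs (hKB k) (hδ.at (hU.inter hB) ⟨hI γ x hx, hKB k⟩)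
  · refine (contDiffAt_const (c := 0)).congr_of_eventuallyEq ?_
    filter_upwards [hU.mem_nhds hx, (h.isClosed_orb hK).isOpen_compl.mem_nhds hx'] with y h1 h2
    by_cases hy : ∃ γ : Γ, γ • y ∈ B
    · obtain ⟨γ, hy⟩ := hy
      rw [FAct_eq hs δ hy, pb_congr' (β := 0) (h0 _ ⟨hI γ y h1, hy⟩ fun k => h2 ⟨γ, k⟩)]
      rfl
    · exact dif_neg hy

theorem glue {U V : Set E} (hU : IsOpen U) (hV : IsOpen V) (hIU : InvSet Γ U) (hIV : InvSet Γ V)
    {α β : Fm E k} (hα : Sm α U) (hβ : Sm β V) (hiα : Inv Γ α U) (hiβ : Inv Γ β V)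
    (he : ∀ x ∈ U ∩ V, α x = β x) : ∃ γ : Fm E k, Sm γ (U ∪ V) ∧ Inv Γ γ (U ∪ V) ∧
      (∀ x ∈ U, γ x = α x) ∧ ∀ x ∈ V, γ x = β x := by
  classical
  have h1 : ∀ x ∈ U, U.piecewise α β x = α x := fun x hx => piecewise_eq_of_mem _ _ _ hx
  have h2 : ∀ x ∈ V, U.piecewise α β x = β x := fun x hx => by
    by_cases k : x ∈ U
    · rw [h1 x k, he x ⟨k, hx⟩]
    · exact piecewise_eq_of_notMem _ _ _ k
  refine ⟨U.piecewise α β, fun x hx => ContDiffAt.contDiffWithinAt ?_, fun g x hx => ?_, h1, h2⟩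
  · rcases hx with hx | hx
    · exact (hα.at hU hx).congr_of_eventuallyEq (Filter.mem_of_superset (hU.mem_nhds hx) h1)
    · exact (hβ.at hV hx).congr_of_eventuallyEq (Filter.mem_of_superset (hV.mem_nhds hx) h2)
  · rcases hx with hx | hx
    · rw [pb_congr' (h1 _ (hIU g x hx)), hiα g x hx, h1 x hx]
    · rw [pb_congr' (h2 _ (hIV g x hx)), hiβ g x hx, h2 x hx]

/-- Two invariant forms that agree on `V` agree on its saturation. -/
theorem inv_ext (h : Act Γ E) {U V : Set E} (hI : InvSet Γ U) {α β : Fm E k} (hα : Inv Γ α U)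
    (hβ : Inv Γ β U) (he : ∀ x ∈ U ∩ V, α x = β x) : ∀ x ∈ U ∩ orb Γ V, α x = β x := by
  rintro x ⟨hx, γ, hγ⟩
  rw [← hα γ x hx, ← hβ γ x hx, pb_congr' (he _ ⟨hI γ x hx, hγ⟩)]

theorem contDiff_finsum_smul (h : Act Γ E) {V : Type} [NormedAddCommGroup V] [NormedSpace ℝ V]
    {f : Γ → E → V} (hf : ∀ γ, ContDiff ℝ ∞ (f γ)) {K : Set E} (hK : IsCompact K)
    (h0 : ∀ γ x, γ • x ∉ K → f γ x = 0) : ContDiff ℝ ∞ fun x => ∑ᶠ γ, f γ x := by
  exact (contMDiff_finsum (fun γ => (hf γ).contMDiff)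
    ((FAct_lf h hK).subset fun γ x hx => by_contra fun k => hx (h0 γ x k))).contDiff

theorem continuous_finsum_smul (h : Act Γ E) {V : Type} [NormedAddCommGroup V]
    {f : Γ → E → V} (hf : ∀ γ, Continuous (f γ)) {K : Set E} (hK : IsCompact K)
    (h0 : ∀ γ x, γ • x ∉ K → f γ x = 0) : Continuous fun x => ∑ᶠ γ, f γ x := by
  exact continuous_finsum hf ((FAct_lf h hK).subset fun γ x hx => by_contra fun k => hx (h0 γ x k))

theorem inv_partition (h : Act Γ E) {I : Type} [Fintype I] {V : I → Set E} (hV : ∀ i, IsOpen (V i))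
    {K₀ : Set E} (hK : IsCompact K₀) (hc : ∀ x : E, ∃ γ : Γ, γ • x ∈ K₀) (hcov : K₀ ⊆ ⋃ i, V i) :
    ∃ (ψ : I → E → ℝ) (C : I → Set E), (∀ i, ContDiff ℝ ∞ (ψ i)) ∧ (∀ i x, 0 ≤ ψ i x) ∧
      (∀ i (γ : Γ) x, ψ i (γ • x) = ψ i x) ∧ (∀ x, ∑ i, ψ i x = 1) ∧ (∀ i, IsCompact (C i)) ∧
      (∀ i, C i ⊆ V i) ∧ ∀ i x, x ∉ orb Γ (C i) → ψ i x = 0 := by
  obtain ⟨R, hR⟩ := hK.isBounded.subset_ball (0 : E)
  obtain ⟨φ, hφ⟩ := SmoothPartitionOfUnity.exists_isSubordinate (modelWithCornersSelf ℝ E)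
    hK.isClosed (fun i => V i ∩ Metric.ball 0 R) (fun i => (hV i).inter Metric.isOpen_ball)
    fun x hx => let ⟨i, hi⟩ := mem_iUnion.1 (hcov hx); mem_iUnion.2 ⟨i, hi, hR hx⟩
  have hC : ∀ i, IsCompact (tsupport (φ i)) := fun i => Metric.isCompact_of_isClosed_isBounded
    (isClosed_tsupport _) (Metric.isBounded_ball.subset fun x hx => (hφ i hx).2)
  have hz : ∀ i (γ : Γ) (x : E), γ • x ∉ tsupport (φ i) → φ i (γ • x) = 0 :=
    fun i γ x => image_eq_zero_of_notMem_tsupport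
  obtain ⟨Φ, hΦ⟩ : ∃ Φ : I → E → ℝ, Φ = fun i x => ∑ᶠ γ : Γ, φ i (γ • x) := ⟨_, rfl⟩
  have h1 : ∀ i, ContDiff ℝ ∞ (Φ i) := fun i => hΦ ▸ contDiff_finsum_smul h
    (fun γ => (φ i).contMDiff.contDiff.comp (h.smooth γ)) (hC i) (hz i)
  have h2 : ∀ i x, 0 ≤ Φ i x := fun i x => hΦ ▸ finsum_nonneg fun γ => φ.nonneg i _
  have h3 : ∀ i (g : Γ) x, Φ i (g • x) = Φ i x := fun i g x => by
    simp only [hΦ, ← mul_smul]
    exact finsum_comp_equiv (Equiv.mulRight g) (f := fun γ : Γ => φ i (γ • x))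
  have h4 : ∀ x, 0 < ∑ j, Φ j x := fun x => by
    obtain ⟨γ, k⟩ := hc x
    obtain ⟨i, hi⟩ := φ.exists_pos_of_mem k
    refine Finset.sum_pos' (fun j _ => h2 j x) ⟨i, Finset.mem_univ i, ?_⟩
    rw [hΦ]
    exact finsum_pos (fun γ => φ.nonneg i _) ⟨γ, hi⟩
      (((FAct_lf h (hC i)).point_finite x).subset fun g hg => subset_tsupport _ hg)
  refine ⟨fun i x => Φ i x / ∑ j, Φ j x, fun i => tsupport (φ i),
    fun i => (h1 i).div (ContDiff.sum fun j _ => h1 j) fun x => (h4 x).ne',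
    fun i x => div_nonneg (h2 i x) (h4 x).le, fun i g x => by simp only [h3],
    fun x => by rw [← Finset.sum_div, div_self (h4 x).ne'], hC, fun i x hx => (hφ i hx).1,
    fun i x hx => div_eq_zero_iff.2 (Or.inl ?_)⟩
  rw [hΦ]
  exact finsum_eq_zero_of_forall_eq_zero fun γ => hz i γ x fun k => hx ⟨γ, k⟩

end Pool.Agent.Work.MP_bf98aa_gt.Th
end

-- merged part: Pool.Agent.Work.MP_bf98aa_gt.Th.IStk
section
/-!
Stokes formula for mixed Pfaffians; unfolding of integrals.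

PLAN. `pf_stokes`: let `V σ x = a x ![e (σ (s₀,1))] * ∏ s ≠ s₀, w s x ![..]`. Then `pf (...) = 2 ∑ σ, sign σ * (∂_{σ (s₀,0)} a (σ (s₀,1))) * ∏` (swap the two
arguments), each `∫ ∂_i (V σ) = 0` (`integral_fderiv_eq_zero`-type lemma: `integral_bilinear_hasLineDerivAt_right_eq_neg_left_of_integrable`, or
`integral_eq_zero_of_hasCompactSupport...`), and the terms in which the derivative falls on `w s₁` cancel: composing `σ` with the 3-cycle on
`(s₀,0), (s₁,0), (s₁,1)` (even) shows that three times their sum is a sum of values of `extDeriv (w s₁)` (`extDeriv_two_apply`).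
`integral_smul`: `integral_image_eq_integral_abs_det_fderiv_smul` on `univ`. `exists_rho`: a bump `φ ≥ 0` positive on `K`, divided by `∑ᶠ γ, φ (γ • x)`.
`unfold`: only finitely many `γ` move `tsupport ρ` into `tsupport T`; change variables in each term. `inv_stokes`: apply `unfold` to
`T = pf (d (ρ a), w)`: `T (γ • x) = pf (d ((ρ ∘ γ) a), w) x` (`pf_comp`, `extDeriv_pb`), and the locally finite sum of the `(ρ ∘ γ) a` is `a`.
-/

set_option autoImplicit false

open scoped ContDiff Topology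
open Set MeasureTheory

namespace Pool.Agent.Work.MP_bf98aa_gt.Th

variable {S : Type} [Fintype S] [DecidableEq S] {Γ : Type} [Group Γ] [MulAction Γ (Sp S)]

theorem IStk_swap {I : Type} [Fintype I] [DecidableEq I] {p q : I} (h : p ≠ q) (f : Equiv.Perm I → ℝ) :
    ∑ σ : Equiv.Perm I, ((Equiv.Perm.sign σ : ℤ) : ℝ) * f σ =
      -∑ σ : Equiv.Perm I, ((Equiv.Perm.sign σ : ℤ) : ℝ) * f (σ * Equiv.swap p q) := by
  rw [← Equiv.sum_comp (Equiv.mulRight (Equiv.swap p q)), ← Finset.sum_neg_distrib]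
  refine Finset.sum_congr rfl fun σ _ => ?_
  simp [Equiv.Perm.sign_swap h]

theorem IStk_three {I : Type} [Fintype I] [DecidableEq I] {p q r : I} (h1 : p ≠ q) (h2 : p ≠ r) (h3 : q ≠ r)
    {H : I → I → I → ℝ} (ha : ∀ i j k, H i j k = -H i k j) (hc : ∀ i j k, H i j k + H j k i + H k i j = 0)
    {R : Equiv.Perm I → ℝ}
    (hR : ∀ σ τ : Equiv.Perm I, (∀ i, i ≠ p → i ≠ q → i ≠ r → σ i = τ i) → R σ = R τ) :
    ∑ σ : Equiv.Perm I, ((Equiv.Perm.sign σ : ℤ) : ℝ) * (R σ * H (σ p) (σ q) (σ r)) = 0 := by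
  have k1 := IStk_swap h1 fun σ => R σ * H (σ p) (σ q) (σ r)
  have k2 := IStk_swap h2 fun σ => R σ * H (σ p) (σ q) (σ r)
  have k3 : ∀ σ, R (σ * Equiv.swap p q) = R σ := fun σ => hR _ _ fun i a b _ => by
    rw [Equiv.Perm.mul_apply, Equiv.swap_apply_of_ne_of_ne a b]
  have k4 : ∀ σ, R (σ * Equiv.swap p r) = R σ := fun σ => hR _ _ fun i a _ b => by
    rw [Equiv.Perm.mul_apply, Equiv.swap_apply_of_ne_of_ne a b]
  simp only [k3, k4, Equiv.Perm.mul_apply, Equiv.swap_apply_left, Equiv.swap_apply_right,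
    Equiv.swap_apply_of_ne_of_ne h2.symm h3.symm, Equiv.swap_apply_of_ne_of_ne h1.symm h3] at k1 k2
  have k5 : ∑ σ : Equiv.Perm I, ((Equiv.Perm.sign σ : ℤ) : ℝ) * (R σ * H (σ p) (σ q) (σ r)) -
      ∑ σ : Equiv.Perm I, ((Equiv.Perm.sign σ : ℤ) : ℝ) * (R σ * H (σ q) (σ p) (σ r)) -
      ∑ σ : Equiv.Perm I, ((Equiv.Perm.sign σ : ℤ) : ℝ) * (R σ * H (σ r) (σ q) (σ p)) = 0 := by
    rw [← Finset.sum_sub_distrib, ← Finset.sum_sub_distrib]
    refine Finset.sum_eq_zero fun σ _ => ?_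
    rw [ha (σ q), ha (σ r)]
    linear_combination ((Equiv.Perm.sign σ : ℤ) : ℝ) * R σ * hc (σ p) (σ q) (σ r)
  linarith

theorem IStk_int {V : Sp S → ℝ} (h1 : ContDiff ℝ ∞ V) (h2 : HasCompactSupport V) (v : Sp S) :
    Integrable (fun x => fderiv ℝ V x v) ∧ ∫ x, fderiv ℝ V x v = 0 := by
  have h3 : Integrable fun x => fderiv ℝ V x v :=
    ((h1.continuous_fderiv (by simp)).clm_apply continuous_const).integrable_of_hasCompactSupport
      (h2.fderiv_apply ℝ v)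
  refine ⟨h3, ?_⟩
  have h4 := integral_mul_fderiv_eq_neg_fderiv_mul_of_integrable (μ := volume) (f := fun _ : Sp S => (1 : ℝ))
    (g := V) (v := v) (by simp) (by simpa using h3)
    (by simpa using h1.continuous.integrable_of_hasCompactSupport h2)
    (fun _ _ => differentiableAt_const _) fun x _ => h1.differentiable (by simp) x
  simpa using h4

theorem pf_stokes (s₀ : S) {a : Fm (Sp S) 1} (ha : ContDiff ℝ ∞ a) (hc : HasCompactSupport a)
    {w : S → Fm (Sp S) 2} (hw : ∀ s, s ≠ s₀ → Cl (w s) univ) :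
    ∫ x, pf (fun s => if s = s₀ then extDeriv a x else w s x) = 0 := by
  have hd : ∀ s, s ≠ s₀ → ContDiff ℝ ∞ (w s) := fun s hs => contDiffOn_univ.1 (hw s hs).1
  have ev : ∀ {k : ℕ} {α : Fm (Sp S) k} (_ : ContDiff ℝ ∞ α) (v : Fin k → Sp S) (x : Sp S),
      HasFDerivAt (fun y => α y v) ((ContinuousAlternatingMap.apply ℝ (Sp S) ℝ v).comp (fderiv ℝ α x)) x :=
    fun h v x => (ContinuousAlternatingMap.apply ℝ (Sp S) ℝ v).hasFDerivAt.comp x
      (h.differentiable (by simp) x).hasFDerivAt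
  have sm : ∀ {k : ℕ} {α : Fm (Sp S) k} (_ : ContDiff ℝ ∞ α) (v : Fin k → Sp S),
      ContDiff ℝ ∞ fun y => α y v :=
    fun h v => (ContinuousAlternatingMap.apply ℝ (Sp S) ℝ v).contDiff.comp h
  obtain ⟨e, he⟩ : ∃ e : S × Fin 2 → Sp S, e = fun i => Pi.single i 1 := ⟨_, rfl⟩
  obtain ⟨V, hV⟩ : ∃ V : Equiv.Perm (S × Fin 2) → Sp S → ℝ, V = fun σ x => a x ![e (σ (s₀, 1))] *
    ∏ s ∈ Finset.univ.erase s₀, w s x ![e (σ (s, 0)), e (σ (s, 1))] := ⟨_, rfl⟩
  have V1 : ∀ σ, ContDiff ℝ ∞ (V σ) := fun σ => hV ▸ (sm ha _).mul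
    (contDiff_prod fun s hs => sm (hd s (Finset.ne_of_mem_erase hs)) _)
  have V2 : ∀ σ, HasCompactSupport (V σ) := fun σ => hc.mono fun x hx h0 => hx (by simp [hV, h0])
  have key : ∀ x, pf (fun s => if s = s₀ then extDeriv a x else w s x) =
      2 * ∑ σ : Equiv.Perm (S × Fin 2), ((Equiv.Perm.sign σ : ℤ) : ℝ) * fderiv ℝ (V σ) x (e (σ (s₀, 0))) := by
    intro x
    have h1 : ∀ σ : Equiv.Perm (S × Fin 2), fderiv ℝ (V σ) x (e (σ (s₀, 0))) =
        fderiv ℝ a x (e (σ (s₀, 0))) ![e (σ (s₀, 1))] *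
          ∏ s ∈ Finset.univ.erase s₀, w s x ![e (σ (s, 0)), e (σ (s, 1))] +
        ∑ t ∈ Finset.univ.erase s₀, (a x ![e (σ (s₀, 1))] *
          ∏ s ∈ (Finset.univ.erase s₀).erase t, w s x ![e (σ (s, 0)), e (σ (s, 1))]) *
          fderiv ℝ (w t) x (e (σ (s₀, 0))) ![e (σ (t, 0)), e (σ (t, 1))] := by
      intro σ
      have h2 := (ev ha ![e (σ (s₀, 1))] x).mul (HasFDerivAt.finsetProd (u := Finset.univ.erase s₀)
        fun s hs => ev (hd s (Finset.ne_of_mem_erase hs)) ![e (σ (s, 0)), e (σ (s, 1))] x)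
      rw [hV]
      refine (congrArg (fun L : Sp S →L[ℝ] ℝ => L (e (σ (s₀, 0)))) h2.fderiv).trans ?_
      simp only [add_apply, smul_apply, smul_eq_mul, sum_apply, ContinuousLinearMap.comp_apply,
        ContinuousAlternatingMap.apply_apply, Finset.mul_sum, mul_assoc]
      ring
    have h2 : ∀ t ∈ Finset.univ.erase s₀, ∑ σ : Equiv.Perm (S × Fin 2), ((Equiv.Perm.sign σ : ℤ) : ℝ) *
        ((a x ![e (σ (s₀, 1))] *
          ∏ s ∈ (Finset.univ.erase s₀).erase t, w s x ![e (σ (s, 0)), e (σ (s, 1))]) *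
          fderiv ℝ (w t) x (e (σ (s₀, 0))) ![e (σ (t, 0)), e (σ (t, 1))]) = 0 := by
      intro t ht
      have ht' := Finset.ne_of_mem_erase ht
      refine IStk_three (p := (s₀, 0)) (q := (t, 0)) (r := (t, 1)) (by simp [ht'.symm]) (by simp [ht'.symm])
        (by simp) (H := fun i j k => fderiv ℝ (w t) x (e i) ![e j, e k]) (fun i j k => alt2_swap _ _ _)
        (fun i j k => ?_) fun σ τ h => ?_
      · rw [← extDeriv_two_apply ((hd t ht').differentiable (by simp) x), (hw t ht').2 x trivial]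
        rfl
      · rw [h (s₀, 1) (by simp) (by simp [ht'.symm]) (by simp [ht'.symm])]
        refine congrArg _ (Finset.prod_congr rfl fun s hs => ?_)
        have k1 := Finset.ne_of_mem_erase hs
        have k2 := Finset.ne_of_mem_erase (Finset.mem_of_mem_erase hs)
        rw [h (s, 0) (by simp [k2]) (by simp [k1]) (by simp [k1]),
          h (s, 1) (by simp [k2]) (by simp [k1]) (by simp [k1])]
    have h3 := IStk_swap (p := (s₀, (0 : Fin 2))) (q := (s₀, 1)) (by simp) fun σ =>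
      fderiv ℝ a x (e (σ (s₀, 0))) ![e (σ (s₀, 1))] *
        ∏ s ∈ Finset.univ.erase s₀, w s x ![e (σ (s, 0)), e (σ (s, 1))]
    have h4 : ∀ σ : Equiv.Perm (S × Fin 2), ∏ s ∈ Finset.univ.erase s₀,
        w s x ![e ((σ * Equiv.swap (s₀, 0) (s₀, 1) : Equiv.Perm (S × Fin 2)) (s, 0)),
          e ((σ * Equiv.swap (s₀, 0) (s₀, 1) : Equiv.Perm (S × Fin 2)) (s, 1))] =
        ∏ s ∈ Finset.univ.erase s₀, w s x ![e (σ (s, 0)), e (σ (s, 1))] := fun σ =>
      Finset.prod_congr rfl fun s hs => by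
        have k := Finset.ne_of_mem_erase hs
        rw [Equiv.Perm.mul_apply, Equiv.Perm.mul_apply, Equiv.swap_apply_of_ne_of_ne (by simp [k]) (by simp [k]),
          Equiv.swap_apply_of_ne_of_ne (by simp [k]) (by simp [k])]
    simp only [h4] at h3
    simp only [Equiv.Perm.mul_apply, Equiv.swap_apply_left, Equiv.swap_apply_right] at h3
    simp only [h1, mul_add, Finset.sum_add_distrib]
    rw [show ∑ σ : Equiv.Perm (S × Fin 2), ((Equiv.Perm.sign σ : ℤ) : ℝ) *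
        ∑ t ∈ Finset.univ.erase s₀, (a x ![e (σ (s₀, 1))] *
          ∏ s ∈ (Finset.univ.erase s₀).erase t, w s x ![e (σ (s, 0)), e (σ (s, 1))]) *
          fderiv ℝ (w t) x (e (σ (s₀, 0))) ![e (σ (t, 0)), e (σ (t, 1))] = 0 by
        simp only [Finset.mul_sum]
        rw [Finset.sum_comm]
        exact Finset.sum_eq_zero h2, mul_zero, add_zero, two_mul]
    nth_rewrite 2 [h3]
    rw [pf, ← Finset.sum_neg_distrib, ← Finset.sum_add_distrib]
    refine Finset.sum_congr rfl fun σ _ => ?_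
    rw [← Finset.mul_prod_erase _ _ (Finset.mem_univ s₀), if_pos rfl,
      extDeriv_one_apply (ha.differentiable (by simp) x),
      Finset.prod_congr rfl fun s hs => by rw [if_neg (Finset.ne_of_mem_erase hs)], he]
    ring
  simp only [key]
  rw [integral_const_mul, integral_finsetSum _ fun σ _ => (IStk_int (V1 σ) (V2 σ) _).1.const_mul _]
  simp only [integral_const_mul, fun σ v => (IStk_int (V1 σ) (V2 σ) v).2, mul_zero, Finset.sum_const_zero]

theorem integral_smul_eq (h : Act Γ (Sp S))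
    (hd : ∀ (γ : Γ) (x : Sp S), (fderiv ℝ (fun y : Sp S => γ • y) x).det = 1) (γ : Γ)
    (T : Sp S → ℝ) : ∫ x, T (γ • x) = ∫ x, T x := by
  have h1 := integral_image_eq_integral_abs_det_fderiv_smul volume (s := univ) MeasurableSet.univ
    (f := fun y : Sp S => γ • y) (f' := fun x => fderiv ℝ (fun y : Sp S => γ • y) x)
    (fun x _ => ((h.smooth γ).differentiable (by simp) x).hasFDerivAt.hasFDerivWithinAt)
    (MulAction.injective γ).injOn T
  rw [image_univ, (MulAction.surjective γ).range_eq] at h1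
  simpa [hd] using h1.symm

theorem exists_rho (h : Act Γ (Sp S)) : ∃ ρ : Sp S → ℝ, ContDiff ℝ ∞ ρ ∧ HasCompactSupport ρ ∧
    (∀ x, 0 ≤ ρ x) ∧ (∀ x, ∑ᶠ γ : Γ, ρ (γ • x) = 1) ∧ 0 < ∫ x, ρ x := by
  obtain ⟨K, hK, hc⟩ := h.cocpt
  obtain ⟨R, hR0, hR⟩ := hK.isBounded.subset_closedBall_lt 0 (0 : Sp S)
  let φ : ContDiffBump (0 : Sp S) := ⟨R, R + 1, hR0, by linarith⟩
  have hz : ∀ (γ : Γ) (x : Sp S), γ • x ∉ tsupport φ → φ (γ • x) = 0 :=
    fun γ x => image_eq_zero_of_notMem_tsupport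
  obtain ⟨Φ, hΦ⟩ : ∃ Φ : Sp S → ℝ, Φ = fun x => ∑ᶠ γ : Γ, φ (γ • x) := ⟨_, rfl⟩
  have h1 : ContDiff ℝ ∞ Φ := hΦ ▸ contDiff_finsum_smul h
    (fun γ => φ.contDiff.comp (h.smooth γ)) φ.hasCompactSupport hz
  have h3 : ∀ (g : Γ) x, Φ (g • x) = Φ x := fun g x => by
    simp only [hΦ, ← mul_smul]
    exact finsum_comp_equiv (Equiv.mulRight g) (f := fun γ : Γ => φ (γ • x))
  have h4 : ∀ x, 0 < Φ x := fun x => by
    obtain ⟨γ, k⟩ := hc x
    rw [hΦ]
    exact finsum_pos (fun γ => φ.nonneg) ⟨γ, by rw [φ.one_of_mem_closedBall (hR k)]; exact one_pos⟩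
      (((FAct_lf h φ.hasCompactSupport).point_finite x).subset fun g hg => subset_tsupport _ hg)
  have h5 : ContDiff ℝ ∞ fun x => φ x / Φ x := φ.contDiff.div h1 fun x => (h4 x).ne'
  have h6 : HasCompactSupport fun x => φ x / Φ x :=
    φ.hasCompactSupport.mono fun x hx h0 => hx (by simp [h0])
  have h7 : ∀ x, 0 ≤ φ x / Φ x := fun x => div_nonneg φ.nonneg (h4 x).le
  refine ⟨_, h5, h6, h7, fun x => ?_, h5.continuous.integral_pos_of_hasCompactSupport_nonneg_nonzero h6 h7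
    (x := 0) ?_⟩
  · simp only [h3, div_eq_mul_inv]
    rw [← finsum_mul, ← congrFun hΦ x, mul_inv_cancel₀ (h4 x).ne']
  · rw [φ.one_of_mem_closedBall (Metric.mem_closedBall_self hR0.le)]
    exact (div_pos one_pos (h4 0)).ne'

theorem unfold (h : Act Γ (Sp S))
    (hd : ∀ (γ : Γ) (x : Sp S), (fderiv ℝ (fun y : Sp S => γ • y) x).det = 1) {ρ : Sp S → ℝ}
    (h1 : Continuous ρ) (h2 : HasCompactSupport ρ) (h3 : ∀ x, ∑ᶠ γ : Γ, ρ (γ • x) = 1)
    {T : Sp S → ℝ} (hT : Continuous T) (hc : HasCompactSupport T) :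
    ∫ x, ρ x * ∑ᶠ γ : Γ, T (γ • x) = ∫ x, T x := by
  have hF := h.fin _ (IsCompact.union h2 hc)
  have k1 : ∀ x, ρ x * ∑ᶠ γ : Γ, T (γ • x) = ∑ γ ∈ hF.toFinset, ρ x * T (γ • x) := fun x => by
    rw [mul_finsum]
    refine finsum_eq_sum_of_support_subset _ fun γ hγ => ?_
    rw [hF.coe_toFinset]
    exact ⟨x, Or.inl (subset_tsupport _ (left_ne_zero_of_mul hγ)),
      Or.inr (subset_tsupport _ (right_ne_zero_of_mul hγ))⟩
  have k2 : ∀ y, T y = ∑ γ ∈ hF.toFinset, ρ (γ⁻¹ • y) * T y := fun y => by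
    have e : ∑ᶠ γ : Γ, ρ (γ⁻¹ • y) = 1 :=
      (finsum_comp_equiv (Equiv.inv Γ) (f := fun γ : Γ => ρ (γ • y))).trans (h3 y)
    rw [← finsum_eq_sum_of_support_subset (fun γ : Γ => ρ (γ⁻¹ • y) * T y) fun γ hγ => ?_, ← finsum_mul, e,
      one_mul]
    rw [hF.coe_toFinset]
    exact ⟨γ⁻¹ • y, Or.inl (subset_tsupport _ (left_ne_zero_of_mul hγ)),
      Or.inr (by rw [smul_inv_smul]; exact subset_tsupport _ (right_ne_zero_of_mul hγ))⟩
  simp only [k1]
  rw [integral_congr_ae (Filter.Eventually.of_forall k2),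
    integral_finsetSum _ (f := fun (γ : Γ) x => ρ x * T (γ • x)) fun γ _ =>
      (h1.mul (hT.comp (h.smooth γ).continuous)).integrable_of_hasCompactSupport h2.mul_right,
    integral_finsetSum _ (f := fun (γ : Γ) x => ρ (γ⁻¹ • x) * T x) fun γ _ =>
      ((h1.comp (h.smooth γ⁻¹).continuous).mul hT).integrable_of_hasCompactSupport hc.mul_left]
  refine Finset.sum_congr rfl fun γ _ => ?_
  rw [← integral_smul_eq h hd γ⁻¹ fun x => ρ x * T (γ • x)]
  simp only [smul_inv_smul]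

theorem pf_inv (h : Act Γ (Sp S))
    (hd : ∀ (γ : Γ) (x : Sp S), (fderiv ℝ (fun y : Sp S => γ • y) x).det = 1)
    {w : S → Fm (Sp S) 2} (γ : Γ) (x : Sp S)
    (hw : ∀ s, pb (fun y : Sp S => γ • y) (w s) x = w s x) :
    pf (fun s => w s (γ • x)) = pf fun s => w s x := by
  rw [← one_mul (pf fun s => w s (γ • x)), ← hd γ x, ← pf_comp]
  exact congrArg pf (funext hw)

theorem inv_stokes (h : Act Γ (Sp S))
    (hd : ∀ (γ : Γ) (x : Sp S), (fderiv ℝ (fun y : Sp S => γ • y) x).det = 1) {ρ : Sp S → ℝ}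
    (h1 : ContDiff ℝ ∞ ρ) (h2 : HasCompactSupport ρ) (h3 : ∀ x, ∑ᶠ γ : Γ, ρ (γ • x) = 1) (s₀ : S)
    {a : Fm (Sp S) 1} (ha : ContDiff ℝ ∞ a) (hia : Inv Γ a univ) {w : S → Fm (Sp S) 2}
    (hw : ∀ s, s ≠ s₀ → Cl (w s) univ ∧ Inv Γ (w s) univ) :
    ∫ x, ρ x * pf (fun s => if s = s₀ then extDeriv a x else w s x) = 0 := by
  obtain ⟨Φ, hΦ⟩ := exists_pfM (S := S)
  have up : ∀ (β : Alt (Sp S) 2) (x : Sp S), pf (fun s => if s = s₀ then β else w s x) =
      Φ.toLinearMap (fun s => w s x) s₀ β := fun β x => by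
    rw [← hΦ, MultilinearMap.toLinearMap_apply]
    exact congrArg Φ (funext fun s => by rw [Function.update_apply])
  have b1 : ContDiff ℝ ∞ fun y => ρ y • a y := h1.smul ha
  have b2 : HasCompactSupport fun y => ρ y • a y := h2.mono fun x hx h0 => hx (by simp [h0])
  have b3 : ContDiff ℝ ∞ (extDeriv fun y => ρ y • a y) :=
    contDiffOn_univ.1 (Sm.extDeriv b1.contDiffOn isOpen_univ)
  have z : ∀ {β : Fm (Sp S) 1} {x : Sp S}, β =ᶠ[𝓝 x] (fun _ => 0) → extDeriv β x = 0 := fun k => by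
    rw [k.extDeriv_eq, extDeriv_const]
  refine Eq.trans ?_ ((unfold h hd h1.continuous h2 h3 ?_ ?_).trans
    (pf_stokes s₀ b1 b2 fun s hs => (hw s hs).1))
  · refine integral_congr_ae (Filter.Eventually.of_forall fun x => congrArg (fun t => ρ x * t) ?_)
    obtain ⟨O, hO, hF⟩ := h.locfin h2 x
    have c1 : ∀ γ : Γ, pf (fun s => if s = s₀ then extDeriv (fun y => ρ y • a y) (γ • x) else w s (γ • x)) =
        Φ.toLinearMap (fun s => w s x) s₀ (extDeriv (fun y => ρ (γ • y) • a y) x) := fun γ => by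
      rw [← up, ← one_mul (pf _), ← hd γ x, ← pf_comp]
      refine congrArg pf (funext fun s => ?_)
      split_ifs with hs
      · refine (extDeriv_pb (b1.differentiable (by simp) _) (h.smooth γ).contDiffAt).symm.trans ?_
        exact congrArg (fun β => extDeriv β x) (funext fun y => by rw [pb_fun_smul, hia γ y trivial])
      · exact (hw s hs).2 γ x trivial
    have c2 : ∀ y ∈ O, ∀ γ : Γ, γ ∉ hF.toFinset → ρ (γ • y) = 0 := fun y hy γ hγ =>
      image_eq_zero_of_notMem_tsupport fun k => hγ (hF.mem_toFinset.2 ⟨y, hy, k⟩)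
    simp only [c1]
    rw [finsum_eq_sum_of_support_subset (s := hF.toFinset) _ fun γ hγ => by_contra fun k => hγ ?_,
      ← map_sum, ← extDeriv_sum' _ (α := fun (γ : Γ) y => ρ (γ • y) • a y) fun γ _ =>
        ((h1.comp (h.smooth γ)).smul ha).differentiable (by simp) x, up]
    · refine congrArg _ (Filter.EventuallyEq.extDeriv_eq (Filter.mem_of_superset hO fun y hy => ?_))
      change a y = _
      rw [Finset.sum_apply, ← Finset.sum_smul, ← finsum_eq_sum_of_support_subset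
        (fun γ : Γ => ρ (γ • y)) fun γ hγ => by_contra fun k => hγ (c2 y hy γ k), h3, one_smul]
    · change Φ.toLinearMap _ _ _ = 0
      rw [z (Filter.mem_of_superset hO fun y hy => by simp [c2 y hy γ k]), map_zero]
  · refine (contDiff_pf (S := S)).continuous.comp (continuous_pi fun s => ?_)
    split_ifs with hs
    exacts [b3.continuous, (contDiffOn_univ.1 (hw s hs).1.1).continuous]
  · refine HasCompactSupport.intro h2 fun x hx => pf_eq_zero (s := s₀) ?_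
    rw [if_pos rfl]
    refine z ?_
    filter_upwards [(isClosed_tsupport ρ).isOpen_compl.mem_nhds hx] with y hy
    simp [image_eq_zero_of_notMem_tsupport hy]

end Pool.Agent.Work.MP_bf98aa_gt.Th
end
end
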