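import Pool.Agent.Work.MP_bf98aa_gt.Th.FHom

/-!
Poincare lemma, retractions, Mayer-Vietoris.

PLAN. `RA_convex`: homotopy `H (t, x) = a + t • (x - a)` (`O = H ⁻¹' A`), `homotopy` with `p = 1, q = 0`;
at `t = 0` the map is constant, so the pull-back of a form of positive degree is zero. Degree zero: `Cl.const`.
`RA_retract`: `H (t, x) = x + t • (r x - x)`; `α - pb r α` is exact, `pb r α` is exact by `IsD.pb`.
`exists_cut`: `IsOpen.exists_contDiff_support_eq` (or the `contMDiff` version) gives smooth `a, b ≥ 0` with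
supports exactly `A`, `B`; take `φ = Real.smoothTransition (3 * (a / (a + b)) - 1)`.
`RA_union_succ`: `α = d β₁` on `A`, `= d β₂` on `B`; `β₁ - β₂` is closed on `A ∩ B`. Degree 0: it is a constant
`c`, glue `β₁` and `β₂ + c`. Degree `k + 1`: it is `d γ`; glue `β₁ - d ((1 - φ) γ)` on `A` and
`β₂ + d (φ γ)` on `B` (`(1 - φ) γ` is smooth on `A` because it vanishes near the points of `A \ B`);
only linearity and locality (`Filter.EventuallyEq.extDeriv_eq`) of `extDeriv` are needed.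
-/

set_option autoImplicit false

open scoped ContDiff Topology
open Set

namespace Pool.Agent.Work.MP_bf98aa_gt.Th

variable {E : Type} [NormedAddCommGroup E] [NormedSpace ℝ E] [FiniteDimensional ℝ E] {k : ℕ}

omit [FiniteDimensional ℝ E] in
theorem FMV_sub {U : Set E} (hU : IsOpen U) {β β' : Fm E k} {α α' α'' : Fm E (k + 1)}
    (h : IsD β α U) (h' : IsD β' α' U) (e : ∀ x ∈ U, α x - α' x = α'' x) : IsD (β - β') α'' U :=
  ⟨h.1.sub h'.1, fun x hx => by
    rw [extDeriv_sub' (h.1.diffAt hU hx) (h'.1.diffAt hU hx), h.2 x hx, h'.2 x hx, e x hx]⟩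

omit [FiniteDimensional ℝ E] in
theorem FMV_mono {U W : Set E} {α : Fm E k} (h : Cl α W) (hU : U ⊆ W) : Cl α U :=
  ⟨h.1.mono hU, fun x hx => h.2 x (hU hx)⟩

omit [FiniteDimensional ℝ E] in
theorem FMV_H {r : E → E} (hr : ContDiff ℝ ∞ r) :
    ContDiff ℝ ∞ fun p : ℝ × E => p.2 + p.1 • (r p.2 - p.2) :=
  contDiff_snd.add (contDiff_fst.smul ((hr.comp contDiff_snd).sub contDiff_snd))

theorem FMV_hom {A : Set E} (hA' : IsOpen A) {r : E → E} (hr : ContDiff ℝ ∞ r)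
    (hs : ∀ x ∈ A, ∀ t ∈ Icc (0 : ℝ) 1, x + t • (r x - x) ∈ A) {α : Fm E (k + 1)} (hα : Cl α A)
    {γ : Fm E k} (h : IsD γ (pb r α) A) : ∃ β, IsD β α A := by
  refine ⟨_, FMV_sub hA' h (homotopy (hA'.preimage (FMV_H hr).continuous) (FMV_H hr).contDiffOn hA'
    (mapsTo_preimage _ _) hα hA' (fun t ht x hx => hs x hx t ht) 1 0) fun x _ => ?_⟩
  simp [hA, pb_id]

theorem RA_convex {A : Set E} (hA : IsOpen A) (hc : Convex ℝ A) (k : ℕ) : RA k A := by
  rcases A.eq_empty_or_nonempty with rfl | ⟨a, ha⟩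
  · cases k
    exacts [fun _ _ => ⟨0, fun _ h => h.elim⟩, fun _ _ => ⟨0, contDiffOn_empty, fun _ h => h.elim⟩]
  cases k with
  | zero => exact fun α hα => ⟨α a, fun x hx => hα.const hA hc.isPreconnected hx ha⟩
  | succ k =>
    refine fun α hα => FMV_hom hA (r := fun _ => a) contDiff_const
      (fun x hx t ht => hc.add_smul_sub_mem hx ha ht) hα (γ := fun _ => 0)
      ⟨contDiffOn_const, fun x _ => (extDeriv_const _ _).trans ?_⟩
    ext v
    exact ((α a).map_coord_zero 0 (by simp)).symm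

theorem RA_retract {A T : Set E} (hA : IsOpen A) (hT : IsOpen T) (hc : Convex ℝ T) (hTA : T ⊆ A)
    {r : E → E} (hr : ContDiff ℝ ∞ r) (hm : MapsTo r A T)
    (hs : ∀ x ∈ A, ∀ t ∈ Icc (0 : ℝ) 1, x + t • (r x - x) ∈ A) (k : ℕ) : RA k A := by
  have h := RA_convex hT hc k
  cases k with
  | zero =>
    intro α hα
    obtain ⟨c, e⟩ := h α (FMV_mono hα hTA)
    refine ⟨c, fun x hx => ?_⟩
    simpa [e _ (hm hx)] using (homotopy_zero (hA.preimage (FMV_H hr).continuous)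
      (FMV_H hr).contDiffOn hA (mapsTo_preimage _ _) hα fun t ht => hs x hx t ht).symm
  | succ k =>
    intro α hα
    obtain ⟨γ, e⟩ := h α (FMV_mono hα hTA)
    exact FMV_hom hA hr hs hα (e.pb hA hT hr.contDiffOn hm)

/-- A cut-off function on a union of two open sets. -/
theorem exists_cut {A B : Set E} (hA : IsOpen A) (hB : IsOpen B) :
    ∃ φ : E → ℝ, ContDiffOn ℝ ∞ φ (A ∪ B) ∧ (∀ x ∈ A, x ∉ B → ∀ᶠ y in 𝓝 x, φ y = 1) ∧
      ∀ x ∈ B, x ∉ A → ∀ᶠ y in 𝓝 x, φ y = 0 := by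
  obtain ⟨a, a1, a2, a3⟩ := hA.exists_contDiff_support_eq (n := ⊤)
  obtain ⟨b, b1, b2, b3⟩ := hB.exists_contDiff_support_eq (n := ⊤)
  have a0 : ∀ x, 0 ≤ a x := fun x => (a3 (mem_range_self x)).1
  have b0 : ∀ x, 0 ≤ b x := fun x => (b3 (mem_range_self x)).1
  subst a1 b1
  have h0 : ∀ x ∈ a.support ∪ b.support, a x + b x ≠ 0 := fun x hx e => by
    rcases hx with hx | hx <;> exact hx (by linarith [a0 x, b0 x])
  have h1 : ContDiffOn ℝ ∞ (fun x => 3 * (a x / (a x + b x)) - 1) (a.support ∪ b.support) :=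
    (contDiffOn_const.mul (a2.contDiffOn.div (a2.add b2).contDiffOn h0)).sub contDiffOn_const
  have h2 := fun x hx => (h1.contDiffAt (x := x) ((hA.union hB).mem_nhds hx)).continuousAt
  refine ⟨_, Real.smoothTransition.contDiff.comp_contDiffOn h1, fun x hx hx' => ?_,
    fun x hx hx' => ?_⟩
  · refine ((h2 x (Or.inl hx)).eventually (lt_mem_nhds (a := 1) ?_)).mono fun y hy =>
      Real.smoothTransition.one_of_one_le hy.le
    beta_reduce
    rw [Function.notMem_support.1 hx', add_zero, div_self hx]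
    norm_num
  · refine ((h2 x (Or.inr hx)).eventually (gt_mem_nhds (a := 0) ?_)).mono fun y hy =>
      Real.smoothTransition.zero_of_nonpos hy.le
    simp [Function.notMem_support.1 hx']

theorem RA_union_zero {A B : Set E} (hA : IsOpen A) (hB : IsOpen B) (h1 : RA 0 A) (h2 : RA 0 B)
    (h : (A ∩ B).Nonempty) : RA 0 (A ∪ B) := by
  intro α hα
  obtain ⟨c, e⟩ := h1 α (FMV_mono hα subset_union_left)
  obtain ⟨c', e'⟩ := h2 α (FMV_mono hα subset_union_right)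
  obtain ⟨z, z1, z2⟩ := h
  exact ⟨c, fun x hx => hx.elim (e x) fun hx => by rw [e' x hx, ← e' z z2, e z z1]⟩

omit [FiniteDimensional ℝ E] in
theorem FMV_cut {A B : Set E} (hA : IsOpen A) (hB : IsOpen B) {ψ : E → ℝ} (hψ : ContDiffOn ℝ ∞ ψ A)
    (h0 : ∀ x ∈ A, x ∉ B → ∀ᶠ y in 𝓝 x, ψ y = 0) {γ : Fm E k} (hγ : Sm γ (A ∩ B)) :
    Sm (fun x => ψ x • γ x) A := fun x hx => by
  refine ContDiffAt.contDiffWithinAt ?_
  by_cases h : x ∈ B
  · exact (hψ.contDiffAt (hA.mem_nhds hx)).smul (hγ.at (hA.inter hB) ⟨hx, h⟩)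
  · exact (contDiffAt_const (c := 0)).congr_of_eventuallyEq
      ((h0 x hx h).mono fun y hy => by simp [hy])

theorem FMV_split {A B : Set E} (hA : IsOpen A) (hB : IsOpen B) (h : RA k (A ∩ B)) {δ : Fm E k}
    (hδ : Cl δ (A ∩ B)) : ∃ δ₁ δ₂ : Fm E k, Cl δ₁ A ∧ Cl δ₂ B ∧ ∀ x ∈ A ∩ B, δ₁ x - δ₂ x = δ x := by
  cases k with
  | zero =>
    obtain ⟨c, e⟩ := h δ hδ
    exact ⟨fun _ => c, fun _ => 0, ⟨contDiffOn_const, fun x _ => extDeriv_const _ _⟩,
      ⟨contDiffOn_const, fun x _ => extDeriv_const _ _⟩, fun x hx => by rw [e x hx, sub_zero]⟩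
  | succ k =>
    obtain ⟨γ, e⟩ := h δ hδ
    obtain ⟨φ, f1, f2, f3⟩ := exists_cut hA hB
    have k1 := FMV_cut hA hB (ψ := fun x => 1 - φ x)
      (contDiffOn_const.sub (f1.mono subset_union_left))
      (fun x hx hx' => (f2 x hx hx').mono fun y hy => by simp [hy]) e.1
    have k2 := FMV_cut hB hA (ψ := fun x => -φ x) (f1.mono subset_union_right).neg
      (fun x hx hx' => (f3 x hx hx').mono fun y hy => by simp [hy]) (inter_comm A B ▸ e.1)
    refine ⟨_, _, IsD.cl ⟨k1, fun _ _ => rfl⟩ hA, IsD.cl ⟨k2, fun _ _ => rfl⟩ hB, fun x hx => ?_⟩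
    rw [← extDeriv_sub' (k1.diffAt hA hx.1) (k2.diffAt hB hx.2), ← e.2 x hx]
    refine congrArg (extDeriv · x) (funext fun y => ?_)
    ext v
    simp [sub_mul]

theorem RA_union_succ {A B : Set E} (hA : IsOpen A) (hB : IsOpen B) (h1 : RA (k + 1) A)
    (h2 : RA (k + 1) B) (h : RA k (A ∩ B)) : RA (k + 1) (A ∪ B) := by
  classical
  intro α hα
  obtain ⟨β₁, e1⟩ := h1 α (FMV_mono hα subset_union_left)
  obtain ⟨β₂, e2⟩ := h2 α (FMV_mono hα subset_union_right)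
  obtain ⟨δ₁, δ₂, d1, d2, d3⟩ := FMV_split hA hB h (δ := β₁ - β₂) (FMV_sub (hA.inter hB)
    (α'' := fun _ => 0) ⟨e1.1.mono inter_subset_left, fun x hx => e1.2 x hx.1⟩
    ⟨e2.1.mono inter_subset_right, fun x hx => e2.2 x hx.2⟩ fun x _ => sub_self _)
  have k1 := FMV_sub hA (α' := fun _ => 0) e1 d1 fun x _ => sub_zero (α x)
  have k2 := FMV_sub hB (α' := fun _ => 0) e2 d2 fun x _ => sub_zero (α x)
  have k3 : ∀ x ∈ A ∪ B, ∃ β, ContDiffAt ℝ ∞ β x ∧ extDeriv β x = α x ∧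
      A.piecewise (β₁ - δ₁) (β₂ - δ₂) =ᶠ[𝓝 x] β := fun x hx => by
    rcases hx with hx | hx
    · exact ⟨_, k1.1.at hA hx, k1.2 x hx, Filter.mem_of_superset (hA.mem_nhds hx) fun y hy =>
        piecewise_eq_of_mem _ _ _ hy⟩
    · refine ⟨_, k2.1.at hB hx, k2.2 x hx, Filter.mem_of_superset (hB.mem_nhds hx) fun y hy => ?_⟩
      by_cases q : y ∈ A
      · exact (piecewise_eq_of_mem _ _ _ q).trans (sub_eq_sub_iff_sub_eq_sub.1 (d3 y ⟨q, hy⟩).symm)
      · exact piecewise_eq_of_notMem _ _ _ q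
  refine ⟨A.piecewise (β₁ - δ₁) (β₂ - δ₂), fun x hx => ?_, fun x hx => ?_⟩ <;>
    obtain ⟨β, b1, b2, b3⟩ := k3 x hx
  · exact (b1.congr_of_eventuallyEq b3).contDiffWithinAt
  · exact b3.extDeriv_eq.trans b2

end Pool.Agent.Work.MP_bf98aa_gt.Th
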