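import Pool.Agent.Work.MP_bf98aa_gt.Th.IPf

/-!
Forms on the quotient and invariant forms near the zero set.

PLAN. `loc_trans`, `loc_self`: chain rule for `mfderiv` (`mfderiv_comp`, `mdifferentiableAt_atlas`, `mdifferentiableAt_atlas_symm`,
`mfderiv_eq_fderiv`); in a manifold modelled on the vector space itself `mfderiv (chartAt p).symm y = fderiv (chartAt m ∘ (chartAt p).symm) y`
with `m = (chartAt p).symm y`. `local_smul`: for `x₀` in the zero set with `γ • x₀ ∈ (Θ p).source` the same `γ` works for nearby points, so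
`chartAt p (q z) = π p (γ • z)` there (`q_eq`, `chart_eq`), and `ψ p (π p z) = z` for `z` in the source with `s z = 0`.
`res_loc`: near `y`, `ψ m (chartAt m ((chartAt p).symm y')) = γ • ψ p y'`.
-/

set_option autoImplicit false

open scoped ContDiff Topology Manifold
open Set

namespace Pool.Agent.Work.MP_bf98aa_gt.Th

theorem ZRes_cc {E F H : Type} [NormedAddCommGroup E] [NormedSpace ℝ E] [NormedAddCommGroup F]
    [NormedSpace ℝ F] [NormedAddCommGroup H] [NormedSpace ℝ H] {k : ℕ} {f : E → F} {g : F → H}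
    {x : E} {α : Fm F k} {β : Fm H k} (hf : ContDiffAt ℝ ∞ f x) (hg : ContDiffAt ℝ ∞ g (f x))
    (h : α (f x) = pb g β (f x)) : pb f α x = pb (fun y => g (f y)) β x :=
  (pb_congr' h).trans (pb_comp β (hf.differentiableAt (by simp))
    (hg.differentiableAt (by simp))).symm

section
variable {E : Type} [NormedAddCommGroup E] [NormedSpace ℝ E] {M : Type} [TopologicalSpace M]
  [ChartedSpace E M] [IsManifold 𝓘(ℝ, E) ∞ M] {k : ℕ}

theorem ZRes_tr (p p' : M) {y : E} (hy : y ∈ (chartAt E p).target)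
    (hy' : (chartAt E p).symm y ∈ (chartAt E p').source) :
    ContDiffAt ℝ ∞ (fun y => chartAt E p' ((chartAt E p).symm y)) y :=
  contMDiffAt_iff_contDiffAt.1 (((contMDiffOn_chart (I := 𝓘(ℝ, E))).contMDiffAt
    ((chartAt E p').open_source.mem_nhds hy')).comp y
      (contMDiffOn_chart_symm.contMDiffAt ((chartAt E p).open_target.mem_nhds hy)))

theorem ZRes_loc (w : Form E M k) (p : M) {y : E} (hy : y ∈ (chartAt E p).target) {m : M}
    (hm : (chartAt E p).symm y = m) :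
    w.loc p y = pb (fun y => chartAt E m ((chartAt E p).symm y)) (fun _ => w m) y := by
  subst hm
  have h : MDifferentiableAt 𝓘(ℝ, E) 𝓘(ℝ, E) (chartAt E p).symm y :=
    ((contMDiffOn_chart_symm (n := ∞)).contMDiffAt
      ((chartAt E p).open_target.mem_nhds hy)).mdifferentiableAt (by simp)
  have h1 : mfderiv 𝓘(ℝ, E) 𝓘(ℝ, E) (chartAt E p).symm y =
      fderiv ℝ (fun z => chartAt E ((chartAt E p).symm y) ((chartAt E p).symm z)) y := by
    rw [h.mfderiv]
    simp only [mfld_simps, fderivWithin_univ]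
    rfl
  rw [Form.loc, h1]
  rfl

theorem loc_self (w : Form E M k) (m : M) : w.loc m (chartAt E m m) = w m := by
  rw [ZRes_loc w m (mem_chart_target E m) ((chartAt E m).left_inv (mem_chart_source E m)),
    pb_congr (g := fun x => x) _ (Filter.eventually_of_mem
      ((chartAt E m).open_target.mem_nhds (mem_chart_target E m)) fun z hz =>
        (chartAt E m).right_inv hz), pb_id]

theorem loc_trans (w : Form E M k) (p p' : M) {y : E} (hy : y ∈ (chartAt E p).target)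
    (hy' : (chartAt E p).symm y ∈ (chartAt E p').source) :
    w.loc p y = pb (fun y => chartAt E p' ((chartAt E p).symm y)) (w.loc p') y := by
  have h1 := (chartAt E p').left_inv hy'
  have h2 := (chartAt E p').map_source hy'
  have h3 := mem_chart_source E ((chartAt E p).symm y)
  have h4 : ∀ᶠ z in 𝓝 y, (chartAt E p).symm z ∈ (chartAt E p').source :=
    ((chartAt E p).continuousAt_symm hy).eventually ((chartAt E p').open_source.mem_nhds hy')
  rw [ZRes_loc w p hy rfl, ZRes_cc (ZRes_tr p p' hy hy') (ZRes_tr p' _ h2 (h1.symm ▸ h3))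
    (ZRes_loc w p' h2 h1)]
  exact pb_congr _ (h4.mono fun z hz => by simp only [(chartAt E p').left_inv hz])

theorem loc_sub (w w' : Form E M k) (p : M) : (w.sub w').loc p = w.loc p - w'.loc p := by
  funext y
  ext v
  rfl

theorem form_ext {w w' : Form E M k}
    (h : ∀ p, ∀ y ∈ (chartAt E p).target, w.loc p y = w'.loc p y) : w = w' := by
  funext m
  exact (loc_self w m).symm.trans ((h m _ (mem_chart_target E m)).trans (loc_self w' m))

end

namespace Pack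

variable {S : Type} [Fintype S] {n n' : ℕ} {Γ : Type} [Group Γ] [MulAction Γ (Sp S)]
  {s : Sp S → Cn n'} {M : Type} [TopologicalSpace M] [ChartedSpace (Sp (Fin n)) M]
  (P : Pack (n := n) Γ s M) {k : ℕ}

theorem ψ_smooth (p : M) : ContDiffOn ℝ ∞ (P.ψ p) (chartAt (Sp (Fin n)) p).target := by
  exact (P.symm_smooth p).comp (contDiff_id.prodMk contDiff_const).contDiffOn
    fun y hy => (P.tgt p y).1 hy

theorem ψ_zero (p : M) {y : Sp (Fin n)} (hy : y ∈ (chartAt (Sp (Fin n)) p).target) :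
    s (P.ψ p y) = 0 ∧ P.ψ p y ∈ (P.Θ p).source ∧ P.π p (P.ψ p y) = y := by
  have h1 := (P.tgt p y).1 hy
  have h2 := (P.Θ p).right_inv h1
  rw [P.Θ_eq] at h2
  exact ⟨(Prod.mk.inj h2).2, (P.Θ p).map_target h1, (Prod.mk.inj h2).1⟩

theorem ψ_π (p : M) {z : Sp S} (hz : z ∈ (P.Θ p).source) (h0 : s z = 0) :
    P.π p z ∈ (chartAt (Sp (Fin n)) p).target ∧ P.ψ p (P.π p z) = z := by
  have h1 : (P.π p z, (0 : Cn n')) = P.Θ p z := by rw [P.Θ_eq, h0]
  exact ⟨(P.tgt p _).2 (h1 ▸ (P.Θ p).map_source hz), by rw [ψ, h1, (P.Θ p).left_inv hz]⟩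

theorem pt_zero (m : M) : s (P.pt m) = 0 ∧ P.q (P.pt m) = m := by
  exact ⟨(P.ψ_zero m (mem_chart_target _ m)).1, (P.symm_eq m _ (mem_chart_target _ m)).symm.trans
    ((chartAt (Sp (Fin n)) m).left_inv (mem_chart_source _ m))⟩

theorem ZRes_dψ (p : M) {y : Sp (Fin n)} (hy : y ∈ (chartAt (Sp (Fin n)) p).target) :
    ContDiffAt ℝ ∞ (P.ψ p) y :=
  (P.ψ_smooth p).contDiffAt ((chartAt (Sp (Fin n)) p).open_target.mem_nhds hy)

theorem ZRes_inj (p : M) {y : Sp (Fin n)} (hy : y ∈ (chartAt (Sp (Fin n)) p).target) :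
    Function.Injective (fderiv ℝ (P.ψ p) y) := by
  have h1 := (P.π p).hasFDerivAt.comp y ((P.ZRes_dψ p hy).differentiableAt (by simp)).hasFDerivAt
  have h2 : HasFDerivAt (P.π p ∘ P.ψ p) (ContinuousLinearMap.id ℝ _) y :=
    (hasFDerivAt_id y).congr_of_eventuallyEq (Filter.eventually_of_mem
      ((chartAt (Sp (Fin n)) p).open_target.mem_nhds hy) fun z hz => (P.ψ_zero p hz).2.2)
  exact Function.LeftInverse.injective (g := P.π p) (DFunLike.congr_fun (h1.unique h2))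

theorem T_inj (m : M) : Function.Injective (P.T m) := by
  exact P.ZRes_inj m (mem_chart_target _ m)

/-- The image of the differential is the kernel of the differential of `s`. -/
theorem range_fderiv_ψ (hs : ContDiff ℝ ∞ s) (p : M) {y : Sp (Fin n)}
    (hy : y ∈ (chartAt (Sp (Fin n)) p).target) (v : Sp S) :
    fderiv ℝ s (P.ψ p y) v = 0 ↔ ∃ u, fderiv ℝ (P.ψ p) y u = v := by
  have h1 := ((P.ZRes_dψ p hy).differentiableAt (by simp)).hasFDerivAt
  have h2 := (hs.differentiable (by simp) (P.ψ p y)).hasFDerivAt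
  obtain ⟨z0, z1, z2⟩ := P.ψ_zero p hy
  constructor
  · intro hv
    have h3 := (((P.symm_smooth p).contDiffAt ((P.Θ p).open_target.mem_nhds
      ((P.tgt p y).1 hy))).differentiableAt (by simp)).hasFDerivAt
    have h4 := HasFDerivAt.comp (f := fun y => (y, (0 : Cn n'))) y h3
      (hasFDerivAt_prodMk_left y (0 : Cn n'))
    have h5 := (P.π p).hasFDerivAt.prodMk h2
    have h6 := HasFDerivAt.comp (f := fun x => (P.π p x, s x)) (P.ψ p y)
      (by rw [z0, z2]; exact h3) h5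
    have h7 : HasFDerivAt ((P.Θ p).symm ∘ fun x => (P.π p x, s x)) (ContinuousLinearMap.id ℝ _)
        (P.ψ p y) := (hasFDerivAt_id _).congr_of_eventuallyEq (Filter.eventually_of_mem
      ((P.Θ p).open_source.mem_nhds z1) fun z hz => by
        rw [Function.comp_apply, ← P.Θ_eq, (P.Θ p).left_inv hz, id])
    have h8 := DFunLike.congr_fun (h6.unique h7) v
    rw [ContinuousLinearMap.comp_apply, ContinuousLinearMap.prod_apply, hv] at h8
    exact ⟨P.π p v, (DFunLike.congr_fun (h1.unique h4) _).trans h8⟩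
  · rintro ⟨u, rfl⟩
    have h3 : HasFDerivAt (s ∘ P.ψ p) (0 : Sp (Fin n) →L[ℝ] Cn n') y :=
      (hasFDerivAt_const 0 y).congr_of_eventuallyEq (Filter.eventually_of_mem
        ((chartAt (Sp (Fin n)) p).open_target.mem_nhds hy) fun z hz => (P.ψ_zero p hz).1)
    exact DFunLike.congr_fun ((h2.comp y h1).unique h3) u

theorem fderiv_ψ_inj (p : M) {y : Sp (Fin n)} (hy : y ∈ (chartAt (Sp (Fin n)) p).target) :
    Function.Injective (fderiv ℝ (P.ψ p) y) := by
  exact P.ZRes_inj p hy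

theorem ZRes_q (hZ : ∀ (γ : Γ) (x : Sp S), s x = 0 → s (γ • x) = 0) (γ : Γ) {x : Sp S}
    (hx : s x = 0) : P.q (γ • x) = P.q x := ((P.q_eq _ _ hx (hZ γ x hx)).2 ⟨γ, rfl⟩).symm

theorem ZRes_qψ (p : M) {y : Sp (Fin n)} (hy : y ∈ (chartAt (Sp (Fin n)) p).target) :
    P.q (P.ψ p y) = (chartAt (Sp (Fin n)) p).symm y := (P.symm_eq p y hy).symm

theorem ZRes_ls (h : Act Γ (Sp S)) (hZ : ∀ (γ : Γ) (x : Sp S), s x = 0 → s (γ • x) = 0)
    {X : Type} [TopologicalSpace X] {f : X → Sp S} {x : X} (hf : ContinuousAt f x)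
    (h0 : ∀ᶠ y in 𝓝 x, s (f y) = 0) (p : M) (hp : P.q (f x) ∈ (chartAt (Sp (Fin n)) p).source) :
    ∃ γ : Γ, ∀ᶠ y in 𝓝 x, P.q (f y) ∈ (chartAt (Sp (Fin n)) p).source ∧
      chartAt (Sp (Fin n)) p (P.q (f y)) = P.π p (γ • f y) ∧
      P.ψ p (chartAt (Sp (Fin n)) p (P.q (f y))) = γ • f y := by
  obtain ⟨z, h1, h2, h3⟩ := (P.src p _).1 hp
  obtain ⟨γ, rfl⟩ := (P.q_eq _ _ h0.self_of_nhds h2).1 h3.symm
  have h4 : ∀ᶠ y in 𝓝 x, γ • f y ∈ (P.Θ p).source :=
    ((h.smooth γ).continuous.continuousAt.comp hf).eventually ((P.Θ p).open_source.mem_nhds h1)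
  refine ⟨γ, (h0.and h4).mono fun y ⟨k1, k2⟩ => ?_⟩
  have k3 := P.chart_eq p _ k2 (hZ γ _ k1)
  rw [P.ZRes_q hZ γ k1] at k3
  exact ⟨(P.src p _).2 ⟨_, k2, hZ γ _ k1, P.ZRes_q hZ γ k1⟩, k3,
    by rw [k3, (P.ψ_π p k2 (hZ γ _ k1)).2]⟩

theorem ZRes_res (α : Fm (Sp S) k) (m : M) :
    P.res α m = pb (P.ψ m) α (chartAt (Sp (Fin n)) m m) := rfl

variable [IsManifold 𝓘(ℝ, Sp (Fin n)) ∞ M]

theorem res_loc (h : Act Γ (Sp S)) (hZ : ∀ (γ : Γ) (x : Sp S), s x = 0 → s (γ • x) = 0)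
    {α : Fm (Sp S) k} (hi : Inv Γ α {z | s z = 0}) (p : M) {y : Sp (Fin n)}
    (hy : y ∈ (chartAt (Sp (Fin n)) p).target) : (P.res α).loc p y = pb (P.ψ p) α y := by
  have hn := (chartAt (Sp (Fin n)) p).open_target.mem_nhds hy
  have h0 := mem_chart_source (Sp (Fin n)) ((chartAt (Sp (Fin n)) p).symm y)
  have h1 := (P.ZRes_dψ p hy).differentiableAt (by simp)
  obtain ⟨γ, h2⟩ := P.ZRes_ls h hZ h1.continuousAt
    (Filter.eventually_of_mem hn fun z hz => (P.ψ_zero p hz).1) _ (P.ZRes_qψ p hy ▸ h0)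
  rw [ZRes_loc _ p hy rfl, pb_congr' (β := pb (P.ψ ((chartAt (Sp (Fin n)) p).symm y)) α)
      (P.ZRes_res α _),
    ← pb_comp _ ((ZRes_tr p _ hy h0).differentiableAt (by simp))
      ((P.ZRes_dψ _ (mem_chart_target _ _)).differentiableAt (by simp)),
    pb_congr (g := fun z => γ • P.ψ p z),
    pb_comp (g := fun z => γ • z) _ h1 ((h.smooth γ).differentiable (by simp) _)]
  · exact pb_congr' (hi γ _ (P.ψ_zero p hy).1)
  · filter_upwards [h2, hn] with z k1 k2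
    rw [← k1.2.2, P.ZRes_qψ p k2, P.ZRes_qψ p hy]

variable {U : Set (Sp S)} {r : Sp S → Sp S}

omit [IsManifold 𝓘(ℝ, Sp (Fin n)) ∞ M] in
theorem ZRes_lr (h : Act Γ (Sp S)) (hZ : ∀ (γ : Γ) (x : Sp S), s x = 0 → s (γ • x) = 0)
    (hr : Retr Γ s U r) (p : M) {x : Sp S} (hx : x ∈ U)
    (hp : P.q (r x) ∈ (chartAt (Sp (Fin n)) p).source) :
    ∃ γ : Γ, ∀ᶠ y in 𝓝 x, P.q (r y) ∈ (chartAt (Sp (Fin n)) p).source ∧
      chartAt (Sp (Fin n)) p (P.q (r y)) = P.π p (γ • r y) ∧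
      P.ψ p (chartAt (Sp (Fin n)) p (P.q (r y))) = γ • r y :=
  P.ZRes_ls h hZ (hr.smooth.contDiffAt (hr.isOpen.mem_nhds hx)).continuousAt
    (Filter.eventually_of_mem (hr.isOpen.mem_nhds hx) hr.zero) p hp

theorem chart_r_smooth (h : Act Γ (Sp S)) (hZ : ∀ (γ : Γ) (x : Sp S), s x = 0 → s (γ • x) = 0)
    (hr : Retr Γ s U r) (p : M) {x : Sp S} (hx : x ∈ U)
    (hp : P.q (r x) ∈ (chartAt (Sp (Fin n)) p).source) :
    ContDiffAt ℝ ∞ (fun y => chartAt (Sp (Fin n)) p (P.q (r y))) x := by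
  obtain ⟨γ, h1⟩ := P.ZRes_lr h hZ hr p hx hp
  exact (((P.π p).contDiff.comp (h.smooth γ)).contDiffAt.comp x
    (hr.smooth.contDiffAt (hr.isOpen.mem_nhds hx))).congr_of_eventuallyEq
      (h1.mono fun y k => k.2.1)

theorem lift_eq (h : Act Γ (Sp S)) (hZ : ∀ (γ : Γ) (x : Sp S), s x = 0 → s (γ • x) = 0)
    (hr : Retr Γ s U r) (w : Form (Sp (Fin n)) M k) (p : M) {x : Sp S} (hx : x ∈ U)
    (hp : P.q (r x) ∈ (chartAt (Sp (Fin n)) p).source) :
    P.lift r w x = pb (fun y => chartAt (Sp (Fin n)) p (P.q (r y))) (w.loc p) x := by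
  obtain ⟨γ, h1⟩ := P.ZRes_lr h hZ hr p hx hp
  have h2 := (chartAt (Sp (Fin n)) p).map_source hp
  have h3 : (chartAt (Sp (Fin n)) p).symm (chartAt (Sp (Fin n)) p (P.q (r x))) ∈
      (chartAt (Sp (Fin n)) (P.q (r x))).source := by
    rw [(chartAt (Sp (Fin n)) p).left_inv hp]
    exact mem_chart_source _ _
  rw [ZRes_cc (P.chart_r_smooth h hZ hr p hx hp) (ZRes_tr p _ h2 h3) (loc_trans w p _ h2 h3)]
  exact pb_congr _ (h1.mono fun y k => by simp only [(chartAt (Sp (Fin n)) p).left_inv k.1])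

theorem ZRes_ev (h : Act Γ (Sp S)) (hZ : ∀ (γ : Γ) (x : Sp S), s x = 0 → s (γ • x) = 0)
    (hr : Retr Γ s U r) (w : Form (Sp (Fin n)) M k) {x : Sp S} (hx : x ∈ U) :
    P.lift r w =ᶠ[𝓝 x]
      pb (fun y => chartAt (Sp (Fin n)) (P.q (r x)) (P.q (r y))) (w.loc (P.q (r x))) := by
  obtain ⟨γ, h1⟩ := P.ZRes_lr h hZ hr _ hx (mem_chart_source _ _)
  filter_upwards [h1, hr.isOpen.mem_nhds hx] with y k1 k2
  exact P.lift_eq h hZ hr w _ k2 k1.1

theorem ZRes_d (h : Act Γ (Sp S)) (hZ : ∀ (γ : Γ) (x : Sp S), s x = 0 → s (γ • x) = 0)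
    (hr : Retr Γ s U r) {w : Form (Sp (Fin n)) M k} (hw : w.Smooth) {x : Sp S} (hx : x ∈ U) :
    extDeriv (P.lift r w) x = pb (fun y => chartAt (Sp (Fin n)) (P.q (r x)) (P.q (r y)))
      (extDeriv (w.loc (P.q (r x)))) x := by
  rw [(P.ZRes_ev h hZ hr w hx).extDeriv_eq]
  exact extDeriv_pb (Sm.diffAt (hw _) (chartAt (Sp (Fin n)) _).open_target (mem_chart_target _ _))
    (P.chart_r_smooth h hZ hr _ hx (mem_chart_source _ _))

theorem lift_sm (h : Act Γ (Sp S)) (hZ : ∀ (γ : Γ) (x : Sp S), s x = 0 → s (γ • x) = 0)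
    (hr : Retr Γ s U r) {w : Form (Sp (Fin n)) M k} (hw : w.Smooth) : Sm (P.lift r w) U := by
  intro x hx
  have h1 := P.chart_r_smooth h hZ hr _ hx (mem_chart_source _ _)
  exact ((ContDiffAt.alt_comp ((Sm.at (hw _) (chartAt (Sp (Fin n)) _).open_target
    (mem_chart_target _ _)).comp x h1) (h1.fderiv_right le_rfl)).congr_of_eventuallyEq
      (P.ZRes_ev h hZ hr w hx)).contDiffWithinAt

theorem lift_inv (h : Act Γ (Sp S)) (hZ : ∀ (γ : Γ) (x : Sp S), s x = 0 → s (γ • x) = 0)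
    (hr : Retr Γ s U r) (w : Form (Sp (Fin n)) M k) : Inv Γ (P.lift r w) U := by
  intro γ x hx
  have h1 : ∀ y ∈ U, P.q (r (γ • y)) = P.q (r y) := fun y hy => by
    rw [hr.equi γ y hy, P.ZRes_q hZ γ (hr.zero y hy)]
  have h2 : P.q (r (γ • x)) ∈ (chartAt (Sp (Fin n)) (P.q (r x))).source := by
    rw [h1 x hx]
    exact mem_chart_source _ _
  rw [pb_congr' (P.lift_eq h hZ hr w _ (hr.inv γ x hx) h2),
    ← pb_comp _ ((h.smooth γ).differentiable (by simp) _)
      ((P.chart_r_smooth h hZ hr _ (hr.inv γ x hx) h2).differentiableAt (by simp))]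
  exact pb_congr _ (Filter.eventually_of_mem (hr.isOpen.mem_nhds hx) fun y hy => by
    simp only [h1 y hy])

theorem lift_cl (h : Act Γ (Sp S)) (hZ : ∀ (γ : Γ) (x : Sp S), s x = 0 → s (γ • x) = 0)
    (hr : Retr Γ s U r) {w : Form (Sp (Fin n)) M k} (hw : w.Closed) : Cl (P.lift r w) U := by
  refine ⟨P.lift_sm h hZ hr hw.1, fun x hx => ?_⟩
  rw [P.ZRes_d h hZ hr hw.1 hx]
  refine (pb_congr' (β := 0) ?_).trans (congrFun (pb_zero _) x)
  exact hw.2 _ _ (mem_chart_target _ _)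

theorem lift_isD (h : Act Γ (Sp S)) (hZ : ∀ (γ : Γ) (x : Sp S), s x = 0 → s (γ • x) = 0)
    (hr : Retr Γ s U r) {b : Form (Sp (Fin n)) M k} {w : Form (Sp (Fin n)) M (k + 1)}
    (hb : b.Smooth) (hd : ∀ p, ∀ y ∈ (chartAt (Sp (Fin n)) p).target,
      extDeriv (b.loc p) y = w.loc p y) : IsD (P.lift r b) (P.lift r w) U := by
  refine ⟨P.lift_sm h hZ hr hb, fun x hx => ?_⟩
  rw [P.ZRes_d h hZ hr hb hx]
  exact pb_congr' (hd _ _ (mem_chart_target _ _))

theorem res_lift (h : Act Γ (Sp S)) (hZ : ∀ (γ : Γ) (x : Sp S), s x = 0 → s (γ • x) = 0)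
    (hr : Retr Γ s U r) (w : Form (Sp (Fin n)) M k) : P.res (P.lift r w) = w := by
  funext m
  obtain ⟨h1, h2⟩ := P.pt_zero m
  have h3 : P.q (r (P.pt m)) ∈ (chartAt (Sp (Fin n)) m).source := by
    rw [hr.fix _ h1, h2]
    exact mem_chart_source _ _
  refine (P.ZRes_res _ m).trans (Eq.trans ?_ (loc_self w m))
  rw [ZRes_cc (P.ZRes_dψ m (mem_chart_target _ m)) (P.chart_r_smooth h hZ hr m (hr.sub _ h1) h3)
    (P.lift_eq h hZ hr w m (hr.sub _ h1) h3), pb_congr (g := fun x => x), pb_id]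
  filter_upwards [(chartAt (Sp (Fin n)) m).open_target.mem_nhds (mem_chart_target _ m)] with y hy
  rw [hr.fix _ (P.ψ_zero m hy).1, P.ZRes_qψ m hy, (chartAt (Sp (Fin n)) m).right_inv hy]

theorem lift_res (h : Act Γ (Sp S)) (hZ : ∀ (γ : Γ) (x : Sp S), s x = 0 → s (γ • x) = 0)
    (hr : Retr Γ s U r) {α : Fm (Sp S) k} (hi : Inv Γ α {z | s z = 0}) {x : Sp S} (hx : x ∈ U) :
    P.lift r (P.res α) x = pb r α x := by
  obtain ⟨γ, h1⟩ := P.ZRes_lr h hZ hr _ hx (mem_chart_source _ _)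
  rw [lift, ZRes_cc (P.chart_r_smooth h hZ hr _ hx (mem_chart_source _ _))
      (P.ZRes_dψ _ (mem_chart_target _ _)) (P.res_loc h hZ hi _ (mem_chart_target _ _)),
    pb_congr (g := fun z => γ • r z) _ (h1.mono fun y k => k.2.2),
    pb_comp (g := fun z => γ • z) _ ((hr.smooth.contDiffAt
      (hr.isOpen.mem_nhds hx)).differentiableAt (by simp)) ((h.smooth γ).differentiable (by simp) _)]
  exact pb_congr' (hi γ _ (hr.zero x hx))

end Pack

end Pool.Agent.Work.MP_bf98aa_gt.Th
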