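import Pool.Agent.Work.MP_bf98aa_gt.Th.FBump

/-!
Rigidity of the closed invariant forms on the gadget.

PLAN. Put `b = W (4,0) (4,1)`, `t = W (0,0) (0,1) - b`, `c₁ = W (0,0) (1,0)`, `c₂ = W (2,0) (3,0)`. The hypotheses `E0 .. E17` of `ARig_alg` (already proved;
`wabcd = W (a,b) (c,d)`) are `hc` at the triples
E0: ((0, 0), (1, 0), (4, 1)); E1: ((0, 0), (2, 0), (5, 0)); E2: ((0, 0), (2, 0), (5, 1)); E3: ((0, 0), (2, 0), (6, 0)); E4: ((0, 0), (2, 0), (6, 1)); E5: ((0, 0), (3, 0), (5, 0)); E6: ((0, 0), (3, 0), (5, 1)); E7: ((0, 0), (3, 0), (6, 0)); E8: ((0, 0), (3, 0), (6, 1)); E9: ((1, 0), (2, 0), (5, 0)); E10: ((1, 0), (2, 0), (5, 1)); E11: ((1, 0), (2, 0), (6, 0)); E12: ((1, 0), (2, 0), (6, 1)); E13: ((1, 0), (3, 0), (5, 0)); E14: ((1, 0), (3, 0), (5, 1)); E15: ((1, 0), (3, 0), (6, 0)); E16: ((1, 0), (3, 0), (6, 1)); E17: ((2,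 0), (3, 0), (4, 0));
`hc (0,0) (1,1) (4,1)` gives `W (0,1) (1,1) = 0` and `hc (0,0) (2,1) (6,1)` gives `W (2,1) (3,1) = 0`. To evaluate `hc` expand the sum
(`Fintype.sum_prod_type`, `Fin.sum_univ_succ` or `Fin.sum_univ_seven`), `simp [gbf, wd, ev]`, kill entries with `hi` and orient them with `ha`; one small lemma for each triple keeps
the time low. Finally check the 196 entries (`fin_cases`), or reduce to the pairs with equal `lc`.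
-/

set_option autoImplicit false

namespace Pool.Agent.Work.MP_bf98aa_gt.Th

theorem ARig_alg {Q b t w0011 w0110 w1011 w2021 w2031 w2130 w3031 w5051 w5060 w5061 w5160 w5161 w6061 : ℝ} (hQ : Q ≠ 0)
    (E0 : (-1 / 2 * Q) * (b + t) +
      (1 / 2) * w0011 +
      (1 / 2) * w0110 +
      (-1 / 2 * Q) * w1011 +
      (Q) * b = 0)
    (E1 : (12 * Q + 120 * Q ^ (3 : ℕ) + 108 * Q ^ (5 : ℕ)) * w0011 +
      (-6 * Q - 60 * Q ^ (3 : ℕ) - 54 * Q ^ (5 : ℕ)) * w2031 +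
      (-1 - 9 * Q ^ (2 : ℕ)) * w5060 = 0)
    (E2 : (-2 - 2 * Q ^ (2 : ℕ)) * (b + t) +
      (1 + Q ^ (2 : ℕ)) * w2021 +
      (1 + Q ^ (2 : ℕ)) * w5051 +
      (-1 - 9 * Q ^ (2 : ℕ)) * w5160 = 0)
    (E3 : (8 * Q ^ (2 : ℕ) + 8 * Q ^ (4 : ℕ)) * (b + t) +
      (4 * Q + 16 * Q ^ (3 : ℕ) + 12 * Q ^ (5 : ℕ)) * w0011 +
      (-8 * Q ^ (2 : ℕ) - 8 * Q ^ (4 : ℕ)) * w2021 +
      (2 * Q - 4 * Q ^ (3 : ℕ) - 6 * Q ^ (5 : ℕ)) * w2031 +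
      (1 + Q ^ (2 : ℕ)) * w5060 = 0)
    (E4 : (-2 - 6 * Q ^ (2 : ℕ)) * (b + t) +
      (4 * Q) * w0011 +
      (1 - 3 * Q ^ (2 : ℕ)) * w2021 +
      (4 * Q) * w2031 +
      (1 + Q ^ (2 : ℕ)) * w5061 +
      (1 + 9 * Q ^ (2 : ℕ)) * w6061 = 0)
    (E5 : (12 * Q + 120 * Q ^ (3 : ℕ) + 108 * Q ^ (5 : ℕ)) * (b + t) +
      (-6 * Q - 60 * Q ^ (3 : ℕ) - 54 * Q ^ (5 : ℕ)) * w3031 +
      (-6 * Q - 60 * Q ^ (3 : ℕ) - 54 * Q ^ (5 : ℕ)) * w5051 +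
      (2 * Q + 20 * Q ^ (3 : ℕ) + 18 * Q ^ (5 : ℕ)) * w5061 = 0)
    (E6 : (2 + 2 * Q ^ (2 : ℕ)) * w0011 +
      (-1 - Q ^ (2 : ℕ)) * w2130 +
      (2 * Q + 20 * Q ^ (3 : ℕ) + 18 * Q ^ (5 : ℕ)) * w5161 = 0)
    (E7 : (-4 * Q - 16 * Q ^ (3 : ℕ) - 12 * Q ^ (5 : ℕ)) * (b + t) +
      (8 * Q ^ (2 : ℕ) + 8 * Q ^ (4 : ℕ)) * w0011 +
      (8 * Q ^ (2 : ℕ) + 8 * Q ^ (4 : ℕ)) * w2130 +
      (2 * Q - 4 * Q ^ (3 : ℕ) - 6 * Q ^ (5 : ℕ)) * w3031 +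
      (6 * Q + 60 * Q ^ (3 : ℕ) + 54 * Q ^ (5 : ℕ)) * w5160 +
      (2 * Q + 20 * Q ^ (3 : ℕ) + 18 * Q ^ (5 : ℕ)) * w6061 = 0)
    (E8 : (-4 * Q) * (b + t) +
      (-2 - 6 * Q ^ (2 : ℕ)) * w0011 +
      (-1 + 3 * Q ^ (2 : ℕ)) * w2130 +
      (4 * Q) * w3031 +
      (6 * Q + 60 * Q ^ (3 : ℕ) + 54 * Q ^ (5 : ℕ)) * w5161 = 0)
    (E9 : (12 * Q + 120 * Q ^ (3 : ℕ) + 108 * Q ^ (5 : ℕ)) * w1011 +
      (-6 * Q - 60 * Q ^ (3 : ℕ) - 54 * Q ^ (5 : ℕ)) * w2021 +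
      (-6 * Q - 60 * Q ^ (3 : ℕ) - 54 * Q ^ (5 : ℕ)) * w5051 +
      (-2 * Q - 20 * Q ^ (3 : ℕ) - 18 * Q ^ (5 : ℕ)) * w5061 = 0)
    (E10 : (2 + 2 * Q ^ (2 : ℕ)) * w0110 +
      (-1 - Q ^ (2 : ℕ)) * w2031 +
      (-2 * Q - 20 * Q ^ (3 : ℕ) - 18 * Q ^ (5 : ℕ)) * w5161 = 0)
    (E11 : (-8 * Q ^ (2 : ℕ) - 8 * Q ^ (4 : ℕ)) * w0110 +
      (4 * Q + 16 * Q ^ (3 : ℕ) + 12 * Q ^ (5 : ℕ)) * w1011 +
      (-2 * Q + 4 * Q ^ (3 : ℕ) + 6 * Q ^ (5 : ℕ)) * w2021 +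
      (-8 * Q ^ (2 : ℕ) - 8 * Q ^ (4 : ℕ)) * w2031 +
      (6 * Q + 60 * Q ^ (3 : ℕ) + 54 * Q ^ (5 : ℕ)) * w5160 +
      (-2 * Q - 20 * Q ^ (3 : ℕ) - 18 * Q ^ (5 : ℕ)) * w6061 = 0)
    (E12 : (2 + 6 * Q ^ (2 : ℕ)) * w0110 +
      (4 * Q) * w1011 +
      (-4 * Q) * w2021 +
      (1 - 3 * Q ^ (2 : ℕ)) * w2031 +
      (6 * Q + 60 * Q ^ (3 : ℕ) + 54 * Q ^ (5 : ℕ)) * w5161 = 0)
    (E13 : (-12 * Q - 120 * Q ^ (3 : ℕ) - 108 * Q ^ (5 : ℕ)) * w0110 +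
      (6 * Q + 60 * Q ^ (3 : ℕ) + 54 * Q ^ (5 : ℕ)) * w2130 +
      (-1 - 9 * Q ^ (2 : ℕ)) * w5060 = 0)
    (E14 : (2 + 2 * Q ^ (2 : ℕ)) * w1011 +
      (-1 - Q ^ (2 : ℕ)) * w3031 +
      (-1 - Q ^ (2 : ℕ)) * w5051 +
      (-1 - 9 * Q ^ (2 : ℕ)) * w5160 = 0)
    (E15 : (4 * Q + 16 * Q ^ (3 : ℕ) + 12 * Q ^ (5 : ℕ)) * w0110 +
      (8 * Q ^ (2 : ℕ) + 8 * Q ^ (4 : ℕ)) * w1011 +
      (2 * Q - 4 * Q ^ (3 : ℕ) - 6 * Q ^ (5 : ℕ)) * w2130 +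
      (-8 * Q ^ (2 : ℕ) - 8 * Q ^ (4 : ℕ)) * w3031 +
      (-1 - Q ^ (2 : ℕ)) * w5060 = 0)
    (E16 : (4 * Q) * w0110 +
      (-2 - 6 * Q ^ (2 : ℕ)) * w1011 +
      (4 * Q) * w2130 +
      (1 - 3 * Q ^ (2 : ℕ)) * w3031 +
      (-1 - Q ^ (2 : ℕ)) * w5061 +
      (1 + 9 * Q ^ (2 : ℕ)) * w6061 = 0)
    (E17 : (-16 * Q - 160 * Q ^ (3 : ℕ) - 144 * Q ^ (5 : ℕ)) * w2021 +
      (16 + 160 * Q ^ (2 : ℕ) + 144 * Q ^ (4 : ℕ)) * w2031 +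
      (16 + 160 * Q ^ (2 : ℕ) + 144 * Q ^ (4 : ℕ)) * w2130 +
      (-16 * Q - 160 * Q ^ (3 : ℕ) - 144 * Q ^ (5 : ℕ)) * w3031 +
      (32 * Q + 320 * Q ^ (3 : ℕ) + 288 * Q ^ (5 : ℕ)) * b = 0) :
    w0011 = Q * t ∧ w0110 = Q * t ∧ w1011 = b + t ∧ w2021 = b + 2 * t ∧ w2031 = 2 * Q * t ∧ w2130 = 2 * Q * t ∧ w3031 = b + 2 * t ∧ w5051 = b ∧ w5060 = 0 ∧ w5061 = 0 ∧ w5160 = 0 ∧ w5161 = 0 ∧ w6061 = b := by
  have hN : (1 + Q ^ (2 : ℕ) : ℝ) ≠ 0 := by positivity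
  have hM : (1 / 9 + Q ^ (2 : ℕ) : ℝ) ≠ 0 := by positivity
  have e0 := E0
  have e1 : (108 * Q + 108 * Q ^ (3 : ℕ)) * w0011 +
      (-54 * Q - 54 * Q ^ (3 : ℕ)) * w2031 +
      (-9) * w5060 = 0 :=
    mul_left_cancel₀ (a := (1 / 9 + Q ^ (2 : ℕ))) hM (by linear_combination E1)
  have e2 := E2
  have e3 : (8 * Q ^ (2 : ℕ)) * (b + t) +
      (4 * Q + 12 * Q ^ (3 : ℕ)) * w0011 +
      (-8 * Q ^ (2 : ℕ)) * w2021 +
      (2 * Q - 6 * Q ^ (3 : ℕ)) * w2031 +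
      (1) * w5060 = 0 :=
    mul_left_cancel₀ (a := (1 + Q ^ (2 : ℕ))) hN (by linear_combination E3)
  have e4 := E4
  have e5 : (108) * (b + t) +
      (-54) * w3031 +
      (-54) * w5051 +
      (18) * w5061 = 0 :=
    mul_left_cancel₀ (a := (Q) * (1 + Q ^ (2 : ℕ)) * (1 / 9 + Q ^ (2 : ℕ))) (mul_ne_zero (mul_ne_zero hQ hN) hM) (by linear_combination E5)
  have e6 : (2) * w0011 +
      (-1) * w2130 +
      (2 * Q + 18 * Q ^ (3 : ℕ)) * w5161 = 0 :=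
    mul_left_cancel₀ (a := (1 + Q ^ (2 : ℕ))) hN (by linear_combination E6)
  have e7 : (-4 - 12 * Q ^ (2 : ℕ)) * (b + t) +
      (8 * Q) * w0011 +
      (8 * Q) * w2130 +
      (2 - 6 * Q ^ (2 : ℕ)) * w3031 +
      (6 + 54 * Q ^ (2 : ℕ)) * w5160 +
      (2 + 18 * Q ^ (2 : ℕ)) * w6061 = 0 :=
    mul_left_cancel₀ (a := (Q) * (1 + Q ^ (2 : ℕ))) (mul_ne_zero hQ hN) (by linear_combination E7)
  have e8 := E8
  have e9 : (108) * w1011 +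
      (-54) * w2021 +
      (-54) * w5051 +
      (-18) * w5061 = 0 :=
    mul_left_cancel₀ (a := (Q) * (1 + Q ^ (2 : ℕ)) * (1 / 9 + Q ^ (2 : ℕ))) (mul_ne_zero (mul_ne_zero hQ hN) hM) (by linear_combination E9)
  have e10 : (2) * w0110 +
      (-1) * w2031 +
      (-2 * Q - 18 * Q ^ (3 : ℕ)) * w5161 = 0 :=
    mul_left_cancel₀ (a := (1 + Q ^ (2 : ℕ))) hN (by linear_combination E10)
  have e11 : (-8 * Q) * w0110 +
      (4 + 12 * Q ^ (2 : ℕ)) * w1011 +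
      (-2 + 6 * Q ^ (2 : ℕ)) * w2021 +
      (-8 * Q) * w2031 +
      (6 + 54 * Q ^ (2 : ℕ)) * w5160 +
      (-2 - 18 * Q ^ (2 : ℕ)) * w6061 = 0 :=
    mul_left_cancel₀ (a := (Q) * (1 + Q ^ (2 : ℕ))) (mul_ne_zero hQ hN) (by linear_combination E11)
  have e12 := E12
  have e13 : (-108 * Q - 108 * Q ^ (3 : ℕ)) * w0110 +
      (54 * Q + 54 * Q ^ (3 : ℕ)) * w2130 +
      (-9) * w5060 = 0 :=
    mul_left_cancel₀ (a := (1 / 9 + Q ^ (2 : ℕ))) hM (by linear_combination E13)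
  have e14 := E14
  have e15 : (4 * Q + 12 * Q ^ (3 : ℕ)) * w0110 +
      (8 * Q ^ (2 : ℕ)) * w1011 +
      (2 * Q - 6 * Q ^ (3 : ℕ)) * w2130 +
      (-8 * Q ^ (2 : ℕ)) * w3031 +
      (-1) * w5060 = 0 :=
    mul_left_cancel₀ (a := (1 + Q ^ (2 : ℕ))) hN (by linear_combination E15)
  have e16 := E16
  have e17 : (-144 * Q) * w2021 +
      (144) * w2031 +
      (144) * w2130 +
      (-144 * Q) * w3031 +
      (288 * Q) * b = 0 :=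
    mul_left_cancel₀ (a := (1 + Q ^ (2 : ℕ)) * (1 / 9 + Q ^ (2 : ℕ))) (mul_ne_zero hN hM) (by linear_combination E17)
  have hw6061 : w6061 = b :=
    mul_left_cancel₀ (a := -1 / 2 * Q - 9 / 2 * Q ^ (3 : ℕ)) (by
      have : (-1 / 2 * Q - 9 / 2 * Q ^ (3 : ℕ) : ℝ) = -9 / 2 * (Q * (1 / 9 + Q ^ (2 : ℕ))) := by ring
      rw [this]; exact mul_ne_zero (by norm_num) (mul_ne_zero hQ hM)) (by
      linear_combination (1 + 3 * Q ^ (2 : ℕ)) * e0 +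
      (-1 / 4 - 1 / 4 * Q ^ (2 : ℕ)) * e6 +
      (-1 / 8 * Q) * e7 +
      (-1 / 4 - 1 / 4 * Q ^ (2 : ℕ)) * e10 +
      (1 / 8 * Q) * e11 +
      (-1 / 576 + 1 / 192 * Q ^ (2 : ℕ)) * e17)
  have hw5161 : w5161 = 0 :=
    mul_left_cancel₀ (a := 32 * Q ^ (2 : ℕ) + 680 * Q ^ (4 : ℕ) + 4536 * Q ^ (6 : ℕ) + 9720 * Q ^ (8 : ℕ) + 5832 * Q ^ (10 : ℕ)) (by positivity) (by
      linear_combination (-16 * Q - 168 * Q ^ (3 : ℕ) - 216 * Q ^ (5 : ℕ)) * e0 +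
      (1 / 9) * e1 +
      (1) * e3 +
      (-9 * Q ^ (2 : ℕ) - 27 * Q ^ (4 : ℕ)) * e4 +
      (1 / 18 * Q ^ (2 : ℕ) + 5 / 9 * Q ^ (4 : ℕ) + 1 / 2 * Q ^ (6 : ℕ)) * e5 +
      (2 * Q + 92 * Q ^ (3 : ℕ) + 252 * Q ^ (5 : ℕ) + 162 * Q ^ (7 : ℕ)) * e6 +
      (4 * Q ^ (2 : ℕ) + 9 * Q ^ (4 : ℕ)) * e7 +
      (6 * Q + 42 * Q ^ (3 : ℕ) + 54 * Q ^ (5 : ℕ)) * e8 +
      (-4 / 9 * Q ^ (2 : ℕ) - 13 / 9 * Q ^ (4 : ℕ) - Q ^ (6 : ℕ)) * e9 +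
      (4 * Q + 40 * Q ^ (3 : ℕ) + 36 * Q ^ (5 : ℕ)) * e10 +
      (-1 / 2 * Q ^ (2 : ℕ) - 9 / 2 * Q ^ (4 : ℕ)) * e11 +
      (21 * Q ^ (2 : ℕ) + 27 * Q ^ (4 : ℕ)) * e14 +
      (1 / 18 * Q + 7 / 12 * Q ^ (3 : ℕ) + 3 / 4 * Q ^ (5 : ℕ)) * e17)
  have hw5160 : w5160 = 0 :=
    mul_left_cancel₀ (a := 4 + 36 * Q ^ (2 : ℕ)) (by positivity) (by
      linear_combination (-20 * Q - 36 * Q ^ (3 : ℕ)) * e0 +
      (-1 / 2 - 9 / 2 * Q ^ (2 : ℕ)) * e4 +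
      (1 / 108 + 5 / 54 * Q ^ (2 : ℕ) + 1 / 12 * Q ^ (4 : ℕ)) * e5 +
      (9 * Q + 36 * Q ^ (3 : ℕ) + 27 * Q ^ (5 : ℕ)) * e6 +
      (1 / 2 + 3 / 2 * Q ^ (2 : ℕ)) * e7 +
      (5 * Q + 9 * Q ^ (3 : ℕ)) * e8 +
      (-1 / 54 - 5 / 27 * Q ^ (2 : ℕ) - 1 / 6 * Q ^ (4 : ℕ)) * e9 +
      (6 * Q + 6 * Q ^ (3 : ℕ)) * e10 +
      (1 / 4 - 3 / 4 * Q ^ (2 : ℕ)) * e11 +
      (1 / 2 + 9 / 2 * Q ^ (2 : ℕ)) * e14 +
      (5 / 72 * Q + 1 / 8 * Q ^ (3 : ℕ)) * e17 -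
      (36 * Q ^ (2 : ℕ) + 468 * Q ^ (4 : ℕ) + 1404 * Q ^ (6 : ℕ) + 972 * Q ^ (8 : ℕ)) * hw5161)
  have hw5061 : w5061 = 0 :=
    mul_left_cancel₀ (a := 16 / 3) (by norm_num) (by
      linear_combination (48 * Q) * e0 +
      (6) * e4 +
      (1 / 27 - 1 / 9 * Q ^ (2 : ℕ)) * e5 +
      (-28 * Q - 36 * Q ^ (3 : ℕ)) * e6 +
      (-2) * e7 +
      (-12 * Q) * e8 +
      (2 / 27 + 2 / 9 * Q ^ (2 : ℕ)) * e9 +
      (-8 * Q) * e10 +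
      (1) * e11 +
      (-6) * e14 +
      (-1 / 6 * Q) * e17 -
      (-112 * Q ^ (2 : ℕ) - 1152 * Q ^ (4 : ℕ) - 1296 * Q ^ (6 : ℕ)) * hw5161)
  have hw5060 : w5060 = 0 :=
    mul_left_cancel₀ (a := -9) (by norm_num) (by
      linear_combination (-216 * Q - 216 * Q ^ (3 : ℕ)) * e0 +
      (1) * e1 +
      (Q ^ (2 : ℕ) + Q ^ (4 : ℕ)) * e5 +
      (54 * Q + 216 * Q ^ (3 : ℕ) + 162 * Q ^ (5 : ℕ)) * e6 +
      (54 * Q + 54 * Q ^ (3 : ℕ)) * e8 +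
      (-2 * Q ^ (2 : ℕ) - 2 * Q ^ (4 : ℕ)) * e9 +
      (54 * Q + 54 * Q ^ (3 : ℕ)) * e10 +
      (54 * Q ^ (2 : ℕ)) * e14 +
      (3 / 4 * Q + 3 / 4 * Q ^ (3 : ℕ)) * e17 -
      (54 * Q ^ (2 : ℕ) + 54 * Q ^ (4 : ℕ)) * hw5061 -
      (-54 * Q ^ (2 : ℕ) - 486 * Q ^ (4 : ℕ)) * hw5160 -
      (324 * Q ^ (2 : ℕ) + 3888 * Q ^ (4 : ℕ) + 9396 * Q ^ (6 : ℕ) + 5832 * Q ^ (8 : ℕ)) * hw5161)
  have hw5051 : w5051 = b :=
    mul_left_cancel₀ (a := -1) (by norm_num) (by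
      linear_combination (-2 * Q) * e0 +
      (1) * e4 +
      (1 / 54 + 1 / 108 * Q ^ (2 : ℕ)) * e5 +
      (-5 / 2 * Q - 3 * Q ^ (3 : ℕ)) * e6 +
      (-Q) * e8 +
      (1 / 54 + 1 / 108 * Q ^ (2 : ℕ)) * e9 +
      (1 / 2 * Q) * e10 +
      (-1) * e14 +
      (-7 / 288 * Q) * e17 -
      (1 + Q ^ (2 : ℕ)) * hw5061 -
      (1 + 9 * Q ^ (2 : ℕ)) * hw5160 -
      (-12 * Q ^ (2 : ℕ) - 120 * Q ^ (4 : ℕ) - 108 * Q ^ (6 : ℕ)) * hw5161 -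
      (1 + 9 * Q ^ (2 : ℕ)) * hw6061)
  have hw3031 : w3031 = b + 2 * t :=
    mul_left_cancel₀ (a := -54) (by norm_num) (by
      linear_combination (1) * e5 -
      (-54) * hw5051 -
      (18) * hw5061)
  have hw2130 : w2130 = 2 * Q * t :=
    mul_left_cancel₀ (a := -2) (by norm_num) (by
      linear_combination (1 + 3 * Q ^ (2 : ℕ)) * e6 +
      (1) * e8 -
      (4 * Q) * hw3031 -
      (8 * Q + 84 * Q ^ (3 : ℕ) + 108 * Q ^ (5 : ℕ)) * hw5161)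
  have hw2031 : w2031 = 2 * Q * t :=
    mul_left_cancel₀ (a := 144 + 144 * Q ^ (2 : ℕ)) (by positivity) (by
      linear_combination (-8 / 3 * Q - 8 / 3 * Q ^ (3 : ℕ)) * e9 +
      (144 * Q) * e14 +
      (1 + Q ^ (2 : ℕ)) * e17 -
      (144 + 144 * Q ^ (2 : ℕ)) * hw2130 -
      (-288 * Q - 288 * Q ^ (3 : ℕ)) * hw3031 -
      (48 * Q + 48 * Q ^ (3 : ℕ)) * hw5061 -
      (-144 * Q - 1296 * Q ^ (3 : ℕ)) * hw5160)
  have hw2021 : w2021 = b + 2 * t :=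
    mul_left_cancel₀ (a := 1) (by norm_num) (by
      linear_combination (-1 / 54 - 1 / 54 * Q ^ (2 : ℕ)) * e9 +
      (1) * e14 +
      (1 / 144 * Q) * e17 -
      (Q) * hw2031 -
      (Q) * hw2130 -
      (-1 - 2 * Q ^ (2 : ℕ)) * hw3031 -
      (1 / 3 + 1 / 3 * Q ^ (2 : ℕ)) * hw5061 -
      (-1 - 9 * Q ^ (2 : ℕ)) * hw5160)
  have hw1011 : w1011 = b + t :=
    mul_left_cancel₀ (a := 108) (by norm_num) (by
      linear_combination (1) * e9 -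
      (-54) * hw2021 -
      (-54) * hw5051 -
      (-18) * hw5061)
  have hw0110 : w0110 = Q * t :=
    mul_left_cancel₀ (a := 2) (by norm_num) (by
      linear_combination (1) * e10 -
      (-1) * hw2031 -
      (-2 * Q - 18 * Q ^ (3 : ℕ)) * hw5161)
  have hw0011 : w0011 = Q * t :=
    mul_left_cancel₀ (a := 2) (by norm_num) (by
      linear_combination (1) * e6 -
      (-1) * hw2130 -
      (2 * Q + 18 * Q ^ (3 : ℕ)) * hw5161)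
  exact ⟨hw0011, hw0110, hw1011, hw2021, hw2031, hw2130, hw3031, hw5051, hw5060, hw5061, hw5160, hw5161, hw6061⟩

/-- The ordered pairs of coordinates with the same character. -/
def ARig_l : List ((Fin 7 × Fin 2) × (Fin 7 × Fin 2)) :=
  [((0, 0), (0, 1)), ((0, 0), (1, 0)), ((0, 0), (1, 1)), ((0, 1), (1, 0)), ((0, 1), (1, 1)),
    ((1, 0), (1, 1)), ((2, 0), (2, 1)), ((2, 0), (3, 0)), ((2, 0), (3, 1)), ((2, 1), (3, 0)),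
    ((2, 1), (3, 1)), ((3, 0), (3, 1)), ((4, 0), (4, 1)), ((5, 0), (5, 1)), ((5, 0), (6, 0)),
    ((5, 0), (6, 1)), ((5, 1), (6, 0)), ((5, 1), (6, 1)), ((6, 0), (6, 1))]

theorem ARig_wd0 {a b i j : Fin 7 × Fin 2} (h1 : lc a.1 = lc b.1) (h2 : lc i.1 ≠ lc j.1) :
    wd a b (ev i) (ev j) = 0 := by
  simp only [wd, ARig_ev]
  split_ifs with k1 k2 k3 k4 k5 k6 k7 k8 k9 <;> first | ring1 | skip
  all_goals simp_all

theorem ARig_om (u v : Sp (Fin 7)) : om u v = wd (0, 0) (0, 1) u v + wd (1, 0) (1, 1) u v +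
    wd (2, 0) (2, 1) u v + wd (3, 0) (3, 1) u v + wd (4, 0) (4, 1) u v + wd (5, 0) (5, 1) u v +
    wd (6, 0) (6, 1) u v := by
  rw [om, Fin.sum_univ_seven]
  rfl

theorem ARig_gE (Q : ℝ) (u v : Sp (Fin 7)) : gE Q u v =
    (1 * wd (0, 0) (0, 1) u v + Q * 1 * wd (0, 0) (1, 1) u v) +
    (1 * wd (1, 0) (1, 1) u v + Q * (-1) * wd (1, 0) (0, 1) u v) +
    (2 * wd (2, 0) (2, 1) u v + Q * 2 * wd (2, 0) (3, 1) u v) +
    (2 * wd (3, 0) (3, 1) u v + Q * (-2) * wd (3, 0) (2, 1) u v) +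
    (0 * wd (4, 0) (4, 1) u v + Q * 0 * wd (4, 0) (4, 1) u v) +
    (0 * wd (5, 0) (5, 1) u v + Q * 0 * wd (5, 0) (5, 1) u v) +
    (0 * wd (6, 0) (6, 1) u v + Q * 0 * wd (6, 0) (6, 1) u v) := by
  rw [gE, Fin.sum_univ_seven]
  rfl

theorem ARig_cases : ∀ i j : Fin 7 × Fin 2, lc i.1 ≠ lc j.1 ∨ i = j ∨
    (i, j) ∈ ARig_l ∨ (j, i) ∈ ARig_l := by
  decide

theorem gad_rigid {Q : ℝ} (hQ : Q ≠ 0) (W : Fin 7 × Fin 2 → Fin 7 × Fin 2 → ℝ)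
    (ha : ∀ i j, W i j = -W j i) (hi : ∀ i j, lc i.1 ≠ lc j.1 → W i j = 0)
    (hc : ∀ i j k, ∑ l, (gbf Q (ev i) (ev j) l * W l k + gbf Q (ev j) (ev k) l * W l i +
      gbf Q (ev k) (ev i) l * W l j) = 0) :
    ∃ b t c₁ c₂ : ℝ, ∀ i j, W i j = b * om (ev i) (ev j) + t * gE Q (ev i) (ev j) +
      c₁ * wd (0, 0) (1, 0) (ev i) (ev j) + c₂ * wd (2, 0) (3, 0) (ev i) (ev j) := by
  have hd : ∀ i, W i i = 0 := fun i => by linarith [ha i i]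
  obtain ⟨b, hb⟩ : ∃ b, W (4, 0) (4, 1) = b := ⟨_, rfl⟩
  obtain ⟨t, ht⟩ : ∃ t, W (0, 0) (0, 1) = b + t := ⟨W (0, 0) (0, 1) - b, by ring⟩
  have E0 := hc (0, 0) (1, 0) (4, 1)
  rw [Finset.sum_add_distrib, Finset.sum_add_distrib, ARig_00_10, ARig_10_41, ARig_41_00,
      ha (0, 1) (0, 0), ha (1, 1) (0, 0), ha (1, 1) (1, 0), hb, ht] at E0
  have E1 := hc (0, 0) (2, 0) (5, 0)
  rw [Finset.sum_add_distrib, Finset.sum_add_distrib, ARig_00_20, ARig_20_50, ARig_50_00,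
      hd (5, 0), ha (6, 0) (5, 0), ha (1, 1) (0, 0), ha (3, 1) (2, 0)] at E1
  have E2 := hc (0, 0) (2, 0) (5, 1)
  rw [Finset.sum_add_distrib, Finset.sum_add_distrib, ARig_00_20, ARig_20_51, ARig_51_00,
      ha (6, 0) (5, 1), ha (0, 1) (0, 0), ha (2, 1) (2, 0), ht] at E2
  have E3 := hc (0, 0) (2, 0) (6, 0)
  rw [Finset.sum_add_distrib, Finset.sum_add_distrib, ARig_00_20, ARig_20_60, ARig_60_00,
      hd (6, 0), ha (0, 1) (0, 0), ha (1, 1) (0, 0), ha (2, 1) (2, 0), ha (3, 1) (2, 0), ht] at E3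
  have E4 := hc (0, 0) (2, 0) (6, 1)
  rw [Finset.sum_add_distrib, Finset.sum_add_distrib, ARig_00_20, ARig_20_61, ARig_61_00,
      ha (0, 1) (0, 0), ha (1, 1) (0, 0), ha (2, 1) (2, 0), ha (3, 1) (2, 0), ht] at E4
  have E5 := hc (0, 0) (3, 0) (5, 0)
  rw [Finset.sum_add_distrib, Finset.sum_add_distrib, ARig_00_30, ARig_30_50, ARig_50_00,
      ha (5, 1) (5, 0), ha (6, 1) (5, 0), ha (0, 1) (0, 0), ha (3, 1) (3, 0), ht] at E5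
  have E6 := hc (0, 0) (3, 0) (5, 1)
  rw [Finset.sum_add_distrib, Finset.sum_add_distrib, ARig_00_30, ARig_30_51, ARig_51_00,
      hd (5, 1), ha (6, 1) (5, 1), ha (1, 1) (0, 0)] at E6
  have E7 := hc (0, 0) (3, 0) (6, 0)
  rw [Finset.sum_add_distrib, Finset.sum_add_distrib, ARig_00_30, ARig_30_60, ARig_60_00,
      ha (6, 1) (6, 0), ha (0, 1) (0, 0), ha (1, 1) (0, 0), ha (3, 1) (3, 0), ht] at E7
  have E8 := hc (0, 0) (3, 0) (6, 1)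
  rw [Finset.sum_add_distrib, Finset.sum_add_distrib, ARig_00_30, ARig_30_61, ARig_61_00,
      hd (6, 1), ha (0, 1) (0, 0), ha (1, 1) (0, 0), ha (3, 1) (3, 0), ht] at E8
  have E9 := hc (1, 0) (2, 0) (5, 0)
  rw [Finset.sum_add_distrib, Finset.sum_add_distrib, ARig_10_20, ARig_20_50, ARig_50_10,
      ha (5, 1) (5, 0), ha (6, 1) (5, 0), ha (1, 1) (1, 0), ha (2, 1) (2, 0)] at E9
  have E10 := hc (1, 0) (2, 0) (5, 1)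
  rw [Finset.sum_add_distrib, Finset.sum_add_distrib, ARig_10_20, ARig_20_51, ARig_51_10,
      hd (5, 1), ha (6, 1) (5, 1), ha (3, 1) (2, 0)] at E10
  have E11 := hc (1, 0) (2, 0) (6, 0)
  rw [Finset.sum_add_distrib, Finset.sum_add_distrib, ARig_10_20, ARig_20_60, ARig_60_10,
      ha (6, 1) (6, 0), ha (1, 1) (1, 0), ha (2, 1) (2, 0), ha (3, 1) (2, 0)] at E11
  have E12 := hc (1, 0) (2, 0) (6, 1)
  rw [Finset.sum_add_distrib, Finset.sum_add_distrib, ARig_10_20, ARig_20_61, ARig_61_10,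
      hd (6, 1), ha (1, 1) (1, 0), ha (2, 1) (2, 0), ha (3, 1) (2, 0)] at E12
  have E13 := hc (1, 0) (3, 0) (5, 0)
  rw [Finset.sum_add_distrib, Finset.sum_add_distrib, ARig_10_30, ARig_30_50, ARig_50_10,
      hd (5, 0), ha (6, 0) (5, 0)] at E13
  have E14 := hc (1, 0) (3, 0) (5, 1)
  rw [Finset.sum_add_distrib, Finset.sum_add_distrib, ARig_10_30, ARig_30_51, ARig_51_10,
      ha (6, 0) (5, 1), ha (1, 1) (1, 0), ha (3, 1) (3, 0)] at E14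
  have E15 := hc (1, 0) (3, 0) (6, 0)
  rw [Finset.sum_add_distrib, Finset.sum_add_distrib, ARig_10_30, ARig_30_60, ARig_60_10,
      hd (6, 0), ha (1, 1) (1, 0), ha (3, 1) (3, 0)] at E15
  have E16 := hc (1, 0) (3, 0) (6, 1)
  rw [Finset.sum_add_distrib, Finset.sum_add_distrib, ARig_10_30, ARig_30_61, ARig_61_10,
      ha (1, 1) (1, 0), ha (3, 1) (3, 0)] at E16
  have E17 := hc (2, 0) (3, 0) (4, 0)
  rw [Finset.sum_add_distrib, Finset.sum_add_distrib, ARig_20_30, ARig_30_40, ARig_40_20,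
      ha (4, 1) (4, 0), ha (2, 1) (2, 0), ha (3, 1) (2, 0), ha (3, 1) (3, 0), hb] at E17
  have E18 := hc (0, 0) (1, 1) (4, 1)
  rw [Finset.sum_add_distrib, Finset.sum_add_distrib, ARig_00_11, ARig_11_41, ARig_41_00,
      hd (1, 1)] at E18
  have E19 := hc (0, 0) (2, 1) (6, 1)
  rw [Finset.sum_add_distrib, Finset.sum_add_distrib, ARig_00_21, ARig_21_61, ARig_61_00,
      hd (2, 1), ha (3, 1) (2, 1)] at E19
  obtain ⟨h1, h2, h3, h4, h5, h6, h7, h8, h9, h10, h11, h12, h13⟩ := ARig_alg (b := b) (t := t)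
    (w0011 := W (0, 0) (1, 1)) (w0110 := W (0, 1) (1, 0)) (w1011 := W (1, 0) (1, 1))
    (w2021 := W (2, 0) (2, 1)) (w2031 := W (2, 0) (3, 1)) (w2130 := W (2, 1) (3, 0))
    (w3031 := W (3, 0) (3, 1)) (w5051 := W (5, 0) (5, 1)) (w5060 := W (5, 0) (6, 0))
    (w5061 := W (5, 0) (6, 1)) (w5160 := W (5, 1) (6, 0)) (w5161 := W (5, 1) (6, 1))
    (w6061 := W (6, 0) (6, 1)) hQ
    (by linear_combination E0)
    (by linear_combination E1)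
    (by linear_combination E2)
    (by linear_combination E3)
    (by linear_combination E4)
    (by linear_combination E5)
    (by linear_combination E6)
    (by linear_combination E7)
    (by linear_combination E8)
    (by linear_combination E9)
    (by linear_combination E10)
    (by linear_combination E11)
    (by linear_combination E12)
    (by linear_combination E13)
    (by linear_combination E14)
    (by linear_combination E15)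
    (by linear_combination E16)
    (by linear_combination E17)
  have h14 : W (0, 1) (1, 1) = 0 := by linear_combination 2 * E18
  have h15 : W (2, 1) (3, 1) = 0 :=
    mul_left_cancel₀ (a := 4 * Q) (mul_ne_zero (by norm_num) hQ) (by linear_combination E19)
  clear E0 E1 E2 E3 E4 E5 E6 E7 E8 E9 E10 E11 E12 E13 E14 E15 E16 E17 E18 E19
  refine ⟨b, t, W (0, 0) (1, 0), W (2, 0) (3, 0), ?_⟩
  have key : ∀ q ∈ ARig_l, W q.1 q.2 = b * om (ev q.1) (ev q.2) + t * gE Q (ev q.1) (ev q.2) +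
      W (0, 0) (1, 0) * wd (0, 0) (1, 0) (ev q.1) (ev q.2) +
      W (2, 0) (3, 0) * wd (2, 0) (3, 0) (ev q.1) (ev q.2) := by
    simp only [ARig_l, List.forall_mem_cons, List.not_mem_nil, false_imp_iff, implies_true,
      and_true, ARig_om, ARig_gE]
    simp (decide := true) only [wd, ARig_ev, if_true, if_false]
    refine ⟨?_, ?_, ?_, ?_, ?_, ?_, ?_, ?_, ?_, ?_, ?_, ?_, ?_, ?_, ?_, ?_, ?_, ?_, ?_⟩ <;>
      (try simp only [hb, ht, h1, h2, h3, h4, h5, h6, h7, h8, h9, h10, h11, h12, h13, h14,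
        h15]) <;>
      ring
  intro i j
  rcases ARig_cases i j with k | rfl | k | k
  · rw [hi i j k, ARig_om, ARig_gE]
    simp (disch := first | exact k | decide) only [ARig_wd0]
    ring
  · rw [hd, ARig_om, ARig_gE]
    simp only [wd]
    ring
  · exact key _ k
  · have := key _ k
    rw [ha i j, this, ARig_om, ARig_gE, ARig_om, ARig_gE]
    simp only [wd]
    ring

end Pool.Agent.Work.MP_bf98aa_gt.Th
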