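import Pool.Agent.Work.MP_bf98aa_gt.Th.FBump
import Pool.Agent.Work.MP_bf98aa_gt.Th.ARig

-- merged part: Pool.Agent.Work.MP_bf98aa_gt.Th.AChar
section
/-!
Characters of the slots.

PLAN. `chv_link`, `chv_eq`: case analysis on the constructors; evaluate the equality of characters at suitable basis elements
(`congrFun h (.inl b)`, `(.inr (.inl j))`, `(.inr (.inr (g, 0)))`, `(.inr (.inr (g, 1)))`) and use `decide` for the finite parts.
`exists_tau`: on the core put `tau (sC 0) = f 1`, `tau (sC 1) = f 2`, `tau (sC 3) = f 0`, `tau (sC 2) = f 0` (`f b` the coordinate `.inl b`); this handles all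
`g` that do not vanish on `Fin 3`. Enumerate `K' = Fin r ⊕ U × Fin 2` by `Fintype.equivFin`; the slot `own k` (`sB i`, `sP g 0`, `sG g 2`) has character the
coordinate `k`; let `tau (own k)` be the next coordinate and `tau (sC 4)` the first one; for `g` vanishing on `Fin 3` look at the first coordinate where it is nonzero.
`GI_two_iff`: if the characters differ at `g` then invariance gives `w = -w` on the pair; conversely use `alt_ext_ev`.
-/

set_option autoImplicit false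

namespace Pool.Agent.Work.MP_bf98aa_gt.Th

section
variable {S G : Type} [Fintype S] [DecidableEq S] [AddCommGroup G]

theorem AChar_sum (u : Sp S) : u = ∑ i, u i • ev i := by
  funext j
  simp [ev, Pi.single_apply]

theorem alt_ext_ev {w w' : Alt (Sp S) 2} (h : ∀ i j, w ![ev i, ev j] = w' ![ev i, ev j]) :
    w = w' := by
  obtain ⟨B, hB⟩ := exists_bilin w
  obtain ⟨B', hB'⟩ := exists_bilin w'
  refine alt_ext_two fun u v => ?_
  rw [hB, hB', AChar_sum u, AChar_sum v]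
  simp only [map_sum, map_smul, sum_apply, smul_apply, ← hB, ← hB', h]

theorem alt_ext_ev1 {w w' : Alt (Sp S) 1} (h : ∀ i, w ![ev i] = w' ![ev i]) : w = w' := by
  obtain ⟨a, rfl⟩ := exists_lin w
  obtain ⟨a', rfl⟩ := exists_lin w'
  refine alt_ext_one fun u => ?_
  simp only [alt1_apply, Matrix.cons_val_zero] at h ⊢
  rw [AChar_sum u]
  simp only [map_sum, map_smul, h]

theorem alt_expand (w : Alt (Sp S) 2) (u v : Sp S) : w ![u, v] = ∑ i, u i * w ![ev i, v] := by
  obtain ⟨B, hB⟩ := exists_bilin w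
  simp only [hB]
  conv_lhs => rw [AChar_sum u]
  simp only [map_sum, map_smul, sum_apply, smul_apply, smul_eq_mul]

theorem AChar_sg (D : Nil S G) (g : G) (i : S × Fin 2) : D.sg g (ev i) = sgn (D.ch i.1 g) • ev i := by
  funext j
  by_cases e : j = i <;> simp [Nil.sg, sg, ev, e]

theorem Nil.GI_two_iff (D : Nil S G) (w : Alt (Sp S) 2) :
    D.GI w ↔ ∀ i j, D.ch i.1 ≠ D.ch j.1 → w ![ev i, ev j] = 0 := by
  obtain ⟨B, hB⟩ := exists_bilin w
  have k : ∀ g i j, w.compContinuousLinearMap (D.sg g) ![ev i, ev j] =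
      sgn (D.ch i.1 g + D.ch j.1 g) * w ![ev i, ev j] := fun g i j => by
    rw [ContinuousAlternatingMap.compContinuousLinearMap_apply,
      show D.sg g ∘ ![ev i, ev j] = ![D.sg g (ev i), D.sg g (ev j)] from
        funext fun t => by fin_cases t <;> rfl, AChar_sg, AChar_sg, hB, hB, sgn_add]
    simp only [map_smul, smul_apply, smul_eq_mul]
    ring
  refine ⟨fun h i j hij => ?_, fun h g => alt_ext_ev fun i j => ?_⟩
  · obtain ⟨g, hg⟩ := DFunLike.ne_iff.1 hij
    have h1 := k g i j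
    rw [h g, sgn, if_neg fun e => hg ((by decide : ∀ a b : ZMod 2, a + b = 0 → a = b) _ _ e)] at h1
    linarith
  · rw [k]
    by_cases e : D.ch i.1 = D.ch j.1
    · rw [e, sgn_add, sgn_mul_self, one_mul]
    · rw [h i j e, MulZeroClass.mul_zero]

theorem Nil.GI_one_iff (D : Nil S G) (β : Alt (Sp S) 1) :
    D.GI β ↔ ∀ i, D.ch i.1 ≠ 0 → β ![ev i] = 0 := by
  have k : ∀ g i, β.compContinuousLinearMap (D.sg g) ![ev i] = sgn (D.ch i.1 g) * β ![ev i] := fun g i => by
    rw [ContinuousAlternatingMap.compContinuousLinearMap_apply,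
      show D.sg g ∘ ![ev i] = ![D.sg g (ev i)] from funext fun t => by fin_cases t; rfl, AChar_sg, NGrp_one]
  refine ⟨fun h i hi => ?_, fun h g => alt_ext_ev1 fun i => ?_⟩
  · obtain ⟨g, hg⟩ := DFunLike.ne_iff.1 hi
    have h1 := k g i
    rw [h g, sgn, if_neg (show ¬ D.ch i.1 g = 0 from hg)] at h1
    linarith
  · rw [k]
    by_cases e : D.ch i.1 = 0
    · simp [e, sgn]
    · rw [h i e, MulZeroClass.mul_zero]

theorem Nil.GI.sub {D : Nil S G} {k : ℕ} {w w' : Alt (Sp S) k} (h : D.GI w) (h' : D.GI w') :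
    D.GI (w - w') := by
  intro g
  ext v
  exact congrArg₂ (· - ·) (DFunLike.congr_fun (h g) v) (DFunLike.congr_fun (h' g) v)

theorem Nil.EX.GI {D : Nil S G} {w : Alt (Sp S) 2} (h : D.EX w) : D.GI w := by
  obtain ⟨β, h1, h2⟩ := h
  refine fun g => alt_ext_two fun u v => ?_
  rw [ContinuousAlternatingMap.compContinuousLinearMap_apply,
    show D.sg g ∘ ![u, v] = ![D.sg g u, D.sg g v] from funext fun t => by fin_cases t <;> rfl, h2, h2,
    ← DFunLike.congr_fun (h1 g) ![D.br u v], ContinuousAlternatingMap.compContinuousLinearMap_apply]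
  exact congrArg β (funext fun t => by fin_cases t; exact D.aut g u v)

theorem Nil.EX.sub {D : Nil S G} {w w' : Alt (Sp S) 2} (h : D.EX w) (h' : D.EX w') :
    D.EX (w - w') := by
  obtain ⟨β, h1, h2⟩ := h
  obtain ⟨β', h3, h4⟩ := h'
  exact ⟨β - β', h1.sub h3, fun u v => congrArg₂ (· - ·) (h2 u v) (h4 u v)⟩

end

variable {U : Type} {r : ℕ} [DecidableEq U]

theorem chv_link (l : Lk U r) : chv (lS l 0) + chv (lS l 1) + chv (lS l 2) = 0 := by
  funext k
  have z : (1 + 1 : ZMod 2) = 0 := rfl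
  rcases l with l | ⟨g, j | i | j⟩
  · rcases k with b | k
    · exact (by decide : ∀ l b, fano (fln l 0) b + fano (fln l 1) b + fano (fln l 2) b = 0) l b
    · rfl
  · fin_cases j <;> rcases k with b | i | k
    all_goals first
      | (fin_cases b <;> rfl)
      | rfl
      | (change ite _ _ _ + ite _ _ _ + 0 = (0 : ZMod 2); split_ifs <;> rfl)
  · rcases k with b | j | k
    · rfl
    · change (if (j : ℕ) < i + 1 then 1 else 0) + (if (j : ℕ) < i then 1 else 0) +
        (if j = i then 1 else 0) = (0 : ZMod 2)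
      simp only [Fin.ext_iff]
      split_ifs <;> first | rfl | omega
    · change ite _ _ _ + ite _ _ _ + 0 = (0 : ZMod 2)
      split_ifs <;> rfl
  · have e : (lc (![0, 1] j)).1 = 1 ∧ (lc (![0, 1] j)).2 = 0 := by fin_cases j <;> exact ⟨rfl, rfl⟩
    rcases k with b | i | k
    · change fano 3 b + 0 + (if b = 2 then (lc (![0, 1] j)).1 else 0) = 0
      rw [e.1]
      fin_cases b <;> rfl
    · change 0 + (if (i : ℕ) < r then 1 else 0) + (lc (![0, 1] j)).1 = 0
      rw [e.1, if_pos i.2]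
      rfl
    · change 0 + (if k = (g, 0) then 1 else 0) + (if k = (g, 0) then (lc (![0, 1] j)).1 else
        if k = (g, 1) then (lc (![0, 1] j)).2 else 0) = 0
      rw [e.1, e.2]
      split_ifs <;> rfl

theorem chv_sG (g : U) : ∃ c₁ c₂ : Kx U r → ZMod 2, ∀ a,
    chv (sG g a : Sl U r) = (lc a).1 • c₁ + (lc a).2 • c₂ := by
  refine ⟨chv (sG g 0 : Sl U r), chv (sG g 2 : Sl U r), fun a => funext fun k => ?_⟩
  rcases k with b | i | k
  · change (if b = 2 then (lc a).1 else 0) = (lc a).1 * (if b = 2 then 1 else 0) +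
      (lc a).2 * (if b = 2 then 0 else 0)
    split_ifs <;> simp
  · change (lc a).1 = (lc a).1 * 1 + (lc a).2 * 0
    simp
  · change (if k = (g, 0) then (lc a).1 else if k = (g, 1) then (lc a).2 else 0) =
      (lc a).1 * (if k = (g, 0) then 1 else if k = (g, 1) then 0 else 0) +
      (lc a).2 * (if k = (g, 0) then 0 else if k = (g, 1) then 1 else 0)
    split_ifs <;> simp

theorem AChar_lc (g : U) (a a' : Fin 7) : chv (sG g a : Sl U r) = chv (sG g a') ↔ lc a = lc a' := by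
  refine ⟨fun h => Prod.ext ?_ ?_, fun h => ?_⟩
  · simpa [chv] using congrFun h (.inr (.inr (g, 0)))
  · simpa [chv] using congrFun h (.inr (.inr (g, 1)))
  · obtain ⟨c, c', k⟩ := chv_sG (r := r) g
    rw [k, k, h]

theorem chv_eq {s s' : Sl U r} (h : chv s = chv s') :
    s = s' ∨ (∃ g a a', s = sG g a ∧ s' = sG g a' ∧ lc a = lc a') ∨
      ∃ g g', s = sG g 4 ∧ s' = sG g' 4 := by
  have CB : ∀ {j i}, chv (sC j : Sl U r) ≠ chv (sB i) := fun {j i} h => by
    simpa [chv] using congrFun h (.inr (.inl i))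
  have CP : ∀ {j g i}, chv (sC j : Sl U r) ≠ chv (sP g i) := fun {j g i} h => by
    simpa [chv] using congrFun h (.inr (.inr (g, 0)))
  have CZ : ∀ {j g i}, chv (sC j : Sl U r) ≠ chv (sZ g i) := fun {j g i} h => by
    simpa [chv] using congrFun h (.inr (.inr (g, 0)))
  have CG : ∀ {j g a}, chv (sC j : Sl U r) ≠ chv (sG g a) := fun {j g a} h => by
    have h1 : 0 = (lc a).1 := by simpa [chv] using congrFun h (.inr (.inr (g, 0)))
    refine (by decide : ∀ j, ¬ ∀ b, fano j b = 0) j fun b => ?_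
    simpa [chv, ← h1] using congrFun h (.inl b)
  have BP : ∀ {j g i}, chv (sB j : Sl U r) ≠ chv (sP g i) := fun {j g i} h => by
    simpa [chv] using congrFun h (.inr (.inr (g, 0)))
  have BZ : ∀ {j g i}, chv (sB j : Sl U r) ≠ chv (sZ g i) := fun {j g i} h => by
    simpa [chv] using congrFun h (.inr (.inr (g, 0)))
  have BG : ∀ {j g a}, chv (sB j : Sl U r) ≠ chv (sG g a) := fun {j g a} h => by
    have h1 : 0 = (lc a).1 := by simpa [chv] using congrFun h (.inr (.inr (g, 0)))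
    simpa [chv, ← h1] using congrFun h (.inr (.inl j))
  have PZ : ∀ {g i g' j}, chv (sP g i : Sl U r) ≠ chv (sZ g' j) := fun {g i g' j} h => by
    simpa [chv] using congrFun h (.inl j.castSucc)
  have PG : ∀ {g i g' a}, chv (sP g i : Sl U r) ≠ chv (sG g' a) := fun {g i g' a} h => by
    have h1 : 0 = (lc a).1 := by simpa [chv] using congrFun h (.inl 2)
    simpa [chv, ← h1] using congrFun h (.inr (.inr (g, 0)))
  have ZG : ∀ {g j g' a}, chv (sZ g j : Sl U r) ≠ chv (sG g' a) := fun {g j g' a} h => by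
    have h1 := congrFun h (.inl j.castSucc)
    fin_cases j <;> simp [chv] at h1
  have G4 : ∀ {g g' a a'}, g ≠ g' → chv (sG g a : Sl U r) = chv (sG g' a') → a = 4 := fun {g g' a a'} e h => by
    refine (by decide : ∀ a, (lc a).1 = 0 → (lc a).2 = 0 → a = 4) a ?_ ?_
    · simpa [chv, e] using congrFun h (.inr (.inr (g, 0)))
    · simpa [chv, e] using congrFun h (.inr (.inr (g, 1)))
  rcases s with j | i | ⟨g, i | j | a⟩ <;> rcases s' with j' | i' | ⟨g', i' | j' | a'⟩
  all_goals first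
    | exact (CB h).elim | exact (CP h).elim | exact (CZ h).elim | exact (CG h).elim | exact (BP h).elim
    | exact (BZ h).elim | exact (BG h).elim | exact (PZ h).elim | exact (PG h).elim | exact (ZG h).elim
    | exact (CB h.symm).elim | exact (CP h.symm).elim | exact (CZ h.symm).elim | exact (CG h.symm).elim
    | exact (BP h.symm).elim | exact (BZ h.symm).elim | exact (BG h.symm).elim | exact (PZ h.symm).elim
    | exact (PG h.symm).elim | exact (ZG h.symm).elim | skip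
  · exact Or.inl (congrArg _ ((by decide : ∀ j j', (∀ b, fano j b = fano j' b) → j = j') j j'
      fun b => congrFun h (.inl b)))
  · exact Or.inl (congrArg sB (by simpa [chv] using congrFun h (.inr (.inl i))))
  · obtain rfl : g = g' := by simpa [chv] using congrFun h (.inr (.inr (g, 0)))
    refine Or.inl (congrArg (sP g) (Fin.ext ?_))
    have h1 := i.2
    have h2 := i'.2
    by_contra e
    have h3 := congrFun h (.inr (.inl ⟨min i i', by omega⟩))
    simp only [chv] at h3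
    split_ifs at h3 <;> first | omega | exact absurd h3 (by decide)
  · obtain rfl : g = g' := by simpa [chv] using congrFun h (.inr (.inr (g, 0)))
    exact Or.inl (congrArg (sZ g) (Fin.ext (by simpa [chv] using congrFun h (.inl j.castSucc))))
  · by_cases e : g = g'
    · subst e
      exact Or.inr (Or.inl ⟨g, a, a', rfl, rfl, (AChar_lc g a a').1 h⟩)
    · exact Or.inr (Or.inr ⟨g, g', by rw [G4 e h], by rw [G4 (Ne.symm e) h.symm]⟩)

theorem chv_sG_eq (g : U) (a a' : Fin 7) : chv (sG g a : Sl U r) = chv (sG g a') ↔ lc a = lc a' := by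
  exact AChar_lc g a a'

theorem chv_eq_zero (s : Sl U r) : chv s = 0 ↔ ∃ g, s = sG g 4 := by
  have k : ∀ g, chv (sG g 4 : Sl U r) = 0 := fun g => by
    obtain ⟨c, c', k⟩ := chv_sG (r := r) g
    rw [k, show lc 4 = (0, 0) from rfl]
    simp
  refine ⟨fun h => ?_, fun ⟨g, h⟩ => h ▸ k g⟩
  rcases s with j | i | ⟨g, i | j | a⟩
  · exact absurd (fun b => congrFun h (.inl b)) ((by decide : ∀ j, ¬ ∀ b, fano j b = 0) j)
  · simpa [chv] using congrFun h (.inr (.inl i))
  · simpa [chv] using congrFun h (.inr (.inr (g, 0)))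
  · simpa [chv] using congrFun h (.inr (.inr (g, 0)))
  · exact ⟨g, congrArg (sG g) ((by decide : ∀ a, lc a = lc 4 → a = 4) a
      ((AChar_lc g a 4).1 (h.trans (k g).symm)))⟩

theorem chv_pif (s : Sl U r) : chv (pif s) = chv s := by
  rcases s with j | i | ⟨g, i | j | a⟩
  exacts [rfl, rfl, rfl, rfl, (AChar_lc g _ _).2 ((by decide : ∀ a, lc (gP a) = lc a) a)]

theorem levf_link (l : Lk U r) (t : Fin 3) : levf (lS l t, 0) = 1 ∧ levf (lS l t, 1) = 3 := by
  rcases l with l | ⟨g, j | i | j⟩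
  · exact ⟨rfl, rfl⟩
  · fin_cases j <;> fin_cases t <;> exact ⟨rfl, rfl⟩
  · fin_cases t <;> exact ⟨rfl, rfl⟩
  · fin_cases j <;> fin_cases t <;> exact ⟨rfl, rfl⟩

variable [Fintype U]

theorem AChar_single (s : Sl U r) (k : Kx U r) : chf s (Pi.single k 1) = chv s k := by
  change ∑ j, chv s j * (Pi.single k 1 : Kx U r → ZMod 2) j = _
  simp [Pi.single_apply]

theorem chf_eq_iff (s s' : Sl U r) : chf s = chf s' ↔ chv s = chv s' := by
  refine ⟨fun h => funext fun k => ?_, fun h => AddMonoidHom.ext fun g => ?_⟩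
  · rw [← AChar_single, ← AChar_single, h]
  · change ∑ k, chv s k * g k = ∑ k, chv s' k * g k
    rw [h]

theorem chf_eq_zero_iff (s : Sl U r) : chf s = 0 ↔ chv s = 0 := by
  refine ⟨fun h => funext fun k => ?_, fun h => AddMonoidHom.ext fun g => ?_⟩
  · rw [← AChar_single, h]
    rfl
  · change ∑ k, chv s k * g k = 0
    simp [h]

theorem exists_tau (U : Type) [Fintype U] [DecidableEq U] (r : ℕ) :
    ∃ tau : Sl U r × Fin 2 → (Kx U r → ZMod 2) →+ ZMod 2,
      ∀ g, g ≠ 0 → ∃ i, levf i = 1 ∧ chf i.1 g = 0 ∧ tau i g = 1 := by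
  let e := Fintype.equivFin (Fin r ⊕ U × Fin 2)
  let c : Kx U r → (Kx U r → ZMod 2) →+ ZMod 2 := fun k => Pi.evalAddMonoidHom (fun _ => ZMod 2) k
  obtain ⟨co, hco⟩ : ∃ co : ℕ → (Kx U r → ZMod 2) →+ ZMod 2, co = fun n =>
    if h : n < Fintype.card (Fin r ⊕ U × Fin 2) then c (.inr (e.symm ⟨n, h⟩)) else 0 := ⟨_, rfl⟩
  refine ⟨fun i => match i.1 with
    | .inl j => ![c (.inl 1), c (.inl 2), c (.inl 0), c (.inl 0), co 0, 0, 0] j
    | .inr (.inl i) => co (e (.inl i) + 1)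
    | .inr (.inr (g, .inl _)) => co (e (.inr (g, 0)) + 1)
    | .inr (.inr (g, .inr _)) => co (e (.inr (g, 1)) + 1), fun g hg => ?_⟩
  have hC : ∀ j, chf (sC j : Sl U r) g =
      fano j 0 * g (.inl 0) + fano j 1 * g (.inl 1) + fano j 2 * g (.inl 2) := fun j => by
    change ∑ k, chv (sC j) k * g k = _
    simp [Fintype.sum_sum_type, chv, Fin.sum_univ_three]
  rcases (by decide : ∀ a b d : ZMod 2, (1 * a + 0 * b + 0 * d = 0 ∧ b = 1) ∨
      (0 * a + 1 * b + 0 * d = 0 ∧ d = 1) ∨ (1 * a + 1 * b + 0 * d = 0 ∧ a = 1) ∨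
      (0 * a + 0 * b + 1 * d = 0 ∧ a = 1) ∨ (a = 0 ∧ b = 0 ∧ d = 0)) (g (.inl 0)) (g (.inl 1)) (g (.inl 2))
    with h | h | h | h | h
  · exact ⟨(sC 0, 0), rfl, (hC 0).trans h.1, h.2⟩
  · exact ⟨(sC 1, 0), rfl, (hC 1).trans h.1, h.2⟩
  · exact ⟨(sC 2, 0), rfl, (hC 2).trans h.1, h.2⟩
  · exact ⟨(sC 3, 0), rfl, (hC 3).trans h.1, h.2⟩
  have z : ∀ a : ZMod 2, a ≠ 1 → a = 0 := by decide
  have k0 : ∀ k, co (e k) g = g (.inr k) := fun k => by
    rw [hco]
    simp only [dif_pos (e k).2, Fin.eta, Equiv.symm_apply_apply]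
    rfl
  have ex : ∃ n, co n g = 1 := by
    by_contra hn
    refine hg (funext fun k => ?_)
    rcases k with b | k
    · fin_cases b
      exacts [h.1, h.2.1, h.2.2]
    · exact z _ fun e1 => hn ⟨_, (k0 k).trans e1⟩
  have h1 := Nat.find_spec ex
  rcases hn : Nat.find ex with _ | n
  · rw [hn] at h1
    exact ⟨(sC 4, 0), rfl, by rw [hC, h.1, h.2.1, h.2.2]; rfl, h1⟩
  rw [hn] at h1
  have h2 : n < Fintype.card (Fin r ⊕ U × Fin 2) := by
    by_contra h3
    rw [hco] at h1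
    simp only [dif_neg (show ¬ n + 1 < Fintype.card (Fin r ⊕ U × Fin 2) by omega)] at h1
    exact absurd h1 (by decide : (0 : ZMod 2) ≠ 1)
  obtain ⟨k, rfl⟩ : ∃ k, n = e k := ⟨e.symm ⟨n, h2⟩, by simp⟩
  have h3 : g (.inr k) = 0 := (k0 k).symm.trans (z _ (Nat.find_min ex (by omega)))
  have h4 : ∀ s : Sl U r, chv s = Pi.single (.inr k) 1 → chf s g = 0 := fun s hs => by
    change ∑ j, chv s j * g j = 0
    simp [hs, Pi.single_apply, h3]
  rcases k with i | ⟨u, t⟩
  · refine ⟨(sB i, 0), rfl, h4 _ (funext fun k => ?_), h1⟩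
    rcases k with b | j | k <;> simp [chv, Pi.single_apply]
  · fin_cases t
    · refine ⟨(sP u 0, 0), rfl, h4 _ (funext fun k => ?_), h1⟩
      rcases k with b | j | k <;> simp [chv, Pi.single_apply]
    · refine ⟨(sG u 2, 0), rfl, h4 _ (funext fun k => ?_), h1⟩
      rcases k with b | j | k <;> simp [chv, Pi.single_apply, show lc 2 = (0, 1) from rfl]
      rintro rfl
      simp

end Pool.Agent.Work.MP_bf98aa_gt.Th
end

-- merged part: Pool.Agent.Work.MP_bf98aa_gt.Th.AClo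
section
/-!
The family `eta` is closed.

PLAN. `eta_ev`: `etaA_apply` and `pif_pif`. `eta_ex`: only the slots `sG g a` contribute to the sum over slots (`Fintype.sum_sum_type`, `Fintype.sum_prod_type`).
`eta_clo`: the gadget part vanishes by `eta_ex`, `gbf_clo`, `gbf_clo'`. The link part is `∑ l, X l` where, by `eta_ev`,
`X l = -∑ t, lC l t * cyc (wd (lS l (t+1), 0) (lS l (t+2), 0) u v * (alf s * z (s, 0) + bef (pif s) * z (pif s, 0)))`, `s = lS l t`; the cyclic sum is a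
`3 × 3` determinant. `X l = 0` by `link_alf` unless `l` is one of the two gadget links of a unit, and these two cancel each other.
-/

set_option autoImplicit false

namespace Pool.Agent.Work.MP_bf98aa_gt.Th

variable {U : Type} {r : ℕ}

theorem pif_pif (s : Sl U r) : pif (pif s) = s := by
  rcases s with j | i | ⟨g, i | j | a⟩
  · rfl
  · rfl
  · rfl
  · rfl
  · fin_cases a <;> rfl

theorem rs_ex [DecidableEq U] (g : U) (z : Sp (Fin 7)) : rs g (ex g z : Sp (Sl U r)) = z := by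
  funext i
  simp [rs, ex]

theorem rs_ex_ne [DecidableEq U] {g g' : U} (h : g' ≠ g) (z : Sp (Fin 7)) :
    rs g' (ex g z : Sp (Sl U r)) = 0 := by
  funext i
  simp [rs, ex, h]

theorem ex_ev [DecidableEq U] (g : U) (i : Fin 7 × Fin 2) :
    (ex g (ev i) : Sp (Sl U r)) = ev (sG g i.1, i.2) := by
  funext ⟨s, c⟩
  rcases s with j | j | ⟨g', j | j | a⟩
  · simp [ex, ev]
  · simp [ex, ev]
  · simp [ex, ev]
  · simp [ex, ev]
  · obtain ⟨i1, i2⟩ := i
    by_cases h : g' = g <;> simp [ex, ev, Pi.single_apply, h]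

theorem exists_exL [DecidableEq U] (g : U) :
    ∃ A : Sp (Fin 7) →ₗ[ℝ] Sp (Sl U r), ∀ z, ex g z = A z := by
  refine ⟨⟨⟨ex g, fun a b => ?_⟩, fun c a => ?_⟩, fun _ => rfl⟩
  · funext ⟨s, c⟩
    rcases s with j | j | ⟨g', j | j | a⟩
    · simp [ex]
    · simp [ex]
    · simp [ex]
    · simp [ex]
    · by_cases h : g' = g <;> simp [ex, h]
  · funext ⟨s, c⟩
    rcases s with j | j | ⟨g', j | j | a⟩
    · simp [ex]
    · simp [ex]
    · simp [ex]
    · simp [ex]
    · by_cases h : g' = g <;> simp [ex, h]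

namespace UD

variable (T : UD U r)

theorem AA_pos (g : U) (i : Fin (r + 1)) : 0 < T.AA g i := by
  have h : 0 ≤ ∑ j : Fin r, if (j : ℕ) < i then (T.dir g j : ℚ) else 0 :=
    Finset.sum_nonneg fun j _ => by split_ifs <;> positivity
  unfold AA
  linarith

theorem alf_pif (x : ℝ × (Fin r → ℝ)) (s : Sl U r) : T.alf x (pif s) = T.alf x s := by
  rcases s with j | i | ⟨g, i | j | a⟩
  · rfl
  · rfl
  · rfl
  · rfl
  · fin_cases a <;> rfl

theorem bef_pif (x : ℝ × (Fin r → ℝ)) (s : Sl U r) : T.bef x (pif s) = -T.bef x s := by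
  rcases s with j | i | ⟨g, i | j | a⟩
  · simp [bef, pif]
  · simp [bef, pif]
  · simp [bef, pif]
  · simp [bef, pif]
  · fin_cases a <;> simp [bef, pif, gP, gB]

theorem AClo_step {R : Type} [AddCommMonoid R] (f : Fin r → R) (i : Fin r) :
    (∑ j : Fin r, if (j : ℕ) < (i.succ : Fin (r + 1)) then f j else 0) =
      (∑ j : Fin r, if (j : ℕ) < (i.castSucc : Fin (r + 1)) then f j else 0) + f i := by
  have h : f i = ∑ j : Fin r, if j = i then f j else 0 := by simp
  rw [h, ← Finset.sum_add_distrib]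
  refine Finset.sum_congr rfl fun j _ => ?_
  simp only [Fin.val_succ, Fin.val_castSucc, Fin.ext_iff]
  split_ifs <;> first | omega | simp

theorem AClo_ne (g : U) (i : Fin (r + 1)) : (T.AA g i : ℝ) ≠ 0 :=
  Rat.cast_ne_zero.2 (T.AA_pos g i).ne'

theorem AClo_AA (g : U) (i : Fin r) :
    (T.AA g i.succ : ℝ) = T.AA g i.castSucc + T.dir g i := by
  have h : T.AA g i.succ = T.AA g i.castSucc + T.dir g i := by
    unfold AA
    rw [AClo_step, add_assoc]
  exact_mod_cast h

theorem AClo_ell (g : U) (i : Fin r) (y : Fin r → ℝ) :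
    T.ell g i.succ y = T.ell g i.castSucc y + T.dir g i * y i :=
  AClo_step (fun j => (T.dir g j : ℝ) * y j) i

theorem link_alf (x : ℝ × (Fin r → ℝ)) (l : Lk U r) (h : ∀ g, l ≠ .inr (g, .inr (.inr 1))) :
    ∑ t, (T.lC l t : ℝ) * T.alf x (lS l t) = 0 := by
  rw [Fin.sum_univ_three]
  rcases l with l | ⟨g, j | i | j⟩
  · simp [lC, lS, alf, val]
    ring
  · fin_cases j <;> simp [lC, lS, alf, val, ell] <;> ring
  · have h1 := T.AClo_ne g i.succ
    have h2 := T.AClo_ne g i.castSucc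
    have h3 := T.AClo_AA g i
    have h4 := T.AClo_ell g i x.2
    simp only [lC, lS, alf, val, Matrix.cons_val_zero, Matrix.cons_val_one, Matrix.cons_val,
      Rat.cast_neg, Rat.cast_natCast]
    rw [mul_add, mul_add, neg_mul _ (_ / _), mul_div_cancel₀ _ h1, mul_div_cancel₀ _ h2, h3, h4]
    ring
  · have h1 := T.AClo_ne g (Fin.last r)
    fin_cases j
    · simp [lC, lS, alf, val, gA]
      field_simp
      ring
    · exact absurd rfl (h g)

theorem link_bef (x : ℝ × (Fin r → ℝ)) (g : U) :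
    ∑ t, (T.lC (.inr (g, .inr (.inr 1))) t : ℝ) * T.alf x (lS (.inr (g, .inr (.inr 1))) t) +
      T.bef x (sG g 1) = 0 := by
  have h1 := T.AClo_ne g (Fin.last r)
  rw [Fin.sum_univ_three]
  simp [lC, lS, alf, val, bef, gB]
  field_simp
  ring

variable [Fintype U] [DecidableEq U]

omit [Fintype U] [DecidableEq U] in
theorem AClo_val_add (y y' : Fin r → ℝ) (s : Sl U r) :
    T.val (y + y') s = T.val y s + T.val y' s := by
  have h : ∀ g i, T.ell g i (y + y') = T.ell g i y + T.ell g i y' := fun g i => by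
    simp only [ell, ← Finset.sum_add_distrib, Pi.add_apply]
    exact Finset.sum_congr rfl fun j _ => by split_ifs <;> ring
  rcases s with j | i | ⟨g, i | j | a⟩ <;> simp only [val, h, Pi.add_apply] <;> ring

omit [Fintype U] [DecidableEq U] in
theorem AClo_val_smul (c : ℝ) (y : Fin r → ℝ) (s : Sl U r) :
    T.val (c • y) s = c * T.val y s := by
  have h : ∀ g i, T.ell g i (c • y) = c * T.ell g i y := fun g i => by
    simp only [ell, Finset.mul_sum, Pi.smul_apply, smul_eq_mul]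
    exact Finset.sum_congr rfl fun j _ => by split_ifs <;> ring
  rcases s with j | i | ⟨g, i | j | a⟩ <;> simp only [val, h, Pi.smul_apply, smul_eq_mul] <;> ring

omit [Fintype U] [DecidableEq U] in
theorem AClo_bef_add (x x' : ℝ × (Fin r → ℝ)) (s : Sl U r) :
    T.bef (x + x') s = T.bef x s + T.bef x' s := by
  have h : ∀ g i, T.ell g i (x + x').2 = T.ell g i x.2 + T.ell g i x'.2 := fun g i => by
    simp only [ell, ← Finset.sum_add_distrib, Pi.add_apply, Prod.snd_add]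
    exact Finset.sum_congr rfl fun j _ => by split_ifs <;> ring
  rcases s with j | i | ⟨g, i | j | a⟩ <;> simp only [bef, h] <;> ring

omit [Fintype U] [DecidableEq U] in
theorem AClo_bef_smul (c : ℝ) (x : ℝ × (Fin r → ℝ)) (s : Sl U r) :
    T.bef (c • x) s = c * T.bef x s := by
  have h : ∀ g i, T.ell g i (c • x).2 = c * T.ell g i x.2 := fun g i => by
    simp only [ell, Finset.mul_sum, Pi.smul_apply, smul_eq_mul, Prod.smul_snd]
    exact Finset.sum_congr rfl fun j _ => by split_ifs <;> ring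
  rcases s with j | i | ⟨g, i | j | a⟩ <;> simp only [bef, h] <;> ring

theorem exists_etaL : ∃ L : ℝ × (Fin r → ℝ) →ₗ[ℝ] Alt (Sp (Sl U r)) 2, ∀ x, T.eta x = L x := by
  refine ⟨⟨⟨T.eta, fun a b => alt_ext_two fun u v => ?_⟩, fun c a => alt_ext_two fun u v => ?_⟩,
    fun _ => rfl⟩
  · simp only [ContinuousAlternatingMap.add_apply, eta, etaA_apply, ← Finset.sum_add_distrib, alf,
      Prod.fst_add, Prod.snd_add, AClo_val_add, AClo_bef_add]
    exact Finset.sum_congr rfl fun s _ => by ring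
  · simp only [ContinuousAlternatingMap.smul_apply, eta, etaA_apply, Finset.mul_sum, alf,
      Prod.smul_fst, Prod.smul_snd, AClo_val_smul, AClo_bef_smul, smul_eq_mul, RingHom.id_apply]
    exact Finset.sum_congr rfl fun s _ => by ring

theorem eta_one : T.eta (1, 0) = omA := by
  refine alt_ext_two fun u v => ?_
  rw [omA_apply, eta, etaA_apply, om]
  refine Finset.sum_congr rfl fun s _ => ?_
  have h1 : T.alf (1, 0) s = 1 := by
    rcases s with j | i | ⟨g, i | j | a⟩ <;> simp [alf, val, ell]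
  have h2 : T.bef (1, 0) s = 0 := by
    rcases s with j | i | ⟨g, i | j | a⟩ <;> simp [bef, ell]
  rw [h1, h2]
  ring

theorem eta_ev (x : ℝ × (Fin r → ℝ)) (s : Sl U r) (z : Sp (Sl U r)) : T.eta x ![ev (s, 1), z] =
    -(T.alf x s * z (s, 0) + T.bef x (pif s) * z (pif s, 0)) := by
  have h : ∀ s' : Sl U r, pif s' = s ↔ s' = pif s := fun s' =>
    ⟨fun e => by rw [← e, pif_pif], fun e => by rw [e, pif_pif]⟩
  rw [eta, etaA_apply]
  simp [ev, Pi.single_apply, h, mul_add, Finset.sum_add_distrib, mul_comm]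

theorem eta_ex (x : ℝ × (Fin r → ℝ)) (g : U) (u : Sp (Fin 7)) (z : Sp (Sl U r)) :
    T.eta x ![ex g u, z] =
      x.1 * om u (rs g z) + T.th g * T.ell g (Fin.last r) x.2 * gE (T.Q g) u (rs g z) := by
  rw [eta, etaA_apply]
  simp only [Fintype.sum_sum_type, Fintype.sum_prod_type, ex, pif, zero_mul, mul_zero, add_zero,
    sub_zero, Finset.sum_const_zero, zero_add]
  rw [Finset.sum_eq_single g (fun g' _ h => by simp [h]) (by simp)]
  simp only [if_true, om, gE, Finset.mul_sum, ← Finset.sum_add_distrib, alf, val, bef, wd, rs]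
  exact Finset.sum_congr rfl fun a _ => by ring

/-- A determinant of three coordinates. -/
def AClo_D (u v z : Sp (Sl U r)) (a b c : Sl U r) : ℝ :=
  wd (a, 0) (b, 0) u v * z (c, 0) + wd (a, 0) (b, 0) v z * u (c, 0) +
    wd (a, 0) (b, 0) z u * v (c, 0)

theorem AClo_split (x : ℝ × (Fin r → ℝ)) (u v z : Sp (Sl U r)) :
    T.eta x ![T.brf u v, z] = (∑ l : Lk U r, ∑ t : Fin 3,
      (T.lC l t : ℝ) * wd (lS l (t + 1), 0) (lS l (t + 2), 0) u v *
        -(T.alf x (lS l t) * z (lS l t, 0) + T.bef x (pif (lS l t)) * z (pif (lS l t), 0))) +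
      ∑ g, (x.1 * om (gbf (T.Q g) (rs g u) (rs g v)) (rs g z) + T.th g * T.ell g (Fin.last r) x.2 *
        gE (T.Q g) (gbf (T.Q g) (rs g u) (rs g v)) (rs g z)) := by
  obtain ⟨B, hB⟩ := exists_bilin (T.eta x)
  simp only [← eta_ev, ← eta_ex, hB, brf, lbr, map_add, map_sum, map_smul, add_apply, sum_apply,
    smul_apply, smul_eq_mul]

omit [Fintype U] [DecidableEq U] in
theorem AClo_link (x : ℝ × (Fin r → ℝ)) (u v z : Sp (Sl U r)) (l : Lk U r) :
    (∑ t : Fin 3, (T.lC l t : ℝ) * wd (lS l (t + 1), 0) (lS l (t + 2), 0) u v *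
        -(T.alf x (lS l t) * z (lS l t, 0) + T.bef x (pif (lS l t)) * z (pif (lS l t), 0))) +
      (∑ t : Fin 3, (T.lC l t : ℝ) * wd (lS l (t + 1), 0) (lS l (t + 2), 0) v z *
        -(T.alf x (lS l t) * u (lS l t, 0) + T.bef x (pif (lS l t)) * u (pif (lS l t), 0))) +
      (∑ t : Fin 3, (T.lC l t : ℝ) * wd (lS l (t + 1), 0) (lS l (t + 2), 0) z u *
        -(T.alf x (lS l t) * v (lS l t, 0) + T.bef x (pif (lS l t)) * v (pif (lS l t), 0))) =
      -(AClo_D u v z (lS l 0) (lS l 1) (lS l 2) * ∑ t, (T.lC l t : ℝ) * T.alf x (lS l t)) +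
        ∑ t, (T.lC l t : ℝ) * T.bef x (lS l t) *
          AClo_D u v z (lS l (t + 1)) (lS l (t + 2)) (pif (lS l t)) := by
  have e1 : (0 : Fin 3) + 1 = 1 := rfl
  have e2 : (0 : Fin 3) + 2 = 2 := rfl
  have e3 : (1 : Fin 3) + 1 = 2 := rfl
  have e4 : (1 : Fin 3) + 2 = 0 := rfl
  have e5 : (2 : Fin 3) + 1 = 0 := rfl
  have e6 : (2 : Fin 3) + 2 = 1 := rfl
  simp only [Fin.sum_univ_three, e1, e2, e3, e4, e5, e6, bef_pif, AClo_D, wd]
  ring

theorem eta_clo (x : ℝ × (Fin r → ℝ)) (u v z : Sp (Sl U r)) :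
    T.eta x ![T.brf u v, z] + T.eta x ![T.brf v z, u] + T.eta x ![T.brf z u, v] = 0 := by
  have hr : ∀ a b c d e f : ℝ, a + b + (c + d) + (e + f) = a + c + e + (b + d + f) :=
    fun a b c d e f => by ring
  rw [AClo_split, AClo_split, AClo_split, hr, ← Finset.sum_add_distrib, ← Finset.sum_add_distrib,
    ← Finset.sum_add_distrib, ← Finset.sum_add_distrib,
    Finset.sum_eq_zero (s := (Finset.univ : Finset U)) fun g _ => by
      linear_combination x.1 * gbf_clo (T.Q g) (rs g u) (rs g v) (rs g z) +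
        T.th g * T.ell g (Fin.last r) x.2 * gbf_clo' (T.Q g) (rs g u) (rs g v) (rs g z), add_zero]
  simp only [AClo_link, Fintype.sum_sum_type, Fintype.sum_prod_type]
  rw [Finset.sum_eq_zero fun l _ => by
      rw [T.link_alf x _ (by simp)]
      simp [lS, bef], zero_add]
  refine Finset.sum_eq_zero fun g _ => ?_
  rw [Finset.sum_eq_zero (s := (Finset.univ : Finset (Fin 3))) fun j _ => by
      rw [T.link_alf x _ (by simp), Fin.sum_univ_three]
      fin_cases j <;> simp [lS, bef],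
    Finset.sum_eq_zero (s := (Finset.univ : Finset (Fin r))) fun i _ => by
      rw [T.link_alf x _ (by simp), Fin.sum_univ_three]
      simp [lS, bef],
    Fin.sum_univ_two, T.link_alf x _ (by simp), eq_neg_of_add_eq_zero_left (T.link_bef x g),
    Fin.sum_univ_three, Fin.sum_univ_three]
  simp [lS, lC, bef, pif, gP, gB]
  ring

end UD

end Pool.Agent.Work.MP_bf98aa_gt.Th
end

-- merged part: Pool.Agent.Work.MP_bf98aa_gt.Th.ABr
section
/-!
Brackets of coordinate vectors.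

PLAN. `pair_unique`: two slots lie in at most one link, except `sC 3, sP g last`; case analysis on the links (`decide` for the Fano plane, `omega` with
`Fin.ext_iff` for the chain). A link has at most one gadget slot, so the links vanish on pairs of gadget vectors, and the gadget brackets vanish as soon as
one argument has `rs g = 0`. `brf_link`: `Finset.sum_eq_single` twice.
-/

set_option autoImplicit false

namespace Pool.Agent.Work.MP_bf98aa_gt.Th

variable {U : Type} {r : ℕ}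

theorem ABr_3 (t : Fin 3) : t = 0 ∨ t = 1 ∨ t = 2 := by
  revert t
  decide

theorem ABr_2 (t : Fin 2) : t = 0 ∨ t = 1 := by
  revert t
  decide

theorem ABr_01 : ∀ j j' : Fin 2, (![0, 1] : Fin 2 → Fin 7) j = ![0, 1] j' → j = j' := by
  decide

theorem ABr_fln : ∀ (a : Fin 7) (t t' : Fin 3), fln a t = fln a t' → t = t' := by
  decide

theorem ABr_fln2 : ∀ (a a' : Fin 7) (t t' : Fin 3),
    fln a' (t' + 1) = fln a (t + 1) ∧ fln a' (t' + 2) = fln a (t + 2) ∨
      fln a' (t' + 1) = fln a (t + 2) ∧ fln a' (t' + 2) = fln a (t + 1) → a' = a ∧ t' = t := by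
  decide

theorem lS_inj (l : Lk U r) : Function.Injective (lS l) := by
  intro t t' h
  rcases l with a | ⟨g, j | i | j⟩
  · exact ABr_fln a t t' (Sum.inl.inj h)
  · rcases ABr_3 j with rfl | rfl | rfl <;> rcases ABr_3 t with rfl | rfl | rfl <;>
      rcases ABr_3 t' with rfl | rfl | rfl <;> first | rfl | (exfalso; simp [lS] at h)
  · rcases ABr_3 t with rfl | rfl | rfl <;> rcases ABr_3 t' with rfl | rfl | rfl <;>
      first | rfl | (exfalso; simp [lS, Fin.ext_iff] at h)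
  · rcases ABr_3 t with rfl | rfl | rfl <;> rcases ABr_3 t' with rfl | rfl | rfl <;>
      first | rfl | (exfalso; simp [lS] at h)

theorem pair_unique {l l' : Lk U r} {t t' : Fin 3}
    (h : lS l' (t' + 1) = lS l (t + 1) ∧ lS l' (t' + 2) = lS l (t + 2) ∨
      lS l' (t' + 1) = lS l (t + 2) ∧ lS l' (t' + 2) = lS l (t + 1)) :
    l' = l ∧ t' = t ∨ ∃ g j j', l = .inr (g, .inr (.inr j)) ∧ l' = .inr (g, .inr (.inr j')) ∧
      t = 2 ∧ t' = 2 := by
  have e01 : (0 + 1 : Fin 3) = 1 := rfl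
  have e02 : (0 + 2 : Fin 3) = 2 := rfl
  have e11 : (1 + 1 : Fin 3) = 2 := rfl
  have e12 : (1 + 2 : Fin 3) = 0 := rfl
  have e21 : (2 + 1 : Fin 3) = 0 := rfl
  have e22 : (2 + 2 : Fin 3) = 1 := rfl
  rcases l with a | ⟨g, j | i | j⟩ <;> rcases l' with a' | ⟨g', j' | i' | j'⟩
  · obtain ⟨rfl, rfl⟩ := ABr_fln2 a a' t t' (by simpa only [lS, Sum.inl.injEq] using h)
    exact .inl ⟨rfl, rfl⟩
  all_goals try rcases ABr_3 j with rfl | rfl | rfl
  all_goals try rcases ABr_3 j' with rfl | rfl | rfl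
  all_goals rcases ABr_3 t with rfl | rfl | rfl <;> rcases ABr_3 t' with rfl | rfl | rfl
  all_goals simp only [e01, e02, e11, e12, e21, e22] at h
  all_goals simp [lS] at h
  all_goals try (simp [h]; done)
  · obtain ⟨rfl, -, h⟩ := h
    exact absurd h (Fin.castSucc_lt_succ.ne')
  · obtain ⟨⟨-, h⟩, rfl⟩ := h
    exact absurd h (Fin.castSucc_lt_succ.ne)
  · obtain ⟨rfl, rfl⟩ | ⟨⟨-, h1⟩, -, h2⟩ := h
    · exact .inl ⟨rfl, rfl⟩
    · simp only [Fin.ext_iff, Fin.val_succ, Fin.val_castSucc] at h1 h2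
      omega
  all_goals
    obtain ⟨rfl, h⟩ := h
    obtain rfl := ABr_01 _ _ h
    exact .inl ⟨rfl, rfl⟩

namespace UD

variable (T : UD U r) [Fintype U] [DecidableEq U]

theorem brf_anti (u v : Sp (Sl U r)) : T.brf u v = -T.brf v u := by
  have h1 : T.lbr u v = -T.lbr v u := by
    simp only [lbr, ← Finset.sum_neg_distrib]
    refine Finset.sum_congr rfl fun l _ => Finset.sum_congr rfl fun t _ => ?_
    rw [wd_anti, mul_neg, neg_smul]
  rw [brf, brf, h1, neg_add, ← Finset.sum_neg_distrib]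
  refine congrArg _ (Finset.sum_congr rfl fun g _ => ?_)
  obtain ⟨A, hA⟩ := exists_exL (r := r) g
  rw [gbf_anti, hA, hA, map_neg]

omit [Fintype U] [DecidableEq U] in
theorem ABr_ng (l : Lk U r) (t : Fin 3) :
    (∀ g a, lS l (t + 1) ≠ sG g a) ∨ ∀ g a, lS l (t + 2) ≠ sG g a := by
  rcases l with a | ⟨g, j | i | j⟩
  · exact .inl fun _ _ => Sum.inl_ne_inr
  · rcases ABr_3 j with rfl | rfl | rfl <;> rcases ABr_3 t with rfl | rfl | rfl <;> simp [lS]
  · rcases ABr_3 t with rfl | rfl | rfl <;> simp [lS]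
  · rcases ABr_3 t with rfl | rfl | rfl <;> simp [lS]

omit [Fintype U] [DecidableEq U] in
theorem ABr_n4 (l : Lk U r) (t : Fin 3) (g : U) : lS l t ≠ sG g 4 := by
  rcases l with a | ⟨g, j | i | j⟩
  · exact Sum.inl_ne_inr
  · rcases ABr_3 j with rfl | rfl | rfl <;> rcases ABr_3 t with rfl | rfl | rfl <;> simp [lS]
  · rcases ABr_3 t with rfl | rfl | rfl <;> simp [lS]
  · rcases ABr_2 j with rfl | rfl <;> rcases ABr_3 t with rfl | rfl | rfl <;> simp [lS]

omit [Fintype U] in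
theorem ABr_rs (g : U) {s : Sl U r} (h : ∀ g a, s ≠ sG g a) (c : Fin 2) :
    rs g (ev (s, c)) = 0 := by
  funext i
  exact Pi.single_eq_of_ne (fun e => h g i.1 (Prod.mk.inj e).1.symm) _

omit [Fintype U] in
theorem ABr_ex (g : U) (z : Sp (Fin 7)) {s : Sl U r} (h : ∀ g a, s ≠ sG g a) (c : Fin 2) :
    ex g z (s, c) = 0 := by
  rcases s with a | i | ⟨g', i | j | a⟩
  exacts [rfl, rfl, rfl, rfl, absurd rfl (h g' a)]

omit [Fintype U] in
theorem ABr_ex0 (g : U) (Q : ℝ) {u v : Sp (Fin 7)} (h : u = 0 ∨ v = 0) :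
    (ex g (gbf Q u v) : Sp (Sl U r)) = 0 := by
  obtain ⟨A, hA⟩ := exists_exL (r := r) g
  obtain ⟨B, hB⟩ := exists_gbL Q
  rw [hA, hB]
  rcases h with rfl | rfl <;> simp

theorem ABr_lbr (g g' : U) (u v : Sp (Fin 7)) : T.lbr (ex g u) (ex g' v) = 0 := by
  refine Finset.sum_eq_zero fun l _ => Finset.sum_eq_zero fun t _ => ?_
  rcases ABr_ng l t with h | h <;> simp [wd, ABr_ex _ _ h]

theorem brf_link (l : Lk U r) (t : Fin 3) (h : ∀ g, l = .inr (g, .inr (.inr 1)) → t ≠ 2) :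
    T.brf (ev (lS l (t + 1), 0)) (ev (lS l (t + 2), 0)) = (T.lC l t : ℝ) • ev (lS l t, 1) := by
  have hg : ∑ g, (ex g (gbf (T.Q g) (rs g (ev (lS l (t + 1), 0))) (rs g (ev (lS l (t + 2), 0)))) :
      Sp (Sl U r)) = 0 := by
    refine Finset.sum_eq_zero fun g _ => ABr_ex0 g _ ?_
    exact (ABr_ng l t).imp (fun h => ABr_rs g h 0) fun h => ABr_rs g h 0
  have hne : lS l (t + 1) ≠ lS l (t + 2) := fun e => by
    exact absurd (add_left_cancel (lS_inj l e)) (by decide)
  rw [brf, hg, add_zero, lbr, ← Fintype.sum_prod_type', Finset.sum_eq_single (l, t)]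
  · simp [wd, ev, hne, hne.symm]
  · rintro ⟨l', t'⟩ - hn
    by_cases hp : lS l' (t' + 1) = lS l (t + 1) ∧ lS l' (t' + 2) = lS l (t + 2) ∨
      lS l' (t' + 1) = lS l (t + 2) ∧ lS l' (t' + 2) = lS l (t + 1)
    · obtain ⟨rfl, rfl⟩ | ⟨g, j, j', rfl, rfl, rfl, rfl⟩ := pair_unique hp
      · exact absurd rfl hn
      · rcases ABr_2 j with rfl | rfl
        · rcases ABr_2 j' with rfl | rfl
          · exact absurd rfl hn
          · simp [lC]
        · exact absurd rfl (h g rfl)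
    · have : wd (lS l' (t' + 1), (0 : Fin 2)) (lS l' (t' + 2), 0) (ev (lS l (t + 1), 0))
          (ev (lS l (t + 2), 0)) = 0 := by
        simp only [wd, ev, Pi.single_apply, Prod.mk.injEq, and_true]
        grind
      simp only [this, mul_zero, zero_smul]
  · exact fun h => absurd (Finset.mem_univ _) h

theorem brf_link' (g : U) :
    T.brf (ev (sC 3, 0)) (ev (sP g (Fin.last r), 0)) = ev (sG g 0, 1) := by
  have h := T.brf_link (.inr (g, .inr (.inr 0))) 2 fun g' e => by simp at e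
  simpa [lS, lC] using h

theorem brf_ex (g : U) (u v : Sp (Fin 7)) :
    T.brf (ex g u) (ex g v) = ex g (gbf (T.Q g) u v) := by
  rw [brf, ABr_lbr, zero_add, Finset.sum_eq_single g, rs_ex, rs_ex]
  · exact fun g' _ h => ABr_ex0 g' _ (.inl (rs_ex_ne h u))
  · exact fun h => absurd (Finset.mem_univ _) h

theorem brf_ex_ne {g g' : U} (h : g ≠ g') (u v : Sp (Fin 7)) : T.brf (ex g u) (ex g' v) = 0 := by
  rw [brf, ABr_lbr, zero_add]
  refine Finset.sum_eq_zero fun g'' _ => ABr_ex0 g'' _ ?_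
  by_cases e : g'' = g
  · exact .inr (rs_ex_ne (e ▸ h) v)
  · exact .inl (rs_ex_ne e u)

theorem brf_sG4 (u v : Sp (Sl U r)) (g : U) (c : Fin 2) :
    T.brf u v (sG g 4, c) = gbf (T.Q g) (rs g u) (rs g v) (4, c) := by
  have h1 : T.lbr u v (sG g 4, c) = 0 := by
    simp only [lbr, Finset.sum_apply, Pi.smul_apply]
    refine Finset.sum_eq_zero fun l _ => Finset.sum_eq_zero fun t _ => ?_
    rw [ev, Pi.single_eq_of_ne fun e => ABr_n4 l t g (Prod.mk.inj e).1.symm, smul_zero]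
  rw [brf, Pi.add_apply, h1, zero_add, Finset.sum_apply, Finset.sum_eq_single g]
  · exact if_pos rfl
  · exact fun g' _ h => if_neg h.symm
  · exact fun h => absurd (Finset.mem_univ _) h

theorem brf_single (s : Sl U r) (h : ∀ g a, s ≠ sG g a) (u : Sp (Sl U r)) :
    T.brf u (ev (s, 1)) = 0 := by
  have h1 : T.lbr u (ev (s, 1)) = 0 := by
    refine Finset.sum_eq_zero fun l _ => Finset.sum_eq_zero fun t _ => ?_
    simp [wd, ev]
  rw [brf, h1, zero_add]
  exact Finset.sum_eq_zero fun g _ => ABr_ex0 g _ (.inr (ABr_rs g h 1))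

end UD

end Pool.Agent.Work.MP_bf98aa_gt.Th
end

-- merged part: Pool.Agent.Work.MP_bf98aa_gt.Th.ACoh
section
/-!
Every closed invariant 2-cochain is cohomologous to a member of the family `eta`.

PLAN. Let `b s = w ![ev (s,0), ev (s,1)]`. `link_eq`: `CE2` on `ev (lS l 0, 0), ev (lS l 1, 0), ev (lS l 2, 0)` and `brf_link`. The seven Fano links give
`b (sC j) = s₀`, the triangles give `b (sP g 0) = b (sZ g j) = s₀` (`linarith`), the chain gives `b (sP g i) = alf x (sP g i)` by `Fin.induction`, with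
`x = (b (sC 0), fun i => b (sB i) - b (sC 0))` (compare with `link_alf`). For each `g` apply `gad_rigid` to `W i j = w ![ev (sG g i.1, i.2), ev (sG g j.1, j.2)]`
(`GI_two_iff`, `chv_sG_eq`, `brf_ex`, `ex_ev`, `alt_expand`); `link_eq` for the first gadget link and `CE2` on `sC 3, sP g last, sG g 1` (`brf_link'`) give
`b = s₀`, `t = th * ell`. `cross`: `CE2` on `ex g (ev (0,0)), ex g (ev (1,0)), ex g' (ev (4,c))` with `gbf_ev1`, `brf_ex_ne`; the same with `gbf_ev2`.
The primitive is `β = alt1 (∑ g, c₁ g / Q g • proj (sG g 4, 0) + c₂ g / (-32 ..) • proj (sG g 4, 1))` (`brf_sG4`, `gbf_h1`, `gbf_h2`). To compare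
`w - eta x` with `β ∘ br` use `alt_ext_ev`-type reasoning on pairs of coordinate vectors, split by `chv_eq`.
-/

set_option autoImplicit false

namespace Pool.Agent.Work.MP_bf98aa_gt.Th

namespace UD

variable {U : Type} {r : ℕ} [Fintype U] [DecidableEq U] {T : UD U r}
  {D : Nil (Sl U r) (Kx U r → ZMod 2)}

omit [DecidableEq U] in
theorem ACoh_smul (w : Alt (Sp (Sl U r)) 2) (c : ℝ) (u v : Sp (Sl U r)) :
    w ![c • u, v] = c * w ![u, v] := by
  obtain ⟨B, hB⟩ := exists_bilin w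
  rw [hB, hB, map_smul]
  rfl

omit [DecidableEq U] in
theorem ACoh_zero (w : Alt (Sp (Sl U r)) 2) (v : Sp (Sl U r)) : w ![0, v] = 0 :=
  w.map_coord_zero 0 rfl

theorem ACoh_exp (w : Alt (Sp (Sl U r)) 2) (g : U) (z : Sp (Fin 7)) (v : Sp (Sl U r)) :
    w ![ex g z, v] = ∑ l, z l * w ![ev (sG g l.1, l.2), v] := by
  obtain ⟨B, hB⟩ := exists_bilin w
  obtain ⟨A, hA⟩ := exists_exL (r := r) g
  simp only [hB, ← ex_ev, hA]
  conv_lhs => rw [pi_eq_sum_univ' z]
  simp only [map_sum, map_smul, _root_.sum_apply, _root_.smul_apply, smul_eq_mul, ev]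

theorem Is.ACoh_br (h : T.Is D) (g : U) (c : Fin 2) : ∃ (q : ℝ) (a b : Sp (Fin 7)), q ≠ 0 ∧
    D.br (ex g a) (ex g b) = q • ev (sG g 4, c) := by
  have hQ : (T.Q g : ℝ) ≠ 0 := by exact_mod_cast T.Q_ne g
  obtain ⟨A, hA⟩ := exists_exL (r := r) g
  fin_cases c
  · exact ⟨_, _, _, hQ, by rw [h.1, brf_ex, gbf_ev1, hA, map_smul, ← hA, ex_ev]; rfl⟩
  · refine ⟨_, _, _, ?_, by rw [h.1, brf_ex, gbf_ev2, hA, map_smul, ← hA, ex_ev]; rfl⟩
    exact mul_ne_zero (by norm_num) (by positivity)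

theorem ACoh_01 (x : ℝ × (Fin r → ℝ)) (s : Sl U r) :
    T.eta x ![ev (s, 0), ev (s, 1)] = T.alf x s := by
  rw [alt2_swap, eta_ev, neg_neg]
  by_cases e : pif s = s
  · have := T.bef_pif x s
    rw [e] at this ⊢
    simp [ev, show T.bef x s = 0 by linarith]
  · simp [ev, e]

theorem Is.ACoh_ch (h : T.Is D) (s s' : Sl U r) : D.ch s = D.ch s' ↔ chv s = chv s' := by
  rw [h.2, chf_eq_iff]

theorem Is.link_eq (h : T.Is D) {w : Alt (Sp (Sl U r)) 2} (hc : D.CE2 w) (l : Lk U r)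
    (hl : ∀ g, l ≠ .inr (g, .inr (.inr 1))) :
    ∑ t, (T.lC l t : ℝ) * w ![ev (lS l t, 0), ev (lS l t, 1)] = 0 := by
  have k := hc (ev (lS l 0, 0)) (ev (lS l 1, 0)) (ev (lS l 2, 0))
  have e0 : T.brf (ev (lS l 1, 0)) (ev (lS l 2, 0)) = _ := T.brf_link l 0 fun g e => (hl g e).elim
  have e1 : T.brf (ev (lS l 2, 0)) (ev (lS l 0, 0)) = _ := T.brf_link l 1 fun g e => (hl g e).elim
  have e2 : T.brf (ev (lS l 0, 0)) (ev (lS l 1, 0)) = _ := T.brf_link l 2 fun g e => (hl g e).elim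
  simp only [h.1, e0, e1, e2, ACoh_smul, fun s => alt2_swap w (ev (s, 1)) (ev (s, 0))] at k
  rw [Fin.sum_univ_three]
  linarith

theorem Is.cross (h : T.Is D) {w : Alt (Sp (Sl U r)) 2} (hc : D.CE2 w) {g g' : U} (hg : g ≠ g')
    (c c' : Fin 2) : w ![ev (sG g 4, c), ev (sG g' 4, c')] = 0 := by
  obtain ⟨q, a, b, hq, e⟩ := h.ACoh_br g c
  have k := hc (ex g a) (ex g b) (ex g' (ev (4, c')))
  rw [e, h.1, h.1, T.brf_ex_ne hg, T.brf_ex_ne hg.symm, ACoh_zero, ACoh_zero, ACoh_smul, ex_ev,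
    add_zero, add_zero] at k
  exact (mul_eq_zero.1 k).resolve_left hq

theorem Is.GI_eta (h : T.Is D) (x : ℝ × (Fin r → ℝ)) : D.GI (T.eta x) := by
  have k : ∀ (s : Sl U r) (j : Sl U r × Fin 2), chv s ≠ chv j.1 → T.eta x ![ev (s, 1), ev j] = 0 := by
    intro s j e
    rw [eta_ev, ev, Pi.single_eq_of_ne, Pi.single_eq_of_ne, mul_zero, mul_zero, add_zero, neg_zero]
    · rintro rfl
      exact e (chv_pif s).symm
    · rintro rfl
      exact e rfl
  refine (D.GI_two_iff _).2 fun ⟨s, c⟩ ⟨s', c'⟩ e => ?_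
  rw [Ne, h.ACoh_ch] at e
  fin_cases c
  · fin_cases c'
    · simp [eta, etaA_apply, ev]
    · exact (alt2_swap _ _ _).trans (neg_eq_zero.2 (k s' (s, 0) (Ne.symm e)))
  · exact k s (s', c') e

theorem Is.CE2_eta (h : T.Is D) (x : ℝ × (Fin r → ℝ)) : D.CE2 (T.eta x) := by
  intro u v z
  simp only [h.1]
  exact T.eta_clo x u v z

theorem Is.H1 (h : T.Is D) : D.H1 := by
  refine fun β hi hc => alt_ext_ev1 fun ⟨s, c⟩ => ?_
  by_cases e : D.ch s = 0
  · rw [h.2, chf_eq_zero_iff, chv_eq_zero] at e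
    obtain ⟨g, rfl⟩ := e
    obtain ⟨q, a, b, hq, e⟩ := h.ACoh_br g c
    have k := hc (ex g a) (ex g b)
    rw [e, NGrp_one] at k
    exact (mul_eq_zero.1 k).resolve_left hq
  · exact (D.GI_one_iff β).1 hi (s, c) e

theorem Is.uniq (h : T.Is D) {x x' : ℝ × (Fin r → ℝ)} (hx : D.EX (T.eta x - T.eta x')) :
    x = x' := by
  obtain ⟨β, -, hβ⟩ := hx
  have k : ∀ s : Sl U r, (∀ g a, s ≠ sG g a) → T.alf x s = T.alf x' s := fun s hs => by
    have := hβ (ev (s, 0)) (ev (s, 1))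
    rw [h.1, T.brf_single s hs, β.map_coord_zero 0 rfl, ContinuousAlternatingMap.sub_apply,
      ACoh_01, ACoh_01] at this
    exact sub_eq_zero.1 this
  have k0 : x.1 = x'.1 := add_right_cancel (k (sC 0) fun _ _ => nofun)
  refine Prod.ext k0 (funext fun i => add_left_cancel (a := x.1) ?_)
  exact (k (sB i) fun _ _ => nofun).trans (by rw [k0]; rfl)

theorem Is.ACoh_b (h : T.Is D) {w : Alt (Sp (Sl U r)) 2} (hc : D.CE2 w) {b : Sl U r → ℝ}
    (hb : ∀ s, w ![ev (s, 0), ev (s, 1)] = b s) (h0 : b (sC 0) = 0) (hB : ∀ i, b (sB i) = 0) :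
    (∀ s, (∀ g a, s ≠ sG g a) → b s = 0) ∧ ∀ g, b (sG g 0) = 0 := by
  have k := fun l hl => h.link_eq hc l hl
  simp only [hb, Fin.sum_univ_three] at k
  have hC : ∀ j, b (sC j) = 0 := by
    have k0 := k (.inl 0) fun _ => nofun
    have k1 := k (.inl 1) fun _ => nofun
    have k2 := k (.inl 2) fun _ => nofun
    have k3 := k (.inl 3) fun _ => nofun
    have k4 := k (.inl 4) fun _ => nofun
    have k5 := k (.inl 5) fun _ => nofun
    have k6 := k (.inl 6) fun _ => nofun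
    simp [lC, lS, fln] at k0 k1 k2 k3 k4 k5 k6
    intro j
    fin_cases j <;> simp <;> linarith
  have hZ : ∀ g, b (sP g 0) = 0 ∧ ∀ j, b (sZ g j) = 0 := fun g => by
    have k0 := k (.inr (g, .inl 0)) fun _ => nofun
    have k1 := k (.inr (g, .inl 1)) fun _ => nofun
    have k2 := k (.inr (g, .inl 2)) fun _ => nofun
    simp [lC, lS, hC] at k0 k1 k2
    exact ⟨by linarith, Fin.forall_fin_two.2 ⟨by linarith, by linarith⟩⟩
  have hP : ∀ g i, b (sP g i) = 0 := fun g i => by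
    induction i using Fin.induction with
    | zero => exact (hZ g).1
    | succ i ih =>
      simpa [lC, lS, hB, ih, (T.AA_pos g i.succ).ne'] using k (.inr (g, .inr (.inl i))) fun _ => nofun
  refine ⟨?_, fun g => by simpa [lC, lS, hC, hP] using k (.inr (g, .inr (.inr 0))) (by simp)⟩
  rintro (j | i | ⟨g, i | j | a⟩) hs
  exacts [hC j, hB i, hP g i, (hZ g).2 j, (hs g a rfl).elim]

theorem Is.ACoh_gad (h : T.Is D) {w : Alt (Sp (Sl U r)) 2} (hi : D.GI w) (hc : D.CE2 w)
    (h1 : ∀ s, (∀ g a, s ≠ sG g a) → w ![ev (s, 0), ev (s, 1)] = 0) (g : U)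
    (h2 : w ![ev (sG g 0, 0), ev (sG g 0, 1)] = 0) : ∃ c₁ c₂ : ℝ, ∀ i j : Fin 7 × Fin 2,
      w ![ev (sG g i.1, i.2), ev (sG g j.1, j.2)] =
        c₁ * wd (0, 0) (1, 0) (ev i) (ev j) + c₂ * wd (2, 0) (3, 0) (ev i) (ev j) := by
  have hQ : (T.Q g : ℝ) ≠ 0 := by exact_mod_cast T.Q_ne g
  obtain ⟨b, t, c₁, c₂, k⟩ := gad_rigid hQ (fun i j => w ![ev (sG g i.1, i.2), ev (sG g j.1, j.2)])
    (fun i j => alt2_swap _ _ _) (fun i j e => (D.GI_two_iff w).1 hi _ _ (by
      rwa [Ne, h.ACoh_ch, chv_sG_eq])) fun i j k => by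
    have := hc (ex g (ev i)) (ex g (ev j)) (ex g (ev k))
    simp only [h.1, brf_ex] at this
    simpa only [ACoh_exp w g (gbf _ _ _), ex_ev, Finset.sum_add_distrib] using this
  have k1 := hc (ev (sC 3, 0)) (ev (sP g (Fin.last r), 0)) (ev (sG g 1, 0))
  have e0 : T.brf (ev (sP g (Fin.last r), 0)) (ev (sG g 1, 0)) = (_ : ℝ) • ev (sC 3, (1 : Fin 2)) :=
    T.brf_link (.inr (g, .inr (.inr 1))) 0 fun _ _ => by decide
  have e1 : T.brf (ev (sG g 1, 0)) (ev (sC 3, 0)) = (_ : ℝ) • ev (sP g (Fin.last r), (1 : Fin 2)) :=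
    T.brf_link (.inr (g, .inr (.inr 1))) 1 fun _ _ => by decide
  rw [h.1, h.1, h.1, e0, e1, brf_link', ACoh_smul, ACoh_smul, alt2_swap w (ev (sC 3, 1)),
    alt2_swap w (ev (sP g _, 1)), h1 (sC 3) fun _ _ => nofun, h1 (sP g _) fun _ _ => nofun,
    k (0, 1) (1, 0)] at k1
  rw [k (0, 0) (0, 1)] at h2
  simp [om, gE, wd, ev, Fin.sum_univ_seven, gA, gB, gP, T.Q_ne g] at k1 h2
  refine ⟨c₁, c₂, fun i j => ?_⟩
  rw [k, show b = 0 by linarith, k1]
  ring

theorem Is.ACoh_key (h : T.Is D) {w : Alt (Sp (Sl U r)) 2} (hi : D.GI w) (hc : D.CE2 w)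
    (h0 : w ![ev (sC 0, 0), ev (sC 0, 1)] = 0) (hB : ∀ i, w ![ev (sB i, 0), ev (sB i, 1)] = 0) :
    D.EX w := by
  obtain ⟨h1, h2⟩ := h.ACoh_b hc (fun _ => rfl) h0 hB
  choose c₁ c₂ k using fun g => h.ACoh_gad hi hc h1 g (h2 g)
  obtain ⟨a, a1, a2⟩ : ∃ a : Sp (Sl U r) →L[ℝ] ℝ, D.GI (alt1 a) ∧ ∀ u v, a (D.br u v) =
      ∑ g, (c₁ g * wd (0, 0) (1, 0) (rs g u) (rs g v) + c₂ g * wd (2, 0) (3, 0) (rs g u) (rs g v)) := by
    refine ⟨∑ g, ((c₁ g / T.Q g) • ContinuousLinearMap.proj (sG g 4, 0) +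
      (c₂ g / (-32 * (T.Q g * (1 + T.Q g ^ 2) * (1 + 9 * T.Q g ^ 2)))) •
        ContinuousLinearMap.proj (sG g 4, 1)), (D.GI_one_iff _).2 fun i e => ?_, fun u v => ?_⟩
    · rw [Ne, h.2, chf_eq_zero_iff, chv_eq_zero] at e
      have : ∀ g c, ev i (sG g 4, c) = 0 := fun g c =>
        Pi.single_eq_of_ne (by rintro rfl; exact e ⟨g, rfl⟩) _
      simp [alt1_apply, this]
    · simp only [_root_.sum_apply, _root_.add_apply, _root_.smul_apply,
        ContinuousLinearMap.proj_apply, h.1, brf_sG4, gbf_h1, gbf_h2, smul_eq_mul]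
      refine Finset.sum_congr rfl fun g _ => ?_
      have hQ : (T.Q g : ℝ) ≠ 0 := by exact_mod_cast T.Q_ne g
      field_simp
  obtain ⟨w', hw⟩ : ∃ w' : Alt (Sp (Sl U r)) 2, ∀ u v, w' ![u, v] = a (D.br u v) :=
    ⟨alt2 ((1 / 2 : ℝ) • (ContinuousLinearMap.compL ℝ _ _ _ a).comp D.br), fun u v => by
      simp [alt2_apply, D.anti v u]; ring⟩
  have hE : D.EX w' := ⟨alt1 a, a1, fun u v => by rw [hw, alt1_apply]; rfl⟩
  refine (alt_ext_ev fun ⟨s, c⟩ ⟨s', c'⟩ => ?_ : w' = w) ▸ hE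
  by_cases e : D.ch s = D.ch s'
  swap
  · rw [(D.GI_two_iff w).1 hi _ _ e, (D.GI_two_iff w').1 hE.GI _ _ e]
  have kk : ∀ g g' (i j : Fin 7 × Fin 2), w' ![ev (sG g i.1, i.2), ev (sG g' j.1, j.2)] =
      c₁ g * wd (0, 0) (1, 0) (ev i) (rs g (ex g' (ev j) : Sp (Sl U r))) +
        c₂ g * wd (2, 0) (3, 0) (ev i) (rs g (ex g' (ev j) : Sp (Sl U r))) := fun g g' i j => by
    rw [hw, a2, ← ex_ev, ← ex_ev, Fintype.sum_eq_single g fun g'' e => by simp [rs_ex_ne e, wd],
      rs_ex]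
  have k2 : ∀ g a a', w' ![ev (sG g a, c), ev (sG g a', c')] =
      w ![ev (sG g a, c), ev (sG g a', c')] := fun g a a' => by
    rw [kk g g (a, c) (a', c'), k g (a, c) (a', c'), rs_ex]
  obtain rfl | ⟨g, a, a', rfl, rfl, -⟩ | ⟨g, g', rfl, rfl⟩ := chv_eq ((h.ACoh_ch _ _).1 e)
  · by_cases hs : ∃ g a, s = sG g a
    · obtain ⟨g, a, rfl⟩ := hs
      exact k2 g a a
    push Not at hs
    have : ∀ g, rs g (ev (s, c)) = 0 := fun g => funext fun i =>
      Pi.single_eq_of_ne (fun e => hs g i.1 (congrArg Prod.fst e).symm) _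
    have z : ∀ u, w ![u, u] = 0 := fun u => by linarith [alt2_swap w u u]
    rw [hw, a2, Finset.sum_eq_zero fun g _ => by simp [this, wd]]
    fin_cases c <;> fin_cases c'
    exacts [(z _).symm, (h1 s hs).symm, ((alt2_swap _ _ _).trans (neg_eq_zero.2 (h1 s hs))).symm,
      (z _).symm]
  · exact k2 g a a'
  · by_cases e : g = g'
    · exact e ▸ k2 g 4 4
    · rw [kk g g' (4, c) (4, c'), h.cross hc e, rs_ex_ne e]
      simp [wd]

theorem Is.rigid (h : T.Is D) {w : Alt (Sp (Sl U r)) 2} (hi : D.GI w) (hc : D.CE2 w) :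
    ∃ x, D.EX (w - T.eta x) := by
  refine ⟨(w ![ev (sC 0, 0), ev (sC 0, 1)], fun i => w ![ev (sB i, 0), ev (sB i, 1)] -
    w ![ev (sC 0, 0), ev (sC 0, 1)]), h.ACoh_key (hi.sub (h.GI_eta _)) (fun u v z => ?_) ?_
      fun i => ?_⟩
  · simp only [ContinuousAlternatingMap.sub_apply]
    linear_combination hc u v z - h.CE2_eta _ u v z
  all_goals simp [ACoh_01, alf, val]

end UD

end Pool.Agent.Work.MP_bf98aa_gt.Th
end
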