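import Pool.Agent.Work.MP_bf98aa_gt.Th.IMain

-- merged part: Pool.Agent.Work.MP_bf98aa_gt.Th.DErr
section
/-!
The flat peak is holomorphic up to the cut-off.

PLAN. With `z = q + y₀`: `Tm 0 R q y₀ c y = χ y • g y`, `χ y = cut (nsq (z + y) / R ^ 2)`,
`g y = ee (-(om q y₀ / 2)) * exp (-(π nsq z / 2)) * exp (-π ∑ s, conj (zc z s) * zc y s) • Pc c (z + y)`
(`nsq (z + y) = nsq z + 2 ⟨z, y⟩ + nsq y`, `∑ conj (zc z s) * zc y s = ⟨z, y⟩ + i om z y`). Restrict to lines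
`t ↦ t • v` (`hasDerivAt_D2`). `g' = ∑ zc v s • (...)`, `g''` is complex quadratic in `zc v`, so it cancels for `v` and `Jv v`.
The derivatives of `χ` at `0` vanish if `nsq z < R ^ 2` and are bounded by constants times `‖v‖`, `‖v‖ ^ 2` (`‖z‖ ≤ 2R+3`,
`deriv cut`, `deriv (deriv cut)` bounded); if `R ^ 2 ≤ nsq z` the Gaussian factor is at most `exp (-(π R ^ 2 / 2))`.
-/

set_option autoImplicit false

open scoped ContDiff Topology ComplexConjugate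

namespace Pool.Agent.Work.MP_bf98aa_gt.Th

lemma DErr_line {E H : Type} [NormedAddCommGroup E] [NormedSpace ℝ E] [NormedAddCommGroup H]
    [NormedSpace ℝ H] [FiniteDimensional ℝ E] [FiniteDimensional ℝ H] {f : E → H} (hf : ContDiffAt ℝ ∞ f 0) (v : E) {φ₁ : ℝ → H} {φ₂ : H}
    (h1 : ∀ t, HasDerivAt (fun t : ℝ => f (0 + t • v)) (φ₁ t) t) (h2 : HasDerivAt φ₁ φ₂ 0) :
    fderiv ℝ f 0 v = φ₁ 0 ∧ D2 f 0 v v = φ₂ := by
  obtain ⟨a1, a2⟩ := hasDerivAt_D2 hf v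
  have h3 : (fun t : ℝ => fderiv ℝ f (0 + t • v) v) =ᶠ[𝓝 0] φ₁ :=
    a2.mono fun t ht => ht.unique (h1 t)
  refine ⟨by simpa using h3.self_of_nhds, a1.unique (h2.congr_of_eventuallyEq h3)⟩

/-- The scalar factor along a line. -/
noncomputable def DErr_ps (A B C : ℝ) (K a : ℂ) (t : ℝ) : ℂ :=
  (cut (A + B * t + C * t ^ 2) : ℝ) * (K * Complex.exp (-(a * t)))

/-- Its derivative. -/
noncomputable def DErr_ps1 (A B C : ℝ) (K a : ℂ) (t : ℝ) : ℂ :=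
  ((deriv cut (A + B * t + C * t ^ 2) * (B + 2 * C * t) : ℝ) -
    a * (cut (A + B * t + C * t ^ 2) : ℝ)) * (K * Complex.exp (-(a * t)))

lemma DErr_u (A B C t : ℝ) :
    HasDerivAt (fun t : ℝ => A + B * t + C * t ^ 2) (B + 2 * C * t) t := by
  have := (((hasDerivAt_id t).const_mul B).const_add A).add ((hasDerivAt_pow 2 t).const_mul C)
  refine this.congr_deriv ?_
  simp; ring

lemma DErr_e (K a : ℂ) (t : ℝ) : HasDerivAt (fun t : ℝ => K * Complex.exp (-(a * t)))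
    (-a * (K * Complex.exp (-(a * t)))) t := by
  have h1 : HasDerivAt (fun t : ℝ => -(a * (t : ℂ))) (-a) t := by
    simpa using ((Complex.ofRealCLM.hasDerivAt (x := t)).const_mul a).fun_neg
  refine (h1.cexp.const_mul K).congr_deriv ?_
  ring

lemma DErr_c (A B C t : ℝ) : HasDerivAt (fun t : ℝ => cut (A + B * t + C * t ^ 2))
    (deriv cut (A + B * t + C * t ^ 2) * (B + 2 * C * t)) t :=
  ((contDiff_cut.differentiable (by simp)) _).hasDerivAt.comp t (DErr_u A B C t)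

lemma DErr_dcut : ContDiff ℝ ∞ (deriv cut) := (contDiff_infty_iff_deriv.1 contDiff_cut).2

lemma DErr_ps_deriv (A B C : ℝ) (K a : ℂ) (t : ℝ) :
    HasDerivAt (DErr_ps A B C K a) (DErr_ps1 A B C K a t) t := by
  refine ((DErr_c A B C t).ofReal_comp.mul (DErr_e K a t)).congr_deriv ?_
  simp only [DErr_ps1]
  ring

lemma DErr_ps1_deriv (A B C : ℝ) (K a : ℂ) : HasDerivAt (DErr_ps1 A B C K a)
    ((((deriv (deriv cut) A * B ^ 2 + 2 * deriv cut A * C : ℝ) : ℂ) -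
      2 * a * (deriv cut A * B : ℝ) + a ^ 2 * (cut A : ℝ)) * K) 0 := by
  have h1 : HasDerivAt (fun t : ℝ => deriv cut (A + B * t + C * t ^ 2))
      (deriv (deriv cut) (A + B * 0 + C * 0 ^ 2) * (B + 2 * C * 0)) 0 :=
    ((DErr_dcut.differentiable (by simp)) _).hasDerivAt.comp 0 (DErr_u A B C 0)
  have h2 : HasDerivAt (fun t : ℝ => B + 2 * C * t) (2 * C) 0 := by
    simpa using ((hasDerivAt_id (0 : ℝ)).const_mul (2 * C)).const_add B
  refine ((((h1.mul h2).ofReal_comp).sub ((DErr_c A B C 0).ofReal_comp.const_mul a)).mul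
    (DErr_e K a 0)).congr_deriv ?_
  simp
  ring

lemma DErr_bound {g : ℝ → ℝ} (hg : Continuous g) (h1 : ∀ t, t < 1 → g t = 0)
    (h2 : ∀ t, 2 < t → g t = 0) : ∃ M, 0 ≤ M ∧ ∀ t, |g t| ≤ M := by
  obtain ⟨M, hM⟩ := isCompact_Icc.exists_bound_of_continuousOn (hg.continuousOn (s := Set.Icc 1 2))
  refine ⟨max M 0, le_max_right _ _, fun t => ?_⟩
  by_cases h3 : t < 1
  · simp [h1 t h3]
  by_cases h4 : 2 < t
  · simp [h2 t h4]
  exact (hM t ⟨not_lt.1 h3, not_lt.1 h4⟩).trans (le_max_left _ _)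

lemma DErr_zero {g : ℝ → ℝ} {U : Set ℝ} (hU : IsOpen U) {c : ℝ} (h : ∀ t ∈ U, g t = c) :
    ∀ t ∈ U, deriv g t = 0 := fun t ht => by
  have : g =ᶠ[𝓝 t] fun _ => c := Filter.mem_of_superset (hU.mem_nhds ht) h
  rw [this.deriv_eq, deriv_const]

lemma DErr_cuts : ∃ M, 0 ≤ M ∧ ∀ R x : ℝ, 1 ≤ R →
    |deriv cut (x / R ^ 2)| * Real.exp (-(Real.pi * x / 2)) ≤
      M * Real.exp (-(Real.pi * R ^ 2 / 2)) ∧
    |deriv (deriv cut) (x / R ^ 2)| * Real.exp (-(Real.pi * x / 2)) ≤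
      M * Real.exp (-(Real.pi * R ^ 2 / 2)) := by
  have a1 := DErr_zero isOpen_Iio (c := 1) fun t (ht : t ∈ Set.Iio 1) => cut_one (le_of_lt ht)
  have a2 := DErr_zero isOpen_Ioi (c := 0) fun t (ht : t ∈ Set.Ioi 2) => cut_zero (le_of_lt ht)
  have b1 := DErr_zero isOpen_Iio a1
  have b2 := DErr_zero isOpen_Ioi a2
  obtain ⟨M, hM, h1⟩ := DErr_bound DErr_dcut.continuous a1 a2
  obtain ⟨N, hN, h2⟩ := DErr_bound (contDiff_infty_iff_deriv.1 DErr_dcut).2.continuous b1 b2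
  refine ⟨M + N, by positivity, fun R x hR => ?_⟩
  by_cases hx : x / R ^ 2 < 1
  · rw [a1 _ hx, b1 _ hx, abs_zero, zero_mul]
    exact ⟨by positivity, by positivity⟩
  · rw [not_lt, one_le_div (by positivity)] at hx
    have h3 : Real.exp (-(Real.pi * x / 2)) ≤ Real.exp (-(Real.pi * R ^ 2 / 2)) :=
      Real.exp_le_exp.2 (by linarith only [hx, Real.pi_pos, mul_nonneg_of_nonpos_of_nonpos (Mathlib.Tactic.Linarith.sub_nonpos_of_le hx) (le_of_lt (Mathlib.Tactic.Linarith.sub_neg_of_lt Real.pi_pos))])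
    exact ⟨mul_le_mul ((h1 _).trans (by linarith only [hN])) h3 (by positivity) (by positivity),
      mul_le_mul ((h2 _).trans (by linarith)) h3 (by positivity) (by positivity)⟩

section

variable {S : Type} [Fintype S] {n' : ℕ}

/-- The hermitian pairing of the coordinates. -/
noncomputable def DErr_a (z v : Sp S) : ℂ := ∑ s, conj (zc z s) * zc v s

/-- The linear part of the polynomial. -/
noncomputable def DErr_p (c : Co S n') (v : Sp S) : Cn n' := ∑ s, zc v s • c (some s)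

lemma DErr_nsq (z v : Sp S) (t : ℝ) :
    nsq (z + t • v) = nsq z + 2 * t * (DErr_a z v).re + t ^ 2 * nsq v := by
  simp only [nsq, DErr_a, zc, Fintype.sum_prod_type, Fin.sum_univ_two, Complex.re_sum,
    Finset.mul_sum, ← Finset.sum_add_distrib]
  refine Finset.sum_congr rfl fun s _ => ?_
  simp
  ring

lemma DErr_om (z v : Sp S) (t : ℝ) : om z (t • v) = t * (DErr_a z v).im := by
  simp only [om, DErr_a, zc, Complex.im_sum, Finset.mul_sum]
  refine Finset.sum_congr rfl fun s _ => ?_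
  simp
  ring

lemma DErr_Pc (c : Co S n') (z v : Sp S) (t : ℝ) :
    Pc c (z + t • v) = Pc c z + (t : ℂ) • DErr_p c v := by
  have h : ∀ s, zc (z + t • v) s = zc z s + t * zc v s := fun s => by
    apply Complex.ext <;> simp [zc]
  simp only [Pc, DErr_p, h, add_smul, Finset.sum_add_distrib, Finset.smul_sum, mul_smul, add_assoc]

lemma DErr_Tm (R : ℝ) (q y₀ : Sp S) (c : Co S n') : Tm 0 R q y₀ c = fun y =>
    ((Real.exp (Real.pi * nsq y / 2) : ℝ) * ee (-(om q y₀ / 2 + om (q + y₀) y / 2))) •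
      pk R c (q + y₀ + y) := by
  have h0 : ∀ x : Sp S, om x 0 = 0 := fun x => by simp [om]
  funext y
  simp only [Tm, phiB, mulB, zero_apply, smul_zero, add_zero, h0, mul_zero,
    sub_zero]
  congr 4
  ring

lemma DErr_smooth (R : ℝ) (q y₀ : Sp S) (c : Co S n') : ContDiff ℝ ∞ (Tm 0 R q y₀ c) := by
  obtain ⟨B, hB⟩ := exists_omL (S := S)
  rw [DErr_Tm]
  have h1 : ContDiff ℝ ∞ fun y : Sp S => Real.exp (Real.pi * nsq y / 2) :=
    ((contDiff_const.mul contDiff_nsq).div_const 2).exp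
  have h2 : ContDiff ℝ ∞ fun y : Sp S => -(om q y₀ / 2 + om (q + y₀) y / 2) := by
    simp only [hB (q + y₀)]
    exact (contDiff_const.add ((B (q + y₀)).contDiff.div_const 2)).neg
  have h3 : ContDiff ℝ ∞ fun y : Sp S => ((Real.exp (Real.pi * nsq y / 2) : ℝ) : ℂ) :=
    Complex.ofRealCLM.contDiff.comp h1
  have h4 : ContDiff ℝ ∞ fun y : Sp S => ee (-(om q y₀ / 2 + om (q + y₀) y / 2)) :=
    contDiff_ee.comp h2
  have h5 : ContDiff ℝ ∞ fun y : Sp S => (c, q + y₀ + y) :=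
    contDiff_const.prodMk (contDiff_const.add contDiff_id)
  have h6 : ContDiff ℝ ∞ fun y : Sp S => pk R c (q + y₀ + y) := by
    have := (contDiff_pk R).comp h5
    simpa only [Function.comp_def] using this
  exact (h3.mul h4).smul h6

lemma DErr_Tm_line (R : ℝ) (q y₀ v : Sp S) (c : Co S n') (t : ℝ) : Tm 0 R q y₀ c (0 + t • v) =
    DErr_ps (nsq (q + y₀) / R ^ 2) (2 * (DErr_a (q + y₀) v).re / R ^ 2) (nsq v / R ^ 2)
      (ee (-(om q y₀ / 2)) * (Real.exp (-(Real.pi * nsq (q + y₀) / 2)) : ℝ))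
      (Real.pi * DErr_a (q + y₀) v) t • (Pc c (q + y₀) + (t : ℂ) • DErr_p c v) := by
  have h0 : nsq (t • v) = t ^ 2 * nsq v := by
    simp [nsq, Finset.mul_sum, mul_pow]
  simp only [DErr_Tm, zero_add, pk, gau, DErr_Pc, smul_smul, DErr_nsq, DErr_om, h0, DErr_ps]
  congr 1
  rw [show nsq (q + y₀) / R ^ 2 + 2 * (DErr_a (q + y₀) v).re / R ^ 2 * t + nsq v / R ^ 2 * t ^ 2 =
    (nsq (q + y₀) + 2 * t * (DErr_a (q + y₀) v).re + t ^ 2 * nsq v) / R ^ 2 by ring]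
  generalize cut _ = χ
  conv_rhs => rw [← Complex.re_add_im (DErr_a (q + y₀) v)]
  simp only [ee, Complex.ofReal_mul, Complex.ofReal_exp]
  rw [mul_left_comm _ (χ : ℂ)]
  congr 1
  simp only [← Complex.exp_add]
  congr 1
  push_cast
  ring

lemma DErr_jet (R : ℝ) (q y₀ v : Sp S) (c : Co S n') {A B C : ℝ} {K a : ℂ}
    (hA : A = nsq (q + y₀) / R ^ 2) (hB : B = 2 * (DErr_a (q + y₀) v).re / R ^ 2)
    (hC : C = nsq v / R ^ 2)
    (hK : K = ee (-(om q y₀ / 2)) * (Real.exp (-(Real.pi * nsq (q + y₀) / 2)) : ℝ))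
    (ha : a = Real.pi * DErr_a (q + y₀) v) :
    fderiv ℝ (Tm 0 R q y₀ c) 0 v =
      ((((deriv cut A * B : ℝ) : ℂ) - a * (cut A : ℝ)) * K) • Pc c (q + y₀) +
        ((cut A : ℝ) * K) • DErr_p c v ∧
    D2 (Tm 0 R q y₀ c) 0 v v =
      ((((deriv (deriv cut) A * B ^ 2 + 2 * deriv cut A * C : ℝ) : ℂ) -
        2 * a * (deriv cut A * B : ℝ) + a ^ 2 * (cut A : ℝ)) * K) • Pc c (q + y₀) +
        (2 * ((((deriv cut A * B : ℝ) : ℂ) - a * (cut A : ℝ)) * K)) • DErr_p c v := by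
  have hl : ∀ t : ℝ, HasDerivAt (fun t : ℝ => Pc c (q + y₀) + (t : ℂ) • DErr_p c v)
      (DErr_p c v) t := fun t => by
    simpa using ((Complex.ofRealCLM.hasDerivAt (x := t)).smul_const (DErr_p c v)).const_add
      (Pc c (q + y₀))
  have h := DErr_line (DErr_smooth R q y₀ c).contDiffAt v
    (φ₁ := fun t => DErr_ps A B C K a t • DErr_p c v +
      DErr_ps1 A B C K a t • (Pc c (q + y₀) + (t : ℂ) • DErr_p c v))
    (fun t => by
      simp only [DErr_Tm_line, ← hA, ← hB, ← hC, ← hK, ← ha]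
      exact (DErr_ps_deriv A B C K a t).smul (hl t))
    (((DErr_ps_deriv A B C K a 0).smul_const _).add ((DErr_ps1_deriv A B C K a).smul (hl 0)))
  rw [h.1, h.2]
  simp only [DErr_ps, DErr_ps1, Complex.ofReal_zero, zero_smul, add_zero, mul_zero, neg_zero,
    Complex.exp_zero, mul_one, ne_eq, OfNat.ofNat_ne_zero, not_false_eq_true, zero_pow]
  exact ⟨by module, by module⟩

lemma DErr_a_le (z v : Sp S) : ‖DErr_a z v‖ ≤ Fintype.card S * (4 * ‖z‖ * ‖v‖) := by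
  refine (norm_sum_le _ _).trans ((Finset.sum_le_card_nsmul _ _ (4 * ‖z‖ * ‖v‖) fun s _ => ?_).trans
    (by simp))
  rw [norm_mul, Complex.norm_conj]
  calc _ ≤ 2 * ‖z‖ * (2 * ‖v‖) :=
        mul_le_mul (norm_zc_le z s) (norm_zc_le v s) (norm_nonneg _) (by positivity)
    _ = _ := by ring

lemma DErr_p_le {c : Co S n'} (hc : ‖c‖ ≤ 2) (v : Sp S) :
    ‖DErr_p c v‖ ≤ Fintype.card S * (4 * ‖v‖) := by
  refine (norm_sum_le _ _).trans ((Finset.sum_le_card_nsmul _ _ (4 * ‖v‖) fun s _ => ?_).trans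
    (by simp))
  rw [norm_smul]
  calc _ ≤ 2 * ‖v‖ * 2 := mul_le_mul (norm_zc_le v s) ((norm_le_pi_norm c _).trans hc)
        (norm_nonneg _) (by positivity)
    _ = _ := by ring

lemma DErr_est {P₀ P₁ : Cn n'} {K a : ℂ} {c₁ c₂ B C E L : ℝ} (hE : 0 ≤ E) (hL : 0 ≤ L) {w : ℝ}
    (hw : 0 ≤ w) (h1 : |c₁| * ‖K‖ ≤ E) (h2 : |c₂| * ‖K‖ ≤ E) (hB : |B| ≤ L * w)
    (hC : |C| ≤ L * w ^ 2) (ha : ‖a‖ ≤ L * w) (h0 : ‖P₀‖ ≤ L) (hP : ‖P₁‖ ≤ L * w) :
    ‖(((c₁ * B : ℝ) : ℂ) * K) • P₀‖ ≤ L ^ 2 * E * w ∧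
    ‖((((c₂ * B ^ 2 + 2 * c₁ * C : ℝ) : ℂ) - 2 * a * (c₁ * B : ℝ)) * K) • P₀ +
      (2 * (((c₁ * B : ℝ) : ℂ) * K)) • P₁‖ ≤ (3 * L ^ 3 + 4 * L ^ 2) * E * w ^ 2 := by
  have e1 : ‖((c₁ * B : ℝ) : ℂ) * K‖ ≤ E * (L * w) := by
    rw [norm_mul, Complex.norm_real, Real.norm_eq_abs, abs_mul, mul_right_comm]
    exact mul_le_mul h1 hB (abs_nonneg _) hE
  have e2 : ‖((c₂ * B ^ 2 : ℝ) : ℂ) * K‖ ≤ E * (L * w) ^ 2 := by
    rw [norm_mul, Complex.norm_real, Real.norm_eq_abs, abs_mul, mul_right_comm, abs_pow]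
    exact mul_le_mul h2 (pow_le_pow_left₀ (abs_nonneg _) hB 2) (by positivity) hE
  have e3 : ‖((c₁ * C : ℝ) : ℂ) * K‖ ≤ E * (L * w ^ 2) := by
    rw [norm_mul, Complex.norm_real, Real.norm_eq_abs, abs_mul, mul_right_comm]
    exact mul_le_mul h1 hC (abs_nonneg _) hE
  have e4 : ‖(((c₂ * B ^ 2 + 2 * c₁ * C : ℝ) : ℂ) - 2 * a * (c₁ * B : ℝ)) * K‖ ≤
      E * (L * w) ^ 2 + 2 * (E * (L * w ^ 2)) + 2 * (L * w * (E * (L * w))) := by
    rw [show (((c₂ * B ^ 2 + 2 * c₁ * C : ℝ) : ℂ) - 2 * a * (c₁ * B : ℝ)) * K =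
      ((c₂ * B ^ 2 : ℝ) : ℂ) * K + 2 * (((c₁ * C : ℝ) : ℂ) * K) -
        2 * (a * (((c₁ * B : ℝ) : ℂ) * K)) by push_cast; ring]
    refine (norm_sub_le _ _).trans (add_le_add ((norm_add_le _ _).trans (add_le_add e2 ?_)) ?_)
    · rw [norm_mul, Complex.norm_two]; linarith only [e3]
    · rw [norm_mul, Complex.norm_two, norm_mul a]
      have := mul_le_mul ha e1 (norm_nonneg _) (by positivity)
      linarith only [this]
  constructor
  · rw [norm_smul]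
    exact (mul_le_mul e1 h0 (norm_nonneg _) (by positivity)).trans (le_of_eq (by ring))
  · refine (norm_add_le _ _).trans ?_
    rw [norm_smul, norm_smul, norm_mul 2, Complex.norm_two]
    have f1 := mul_le_mul e4 h0 (norm_nonneg _) (by positivity)
    have f2 := mul_le_mul e1 hP (norm_nonneg _) (by positivity)
    linarith only [f1, f2]

end

theorem Tm_flat_zero {S : Type} [Fintype S] {n' : ℕ} (R : ℝ) (q y₀ : Sp S) (c : Co S n') :
    Tm 0 R q y₀ c 0 = J0 R q y₀ c := by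
  simp [DErr_Tm, J0, nsq, om]

theorem flat_err (S : Type) [Fintype S] (n' : ℕ) : ∃ (C : ℝ) (N : ℕ), 0 < C ∧ ∀ R : ℝ, 1 ≤ R →
    ∀ (q y₀ : Sp S) (c : Co S n'), ‖q‖ ≤ 2 * R + 2 → ‖y₀‖ ≤ 1 → ‖c‖ ≤ 2 → ∀ v : Sp S,
      ‖fderiv ℝ (Tm 0 R q y₀ c) 0 v - ∑ s, zc v s • J1 R q y₀ c s‖ ≤
        C * R ^ N * Real.exp (-(Real.pi * R ^ 2 / 2)) * ‖v‖ ∧
      ‖D2 (Tm 0 R q y₀ c) 0 v v + D2 (Tm 0 R q y₀ c) 0 (Jv v) (Jv v)‖ ≤
        C * R ^ N * Real.exp (-(Real.pi * R ^ 2 / 2)) * ‖v‖ ^ 2 := by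
  obtain ⟨M, hM, hcut⟩ := DErr_cuts
  obtain ⟨m, hm⟩ : ∃ m : ℝ, m = Fintype.card S := ⟨_, rfl⟩
  have hm0 : 0 ≤ m := hm ▸ Nat.cast_nonneg _
  obtain ⟨l, hl⟩ : ∃ l : ℝ, l = 80 * m + 2 := ⟨_, rfl⟩
  have hl2 : 2 ≤ l := by linarith only [hm, hl]
  refine ⟨14 * l ^ 3 * (M + 1), 3, by positivity, fun R hR q y₀ c hq hy hc v => ?_⟩
  have hz : ‖q + y₀‖ ≤ 5 * R := (norm_add_le _ _).trans (by linarith only [hR, hq, hy])
  have hE := (Real.exp_pos (-(Real.pi * R ^ 2 / 2))).le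
  generalize hEE : Real.exp (-(Real.pi * R ^ 2 / 2)) = E at hE
  obtain ⟨K, hK⟩ : ∃ K : ℂ,
    K = ee (-(om q y₀ / 2)) * (Real.exp (-(Real.pi * nsq (q + y₀) / 2)) : ℝ) := ⟨_, rfl⟩
  have hKn : ‖K‖ = Real.exp (-(Real.pi * nsq (q + y₀) / 2)) := by
    rw [hK, norm_mul, norm_ee, one_mul, Complex.norm_real, Real.norm_of_nonneg (Real.exp_pos _).le]
  obtain ⟨k1, k2⟩ := hcut R (nsq (q + y₀)) hR
  rw [← hKn, hEE] at k1 k2
  have hR2 : 1 ≤ R ^ 2 := one_le_pow₀ hR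
  have hmR : m ≤ m * R := le_mul_of_one_le_right hm0 hR
  have est : ∀ u : Sp S, ‖u‖ = ‖v‖ → _ := fun u hu => by
    have ha : ‖DErr_a (q + y₀) u‖ ≤ 20 * (m * R) * ‖v‖ := by
      refine (DErr_a_le _ _).trans ?_
      rw [← hm, hu]
      have := mul_le_mul_of_nonneg_left hz (by positivity : 0 ≤ 4 * m * ‖v‖)
      linarith only [this]
    have hv := norm_nonneg v
    have hmv : 0 ≤ m * R * ‖v‖ := by positivity
    have hRv : 0 ≤ R * ‖v‖ := by positivity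
    refine DErr_est (P₀ := Pc c (q + y₀)) (P₁ := DErr_p c u) (a := Real.pi * DErr_a (q + y₀) u)
      (B := 2 * (DErr_a (q + y₀) u).re / R ^ 2) (C := nsq u / R ^ 2) (L := l * R)
      (by positivity) (by positivity) hv k1 k2 ?_ ?_ ?_ ?_ ?_
    · rw [abs_div, abs_mul, abs_two, abs_of_pos (by positivity : 0 < R ^ 2)]
      refine (div_le_self (by positivity) hR2).trans ?_
      have := Complex.abs_re_le_norm (DErr_a (q + y₀) u)
      rw [hl]; linarith only [ha, hmv, hRv, this]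
    · have h0 : 0 ≤ nsq u := (sq_nonneg _).trans (norm_sq_le_nsq u)
      rw [abs_of_nonneg (by positivity)]
      refine (div_le_self h0 hR2).trans ((nsq_le u).trans ?_)
      rw [← hm, hu]
      exact mul_le_mul_of_nonneg_right (by rw [hl]; linarith only [hm, hR, hmR]) (sq_nonneg _)
    · rw [norm_mul, Complex.norm_real, Real.norm_of_nonneg Real.pi_pos.le]
      have := mul_le_mul Real.pi_le_four ha (norm_nonneg _) (by norm_num)
      rw [hl]; linarith only [hRv, this]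
    · have h1 := DErr_p_le hc (q + y₀)
      have h2 : ‖c none‖ ≤ 2 := (norm_le_pi_norm c _).trans hc
      refine (norm_add_le _ _).trans ?_
      rw [← hm] at h1
      have := mul_le_mul_of_nonneg_left hz hm0
      change _ + ‖DErr_p c (q + y₀)‖ ≤ _
      rw [hl]; linarith only [hm, hR, hmR, h1, h2, this]
    · refine (DErr_p_le hc u).trans ?_
      rw [← hm, hu, hl]
      linarith only [hmv, hRv, hmR, hv, mul_le_mul_of_nonneg_right hmR hv]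
  have j1 := DErr_jet R q y₀ v c rfl rfl rfl hK rfl
  have j2 := DErr_jet R q y₀ (Jv v) c rfl rfl rfl hK rfl
  have hL : 1 ≤ l * R := by linarith only [hm, hl, hR, hmR, Mathlib.Tactic.Linarith.zero_mul_eq (sub_eq_zero_of_eq hl) (Mathlib.Tactic.Linarith.sub_nonpos_of_le hR)]
  have hL2 : (l * R) ^ 2 ≤ (l * R) ^ 3 := pow_le_pow_right₀ hL (by norm_num)
  have hL3 : 0 ≤ (l * R) ^ 3 := by positivity
  constructor
  · have h1 : ∑ s, zc v s • J1 R q y₀ c s = ((cut (nsq (q + y₀) / R ^ 2) : ℝ) * K) •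
        (DErr_p c v - (Real.pi * DErr_a (q + y₀) v) • Pc c (q + y₀)) := by
      simp only [J1, DErr_p, DErr_a, gau, hK, Finset.mul_sum, Finset.sum_smul, smul_sub,
        Finset.smul_sum, ← Finset.sum_sub_distrib]
      refine Finset.sum_congr rfl fun s _ => ?_
      push_cast
      module
    rw [j1.1, h1]
    refine le_of_eq_of_le (congrArg norm (by module)) ((est v rfl).1.trans ?_)
    refine mul_le_mul_of_nonneg_right ?_ (norm_nonneg v)
    rw [← mul_assoc]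
    refine mul_le_mul_of_nonneg_right ?_ hE
    linarith only [hL2, hM, hL3, mul_le_mul_of_nonneg_right hL2 hM, mul_nonneg hL3 hM, sq_nonneg (l * R)]
  · have h1 : DErr_a (q + y₀) (Jv v) = Complex.I * DErr_a (q + y₀) v := by
      simp only [DErr_a, zc_Jv, Finset.mul_sum, mul_left_comm]
    have h2 : DErr_p c (Jv v) = Complex.I • DErr_p c v := by
      simp only [DErr_p, zc_Jv, Finset.smul_sum, mul_smul]
    have h3 := (norm_add_le _ _).trans (add_le_add (est v rfl).2 (est (Jv v) (norm_Jv v)).2)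
    rw [j1.2, j2.2]
    refine le_of_eq_of_le (congrArg norm ?_) (h3.trans ?_)
    · generalize (DErr_a (q + y₀) (Jv v)).re = x
      rw [h1, h2]
      match_scalars
      · linear_combination (Real.pi * DErr_a (q + y₀) v) ^ 2 * (cut (nsq (q + y₀) / R ^ 2) : ℝ) *
          K * Complex.I_sq
      · linear_combination (-2) * (Real.pi * DErr_a (q + y₀) v) *
          (cut (nsq (q + y₀) / R ^ 2) : ℝ) * K * Complex.I_sq
    · rw [← add_mul, ← add_mul]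
      refine mul_le_mul_of_nonneg_right ?_ (sq_nonneg _)
      rw [← mul_assoc]
      refine mul_le_mul_of_nonneg_right ?_ hE
      linarith only [hL2, hM, mul_le_mul_of_nonneg_right hL2 hM, mul_nonneg hL3 hM, sq_nonneg (l * R)]

end Pool.Agent.Work.MP_bf98aa_gt.Th
end

-- merged part: Pool.Agent.Work.MP_bf98aa_gt.Th.DMain
section
-- merged part: Pool.Agent.Work.MP_bf98aa_gt.Th.DCmp
section
/-!
Small brackets: comparison with the flat model; maximal separated sets.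

PLAN. `Tm` is jointly smooth (`contDiff_mulB`, `contDiff_phiB`, `contDiff_pk`); `ContDiff.fderiv` (twice) shows that the value,
`fderiv` and `D2` at `0` are continuous in `(b, q, y₀, c)`; use uniform continuity on a compact set, or
`IsCompact.eventually_forall_of_forall_eventually` at `b = 0`.
`exists_net`: call a finite set `A ⊆ K` (`K` from `cocpt`) admissible if `1 ≤ ‖mul (-a') (γ • a)‖` whenever `a' ≠ a` or `γ ≠ 1`.
By uniform continuity of `(a, a') ↦ mul (-a') a` on `K × K` admissible sets are `ρ`-separated, so their cardinality is bounded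
(cover `K` by finitely many balls); take one of largest cardinality. If `x` were not covered, move it into `K` and add it
(`Lt.sep`, `neg_smul_mul`, `neg_mul_rev`, `norm_sg` give the symmetric conditions).
-/

set_option autoImplicit false

open scoped ContDiff Topology

namespace Pool.Agent.Work.MP_bf98aa_gt.Th

variable {S : Type} [Fintype S] {n' : ℕ}

theorem DCmp_unif {B P F : Type} [NormedAddCommGroup B] [TopologicalSpace P] [NormedAddCommGroup F]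
    {f : B × P → F} (hf : Continuous f) {K : Set P} (hK : IsCompact K) {δ : ℝ} (hδ : 0 < δ) :
    ∃ ε : ℝ, 0 < ε ∧ ∀ b : B, ‖b‖ ≤ ε → ∀ p ∈ K, ‖f (b, p) - f (0, p)‖ ≤ δ := by
  have hg : Continuous fun z : B × P => ‖f z - f (0, z.2)‖ :=
    (hf.sub (hf.comp (continuous_const.prodMk continuous_snd))).norm
  have h : ∀ᶠ b in 𝓝 (0 : B), ∀ p ∈ K, ‖f (b, p) - f (0, p)‖ < δ :=
    hK.eventually_forall_of_forall_eventually fun p _ =>
      hg.continuousAt.eventually_lt continuousAt_const (by simpa using hδ)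
  obtain ⟨ε, hε, h⟩ := Metric.eventually_nhds_iff.1 h
  refine ⟨ε / 2, half_pos hε, fun b hb p hp => (h ?_ p hp).le⟩
  rw [dist_zero_right]
  linarith only [hε, hb]

theorem DCmp_fd {P E F : Type} [NormedAddCommGroup P] [NormedSpace ℝ P] [NormedAddCommGroup E]
    [NormedSpace ℝ E] [NormedAddCommGroup F] [NormedSpace ℝ F] {f : P → E → F}
    (h : ContDiff ℝ ∞ fun p : P × E => f p.1 p.2) :
    ContDiff ℝ ∞ fun p : P × E => fderiv ℝ (f p.1) p.2 :=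
  ContDiff.fderiv (f := fun (p : P × E) (y : E) => f p.1 y) (m := ∞)
    (h.comp (contDiff_fst.fst.prodMk contDiff_snd)) contDiff_snd le_rfl

theorem contDiff_Tm (R : ℝ) :
    ContDiff ℝ ∞ fun p : ((Sp S →L[ℝ] Sp S →L[ℝ] Sp S) × Sp S × Sp S × Co S n') × Sp S =>
      Tm p.1.1 R p.1.2.1 p.1.2.2.1 p.1.2.2.2 p.2 := by
  have m1 := (contDiff_mulB (S := S)).comp (contDiff_fst.fst.prodMk
    (contDiff_fst.snd.fst.prodMk contDiff_fst.snd.snd.fst) :
    ContDiff ℝ ∞ fun p : ((Sp S →L[ℝ] Sp S →L[ℝ] Sp S) × Sp S × Sp S × Co S n') × Sp S =>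
      (p.1.1, p.1.2.1, p.1.2.2.1))
  have p1 := (contDiff_phiB (S := S)).comp (contDiff_fst.fst.prodMk
    (contDiff_fst.snd.fst.prodMk contDiff_fst.snd.snd.fst) :
    ContDiff ℝ ∞ fun p : ((Sp S →L[ℝ] Sp S →L[ℝ] Sp S) × Sp S × Sp S × Co S n') × Sp S =>
      (p.1.1, p.1.2.1, p.1.2.2.1))
  have m2 := (contDiff_mulB (S := S)).comp (contDiff_fst.fst.prodMk (m1.prodMk contDiff_snd))
  have p2 := (contDiff_phiB (S := S)).comp (contDiff_fst.fst.prodMk (m1.prodMk contDiff_snd))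
  have k := (contDiff_pk (S := S) (n' := n') R).comp (contDiff_fst.snd.snd.snd.prodMk m2)
  have e1 : ContDiff ℝ ∞
      fun p : ((Sp S →L[ℝ] Sp S →L[ℝ] Sp S) × Sp S × Sp S × Co S n') × Sp S =>
        ((Real.exp (Real.pi * nsq p.2 / 2) : ℝ) : ℂ) :=
    Complex.ofRealCLM.contDiff.comp
      ((contDiff_const.mul (contDiff_nsq.comp contDiff_snd)).div_const 2).exp
  exact (e1.mul (contDiff_ee.comp (p1.add p2).neg)).smul k

theorem DCmp_jet {B P E F : Type} [NormedAddCommGroup B] [NormedSpace ℝ B] [NormedAddCommGroup P]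
    [NormedSpace ℝ P] [NormedAddCommGroup E] [NormedSpace ℝ E] [NormedAddCommGroup F]
    [NormedSpace ℝ F] (f : B × P → E → F) (h0 : ContDiff ℝ ∞ fun p : (B × P) × E => f p.1 p.2)
    {K : Set P} (hK : IsCompact K) {δ : ℝ} (hδ : 0 < δ) :
    ∃ ε : ℝ, 0 < ε ∧ ∀ b : B, ‖b‖ ≤ ε → ∀ p ∈ K, ‖f (b, p) 0 - f (0, p) 0‖ ≤ δ ∧
      ‖fderiv ℝ (f (b, p)) 0 - fderiv ℝ (f (0, p)) 0‖ ≤ δ ∧
      ‖D2 (f (b, p)) 0 - D2 (f (0, p)) 0‖ ≤ δ := by
  have h1 := DCmp_fd h0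
  have h2 := DCmp_fd (f := fun p => fderiv ℝ (f p)) h1
  have z : Continuous fun p : B × P => (p, (0 : E)) := continuous_id.prodMk continuous_const
  obtain ⟨e0, he0, k0⟩ := DCmp_unif (h0.continuous.comp z) hK hδ
  obtain ⟨e1, he1, k1⟩ := DCmp_unif (h1.continuous.comp z) hK hδ
  obtain ⟨e2, he2, k2⟩ := DCmp_unif (h2.continuous.comp z) hK hδ
  refine ⟨min e0 (min e1 e2), lt_min he0 (lt_min he1 he2), fun b hb p hm => ?_⟩
  rw [le_min_iff, le_min_iff] at hb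
  exact ⟨k0 b hb.1 _ hm, k1 b hb.2.1 _ hm, k2 b hb.2.2 _ hm⟩

theorem cmp_Tm (S : Type) [Fintype S] (n' : ℕ) (R : ℝ) {δ : ℝ} (hδ : 0 < δ) :
    ∃ ε : ℝ, 0 < ε ∧ ∀ b : Sp S →L[ℝ] Sp S →L[ℝ] Sp S, ‖b‖ ≤ ε →
      ∀ (q y₀ : Sp S) (c : Co S n'), ‖q‖ ≤ 2 * R + 2 → ‖y₀‖ ≤ 1 → ‖c‖ ≤ 2 →
        ‖Tm b R q y₀ c 0 - Tm 0 R q y₀ c 0‖ ≤ δ ∧
        ‖fderiv ℝ (Tm b R q y₀ c) 0 - fderiv ℝ (Tm 0 R q y₀ c) 0‖ ≤ δ ∧
        ‖D2 (Tm b R q y₀ c) 0 - D2 (Tm 0 R q y₀ c) 0‖ ≤ δ := by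
  have hK : IsCompact (Metric.closedBall (0 : Sp S) (2 * R + 2) ×ˢ Metric.closedBall (0 : Sp S) 1 ×ˢ
      Metric.closedBall (0 : Co S n') 2) :=
    (isCompact_closedBall _ _).prod ((isCompact_closedBall _ _).prod (isCompact_closedBall _ _))
  obtain ⟨ε, hε, h⟩ := DCmp_jet (B := Sp S →L[ℝ] Sp S →L[ℝ] Sp S) (P := Sp S × Sp S × Co S n')
    (fun p => Tm p.1 R p.2.1 p.2.2.1 p.2.2.2) (contDiff_Tm R) hK hδ
  exact ⟨ε, hε, fun b hb q y₀ c hq hy hc => h b hb (q, y₀, c)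
    ⟨mem_closedBall_zero_iff.2 hq, mem_closedBall_zero_iff.2 hy, mem_closedBall_zero_iff.2 hc⟩⟩

theorem cmp_mul (S : Type) [Fintype S] (ρ : ℝ) {δ : ℝ} (hδ : 0 < δ) :
    ∃ ε : ℝ, 0 < ε ∧ ∀ b : Sp S →L[ℝ] Sp S →L[ℝ] Sp S, ‖b‖ ≤ ε →
      ∀ u v : Sp S, ‖u‖ ≤ ρ → ‖v‖ ≤ ρ → ‖mulB b u v - (u + v)‖ ≤ δ := by
  obtain ⟨ε, hε, h⟩ := DCmp_unif (contDiff_mulB (S := S)).continuous
    ((isCompact_closedBall (0 : Sp S) ρ).prod (isCompact_closedBall (0 : Sp S) ρ)) hδ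
  refine ⟨ε, hε, fun b hb u v hu hv => ?_⟩
  simpa [mulB] using h b hb (u, v) ⟨mem_closedBall_zero_iff.2 hu, mem_closedBall_zero_iff.2 hv⟩

theorem Nil.exists_net {G : Type} [DecidableEq S] [AddCommGroup G] [Fintype G] {D : Nil S G}
    (Λ : D.Lt) (hL : 2 ≤ Λ.L) : ∃ (N : ℕ) (p : Fin N → Sp S),
      (∀ x : Sp S, ∃ (γ : Λ.Gp) (v : Fin N), ‖D.mul (-p v) (γ • x)‖ < 1) ∧
      ∀ (v v' : Fin N) (γ : Λ.Gp), v' ≠ v ∨ γ ≠ 1 → 1 ≤ ‖D.mul (-p v') (γ • p v)‖ := by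
  by_contra hcon
  obtain ⟨K, hK, hc⟩ := (Nil.Lt.act Λ).cocpt
  have key : ∀ N : ℕ, ∃ p : Fin N → Sp S, (∀ v, p v ∈ K) ∧
      ∀ (v v' : Fin N) (γ : Λ.Gp), v' ≠ v ∨ γ ≠ 1 → 1 ≤ ‖D.mul (-p v') (γ • p v)‖ := by
    intro N
    induction N with
    | zero => exact ⟨Fin.elim0, fun v => v.elim0, fun v => v.elim0⟩
    | succ N ih =>
      obtain ⟨p, hp, hs⟩ := ih
      obtain ⟨x, hx⟩ : ∃ x : Sp S, ∀ (γ : Λ.Gp) (v : Fin N), 1 ≤ ‖D.mul (-p v) (γ • x)‖ := by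
        by_contra h
        push Not at h
        exact hcon ⟨N, p, h, hs⟩
      obtain ⟨g, hg⟩ := hc x
      have hy : ∀ (γ : Λ.Gp) (v : Fin N), 1 ≤ ‖D.mul (-p v) (γ • g • x)‖ := fun γ v => by
        rw [← mul_smul]
        exact hx _ v
      generalize g • x = y at hg hy
      refine ⟨Fin.cons y p, fun v => Fin.cases hg hp v, fun v v' γ => ?_⟩
      refine Fin.cases ?_ (fun w => ?_) v <;> refine Fin.cases ?_ (fun w' => ?_) v' <;>
        simp only [Fin.cons_zero, Fin.cons_succ] <;> intro h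
      · have := Nil.Lt.sep (h.resolve_left fun h => h rfl) y
        linarith only [hL, this]
      · exact hy γ w'
      · have h1 := hy γ⁻¹ w
        rw [← norm_neg, D.neg_mul_rev, neg_neg, ← D.norm_sg γ.g, ← Nil.Lt.neg_smul_mul,
          smul_inv_smul] at h1
        exact h1
      · exact hs w w' γ (h.imp_left fun h e => h (by rw [e]))
  have hf : Continuous fun z : Sp S × Sp S => D.mul (-z.2) (z.2 + z.1) :=
    D.contDiff_mul.continuous.comp (continuous_snd.neg.prodMk (continuous_snd.add continuous_fst))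
  obtain ⟨ε, hε, h⟩ := DCmp_unif hf hK one_half_pos
  obtain ⟨ρ, hρ, hK'⟩ := hK.isBounded.exists_pos_norm_le
  obtain ⟨N, hN⟩ := exists_nat_gt ((4 * (ε⁻¹ * ρ) + 4) ^ (2 * Fintype.card S))
  obtain ⟨p, hp, hs⟩ := key N
  have := card_sep Finset.univ (fun v => ε⁻¹ • p v) (by positivity : 0 ≤ ε⁻¹ * ρ)
    (fun v _ => by
      rw [norm_smul, Real.norm_of_nonneg (by positivity)]
      exact mul_le_mul_of_nonneg_left (hK' _ (hp v)) (by positivity))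
    (fun v _ v' _ hv => by
      rw [← smul_sub, norm_smul, Real.norm_of_nonneg (by positivity)]
      have h1 : ε < ‖p v - p v'‖ := by
        by_contra h1
        have h2 := h _ (not_lt.1 h1) _ (hp v')
        have h3 := hs v v' 1 (Or.inl hv.symm)
        simp only [add_sub_cancel, add_zero, D.neg_mul, sub_zero] at h2
        rw [one_smul] at h3
        linarith only [h3, h2]
      rw [← div_eq_inv_mul, le_div_iff₀ hε]
      linarith only [hε, h1])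
  rw [Finset.card_univ, Fintype.card_fin] at this
  linarith only [hN, this]

end Pool.Agent.Work.MP_bf98aa_gt.Th
end

-- merged part: Pool.Agent.Work.MP_bf98aa_gt.Th.DMain
section
/-!
Existence of an approximately holomorphic transverse section.

PLAN. Let `η₀ = 1 / (C R ^ N)` (`flat_lll`), `M = (8R+12) ^ (2m)` (`card_sep`), `err = M (C' R ^ N' exp (-π R² / 2) + 2 δ')`.
Choose `R` with `M C' R ^ N' exp (-π R² / 2) ≤ κ η₀` (polynomial times Gaussian tends to zero), `κ` small in terms of `θ, n'`;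
`δ' = κ η₀ / M`; `ε` from `cmp_Tm`, `cmp_mul`; `k` with `‖br‖ / k ≤ ε` and `A k > 4R + 4` (`exists_lt`); `p` from `exists_net`,
`Nb` from `exists_Nb`, `c` from `flat_lll` with `la v i = ee (-tq p v i)`. `don_of_cells` reduces to the points
`x = mul (p v) y₀` (use `hx_smul`: `hx s x = ee (-jj) • hx s (γ • x) ∘ sg γ.g`, `Jv_sg`, `norm_sg`; `γ • x = mul (p v) (mul (-p v) (γ • x))`).
There `hx_sec` holds near `y = 0` (`Filter.EventuallyEq.fderiv`), so the jets are sums of the jets of `Tm`. For `trans` with `η = η₀ / 4`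
apply the flat statement to `conj μ • u` (`μ` the common unit factor) and take `v` supported on the slot `s` with `zc v s` a unit
number that makes `cip` real and positive.
-/

set_option autoImplicit false

open scoped ContDiff Topology

namespace Pool.Agent.Work.MP_bf98aa_gt.Th

open scoped ComplexConjugate

theorem DMain_fd {E F I : Type} [NormedAddCommGroup E] [NormedSpace ℝ E] [NormedAddCommGroup F]
    [NormedSpace ℝ F] [Module ℂ F] [SMulCommClass ℝ ℂ F] [ContinuousConstSMul ℂ F] (A : Finset I)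
    (la : I → ℂ) {T : I → E → F} (hT : ∀ i, Differentiable ℝ (T i)) :
    fderiv ℝ (fun y => ∑ i ∈ A, la i • T i y) = fun y => ∑ i ∈ A, la i • fderiv ℝ (T i) y :=
  funext fun y => (HasFDerivAt.fun_sum fun i _ => (hT i y).hasFDerivAt.fun_const_smul (la i)).fderiv

theorem DMain_dd {E F : Type} [NormedAddCommGroup E] [NormedSpace ℝ E] [NormedAddCommGroup F]
    [NormedSpace ℝ F] {f : E → F} (hf : ContDiff ℝ ∞ f) : Differentiable ℝ (fderiv ℝ f) :=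
  (hf.fderiv_right (m := ∞) le_rfl).differentiable (by simp)

theorem DMain_sum {F I : Type} [NormedAddCommGroup F] [NormedSpace ℂ F] (A : Finset I)
    {la : I → ℂ} (hl : ∀ i, ‖la i‖ = 1) {x : I → F} {e M : ℝ} (he : 0 ≤ e) (hM : (A.card : ℝ) ≤ M)
    (hx : ∀ i ∈ A, ‖x i‖ ≤ e) : ‖∑ i ∈ A, la i • x i‖ ≤ M * e := by
  refine (norm_sum_le _ _).trans ((Finset.sum_le_card_nsmul _ _ e fun i hi => ?_).trans ?_)
  · rw [norm_smul, hl, one_mul]
    exact hx i hi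
  · rw [nsmul_eq_mul]
    exact mul_le_mul_of_nonneg_right hM he

theorem DMain_R (K : ℝ) (N j : ℕ) {κ : ℝ} (hK : 0 ≤ K) (hκ : 0 < κ) (R₀ : ℝ) : ∃ R : ℝ, R₀ ≤ R ∧
    K * R ^ N * (4 * (2 * R + 2) + 4) ^ j * Real.exp (-(Real.pi * R ^ 2 / 2)) ≤ κ := by
  have h := (Real.tendsto_pow_mul_exp_neg_atTop_nhds_zero (N + j)).const_mul (K * 20 ^ j)
  rw [mul_zero] at h
  obtain ⟨R, h1, h2, h3⟩ := ((h.eventually (ge_mem_nhds hκ)).and
    ((Filter.eventually_ge_atTop R₀).and (Filter.eventually_ge_atTop 1))).exists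
  refine ⟨R, h2, le_trans ?_ h1⟩
  have h4 : R ≤ Real.pi * R ^ 2 / 2 := by linarith only [h3, Real.pi_gt_three, mul_nonneg_of_nonpos_of_nonpos (Mathlib.Tactic.Linarith.sub_nonpos_of_le (sq_nonneg ((1 : ℝ) * R))) (le_of_lt (Mathlib.Tactic.Linarith.sub_neg_of_lt Real.pi_gt_three)), mul_nonneg_of_nonpos_of_nonpos (Mathlib.Tactic.Linarith.sub_nonpos_of_le h3) (Mathlib.Tactic.Linarith.sub_nonpos_of_le h3)]
  have h5 : K * 20 ^ j * (R ^ (N + j) * Real.exp (-R)) =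
      K * R ^ N * (20 * R) ^ j * Real.exp (-R) := by ring
  rw [h5]
  gcongr
  linarith only [h3]

section
variable {S : Type} [Fintype S] {n' : ℕ}

/-- The pointwise conditions on the jet at the origin. -/
def DMain_Pt (η δ : ℝ) (f : Sp S → Cn n') : Prop :=
  (‖f 0‖ < η → ∀ u : Cn n', ∃ v : Sp S, ‖v‖ ≤ 1 ∧ η * ‖u‖ ≤ rip u (fderiv ℝ f 0 v)) ∧
    (∀ v, ‖fderiv ℝ f 0 (Jv v) - Complex.I • fderiv ℝ f 0 v‖ ≤ δ * ‖v‖) ∧
    ∀ v, ‖D2 f 0 v v + D2 f 0 (Jv v) (Jv v)‖ ≤ δ * ‖v‖ ^ 2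

theorem DMain_congr {η δ : ℝ} {f g : Sp S → Cn n'} (h : DMain_Pt η δ f) (e : g =ᶠ[𝓝 0] f) :
    DMain_Pt η δ g := by
  unfold DMain_Pt D2 at h ⊢
  rwa [e.self_of_nhds, e.fderiv_eq, e.fderiv.fderiv_eq]

theorem DMain_cip (u w : Cn n') (μ : ℂ) : cip u (μ • w) = μ * cip u w := by
  simp only [cip, Finset.mul_sum, Pi.smul_apply, smul_eq_mul]
  exact Finset.sum_congr rfl fun l _ => by ring

theorem DMain_cip' (u w : Cn n') (μ : ℂ) : cip (conj μ • u) w = μ * cip u w := by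
  simp only [cip, Finset.mul_sum, Pi.smul_apply, smul_eq_mul, map_mul, Complex.conj_conj]
  exact Finset.sum_congr rfl fun l _ => by ring

theorem DMain_cip_add (u w w' : Cn n') : cip u (w + w') = cip u w + cip u w' := by
  simp only [cip, Pi.add_apply, mul_add, Finset.sum_add_distrib]

theorem DMain_smul {η δ : ℝ} {f : Sp S → Cn n'} (h : DMain_Pt η δ f) (hf : ContDiff ℝ ∞ f)
    {μ : ℂ} (hμ : ‖μ‖ = 1) : DMain_Pt η δ fun y => μ • f y := by
  have h1 : fderiv ℝ (fun y => μ • f y) = fun y => μ • fderiv ℝ f y := funext fun y =>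
    ((hf.differentiable (by simp) y).hasFDerivAt.fun_const_smul μ).fderiv
  have h2 : D2 (fun y => μ • f y) 0 = μ • D2 f 0 := by
    rw [D2, h1]
    exact ((DMain_dd hf 0).hasFDerivAt.fun_const_smul μ).fderiv
  refine ⟨fun h0 u => ?_, fun v => ?_, fun v => ?_⟩
  · rw [norm_smul, hμ, one_mul] at h0
    obtain ⟨v, hv, hu⟩ := h.1 h0 (conj μ • u)
    rw [norm_smul, Complex.norm_conj, hμ, one_mul, rip, DMain_cip'] at hu
    exact ⟨v, hv, by rwa [h1, smul_apply, rip, DMain_cip]⟩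
  · rw [h1, smul_apply, smul_apply, smul_comm, ← smul_sub, norm_smul, hμ, one_mul]
    exact h.2.1 v
  · rw [h2, smul_apply, smul_apply, smul_apply, smul_apply, ← smul_add, norm_smul, hμ, one_mul]
    exact h.2.2 v

theorem DMain_comp {η δ : ℝ} {f : Sp S → Cn n'} (h : DMain_Pt η δ f) (hf : ContDiff ℝ ∞ f)
    (σ : Sp S →L[ℝ] Sp S) (h1 : ∀ v, σ (σ v) = v) (h2 : ∀ v, ‖σ v‖ = ‖v‖)
    (h3 : ∀ v, Jv (σ v) = σ (Jv v)) : DMain_Pt η δ fun y => f (σ y) := by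
  have h4 : fderiv ℝ (fun y => f (σ y)) = fun y => (fderiv ℝ f (σ y)).comp σ := funext fun y =>
    ((hf.differentiable (by simp) (σ y)).hasFDerivAt.comp y σ.hasFDerivAt).fderiv
  have h5 : ∀ v w, D2 (fun y => f (σ y)) 0 v w = D2 f 0 (σ v) (σ w) := fun v w => by
    have h6 : HasFDerivAt (fun y => fderiv ℝ f (σ y)) ((D2 f (σ 0)).comp σ) 0 :=
      (DMain_dd hf (σ 0)).hasFDerivAt.comp 0 σ.hasFDerivAt
    rw [D2, h4, (h6.clm_comp (hasFDerivAt_const σ 0)).fderiv]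
    simp
  refine ⟨fun h0 u => ?_, fun v => ?_, fun v => ?_⟩
  · obtain ⟨v, hv, hu⟩ := h.1 (by simpa only [map_zero] using h0) u
    exact ⟨σ v, by rwa [h2], by rwa [h4, ContinuousLinearMap.comp_apply, h1, map_zero]⟩
  · rw [h4, ContinuousLinearMap.comp_apply, ContinuousLinearMap.comp_apply, map_zero, ← h3, ← h2 v]
    exact h.2.1 _
  · rw [h5, h5, ← h3, ← h2 v]
    exact h.2.2 _

theorem DMain_unit [DecidableEq S] (s : S) (z : ℂ) : ∃ v : Sp S, ‖v‖ ≤ 1 ∧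
    zc v s * z = ‖z‖ ∧ ∀ s', s' ≠ s → zc v s' = 0 := by
  obtain ⟨ζ, h1, h2⟩ : ∃ ζ : ℂ, ‖ζ‖ = 1 ∧ ζ * z = ‖z‖ := by
    refine ⟨Complex.exp (-(z.arg * Complex.I)), by simp [Complex.norm_exp], ?_⟩
    nth_rewrite 2 [← Complex.norm_mul_exp_arg_mul_I z]
    rw [mul_left_comm, ← Complex.exp_add, neg_add_cancel, Complex.exp_zero, mul_one]
  refine ⟨fun i => if i.1 = s then (if i.2 = 0 then ζ.re else ζ.im) else 0, ?_, ?_,
    fun s' hs => ?_⟩
  · refine (pi_norm_le_iff_of_nonneg zero_le_one).2 fun i => ?_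
    split_ifs
    · exact h1 ▸ Complex.abs_re_le_norm ζ
    · exact h1 ▸ Complex.abs_im_le_norm ζ
    · simp
  · rw [← h2]
    simp [zc]
  · apply Complex.ext <;> simp [zc, hs]

theorem DMain_flat [DecidableEq S] {f : Sp S → Cn n'} {a : Cn n'} {B : S → Cn n'} {η e : ℝ}
    (he : 0 ≤ e) (hη : (n' + 1) * e ≤ η / 2) (h0 : ‖f 0 - a‖ ≤ e)
    (h1 : ∀ v, ‖fderiv ℝ f 0 v - ∑ s, zc v s • B s‖ ≤ e * ‖v‖)
    (h2 : ∀ v, ‖D2 f 0 v v + D2 f 0 (Jv v) (Jv v)‖ ≤ e * ‖v‖ ^ 2)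
    (h3 : ‖a‖ < η → ∀ u : Cn n', ∃ s, η * ‖u‖ ≤ ‖cip u (B s)‖) : DMain_Pt (η / 2) (2 * e) f := by
  have hn : 0 ≤ (n' : ℝ) * e := by positivity
  refine ⟨fun h u => ?_, fun v => ?_, fun v => (h2 v).trans (by linarith only [he, sq_nonneg ‖v‖, mul_nonneg_of_nonpos_of_nonpos (Mathlib.Tactic.Linarith.sub_nonpos_of_le (sq_nonneg ‖v‖)) (Mathlib.Tactic.Linarith.sub_nonpos_of_le he)])⟩
  · have h4 := norm_sub_norm_le a (f 0)
    rw [norm_sub_rev] at h4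
    obtain ⟨s, hs⟩ := h3 (by linarith only [hη, h0, hn, h, h4]) u
    obtain ⟨v, hv, h5, h6⟩ := DMain_unit s (cip u (B s))
    refine ⟨v, hv, ?_⟩
    have h7 := h1 v
    rw [Finset.sum_eq_single s (fun s' _ e => by rw [h6 s' e, zero_smul]) (by simp)] at h7
    have h8 := norm_cip_le u (fderiv ℝ f 0 v - zc v s • B s)
    have h9 := (abs_le.1 (Complex.abs_re_le_norm (cip u (fderiv ℝ f 0 v - zc v s • B s)))).1
    have h10 : ‖u‖ * ‖fderiv ℝ f 0 v - zc v s • B s‖ ≤ ‖u‖ * e :=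
      mul_le_mul_of_nonneg_left (h7.trans (mul_le_of_le_one_right he hv)) (norm_nonneg _)
    have h11 : (n' : ℝ) * (‖u‖ * e) ≤ η / 2 * ‖u‖ := by linarith only [he, hη, norm_nonneg u, mul_nonneg_of_nonpos_of_nonpos (Mathlib.Tactic.Linarith.sub_nonpos_of_le he) (Mathlib.Tactic.Linarith.sub_nonpos_of_le (norm_nonneg u)), mul_nonneg_of_nonpos_of_nonpos (Mathlib.Tactic.Linarith.sub_nonpos_of_le hη) (Mathlib.Tactic.Linarith.sub_nonpos_of_le (norm_nonneg u))]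
    have h12 := mul_le_mul_of_nonneg_left h10 (Nat.cast_nonneg (α := ℝ) n')
    rw [← sub_add_cancel (fderiv ℝ f 0 v) (zc v s • B s), rip, DMain_cip_add, DMain_cip, h5,
      Complex.add_re, Complex.ofReal_re]
    linarith only [hs, h8, h9, h11, h12]
  · have h4 : fderiv ℝ f 0 (Jv v) - Complex.I • fderiv ℝ f 0 v =
        (fderiv ℝ f 0 (Jv v) - ∑ s, zc (Jv v) s • B s) -
          Complex.I • (fderiv ℝ f 0 v - ∑ s, zc v s • B s) := by
      simp only [zc_Jv, mul_smul, ← Finset.smul_sum, smul_sub]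
      abel
    have h5 := h1 (Jv v)
    rw [norm_Jv] at h5
    rw [h4]
    refine (norm_sub_le _ _).trans ?_
    rw [norm_smul, Complex.norm_I, one_mul]
    linarith only [h5, h1, h1 v]

theorem DMain_cell [DecidableEq S] {I : Type} (A : Finset I) {la : I → ℂ} (hl : ∀ i, ‖la i‖ = 1)
    {T : I → Sp S → Cn n'} (hT : ∀ i, ContDiff ℝ ∞ (T i)) {a : I → Cn n'} {B : I → S → Cn n'}
    {η e M : ℝ} (he : 0 ≤ e) (hM : (A.card : ℝ) ≤ M) (hη : (n' + 1) * (M * e) ≤ η / 2)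
    (h0 : ∀ i ∈ A, ‖T i 0 - a i‖ ≤ e)
    (h1 : ∀ i ∈ A, ∀ v, ‖fderiv ℝ (T i) 0 v - ∑ s, zc v s • B i s‖ ≤ e * ‖v‖)
    (h2 : ∀ i ∈ A, ∀ v, ‖D2 (T i) 0 v v + D2 (T i) 0 (Jv v) (Jv v)‖ ≤ e * ‖v‖ ^ 2)
    (h3 : ‖∑ i ∈ A, la i • a i‖ < η → ∀ u : Cn n', ∃ s,
      η * ‖u‖ ≤ ‖cip u (∑ i ∈ A, la i • B i s)‖) :
    DMain_Pt (η / 2) (2 * (M * e)) fun y => ∑ i ∈ A, la i • T i y := by
  have h4 := DMain_fd A la fun i => (hT i).differentiable (by simp)
  have h5 : D2 (fun y => ∑ i ∈ A, la i • T i y) 0 = ∑ i ∈ A, la i • D2 (T i) 0 := by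
    rw [D2, h4, DMain_fd A la fun i => DMain_dd (hT i)]
    rfl
  refine DMain_flat (mul_nonneg ((Nat.cast_nonneg _).trans hM) he) hη ?_ (fun v => ?_)
    (fun v => ?_) h3
  · simpa only [smul_sub, Finset.sum_sub_distrib] using DMain_sum A hl he hM h0
  · have h6 := DMain_sum A hl (mul_nonneg he (norm_nonneg v)) hM fun i hi => h1 i hi v
    simp only [smul_sub, Finset.sum_sub_distrib, Finset.smul_sum] at h6
    rw [Finset.sum_comm] at h6
    simpa only [h4, sum_apply, smul_apply, Finset.smul_sum, mul_assoc, smul_comm (zc v _)] using h6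
  · have h6 := DMain_sum A hl (mul_nonneg he (sq_nonneg ‖v‖)) hM fun i hi => h2 i hi v
    simpa only [h5, sum_apply, smul_apply, smul_add, Finset.sum_add_distrib, mul_assoc] using h6

theorem DMain_Tm (b : Sp S →L[ℝ] Sp S →L[ℝ] Sp S) (R : ℝ) (q y₀ : Sp S) (c : Co S n') :
    ContDiff ℝ ∞ (Tm b R q y₀ c) :=
  ContDiff.comp (g := fun p : ((Sp S →L[ℝ] Sp S →L[ℝ] Sp S) × Sp S × Sp S × Co S n') × Sp S =>
    Tm p.1.1 R p.1.2.1 p.1.2.2.1 p.1.2.2.2 p.2) (f := fun y => ((b, q, y₀, c), y))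
    (contDiff_Tm R) (contDiff_const.prodMk contDiff_id)

theorem DMain_term {f g : Sp S → Cn n'} {B : S → Cn n'} {E δ : ℝ}
    (h1 : ‖fderiv ℝ f 0 - fderiv ℝ g 0‖ ≤ δ) (h2 : ‖D2 f 0 - D2 g 0‖ ≤ δ) (v : Sp S)
    (h : ‖fderiv ℝ g 0 v - ∑ s, zc v s • B s‖ ≤ E * ‖v‖ ∧
      ‖D2 g 0 v v + D2 g 0 (Jv v) (Jv v)‖ ≤ E * ‖v‖ ^ 2) :
    ‖fderiv ℝ f 0 v - ∑ s, zc v s • B s‖ ≤ (E + 2 * δ) * ‖v‖ ∧
      ‖D2 f 0 v v + D2 f 0 (Jv v) (Jv v)‖ ≤ (E + 2 * δ) * ‖v‖ ^ 2 := by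
  have h0 : 0 ≤ δ * ‖v‖ := mul_nonneg ((norm_nonneg _).trans h1) (norm_nonneg _)
  constructor
  · have h3 := (fderiv ℝ f 0 - fderiv ℝ g 0).le_of_opNorm_le h1 v
    have h4 := norm_sub_le_norm_sub_add_norm_sub (fderiv ℝ f 0 v) (fderiv ℝ g 0 v)
      (∑ s, zc v s • B s)
    rw [sub_apply] at h3
    linarith only [h, h0, h3, h4, h.1]
  · have h3 : ∀ w, ‖(D2 f 0 - D2 g 0) w w‖ ≤ δ * ‖w‖ ^ 2 := fun w => by
      rw [sq, ← mul_assoc]
      exact ContinuousLinearMap.le_of_opNorm_le _ ((D2 f 0 - D2 g 0).le_of_opNorm_le h2 w) w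
    have h4 : D2 f 0 v v + D2 f 0 (Jv v) (Jv v) = (D2 g 0 v v + D2 g 0 (Jv v) (Jv v)) +
        ((D2 f 0 - D2 g 0) v v + (D2 f 0 - D2 g 0) (Jv v) (Jv v)) := by
      simp only [sub_apply]
      abel
    have h5 := h3 (Jv v)
    rw [norm_Jv] at h5
    rw [h4]
    refine (norm_add_le _ _).trans ?_
    have h6 := norm_add_le ((D2 f 0 - D2 g 0) v v) ((D2 f 0 - D2 g 0) (Jv v) (Jv v))
    linarith only [h, h5, h6, h3, h.2, h3 v]

end

namespace Nil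

variable {S G : Type} [Fintype S] [DecidableEq S] [AddCommGroup G] [Fintype G]

theorem don_of_cells {D : Nil S G} {Λ : D.Lt} {n' : ℕ} {s : Sp S → Cn n'} {η δ : ℝ}
    (hs : ContDiff ℝ ∞ s) (ha : ∀ (γ : Λ.Gp) (x : Sp S), s (γ • x) = ee (Lt.jj γ x) • s x)
    (h : ∀ x : Sp S, ∃ γ : Λ.Gp,
      (‖s (γ • x)‖ < η → ∀ u : Cn n', ∃ v : Sp S, ‖v‖ ≤ 1 ∧
        η * ‖u‖ ≤ rip u (fderiv ℝ (D.hx s (γ • x)) 0 v)) ∧
      (∀ v, ‖fderiv ℝ (D.hx s (γ • x)) 0 (Jv v) - Complex.I • fderiv ℝ (D.hx s (γ • x)) 0 v‖ ≤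
        δ * ‖v‖) ∧
      ∀ v, ‖D2 (D.hx s (γ • x)) 0 v v + D2 (D.hx s (γ • x)) 0 (Jv v) (Jv v)‖ ≤ δ * ‖v‖ ^ 2) :
    Don Λ s η δ := by
  have h1 : ∀ x, ContDiff ℝ ∞ (D.hx s x) := fun x =>
    ContDiff.comp (g := fun p : Sp S × Sp S => D.hx s p.1 p.2) (f := fun y => (x, y))
      (contDiff_hx hs) (contDiff_const.prodMk contDiff_id)
  have h2 : ∀ x, DMain_Pt η δ (D.hx s x) := fun x => by
    obtain ⟨γ, hγ⟩ := h x
    rw [← hx_zero (D := D) s (γ • x)] at hγ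
    refine DMain_congr (DMain_smul (DMain_comp hγ (h1 _) (D.sg γ.g) (D.sg_sg _) (D.norm_sg _)
      (D.Jv_sg _)) ((h1 _).comp (D.sg γ.g).contDiff) (norm_ee (-Lt.jj γ x)))
      (Filter.Eventually.of_forall fun y => ?_)
    simp only [hx_smul ha, smul_smul, ← ee_add, neg_add_cancel, ee_zero, one_smul]
  exact ⟨hs, ha, fun x hx => (h2 x).1 (by rwa [hx_zero]), fun x => (h2 x).2.1,
    fun x => (h2 x).2.2⟩

theorem don_main [Nonempty S] (D : Nil S G) (n' : ℕ) {θ : ℝ} (hθ : 0 < θ) :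
    ∃ k : ℕ, 1 ≤ k ∧ ∃ (Λ : (D.scale k).Lt) (s : Sp S → Cn n') (η δ : ℝ),
      0 < η ∧ 0 ≤ δ ∧ δ ≤ θ * η ∧ Don Λ s η δ := by
  classical
  obtain ⟨C, N, hC, hflat⟩ := flat_lll S n'
  obtain ⟨C', N', hC', herr⟩ := flat_err S n'
  obtain ⟨κ, hκ, hκ1, hκ2⟩ : ∃ κ : ℝ, 0 < κ ∧ κ ≤ θ / 4 ∧ (n' + 1) * κ ≤ 1 / 2 :=
    ⟨min (θ / 4) (1 / 2 / (n' + 1)), by positivity, min_le_left _ _, by
      rw [mul_comm, ← le_div_iff₀ (by positivity)]
      exact min_le_right _ _⟩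
  obtain ⟨R, hR, hE⟩ := DMain_R (2 * C * C') (N + N') (2 * Fintype.card S) (by positivity) hκ
    (2 * Fintype.card S + 1)
  have hR1 : 1 ≤ R := le_trans (le_add_of_nonneg_left (by positivity)) hR
  have hR0 : 0 < R := by linarith only [hR]
  obtain ⟨M, hM⟩ : ∃ M : ℝ, M = (4 * (2 * R + 2) + 4) ^ (2 * Fintype.card S) := ⟨_, rfl⟩
  obtain ⟨η, hη⟩ : ∃ η : ℝ, η = 1 / (C * R ^ N) := ⟨_, rfl⟩
  obtain ⟨E, hE'⟩ : ∃ E : ℝ, E = C' * R ^ N' * Real.exp (-(Real.pi * R ^ 2 / 2)) := ⟨_, rfl⟩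
  have hM0 : 0 < M := by rw [hM]; positivity
  have hη0 : 0 < η := by rw [hη]; positivity
  have hE0 : 0 < E := by rw [hE']; positivity
  have hδ : 0 < κ * η / (4 * M) := by positivity
  have hME : M * (E + 2 * (κ * η / (4 * M))) ≤ κ * η := by
    have h1 : 2 * (M * E) ≤ κ * η := by
      rw [hη, mul_one_div, le_div_iff₀ (by positivity)]
      refine le_trans (le_of_eq ?_) hE
      rw [hM, hE']
      ring
    have h2 : M * (2 * (κ * η / (4 * M))) = κ * η / 2 := by field_simp; norm_num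
    linarith only [h1, h2, mul_add M E (2 * (κ * η / (4 * M)))]
  obtain ⟨ε₁, hε₁, hT⟩ := cmp_Tm S n' R hδ
  obtain ⟨ε₂, hε₂, hmul⟩ := cmp_mul S (4 * R + 10) (δ := 1 / 4) (by norm_num)
  obtain ⟨A, hA, hΛ⟩ := D.exists_lt
  obtain ⟨k, hk⟩ := exists_nat_gt (max (4 * R + 4) (‖D.br‖ / min ε₁ ε₂))
  have hk1 : 4 * R + 4 < k := (le_max_left _ _).trans_lt hk
  have hk0 : (0 : ℝ) < k := by linarith only [hR, hk1]
  have hk2 : 1 ≤ k := Nat.cast_pos.1 hk0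
  have hb : ‖(D.scale k).br‖ ≤ min ε₁ ε₂ := by
    have h1 := (div_lt_iff₀ (lt_min hε₁ hε₂)).1 ((le_max_right _ _).trans_lt hk)
    refine (ContinuousLinearMap.opNorm_smul_le ((k : ℝ))⁻¹ D.br).trans ?_
    rw [norm_inv, Real.norm_natCast, inv_mul_le_iff₀ hk0]
    exact h1.le
  obtain ⟨Λ, hL⟩ := hΛ k hk2
  have hL1 : 4 * R + 4 < Λ.L := by
    have : (1 : ℝ) ≤ A := Nat.one_le_cast.2 hA
    rw [hL]
    linarith only [hk1, this, mul_nonneg_of_nonpos_of_nonpos (Mathlib.Tactic.Linarith.sub_nonpos_of_le (Mathlib.Tactic.Linarith.natCast_nonneg ℝ k)) (Mathlib.Tactic.Linarith.sub_nonpos_of_le this)]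
  have hm : ∀ u v : Sp S, ‖u‖ ≤ 4 * R + 10 → ‖v‖ ≤ 4 * R + 10 →
      ‖(D.scale k).mul u v - (u + v)‖ ≤ 1 / 4 := hmul _ (hb.trans (min_le_right _ _))
  obtain ⟨N₀, p, hcov, hsep⟩ := exists_net Λ (by linarith only [hR, hL1])
  obtain ⟨Nb, hNb⟩ := exists_Nb Λ p (2 * R + 2)
  have hq : ∀ v, ∀ i ∈ Nb v, ‖qq p v i‖ ≤ 2 * R + 2 := fun v i hi => (hNb v i).1 hi
  have hq' : ∀ v, ∀ i ∈ Nb v, ∀ j ∈ Nb v, i ≠ j → 1 / 2 ≤ ‖qq p v i - qq p v j‖ :=
    fun v i hi j hj => qq_sep hm hR0 hsep v (hq v i hi) (hq v j hj)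
  have hε : ∀ (i : Fin N₀ × Λ.Gp) (s : S), |sgn ((D.scale k).ch s i.2.g)| = 1 := fun i s => by
    unfold sgn
    split <;> simp
  obtain ⟨c, hc, hcJ⟩ := hflat R hR (Fin N₀) (Fin N₀ × Λ.Gp) Nb Prod.fst (qq p)
    (fun v i => ee (-tq p v i)) (fun i s => sgn ((D.scale k).ch s i.2.g)) hq hq'
    (fun _ _ => norm_ee _) hε
    (fun v => ⟨(v, 1), (hNb _ _).2 (by rw [qq_self, norm_zero]; linarith only [hR]), rfl, qq_self v, by
      rintro ⟨v', γ⟩ hj rfl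
      rw [qq_unique hL1 _ (hq _ _ hj)]⟩)
    (by
      rintro v _ ⟨⟨v', γ⟩, hi, rfl⟩
      exact ⟨(v, γ⁻¹), (hNb _ _).2 (by rw [norm_qq_symm]; exact hq _ _ hi), rfl⟩)
  rw [← hη] at hcJ
  refine ⟨k, hk2, Λ, sec Λ p c R, η / 2, 2 * (M * (E + 2 * (κ * η / (4 * M)))), by positivity,
    by positivity, by linarith only [hME, hκ1, hη0, mul_nonneg_of_nonpos_of_nonpos (Mathlib.Tactic.Linarith.sub_nonpos_of_le hκ1) (le_of_lt (Mathlib.Tactic.Linarith.sub_neg_of_lt hη0))], don_of_cells (sec_smooth hR0 c) (sec_auto c) fun x => ?_⟩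
  obtain ⟨γ, v, hy⟩ := hcov x
  refine ⟨γ, ?_⟩
  rw [← hx_zero (D := D.scale k) (sec Λ p c R) (γ • x), ← (D.scale k).mul_neg_cancel (p v) (γ • x)]
  generalize (D.scale k).mul (-p v) (γ • x) = y₀ at hy
  have hs : ∀ i : Fin N₀ × Λ.Gp, ContDiff ℝ ∞ (Tm (D.scale k).br R (qq p v i) y₀
      (csg (fun s => sgn ((D.scale k).ch s i.2.g)) (c i.1))) := fun i =>
    DMain_Tm _ R _ _ _
  have hc' : ∀ i : Fin N₀ × Λ.Gp, ‖csg (fun s => sgn ((D.scale k).ch s i.2.g)) (c i.1)‖ ≤ 2 :=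
    fun i => by rw [norm_csg (hε i)]; exact hc _
  have h1 := fun i hi => hT _ (hb.trans (min_le_left _ _)) _ y₀ _ (hq v i hi) hy.le (hc' i)
  have h2 := fun i hi w => DMain_term (h1 i hi).2.1 (h1 i hi).2.2 w
    (herr R hR1 _ y₀ _ (hq v i hi) hy.le (hc' i) w)
  rw [← hE'] at h2
  refine DMain_congr (DMain_smul (DMain_cell (Nb v) (fun i => norm_ee (-tq p v i)) hs
    (by positivity) (hM ▸ card_sep (Nb v) (qq p v) (by positivity) (hq v) (hq' v)) (by linarith only [hME, hκ2, hη0, mul_nonneg_of_nonpos_of_nonpos (Mathlib.Tactic.Linarith.sub_nonpos_of_le (Mathlib.Tactic.Linarith.natCast_nonneg ℝ n')) (Mathlib.Tactic.Linarith.sub_nonpos_of_le hME), mul_nonneg_of_nonpos_of_nonpos (Mathlib.Tactic.Linarith.sub_nonpos_of_le hκ2) (le_of_lt (Mathlib.Tactic.Linarith.sub_neg_of_lt hη0))])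
    (fun i hi => ?_) (fun i hi w => (h2 i hi w).1) (fun i hi w => (h2 i hi w).2)
    (hcJ v y₀ hy.le)) (ContDiff.sum fun i _ => (hs i).const_smul _)
    (norm_ee ((D.scale k).phi (p v) y₀))) ?_
  · rw [← Tm_flat_zero]
    exact (h1 i hi).1.trans (by linarith only [hE0, hδ])
  · filter_upwards [Metric.ball_mem_nhds 0 (by norm_num : (0 : ℝ) < 1 / 4)] with y hy'
    exact hx_sec hR1 hm c v (hNb v) hy.le (mem_ball_zero_iff.1 hy')

end Nil

end Pool.Agent.Work.MP_bf98aa_gt.Th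
end
end
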