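import Pool.Agent.Work.MP_bf98aa_gt.Th.IPf
import Pool.Agent.Work.MP_bf98aa_gt.Th.FMV

-- merged part: Pool.Agent.Work.MP_bf98aa_gt.Th.APf
section
-- merged part: Pool.Agent.Work.MP_bf98aa_gt.Th.ADefs
section
/-!
Working definitions, part 4: the explicit Lie algebra.
-/

set_option autoImplicit false

namespace Pool.Agent.Work.MP_bf98aa_gt.Th

/-- The area form of two coordinates. -/
def wd {I : Type} (a b : I) (u v : I → ℝ) : ℝ := u a * v b - u b * v a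

/-- A coordinate vector. -/
def ev {I : Type} [DecidableEq I] (i : I) : I → ℝ := Pi.single i 1

/-- The elementary symmetric function of a finite family. -/
noncomputable def es {S : Type} [Fintype S] (n : ℕ) (f : S → ℂ) : ℂ :=
  ∑ t ∈ Finset.powersetCard n Finset.univ, ∏ s ∈ t, f s

/-- The bracket of the gadget. -/
noncomputable def gbf (Q : ℝ) (u v : Sp (Fin 7)) : Sp (Fin 7) := fun i =>
  ![![0,
      (-1 / 2) * wd (0, 0) (4, 1) u v +
      (1 / 2 * Q) * wd (1, 0) (4, 1) u v +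
      (2 + 2 * Q ^ 2) * wd (2, 0) (5, 1) u v +
      (-8 * Q ^ 2 - 8 * Q ^ 4) * wd (2, 0) (6, 0) u v +
      (2 + 6 * Q ^ 2) * wd (2, 0) (6, 1) u v +
      (-12 * Q - 120 * Q ^ 3 - 108 * Q ^ 5) * wd (3, 0) (5, 0) u v +
      (4 * Q + 16 * Q ^ 3 + 12 * Q ^ 5) * wd (3, 0) (6, 0) u v +
      (4 * Q) * wd (3, 0) (6, 1) u v],
    ![0,
      (-1 / 2 * Q) * wd (0, 0) (4, 1) u v +
      (-1 / 2) * wd (1, 0) (4, 1) u v +
      (-12 * Q - 120 * Q ^ 3 - 108 * Q ^ 5) * wd (2, 0) (5, 0) u v +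
      (-4 * Q - 16 * Q ^ 3 - 12 * Q ^ 5) * wd (2, 0) (6, 0) u v +
      (-4 * Q) * wd (2, 0) (6, 1) u v +
      (-2 - 2 * Q ^ 2) * wd (3, 0) (5, 1) u v +
      (-8 * Q ^ 2 - 8 * Q ^ 4) * wd (3, 0) (6, 0) u v +
      (2 + 6 * Q ^ 2) * wd (3, 0) (6, 1) u v],
    ![0,
      (1 + Q ^ 2) * wd (0, 0) (5, 1) u v +
      (-8 * Q ^ 2 - 8 * Q ^ 4) * wd (0, 0) (6, 0) u v +
      (1 - 3 * Q ^ 2) * wd (0, 0) (6, 1) u v +
      (-6 * Q - 60 * Q ^ 3 - 54 * Q ^ 5) * wd (1, 0) (5, 0) u v +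
      (-2 * Q + 4 * Q ^ 3 + 6 * Q ^ 5) * wd (1, 0) (6, 0) u v +
      (-4 * Q) * wd (1, 0) (6, 1) u v +
      (-16 - 160 * Q ^ 2 - 144 * Q ^ 4) * wd (2, 0) (4, 0) u v +
      (16 * Q + 160 * Q ^ 3 + 144 * Q ^ 5) * wd (3, 0) (4, 0) u v],
    ![0,
      (-6 * Q - 60 * Q ^ 3 - 54 * Q ^ 5) * wd (0, 0) (5, 0) u v +
      (2 * Q - 4 * Q ^ 3 - 6 * Q ^ 5) * wd (0, 0) (6, 0) u v +
      (4 * Q) * wd (0, 0) (6, 1) u v +
      (-1 - Q ^ 2) * wd (1, 0) (5, 1) u v +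
      (-8 * Q ^ 2 - 8 * Q ^ 4) * wd (1, 0) (6, 0) u v +
      (1 - 3 * Q ^ 2) * wd (1, 0) (6, 1) u v +
      (-16 * Q - 160 * Q ^ 3 - 144 * Q ^ 5) * wd (2, 0) (4, 0) u v +
      (-16 - 160 * Q ^ 2 - 144 * Q ^ 4) * wd (3, 0) (4, 0) u v],
    ![(Q) * wd (0, 0) (1, 0) u v,
      (-32 * Q - 320 * Q ^ 3 - 288 * Q ^ 5) * wd (2, 0) (3, 0) u v],
    ![(1 + Q ^ 2) * wd (0, 0) (2, 0) u v +
      (-1 - Q ^ 2) * wd (1, 0) (3, 0) u v,
      (6 * Q + 60 * Q ^ 3 + 54 * Q ^ 5) * wd (0, 0) (3, 0) u v +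
      (6 * Q + 60 * Q ^ 3 + 54 * Q ^ 5) * wd (1, 0) (2, 0) u v],
    ![(1 + 9 * Q ^ 2) * wd (0, 0) (2, 0) u v +
      (1 + 9 * Q ^ 2) * wd (1, 0) (3, 0) u v,
      (-2 * Q - 20 * Q ^ 3 - 18 * Q ^ 5) * wd (0, 0) (3, 0) u v +
      (2 * Q + 20 * Q ^ 3 + 18 * Q ^ 5) * wd (1, 0) (2, 0) u v]] i.1 i.2

/-- Local characters of the gadget slots. -/
def lc : Fin 7 → ZMod 2 × ZMod 2 := ![(1, 0), (1, 0), (0, 1), (0, 1), (0, 0), (1, 1), (1, 1)]

/-- Real parts of the gadget eigenvalues. -/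
def gA : Fin 7 → ℝ := ![1, 1, 2, 2, 0, 0, 0]

/-- Imaginary parts of the gadget eigenvalues. -/
def gB : Fin 7 → ℝ := ![1, -1, 2, -2, 0, 0, 0]

/-- The pairing of the gadget slots. -/
def gP : Fin 7 → Fin 7 := ![1, 0, 3, 2, 4, 5, 6]

/-- Levels in the gadget. -/
def gL (i : Fin 7 × Fin 2) : ℕ := if 4 ≤ i.1 then 2 else if i.2 = 0 then 1 else 3

/-- Slots. -/
abbrev Sl (U : Type) (r : ℕ) : Type := Fin 7 ⊕ Fin r ⊕ U × (Fin (r + 1) ⊕ Fin 2 ⊕ Fin 7)

/-- Basis of the group of characters. -/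
abbrev Kx (U : Type) (r : ℕ) : Type := Fin 3 ⊕ Fin r ⊕ U × Fin 2

/-- Links. -/
abbrev Lk (U : Type) (r : ℕ) : Type := Fin 7 ⊕ U × (Fin 3 ⊕ Fin r ⊕ Fin 2)

section
variable {U : Type} {r : ℕ}

instance decSl [DecidableEq U] : DecidableEq (Sl U r) := instDecidableEqSum

instance decLk [DecidableEq U] : DecidableEq (Lk U r) := instDecidableEqSum

instance decKx [DecidableEq U] : DecidableEq (Kx U r) := instDecidableEqSum

/-- Core slots. -/
abbrev sC (j : Fin 7) : Sl U r := .inl j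

/-- Base slots. -/
abbrev sB (i : Fin r) : Sl U r := .inr (.inl i)

/-- Chain slots. -/
abbrev sP (g : U) (i : Fin (r + 1)) : Sl U r := .inr (.inr (g, .inl i))

/-- Triangle slots. -/
abbrev sZ (g : U) (j : Fin 2) : Sl U r := .inr (.inr (g, .inr (.inl j)))

/-- Gadget slots. -/
abbrev sG (g : U) (a : Fin 7) : Sl U r := .inr (.inr (g, .inr (.inr a)))

/-- The nonzero vectors of the Fano plane. -/
def fano : Fin 7 → Fin 3 → ZMod 2 :=
  ![![1, 0, 0], ![0, 1, 0], ![1, 1, 0], ![0, 0, 1], ![1, 0, 1], ![0, 1, 1], ![1, 1, 1]]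

/-- The lines of the Fano plane. -/
def fln : Fin 7 → Fin 3 → Fin 7 :=
  ![![0, 1, 2], ![0, 3, 4], ![0, 5, 6], ![1, 3, 5], ![1, 4, 6], ![2, 3, 6], ![2, 4, 5]]

/-- The character of a slot in coordinates. -/
def chv [DecidableEq U] : Sl U r → Kx U r → ZMod 2
  | .inl j, .inl b => fano j b
  | .inl _, .inr _ => 0
  | .inr (.inl _), .inl _ => 0
  | .inr (.inl i), .inr (.inl i') => if i' = i then 1 else 0
  | .inr (.inl _), .inr (.inr _) => 0
  | .inr (.inr (_, .inl _)), .inl _ => 0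
  | .inr (.inr (_, .inl i)), .inr (.inl j) => if (j : ℕ) < i then 1 else 0
  | .inr (.inr (g, .inl _)), .inr (.inr k) => if k = (g, 0) then 1 else 0
  | .inr (.inr (_, .inr (.inl j))), .inl b => if (b : ℕ) = j then 1 else 0
  | .inr (.inr (_, .inr (.inl _))), .inr (.inl _) => 0
  | .inr (.inr (g, .inr (.inl _))), .inr (.inr k) => if k = (g, 0) then 1 else 0
  | .inr (.inr (_, .inr (.inr a))), .inl b => if b = 2 then (lc a).1 else 0
  | .inr (.inr (_, .inr (.inr a))), .inr (.inl _) => (lc a).1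
  | .inr (.inr (g, .inr (.inr a))), .inr (.inr k) =>
      if k = (g, 0) then (lc a).1 else if k = (g, 1) then (lc a).2 else 0

/-- The character of a slot. -/
def chf [Fintype U] [DecidableEq U] (s : Sl U r) : (Kx U r → ZMod 2) →+ ZMod 2 :=
  AddMonoidHom.mk' (fun g => ∑ k, chv s k * g k) fun a b => by
    simp only [Pi.add_apply, mul_add, Finset.sum_add_distrib]

/-- The slots of a link. -/
def lS : Lk U r → Fin 3 → Sl U r
  | .inl l => fun t => sC (fln l t)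
  | .inr (g, .inl j) =>
      ![![sP g 0, sZ g 0, sC 0], ![sP g 0, sZ g 1, sC 1], ![sZ g 0, sZ g 1, sC 2]] j
  | .inr (g, .inr (.inl i)) => ![sP g i.succ, sP g i.castSucc, sB i]
  | .inr (g, .inr (.inr j)) => ![sC 3, sP g (Fin.last r), sG g (![0, 1] j)]

/-- Levels. -/
def levf : Sl U r × Fin 2 → ℕ
  | (.inr (.inr (_, .inr (.inr a))), c) => gL (a, c)
  | (_, c) => if c = 0 then 1 else 3

/-- The pairing of the slots. -/
def pif : Sl U r → Sl U r
  | .inr (.inr (g, .inr (.inr a))) => sG g (gP a)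
  | s => s

/-- Restriction to a gadget. -/
def rs (g : U) (u : Sp (Sl U r)) : Sp (Fin 7) := fun i => u (sG g i.1, i.2)

/-- Extension by zero from a gadget. -/
def ex [DecidableEq U] (g : U) (z : Sp (Fin 7)) : Sp (Sl U r)
  | (.inr (.inr (g', .inr (.inr a))), c) => if g' = g then z (a, c) else 0
  | _ => 0

end

/-- The parameters of the units. -/
structure UD (U : Type) (r : ℕ) where
  dir : U → Fin r → ℕ
  Q : U → ℚ
  th : U → ℚ
  Q_ne : ∀ g, Q g ≠ 0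

namespace UD

variable {U : Type} {r : ℕ} (T : UD U r)

/-- The weights along a chain. -/
def AA (g : U) (i : Fin (r + 1)) : ℚ := 1 + ∑ j : Fin r, if (j : ℕ) < i then (T.dir g j : ℚ) else 0

/-- The linear forms along a chain. -/
def ell (g : U) (i : Fin (r + 1)) (y : Fin r → ℝ) : ℝ :=
  ∑ j : Fin r, if (j : ℕ) < i then (T.dir g j : ℝ) * y j else 0

/-- The coefficients of a link. -/
def lC : Lk U r → Fin 3 → ℚ
  | .inl _ => ![1, 1, -2]
  | .inr (_, .inl _) => ![1, 1, -2]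
  | .inr (g, .inr (.inl i)) => ![-T.AA g i.succ, T.AA g i.castSucc, T.dir g i]
  | .inr (g, .inr (.inr j)) =>
      ![![T.th g * T.AA g (Fin.last r) - 1, -(T.th g * T.AA g (Fin.last r)), 1],
        ![-(T.th g * T.AA g (Fin.last r) * T.Q g), T.th g * T.AA g (Fin.last r) * T.Q g, 0]] j

/-- The real part of the eigenvalue, without the common summand. -/
noncomputable def val (y : Fin r → ℝ) : Sl U r → ℝ
  | .inl _ => 0
  | .inr (.inl i) => y i
  | .inr (.inr (g, .inl i)) => T.ell g i y / T.AA g i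
  | .inr (.inr (_, .inr (.inl _))) => 0
  | .inr (.inr (g, .inr (.inr a))) => T.th g * T.ell g (Fin.last r) y * gA a

/-- The real part of the eigenvalue. -/
noncomputable def alf (x : ℝ × (Fin r → ℝ)) (s : Sl U r) : ℝ := x.1 + T.val x.2 s

/-- The imaginary part of the eigenvalue. -/
noncomputable def bef (x : ℝ × (Fin r → ℝ)) : Sl U r → ℝ
  | .inr (.inr (g, .inr (.inr a))) => T.Q g * T.th g * T.ell g (Fin.last r) x.2 * gB a
  | _ => 0

variable [Fintype U] [DecidableEq U]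

/-- The part of the bracket that comes from the links. -/
noncomputable def lbr (u v : Sp (Sl U r)) : Sp (Sl U r) :=
  ∑ l : Lk U r, ∑ t : Fin 3,
    ((T.lC l t : ℝ) * wd (lS l (t + 1), 0) (lS l (t + 2), 0) u v) • ev (lS l t, 1)

/-- The bracket. -/
noncomputable def brf (u v : Sp (Sl U r)) : Sp (Sl U r) :=
  T.lbr u v + ∑ g, ex g (gbf (T.Q g) (rs g u) (rs g v))

/-- The family of closed invariant forms. -/
noncomputable def eta (x : ℝ × (Fin r → ℝ)) : Alt (Sp (Sl U r)) 2 := etaA (T.alf x) (T.bef x) pif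

/-- `D` is the Lie algebra with parameters `T`. -/
def Is (D : Nil (Sl U r) (Kx U r → ZMod 2)) : Prop := (∀ u v, D.br u v = T.brf u v) ∧ D.ch = chf

end UD

end Pool.Agent.Work.MP_bf98aa_gt.Th
end

-- merged part: Pool.Agent.Work.MP_bf98aa_gt.Th.AGad
section
/-!
The gadget is a graded nilpotent Lie algebra with two closed forms.

PLAN. Everything is a polynomial identity: `funext ⟨a, c⟩; fin_cases a <;> fin_cases c <;> simp [gbf, wd] <;> ring`. It helps to prove first the fourteen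
component formulas `gbf Q u v (a, c) = ...` by `rfl` and to rewrite with them. `gbf_filt`: every monomial `u i * v j` in the component `k` has
`gL i + gL j ≤ gL k`. `gbf_sign`: name `ε (1,0)`, `ε (0,1)`; `ε (1,1)` is their product and the squares are `ε 0 = 1`.
-/

set_option autoImplicit false

namespace Pool.Agent.Work.MP_bf98aa_gt.Th

/-- The second closed form of the gadget. -/
noncomputable def gE (Q : ℝ) (u v : Sp (Fin 7)) : ℝ :=
  ∑ a, (gA a * wd (a, 0) (a, 1) u v + Q * gB a * wd (a, 0) (gP a, 1) u v)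

theorem AGad_c00 (Q : ℝ) (u v : Sp (Fin 7)) : gbf Q u v (0, 0) =
      0 := rfl

theorem AGad_c01 (Q : ℝ) (u v : Sp (Fin 7)) : gbf Q u v (0, 1) =
      (-1 / 2) * wd (0, 0) (4, 1) u v +
      (1 / 2 * Q) * wd (1, 0) (4, 1) u v +
      (2 + 2 * Q ^ 2) * wd (2, 0) (5, 1) u v +
      (-8 * Q ^ 2 - 8 * Q ^ 4) * wd (2, 0) (6, 0) u v +
      (2 + 6 * Q ^ 2) * wd (2, 0) (6, 1) u v +
      (-12 * Q - 120 * Q ^ 3 - 108 * Q ^ 5) * wd (3, 0) (5, 0) u v +
      (4 * Q + 16 * Q ^ 3 + 12 * Q ^ 5) * wd (3, 0) (6, 0) u v +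
      (4 * Q) * wd (3, 0) (6, 1) u v := rfl

theorem AGad_c10 (Q : ℝ) (u v : Sp (Fin 7)) : gbf Q u v (1, 0) =
      0 := rfl

theorem AGad_c11 (Q : ℝ) (u v : Sp (Fin 7)) : gbf Q u v (1, 1) =
      (-1 / 2 * Q) * wd (0, 0) (4, 1) u v +
      (-1 / 2) * wd (1, 0) (4, 1) u v +
      (-12 * Q - 120 * Q ^ 3 - 108 * Q ^ 5) * wd (2, 0) (5, 0) u v +
      (-4 * Q - 16 * Q ^ 3 - 12 * Q ^ 5) * wd (2, 0) (6, 0) u v +
      (-4 * Q) * wd (2, 0) (6, 1) u v +
      (-2 - 2 * Q ^ 2) * wd (3, 0) (5, 1) u v +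
      (-8 * Q ^ 2 - 8 * Q ^ 4) * wd (3, 0) (6, 0) u v +
      (2 + 6 * Q ^ 2) * wd (3, 0) (6, 1) u v := rfl

theorem AGad_c20 (Q : ℝ) (u v : Sp (Fin 7)) : gbf Q u v (2, 0) =
      0 := rfl

theorem AGad_c21 (Q : ℝ) (u v : Sp (Fin 7)) : gbf Q u v (2, 1) =
      (1 + Q ^ 2) * wd (0, 0) (5, 1) u v +
      (-8 * Q ^ 2 - 8 * Q ^ 4) * wd (0, 0) (6, 0) u v +
      (1 - 3 * Q ^ 2) * wd (0, 0) (6, 1) u v +
      (-6 * Q - 60 * Q ^ 3 - 54 * Q ^ 5) * wd (1, 0) (5, 0) u v +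
      (-2 * Q + 4 * Q ^ 3 + 6 * Q ^ 5) * wd (1, 0) (6, 0) u v +
      (-4 * Q) * wd (1, 0) (6, 1) u v +
      (-16 - 160 * Q ^ 2 - 144 * Q ^ 4) * wd (2, 0) (4, 0) u v +
      (16 * Q + 160 * Q ^ 3 + 144 * Q ^ 5) * wd (3, 0) (4, 0) u v := rfl

theorem AGad_c30 (Q : ℝ) (u v : Sp (Fin 7)) : gbf Q u v (3, 0) =
      0 := rfl

theorem AGad_c31 (Q : ℝ) (u v : Sp (Fin 7)) : gbf Q u v (3, 1) =
      (-6 * Q - 60 * Q ^ 3 - 54 * Q ^ 5) * wd (0, 0) (5, 0) u v +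
      (2 * Q - 4 * Q ^ 3 - 6 * Q ^ 5) * wd (0, 0) (6, 0) u v +
      (4 * Q) * wd (0, 0) (6, 1) u v +
      (-1 - Q ^ 2) * wd (1, 0) (5, 1) u v +
      (-8 * Q ^ 2 - 8 * Q ^ 4) * wd (1, 0) (6, 0) u v +
      (1 - 3 * Q ^ 2) * wd (1, 0) (6, 1) u v +
      (-16 * Q - 160 * Q ^ 3 - 144 * Q ^ 5) * wd (2, 0) (4, 0) u v +
      (-16 - 160 * Q ^ 2 - 144 * Q ^ 4) * wd (3, 0) (4, 0) u v := rfl

theorem AGad_c40 (Q : ℝ) (u v : Sp (Fin 7)) : gbf Q u v (4, 0) =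
      (Q) * wd (0, 0) (1, 0) u v := rfl

theorem AGad_c41 (Q : ℝ) (u v : Sp (Fin 7)) : gbf Q u v (4, 1) =
      (-32 * Q - 320 * Q ^ 3 - 288 * Q ^ 5) * wd (2, 0) (3, 0) u v := rfl

theorem AGad_c50 (Q : ℝ) (u v : Sp (Fin 7)) : gbf Q u v (5, 0) =
      (1 + Q ^ 2) * wd (0, 0) (2, 0) u v +
      (-1 - Q ^ 2) * wd (1, 0) (3, 0) u v := rfl

theorem AGad_c51 (Q : ℝ) (u v : Sp (Fin 7)) : gbf Q u v (5, 1) =
      (6 * Q + 60 * Q ^ 3 + 54 * Q ^ 5) * wd (0, 0) (3, 0) u v +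
      (6 * Q + 60 * Q ^ 3 + 54 * Q ^ 5) * wd (1, 0) (2, 0) u v := rfl

theorem AGad_c60 (Q : ℝ) (u v : Sp (Fin 7)) : gbf Q u v (6, 0) =
      (1 + 9 * Q ^ 2) * wd (0, 0) (2, 0) u v +
      (1 + 9 * Q ^ 2) * wd (1, 0) (3, 0) u v := rfl

theorem AGad_c61 (Q : ℝ) (u v : Sp (Fin 7)) : gbf Q u v (6, 1) =
      (-2 * Q - 20 * Q ^ 3 - 18 * Q ^ 5) * wd (0, 0) (3, 0) u v +
      (2 * Q + 20 * Q ^ 3 + 18 * Q ^ 5) * wd (1, 0) (2, 0) u v := rfl

theorem AGad_all {P : Fin 7 × Fin 2 → Prop}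
    (h00 : P (0, 0)) (h01 : P (0, 1)) (h10 : P (1, 0)) (h11 : P (1, 1))
    (h20 : P (2, 0)) (h21 : P (2, 1)) (h30 : P (3, 0)) (h31 : P (3, 1))
    (h40 : P (4, 0)) (h41 : P (4, 1)) (h50 : P (5, 0)) (h51 : P (5, 1))
    (h60 : P (6, 0)) (h61 : P (6, 1)) (i : Fin 7 × Fin 2) : P i := by
  obtain ⟨a, c⟩ := i
  fin_cases a <;> fin_cases c <;> assumption

theorem wd_anti {I : Type} (a b : I) (u v : I → ℝ) : wd a b u v = -wd a b v u := by
  unfold wd
  ring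

theorem wd_swap {I : Type} (a b : I) (u v : I → ℝ) : wd a b u v = -wd b a u v := by
  unfold wd
  ring

theorem gbf_anti (Q : ℝ) (u v : Sp (Fin 7)) : gbf Q u v = -gbf Q v u := by
  funext i
  refine AGad_all (P := fun i => gbf Q u v i = (-gbf Q v u) i) ?_ ?_ ?_ ?_ ?_ ?_ ?_ ?_ ?_ ?_ ?_ ?_ ?_ ?_ i <;>
    simp only [Pi.neg_apply, AGad_c00, AGad_c01, AGad_c10, AGad_c11, AGad_c20, AGad_c21, AGad_c30,
      AGad_c31, AGad_c40, AGad_c41, AGad_c50, AGad_c51, AGad_c60, AGad_c61, wd] <;> ring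

theorem AGad_add (Q : ℝ) (u u' v : Sp (Fin 7)) : gbf Q (u + u') v = gbf Q u v + gbf Q u' v := by
  funext i
  refine AGad_all (P := fun i => gbf Q (u + u') v i = (gbf Q u v + gbf Q u' v) i)
    ?_ ?_ ?_ ?_ ?_ ?_ ?_ ?_ ?_ ?_ ?_ ?_ ?_ ?_ i <;>
    simp only [Pi.add_apply, AGad_c00, AGad_c01, AGad_c10, AGad_c11, AGad_c20, AGad_c21, AGad_c30,
      AGad_c31, AGad_c40, AGad_c41, AGad_c50, AGad_c51, AGad_c60, AGad_c61, wd] <;> ring

theorem AGad_smul (Q c : ℝ) (u v : Sp (Fin 7)) : gbf Q (c • u) v = c • gbf Q u v := by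
  funext i
  refine AGad_all (P := fun i => gbf Q (c • u) v i = (c • gbf Q u v) i)
    ?_ ?_ ?_ ?_ ?_ ?_ ?_ ?_ ?_ ?_ ?_ ?_ ?_ ?_ i <;>
    simp only [Pi.smul_apply, smul_eq_mul, AGad_c00, AGad_c01, AGad_c10, AGad_c11, AGad_c20, AGad_c21, AGad_c30,
      AGad_c31, AGad_c40, AGad_c41, AGad_c50, AGad_c51, AGad_c60, AGad_c61, wd] <;> ring

theorem exists_gbL (Q : ℝ) : ∃ B : Sp (Fin 7) →L[ℝ] Sp (Fin 7) →L[ℝ] Sp (Fin 7),
    ∀ u v, gbf Q u v = B u v := by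
  let f : Sp (Fin 7) →ₗ[ℝ] Sp (Fin 7) →ₗ[ℝ] Sp (Fin 7) := LinearMap.mk₂ ℝ (gbf Q) (AGad_add Q)
    (AGad_smul Q)
    (fun u v v' => by rw [gbf_anti, AGad_add, neg_add, ← gbf_anti, ← gbf_anti])
    (fun c u v => by rw [gbf_anti, AGad_smul, ← smul_neg, ← gbf_anti])
  exact ⟨LinearMap.toContinuousLinearMap
    ((LinearMap.toContinuousLinearMap (𝕜 := ℝ) (E := Sp (Fin 7)) (F' := Sp (Fin 7))).toLinearMap.comp f),
    fun u v => rfl⟩

theorem gbf_jac (Q : ℝ) (u v w : Sp (Fin 7)) :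
    gbf Q u (gbf Q v w) + gbf Q v (gbf Q w u) + gbf Q w (gbf Q u v) = 0 := by
  funext i
  refine AGad_all (P := fun i =>
    (gbf Q u (gbf Q v w) + gbf Q v (gbf Q w u) + gbf Q w (gbf Q u v)) i = (0 : Sp (Fin 7)) i)
    ?_ ?_ ?_ ?_ ?_ ?_ ?_ ?_ ?_ ?_ ?_ ?_ ?_ ?_ i <;>
    simp only [Pi.add_apply, Pi.zero_apply, AGad_c00, AGad_c01, AGad_c10, AGad_c11, AGad_c20, AGad_c21, AGad_c30,
      AGad_c31, AGad_c40, AGad_c41, AGad_c50, AGad_c51, AGad_c60, AGad_c61, wd] <;> ring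

/-- The bracket does not see the coordinates of level three. -/
theorem gbf_congr (Q : ℝ) (u : Sp (Fin 7)) {z z' : Sp (Fin 7)} (h : ∀ i, gL i < 3 → z i = z' i) :
    gbf Q u z = gbf Q u z' := by
  have e00 := h (0, 0) (by decide)
  have e10 := h (1, 0) (by decide)
  have e20 := h (2, 0) (by decide)
  have e30 := h (3, 0) (by decide)
  have e40 := h (4, 0) (by decide)
  have e41 := h (4, 1) (by decide)
  have e50 := h (5, 0) (by decide)
  have e51 := h (5, 1) (by decide)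
  have e60 := h (6, 0) (by decide)
  have e61 := h (6, 1) (by decide)
  funext i
  refine AGad_all (P := fun i => gbf Q u z i = gbf Q u z' i) ?_ ?_ ?_ ?_ ?_ ?_ ?_ ?_ ?_ ?_ ?_ ?_ ?_ ?_ i <;>
    simp only [AGad_c00, AGad_c01, AGad_c10, AGad_c11, AGad_c20, AGad_c21, AGad_c30,
      AGad_c31, AGad_c40, AGad_c41, AGad_c50, AGad_c51, AGad_c60, AGad_c61, wd,
      e00, e10, e20, e30, e40, e41, e50, e51, e60, e61]

theorem gbf_filt (Q : ℝ) {a b : ℕ} {u v : Sp (Fin 7)} (hu : u ∈ Fl gL a) (hv : v ∈ Fl gL b) :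
    gbf Q u v ∈ Fl gL (a + b) := by
  have key : ∀ n : ℕ, n < a + b → ∀ i j : Fin 7 × Fin 2, gL i + gL j ≤ n → wd i j u v = 0 := by
    intro n hn i j hij
    have h1 : u i * v j = 0 := by
      by_cases hi : gL i < a
      · rw [hu i hi, zero_mul]
      · rw [hv j (by omega), mul_zero]
    have h2 : u j * v i = 0 := by
      by_cases hj : gL j < a
      · rw [hu j hj, zero_mul]
      · rw [hv i (by omega), mul_zero]
    rw [wd, h1, h2, sub_zero]
  intro k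
  refine AGad_all (P := fun k => gL k < a + b → gbf Q u v k = 0)
    ?_ ?_ ?_ ?_ ?_ ?_ ?_ ?_ ?_ ?_ ?_ ?_ ?_ ?_ k <;> intro hk
  · exact AGad_c00 Q u v
  · rw [AGad_c01,
      key _ hk (0, 0) (4, 1) (by decide),
      key _ hk (1, 0) (4, 1) (by decide),
      key _ hk (2, 0) (5, 1) (by decide),
      key _ hk (2, 0) (6, 0) (by decide),
      key _ hk (2, 0) (6, 1) (by decide),
      key _ hk (3, 0) (5, 0) (by decide),
      key _ hk (3, 0) (6, 0) (by decide),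
      key _ hk (3, 0) (6, 1) (by decide)]
    ring
  · exact AGad_c10 Q u v
  · rw [AGad_c11,
      key _ hk (0, 0) (4, 1) (by decide),
      key _ hk (1, 0) (4, 1) (by decide),
      key _ hk (2, 0) (5, 0) (by decide),
      key _ hk (2, 0) (6, 0) (by decide),
      key _ hk (2, 0) (6, 1) (by decide),
      key _ hk (3, 0) (5, 1) (by decide),
      key _ hk (3, 0) (6, 0) (by decide),
      key _ hk (3, 0) (6, 1) (by decide)]
    ring
  · exact AGad_c20 Q u v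
  · rw [AGad_c21,
      key _ hk (0, 0) (5, 1) (by decide),
      key _ hk (0, 0) (6, 0) (by decide),
      key _ hk (0, 0) (6, 1) (by decide),
      key _ hk (1, 0) (5, 0) (by decide),
      key _ hk (1, 0) (6, 0) (by decide),
      key _ hk (1, 0) (6, 1) (by decide),
      key _ hk (2, 0) (4, 0) (by decide),
      key _ hk (3, 0) (4, 0) (by decide)]
    ring
  · exact AGad_c30 Q u v
  · rw [AGad_c31,
      key _ hk (0, 0) (5, 0) (by decide),
      key _ hk (0, 0) (6, 0) (by decide),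
      key _ hk (0, 0) (6, 1) (by decide),
      key _ hk (1, 0) (5, 1) (by decide),
      key _ hk (1, 0) (6, 0) (by decide),
      key _ hk (1, 0) (6, 1) (by decide),
      key _ hk (2, 0) (4, 0) (by decide),
      key _ hk (3, 0) (4, 0) (by decide)]
    ring
  · rw [AGad_c40,
      key _ hk (0, 0) (1, 0) (by decide)]
    ring
  · rw [AGad_c41,
      key _ hk (2, 0) (3, 0) (by decide)]
    ring
  · rw [AGad_c50,
      key _ hk (0, 0) (2, 0) (by decide),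
      key _ hk (1, 0) (3, 0) (by decide)]
    ring
  · rw [AGad_c51,
      key _ hk (0, 0) (3, 0) (by decide),
      key _ hk (1, 0) (2, 0) (by decide)]
    ring
  · rw [AGad_c60,
      key _ hk (0, 0) (2, 0) (by decide),
      key _ hk (1, 0) (3, 0) (by decide)]
    ring
  · rw [AGad_c61,
      key _ hk (0, 0) (3, 0) (by decide),
      key _ hk (1, 0) (2, 0) (by decide)]
    ring

theorem gbf_sign (Q : ℝ) {ε : ZMod 2 × ZMod 2 → ℝ} (h : ∀ a b, ε (a + b) = ε a * ε b)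
    (h0 : ε 0 = 1) (u v : Sp (Fin 7)) :
    gbf Q (fun i => ε (lc i.1) * u i) (fun i => ε (lc i.1) * v i) =
      fun i => ε (lc i.1) * gbf Q u v i := by
  have key : ∀ (k : Fin 7) (i j : Fin 7 × Fin 2), lc i.1 + lc j.1 = lc k →
      wd i j (fun i => ε (lc i.1) * u i) (fun i => ε (lc i.1) * v i) = ε (lc k) * wd i j u v := by
    intro k i j e
    rw [← e, h]
    unfold wd
    ring
  funext k
  refine AGad_all (P := fun k => gbf Q (fun i => ε (lc i.1) * u i) (fun i => ε (lc i.1) * v i) k =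
    ε (lc k.1) * gbf Q u v k) ?_ ?_ ?_ ?_ ?_ ?_ ?_ ?_ ?_ ?_ ?_ ?_ ?_ ?_ k
  · rw [AGad_c00, AGad_c00, mul_zero]
  · rw [AGad_c01, AGad_c01,
      key 0 (0, 0) (4, 1) (by decide),
      key 0 (1, 0) (4, 1) (by decide),
      key 0 (2, 0) (5, 1) (by decide),
      key 0 (2, 0) (6, 0) (by decide),
      key 0 (2, 0) (6, 1) (by decide),
      key 0 (3, 0) (5, 0) (by decide),
      key 0 (3, 0) (6, 0) (by decide),
      key 0 (3, 0) (6, 1) (by decide)]
    ring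
  · rw [AGad_c10, AGad_c10, mul_zero]
  · rw [AGad_c11, AGad_c11,
      key 1 (0, 0) (4, 1) (by decide),
      key 1 (1, 0) (4, 1) (by decide),
      key 1 (2, 0) (5, 0) (by decide),
      key 1 (2, 0) (6, 0) (by decide),
      key 1 (2, 0) (6, 1) (by decide),
      key 1 (3, 0) (5, 1) (by decide),
      key 1 (3, 0) (6, 0) (by decide),
      key 1 (3, 0) (6, 1) (by decide)]
    ring
  · rw [AGad_c20, AGad_c20, mul_zero]
  · rw [AGad_c21, AGad_c21,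
      key 2 (0, 0) (5, 1) (by decide),
      key 2 (0, 0) (6, 0) (by decide),
      key 2 (0, 0) (6, 1) (by decide),
      key 2 (1, 0) (5, 0) (by decide),
      key 2 (1, 0) (6, 0) (by decide),
      key 2 (1, 0) (6, 1) (by decide),
      key 2 (2, 0) (4, 0) (by decide),
      key 2 (3, 0) (4, 0) (by decide)]
    ring
  · rw [AGad_c30, AGad_c30, mul_zero]
  · rw [AGad_c31, AGad_c31,
      key 3 (0, 0) (5, 0) (by decide),
      key 3 (0, 0) (6, 0) (by decide),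
      key 3 (0, 0) (6, 1) (by decide),
      key 3 (1, 0) (5, 1) (by decide),
      key 3 (1, 0) (6, 0) (by decide),
      key 3 (1, 0) (6, 1) (by decide),
      key 3 (2, 0) (4, 0) (by decide),
      key 3 (3, 0) (4, 0) (by decide)]
    ring
  · rw [AGad_c40, AGad_c40,
      key 4 (0, 0) (1, 0) (by decide)]
    ring
  · rw [AGad_c41, AGad_c41,
      key 4 (2, 0) (3, 0) (by decide)]
    ring
  · rw [AGad_c50, AGad_c50,
      key 5 (0, 0) (2, 0) (by decide),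
      key 5 (1, 0) (3, 0) (by decide)]
    ring
  · rw [AGad_c51, AGad_c51,
      key 5 (0, 0) (3, 0) (by decide),
      key 5 (1, 0) (2, 0) (by decide)]
    ring
  · rw [AGad_c60, AGad_c60,
      key 6 (0, 0) (2, 0) (by decide),
      key 6 (1, 0) (3, 0) (by decide)]
    ring
  · rw [AGad_c61, AGad_c61,
      key 6 (0, 0) (3, 0) (by decide),
      key 6 (1, 0) (2, 0) (by decide)]
    ring

theorem gbf_rat (Q : ℚ) {u v : Sp (Fin 7)} (hu : ∀ i, ∃ q : ℚ, u i = q) (hv : ∀ i, ∃ q : ℚ, v i = q)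
    (k : Fin 7 × Fin 2) : ∃ q : ℚ, gbf Q u v k = q := by
  have hw : ∀ i j : Fin 7 × Fin 2, ∃ q : ℚ, wd i j u v = q := by
    intro i j
    obtain ⟨a, ha⟩ := hu i
    obtain ⟨b, hb⟩ := hu j
    obtain ⟨c, hc⟩ := hv i
    obtain ⟨d, hd⟩ := hv j
    exact ⟨a * d - b * c, by rw [wd, ha, hb, hc, hd]; push_cast; rfl⟩
  choose w hw using hw
  refine AGad_all (P := fun k => ∃ q : ℚ, gbf Q u v k = q) ?_ ?_ ?_ ?_ ?_ ?_ ?_ ?_ ?_ ?_ ?_ ?_ ?_ ?_ k
  · exact ⟨0, by rw [AGad_c00, Rat.cast_zero]⟩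
  · refine ⟨(-1 / 2) * w (0, 0) (4, 1) +
      (1 / 2 * Q) * w (1, 0) (4, 1) +
      (2 + 2 * Q ^ 2) * w (2, 0) (5, 1) +
      (-8 * Q ^ 2 - 8 * Q ^ 4) * w (2, 0) (6, 0) +
      (2 + 6 * Q ^ 2) * w (2, 0) (6, 1) +
      (-12 * Q - 120 * Q ^ 3 - 108 * Q ^ 5) * w (3, 0) (5, 0) +
      (4 * Q + 16 * Q ^ 3 + 12 * Q ^ 5) * w (3, 0) (6, 0) +
      (4 * Q) * w (3, 0) (6, 1), ?_⟩
    simp only [AGad_c01, hw]
    push_cast
    ring
  · exact ⟨0, by rw [AGad_c10, Rat.cast_zero]⟩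
  · refine ⟨(-1 / 2 * Q) * w (0, 0) (4, 1) +
      (-1 / 2) * w (1, 0) (4, 1) +
      (-12 * Q - 120 * Q ^ 3 - 108 * Q ^ 5) * w (2, 0) (5, 0) +
      (-4 * Q - 16 * Q ^ 3 - 12 * Q ^ 5) * w (2, 0) (6, 0) +
      (-4 * Q) * w (2, 0) (6, 1) +
      (-2 - 2 * Q ^ 2) * w (3, 0) (5, 1) +
      (-8 * Q ^ 2 - 8 * Q ^ 4) * w (3, 0) (6, 0) +
      (2 + 6 * Q ^ 2) * w (3, 0) (6, 1), ?_⟩
    simp only [AGad_c11, hw]
    push_cast
    ring
  · exact ⟨0, by rw [AGad_c20, Rat.cast_zero]⟩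
  · refine ⟨(1 + Q ^ 2) * w (0, 0) (5, 1) +
      (-8 * Q ^ 2 - 8 * Q ^ 4) * w (0, 0) (6, 0) +
      (1 - 3 * Q ^ 2) * w (0, 0) (6, 1) +
      (-6 * Q - 60 * Q ^ 3 - 54 * Q ^ 5) * w (1, 0) (5, 0) +
      (-2 * Q + 4 * Q ^ 3 + 6 * Q ^ 5) * w (1, 0) (6, 0) +
      (-4 * Q) * w (1, 0) (6, 1) +
      (-16 - 160 * Q ^ 2 - 144 * Q ^ 4) * w (2, 0) (4, 0) +
      (16 * Q + 160 * Q ^ 3 + 144 * Q ^ 5) * w (3, 0) (4, 0), ?_⟩
    simp only [AGad_c21, hw]
    push_cast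
    ring
  · exact ⟨0, by rw [AGad_c30, Rat.cast_zero]⟩
  · refine ⟨(-6 * Q - 60 * Q ^ 3 - 54 * Q ^ 5) * w (0, 0) (5, 0) +
      (2 * Q - 4 * Q ^ 3 - 6 * Q ^ 5) * w (0, 0) (6, 0) +
      (4 * Q) * w (0, 0) (6, 1) +
      (-1 - Q ^ 2) * w (1, 0) (5, 1) +
      (-8 * Q ^ 2 - 8 * Q ^ 4) * w (1, 0) (6, 0) +
      (1 - 3 * Q ^ 2) * w (1, 0) (6, 1) +
      (-16 * Q - 160 * Q ^ 3 - 144 * Q ^ 5) * w (2, 0) (4, 0) +
      (-16 - 160 * Q ^ 2 - 144 * Q ^ 4) * w (3, 0) (4, 0), ?_⟩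
    simp only [AGad_c31, hw]
    push_cast
    ring
  · refine ⟨(Q) * w (0, 0) (1, 0), ?_⟩
    simp only [AGad_c40, hw]
    push_cast
    ring
  · refine ⟨(-32 * Q - 320 * Q ^ 3 - 288 * Q ^ 5) * w (2, 0) (3, 0), ?_⟩
    simp only [AGad_c41, hw]
    push_cast
    ring
  · refine ⟨(1 + Q ^ 2) * w (0, 0) (2, 0) +
      (-1 - Q ^ 2) * w (1, 0) (3, 0), ?_⟩
    simp only [AGad_c50, hw]
    push_cast
    ring
  · refine ⟨(6 * Q + 60 * Q ^ 3 + 54 * Q ^ 5) * w (0, 0) (3, 0) +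
      (6 * Q + 60 * Q ^ 3 + 54 * Q ^ 5) * w (1, 0) (2, 0), ?_⟩
    simp only [AGad_c51, hw]
    push_cast
    ring
  · refine ⟨(1 + 9 * Q ^ 2) * w (0, 0) (2, 0) +
      (1 + 9 * Q ^ 2) * w (1, 0) (3, 0), ?_⟩
    simp only [AGad_c60, hw]
    push_cast
    ring
  · refine ⟨(-2 * Q - 20 * Q ^ 3 - 18 * Q ^ 5) * w (0, 0) (3, 0) +
      (2 * Q + 20 * Q ^ 3 + 18 * Q ^ 5) * w (1, 0) (2, 0), ?_⟩
    simp only [AGad_c61, hw]
    push_cast
    ring

theorem gbf_clo (Q : ℝ) (u v w : Sp (Fin 7)) :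
    om (gbf Q u v) w + om (gbf Q v w) u + om (gbf Q w u) v = 0 := by
  simp only [om, Fin.sum_univ_seven, AGad_c00, AGad_c01, AGad_c10, AGad_c11, AGad_c20, AGad_c21, AGad_c30,
      AGad_c31, AGad_c40, AGad_c41, AGad_c50, AGad_c51, AGad_c60, AGad_c61, wd]
  ring

theorem AGad_gE (Q : ℝ) (u v : Sp (Fin 7)) : gE Q u v =
    wd (0, 0) (0, 1) u v + Q * wd (0, 0) (1, 1) u v + wd (1, 0) (1, 1) u v - Q * wd (1, 0) (0, 1) u v +
      2 * wd (2, 0) (2, 1) u v + 2 * Q * wd (2, 0) (3, 1) u v + 2 * wd (3, 0) (3, 1) u v -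
      2 * Q * wd (3, 0) (2, 1) u v := by
  have e : gE Q u v = (1 * wd (0, 0) (0, 1) u v + Q * 1 * wd (0, 0) (1, 1) u v) +
      (1 * wd (1, 0) (1, 1) u v + Q * (-1) * wd (1, 0) (0, 1) u v) +
      (2 * wd (2, 0) (2, 1) u v + Q * 2 * wd (2, 0) (3, 1) u v) +
      (2 * wd (3, 0) (3, 1) u v + Q * (-2) * wd (3, 0) (2, 1) u v) +
      (0 * wd (4, 0) (4, 1) u v + Q * 0 * wd (4, 0) (4, 1) u v) +
      (0 * wd (5, 0) (5, 1) u v + Q * 0 * wd (5, 0) (5, 1) u v) +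
      (0 * wd (6, 0) (6, 1) u v + Q * 0 * wd (6, 0) (6, 1) u v) := by
    rw [gE, Fin.sum_univ_seven]
    rfl
  rw [e]
  ring

theorem gbf_clo' (Q : ℝ) (u v w : Sp (Fin 7)) :
    gE Q (gbf Q u v) w + gE Q (gbf Q v w) u + gE Q (gbf Q w u) v = 0 := by
  simp only [AGad_gE, AGad_c00, AGad_c01, AGad_c10, AGad_c11, AGad_c20, AGad_c21, AGad_c30,
      AGad_c31, AGad_c40, AGad_c41, AGad_c50, AGad_c51, AGad_c60, AGad_c61, wd]
  ring

theorem gbf_h1 (Q : ℝ) (u v : Sp (Fin 7)) : gbf Q u v (4, 0) = Q * wd (0, 0) (1, 0) u v := by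
  exact AGad_c40 Q u v

theorem gbf_h2 (Q : ℝ) (u v : Sp (Fin 7)) :
    gbf Q u v (4, 1) = -32 * (Q * (1 + Q ^ 2) * (1 + 9 * Q ^ 2)) * wd (2, 0) (3, 0) u v := by
  rw [AGad_c41]
  ring

theorem gbf_ev1 (Q : ℝ) : gbf Q (ev (0, 0)) (ev (1, 0)) = Q • ev (4, 0) := by
  funext i
  refine AGad_all (P := fun i => gbf Q (ev (0, 0)) (ev (1, 0)) i =
    (Q • ev ((4, 0) : Fin 7 × Fin 2)) i) ?_ ?_ ?_ ?_ ?_ ?_ ?_ ?_ ?_ ?_ ?_ ?_ ?_ ?_ i <;>
    simp [AGad_c00, AGad_c01, AGad_c10, AGad_c11, AGad_c20, AGad_c21, AGad_c30,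
      AGad_c31, AGad_c40, AGad_c41, AGad_c50, AGad_c51, AGad_c60, AGad_c61, wd, ev]

theorem gbf_ev2 (Q : ℝ) :
    gbf Q (ev (2, 0)) (ev (3, 0)) = (-32 * (Q * (1 + Q ^ 2) * (1 + 9 * Q ^ 2))) • ev (4, 1) := by
  funext i
  refine AGad_all (P := fun i => gbf Q (ev (2, 0)) (ev (3, 0)) i =
    ((-32 * (Q * (1 + Q ^ 2) * (1 + 9 * Q ^ 2))) • ev ((4, 1) : Fin 7 × Fin 2)) i)
    ?_ ?_ ?_ ?_ ?_ ?_ ?_ ?_ ?_ ?_ ?_ ?_ ?_ ?_ i <;>
    simp [AGad_c00, AGad_c01, AGad_c10, AGad_c11, AGad_c20, AGad_c21, AGad_c30,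
      AGad_c31, AGad_c40, AGad_c41, AGad_c50, AGad_c51, AGad_c60, AGad_c61, wd, ev]
  ring

end Pool.Agent.Work.MP_bf98aa_gt.Th
end

-- merged part: Pool.Agent.Work.MP_bf98aa_gt.Th.ARigB
section
/-! The structure constants of the gadget, paired with an arbitrary matrix. -/

set_option autoImplicit false

namespace Pool.Agent.Work.MP_bf98aa_gt.Th

theorem ARig_ev (i p : Fin 7 × Fin 2) : ev i p = if p = i then 1 else 0 := Pi.single_apply _ _ _

theorem ARig_sum (Q : ℝ) (u v f : Sp (Fin 7)) : ∑ l, gbf Q u v l * f l =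
    ((0) * f (0, 0) + ((-1 / 2) * wd (0, 0) (4, 1) u v + (1 / 2 * Q) * wd (1, 0) (4, 1) u v + (2 +
    2 * Q ^ 2) * wd (2, 0) (5, 1) u v + (-8 * Q ^ 2 - 8 * Q ^ 4) * wd (2, 0) (6, 0) u v + (2 + 6 *
    Q ^ 2) * wd (2, 0) (6, 1) u v + (-12 * Q - 120 * Q ^ 3 - 108 * Q ^ 5) * wd (3, 0) (5, 0) u v +
    (4 * Q + 16 * Q ^ 3 + 12 * Q ^ 5) * wd (3, 0) (6, 0) u v + (4 * Q) * wd (3, 0) (6, 1) u v) * f
    (0, 1)) + ((0) * f (1, 0) + ((-1 / 2 * Q) * wd (0, 0) (4, 1) u v + (-1 / 2) * wd (1, 0) (4, 1)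
    u v + (-12 * Q - 120 * Q ^ 3 - 108 * Q ^ 5) * wd (2, 0) (5, 0) u v + (-4 * Q - 16 * Q ^ 3 - 12
    * Q ^ 5) * wd (2, 0) (6, 0) u v + (-4 * Q) * wd (2, 0) (6, 1) u v + (-2 - 2 * Q ^ 2) * wd (3,
    0) (5, 1) u v + (-8 * Q ^ 2 - 8 * Q ^ 4) * wd (3, 0) (6, 0) u v + (2 + 6 * Q ^ 2) * wd (3, 0)
    (6, 1) u v) * f (1, 1)) + ((0) * f (2, 0) + ((1 + Q ^ 2) * wd (0, 0) (5, 1) u v + (-8 * Q ^ 2
    - 8 * Q ^ 4) * wd (0, 0) (6, 0) u v + (1 - 3 * Q ^ 2) * wd (0, 0) (6, 1) u v + (-6 * Q - 60 *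
    Q ^ 3 - 54 * Q ^ 5) * wd (1, 0) (5, 0) u v + (-2 * Q + 4 * Q ^ 3 + 6 * Q ^ 5) * wd (1, 0) (6,
    0) u v + (-4 * Q) * wd (1, 0) (6, 1) u v + (-16 - 160 * Q ^ 2 - 144 * Q ^ 4) * wd (2, 0) (4,
    0) u v + (16 * Q + 160 * Q ^ 3 + 144 * Q ^ 5) * wd (3, 0) (4, 0) u v) * f (2, 1)) + ((0) * f
    (3, 0) + ((-6 * Q - 60 * Q ^ 3 - 54 * Q ^ 5) * wd (0, 0) (5, 0) u v + (2 * Q - 4 * Q ^ 3 - 6 *
    Q ^ 5) * wd (0, 0) (6, 0) u v + (4 * Q) * wd (0, 0) (6, 1) u v + (-1 - Q ^ 2) * wd (1, 0) (5,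
    1) u v + (-8 * Q ^ 2 - 8 * Q ^ 4) * wd (1, 0) (6, 0) u v + (1 - 3 * Q ^ 2) * wd (1, 0) (6, 1)
    u v + (-16 * Q - 160 * Q ^ 3 - 144 * Q ^ 5) * wd (2, 0) (4, 0) u v + (-16 - 160 * Q ^ 2 - 144
    * Q ^ 4) * wd (3, 0) (4, 0) u v) * f (3, 1)) + (((Q) * wd (0, 0) (1, 0) u v) * f (4, 0) +
    ((-32 * Q - 320 * Q ^ 3 - 288 * Q ^ 5) * wd (2, 0) (3, 0) u v) * f (4, 1)) + (((1 + Q ^ 2) *
    wd (0, 0) (2, 0) u v + (-1 - Q ^ 2) * wd (1, 0) (3, 0) u v) * f (5, 0) + ((6 * Q + 60 * Q ^ 3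
    + 54 * Q ^ 5) * wd (0, 0) (3, 0) u v + (6 * Q + 60 * Q ^ 3 + 54 * Q ^ 5) * wd (1, 0) (2, 0) u
    v) * f (5, 1)) + (((1 + 9 * Q ^ 2) * wd (0, 0) (2, 0) u v + (1 + 9 * Q ^ 2) * wd (1, 0) (3, 0)
    u v) * f (6, 0) + ((-2 * Q - 20 * Q ^ 3 - 18 * Q ^ 5) * wd (0, 0) (3, 0) u v + (2 * Q + 20 * Q
    ^ 3 + 18 * Q ^ 5) * wd (1, 0) (2, 0) u v) * f (6, 1)) := by
  rw [Fintype.sum_prod_type, Fin.sum_univ_seven]
  simp only [Fin.sum_univ_two]
  rfl

theorem ARig_00_10 (Q : ℝ) (W : Fin 7 × Fin 2 → Fin 7 × Fin 2 → ℝ) (k : Fin 7 × Fin 2) :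
    ∑ l, gbf Q (ev (0, 0)) (ev (1, 0)) l * W l k =
      (Q) * W (4, 0) k := by
  refine (ARig_sum Q _ _ fun l => W l k).trans ?_
  simp (decide := true) only [wd, ARig_ev, if_true, if_false]
  ring

theorem ARig_10_41 (Q : ℝ) (W : Fin 7 × Fin 2 → Fin 7 × Fin 2 → ℝ) (k : Fin 7 × Fin 2) :
    ∑ l, gbf Q (ev (1, 0)) (ev (4, 1)) l * W l k =
      (1 / 2 * Q) * W (0, 1) k +
      (-1 / 2) * W (1, 1) k := by
  refine (ARig_sum Q _ _ fun l => W l k).trans ?_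
  simp (decide := true) only [wd, ARig_ev, if_true, if_false]
  ring

theorem ARig_41_00 (Q : ℝ) (W : Fin 7 × Fin 2 → Fin 7 × Fin 2 → ℝ) (k : Fin 7 × Fin 2) :
    ∑ l, gbf Q (ev (4, 1)) (ev (0, 0)) l * W l k =
      -(-1 / 2) * W (0, 1) k +
      -(-1 / 2 * Q) * W (1, 1) k := by
  refine (ARig_sum Q _ _ fun l => W l k).trans ?_
  simp (decide := true) only [wd, ARig_ev, if_true, if_false]
  ring

theorem ARig_00_20 (Q : ℝ) (W : Fin 7 × Fin 2 → Fin 7 × Fin 2 → ℝ) (k : Fin 7 × Fin 2) :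
    ∑ l, gbf Q (ev (0, 0)) (ev (2, 0)) l * W l k =
      (1 + Q ^ 2) * W (5, 0) k +
      (1 + 9 * Q ^ 2) * W (6, 0) k := by
  refine (ARig_sum Q _ _ fun l => W l k).trans ?_
  simp (decide := true) only [wd, ARig_ev, if_true, if_false]
  ring

theorem ARig_20_50 (Q : ℝ) (W : Fin 7 × Fin 2 → Fin 7 × Fin 2 → ℝ) (k : Fin 7 × Fin 2) :
    ∑ l, gbf Q (ev (2, 0)) (ev (5, 0)) l * W l k =
      (-12 * Q - 120 * Q ^ 3 - 108 * Q ^ 5) * W (1, 1) k := by
  refine (ARig_sum Q _ _ fun l => W l k).trans ?_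
  simp (decide := true) only [wd, ARig_ev, if_true, if_false]
  ring

theorem ARig_50_00 (Q : ℝ) (W : Fin 7 × Fin 2 → Fin 7 × Fin 2 → ℝ) (k : Fin 7 × Fin 2) :
    ∑ l, gbf Q (ev (5, 0)) (ev (0, 0)) l * W l k =
      -(-6 * Q - 60 * Q ^ 3 - 54 * Q ^ 5) * W (3, 1) k := by
  refine (ARig_sum Q _ _ fun l => W l k).trans ?_
  simp (decide := true) only [wd, ARig_ev, if_true, if_false]
  ring

theorem ARig_20_51 (Q : ℝ) (W : Fin 7 × Fin 2 → Fin 7 × Fin 2 → ℝ) (k : Fin 7 × Fin 2) :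
    ∑ l, gbf Q (ev (2, 0)) (ev (5, 1)) l * W l k =
      (2 + 2 * Q ^ 2) * W (0, 1) k := by
  refine (ARig_sum Q _ _ fun l => W l k).trans ?_
  simp (decide := true) only [wd, ARig_ev, if_true, if_false]
  ring

theorem ARig_51_00 (Q : ℝ) (W : Fin 7 × Fin 2 → Fin 7 × Fin 2 → ℝ) (k : Fin 7 × Fin 2) :
    ∑ l, gbf Q (ev (5, 1)) (ev (0, 0)) l * W l k =
      -(1 + Q ^ 2) * W (2, 1) k := by
  refine (ARig_sum Q _ _ fun l => W l k).trans ?_
  simp (decide := true) only [wd, ARig_ev, if_true, if_false]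
  ring

theorem ARig_20_60 (Q : ℝ) (W : Fin 7 × Fin 2 → Fin 7 × Fin 2 → ℝ) (k : Fin 7 × Fin 2) :
    ∑ l, gbf Q (ev (2, 0)) (ev (6, 0)) l * W l k =
      (-8 * Q ^ 2 - 8 * Q ^ 4) * W (0, 1) k +
      (-4 * Q - 16 * Q ^ 3 - 12 * Q ^ 5) * W (1, 1) k := by
  refine (ARig_sum Q _ _ fun l => W l k).trans ?_
  simp (decide := true) only [wd, ARig_ev, if_true, if_false]
  ring

theorem ARig_60_00 (Q : ℝ) (W : Fin 7 × Fin 2 → Fin 7 × Fin 2 → ℝ) (k : Fin 7 × Fin 2) :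
    ∑ l, gbf Q (ev (6, 0)) (ev (0, 0)) l * W l k =
      -(-8 * Q ^ 2 - 8 * Q ^ 4) * W (2, 1) k +
      -(2 * Q - 4 * Q ^ 3 - 6 * Q ^ 5) * W (3, 1) k := by
  refine (ARig_sum Q _ _ fun l => W l k).trans ?_
  simp (decide := true) only [wd, ARig_ev, if_true, if_false]
  ring

theorem ARig_20_61 (Q : ℝ) (W : Fin 7 × Fin 2 → Fin 7 × Fin 2 → ℝ) (k : Fin 7 × Fin 2) :
    ∑ l, gbf Q (ev (2, 0)) (ev (6, 1)) l * W l k =
      (2 + 6 * Q ^ 2) * W (0, 1) k +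
      (-4 * Q) * W (1, 1) k := by
  refine (ARig_sum Q _ _ fun l => W l k).trans ?_
  simp (decide := true) only [wd, ARig_ev, if_true, if_false]
  ring

theorem ARig_61_00 (Q : ℝ) (W : Fin 7 × Fin 2 → Fin 7 × Fin 2 → ℝ) (k : Fin 7 × Fin 2) :
    ∑ l, gbf Q (ev (6, 1)) (ev (0, 0)) l * W l k =
      -(1 - 3 * Q ^ 2) * W (2, 1) k +
      -(4 * Q) * W (3, 1) k := by
  refine (ARig_sum Q _ _ fun l => W l k).trans ?_
  simp (decide := true) only [wd, ARig_ev, if_true, if_false]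
  ring

theorem ARig_00_30 (Q : ℝ) (W : Fin 7 × Fin 2 → Fin 7 × Fin 2 → ℝ) (k : Fin 7 × Fin 2) :
    ∑ l, gbf Q (ev (0, 0)) (ev (3, 0)) l * W l k =
      (6 * Q + 60 * Q ^ 3 + 54 * Q ^ 5) * W (5, 1) k +
      (-2 * Q - 20 * Q ^ 3 - 18 * Q ^ 5) * W (6, 1) k := by
  refine (ARig_sum Q _ _ fun l => W l k).trans ?_
  simp (decide := true) only [wd, ARig_ev, if_true, if_false]
  ring

theorem ARig_30_50 (Q : ℝ) (W : Fin 7 × Fin 2 → Fin 7 × Fin 2 → ℝ) (k : Fin 7 × Fin 2) :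
    ∑ l, gbf Q (ev (3, 0)) (ev (5, 0)) l * W l k =
      (-12 * Q - 120 * Q ^ 3 - 108 * Q ^ 5) * W (0, 1) k := by
  refine (ARig_sum Q _ _ fun l => W l k).trans ?_
  simp (decide := true) only [wd, ARig_ev, if_true, if_false]
  ring

theorem ARig_30_51 (Q : ℝ) (W : Fin 7 × Fin 2 → Fin 7 × Fin 2 → ℝ) (k : Fin 7 × Fin 2) :
    ∑ l, gbf Q (ev (3, 0)) (ev (5, 1)) l * W l k =
      (-2 - 2 * Q ^ 2) * W (1, 1) k := by
  refine (ARig_sum Q _ _ fun l => W l k).trans ?_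
  simp (decide := true) only [wd, ARig_ev, if_true, if_false]
  ring

theorem ARig_30_60 (Q : ℝ) (W : Fin 7 × Fin 2 → Fin 7 × Fin 2 → ℝ) (k : Fin 7 × Fin 2) :
    ∑ l, gbf Q (ev (3, 0)) (ev (6, 0)) l * W l k =
      (4 * Q + 16 * Q ^ 3 + 12 * Q ^ 5) * W (0, 1) k +
      (-8 * Q ^ 2 - 8 * Q ^ 4) * W (1, 1) k := by
  refine (ARig_sum Q _ _ fun l => W l k).trans ?_
  simp (decide := true) only [wd, ARig_ev, if_true, if_false]
  ring

theorem ARig_30_61 (Q : ℝ) (W : Fin 7 × Fin 2 → Fin 7 × Fin 2 → ℝ) (k : Fin 7 × Fin 2) :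
    ∑ l, gbf Q (ev (3, 0)) (ev (6, 1)) l * W l k =
      (4 * Q) * W (0, 1) k +
      (2 + 6 * Q ^ 2) * W (1, 1) k := by
  refine (ARig_sum Q _ _ fun l => W l k).trans ?_
  simp (decide := true) only [wd, ARig_ev, if_true, if_false]
  ring

theorem ARig_10_20 (Q : ℝ) (W : Fin 7 × Fin 2 → Fin 7 × Fin 2 → ℝ) (k : Fin 7 × Fin 2) :
    ∑ l, gbf Q (ev (1, 0)) (ev (2, 0)) l * W l k =
      (6 * Q + 60 * Q ^ 3 + 54 * Q ^ 5) * W (5, 1) k +
      (2 * Q + 20 * Q ^ 3 + 18 * Q ^ 5) * W (6, 1) k := by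
  refine (ARig_sum Q _ _ fun l => W l k).trans ?_
  simp (decide := true) only [wd, ARig_ev, if_true, if_false]
  ring

theorem ARig_50_10 (Q : ℝ) (W : Fin 7 × Fin 2 → Fin 7 × Fin 2 → ℝ) (k : Fin 7 × Fin 2) :
    ∑ l, gbf Q (ev (5, 0)) (ev (1, 0)) l * W l k =
      -(-6 * Q - 60 * Q ^ 3 - 54 * Q ^ 5) * W (2, 1) k := by
  refine (ARig_sum Q _ _ fun l => W l k).trans ?_
  simp (decide := true) only [wd, ARig_ev, if_true, if_false]
  ring

theorem ARig_51_10 (Q : ℝ) (W : Fin 7 × Fin 2 → Fin 7 × Fin 2 → ℝ) (k : Fin 7 × Fin 2) :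
    ∑ l, gbf Q (ev (5, 1)) (ev (1, 0)) l * W l k =
      -(-1 - Q ^ 2) * W (3, 1) k := by
  refine (ARig_sum Q _ _ fun l => W l k).trans ?_
  simp (decide := true) only [wd, ARig_ev, if_true, if_false]
  ring

theorem ARig_60_10 (Q : ℝ) (W : Fin 7 × Fin 2 → Fin 7 × Fin 2 → ℝ) (k : Fin 7 × Fin 2) :
    ∑ l, gbf Q (ev (6, 0)) (ev (1, 0)) l * W l k =
      -(-2 * Q + 4 * Q ^ 3 + 6 * Q ^ 5) * W (2, 1) k +
      -(-8 * Q ^ 2 - 8 * Q ^ 4) * W (3, 1) k := by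
  refine (ARig_sum Q _ _ fun l => W l k).trans ?_
  simp (decide := true) only [wd, ARig_ev, if_true, if_false]
  ring

theorem ARig_61_10 (Q : ℝ) (W : Fin 7 × Fin 2 → Fin 7 × Fin 2 → ℝ) (k : Fin 7 × Fin 2) :
    ∑ l, gbf Q (ev (6, 1)) (ev (1, 0)) l * W l k =
      -(-4 * Q) * W (2, 1) k +
      -(1 - 3 * Q ^ 2) * W (3, 1) k := by
  refine (ARig_sum Q _ _ fun l => W l k).trans ?_
  simp (decide := true) only [wd, ARig_ev, if_true, if_false]
  ring

theorem ARig_10_30 (Q : ℝ) (W : Fin 7 × Fin 2 → Fin 7 × Fin 2 → ℝ) (k : Fin 7 × Fin 2) :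
    ∑ l, gbf Q (ev (1, 0)) (ev (3, 0)) l * W l k =
      (-1 - Q ^ 2) * W (5, 0) k +
      (1 + 9 * Q ^ 2) * W (6, 0) k := by
  refine (ARig_sum Q _ _ fun l => W l k).trans ?_
  simp (decide := true) only [wd, ARig_ev, if_true, if_false]
  ring

theorem ARig_20_30 (Q : ℝ) (W : Fin 7 × Fin 2 → Fin 7 × Fin 2 → ℝ) (k : Fin 7 × Fin 2) :
    ∑ l, gbf Q (ev (2, 0)) (ev (3, 0)) l * W l k =
      (-32 * Q - 320 * Q ^ 3 - 288 * Q ^ 5) * W (4, 1) k := by
  refine (ARig_sum Q _ _ fun l => W l k).trans ?_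
  simp (decide := true) only [wd, ARig_ev, if_true, if_false]
  ring

theorem ARig_30_40 (Q : ℝ) (W : Fin 7 × Fin 2 → Fin 7 × Fin 2 → ℝ) (k : Fin 7 × Fin 2) :
    ∑ l, gbf Q (ev (3, 0)) (ev (4, 0)) l * W l k =
      (16 * Q + 160 * Q ^ 3 + 144 * Q ^ 5) * W (2, 1) k +
      (-16 - 160 * Q ^ 2 - 144 * Q ^ 4) * W (3, 1) k := by
  refine (ARig_sum Q _ _ fun l => W l k).trans ?_
  simp (decide := true) only [wd, ARig_ev, if_true, if_false]
  ring

theorem ARig_40_20 (Q : ℝ) (W : Fin 7 × Fin 2 → Fin 7 × Fin 2 → ℝ) (k : Fin 7 × Fin 2) :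
    ∑ l, gbf Q (ev (4, 0)) (ev (2, 0)) l * W l k =
      -(-16 - 160 * Q ^ 2 - 144 * Q ^ 4) * W (2, 1) k +
      -(-16 * Q - 160 * Q ^ 3 - 144 * Q ^ 5) * W (3, 1) k := by
  refine (ARig_sum Q _ _ fun l => W l k).trans ?_
  simp (decide := true) only [wd, ARig_ev, if_true, if_false]
  ring

theorem ARig_00_11 (Q : ℝ) (W : Fin 7 × Fin 2 → Fin 7 × Fin 2 → ℝ) (k : Fin 7 × Fin 2) :
    ∑ l, gbf Q (ev (0, 0)) (ev (1, 1)) l * W l k =
      0 := by
  refine (ARig_sum Q _ _ fun l => W l k).trans ?_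
  simp (decide := true) only [wd, ARig_ev, if_true, if_false]
  ring

theorem ARig_11_41 (Q : ℝ) (W : Fin 7 × Fin 2 → Fin 7 × Fin 2 → ℝ) (k : Fin 7 × Fin 2) :
    ∑ l, gbf Q (ev (1, 1)) (ev (4, 1)) l * W l k =
      0 := by
  refine (ARig_sum Q _ _ fun l => W l k).trans ?_
  simp (decide := true) only [wd, ARig_ev, if_true, if_false]
  ring

theorem ARig_00_21 (Q : ℝ) (W : Fin 7 × Fin 2 → Fin 7 × Fin 2 → ℝ) (k : Fin 7 × Fin 2) :
    ∑ l, gbf Q (ev (0, 0)) (ev (2, 1)) l * W l k =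
      0 := by
  refine (ARig_sum Q _ _ fun l => W l k).trans ?_
  simp (decide := true) only [wd, ARig_ev, if_true, if_false]
  ring

theorem ARig_21_61 (Q : ℝ) (W : Fin 7 × Fin 2 → Fin 7 × Fin 2 → ℝ) (k : Fin 7 × Fin 2) :
    ∑ l, gbf Q (ev (2, 1)) (ev (6, 1)) l * W l k =
      0 := by
  refine (ARig_sum Q _ _ fun l => W l k).trans ?_
  simp (decide := true) only [wd, ARig_ev, if_true, if_false]
  ring

end Pool.Agent.Work.MP_bf98aa_gt.Th
end

-- merged part: Pool.Agent.Work.MP_bf98aa_gt.Th.APf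
section
/-!
Mixed Pfaffians of the forms `etaA`.

PLAN. `pf_binom`: `exists_pfM`, `MultilinearMap.map_add_univ`; a term with `w` on a set `A` of slots only depends on `card A` (`pf_perm`). State it as
`pf (fun _ => w + t • ω) = ∑ A : Finset S, t ^ (card S - card A) * pf (A.piecewise w ω)` and compare coefficients of the polynomials in `t`
(`Polynomial.funext`). `pf_lin`: `etaA α β π + t • omA = omA ∘ A` where `A` fixes the coordinates `(s, 0)` and acts on the coordinates `(s, 1)` by the matrix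
`B = diagonal (α + t) + diagonal β * Π`; `pf_comp`; `det A = det B` (reindex `S × Fin 2 ≃ S ⊕ S`, `Matrix.det_fromBlocks_zero₂₁`, or `Matrix.det_blockDiagonal`). Over `ℂ`,
with `P = 1 + I • Π`: `B * P = P * diagonal (α + t + β I)` and `P * (1 - I • Π) = 2`. `Finset.prod_add` (or `Finset.prod_add_one`) expands the product.
-/

set_option autoImplicit false
set_option linter.unusedSectionVars false

namespace Pool.Agent.Work.MP_bf98aa_gt.Th

variable {S : Type} [Fintype S] [DecidableEq S] {α β : S → ℝ} {π : S → S}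

theorem APf_eta (u v : Sp S) : etaA α β π ![u, v] =
    ∑ s, (α s * (u (s, 0) * v (s, 1) - v (s, 0) * u (s, 1)) +
      β s * (u (s, 0) * v (π s, 1) - v (s, 0) * u (π s, 1))) := by
  rw [etaA, alt2_apply]
  simp only [Matrix.cons_val_zero, Matrix.cons_val_one, sum_apply, add_apply, smul_apply, dxy,
    ContinuousLinearMap.smulRight_apply, ContinuousLinearMap.proj_apply, smul_eq_mul]
  rw [← Finset.sum_sub_distrib]
  exact Finset.sum_congr rfl fun s _ => by ring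

/-- The matrix of a self map. -/
def APf_P (R : Type) [Ring R] (π : S → S) : Matrix S S R :=
  Matrix.of fun s s' => if π s = s' then 1 else 0

theorem APf_mul {R : Type} [Ring R] (X : Matrix S S R) (s s' : S) :
    (APf_P R π * X) s s' = X (π s) s' := by
  simp [APf_P, Matrix.mul_apply]

theorem APf_det (h1 : ∀ s, π (π s) = s) (a b : S → ℂ) (h2 : ∀ s, a (π s) = a s)
    (h3 : ∀ s, b (π s) = -b s) :
    (Matrix.diagonal a + Matrix.diagonal b * APf_P ℂ π).det = ∏ s, (a s + b s * Complex.I) := by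
  have pp : APf_P ℂ π * APf_P ℂ π = 1 := by
    ext s s'
    rw [APf_mul]
    simp [APf_P, h1, Matrix.one_apply]
  have pa : APf_P ℂ π * Matrix.diagonal a = Matrix.diagonal a * APf_P ℂ π := by
    ext s s'
    rw [APf_mul, Matrix.diagonal_mul, Matrix.diagonal_apply]
    simp [APf_P, h2]
  have pb : APf_P ℂ π * Matrix.diagonal b = -(Matrix.diagonal b * APf_P ℂ π) := by
    ext s s'
    rw [APf_mul, Matrix.neg_apply, Matrix.diagonal_mul, Matrix.diagonal_apply]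
    simp only [APf_P, h3, Matrix.of_apply]
    split_ifs <;> simp
  have dd : Matrix.diagonal (fun s => a s + b s * Complex.I) =
      Matrix.diagonal a + Complex.I • Matrix.diagonal b := by
    ext s s'
    by_cases h : s = s' <;> simp [h, mul_comm]
  have k1 : (Matrix.diagonal a + Matrix.diagonal b * APf_P ℂ π) * (1 + Complex.I • APf_P ℂ π) =
      (1 + Complex.I • APf_P ℂ π) * Matrix.diagonal (fun s => a s + b s * Complex.I) := by
    rw [dd]
    simp only [mul_add, add_mul, mul_one, one_mul, Matrix.mul_smul, Matrix.smul_mul, mul_assoc, pp,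
      pa, pb, smul_smul, Complex.I_mul_I, smul_neg, neg_smul, one_smul, neg_neg]
    abel
  have k2 : (1 + Complex.I • APf_P ℂ π) * (1 - Complex.I • APf_P ℂ π) = (2 : ℂ) • 1 := by
    simp only [mul_sub, add_mul, mul_one, one_mul, Matrix.mul_smul, Matrix.smul_mul, pp,
      smul_smul, Complex.I_mul_I, neg_smul, one_smul, two_smul]
    abel
  have k3 : (1 + Complex.I • APf_P ℂ π).det ≠ 0 := fun h => by
    have := congrArg Matrix.det k2
    rw [Matrix.det_mul, h, zero_mul, Matrix.det_smul, Matrix.det_one, mul_one] at this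
    exact pow_ne_zero _ two_ne_zero this.symm
  have := congrArg Matrix.det k1
  rw [Matrix.det_mul, Matrix.det_mul, Matrix.det_diagonal, mul_comm] at this
  exact mul_left_cancel₀ k3 this

theorem APf_blk (M : Fin 2 → Matrix S S ℝ) (u : Sp S) (s : S) (i : Fin 2) :
    Matrix.toLin' (Matrix.blockDiagonal M) u (s, i) = ∑ s', M i s s' * u (s', i) := by
  rw [Matrix.toLin'_apply, Matrix.mulVec, dotProduct, Fintype.sum_prod_type]
  refine Finset.sum_congr rfl fun s' _ => ?_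
  simp [Matrix.blockDiagonal_apply]

theorem APf_coeff {n n' : ℕ} (hS : Fintype.card S = n + n') (f : Finset S → ℂ)
    (h : ∀ t : ℝ, ∑ A, f A * (t : ℂ) ^ Aᶜ.card = 0) :
    ∑ A ∈ Finset.powersetCard n Finset.univ, f A = 0 := by
  have hp : (∑ A : Finset S, Polynomial.monomial Aᶜ.card (f A) : Polynomial ℂ) = 0 := by
    refine Polynomial.eq_zero_of_infinite_isRoot _
      ((Set.infinite_range_of_injective Complex.ofReal_injective).mono ?_)
    rintro _ ⟨t, rfl⟩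
    simp only [Set.mem_ofPred_eq, Polynomial.IsRoot.def, Polynomial.eval_finsetSum,
      Polynomial.eval_monomial, h]
  have hc := congrArg (fun p : Polynomial ℂ => p.coeff n') hp
  simp only [Polynomial.finsetSum_coeff, Polynomial.coeff_monomial, Polynomial.coeff_zero] at hc
  rw [← Finset.sum_filter] at hc
  refine Eq.trans (Finset.sum_congr ?_ fun _ _ => rfl) hc
  ext A
  have := Finset.card_le_univ A
  simp only [Finset.mem_powersetCard, Finset.subset_univ, true_and, Finset.mem_filter,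
    Finset.mem_univ, Finset.card_compl]
  omega

theorem pf_lin (h1 : ∀ s, π (π s) = s) (h2 : ∀ s, α (π s) = α s) (h3 : ∀ s, β (π s) = -β s)
    (t : ℝ) : ((pf fun _ : S => etaA α β π + t • omA : ℝ) : ℂ) =
      (∏ s, ((α s : ℂ) + (β s : ℂ) * Complex.I + t)) * (pf fun _ : S => (omA : Alt (Sp S) 2) : ℝ) := by
  have e1 : etaA α β π + t • omA = (omA : Alt (Sp S) 2).compContinuousLinearMap
      (LinearMap.toContinuousLinearMap (Matrix.toLin' (Matrix.blockDiagonal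
        ![1, Matrix.diagonal (fun s => α s + t) + Matrix.diagonal β * APf_P ℝ π]))) := by
    refine alt_ext_two fun u v => ?_
    rw [IPf_comp, IPf_omA, ContinuousAlternatingMap.add_apply,
      ContinuousAlternatingMap.smul_apply, APf_eta, IPf_omA, smul_eq_mul, Finset.mul_sum,
      ← Finset.sum_add_distrib]
    refine Finset.sum_congr rfl fun s _ => ?_
    simp only [LinearMap.coe_toContinuousLinearMap', APf_blk]
    simp [Matrix.one_apply, Matrix.diagonal_apply, APf_P, add_mul, Finset.sum_add_distrib]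
    ring
  have e2 := APf_det h1 (fun s => (α s : ℂ) + t) (fun s => (β s : ℂ)) (fun s => by rw [h2])
    (fun s => by rw [h3, Complex.ofReal_neg])
  rw [e1, pf_comp (fun _ => omA), Complex.ofReal_mul, ContinuousLinearMap.det,
    LinearMap.coe_toContinuousLinearMap, LinearMap.det_toLin', Matrix.det_blockDiagonal,
    Fin.prod_univ_two]
  simp only [Matrix.cons_val_zero, Matrix.cons_val_one, Matrix.det_one, one_mul]
  refine congrArg (· * _) ?_
  rw [Finset.prod_congr rfl fun s _ => add_right_comm _ _ _, ← e2]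
  refine (RingHom.map_det Complex.ofRealHom _).trans (congrArg Matrix.det ?_)
  ext s s'
  simp only [RingHom.mapMatrix_apply, Matrix.map_apply, Matrix.add_apply, Matrix.diagonal_mul,
    Matrix.diagonal_apply, APf_P, Matrix.of_apply]
  split_ifs <;> simp

theorem pf_piecewise {n n' : ℕ} (e : Fin n ⊕ Fin n' ≃ S) (w ω : Alt (Sp S) 2) {A : Finset S}
    (hA : A.card = n) : pf (A.piecewise (fun _ => w) fun _ => ω) = pf (fam e w fun _ => ω) := by
  have hS : Fintype.card S = n + n' := by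
    rw [← Fintype.card_congr e, Fintype.card_sum, Fintype.card_fin, Fintype.card_fin]
  have e1 : {s // s ∈ A} ≃ Fin n := Fintype.equivFinOfCardEq (by rw [Fintype.card_coe, hA])
  have e2 : {s // s ∉ A} ≃ Fin n' := Fintype.equivFinOfCardEq (by
    rw [Fintype.card_subtype_compl, Fintype.card_coe, hA, hS, Nat.add_sub_cancel_left])
  rw [← pf_perm (fam e w fun _ => ω)
    ((Equiv.sumCompl (· ∈ A)).symm.trans ((e1.sumCongr e2).trans e))]
  refine congrArg pf (funext fun s => ?_)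
  by_cases h : s ∈ A
  · simp [fam, h, Equiv.sumCompl_symm_apply_of_pos (p := (· ∈ A)) h]
  · simp [fam, h, Equiv.sumCompl_symm_apply_of_neg (p := (· ∈ A)) h]

theorem pf_eta {n n' : ℕ} (e : Fin n ⊕ Fin n' ≃ S) (h1 : ∀ s, π (π s) = s)
    (h2 : ∀ s, α (π s) = α s) (h3 : ∀ s, β (π s) = -β s) :
    ((((n + n').choose n : ℝ) * pf (fam e (etaA α β π) fun _ => omA) : ℝ) : ℂ) =
      (pf fun _ : S => (omA : Alt (Sp S) 2) : ℝ) *
        es n fun s => (α s : ℂ) + (β s : ℂ) * Complex.I := by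
  have hS : Fintype.card S = n + n' := by
    rw [← Fintype.card_congr e, Fintype.card_sum, Fintype.card_fin, Fintype.card_fin]
  obtain ⟨Φ, hΦ⟩ := exists_pfM (S := S)
  have k := APf_coeff hS (fun A => ((pf (A.piecewise (fun _ => etaA α β π) fun _ => omA) : ℝ) : ℂ) -
    (pf fun _ : S => (omA : Alt (Sp S) 2) : ℝ) * ∏ s ∈ A, ((α s : ℂ) + (β s : ℂ) * Complex.I))
    fun t => by
      have e1 := pf_lin h1 h2 h3 t
      rw [← hΦ, show (fun _ : S => etaA α β π + t • omA) =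
        (fun _ : S => etaA α β π) + fun _ : S => t • omA from rfl, Φ.map_add_univ,
        Finset.prod_add, Finset.powerset_univ, Finset.sum_mul, Complex.ofReal_sum] at e1
      simp only [sub_mul]
      rw [Finset.sum_sub_distrib, sub_eq_zero]
      refine Eq.trans (Finset.sum_congr rfl fun A _ => ?_)
        (e1.trans (Finset.sum_congr rfl fun A _ => ?_))
      · rw [hΦ, show (A.piecewise (fun _ : S => etaA α β π) fun _ : S => t • omA) =
          fun s => A.piecewise (fun _ => (1 : ℝ)) (fun _ => t) s •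
            A.piecewise (fun _ : S => etaA α β π) (fun _ => omA) s from
          funext fun s => by by_cases h : s ∈ A <;> simp [h], pf_smul, Finset.prod_piecewise]
        simp [mul_comm, Finset.compl_eq_univ_sdiff]
      · rw [Finset.prod_const, Finset.compl_eq_univ_sdiff]
        ring
  rw [Finset.sum_sub_distrib, sub_eq_zero, ← Finset.mul_sum, Finset.sum_congr rfl fun A hA => by
    rw [pf_piecewise e _ _ (Finset.mem_powersetCard.1 hA).2], Finset.sum_const,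
    Finset.card_powersetCard, Finset.card_univ, hS] at k
  rw [es, ← k]
  simp

theorem etaA_tame (h1 : ∀ s, π (π s) = s) (h3 : ∀ s, β (π s) = -β s) (hα : ∀ s, 0 < α s)
    {v : Sp S} (hv : v ≠ 0) : 0 < etaA α β π ![v, Jv v] := by
  have e1 : ∑ s, β s * (v (s, 0) * v (π s, 0) + v (s, 1) * v (π s, 1)) = 0 := by
    have k := Equiv.sum_comp (Function.Involutive.toPerm π h1)
      fun s => β s * (v (s, 0) * v (π s, 0) + v (s, 1) * v (π s, 1))
    rw [Finset.sum_congr rfl (g := fun s =>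
      -(β s * (v (s, 0) * v (π s, 0) + v (s, 1) * v (π s, 1)))) fun s _ => by
        rw [show Function.Involutive.toPerm π h1 s = π s from rfl, h1, h3]
        ring, Finset.sum_neg_distrib] at k
    linarith only [k]
  have e3 : etaA α β π ![v, Jv v] = ∑ s, α s * (v (s, 0) ^ 2 + v (s, 1) ^ 2) := by
    rw [APf_eta, ← add_zero (∑ s, α s * _), ← e1, ← Finset.sum_add_distrib]
    refine Finset.sum_congr rfl fun s _ => ?_
    simp only [Jv, if_true, one_ne_zero, if_false]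
    ring
  obtain ⟨⟨s, i⟩, hs⟩ := Function.ne_iff.1 hv
  rw [e3]
  refine Finset.sum_pos' (fun s _ => mul_nonneg (hα s).le (by positivity))
    ⟨s, Finset.mem_univ _, mul_pos (hα s) ?_⟩
  fin_cases i
  · have : v (s, 0) ≠ 0 := hs
    positivity
  · have : v (s, 1) ≠ 0 := hs
    positivity

end Pool.Agent.Work.MP_bf98aa_gt.Th
end
end

-- merged part: Pool.Agent.Work.MP_bf98aa_gt.Th.FBump
section
-- merged part: Pool.Agent.Work.MP_bf98aa_gt.Th.FStep
section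
/-!
One step of the bumping argument.

PLAN. Let `A = U ∩ B`, `A' = U' ∩ B`, `χ` smooth with compact `tsupport χ ⊆ B` and `χ = 1` on an open `N ⊇ C`, `N ⊆ B`
(`exists_contDiff_tsupport_subset`-type lemmas or `exists_contMDiff_zero_iff_one_iff_of_isClosed`); `U' = U ∪ (U' ∩ orb N)`.
`step_surj` degree 0: `α = c` on `A`; glue `α` with the constant `c` on `orb A'`. Degree `k+1`: `α = d β` on `A`,
`δ' = spread_cpt (χ • β)`, `α - d δ'` vanishes on `U ∩ N`, hence on `U ∩ orb N` (`inv_ext`); glue it with `0`.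
`step_inj` degree 0: `α` is constant on `A'` and zero at a point of `A`. Degree 1: `α = d β` on `U`, `= d β'` on `A'`,
`β - β' = c` on `A`; glue `β` with `spread (β' + c)`. Degree `k+2`: `β - β' = d γ` on `A`; `δ' = spread_cpt (χ • γ)`;
`β - d δ' = β'` on `U ∩ N`; glue `β - d δ'` with `spread β'` (on `V = U' ∩ N`); `extDeriv_extDeriv_apply`.
-/

set_option autoImplicit false

open scoped ContDiff Topology
open Set

namespace Pool.Agent.Work.MP_bf98aa_gt.Th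

variable {E : Type} [NormedAddCommGroup E] [NormedSpace ℝ E] [FiniteDimensional ℝ E] {k : ℕ}
  {Γ : Type} [Group Γ] [MulAction Γ E]

omit [FiniteDimensional ℝ E] in
theorem FStep_cl {U W : Set E} {α : Fm E k} (h : Cl α W) (hU : U ⊆ W) : Cl α U :=
  ⟨h.1.mono hU, fun x hx => h.2 x (hU hx)⟩

omit [FiniteDimensional ℝ E] in
theorem FStep_inv {U W : Set E} {α : Fm E k} (h : Inv Γ α W) (hU : U ⊆ W) : Inv Γ α U :=
  fun γ x hx => h γ x (hU hx)

omit [FiniteDimensional ℝ E] in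
theorem FStep_d {U : Set E} (hU : IsOpen U) {α β : Fm E k} (e : ∀ x ∈ U, α x = β x) {x : E}
    (hx : x ∈ U) : extDeriv α x = extDeriv β x :=
  Filter.EventuallyEq.extDeriv_eq (Filter.mem_of_superset (hU.mem_nhds hx) e)

omit [FiniteDimensional ℝ E] in
theorem FStep_zero (U : Set E) : Cl (0 : Fm E k) U ∧ Inv Γ (0 : Fm E k) U :=
  ⟨⟨contDiffOn_const, fun x _ => extDeriv_const 0 x⟩, fun _ _ _ => rfl⟩

omit [FiniteDimensional ℝ E] in
theorem FStep_congr {U : Set E} {α β : Fm E k} (h : Triv Γ k α U) (e : ∀ x ∈ U, α x = β x) :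
    Triv Γ k β U := by
  cases k with
  | zero => exact fun x hx => (e x hx).symm.trans (h x hx)
  | succ k =>
    obtain ⟨γ, h1, h2⟩ := h
    exact ⟨γ, ⟨h1.1, fun x hx => (h1.2 x hx).trans (e x hx)⟩, h2⟩

omit [FiniteDimensional ℝ E] in
theorem FStep_triv (U : Set E) : Triv Γ k (0 : Fm E k) U := by
  cases k with
  | zero => exact fun _ _ => rfl
  | succ k => exact ⟨0, (FStep_zero (Γ := Γ) U).1, (FStep_zero U).2⟩

theorem FStep_split (h : Act Γ E) {U B C : Set E} (hU : IsOpen U) (hI : InvSet Γ U) (hB : IsOpen B)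
    (hs : Small Γ B) (hC : IsCompact C) (hCB : C ⊆ B) (hA : RA k (U ∩ B)) {δ : Fm E k}
    (hδ : Cl δ (U ∩ B)) : ∃ (N : Set E) (θ ζ : Fm E k), IsOpen N ∧ C ⊆ N ∧ N ⊆ B ∧ Cl θ U ∧
      Inv Γ θ U ∧ Triv Γ k θ U ∧ Cl ζ univ ∧ Inv Γ ζ univ ∧ ∀ x ∈ U ∩ N, δ x - θ x = ζ x := by
  cases k with
  | zero =>
    obtain ⟨c, e⟩ := hA δ hδ
    exact ⟨B, 0, fun _ => c, hB, hCB, subset_rfl, (FStep_zero (Γ := Γ) U).1, (FStep_zero U).2,
      FStep_triv U, ⟨contDiffOn_const, fun x _ => extDeriv_const c x⟩,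
      fun γ x _ => pb_deg_zero _ _ x, fun x hx => (sub_zero _).trans (e x hx)⟩
  | succ k =>
    obtain ⟨β, e⟩ := hA δ hδ
    obtain ⟨K, hK, hCK, hKB⟩ := exists_compact_between hC hB hCB
    obtain ⟨χ, c1, c0, -⟩ := exists_contMDiffMap_one_nhds_of_subset_interior (n := ⊤)
      (modelWithCornersSelf ℝ E) hC.isClosed hCK
    obtain ⟨N, hN, hCN, c1⟩ := mem_nhdsSet_iff_exists.1 c1
    obtain ⟨δ', d1, d2, d3⟩ := spread_cpt h hB hs hK hKB hU hI (δ := fun x => χ x • β x)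
      (χ.contMDiff.contDiff.contDiffOn.smul e.1) fun x _ hx => by rw [c0 x hx, zero_smul]
    refine ⟨N ∩ B, extDeriv δ', 0, hN.inter hB, subset_inter hCN hCB, inter_subset_right,
      IsD.cl ⟨d1, fun _ _ => rfl⟩ hU, d2.extDeriv h hU hI d1, ⟨δ', ⟨d1, fun _ _ => rfl⟩, d2⟩,
      (FStep_zero (Γ := Γ) _).1, (FStep_zero _).2, fun x hx => sub_eq_zero.2 ?_⟩
    rw [← e.2 x ⟨hx.1, hx.2.2⟩]
    exact FStep_d (hU.inter (hN.inter hB))
      (fun y hy => ((d3 y ⟨hy.1, hy.2.2⟩).trans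
        ((congrArg (· • β y) (c1 hy.2.1)).trans (one_smul ℝ _))).symm) hx

theorem step_surj (h : Act Γ E) {U U' B C : Set E} (hU : IsOpen U) (hU' : IsOpen U')
    (hI : InvSet Γ U) (hI' : InvSet Γ U') (hUU : U ⊆ U') (hB : IsOpen B) (hs : Small Γ B)
    (hC : IsCompact C) (hCB : C ⊆ B) (hsub : U' ⊆ U ∪ orb Γ C) (hA : RA k (U ∩ B)) :
    Surj Γ k U U' := by
  intro α hα hi
  obtain ⟨N, θ, ζ, hN, hCN, -, t1, t2, t3, w1, w2, e⟩ :=
    FStep_split h hU hI hB hs hC hCB hA (FStep_cl hα inter_subset_left)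
  have hO := h.isOpen_orb hN
  have hc := hα.sub hU t1
  obtain ⟨γ, g1, g2, g3, g4⟩ := glue hU hO hI (invSet_orb N) hc.1 (w1.1.mono (subset_univ _))
    (hi.sub t2) (FStep_inv w2 (subset_univ _))
    (inv_ext h hI (hi.sub t2) (FStep_inv w2 (subset_univ _)) e)
  have hsub' : U' ⊆ U ∪ orb Γ N :=
    hsub.trans (union_subset_union_right U fun x ⟨g, hg⟩ => ⟨g, hCN hg⟩)
  refine ⟨γ, ⟨g1.mono hsub', fun x hx => ?_⟩, FStep_inv g2 hsub', FStep_congr t3 fun x hx => ?_⟩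
  · rcases hsub' hx with hx | hx
    · exact (FStep_d hU g3 hx).trans (hc.2 x hx)
    · exact (FStep_d hO g4 hx).trans (w1.2 x trivial)
  · rw [Pi.sub_apply, g3 x hx, Pi.sub_apply, sub_sub_cancel]

theorem step_inj_zero (h : Act Γ E) {U U' B C : Set E} (hI' : InvSet Γ U') (hUU : U ⊆ U')
    (hCB : C ⊆ B) (hsub : U' ⊆ U ∪ orb Γ C) (hne : (U ∩ B).Nonempty) (hA' : RA 0 (U' ∩ B)) :
    Inj Γ 0 U U' := by
  intro α hα hi h0 x hx
  obtain ⟨c, e⟩ := hA' α (FStep_cl hα inter_subset_left)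
  obtain ⟨z, z1, z2⟩ := hne
  rcases hsub hx with hx' | ⟨g, hg⟩
  · exact h0 x hx'
  · rw [← hi g x hx, pb_deg_zero, e _ ⟨hI' g x hx, hCB hg⟩, ← e z ⟨hUU z1, z2⟩, h0 z z1]

theorem step_inj_succ (h : Act Γ E) {U U' B C : Set E} (hU : IsOpen U) (hU' : IsOpen U')
    (hI : InvSet Γ U) (hI' : InvSet Γ U') (hUU : U ⊆ U') (hB : IsOpen B) (hs : Small Γ B)
    (hC : IsCompact C) (hCB : C ⊆ B) (hsub : U' ⊆ U ∪ orb Γ C) (hA : RA k (U ∩ B))
    (hA' : RA (k + 1) (U' ∩ B)) : Inj Γ (k + 1) U U' := by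
  rintro α hα hi ⟨β, b1, b2⟩
  obtain ⟨β', b3⟩ := hA' α (FStep_cl hα inter_subset_left)
  have hsB : U ∩ B ⊆ U' ∩ B := inter_subset_inter_left B hUU
  obtain ⟨N, θ, ζ, hN, hCN, hNB, t1, t2, -, w1, w2, e⟩ :=
    FStep_split h hU hI hB hs hC hCB hA (δ := β - β')
      ⟨(b1.1.mono inter_subset_left).sub (b3.1.mono hsB), fun x hx => by
        rw [extDeriv_sub' (b1.1.diffAt hU hx.1) (b3.1.diffAt (hU'.inter hB) (hsB hx)),
          b1.2 x hx.1, b3.2 x (hsB hx), sub_self]⟩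
  have hV : IsOpen (U' ∩ N) := hU'.inter hN
  have hVB : U' ∩ N ⊆ U' ∩ B := inter_subset_inter_right U' hNB
  have hO := h.isOpen_orb hV
  obtain ⟨δ, d1, d2, d3⟩ := spread h hV (fun g x hx hg => hs g x (hNB hx.2) (hNB hg.2))
    (δ := β' + ζ) ((b3.1.mono hVB).add (w1.1.mono (subset_univ _)))
  obtain ⟨γ, g1, g2, g3, g4⟩ := glue hU hO hI (invSet_orb _) (α := β - θ) (b1.1.sub t1.1) d1
    (b2.sub t2) d2 fun x hx => inv_ext h (U := U ∩ orb Γ (U' ∩ N))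
      (fun g y hy => ⟨hI g y hy.1, invSet_orb _ g y hy.2⟩) (FStep_inv (b2.sub t2) inter_subset_left)
      (FStep_inv d2 inter_subset_right) (fun y hy => by
        rw [d3 y hy.2, Pi.add_apply, ← e y ⟨hy.1.1, hy.2.2⟩, Pi.sub_apply, Pi.sub_apply]
        abel) x ⟨hx, hx.2⟩
  have hsub' : U' ⊆ U ∪ orb Γ (U' ∩ N) := fun x hx =>
    (hsub hx).imp id fun ⟨g, hg⟩ => ⟨g, hI' g x hx, hCN hg⟩
  refine ⟨γ, ⟨g1.mono hsub', fun x hx => ?_⟩, FStep_inv g2 hsub'⟩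
  rcases hsub' hx with hx' | hx'
  · rw [FStep_d hU g3 hx', extDeriv_sub' (b1.1.diffAt hU hx') (t1.1.diffAt hU hx'), b1.2 x hx',
      t1.2 x hx', sub_zero]
  · refine inv_ext h hI' ((FStep_inv g2 hsub').extDeriv h hU' hI' (g1.mono hsub')) hi
      (fun y hy => ?_) x ⟨hx, hx'⟩
    rw [FStep_d hV (fun z hz => (g4 z ⟨1, by rwa [one_smul]⟩).trans (d3 z hz)) hy.2,
      extDeriv_add (b3.1.diffAt (hU'.inter hB) (hVB hy.2)) (w1.1.diffAt isOpen_univ trivial),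
      b3.2 y (hVB hy.2), w1.2 y trivial, add_zero]

theorem Surj.refl (U : Set E) : Surj Γ k U U := by
  exact fun α hα hi => ⟨α, hα, hi, (sub_self α).symm ▸ FStep_triv U⟩

theorem Inj.refl (U : Set E) : Inj Γ k U U := by
  exact fun _ _ _ h => h

theorem Surj.trans {U V W : Set E} (hU : IsOpen U) (hUV : U ⊆ V) (h1 : Surj Γ k U V)
    (h2 : Surj Γ k V W) : Surj Γ k U W := by
  intro α hα hi
  obtain ⟨β, b1, b2, b3⟩ := h1 α hα hi
  obtain ⟨γ, g1, g2, g3⟩ := h2 β b1 b2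
  refine ⟨γ, g1, g2, ?_⟩
  rw [← sub_add_sub_cancel α β γ]
  cases k with
  | zero => exact fun x hx => by rw [Pi.add_apply, b3 x hx, g3 x (hUV hx), add_zero]
  | succ k =>
    obtain ⟨a, a1, a2⟩ := b3
    obtain ⟨c, c1, c2⟩ := g3
    have c3 : Sm c U := c1.1.mono hUV
    refine ⟨a + c, ⟨a1.1.add c3, fun x hx => ?_⟩, a2.add (FStep_inv c2 hUV)⟩
    rw [extDeriv_add (a1.1.diffAt hU hx) (c3.diffAt hU hx), a1.2 x hx, c1.2 x (hUV hx),
      Pi.add_apply]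

theorem Inj.trans {U V W : Set E} (hVW : V ⊆ W) (h1 : Inj Γ k U V) (h2 : Inj Γ k V W) :
    Inj Γ k U W := by
  exact fun α hα hi h => h2 α hα hi (h1 α (FStep_cl hα hVW) (FStep_inv hi hVW) h)

end Pool.Agent.Work.MP_bf98aa_gt.Th
end

-- merged part: Pool.Agent.Work.MP_bf98aa_gt.Th.FSl
section
/-!
Complements, in a box, of sets with convex slices.

PLAN. `box_mono`: `RA_retract` with `r y = y + (-(3/4) ρ - ξ i y) • v i` and `T = Box ∩ {ξ i < -ρ/2}`.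
`slices`: induction on `d'`, generalising `A`. For `d' = j + 1` let `i = ⟨j, _⟩`,
`Ap = {y ∈ Box | ∀ t ≥ 0, y + t • v i ∈ Box → y + t • v i ∈ A}`, `Am` the same with `y - t • v i`. They are open
(tube lemma / `IsCompact.eventually_forall_of_forall_eventually`: `y ∈ Ap` iff `y ∈ Box` and
`y + (τ * max 0 (3ρ/4 - ξ i y)) • v i ∈ A` for all `τ ∈ Icc 0 1`), acyclic by `box_mono` (for `Ap` replace
`v i, ξ i` by their negatives; the box is unchanged), `A = Ap ∪ Am` by `conv`, and `Ap ∩ Am` satisfies the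
hypotheses for `j` (a point of the box is outside `Ap ∩ Am` iff some `y + t • v i` is in the box and outside `A`).
Conclude with `RA_union_zero`, `RA_union_succ`.
-/

set_option autoImplicit false

open scoped ContDiff Topology
open Set

namespace Pool.Agent.Work.MP_bf98aa_gt.Th

variable {E : Type} [NormedAddCommGroup E] [NormedSpace ℝ E] [FiniteDimensional ℝ E] {d : ℕ}
  {v : Fin d → E} {ξ : Fin d → E →L[ℝ] ℝ} {ρ ρ' : ℝ}

/-- The projection along the directions. -/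
noncomputable def FSl_pr (v : Fin d → E) (ξ : Fin d → E →L[ℝ] ℝ) : E →L[ℝ] E :=
  ContinuousLinearMap.id ℝ E - ∑ i, (ξ i).smulRight (v i)

omit [FiniteDimensional ℝ E] in
theorem FSl_pr_apply (y : E) : FSl_pr v ξ y = y - ∑ i, ξ i y • v i := by
  simp [FSl_pr]

omit [FiniteDimensional ℝ E] in
theorem FSl_box : Box v ξ ρ ρ' =
    (⋂ i, ξ i ⁻¹' Metric.ball 0 ρ) ∩ FSl_pr v ξ ⁻¹' Metric.ball 0 ρ' := by
  ext y
  simp [Box, FSl_pr_apply]

theorem isOpen_box : IsOpen (Box v ξ ρ ρ') := by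
  rw [FSl_box]
  exact (isOpen_iInter_of_finite fun i => Metric.isOpen_ball.preimage (ξ i).continuous).inter
    (Metric.isOpen_ball.preimage (FSl_pr v ξ).continuous)

theorem convex_box : Convex ℝ (Box v ξ ρ ρ') := by
  rw [FSl_box]
  exact (convex_iInter fun i => (convex_ball 0 ρ).linear_preimage (ξ i : E →ₗ[ℝ] ℝ)).inter
    ((convex_ball 0 ρ').linear_preimage (FSl_pr v ξ : E →ₗ[ℝ] E))

theorem box_add (hξ : ∀ i j, ξ i (v j) = if i = j then 1 else 0) {y : E} (hy : y ∈ Box v ξ ρ ρ')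
    (i : Fin d) {t : ℝ} (ht : |ξ i y + t| < ρ) : y + t • v i ∈ Box v ξ ρ ρ' := by
  refine ⟨fun j => ?_, ?_⟩
  · rw [map_add, map_smul, hξ]
    split_ifs with h
    · subst h; simpa using ht
    · simpa using hy.1 j
  · have e : FSl_pr v ξ (v i) = 0 := by simp [FSl_pr_apply, hξ]
    rw [← FSl_pr_apply, map_add, map_smul, e, smul_zero, add_zero, FSl_pr_apply]
    exact hy.2

theorem box_mono (hξ : ∀ i j, ξ i (v j) = if i = j then 1 else 0) (hρ : 0 < ρ) (hρ' : 0 < ρ')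
    (i : Fin d) {A : Set E} (hA : IsOpen A) (hAB : A ⊆ Box v ξ ρ ρ')
    (down : ∀ y ∈ A, ∀ t : ℝ, 0 ≤ t → y - t • v i ∈ Box v ξ ρ ρ' → y - t • v i ∈ A)
    (low : ∀ y ∈ Box v ξ ρ ρ', ξ i y < -(ρ / 2) → y ∈ A) : A.Nonempty ∧ ∀ k, RA k A := by
  have e : ∀ (y : E) (t : ℝ), ξ i (y + t • v i) = ξ i y + t := fun y t => by simp [hξ]
  have hm : ∀ y ∈ Box v ξ ρ ρ', y + (-(3 / 4 * ρ) - ξ i y) • v i ∈
      Box v ξ ρ ρ' ∩ ξ i ⁻¹' Iio (-(ρ / 2)) := fun y hy =>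
    ⟨box_add hξ hy i (abs_lt.2 ⟨by linarith only [hρ], by linarith only [hρ]⟩), by
      rw [mem_preimage, e, mem_Iio]; linarith only [hρ]⟩
  have hT : Box v ξ ρ ρ' ∩ ξ i ⁻¹' Iio (-(ρ / 2)) ⊆ A := fun y hy => low y hy.1 hy.2
  refine ⟨⟨_, hT (hm 0 ⟨fun j => by simpa using hρ, by simpa using hρ'⟩)⟩, fun k =>
    RA_retract hA (isOpen_box.inter (isOpen_Iio.preimage (ξ i).continuous))
      (convex_box.inter ((convex_Iio _).linear_preimage (ξ i : E →ₗ[ℝ] ℝ))) hT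
      (r := fun y => y + (-(3 / 4 * ρ) - ξ i y) • v i) (by fun_prop)
      (fun y hy => hm y (hAB hy)) (fun x hx t ht => ?_) k⟩
  rw [add_sub_cancel_left, smul_smul]
  have b := abs_lt.1 ((hAB hx).1 i)
  obtain ⟨t0, t1⟩ := ht
  rcases le_total (-(3 / 4 * ρ) - ξ i x) 0 with h | h
  · have := down x hx (-(t * (-(3 / 4 * ρ) - ξ i x))) (by linarith only [t0, h, mul_nonneg_of_nonpos_of_nonpos (Mathlib.Tactic.Linarith.sub_nonpos_of_le t0) (Mathlib.Tactic.Linarith.sub_nonpos_of_le h)])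
    rw [neg_smul, sub_neg_eq_add] at this
    exact this (box_add hξ (hAB hx) i (abs_lt.2 ⟨by linarith only [b, t1, t0, mul_nonneg_of_nonpos_of_nonpos (le_of_lt (Mathlib.Tactic.Linarith.sub_neg_of_lt b.left)) (Mathlib.Tactic.Linarith.sub_nonpos_of_le t1), mul_nonneg_of_nonpos_of_nonpos (le_of_lt (Mathlib.Tactic.Linarith.sub_neg_of_lt b.right)) (Mathlib.Tactic.Linarith.sub_nonpos_of_le t0)], by linarith only [b, t0, t1, mul_nonneg_of_nonpos_of_nonpos (le_of_lt (Mathlib.Tactic.Linarith.sub_neg_of_lt b.left)) (Mathlib.Tactic.Linarith.sub_nonpos_of_le t0), mul_nonneg_of_nonpos_of_nonpos (le_of_lt (Mathlib.Tactic.Linarith.sub_neg_of_lt b.right)) (Mathlib.Tactic.Linarith.sub_nonpos_of_le t1)]⟩))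
  · exact low _ (box_add hξ (hAB hx) i (abs_lt.2 ⟨by linarith only [b, t1, t0, mul_nonneg_of_nonpos_of_nonpos (le_of_lt (Mathlib.Tactic.Linarith.sub_neg_of_lt b.left)) (Mathlib.Tactic.Linarith.sub_nonpos_of_le t1), mul_nonneg_of_nonpos_of_nonpos (le_of_lt (Mathlib.Tactic.Linarith.sub_neg_of_lt b.right)) (Mathlib.Tactic.Linarith.sub_nonpos_of_le t0)], by linarith only [b, h, hρ, t1, t0, mul_nonneg_of_nonpos_of_nonpos (le_of_lt (Mathlib.Tactic.Linarith.sub_neg_of_lt hρ)) (Mathlib.Tactic.Linarith.sub_nonpos_of_le t1), mul_nonneg_of_nonpos_of_nonpos (le_of_lt (Mathlib.Tactic.Linarith.sub_neg_of_lt b.left)) (Mathlib.Tactic.Linarith.sub_nonpos_of_le t0)]⟩))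
      (by rw [e]; linarith only [b, h, t0, t1, mul_nonneg_of_nonpos_of_nonpos (le_of_lt (Mathlib.Tactic.Linarith.sub_neg_of_lt b.left)) (Mathlib.Tactic.Linarith.sub_nonpos_of_le t0), mul_nonneg_of_nonpos_of_nonpos (le_of_lt (Mathlib.Tactic.Linarith.sub_neg_of_lt b.right)) (Mathlib.Tactic.Linarith.sub_nonpos_of_le t1)])

omit [FiniteDimensional ℝ E] in
theorem FSl_neg : Box (-v) (-ξ) ρ ρ' = Box v ξ ρ ρ' := by
  ext y
  simp [Box]

theorem FSl_half (hξ : ∀ i j, ξ i (v j) = if i = j then 1 else 0) (hρ : 0 < ρ) (hρ' : 0 < ρ')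
    (i : Fin d) {A : Set E} (hA : IsOpen A)
    (low : ∀ y ∈ Box v ξ ρ ρ', ξ i y < -(ρ / 2) → y ∈ A) :
    IsOpen {y ∈ Box v ξ ρ ρ' | ∀ t : ℝ, 0 ≤ t → y - t • v i ∈ Box v ξ ρ ρ' → y - t • v i ∈ A} ∧
    {y ∈ Box v ξ ρ ρ' | ∀ t : ℝ, 0 ≤ t → y - t • v i ∈ Box v ξ ρ ρ' → y - t • v i ∈ A}.Nonempty ∧
    ∀ k, RA k
      {y ∈ Box v ξ ρ ρ' | ∀ t : ℝ, 0 ≤ t → y - t • v i ∈ Box v ξ ρ ρ' → y - t • v i ∈ A} := by
  have e : ∀ (y : E) (t : ℝ), ξ i (y - t • v i) = ξ i y - t := fun y t => by simp [hξ]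
  have ho : IsOpen
      {y ∈ Box v ξ ρ ρ' | ∀ t : ℝ, 0 ≤ t → y - t • v i ∈ Box v ξ ρ ρ' → y - t • v i ∈ A} := by
    refine isOpen_iff_mem_nhds.2 fun y hy => ?_
    have h1 : ∀ᶠ x in 𝓝 y, ∀ τ ∈ Icc (0 : ℝ) 1,
        x - (τ * max 0 (ξ i x + 3 / 4 * ρ)) • v i ∈ A := by
      refine isCompact_Icc.eventually_forall_of_forall_eventually fun τ hτ => ?_
      have c : Continuous fun z : E × ℝ => z.1 - (z.2 * max 0 (ξ i z.1 + 3 / 4 * ρ)) • v i := by
        fun_prop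
      refine c.continuousAt.eventually_mem (hA.mem_nhds (hy.2 _
        (mul_nonneg hτ.1 (le_max_left _ _)) ?_))
      rw [sub_eq_add_neg, ← neg_smul]
      have b := abs_lt.1 (hy.1.1 i)
      obtain ⟨t0, t1⟩ := hτ
      refine box_add hξ hy.1 i (abs_lt.2 ?_)
      rcases le_total 0 (ξ i y + 3 / 4 * ρ) with h | h
      · rw [max_eq_right h]
        constructor <;> linarith only [b, t1, t0, mul_nonneg_of_nonpos_of_nonpos (le_of_lt (Mathlib.Tactic.Linarith.sub_neg_of_lt b.left)) (Mathlib.Tactic.Linarith.sub_nonpos_of_le t1), mul_nonneg_of_nonpos_of_nonpos (le_of_lt (Mathlib.Tactic.Linarith.sub_neg_of_lt b.right)) (Mathlib.Tactic.Linarith.sub_nonpos_of_le t0), mul_nonneg_of_nonpos_of_nonpos (le_of_lt (Mathlib.Tactic.Linarith.sub_neg_of_lt b.left)) (Mathlib.Tactic.Linarith.sub_nonpos_of_le t0), mul_nonneg_of_nonpos_of_nonpos (le_of_lt (Mathlib.Tactic.Linarith.sub_neg_of_lt b.right)) (Mathlib.Tactic.Linarith.sub_nonpos_of_le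 t1)]
      · rw [max_eq_left h]
        constructor <;> linarith only [b, h]
    filter_upwards [h1, isOpen_box.mem_nhds hy.1] with x hx hx'
    refine ⟨hx', fun t t0 ht => ?_⟩
    rcases le_or_gt t (max 0 (ξ i x + 3 / 4 * ρ)) with h | h
    · have := hx (t / max 0 (ξ i x + 3 / 4 * ρ)) ⟨div_nonneg t0 (le_max_left _ _),
        div_le_one_of_le₀ h (le_max_left _ _)⟩
      rwa [div_mul_cancel_of_imp fun h0 => le_antisymm (h0 ▸ h) t0] at this
    · exact low _ ht (by rw [e]; linarith only [hρ, h, le_max_right 0 (ξ i x + 3 / 4 * ρ)])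
  refine ⟨ho, box_mono hξ hρ hρ' i ho (fun y hy => hy.1) (fun y hy t t0 ht => ⟨ht, fun s s0 => ?_⟩)
    fun y hy h => ⟨hy, fun t t0 ht => low _ ht (by rw [e]; linarith only [h, t0])⟩⟩
  rw [sub_sub, ← add_smul]
  exact hy.2 _ (add_nonneg t0 s0)

theorem slices (hξ : ∀ i j, ξ i (v j) = if i = j then 1 else 0) (hρ : 0 < ρ) (hρ' : 0 < ρ')
    (d' : ℕ) (hd : d' ≤ d) {A : Set E} (hA : IsOpen A) (hAB : A ⊆ Box v ξ ρ ρ')
    (conv : ∀ y ∈ Box v ξ ρ ρ', y ∉ A → ∀ c : Fin d → ℝ, (∀ i : Fin d, d' ≤ i.val → c i = 0) →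
      y + ∑ i, c i • v i ∈ Box v ξ ρ ρ' → y + ∑ i, c i • v i ∉ A →
      ∀ t ∈ Icc (0 : ℝ) 1, y + t • ∑ i, c i • v i ∉ A)
    (inn : ∀ y ∈ Box v ξ ρ ρ', y ∉ A → ∀ i : Fin d, i.val < d' → |ξ i y| ≤ ρ / 2) :
    (1 ≤ d' → A.Nonempty) ∧ ∀ k, k + 2 ≤ d' → RA k A := by
  induction d' generalizing A with
  | zero => exact ⟨fun h => by omega, fun k h => by omega⟩
  | succ j ih =>
    obtain ⟨i, rfl⟩ : ∃ i : Fin d, j = i.val := ⟨⟨j, hd⟩, rfl⟩
    obtain ⟨m1, m2, m3⟩ := FSl_half hξ hρ hρ' i hA fun y hy h => by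
      by_contra h'
      linarith only [h, inn, hy, h', (abs_le.1 (inn y hy h' i (by omega))).1]
    obtain ⟨p1, p2, p3⟩ := FSl_half (v := -v) (ξ := -ξ) (fun i j => by simpa using hξ i j) hρ hρ' i
      hA fun y hy h => by
        by_contra h'
        rw [FSl_neg] at hy
        simp only [Pi.neg_apply, neg_apply] at h
        linarith only [h, inn, hy, h', (abs_le.1 (inn y hy h' i (by omega))).2]
    simp only [FSl_neg, Pi.neg_apply, smul_neg, sub_neg_eq_add] at p1 p2 p3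
    set Am := {y ∈ Box v ξ ρ ρ' | ∀ t : ℝ, 0 ≤ t → y - t • v i ∈ Box v ξ ρ ρ' → y - t • v i ∈ A}
    set Ap := {y ∈ Box v ξ ρ ρ' | ∀ t : ℝ, 0 ≤ t → y + t • v i ∈ Box v ξ ρ ρ' → y + t • v i ∈ A}
    have sg : ∀ s : ℝ, ∑ a, Pi.single (M := fun _ => ℝ) i s a • v a = s • v i := fun s => by
      simp [Pi.single_apply]
    have un : Ap ∪ Am = A := by
      refine Subset.antisymm (union_subset (fun y hy => ?_) fun y hy => ?_) fun y hy => ?_
      · simpa using hy.2 0 le_rfl (by simpa using hy.1)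
      · simpa using hy.2 0 le_rfl (by simpa using hy.1)
      by_contra hc
      rw [mem_union, not_or] at hc
      obtain ⟨s, s0, s1, s2⟩ : ∃ s : ℝ, 0 ≤ s ∧ y + s • v i ∈ Box v ξ ρ ρ' ∧ y + s • v i ∉ A := by
        by_contra h
        push Not at h
        exact hc.1 ⟨hAB hy, h⟩
      obtain ⟨t, t0, t1, t2⟩ : ∃ t : ℝ, 0 ≤ t ∧ y - t • v i ∈ Box v ξ ρ ρ' ∧ y - t • v i ∉ A := by
        by_contra h
        push Not at h
        exact hc.2 ⟨hAB hy, h⟩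
      have t3 : 0 < t := t0.lt_of_ne (by rintro rfl; exact t2 (by simpa using hy))
      have e : y - t • v i + (s + t) • v i = y + s • v i := by rw [add_smul]; abel
      have := conv _ t1 t2 (Pi.single i (s + t))
        (fun a ha => Pi.single_eq_of_ne (by rintro rfl; omega) _) (by rwa [sg, e]) (by rwa [sg, e])
        (t / (s + t)) ⟨by positivity, (div_le_one (by positivity)).2 (by linarith only [s0])⟩
      rw [sg, smul_smul, div_mul_cancel₀ _ (by positivity), sub_add_cancel] at this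
      exact this hy
    have ch : ∀ y ∈ Box v ξ ρ ρ', y ∉ Ap ∩ Am ↔
        ∃ s : ℝ, y + s • v i ∈ Box v ξ ρ ρ' ∧ y + s • v i ∉ A := by
      intro y hy
      refine ⟨fun h => ?_, fun ⟨s, s1, s2⟩ h => s2 ?_⟩
      · by_contra h'
        push Not at h'
        refine h ⟨⟨hy, fun t _ => h' t⟩, hy, fun t _ => ?_⟩
        rw [sub_eq_add_neg, ← neg_smul]
        exact h' _
      · rcases le_total 0 s with s0 | s0
        · exact h.1.2 s s0 s1
        · have := h.2.2 (-s) (by linarith only [s0])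
          rw [neg_smul, sub_neg_eq_add] at this
          exact this s1
    obtain ⟨a1, a2⟩ := ih (by omega) (p1.inter m1) (fun y hy => hy.1.1)
      (fun y hy hy' c hc hz hz' t ht => by
        obtain ⟨s, s1, s2⟩ := (ch y hy).1 hy'
        obtain ⟨u, u1, u2⟩ := (ch _ hz).1 hz'
        have e0 : ∑ a, (c + Pi.single i (u - s) : Fin d → ℝ) a • v a =
            ∑ a, c a • v a + (u - s) • v i := by
          simp only [Pi.add_apply, add_smul, Finset.sum_add_distrib, sg]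
        have e : y + s • v i + (∑ a, c a • v a + (u - s) • v i) =
            y + ∑ a, c a • v a + u • v i := by rw [sub_smul]; abel
        have e' : y + s • v i + t • (∑ a, c a • v a + (u - s) • v i) =
            y + t • ∑ a, c a • v a + (s + t * (u - s)) • v i := by
          rw [smul_add, smul_smul, add_smul]; abel
        have h1 := conv _ s1 s2 (c + Pi.single i (u - s)) (fun a ha => by
          rw [Pi.add_apply, hc a (by omega), Pi.single_eq_of_ne (by rintro rfl; omega), add_zero])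
          (by rwa [e0, e]) (by rwa [e0, e]) t ht
        have h2 := convex_box.add_smul_mem s1 (by rwa [e]) ht
        rw [e0] at h1
        rw [e'] at h1 h2
        exact (ch _ (convex_box.add_smul_mem hy hz ht)).2 ⟨_, h2, h1⟩)
      fun y hy hy' a ha => by
        obtain ⟨s, s1, s2⟩ := (ch y hy).1 hy'
        have := inn _ s1 s2 a (by omega)
        rwa [map_add, map_smul, hξ, if_neg (by rintro rfl; omega), smul_zero, add_zero] at this
    rw [← un]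
    refine ⟨fun _ => m2.inr, fun k hk => ?_⟩
    cases k with
    | zero => exact RA_union_zero p1 m1 (p3 0) (m3 0) (a1 (by omega))
    | succ k => exact RA_union_succ p1 m1 (p3 _) (m3 _) (a2 k (by omega))

end Pool.Agent.Work.MP_bf98aa_gt.Th
end

-- merged part: Pool.Agent.Work.MP_bf98aa_gt.Th.FBox
section
/-!
Small boxes in which all sublevel sets of all small perturbations of `f` are acyclic.

PLAN. `box_reg`: pick `v` with `fderiv f 0 v = 1`, `ξ = fderiv f 0`, `d = 1`. In a small ball (inside `O`)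
`fderiv f y v ≥ 3/4`; for `τ ‖v‖ ≤ 1/4` the function `g = f - ψ` has slope at least `1/2` along `v`. Choose `ρ`, then
`κ = ρ / 8`, then `ρ'`, `τ` small: for `y ∈ Box` with `ξ y < -ρ/2`, `g y ≤ g (y - ξ y • v) - ρ/4 ≤ f 0 - κ`.
Use `box_mono`. `K` is a small closed ball on which `f ≥ f 0 - κ/2`, and `τ ≤ κ/2`.
`box_neg`: (here `fderiv f 0 = 0`) the `v i` are linearly independent, take dual forms `ξ`
(`LinearIndependent` gives a left inverse of `Fintype.linearCombination`). By compactness of the unit sphere of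
`Fin 4 → ℝ` and continuity of `D2 f`, `D2 g y w w ≤ -μ ‖c‖ ^ 2` for `w = ∑ c i • v i`, `y` in a small ball and
`τ` small. So `t ↦ g (y + t • w)` is concave on `Icc 0 1` (`concaveOn_of_hasDerivWithinAt2_nonpos` or
`hasDerivAt_D2`), which gives `conv`, and `g (y₀ + w) ≤ g y₀ + fderiv g y₀ w - μ ‖c‖ ^ 2 / 2` gives `inn` with
`κ = μ ρ ^ 2 / 16` once `ρ'` and `τ` are small (`fderiv f y₀ → 0`). Use `slices` with `d' = 4`.
-/

set_option autoImplicit false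

open scoped ContDiff Topology
open Set

namespace Pool.Agent.Work.MP_bf98aa_gt.Th

variable {E : Type} [NormedAddCommGroup E] [NormedSpace ℝ E] [FiniteDimensional ℝ E]

/-- The conclusion of the box lemma. -/
def BoxGood (f : E → ℝ) (B K : Set E) (κ τ : ℝ) : Prop :=
  ∀ ψ : E → ℝ, ContDiff ℝ ∞ ψ →
    (∀ y ∈ B, |ψ y| ≤ τ ∧ ‖fderiv ℝ ψ y‖ ≤ τ ∧ ‖D2 ψ y‖ ≤ τ) → ∀ c : ℝ,
      (f 0 - κ < c → ({y | f y - ψ y < c} ∩ B).Nonempty ∧
        ∀ k ≤ 2, RA k ({y | f y - ψ y < c} ∩ B)) ∧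
      (c ≤ f 0 - κ → ∀ y ∈ K, c ≤ f y - ψ y)

theorem FBox_line {g : E → ℝ} (hg : ContDiff ℝ ∞ g) (y w : E) (t : ℝ) :
    HasDerivAt (fun s : ℝ => g (y + s • w)) (fderiv ℝ g (y + t • w) w) t := by
  have h1 : HasDerivAt (fun s : ℝ => y + s • w) w t := by
    simpa using ((hasDerivAt_id t).smul_const w).const_add y
  have h2 := (hg.differentiable (by simp) (y + t • w)).hasFDerivAt
  exact h2.comp_hasDerivAt t h1

theorem FBox_fderiv_smooth {g : E → ℝ} (hg : ContDiff ℝ ∞ g) : ContDiff ℝ ∞ (fderiv ℝ g) :=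
  hg.fderiv_right (m := ∞) (by simp)

theorem FBox_line2 {g : E → ℝ} (hg : ContDiff ℝ ∞ g) (y w : E) (t : ℝ) :
    HasDerivAt (fun s : ℝ => fderiv ℝ g (y + s • w) w) (D2 g (y + t • w) w w) t := by
  have h1 : HasDerivAt (fun s : ℝ => y + s • w) w t := by
    simpa using ((hasDerivAt_id t).smul_const w).const_add y
  have h2 := ((FBox_fderiv_smooth hg).differentiable (by simp) (y + t • w)).hasFDerivAt
  have h3 := h2.comp_hasDerivAt t h1
  have h4 := (ContinuousLinearMap.apply ℝ ℝ w).hasFDerivAt.comp_hasDerivAt t h3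
  exact h4

theorem FBox_anti {φ φ' : ℝ → ℝ} (h : ∀ t, HasDerivAt φ (φ' t) t)
    (h' : ∀ t ∈ Icc (0 : ℝ) 1, φ' t ≤ 0) {t : ℝ} (ht : t ∈ Icc (0 : ℝ) 1) : φ t ≤ φ 0 := by
  have hd : Differentiable ℝ φ := fun t => (h t).differentiableAt
  have := antitoneOn_of_deriv_nonpos (convex_Icc (0 : ℝ) 1) hd.continuous.continuousOn
    hd.differentiableOn (fun x hx => by
      rw [(h x).deriv]; exact h' x (interior_subset hx))
  exact this (left_mem_Icc.2 zero_le_one) ht ht.1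

theorem FBox_seg {B : Set E} (hB : Convex ℝ B) {y w : E} (hy : y ∈ B) (hw : y + w ∈ B) {t : ℝ}
    (ht : t ∈ Icc (0 : ℝ) 1) : y + t • w ∈ B :=
  hB.add_smul_mem hy hw ht

theorem FBox_slope {g : E → ℝ} (hg : ContDiff ℝ ∞ g) {B : Set E} (hB : Convex ℝ B) {y w : E}
    (hy : y ∈ B) (hw : y + w ∈ B) {m : ℝ} (hm : ∀ z ∈ B, fderiv ℝ g z w ≤ m) :
    g (y + w) ≤ g y + m := by
  have h := FBox_anti (φ := fun s : ℝ => g (y + s • w) - m * s)
    (φ' := fun s => fderiv ℝ g (y + s • w) w - m)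
    (fun t => by
      have := (FBox_line hg y w t).sub ((hasDerivAt_id t).const_mul m)
      rw [mul_one] at this
      exact this)
    (fun t ht => by have := hm _ (FBox_seg hB hy hw ht); linarith)
    (right_mem_Icc.2 zero_le_one)
  simp only [one_smul, zero_smul, add_zero, mul_one, mul_zero, sub_zero] at h
  linarith

theorem FBox_taylor {g : E → ℝ} (hg : ContDiff ℝ ∞ g) {B : Set E} (hB : Convex ℝ B) {y w : E}
    (hy : y ∈ B) (hw : y + w ∈ B) {a : ℝ} (ha : ∀ z ∈ B, D2 g z w w ≤ -a) :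
    g (y + w) ≤ g y + fderiv ℝ g y w - a / 2 := by
  have h1 : ∀ t ∈ Icc (0 : ℝ) 1, fderiv ℝ g (y + t • w) w + a * t ≤ fderiv ℝ g y w := by
    intro t ht
    have h := FBox_anti (φ := fun s : ℝ => fderiv ℝ g (y + s • w) w + a * s)
      (φ' := fun s => D2 g (y + s • w) w w + a)
      (fun t => by
        have := (FBox_line2 hg y w t).add ((hasDerivAt_id t).const_mul a)
        rw [mul_one] at this
        exact this)
      (fun t ht => by have := ha _ (FBox_seg hB hy hw ht); linarith) ht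
    simpa using h
  have h := FBox_anti
    (φ := fun s : ℝ => g (y + s • w) + a / 2 * (s * s) - fderiv ℝ g y w * s)
    (φ' := fun s => fderiv ℝ g (y + s • w) w + a * s - fderiv ℝ g y w)
    (fun t => by
      have h2 := ((hasDerivAt_id t).mul (hasDerivAt_id t)).const_mul (a / 2)
      have h3 := ((FBox_line hg y w t).add h2).sub
        ((hasDerivAt_id t).const_mul (fderiv ℝ g y w))
      have e : fderiv ℝ g (y + t • w) w + a / 2 * (1 * id t + id t * 1) - fderiv ℝ g y w * 1 =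
          fderiv ℝ g (y + t • w) w + a * t - fderiv ℝ g y w := by
        simp only [id]; ring
      rw [e] at h3
      exact h3)
    (fun t ht => by have := h1 t ht; linarith)
    (right_mem_Icc.2 zero_le_one)
  simp only [one_smul, zero_smul, add_zero, mul_one, mul_zero, sub_zero] at h
  linarith only [h]

theorem FBox_fderiv_sub {f ψ : E → ℝ} (hf : ContDiff ℝ ∞ f) (hψ : ContDiff ℝ ∞ ψ) :
    fderiv ℝ (fun y => f y - ψ y) = fun y => fderiv ℝ f y - fderiv ℝ ψ y := by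
  funext y
  exact fderiv_fun_sub (hf.differentiable (by simp) y) (hψ.differentiable (by simp) y)

theorem FBox_D2_sub {f ψ : E → ℝ} (hf : ContDiff ℝ ∞ f) (hψ : ContDiff ℝ ∞ ψ) (y : E) :
    D2 (fun y => f y - ψ y) y = D2 f y - D2 ψ y := by
  unfold D2
  rw [FBox_fderiv_sub hf hψ]
  exact fderiv_fun_sub ((FBox_fderiv_smooth hf).differentiable (by simp) y)
    ((FBox_fderiv_smooth hψ).differentiable (by simp) y)

theorem FBox_base {d : ℕ} {v : Fin d → E} {ξ : Fin d → E →L[ℝ] ℝ} {ρ ρ' : ℝ}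
    (hξ : ∀ i j, ξ i (v j) = if i = j then 1 else 0) (hρ : 0 < ρ) {y : E}
    (hy : y ∈ Box v ξ ρ ρ') : y - ∑ i, ξ i y • v i ∈ Box v ξ ρ ρ' := by
  have h0 : ∀ j, ξ j (y - ∑ i, ξ i y • v i) = 0 := by
    intro j
    simp [map_sub, map_sum, hξ]
  refine ⟨fun j => by rw [h0 j]; simpa using hρ, ?_⟩
  simp only [h0, zero_smul, Finset.sum_const_zero, sub_zero]
  exact hy.2

theorem FBox_zero_mem {d : ℕ} {v : Fin d → E} {ξ : Fin d → E →L[ℝ] ℝ} {ρ ρ' : ℝ}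
    (hρ : 0 < ρ) (hρ' : 0 < ρ') : (0 : E) ∈ Box v ξ ρ ρ' :=
  ⟨fun j => by simpa using hρ, by simpa using hρ'⟩

theorem FBox_sum_le {d : ℕ} (v : Fin d → E) (c : Fin d → ℝ) :
    ‖∑ i, c i • v i‖ ≤ (∑ i, ‖v i‖) * ‖c‖ := by
  rw [Finset.sum_mul]
  refine (norm_sum_le _ _).trans (Finset.sum_le_sum fun i _ => ?_)
  rw [norm_smul, mul_comm]
  exact mul_le_mul_of_nonneg_left (norm_le_pi_norm c i) (norm_nonneg _)

theorem FBox_norm_le {d : ℕ} {v : Fin d → E} {ξ : Fin d → E →L[ℝ] ℝ} {ρ ρ' : ℝ} (hρ : 0 < ρ)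
    {y : E} (hy : y ∈ Box v ξ ρ ρ') : ‖y‖ < (∑ i, ‖v i‖) * ρ + ρ' := by
  have h1 := FBox_sum_le v fun i => ξ i y
  have h2 : ‖fun i => ξ i y‖ ≤ ρ :=
    (pi_norm_le_iff_of_nonneg hρ.le).2 fun i => by simpa using (hy.1 i).le
  have h3 : (∑ i, ‖v i‖) * ‖fun i => ξ i y‖ ≤ (∑ i, ‖v i‖) * ρ :=
    mul_le_mul_of_nonneg_left h2 (Finset.sum_nonneg fun i _ => norm_nonneg _)
  have h4 := hy.2
  have h5 : ‖y‖ ≤ ‖∑ i, ξ i y • v i‖ + ‖y - ∑ i, ξ i y • v i‖ := by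
    have := norm_add_le (∑ i, ξ i y • v i) (y - ∑ i, ξ i y • v i)
    simpa using this
  linarith only [h1, h3, h4, h5]

/-- The small compact set. -/
theorem FBox_K {f : E → ℝ} (hf : ContDiff ℝ ∞ f) {B : Set E} (hB : IsOpen B) (h0 : (0 : E) ∈ B)
    {κ : ℝ} (hκ : 0 < κ) : ∃ K : Set E, IsCompact K ∧ K ⊆ B ∧ K ∈ 𝓝 (0 : E) ∧
      ∀ y ∈ K, f 0 - κ / 2 ≤ f y := by
  have h1 : {y | f 0 - κ / 2 < f y} ∈ 𝓝 (0 : E) :=
    (isOpen_lt continuous_const hf.continuous).mem_nhds (by simp; linarith only [hκ])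
  obtain ⟨K, hK, hKs, hKc⟩ := local_compact_nhds (Filter.inter_mem h1 (hB.mem_nhds h0))
  exact ⟨K, hKc, fun y hy => (hKs hy).2, hK, fun y hy => le_of_lt (hKs hy).1⟩

theorem FBox_radius {P : E → Prop} (h : ∀ᶠ y in 𝓝 (0 : E), P y) :
    ∃ r > 0, ∀ y : E, ‖y‖ < r → P y := by
  obtain ⟨r, hr, hs⟩ := Metric.eventually_nhds_iff_ball.1 h
  exact ⟨r, hr, fun y hy => hs y (by simpa using hy)⟩

theorem FBox_near {V : Type} [NormedAddCommGroup V] {F : E → V} (hF : Continuous F) {ε : ℝ}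
    (hε : 0 < ε) : ∀ᶠ y in 𝓝 (0 : E), ‖F y - F 0‖ < ε := by
  have := (Metric.tendsto_nhds.1 (hF.tendsto 0)) ε hε
  simpa [dist_eq_norm] using this

theorem FBox_scale {M r : ℝ} (hM : 0 ≤ M) (hr : 0 < r) : ∃ ρ > 0, M * ρ ≤ r := by
  refine ⟨r / (M + 1), by positivity, ?_⟩
  rw [← mul_div_assoc, div_le_iff₀ (by linarith only [hM])]
  linarith only [hr]

theorem FBox_dual {d : ℕ} (v : Fin d → E) (hv : ∀ c : Fin d → ℝ, ∑ i, c i • v i = 0 → c = 0) :
    ∃ ξ : Fin d → E →L[ℝ] ℝ, ∀ i j, ξ i (v j) = if i = j then 1 else 0 := by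
  have hk : LinearMap.ker (Fintype.linearCombination ℝ v) = ⊥ :=
    LinearMap.ker_eq_bot'.2 fun c hc => hv c (by simpa [Fintype.linearCombination_apply] using hc)
  obtain ⟨g, hg⟩ := LinearMap.exists_leftInverse_of_injective _ hk
  refine ⟨fun i => LinearMap.toContinuousLinearMap ((LinearMap.proj i).comp g), fun i j => ?_⟩
  have h1 : g (v j) = Pi.single j 1 := by
    have := LinearMap.congr_fun hg (Pi.single j 1)
    simpa [Fintype.linearCombination_apply_single] using this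
  simp [h1, Pi.single_apply]

theorem FBox_bil {d : ℕ} (Q : E →L[ℝ] E →L[ℝ] ℝ) (v : Fin d → E) (a : Fin d → ℝ) {δ : ℝ}
    (hQ : ‖Q‖ ≤ δ) :
    |Q (∑ i, a i • v i) (∑ i, a i • v i)| ≤ δ * ((∑ i, ‖v i‖) * ‖a‖) ^ 2 := by
  have h1 := Q.le_opNorm₂ (∑ i, a i • v i) (∑ i, a i • v i)
  have h2 := FBox_sum_le v a
  have h3 : ‖∑ i, a i • v i‖ ^ 2 ≤ ((∑ i, ‖v i‖) * ‖a‖) ^ 2 :=
    pow_le_pow_left₀ (norm_nonneg _) h2 2
  calc _ ≤ ‖Q‖ * ‖∑ i, a i • v i‖ ^ 2 := by rw [sq, ← mul_assoc]; exact h1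
    _ ≤ _ := mul_le_mul hQ h3 (by positivity) ((ContinuousLinearMap.opNorm_nonneg Q).trans hQ)

theorem FBox_neg (Q : E →L[ℝ] E →L[ℝ] ℝ) (v : Fin 4 → E)
    (hv : ∀ c : Fin 4 → ℝ, c ≠ 0 → Q (∑ i, c i • v i) (∑ i, c i • v i) < 0) :
    ∃ μ > 0, ∀ c : Fin 4 → ℝ, Q (∑ i, c i • v i) (∑ i, c i • v i) ≤ -(3 * (μ * ‖c‖ ^ 2)) := by
  have hs : Continuous fun c : Fin 4 → ℝ => ∑ i, c i • v i := by fun_prop
  have hc : Continuous fun c : Fin 4 → ℝ => Q (∑ i, c i • v i) (∑ i, c i • v i) :=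
    (Q.continuous.comp hs).clm_apply hs
  obtain ⟨c₀, hc₀, hmax⟩ := (isCompact_sphere (0 : Fin 4 → ℝ) 1).exists_isMaxOn
    (NormedSpace.sphere_nonempty.2 zero_le_one) hc.continuousOn
  have hn : ‖c₀‖ = 1 := by simpa using hc₀
  have hneg := hv c₀ (fun h => by rw [h] at hn; simp at hn)
  refine ⟨-Q (∑ i, c₀ i • v i) (∑ i, c₀ i • v i) / 3, by linarith only [hneg], fun c => ?_⟩
  by_cases h0 : c = 0
  · simp [h0]
  · have hp : 0 < ‖c‖ := norm_pos_iff.2 h0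
    have h1 := hmax (show ‖c‖⁻¹ • c ∈ Metric.sphere (0 : Fin 4 → ℝ) 1 by
      simp [norm_smul, inv_mul_cancel₀ hp.ne'])
    have es : ∑ i, (‖c‖⁻¹ • c) i • v i = ‖c‖⁻¹ • ∑ i, c i • v i := by
      simp [Finset.smul_sum, mul_smul]
    simp only [mem_setOf_eq, es, map_smul, ContinuousLinearMap.smul_apply, smul_eq_mul] at h1
    have h2 := mul_le_mul_of_nonneg_left h1 (show 0 ≤ ‖c‖ ^ 2 by positivity)
    have e : ∀ q : ℝ, ‖c‖ ^ 2 * (‖c‖⁻¹ * (‖c‖⁻¹ * q)) = q := by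
      intro q
      field_simp
    rw [e] at h2
    linarith only [h2]

theorem box_reg {f : E → ℝ} (hf : ContDiff ℝ ∞ f) (h : fderiv ℝ f 0 ≠ 0) {O : Set E}
    (hO : O ∈ 𝓝 (0 : E)) : ∃ (B K : Set E) (κ τ : ℝ), 0 < κ ∧ 0 < τ ∧ IsOpen B ∧ B ⊆ O ∧
      IsCompact K ∧ K ⊆ B ∧ K ∈ 𝓝 (0 : E) ∧ BoxGood f B K κ τ := by
  obtain ⟨u, hu⟩ : ∃ u, fderiv ℝ f 0 u ≠ 0 := by
    by_contra hc
    push Not at hc
    exact h (ContinuousLinearMap.ext hc)
  obtain ⟨w, hw⟩ : ∃ w, fderiv ℝ f 0 w = 1 :=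
    ⟨(fderiv ℝ f 0 u)⁻¹ • u, by rw [map_smul, smul_eq_mul, inv_mul_cancel₀ hu]⟩
  let v : Fin 1 → E := fun _ => w
  let ξ : Fin 1 → E →L[ℝ] ℝ := fun _ => fderiv ℝ f 0
  have hξ : ∀ i j, ξ i (v j) = if i = j then 1 else 0 := by
    intro i j
    rw [if_pos (Subsingleton.elim i j)]
    exact hw
  have hc : Continuous fun y => fderiv ℝ f y w :=
    (FBox_fderiv_smooth hf).continuous.clm_apply continuous_const
  obtain ⟨r, hr, hrP⟩ := FBox_radius
    ((FBox_near hc (show (0 : ℝ) < 1 / 4 by norm_num)).and (show ∀ᶠ y in 𝓝 (0 : E), y ∈ O from hO))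
  obtain ⟨ρ, hρ, hρr⟩ := FBox_scale (M := ∑ i, ‖v i‖)
    (Finset.sum_nonneg fun i _ => norm_nonneg _) (half_pos hr)
  obtain ⟨r₁, hr₁, hr₁P⟩ := FBox_radius
    (FBox_near hf.continuous (show (0 : ℝ) < ρ / 16 by positivity))
  obtain ⟨τ₁, hτ₁, hτ₁w⟩ := FBox_scale (norm_nonneg w) (show (0 : ℝ) < 1 / 4 by norm_num)
  have hρ' : 0 < min (r / 2) r₁ := lt_min (half_pos hr) hr₁
  set ρ' := min (r / 2) r₁ with hρ'def
  have hBr : ∀ y ∈ Box v ξ ρ ρ', ‖y‖ < r := by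
    intro y hy
    have h1 := FBox_norm_le hρ hy
    have h2 : ρ' ≤ r / 2 := min_le_left _ _
    linarith only [hρr, h1, h2]
  obtain ⟨K, hKc, hKB, hK0, hKf⟩ := FBox_K hf (isOpen_box (v := v) (ξ := ξ) (ρ := ρ) (ρ' := ρ'))
    (FBox_zero_mem hρ hρ') (show 0 < ρ / 8 by positivity)
  refine ⟨Box v ξ ρ ρ', K, ρ / 8, min τ₁ (ρ / 16), by positivity, lt_min hτ₁ (by positivity),
    isOpen_box, fun y hy => (hrP y (hBr y hy)).2, hKc, hKB, hK0, ?_⟩
  intro ψ hψ hb c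
  have hτa : min τ₁ (ρ / 16) ≤ τ₁ := min_le_left _ _
  have hτb : min τ₁ (ρ / 16) ≤ ρ / 16 := min_le_right _ _
  refine ⟨fun hc => ?_, fun hc y hy => ?_⟩
  · have hg : ContDiff ℝ ∞ fun y => f y - ψ y := hf.sub hψ
    have hsl : ∀ z ∈ Box v ξ ρ ρ', 1 / 2 ≤ fderiv ℝ (fun y => f y - ψ y) z w := by
      intro z hz
      rw [FBox_fderiv_sub hf hψ]
      have h1 := (hrP z (hBr z hz)).1
      rw [hw, Real.norm_eq_abs, abs_lt] at h1
      have h2 : ‖fderiv ℝ ψ z w‖ ≤ τ₁ * ‖w‖ :=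
        ((fderiv ℝ ψ z).le_opNorm w).trans
          (mul_le_mul_of_nonneg_right ((hb z hz).2.1.trans hτa) (norm_nonneg _))
      rw [Real.norm_eq_abs, abs_le] at h2
      simp only [ContinuousLinearMap.sub_apply]
      linarith only [hτ₁w, h1, h2, h1.1, h2.2]
    have hdown : ∀ y ∈ Box v ξ ρ ρ', ∀ t : ℝ, 0 ≤ t → y - t • w ∈ Box v ξ ρ ρ' →
        f (y - t • w) - ψ (y - t • w) ≤ f y - ψ y - t / 2 := by
      intro y hy t ht hyt
      have h1 := FBox_slope hg convex_box (w := -(t • w)) hy (by rwa [← sub_eq_add_neg])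
        (m := -(t / 2)) (fun z hz => by
          rw [map_neg, map_smul, smul_eq_mul]
          have := hsl z hz
          linarith only [ht, this, mul_nonneg_of_nonpos_of_nonpos (Mathlib.Tactic.Linarith.sub_nonpos_of_le ht) (Mathlib.Tactic.Linarith.sub_nonpos_of_le this)])
      rw [← sub_eq_add_neg] at h1
      linarith only [h1]
    have := box_mono hξ hρ hρ' 0 (A := {y | f y - ψ y < c} ∩ Box v ξ ρ ρ')
      ((isOpen_lt hg.continuous continuous_const).inter isOpen_box) inter_subset_right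
      (fun y hy t ht hyt => ⟨by
        have h1 := hdown y hy.2 t ht hyt
        have h2 : f y - ψ y < c := hy.1
        change f (y - t • w) - ψ (y - t • w) < c
        linarith only [ht, h1, h2], hyt⟩)
      (fun y hy hlow => ⟨by
        have hb0 := FBox_base hξ hρ hy
        have e : y - ∑ i, ξ i y • v i - (-ξ 0 y) • w = y := by
          simp [v]
        have h1 := hdown _ hb0 (-ξ 0 y) (by linarith only [hρ, hlow]) (by rwa [e])
        rw [e] at h1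
        have h2 := hr₁P _ (lt_of_lt_of_le hy.2 (min_le_right _ _))
        rw [Real.norm_eq_abs, abs_lt] at h2
        have h3 := abs_le.1 ((hb _ hb0).1.trans hτb)
        change f y - ψ y < c
        linarith only [hc, hlow, h1, h2, h3, h2.2, h3.1], hy⟩)
    exact ⟨this.1, fun k _ => this.2 k⟩
  · have h1 := hKf y hy
    have h2 := abs_le.1 ((hb y (hKB hy)).1.trans hτb)
    linarith only [hc, h1, h2, h2.2]

theorem box_neg {f : E → ℝ} (hf : ContDiff ℝ ∞ f) (h0 : fderiv ℝ f 0 = 0) (h : NegDir f)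
    {O : Set E} (hO : O ∈ 𝓝 (0 : E)) : ∃ (B K : Set E) (κ τ : ℝ), 0 < κ ∧ 0 < τ ∧ IsOpen B ∧
      B ⊆ O ∧ IsCompact K ∧ K ⊆ B ∧ K ∈ 𝓝 (0 : E) ∧ BoxGood f B K κ τ := by
  obtain ⟨v, hv⟩ := h
  obtain ⟨ξ, hξ⟩ := FBox_dual v (fun c hc => by
    by_contra hne
    have := hv c hne
    rw [hc] at this
    simp at this)
  obtain ⟨μ, hμ, hQ⟩ := FBox_neg (D2 f 0) v hv
  set M := ∑ i, ‖v i‖ with hMdef
  have hM : 0 ≤ M := Finset.sum_nonneg fun i _ => norm_nonneg _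
  obtain ⟨δ, hδ, hδM⟩ := FBox_scale (M := M * M) (mul_nonneg hM hM) hμ
  have hc2 : Continuous (D2 f) :=
    (FBox_fderiv_smooth hf).continuous_fderiv (by simp)
  obtain ⟨r, hr, hrP⟩ := FBox_radius
    ((FBox_near (V := E →L[ℝ] E →L[ℝ] ℝ) (F := D2 f) hc2 hδ).and (show ∀ᶠ y in 𝓝 (0 : E), y ∈ O from hO))
  obtain ⟨ρ, hρ, hρr⟩ := FBox_scale hM (half_pos hr)
  have hκ : 0 < μ * ρ ^ 2 / 16 := by positivity
  set κ := μ * ρ ^ 2 / 16 with hκdef
  obtain ⟨ε, hε, hεκ⟩ := FBox_scale (M := 1 + M * ρ) (by positivity) (half_pos hκ)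
  have hεκ' : ε ≤ κ / 2 := by linarith only [hεκ, hM, hρ, hε, mul_nonneg (mul_nonneg hM hρ.le) hε.le]
  obtain ⟨r₁, hr₁, hr₁P⟩ := FBox_radius
    ((FBox_near hf.continuous hε).and (FBox_near (FBox_fderiv_smooth hf).continuous hε))
  have hρ' : 0 < min (r / 2) r₁ := lt_min (half_pos hr) hr₁
  set ρ' := min (r / 2) r₁ with hρ'def
  have hBr : ∀ y ∈ Box v ξ ρ ρ', ‖y‖ < r := by
    intro y hy
    have h1 := FBox_norm_le hρ hy
    have h2 : ρ' ≤ r / 2 := min_le_left _ _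
    linarith only [hρr, h1, h2]
  obtain ⟨K, hKc, hKB, hK0, hKf⟩ := FBox_K hf (isOpen_box (v := v) (ξ := ξ) (ρ := ρ) (ρ' := ρ'))
    (FBox_zero_mem hρ hρ') hκ
  refine ⟨Box v ξ ρ ρ', K, κ, min δ ε, hκ, lt_min hδ hε,
    isOpen_box, fun y hy => (hrP y (hBr y hy)).2, hKc, hKB, hK0, ?_⟩
  intro ψ hψ hb c
  have hτa : min δ ε ≤ δ := min_le_left _ _
  have hτb : min δ ε ≤ ε := min_le_right _ _
  refine ⟨fun hc => ?_, fun hc y hy => ?_⟩
  · have hg : ContDiff ℝ ∞ fun y => f y - ψ y := hf.sub hψ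
    have hD : ∀ z ∈ Box v ξ ρ ρ', ∀ a : Fin 4 → ℝ,
        D2 (fun y => f y - ψ y) z (∑ i, a i • v i) (∑ i, a i • v i) ≤ -(μ * ‖a‖ ^ 2) := by
      intro z hz a
      rw [FBox_D2_sub hf hψ]
      have h1 := FBox_bil (D2 f z - D2 f 0) v a (hrP z (hBr z hz)).1.le
      have h2 := FBox_bil (D2 ψ z) v a ((hb z hz).2.2.trans hτa)
      have h3 := hQ a
      have h4 : δ * (M * ‖a‖) ^ 2 ≤ μ * ‖a‖ ^ 2 := by
        have : δ * (M * ‖a‖) ^ 2 = (M * M * δ) * ‖a‖ ^ 2 := by ring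
        rw [this]
        exact mul_le_mul_of_nonneg_right hδM (by positivity)
      rw [abs_le] at h1 h2
      simp only [ContinuousLinearMap.sub_apply] at h1 ⊢
      linarith only [h2, h3, h4, h1, h1.2, h2.1]
    have hT : ∀ z ∈ Box v ξ ρ ρ', ∀ a : Fin 4 → ℝ, z + ∑ i, a i • v i ∈ Box v ξ ρ ρ' →
        f (z + ∑ i, a i • v i) - ψ (z + ∑ i, a i • v i) ≤ f z - ψ z +
          fderiv ℝ (fun y => f y - ψ y) z (∑ i, a i • v i) - μ * ‖a‖ ^ 2 / 2 :=
      fun z hz a ha => FBox_taylor hg convex_box hz ha fun z hz => hD z hz a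
    have := slices hξ hρ hρ' 4 le_rfl (A := {y | f y - ψ y < c} ∩ Box v ξ ρ ρ')
      ((isOpen_lt hg.continuous continuous_const).inter isOpen_box) inter_subset_right
      (fun y hy hyA a _ hya hyaA t ht hmem => by
        have hz := hmem.2
        have hz1 : f (y + t • ∑ i, a i • v i) - ψ (y + t • ∑ i, a i • v i) < c := hmem.1
        have hy1 : c ≤ f y - ψ y := not_lt.1 fun hh => hyA ⟨hh, hy⟩
        have hy2 : c ≤ f (y + ∑ i, a i • v i) - ψ (y + ∑ i, a i • v i) :=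
          not_lt.1 fun hh => hyaA ⟨hh, hya⟩
        have es : ∀ s : ℝ, ∑ i, (s • a) i • v i = s • ∑ i, a i • v i := by
          intro s
          simp [Finset.smul_sum, mul_smul]
        have e1 : y + t • ∑ i, a i • v i + (-t) • ∑ i, a i • v i = y := by
          rw [neg_smul]; abel
        have e2 : y + t • ∑ i, a i • v i + (1 - t) • ∑ i, a i • v i = y + ∑ i, a i • v i := by
          rw [sub_smul, one_smul]; abel
        have h1 := hT _ hz ((-t) • a) (by rwa [es, e1])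
        have h2 := hT _ hz ((1 - t) • a) (by rwa [es, e2])
        rw [es, e1, map_smul, smul_eq_mul] at h1
        rw [es, e2, map_smul, smul_eq_mul] at h2
        have p1 : 0 ≤ μ * ‖(-t) • a‖ ^ 2 / 2 := by positivity
        have p2 : 0 ≤ μ * ‖(1 - t) • a‖ ^ 2 / 2 := by positivity
        set s := fderiv ℝ (fun y => f y - ψ y) (y + t • ∑ i, a i • v i) (∑ i, a i • v i)
        rcases le_total 0 s with hs | hs
        · linarith only [hz1, hy1, p1, h1, ht, hs, mul_nonneg ht.1 hs]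
        · linarith only [hz1, hy2, p2, h2, ht, hs, mul_nonneg (sub_nonneg.2 ht.2) (neg_nonneg.2 hs)])
      (fun y hy hyA i _ => by
        by_contra hlt
        rw [not_le] at hlt
        have hb0 := FBox_base hξ hρ hy
        have e : y - ∑ i, ξ i y • v i + ∑ i, ξ i y • v i = y := sub_add_cancel _ _
        have h1 := hT _ hb0 (fun i => ξ i y) (by rwa [e])
        rw [e, FBox_fderiv_sub hf hψ] at h1
        have h2 := hr₁P _ (lt_of_lt_of_le hy.2 (min_le_right _ _))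
        have h3 := abs_le.1 ((hb _ hb0).1.trans hτb)
        have h4 := (hb _ hb0).2.1.trans hτb
        have h5 := h2.2
        rw [h0, sub_zero] at h5
        have h6 := abs_lt.1 (show |_| < ε from h2.1)
        have ha1 : ‖fun i => ξ i y‖ ≤ ρ :=
          (pi_norm_le_iff_of_nonneg hρ.le).2 fun i => by simpa using (hy.1 i).le
        have ha2 : ρ / 2 ≤ ‖fun i => ξ i y‖ :=
          hlt.le.trans (by simpa using norm_le_pi_norm (fun i => ξ i y) i)
        have hw : ‖∑ i, ξ i y • v i‖ ≤ M * ρ :=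
          (FBox_sum_le v fun i => ξ i y).trans (mul_le_mul_of_nonneg_left ha1 hM)
        have h7 : ∀ L : E →L[ℝ] ℝ, ‖L‖ ≤ ε → |L (∑ i, ξ i y • v i)| ≤ ε * (M * ρ) :=
          fun L hL => (L.le_opNorm _).trans (mul_le_mul hL hw (norm_nonneg _) hε.le)
        have h8 := abs_le.1 (h7 _ h5.le)
        have h9 := abs_le.1 (h7 _ h4)
        have h10 : μ * (ρ / 2) ^ 2 ≤ μ * ‖fun i => ξ i y‖ ^ 2 :=
          mul_le_mul_of_nonneg_left (pow_le_pow_left₀ (by positivity) ha2 2) hμ.le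
        apply hyA
        refine ⟨?_, hy⟩
        change f y - ψ y < c
        simp only [ContinuousLinearMap.sub_apply] at h1
        have h11 : μ * (ρ / 2) ^ 2 = 4 * κ := by rw [hκdef]; ring
        linarith only [hκdef, hεκ, hc, h3, h6, h8, h9, h10, h1, h6.2, h3.1, h8.2, h9.1, h6.1, h3.2])
    exact ⟨this.1 (by norm_num), fun k hk => this.2 k (by omega)⟩
  · have h1 := hKf y hy
    have h2 := abs_le.1 ((hb y (hKB hy)).1.trans hτb)
    linarith only [hεκ', hc, h1, h2, h2.2]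

theorem box {f : E → ℝ} (hf : ContDiff ℝ ∞ f) (h : fderiv ℝ f 0 ≠ 0 ∨ NegDir f) {O : Set E}
    (hO : O ∈ 𝓝 (0 : E)) : ∃ (B K : Set E) (κ τ : ℝ), 0 < κ ∧ 0 < τ ∧ IsOpen B ∧ B ⊆ O ∧
      IsCompact K ∧ K ⊆ B ∧ K ∈ 𝓝 (0 : E) ∧ BoxGood f B K κ τ := by
  by_cases h0 : fderiv ℝ f 0 = 0
  · exact box_neg hf h0 (h.resolve_left (not_not.2 h0)) hO
  · exact box_reg hf h0 hO

end Pool.Agent.Work.MP_bf98aa_gt.Th
end

-- merged part: Pool.Agent.Work.MP_bf98aa_gt.Th.FBump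
section
/-!
The Lefschetz theorem in degrees at most two, by bumping.

PLAN. `K₀` from `cocpt`. For `x` with `F x < c₀` let `V x = {F < c₀}`. For `c₀ ≤ F x` take `Φ` from `GoodAt`,
`O = Φ ⁻¹' (small neighbourhood) ∩ ball 0 1`, `B, K, κ, τ` from `box (f := F ∘ Φ)`, and `V x = Φ '' interior K`.
Finite subcover (`IsCompact.elim_nhds_subcover`), index it by `Fin N`, `ψ, C` from `inv_partition`.
The functions `(∑ i < j, ψ i) ∘ Φ l` and their first two derivatives are bounded on `closedBall 0 1`; choose `t > 0`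
with `t * bound ≤ τ l` for all `j, l`. For `c ≥ c₀` put `U j = {F - t * ∑ i < j, ψ i < c}`: `U 0 = {F < c}`,
`U N = {F < c + t}`, `U (j+1) ⊆ U j ∪ orb (C j)`. For a good box with `F x - κ < c` use the step lemmas with
`B := Φ '' B` (`U j ∩ Φ '' B = Φ '' ({f - ψ < c} ∩ B)`, `RA.homeo`); otherwise `U (j+1) = U j`.
Induct on `j`, then on the number of steps `c₀ + m t`; `F` is bounded above (invariant, continuous on `K₀`).
-/

set_option autoImplicit false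

open scoped ContDiff Topology
open Set

namespace Pool.Agent.Work.MP_bf98aa_gt.Th

variable {E : Type} [NormedAddCommGroup E] [NormedSpace ℝ E] [FiniteDimensional ℝ E]
  {Γ : Type} [Group Γ] [MulAction Γ E]

/-- The local alternative used in the bumping argument. -/
def FBump_Loc (Γ : Type) [Group Γ] [MulAction Γ E] (F : E → ℝ) (c₀ : ℝ) (V : Set E) : Prop :=
  (∀ y ∈ V, F y < c₀) ∨ ∃ (B : Set E) (θ : ℝ), IsOpen B ∧ Small Γ B ∧ V ⊆ B ∧
    ∀ ψ : E → ℝ, ContDiff ℝ ∞ ψ → ∀ᶠ t : ℝ in 𝓝 0, ∀ c : ℝ,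
      (θ < c → ({y | F y - t * ψ y < c} ∩ B).Nonempty ∧
        ∀ k ≤ 2, RA k ({y | F y - t * ψ y < c} ∩ B)) ∧
      (c ≤ θ → ∀ y ∈ V, c ≤ F y - t * ψ y)

/-- Restriction is an isomorphism in degrees at most two. -/
def FBump_R (Γ : Type) [Group Γ] [MulAction Γ E] (U W : Set E) : Prop :=
  ∀ k ≤ 2, Surj Γ k U W ∧ Inj Γ k U W

theorem FBump_refl (U : Set E) : FBump_R Γ U U := fun _ _ => ⟨Surj.refl U, Inj.refl U⟩

theorem FBump_trans {U V W : Set E} (hU : IsOpen U) (hUV : U ⊆ V) (hVW : V ⊆ W)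
    (h1 : FBump_R Γ U V) (h2 : FBump_R Γ V W) : FBump_R Γ U W := fun k hk =>
  ⟨Surj.trans hU hUV (h1 k hk).1 (h2 k hk).1, Inj.trans hVW (h1 k hk).2 (h2 k hk).2⟩

theorem FBump_small {V : Type} [NormedAddCommGroup V] {G : E → V} (hG : Continuous G) {τ : ℝ}
    (hτ : 0 < τ) : ∀ᶠ t : ℝ in 𝓝 0, ∀ y ∈ Metric.ball (0 : E) 1, |t| * ‖G y‖ ≤ τ := by
  have := FiniteDimensional.proper_real E
  obtain ⟨M, hM⟩ := (isCompact_closedBall (0 : E) 1).exists_bound_of_continuousOn hG.continuousOn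
  have hc : Continuous fun t : ℝ => |t| * M := by fun_prop
  have h1 : ∀ᶠ t : ℝ in 𝓝 0, |t| * M < τ :=
    (isOpen_lt hc continuous_const).mem_nhds (by simpa using hτ)
  filter_upwards [h1] with t ht y hy
  exact (mul_le_mul_of_nonneg_left (hM y (Metric.ball_subset_closedBall hy))
    (abs_nonneg t)).trans ht.le

theorem FBump_fderiv_mul {ψ : E → ℝ} (hψ : ContDiff ℝ ∞ ψ) (t : ℝ) :
    fderiv ℝ (fun y => t * ψ y) = fun y => t • fderiv ℝ ψ y := by
  funext y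
  exact fderiv_const_mul (hψ.differentiable (by simp) y) t

theorem FBump_D2_mul {ψ : E → ℝ} (hψ : ContDiff ℝ ∞ ψ) (t : ℝ) (y : E) :
    D2 (fun y => t * ψ y) y = t • D2 ψ y := by
  unfold D2
  rw [FBump_fderiv_mul hψ]
  exact fderiv_fun_const_smul ((FBox_fderiv_smooth hψ).differentiable (by simp) y) t

theorem FBump_loc (h : Act Γ E) {F : E → ℝ} (hF : ContDiff ℝ ∞ F) {c₀ : ℝ}
    (hg : ∀ x, c₀ ≤ F x → GoodAt F x) (x : E) :
    ∃ V : Set E, IsOpen V ∧ x ∈ V ∧ FBump_Loc Γ F c₀ V := by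
  rcases lt_or_ge (F x) c₀ with hx | hx
  · exact ⟨{y | F y < c₀}, isOpen_lt hF.continuous continuous_const, hx, Or.inl fun y hy => hy⟩
  obtain ⟨Φ, h1, h2, h0, hd⟩ := hg x hx
  obtain ⟨O, hO, hs⟩ := h.nhds x
  have hO' : Φ ⁻¹' O ∩ Metric.ball (0 : E) 1 ∈ 𝓝 (0 : E) :=
    Filter.inter_mem (Φ.continuous.continuousAt.preimage_mem_nhds (by rwa [h0]))
      (Metric.ball_mem_nhds _ one_pos)
  have hf : ContDiff ℝ ∞ (F ∘ Φ) := hF.comp h1
  obtain ⟨B, K, κ, τ, hκ, hτ, hB, hBO, hK, hKB, hK0, hgood⟩ := box hf hd hO'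
  refine ⟨Φ '' interior K, Φ.isOpenMap _ isOpen_interior,
    ⟨0, mem_interior_iff_mem_nhds.2 hK0, h0⟩, Or.inr ⟨Φ '' B, (F ∘ Φ) 0 - κ, Φ.isOpenMap _ hB,
      ?_, image_mono (interior_subset.trans hKB), fun ψ hψ => ?_⟩⟩
  · rintro γ _ ⟨y, hy, rfl⟩ ⟨z, hz, hz'⟩
    exact hs γ _ (hBO hy).1 (by rw [← hz']; exact (hBO hz).1)
  have hψ' : ContDiff ℝ ∞ (ψ ∘ Φ) := hψ.comp h1
  have hc2 : Continuous (D2 (ψ ∘ Φ)) := (FBox_fderiv_smooth hψ').continuous_fderiv (by simp)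
  filter_upwards [FBump_small hψ'.continuous hτ, FBump_small (FBox_fderiv_smooth hψ').continuous hτ,
    FBump_small (V := E →L[ℝ] E →L[ℝ] ℝ) (G := D2 (ψ ∘ Φ)) hc2 hτ] with t ht1 ht2 ht3 c
  have key := hgood (fun y => t * (ψ ∘ Φ) y) (contDiff_const.mul hψ') (fun y hy => by
    have hy1 := (hBO hy).2
    refine ⟨?_, ?_, ?_⟩
    · rw [abs_mul]; exact ht1 y hy1
    · rw [FBump_fderiv_mul hψ', norm_smul]; exact ht2 y hy1
    · rw [FBump_D2_mul hψ']
      exact (ContinuousLinearMap.opNorm_smul_le t _).trans (ht3 y hy1)) c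
  have e : {y | F y - t * ψ y < c} ∩ Φ '' B =
      Φ '' ({y | (F ∘ Φ) y - t * (ψ ∘ Φ) y < c} ∩ B) := by
    ext y
    constructor
    · rintro ⟨hy, z, hz, rfl⟩
      exact ⟨z, ⟨hy, hz⟩, rfl⟩
    · rintro ⟨z, ⟨hy, hz⟩, rfl⟩
      exact ⟨hy, z, hz, rfl⟩
  refine ⟨fun hc => ?_, fun hc => ?_⟩
  · rw [e]
    refine ⟨(key.1 hc).1.image _, fun k hk => RA.homeo Φ h1 h2 ?_ ((key.1 hc).2 k hk)⟩
    exact (isOpen_lt (hf.sub (contDiff_const.mul hψ')).continuous continuous_const).inter hB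
  · rintro _ ⟨y, hy, rfl⟩
    exact key.2 hc y (interior_subset hy)

theorem FBump_step (h : Act Γ E) {U U' B C : Set E} (hU : IsOpen U) (hU' : IsOpen U')
    (hI : InvSet Γ U) (hI' : InvSet Γ U') (hUU : U ⊆ U') (hB : IsOpen B) (hs : Small Γ B)
    (hC : IsCompact C) (hCB : C ⊆ B) (hsub : U' ⊆ U ∪ orb Γ C) (hne : (U ∩ B).Nonempty)
    (hA : ∀ k ≤ 2, RA k (U ∩ B)) (hA' : ∀ k ≤ 2, RA k (U' ∩ B)) : FBump_R Γ U U' := by
  intro k hk
  refine ⟨step_surj h hU hU' hI hI' hUU hB hs hC hCB hsub (hA k hk), ?_⟩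
  cases k with
  | zero => exact step_inj_zero h hI' hUU hCB hsub hne (hA' 0 hk)
  | succ k => exact step_inj_succ h hU hU' hI hI' hUU hB hs hC hCB hsub (hA k (by omega)) (hA' _ hk)

theorem FBump_up (h : Act Γ E) {F : E → ℝ} (hF : ContDiff ℝ ∞ F)
    (hi : ∀ (γ : Γ) x, F (γ • x) = F x) {c₀ : ℝ} (hg : ∀ x, c₀ ≤ F x → GoodAt F x) :
    ∃ t : ℝ, 0 < t ∧ ∀ c, c₀ ≤ c → FBump_R Γ {x | F x < c} {x | F x < c + t} := by
  classical
  obtain ⟨K₀, hK₀, hcov⟩ := h.cocpt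
  choose V hVo hVx hV using FBump_loc h hF hg
  obtain ⟨T, -, hT⟩ := hK₀.elim_nhds_subcover V fun x _ => (hVo x).mem_nhds (hVx x)
  obtain ⟨ψ, C, hψ, hψ0, hψi, hψ1, hC, hCV, hψC⟩ := inv_partition h (I := T)
    (V := fun i => V i) (fun i => hVo i) hK₀ hcov (fun y hy => by
      obtain ⟨i, hi, hy'⟩ := mem_iUnion₂.1 (hT hy)
      exact mem_iUnion.2 ⟨⟨i, hi⟩, hy'⟩)
  have hsm : ∀ s : Finset T, ContDiff ℝ ∞ fun y => ∑ i ∈ s, ψ i y :=
    fun s => ContDiff.sum fun i _ => hψ i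
  have hsi : ∀ (s : Finset T) (γ : Γ) (y : E), ∑ i ∈ s, ψ i (γ • y) = ∑ i ∈ s, ψ i y :=
    fun s γ y => Finset.sum_congr rfl fun i _ => hψi i γ y
  have key : ∀ᶠ t : ℝ in 𝓝 0, ∀ (l : T) (s : Finset T), l ∉ s → 0 < t → ∀ c, c₀ ≤ c →
      FBump_R Γ {y | F y - t * ∑ i ∈ s, ψ i y < c} {y | F y - t * ∑ i ∈ insert l s, ψ i y < c} := by
    refine Filter.eventually_all.2 fun l => Filter.eventually_all.2 fun s => ?_
    have hsub : ∀ (t c : ℝ), l ∉ s → {y | F y - t * ∑ i ∈ insert l s, ψ i y < c} ⊆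
        {y | F y - t * ∑ i ∈ s, ψ i y < c} ∪ orb Γ (C l) := by
      intro t c hl y hy
      by_cases hy' : y ∈ orb Γ (C l)
      · exact Or.inr hy'
      · left
        have h1 : F y - t * ∑ i ∈ insert l s, ψ i y < c := hy
        rw [Finset.sum_insert hl, hψC l y hy', zero_add] at h1
        exact h1
    have hmono : ∀ (t c : ℝ), l ∉ s → 0 < t → {y | F y - t * ∑ i ∈ s, ψ i y < c} ⊆
        {y | F y - t * ∑ i ∈ insert l s, ψ i y < c} := by
      intro t c hl ht y hy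
      have h1 : F y - t * ∑ i ∈ s, ψ i y < c := hy
      change F y - t * ∑ i ∈ insert l s, ψ i y < c
      rw [Finset.sum_insert hl]
      linarith only [h1, ht, hψ0, mul_nonneg ht.le (hψ0 l y)]
    rcases hV l with hl | ⟨B, θ, hB, hs, hVB, hP⟩
    · refine Filter.Eventually.of_forall fun t hls ht c hc => ?_
      have e : {y | F y - t * ∑ i ∈ insert l s, ψ i y < c} = {y | F y - t * ∑ i ∈ s, ψ i y < c} := by
        refine Subset.antisymm (fun y hy => ?_) (hmono t c hls ht)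
        rcases hsub t c hls hy with h1 | ⟨γ, hγ⟩
        · exact h1
        · have h1 := hl _ (hCV l hγ)
          rw [hi] at h1
          have h2 : 0 ≤ t * ∑ i ∈ s, ψ i y :=
            mul_nonneg ht.le (Finset.sum_nonneg fun i _ => hψ0 i y)
          change F y - t * ∑ i ∈ s, ψ i y < c
          linarith
      rw [e]
      exact FBump_refl _
    · filter_upwards [hP _ (hsm s), hP _ (hsm (insert l s))] with t h1 h2 hls ht c hc
      rcases lt_or_ge θ c with hθ | hθ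
      · have hop : ∀ s : Finset T, IsOpen {y | F y - t * ∑ i ∈ s, ψ i y < c} := fun s =>
          isOpen_lt (hF.sub (contDiff_const.mul (hsm s))).continuous continuous_const
        have hinv : ∀ s : Finset T, InvSet Γ {y | F y - t * ∑ i ∈ s, ψ i y < c} := by
          intro s γ y hy
          change F (γ • y) - t * ∑ i ∈ s, ψ i (γ • y) < c
          rw [hi, hsi]
          exact hy
        exact FBump_step h (hop _) (hop _) (hinv _) (hinv _) (hmono t c hls ht) hB hs (hC l)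
          ((hCV l).trans hVB) (hsub t c hls) ((h1 c).1 hθ).1 ((h1 c).1 hθ).2 ((h2 c).1 hθ).2
      · have e : {y | F y - t * ∑ i ∈ insert l s, ψ i y < c} =
            {y | F y - t * ∑ i ∈ s, ψ i y < c} := by
          refine Subset.antisymm (fun y hy => ?_) (hmono t c hls ht)
          rcases hsub t c hls hy with h3 | ⟨γ, hγ⟩
          · exact h3
          · have h3 := (h2 c).2 hθ _ (hCV l hγ)
            rw [hi, hsi] at h3
            exact absurd hy (not_lt.2 h3)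
        rw [e]
        exact FBump_refl _
  obtain ⟨t, ht, htp⟩ := ((key.filter_mono (nhdsWithin_le_nhds (s := Ioi (0 : ℝ)))).and
    self_mem_nhdsWithin).exists
  have htp' : 0 < t := htp
  refine ⟨t, htp', fun c hc => ?_⟩
  have hle : ∀ s s' : Finset T, s ⊆ s' → {y | F y - t * ∑ i ∈ s, ψ i y < c} ⊆
      {y | F y - t * ∑ i ∈ s', ψ i y < c} := by
    intro s s' hss y hy
    have h1 : F y - t * ∑ i ∈ s, ψ i y < c := hy
    have h2 : ∑ i ∈ s, ψ i y ≤ ∑ i ∈ s', ψ i y :=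
      Finset.sum_le_sum_of_subset_of_nonneg hss fun i _ _ => hψ0 i y
    change F y - t * ∑ i ∈ s', ψ i y < c
    linarith only [h1, h2, htp', mul_le_mul_of_nonneg_left h2 htp'.le]
  have hind : ∀ s : Finset T, FBump_R Γ {y | F y - t * ∑ i ∈ (∅ : Finset T), ψ i y < c}
      {y | F y - t * ∑ i ∈ s, ψ i y < c} := by
    intro s
    induction s using Finset.induction_on with
    | empty => exact FBump_refl _
    | insert l s hl ih =>
      exact FBump_trans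
        (isOpen_lt (hF.sub (contDiff_const.mul (hsm ∅))).continuous continuous_const)
        (hle _ _ (Finset.empty_subset _)) (hle _ _ (Finset.subset_insert _ _)) ih
        (ht l s hl htp' c hc)
  have h1 := hind Finset.univ
  have e1 : {y | F y - t * ∑ i ∈ (∅ : Finset T), ψ i y < c} = {x | F x < c} := by
    ext y; simp
  have e2 : {y | F y - t * ∑ i, ψ i y < c} = {x | F x < c + t} := by
    ext y
    change F y - t * ∑ i, ψ i y < c ↔ F y < c + t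
    rw [hψ1, mul_one, sub_lt_iff_lt_add]
  rwa [e1, e2] at h1

theorem bump (h : Act Γ E) {F : E → ℝ} (hF : ContDiff ℝ ∞ F) (hi : ∀ (γ : Γ) x, F (γ • x) = F x)
    {c₀ : ℝ} (hg : ∀ x, c₀ ≤ F x → GoodAt F x) :
    ∀ k ≤ 2, Surj Γ k {x | F x < c₀} univ ∧ Inj Γ k {x | F x < c₀} univ := by
  obtain ⟨t, ht, hup⟩ := FBump_up h hF hi hg
  have hind : ∀ m : ℕ, FBump_R Γ {x | F x < c₀} {x | F x < c₀ + m * t} := by
    intro m
    induction m with
    | zero => simpa using FBump_refl _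
    | succ m ih =>
      have hm : 0 ≤ (m : ℝ) * t := by positivity
      have h1 := hup (c₀ + m * t) (by linarith)
      have e : c₀ + m * t + t = c₀ + ((m + 1 : ℕ) : ℝ) * t := by push_cast; ring
      rw [← e]
      refine FBump_trans (isOpen_lt hF.continuous continuous_const) (fun y hy => ?_)
        (fun y hy => ?_) ih h1
      · have h2 : F y < c₀ := hy
        change F y < c₀ + m * t
        linarith
      · have h2 : F y < c₀ + m * t := hy
        change F y < c₀ + m * t + t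
        linarith
  obtain ⟨K₀, hK₀, hcov⟩ := h.cocpt
  obtain ⟨M, hM⟩ := hK₀.exists_bound_of_continuousOn hF.continuous.continuousOn
  obtain ⟨m, hm⟩ := exists_nat_gt ((M - c₀) / t)
  rw [div_lt_iff₀ ht] at hm
  have e : {x | F x < c₀ + m * t} = univ := by
    refine eq_univ_of_forall fun x => ?_
    obtain ⟨γ, hγ⟩ := hcov x
    have h1 := (le_abs_self _).trans (hM _ hγ)
    rw [hi] at h1
    change F x < c₀ + m * t
    linarith
  have h1 := hind m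
  rw [e] at h1
  exact h1

end Pool.Agent.Work.MP_bf98aa_gt.Th
end
end
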