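import Pool.Agent.Work.MP_bf98aa_gt.Th.IPf
import Pool.Agent.Work.MP_bf98aa_gt.Th.FHom

-- merged part: Pool.Agent.Work.MP_bf98aa_gt.Th.NLf
section
/-!
Left invariant forms.

PLAN. `pb_mul_lf` from `th_mul`, `inv_lf` from `th_smul`. `extDeriv_lf`: `extDeriv (lf c)` is invariant under left
translations (`extDeriv_pb`), use `eq_lf`. Values at `0`: `fderiv th 0 u = -(1/2) br u`, `extDeriv_one_apply`,
`extDeriv_two_apply`. `lam_smul`: differentiate `Lt.phi_smul` in `y` at `0`. `d_lam`: the cocycle identity gives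
`pb (mul a) (alt1 ∘ lam) = alt1 ∘ lam + alt1 ∘ fderiv (phi a)` and the last form is closed (symmetry of second
derivatives), so `d (alt1 ∘ lam)` is left invariant; at `0`, `fderiv (phi x) 0 v = om x v / 2 + om x (br x v) / 12`.
-/

set_option autoImplicit false

open scoped ContDiff Topology
open Set

namespace Pool.Agent.Work.MP_bf98aa_gt.Th

namespace Nil

variable {S G : Type} [Fintype S] [DecidableEq S] [AddCommGroup G] (D : Nil S G) {k : ℕ}

theorem NLf_cc {E F H : Type} [NormedAddCommGroup E] [NormedSpace ℝ E] [NormedAddCommGroup F]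
    [NormedSpace ℝ F] [NormedAddCommGroup H] [NormedSpace ℝ H] {j : ℕ} (c : Alt H j)
    (A : F →L[ℝ] H) (B : E →L[ℝ] F) :
    (c.compContinuousLinearMap A).compContinuousLinearMap B =
      c.compContinuousLinearMap (A.comp B) := rfl

theorem NLf_one {E F : Type} [NormedAddCommGroup E] [NormedSpace ℝ E] [NormedAddCommGroup F]
    [NormedSpace ℝ F] (a : F →L[ℝ] ℝ) (A : E →L[ℝ] F) :
    (alt1 a).compContinuousLinearMap A = alt1 (a.comp A) := by
  refine alt_ext_one fun u => ?_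
  rw [ContinuousAlternatingMap.compContinuousLinearMap_apply, alt1_apply, alt1_apply]
  rfl

theorem NLf_two {E F : Type} [NormedAddCommGroup E] [NormedSpace ℝ E] [NormedAddCommGroup F]
    [NormedSpace ℝ F] (w : Alt F 2) (A : E →L[ℝ] F) (u v : E) :
    w.compContinuousLinearMap A ![u, v] = w ![A u, A v] := by
  rw [ContinuousAlternatingMap.compContinuousLinearMap_apply]
  congr 1
  funext i
  fin_cases i <;> rfl

theorem NLf_bil {E F H : Type} [NormedAddCommGroup E] [NormedSpace ℝ E] [NormedAddCommGroup F]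
    [NormedSpace ℝ F] [NormedAddCommGroup H] [NormedSpace ℝ H] (B : E →L[ℝ] F →L[ℝ] H)
    {g : E → F} (hg : DifferentiableAt ℝ g 0) :
    HasFDerivAt (fun y => B y (g y)) (B.flip (g 0)) 0 := by
  refine (B.hasFDerivAt_of_bilinear (hasFDerivAt_id (0 : E)) hg.hasFDerivAt).congr_fderiv ?_
  ext u
  simp

theorem NLf_ev {E : Type} [NormedAddCommGroup E] [NormedSpace ℝ E] {j : ℕ} {α : Fm E j} {x : E}
    (h : DifferentiableAt ℝ α x) (w : Fin j → E) {f : E → ℝ} {f' : E →L[ℝ] ℝ}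
    (e : ∀ y, α y w = f y) (h' : HasFDerivAt f f' x) (u : E) : fderiv ℝ α x u w = f' u := by
  rw [← fderiv_continuousAlternatingMap_apply_const_apply h, funext e, h'.fderiv]

theorem NLf_dmul (a x : Sp S) : ContDiffAt ℝ ∞ (D.mul a) x :=
  (D.contDiff_mul.comp (contDiff_const.prodMk contDiff_id)).contDiffAt

theorem NLf_dphi (a x : Sp S) : ContDiffAt ℝ ∞ (D.phi a) x :=
  (D.contDiff_phi.comp (contDiff_const.prodMk contDiff_id)).contDiffAt

theorem NLf_th (v : Sp S) :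
    HasFDerivAt (fun x => D.th x v) (D.br.flip (-(1 / 2 : ℝ) • v)) 0 := by
  have h := (NLf_bil D.br (g := fun x => -(1 / 2 : ℝ) • v + (1 / 6 : ℝ) • D.br.flip v x)
    (by fun_prop)).const_add v
  simp only [map_zero, smul_zero, add_zero] at h
  refine h.congr_of_eventuallyEq (Filter.Eventually.of_forall fun x => ?_)
  simp only [th, add_apply, sub_apply,
    smul_apply, ContinuousLinearMap.id_apply, ContinuousLinearMap.comp_apply,
    ContinuousLinearMap.flip_apply, map_add, map_smul]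
  module

theorem contDiff_lf (c : Alt (Sp S) k) : ContDiff ℝ ∞ (D.lf c) := by
  exact contDiff_iff_contDiffAt.2 fun _ =>
    ContDiffAt.alt_comp contDiffAt_const D.contDiff_th.contDiffAt

theorem lf_zero (c : Alt (Sp S) k) : D.lf c 0 = c := by
  rw [lf, D.th_zero]
  rfl

theorem pb_mul_lf (a : Sp S) (c : Alt (Sp S) k) : pb (D.mul a) (D.lf c) = D.lf c := by
  funext x
  rw [pb, lf, NLf_cc, D.th_mul, lf]

theorem eq_lf {α : Fm (Sp S) k} (h : ∀ a, pb (D.mul a) α = α) : α = D.lf (α 0) := by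
  funext x
  have h1 := congrFun (h x) 0
  rw [pb, D.mul_zero, (D.hasFDerivAt_mul_zero x).fderiv] at h1
  rw [lf, ← h1, NLf_cc, show (D.fr x).comp (D.th x) = ContinuousLinearMap.id ℝ _ from
    ContinuousLinearMap.ext fun v => D.fr_th x v]
  rfl

theorem pb_smul_lf {Λ : D.Lt} (γ : Λ.Gp) (c : Alt (Sp S) k) :
    pb (fun y : Sp S => γ • y) (D.lf c) = D.lf (c.compContinuousLinearMap (D.sg γ.g)) := by
  funext x
  rw [pb, lf, NLf_cc, Lt.th_smul, lf, NLf_cc]

theorem inv_lf (Λ : D.Lt) {c : Alt (Sp S) k} (hc : D.GI c) (U : Set (Sp S)) :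
    Inv Λ.Gp (D.lf c) U := by
  intro γ x _
  rw [D.pb_smul_lf γ c, hc]

theorem extDeriv_lf (c : Alt (Sp S) k) : extDeriv (D.lf c) = D.lf (extDeriv (D.lf c) 0) := by
  refine D.eq_lf fun a => funext fun x => ?_
  rw [← extDeriv_pb ((D.contDiff_lf c).differentiable (by simp) _) (D.NLf_dmul a x), D.pb_mul_lf]

theorem extDeriv_lf_one (β : Alt (Sp S) 1) (u v : Sp S) :
    extDeriv (D.lf β) 0 ![u, v] = -β ![D.br u v] := by
  obtain ⟨a, rfl⟩ := exists_lin β
  have hd := (D.contDiff_lf (alt1 a)).differentiable (by simp) 0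
  have h : ∀ p q, fderiv ℝ (D.lf (alt1 a)) 0 p ![q] = -(1 / 2) * a (D.br p q) := fun p q => by
    rw [NLf_ev hd ![q] (f := fun y => a (D.th y q)) (fun y => by rw [lf, NLf_one, alt1_apply]; rfl)
      (a.hasFDerivAt.comp 0 (D.NLf_th q))]
    simp
  rw [extDeriv_one_apply hd, h, h, alt1_apply, D.anti v u, map_neg]
  simp only [Matrix.cons_val_zero]
  ring

theorem extDeriv_lf_two (w : Alt (Sp S) 2) (u v z : Sp S) : extDeriv (D.lf w) 0 ![u, v, z] =
    -(w ![D.br u v, z] + w ![D.br v z, u] + w ![D.br z u, v]) := by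
  obtain ⟨B, hB⟩ := exists_bilin w
  have hd := (D.contDiff_lf w).differentiable (by simp) 0
  have h : ∀ p q r, fderiv ℝ (D.lf w) 0 p ![q, r] =
      -(1 / 2) * (w ![D.br p q, r] + w ![D.br r p, q]) := fun p q r => by
    rw [NLf_ev hd ![q, r] (f := fun y => B (D.th y q) (D.th y r))
      (fun y => by rw [lf, NLf_two, hB])
      (B.hasFDerivAt_of_bilinear (D.NLf_th q) (D.NLf_th r)), alt2_swap w _ q, D.anti r p, hB, hB]
    simp [D.th_zero]
    ring
  rw [extDeriv_two_apply hd, h, h, h]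
  ring

theorem cl_lf_iff (w : Alt (Sp S) 2) : Cl (D.lf w) univ ↔ D.CE2 w := by
  refine ⟨fun h u v z => ?_, fun h => ⟨(D.contDiff_lf w).contDiffOn, fun x _ => ?_⟩⟩
  · have := D.extDeriv_lf_two w u v z
    rw [h.2 0 trivial] at this
    exact neg_eq_zero.1 this.symm
  · have : extDeriv (D.lf w) 0 = 0 := alt_ext_three fun u v z => by
      rw [D.extDeriv_lf_two, h u v z, neg_zero]; rfl
    rw [D.extDeriv_lf, this]
    rfl

theorem GI_omA : D.GI (omA : Alt (Sp S) 2) := by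
  intro g
  refine alt_ext_two fun u v => ?_
  rw [NLf_two, omA_apply, omA_apply, D.om_sg]

theorem CE2_omA : D.CE2 omA := by
  intro u v z
  simp only [omA_apply]
  exact D.clo u v z

theorem contDiff_lam : ContDiff ℝ ∞ D.lam := by
  have h : ContDiff ℝ ∞ fun x => fderiv ℝ (D.phi x) (0 : Sp S) :=
    ContDiff.fderiv (f := D.phi) (g := fun _ => 0) D.contDiff_phi contDiff_const (by simp)
  exact h.clm_comp D.contDiff_th

theorem lam_smul {Λ : D.Lt} (γ : Λ.Gp) (x : Sp S) :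
    (D.lam (γ • x)).comp (fderiv ℝ (fun y : Sp S => γ • y) x) =
      D.lam x + fderiv ℝ (Lt.jj γ) x := by
  have h1 : HasFDerivAt (fun y => D.phi (γ • x) (D.sg γ.g y))
      ((fderiv ℝ (D.phi (γ • x)) 0).comp (D.sg γ.g)) 0 := by
    refine HasFDerivAt.comp 0 (g := D.phi (γ • x)) ?_ (D.sg γ.g).hasFDerivAt
    rw [map_zero]
    exact ((D.NLf_dphi _ _).differentiableAt (by simp)).hasFDerivAt
  have h2 : HasFDerivAt (fun y => Lt.jj γ (D.mul x y))
      ((fderiv ℝ (Lt.jj γ) x).comp (D.fr x)) 0 := by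
    refine HasFDerivAt.comp 0 (g := Lt.jj γ) ?_ (D.hasFDerivAt_mul_zero x)
    rw [D.mul_zero]
    exact ((Lt.contDiff_jj γ).differentiable (by simp) x).hasFDerivAt
  have h3 := ((((D.NLf_dphi x 0).differentiableAt (by simp)).hasFDerivAt).add h2).sub_const
    (Lt.jj γ x)
  have h4 := h1.unique (h3.congr_of_eventuallyEq
    (Filter.Eventually.of_forall fun y => Lt.phi_smul γ x y))
  rw [lam, ContinuousLinearMap.comp_assoc, Lt.th_smul, ← ContinuousLinearMap.comp_assoc, h4]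
  ext v
  simp [lam, D.fr_th]

theorem NLf_lam_mul (a x : Sp S) :
    (D.lam (D.mul a x)).comp (fderiv ℝ (D.mul a) x) = D.lam x + fderiv ℝ (D.phi a) x := by
  have h1 := (((D.NLf_dphi (D.mul a x) 0).differentiableAt (by simp)).hasFDerivAt).const_add
    (D.phi a x)
  have h2 : HasFDerivAt (fun y => D.phi a (D.mul x y))
      ((fderiv ℝ (D.phi a) x).comp (D.fr x)) 0 := by
    refine HasFDerivAt.comp 0 (g := D.phi a) ?_ (D.hasFDerivAt_mul_zero x)
    rw [D.mul_zero]
    exact ((D.NLf_dphi a x).differentiableAt (by simp)).hasFDerivAt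
  have h3 := (((D.NLf_dphi x 0).differentiableAt (by simp)).hasFDerivAt).add h2
  have h4 := h1.unique (h3.congr_of_eventuallyEq
    (Filter.Eventually.of_forall fun y => D.phi_cocycle a x y))
  rw [lam, ContinuousLinearMap.comp_assoc, D.th_mul, h4]
  ext v
  simp [lam, D.fr_th]

theorem NLf_dd {E : Type} [NormedAddCommGroup E] [NormedSpace ℝ E] {f : E → ℝ} {x : E}
    (hf : ContDiffAt ℝ ∞ f x) : DifferentiableAt ℝ (fun y => alt1 (fderiv ℝ f y)) x ∧
      extDeriv (fun y => alt1 (fderiv ℝ f y)) x = 0 := by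
  have h0 : DifferentiableAt ℝ (fderiv ℝ f) x :=
    (hf.fderiv_right (m := ∞) (by simp)).differentiableAt (by simp)
  have h1 : DifferentiableAt ℝ (fun y => alt1 (fderiv ℝ f y)) x :=
    ((contDiff_alt1 (n := ∞)).differentiable (by simp) _).comp x h0
  refine ⟨h1, alt_ext_two fun u v => ?_⟩
  have h2 : ∀ p q, fderiv ℝ (fun y => alt1 (fderiv ℝ f y)) x p ![q] = D2 f x p q := fun p q => by
    rw [NLf_ev h1 ![q] (f := fun y => ContinuousLinearMap.apply ℝ ℝ q (fderiv ℝ f y))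
      (fun y => alt1_apply _ _) ((ContinuousLinearMap.apply ℝ ℝ q).hasFDerivAt.comp x
        h0.hasFDerivAt)]
    rfl
  have h3 : D2 f x u v = D2 f x v u := (hf.isSymmSndFDerivAt FBasic_two).eq u v
  rw [extDeriv_one_apply h1, h2, h2, h3, sub_self]
  rfl

theorem NLf_phi0 {B : Sp S →L[ℝ] Sp S →L[ℝ] ℝ} (hB : ∀ u v, om u v = B u v) (x : Sp S) :
    fderiv ℝ (D.phi x) 0 =
      (B x).comp ((1 / 2 : ℝ) • ContinuousLinearMap.id ℝ _ + (1 / 12 : ℝ) • D.br x) := by
  have h := ((B x).comp ((1 / 2 : ℝ) • ContinuousLinearMap.id ℝ _ +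
    (1 / 12 : ℝ) • D.br x)).hasFDerivAt.add (NLf_bil B
      (g := fun y => (1 / 12 : ℝ) • D.br.flip x y - (1 / 24 : ℝ) • D.br x (D.br x y))
      (by fun_prop))
  simp only [map_zero, smul_zero, sub_zero, add_zero] at h
  refine (h.congr_of_eventuallyEq (Filter.Eventually.of_forall fun y => ?_)).fderiv
  simp only [phi, phiB, hB, Pi.add_apply, add_apply,
    smul_apply, ContinuousLinearMap.id_apply, ContinuousLinearMap.comp_apply,
    ContinuousLinearMap.flip_apply, map_add, map_sub, map_smul, smul_eq_mul]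
  ring

theorem d_lam : extDeriv (fun x => alt1 (D.lam x)) = D.lf omA := by
  have hs : ContDiff ℝ ∞ fun x => alt1 (D.lam x) := contDiff_alt1.comp D.contDiff_lam
  have hd := hs.differentiable (by simp)
  have h1 : ∀ a, pb (D.mul a) (extDeriv fun x => alt1 (D.lam x)) =
      extDeriv fun x => alt1 (D.lam x) := fun a => funext fun x => by
    have e : pb (D.mul a) (fun x => alt1 (D.lam x)) =
        (fun x => alt1 (D.lam x)) + fun x => alt1 (fderiv ℝ (D.phi a) x) := funext fun y => by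
      rw [pb, NLf_one, D.NLf_lam_mul]
      exact alt_ext_one fun u => by simp [alt1_apply]
    obtain ⟨c1, c2⟩ := NLf_dd (D.NLf_dphi a x)
    rw [← extDeriv_pb (hd _) (D.NLf_dmul a x), e, extDeriv_add (hd x) c1, c2, add_zero]
  rw [D.eq_lf h1]
  congr 1
  obtain ⟨B, hB⟩ := exists_omL (S := S)
  have h2 : ∀ p q, fderiv ℝ (fun x => alt1 (D.lam x)) 0 p ![q] = 1 / 2 * om p q := fun p q => by
    have d1 := (D.NLf_th q).differentiableAt
    rw [NLf_ev (hd 0) ![q]
      (f := fun y => B y ((1 / 2 : ℝ) • D.th y q + (1 / 12 : ℝ) • D.br y (D.th y q)))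
      (fun y => by rw [alt1_apply, lam, D.NLf_phi0 hB]; simp)
      (NLf_bil B ((d1.fun_const_smul (1 / 2 : ℝ)).fun_add
        ((D.br.differentiableAt.clm_apply d1).fun_const_smul (1 / 12 : ℝ))))]
    simp [D.th_zero, hB]
  refine alt_ext_two fun u v => ?_
  rw [extDeriv_one_apply (hd 0), h2, h2, omA_apply, om_anti v u]
  ring

end Nil

end Pool.Agent.Work.MP_bf98aa_gt.Th
end

-- merged part: Pool.Agent.Work.MP_bf98aa_gt.Th.NAvg
section
/-!
Averaging in one direction (the inductive step of the Nomizu theorem).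

PLAN. `H (t, x) = mul x ((t * L) • e)` commutes with all left translations. `Q α = ∫ hA H α t` is smooth
(`contDiffOn_hA`, `contDiffOn_integral`), commutes with `extDeriv` (`extDeriv_integral`, `extDeriv_pb`) and with
`pb (mul a)` (`pb_integral`, `pb_comp`, `mul_assoc`). For closed `α`: `homotopy` with `p = 1, q = -1` gives
`Q α - α = d (hK (1 - t) H α)`, and `hK` keeps every invariance (`hK_nat`).
Filtration: `Ft p β` means `(pb (mul x) β 0) v = 0` whenever `v i ∈ Fl (l i)` and `p < ∑ l i`. Every `β` of degree `k`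
has `Ft (3 k) β` for `k > 0` (some `l i ≥ 4`), and `Ft p β` with `p < k` forces `β = 0`. Put
`Δ s β = pb (mul (s • e)) β - β`. If `β` is `LI T` and `Ft p (Δ s β)` for all `s`, then `Ft (p - 1) (Δ s (Q β))`:
`Δ s (Q β) = Q b`, `b = Δ s β` is invariant under `Fl (l+1)` (a normal subgroup: conjugates of `h ∈ Fl (l+1)` stay in it),
`∫ pb (mul ((t L) • e)) b dt = 0` by periodicity (`Function.Periodic.intervalIntegral_add_eq`), and
`pb (mul x) (hA H b t) 0 = (pb (mul (mul ((t L) • e) x)) b 0) ∘ A` with `A = fderiv (y ↦ mul (-u) (mul y u)) 0`,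
`u = (t L) • e`, because `mul x u = mul h (mul u x)` with `h ∈ Fl (l+1)`; `A v - v` raises the level
(`mul_add_left`, `mul_add_right`), and `MultilinearMap.map_add_univ` shows that `c ∘ A - c` lowers the filtration.
For degree zero use the same argument (`c ∘ A = c`): `Δ s (Q β) = 0` at once.
`avg_closed`: iterate `Q`. `avg_prim`: iterate `β ↦ Q β - hK (1 - t) H (d β)`; the last term is left invariant.
-/

set_option autoImplicit false

open scoped ContDiff Topology
open Set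

namespace Pool.Agent.Work.MP_bf98aa_gt.Th

namespace Nil

variable {S G : Type} [Fintype S] [DecidableEq S] [AddCommGroup G] (D : Nil S G) {k : ℕ}

/-- Invariance under the left translations by the elements of `T`. -/
def LI (T : Set (Sp S)) (α : Fm (Sp S) k) : Prop := ∀ a ∈ T, pb (D.mul a) α = α

theorem NAvg_sml (u : Sp S) : ContDiff ℝ ∞ (D.mul u) :=
  D.contDiff_mul.comp (contDiff_const.prodMk contDiff_id)

theorem NAvg_smr (u : Sp S) : ContDiff ℝ ∞ fun y => D.mul y u :=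
  D.contDiff_mul.comp (contDiff_id.prodMk contDiff_const)

theorem NAvg_dl (u x : Sp S) : DifferentiableAt ℝ (D.mul u) x :=
  (D.NAvg_sml u).differentiable (by simp) x

theorem NAvg_dr (u x : Sp S) : DifferentiableAt ℝ (fun y => D.mul y u) x :=
  (D.NAvg_smr u).differentiable (by simp) x

/-- The coefficients in the left invariant frame. -/
noncomputable def NAvg_cf (β : Fm (Sp S) k) (x : Sp S) : Alt (Sp S) k := pb (D.mul x) β 0

theorem NAvg_cf_eq (β : Fm (Sp S) k) (x : Sp S) :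
    D.NAvg_cf β x = (β x).compContinuousLinearMap (D.fr x) := by
  rw [NAvg_cf, pb, D.mul_zero, (D.hasFDerivAt_mul_zero x).fderiv]

theorem NAvg_cf_inj {β β' : Fm (Sp S) k} (h : ∀ x, D.NAvg_cf β x = D.NAvg_cf β' x) : β = β' := by
  funext x
  ext v
  have e := congrArg (fun c : Alt (Sp S) k => c fun i => D.th x (v i)) (h x)
  simpa [NAvg_cf_eq, Function.comp_def, D.fr_th] using e

theorem NAvg_cf_pb (a : Sp S) (β : Fm (Sp S) k) (x : Sp S) :
    D.NAvg_cf (pb (D.mul a) β) x = D.NAvg_cf β (D.mul a x) := by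
  rw [NAvg_cf, NAvg_cf, ← pb_comp β (D.NAvg_dl x 0) (D.NAvg_dl a _)]
  exact congrArg (fun f => pb f β 0) (funext fun y => (D.mul_assoc a x y).symm)

theorem NAvg_cf_sub (β β' : Fm (Sp S) k) (x : Sp S) :
    D.NAvg_cf (β - β') x = D.NAvg_cf β x - D.NAvg_cf β' x := by
  rw [NAvg_cf, pb_sub]; rfl

theorem NAvg_cont_fr : Continuous D.fr := by
  unfold fr
  fun_prop

theorem NAvg_cont {X : Type} [TopologicalSpace X] {β : X → Alt (Sp S) k} {x : X → Sp S}
    (hβ : Continuous β) (hx : Continuous x) :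
    Continuous fun t => (β t).compContinuousLinearMap (D.fr (x t)) :=
  continuous_alt_comp.comp (hβ.prodMk (D.NAvg_cont_fr.comp hx))

theorem NAvg_comm {l : ℕ} {u : Sp S} (hu : u ∈ Fl D.lev l) (x : Sp S) :
    ∃ h ∈ Fl D.lev (l + 1), D.mul x u = D.mul h (D.mul u x) := by
  have h1 := D.mul_add_right hu x 0
  have h2 := D.mul_add_left hu 0 x
  rw [zero_add, D.mul_zero] at h1
  rw [zero_add, D.zero_mul] at h2
  have h3 : D.mul x u - D.mul u x ∈ Fl D.lev (l + 1) := by
    have := (Fl D.lev (l + 1)).sub_mem h1 h2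
    rwa [sub_sub_sub_cancel_right, sub_sub_sub_cancel_right] at this
  have h4 := D.mul_add_left h3 (D.mul u x) (-D.mul u x)
  rw [add_sub_cancel, D.mul_neg, sub_zero] at h4
  refine ⟨D.mul (D.mul x u) (-D.mul u x), ?_, ?_⟩
  · have := (Fl D.lev (l + 1)).add_mem (Fl_anti D.lev (Nat.le_succ _) h4) h3
    rwa [sub_add_cancel] at this
  · rw [D.mul_assoc, D.neg_mul, D.mul_zero]

/-- The adjoint action. -/
noncomputable def NAvg_ad (u : Sp S) : Sp S →L[ℝ] Sp S :=
  fderiv ℝ (fun y => D.mul (-u) (D.mul y u)) 0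

theorem NAvg_ad_mem (u : Sp S) {l : ℕ} {v : Sp S} (hv : v ∈ Fl D.lev l) :
    D.NAvg_ad u v - v ∈ Fl D.lev (l + 1) := fun i hi => by
  have hc : DifferentiableAt ℝ (fun y => D.mul (-u) (D.mul y u)) ((0 : ℝ) • v) :=
    (D.NAvg_dl _ _).comp _ (D.NAvg_dr _ _)
  have hl : HasDerivAt (fun t : ℝ => t • v) v 0 := by
    simpa using (hasDerivAt_id (0 : ℝ)).smul_const v
  have h1 := (hasDerivAt_pi.1 ((hc.hasFDerivAt.comp_hasDerivAt (0 : ℝ) hl).sub hl)) i
  rw [zero_smul] at h1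
  refine h1.unique ((hasDerivAt_const (0 : ℝ) (0 : ℝ)).congr_of_eventuallyEq
    (Filter.Eventually.of_forall fun t => ?_))
  have ht := (Fl D.lev l).smul_mem t hv
  have h2 := D.mul_add_left ht 0 u
  rw [zero_add, D.zero_mul] at h2
  have h3 : D.mul (t • v) u - u ∈ Fl D.lev l := by
    have := (Fl D.lev l).add_mem (Fl_anti D.lev (Nat.le_succ _) h2) ht
    rwa [sub_add_cancel] at this
  have h4 := D.mul_add_right h3 (-u) u
  rw [add_sub_cancel, D.neg_mul, sub_zero] at h4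
  have h5 := (Fl D.lev (l + 1)).add_mem h4 h2
  rw [← add_sub_assoc, sub_add_cancel] at h5
  exact h5 i hi

theorem NAvg_cf_right (u : Sp S) (β : Fm (Sp S) k) (x : Sp S) :
    D.NAvg_cf (pb (fun y => D.mul y u) β) x =
      (D.NAvg_cf β (D.mul x u)).compContinuousLinearMap (D.NAvg_ad u) := by
  have hc : DifferentiableAt ℝ (fun y => D.mul (-u) (D.mul y u)) 0 :=
    (D.NAvg_dl _ _).comp _ (D.NAvg_dr _ _)
  have e := pb_comp β hc (D.NAvg_dl (D.mul x u) _)
  rw [NAvg_cf, ← pb_comp β (D.NAvg_dl x 0) (D.NAvg_dr u _), show (fun y => D.mul (D.mul x y) u) =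
    fun y => D.mul (D.mul x u) (D.mul (-u) (D.mul y u)) from funext fun y => by
      rw [D.mul_assoc x u, D.mul_neg_cancel, D.mul_assoc], e]
  show (pb (D.mul (D.mul x u)) β (D.mul (-u) (D.mul 0 u))).compContinuousLinearMap _ = _
  rw [D.zero_mul, D.neg_mul]
  rfl

/-- The level filtration of alternating forms. -/
def NAvg_Ft (p : ℕ) (c : Alt (Sp S) k) : Prop :=
  ∀ (l : Fin k → ℕ) (v : Fin k → Sp S), (∀ i, v i ∈ Fl D.lev (l i)) → p ≤ ∑ i, l i → c v = 0

theorem NAvg_Ft_top (c : Alt (Sp S) k) : D.NAvg_Ft (3 * k + 1) c := fun l v hv hp => by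
  by_contra h
  have h1 : ∀ i, l i ≤ 3 := fun i => by
    by_contra h2
    exact h (c.map_coord_zero i (D.eq_zero_of_Fl_four (Fl_anti D.lev (by omega) (hv i))))
  have h2 : ∑ i, l i ≤ ∑ _i : Fin k, 3 := Finset.sum_le_sum fun i _ => h1 i
  simp at h2
  omega

theorem NAvg_Ft_zero {c : Alt (Sp S) k} (h : D.NAvg_Ft 0 c) : c = 0 := by
  ext v
  exact h (fun _ => 0) v (fun i j hj => absurd hj (Nat.not_lt_zero _)) (Nat.zero_le _)

theorem NAvg_Ft_comp {p : ℕ} {c : Alt (Sp S) k} (h : D.NAvg_Ft (p + 1) c) (u : Sp S) :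
    D.NAvg_Ft p (c.compContinuousLinearMap (D.NAvg_ad u) - c) := fun l v hv hp => by
  have e : (D.NAvg_ad u ∘ v) = (fun i => D.NAvg_ad u (v i) - v i) + v := by
    funext i; simp
  have e2 := c.toContinuousMultilinearMap.toMultilinearMap.map_add_univ
    (fun i => D.NAvg_ad u (v i) - v i) v
  rw [Finset.sum_eq_single ∅ (fun s _ hs => ?_) (by simp), Finset.piecewise_empty] at e2
  · show c (D.NAvg_ad u ∘ v) - c v = 0
    rw [e]
    exact sub_eq_zero.2 e2
  · refine h (fun i => l i + if i ∈ s then 1 else 0) _ (fun i => ?_) ?_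
    · by_cases hi : i ∈ s
      · simpa [hi] using D.NAvg_ad_mem u (hv i)
      · simpa [hi] using hv i
    · have := Finset.card_pos.2 (Finset.nonempty_iff_ne_empty.2 hs)
      rw [Finset.sum_add_distrib]
      simp only [Finset.sum_ite_mem, Finset.univ_inter, Finset.sum_const, smul_eq_mul, mul_one]
      omega

/-- The homotopy of right translations. -/
noncomputable def NAvg_H (L : ℝ) (e : Sp S) (p : ℝ × Sp S) : Sp S := D.mul p.2 ((p.1 * L) • e)

/-- The averaging operator. -/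
noncomputable def NAvg_Q (L : ℝ) (e : Sp S) (β : Fm (Sp S) k) : Fm (Sp S) k :=
  fun x => ∫ t in (0 : ℝ)..1, hA (D.NAvg_H L e) β t x

/-- The homotopy operator. -/
noncomputable def NAvg_K (L : ℝ) (e : Sp S) (β : Fm (Sp S) (k + 1)) : Fm (Sp S) k :=
  hK (fun t => 1 + -1 * t) (D.NAvg_H L e) β

variable {L : ℝ} {e : Sp S}

theorem NAvg_smH : ContDiff ℝ ∞ (D.NAvg_H L e) :=
  D.contDiff_mul.comp (contDiff_snd.prodMk ((contDiff_fst.mul contDiff_const).smul contDiff_const))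

theorem NAvg_smA {β : Fm (Sp S) k} (hβ : Sm β univ) :
    ContDiff ℝ ∞ fun p : ℝ × Sp S => hA (D.NAvg_H L e) β p.1 p.2 :=
  contDiffOn_univ.1 (contDiffOn_hA isOpen_univ D.NAvg_smH.contDiffOn isOpen_univ
    (mapsTo_univ _ _) hβ)

theorem NAvg_contA {β : Fm (Sp S) k} (hβ : Sm β univ) (x : Sp S) :
    Continuous fun t => hA (D.NAvg_H L e) β t x :=
  (D.NAvg_smA hβ).continuous.comp (continuous_id.prodMk continuous_const)

theorem NAvg_smQ {β : Fm (Sp S) k} (hβ : Sm β univ) : Sm (D.NAvg_Q L e β) univ :=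
  (contDiffOn_integral isOpen_univ (D.NAvg_smA hβ).contDiffOn isOpen_univ
    fun _ _ _ _ => mem_univ _).1

theorem NAvg_dQ {β : Fm (Sp S) k} (hβ : Sm β univ) :
    extDeriv (D.NAvg_Q L e β) = D.NAvg_Q L e (extDeriv β) := by
  funext x
  refine (extDeriv_integral isOpen_univ (D.NAvg_smA hβ).contDiffOn isOpen_univ
    (fun _ _ _ _ => mem_univ _) (mem_univ x)).trans ?_
  refine intervalIntegral.integral_congr fun t _ => ?_
  exact extDeriv_pb (f := fun y => D.mul y ((t * L) • e)) (hβ.diffAt isOpen_univ (mem_univ _))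
    (D.NAvg_smr _).contDiffAt

theorem NAvg_cfQ {β : Fm (Sp S) k} (hβ : Sm β univ) (x : Sp S) :
    D.NAvg_cf (D.NAvg_Q L e β) x = ∫ t in (0 : ℝ)..1, D.NAvg_cf (hA (D.NAvg_H L e) β t) x :=
  pb_integral (D.mul x) (hA (D.NAvg_H L e) β) 0 (D.NAvg_contA hβ _).continuousOn

theorem NAvg_cfA (β : Fm (Sp S) k) (t : ℝ) (x : Sp S) : D.NAvg_cf (hA (D.NAvg_H L e) β t) x =
    (D.NAvg_cf β (D.mul x ((t * L) • e))).compContinuousLinearMap (D.NAvg_ad ((t * L) • e)) :=
  D.NAvg_cf_right _ β x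

theorem NAvg_LIQ {T : Set (Sp S)} {β : Fm (Sp S) k} (hβ : Sm β univ) (hi : D.LI T β) :
    D.LI T (D.NAvg_Q L e β) := fun a ha => D.NAvg_cf_inj fun x => by
  rw [NAvg_cf_pb, D.NAvg_cfQ hβ, D.NAvg_cfQ hβ]
  refine intervalIntegral.integral_congr fun t _ => ?_
  simp only [NAvg_cfA]
  rw [D.mul_assoc, ← NAvg_cf_pb, hi a ha]

theorem NAvg_LIK {T : Set (Sp S)} {β : Fm (Sp S) (k + 1)} (hβ : Sm β univ) (hi : D.LI T β) :
    D.LI T (D.NAvg_K L e β) := fun a ha => funext fun x =>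
  hK_nat isOpen_univ D.NAvg_smH.contDiffOn isOpen_univ (mapsTo_univ _ _) hβ (D.NAvg_sml a)
    (D.NAvg_sml a) (fun _ _ => mem_univ _) (fun p _ => D.mul_assoc _ _ _)
    (fun y _ => congrFun (hi a ha) y) (by fun_prop) fun _ _ => mem_univ _

theorem NAvg_dK {β : Fm (Sp S) (k + 1)} (hβ : Cl β univ) :
    IsD (D.NAvg_K L e β) (D.NAvg_Q L e β - β) univ := by
  have h := homotopy isOpen_univ (D.NAvg_smH (L := L) (e := e)).contDiffOn isOpen_univ
    (mapsTo_univ _ _) hβ isOpen_univ (fun _ _ _ _ => mem_univ _) 1 (-1)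
  refine ⟨h.1, fun x hx => (h.2 x hx).trans ?_⟩
  have e0 : hA (D.NAvg_H L e) β 0 = β := by
    rw [hA, show (fun y => D.NAvg_H L e (0, y)) = fun y => y from funext fun y => by
      simp [NAvg_H, D.mul_zero], pb_id]
  show _ = D.NAvg_Q L e β x - β x
  rw [e0, NAvg_Q]
  module

theorem NAvg_LI_sub {T : Set (Sp S)} {β β' : Fm (Sp S) k} (h : D.LI T β) (h' : D.LI T β') :
    D.LI T (β - β') := fun a ha => by rw [pb_sub, h a ha, h' a ha]

theorem NAvg_step {T : Set (Sp S)} {l p : ℕ} (hL : 0 < L) (he : e ∈ Fl D.lev l)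
    (hT : ∀ h ∈ Fl D.lev (l + 1), h ∈ T) (hLe : L • e ∈ T) {β : Fm (Sp S) k} (hβ : Sm β univ)
    (hi : D.LI T β)
    (hp : ∀ (s : ℝ) x, D.NAvg_Ft (p + 1) (D.NAvg_cf β (D.mul (s • e) x) - D.NAvg_cf β x))
    (s : ℝ) (x : Sp S) : D.NAvg_Ft p
      (D.NAvg_cf (D.NAvg_Q L e β) (D.mul (s • e) x) - D.NAvg_cf (D.NAvg_Q L e β) x) := by
  intro l' v hv hl'
  have inv : ∀ a ∈ T, ∀ y, D.NAvg_cf β (D.mul a y) = D.NAvg_cf β y := fun a ha y => by
    rw [← NAvg_cf_pb, hi a ha]
  have sw : ∀ (r : ℝ) y, D.NAvg_cf β (D.mul y (r • e)) = D.NAvg_cf β (D.mul (r • e) y) :=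
    fun r y => by
      obtain ⟨h, hh, e1⟩ := D.NAvg_comm ((Fl D.lev l).smul_mem r he) y
      rw [e1, inv h (hT h hh)]
  have ad : ∀ (r r' : ℝ) y, D.mul (r • e) (D.mul (r' • e) y) = D.mul ((r + r') • e) y :=
    fun r r' y => by rw [← D.mul_assoc, D.mul_smul_smul]
  let g : ℝ → ℝ := fun t => D.NAvg_cf β (D.mul ((t * L) • e) x) v
  have per : Function.Periodic g 1 := fun t => by
    show D.NAvg_cf β _ v = D.NAvg_cf β _ v
    rw [show (t + 1) * L = L + t * L by ring, ← ad, inv _ hLe]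
  have cm : Continuous fun t : ℝ => D.mul ((t * L) • e) x :=
    (D.NAvg_smr x).continuous.comp (by fun_prop)
  have cg : Continuous g := by
    simp only [g, NAvg_cf_eq]
    exact (ContinuousAlternatingMap.apply ℝ (Sp S) ℝ v).continuous.comp
      (D.NAvg_cont ((contDiffOn_univ.1 hβ).continuous.comp cm) cm)
  have ig : ∫ t in (0 : ℝ)..1, g (t + s / L) = ∫ t in (0 : ℝ)..1, g t := by
    rw [intervalIntegral.integral_comp_add_right g, add_comm 1, zero_add,
      per.intervalIntegral_add_eq (s / L) 0, zero_add]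
  have ev : ∀ y, D.NAvg_cf (D.NAvg_Q L e β) y v =
      ∫ t in (0 : ℝ)..1, D.NAvg_cf (hA (D.NAvg_H L e) β t) y v ∧
      Continuous fun t => D.NAvg_cf (hA (D.NAvg_H L e) β t) y v := fun y => by
    have c1 : Continuous fun t => D.NAvg_cf (hA (D.NAvg_H L e) β t) y := by
      simp only [NAvg_cf_eq]
      exact D.NAvg_cont (D.NAvg_contA hβ y) continuous_const
    refine ⟨?_, (ContinuousAlternatingMap.apply ℝ (Sp S) ℝ v).continuous.comp c1⟩
    rw [D.NAvg_cfQ hβ]
    exact ((ContinuousAlternatingMap.apply ℝ (Sp S) ℝ v).intervalIntegral_comp_comm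
      (c1.intervalIntegrable _ _)).symm
  show D.NAvg_cf _ _ v - D.NAvg_cf _ _ v = 0
  have cg' : Continuous fun t => g (t + s / L) := cg.comp (continuous_add_const _)
  refine Eq.trans ?_ (sub_eq_zero.2 ig)
  rw [(ev _).1, (ev _).1, ← intervalIntegral.integral_sub ((ev _).2.intervalIntegrable _ _)
    ((ev _).2.intervalIntegrable _ _), ← intervalIntegral.integral_sub
    (cg'.intervalIntegrable _ _) (cg.intervalIntegrable _ _)]
  refine intervalIntegral.integral_congr fun t _ => ?_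
  have h1 := D.NAvg_Ft_comp (hp s (D.mul ((t * L) • e) x)) ((t * L) • e) l' v hv hl'
  simp only [NAvg_cfA, sw, ad, g]
  rw [ad] at h1
  rw [show (t + s / L) * L = s + t * L by field_simp; ring, add_comm (t * L)]
  exact sub_eq_zero.1 h1

theorem NAvg_fin {β : Fm (Sp S) k}
    (hp : ∀ (s : ℝ) x, D.NAvg_Ft 0 (D.NAvg_cf β (D.mul (s • e) x) - D.NAvg_cf β x)) (t : ℝ) :
    pb (D.mul (t • e)) β = β := D.NAvg_cf_inj fun x => by
  rw [NAvg_cf_pb]
  exact sub_eq_zero.1 (D.NAvg_Ft_zero (hp t x))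

omit [DecidableEq S] in
theorem NAvg_dsub {β β' : Fm (Sp S) k} (h : Sm β univ) (h' : Sm β' univ) :
    extDeriv (β - β') = extDeriv β - extDeriv β' := funext fun x =>
  extDeriv_sub' (h.diffAt isOpen_univ (mem_univ x)) (h'.diffAt isOpen_univ (mem_univ x))

theorem avg_closed {T : Set (Sp S)} {l : ℕ} {e : Sp S} {L : ℝ} (hL : 0 < L) (he : e ∈ Fl D.lev l)
    (hT : ∀ h ∈ Fl D.lev (l + 1), h ∈ T) (hLe : L • e ∈ T) {α : Fm (Sp S) (k + 1)}
    (hα : Cl α univ) (hi : D.LI T α) : ∃ β : Fm (Sp S) k, Sm β univ ∧ D.LI T β ∧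
      ∀ t : ℝ, pb (D.mul (t • e)) (α - extDeriv β) = α - extDeriv β := by
  have hp : ∀ (s : ℝ) x, D.NAvg_Ft (3 * (k + 1) + 1)
      (D.NAvg_cf α (D.mul (s • e) x) - D.NAvg_cf α x) := fun s x => D.NAvg_Ft_top _
  generalize 3 * (k + 1) + 1 = p at hp
  induction p generalizing α with
  | zero =>
    refine ⟨0, contDiffOn_const, fun a _ => pb_zero _, fun t => ?_⟩
    rw [show extDeriv (0 : Fm (Sp S) k) = 0 from funext fun x => extDeriv_const 0 x, sub_zero]
    exact D.NAvg_fin hp t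
  | succ p ih =>
    have hK := D.NAvg_dK (L := L) (e := e) hα
    have hc : Cl (D.NAvg_Q L e α) univ := ⟨D.NAvg_smQ hα.1, fun x _ => by
      rw [D.NAvg_dQ hα.1, show extDeriv α = 0 from funext fun y => hα.2 y (mem_univ y)]
      simp [NAvg_Q, hA, pb_zero]⟩
    obtain ⟨β, b1, b2, b3⟩ := ih hc (D.NAvg_LIQ hα.1 hi) (D.NAvg_step hL he hT hLe hα.1 hi hp)
    refine ⟨β - D.NAvg_K L e α, b1.sub hK.1, D.NAvg_LI_sub b2 (D.NAvg_LIK hα.1 hi), ?_⟩
    rwa [NAvg_dsub b1 hK.1, show extDeriv (D.NAvg_K L e α) = _ from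
      funext fun x => hK.2 x (mem_univ x), show α - (extDeriv β - (D.NAvg_Q L e α - α)) =
        D.NAvg_Q L e α - extDeriv β by abel]

theorem avg_prim {T : Set (Sp S)} {l : ℕ} {e : Sp S} {L : ℝ} (hL : 0 < L) (he : e ∈ Fl D.lev l)
    (hT : ∀ h ∈ Fl D.lev (l + 1), h ∈ T) (hLe : L • e ∈ T) {β : Fm (Sp S) k} (hβ : Sm β univ)
    (hi : D.LI T β) (hd : D.LI univ (extDeriv β)) : ∃ β' : Fm (Sp S) k, Sm β' univ ∧ D.LI T β' ∧
      extDeriv β' = extDeriv β ∧ ∀ t : ℝ, pb (D.mul (t • e)) β' = β' := by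
  have hp : ∀ (s : ℝ) x, D.NAvg_Ft (3 * k + 1)
      (D.NAvg_cf β (D.mul (s • e) x) - D.NAvg_cf β x) := fun s x => D.NAvg_Ft_top _
  generalize 3 * k + 1 = p at hp
  induction p generalizing β with
  | zero => exact ⟨β, hβ, hi, rfl, D.NAvg_fin hp⟩
  | succ p ih =>
    have hc : Cl (extDeriv β) univ := IsD.cl ⟨hβ, fun _ _ => rfl⟩ isOpen_univ
    have hK := D.NAvg_dK (L := L) (e := e) hc
    have hI := D.NAvg_LIK (L := L) (e := e) hc.1 hd
    have hQ := D.NAvg_smQ (L := L) (e := e) hβ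
    have e1 : extDeriv (D.NAvg_Q L e β - D.NAvg_K L e (extDeriv β)) = extDeriv β := by
      rw [NAvg_dsub hQ hK.1, D.NAvg_dQ hβ, show extDeriv (D.NAvg_K L e (extDeriv β)) = _ from
        funext fun x => hK.2 x (mem_univ x), sub_sub_cancel]
    obtain ⟨β', b1, b2, b3, b4⟩ := ih (β := D.NAvg_Q L e β - D.NAvg_K L e (extDeriv β))
      (hQ.sub hK.1) (D.NAvg_LI_sub (D.NAvg_LIQ hβ hi) fun a _ => hI a (mem_univ a))
      (by rwa [e1]) fun s x => by
        rw [NAvg_cf_sub, NAvg_cf_sub, ← D.NAvg_cf_pb _ (D.NAvg_K L e _), hI _ (mem_univ _),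
          sub_sub_sub_cancel_right]
        exact D.NAvg_step hL he hT hLe hβ hi hp s x
    exact ⟨β', b1, b2, b3.trans e1, b4⟩

end Nil

end Pool.Agent.Work.MP_bf98aa_gt.Th
end
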