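import Pool.Agent.Work.MP_bf98aa_gt.Th.IMain
import Pool.Agent.Work.MP_bf98aa_gt.Th.IPf
import Pool.Agent.Work.MP_bf98aa_gt.Th.ZRes
import Pool.Agent.Work.MP_bf98aa_gt.Th.FHom
import Pool.Agent.Work.MP_bf98aa_gt.Th.NAvg
import Pool.Agent.Work.MP_bf98aa_gt.Th.DMain
import Pool.Agent.Work.MP_bf98aa_gt.Th.FBump
import Pool.Agent.Work.MP_bf98aa_gt.Th.ACoh
import Mathlib

-- merged part: Pool.Agent.Work.MP_bf98aa_gt.Th.Ana
section
-- merged part: Pool.Agent.Work.MP_bf98aa_gt.Th.ZRetr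
section
/-!
An equivariant retraction onto the zero set.

PLAN. `N x u = fun i => rip u (fderiv (hx s x) 0 (Pi.single i 1))` is jointly smooth (`contDiff_hx`, `ContDiff.fderiv`), real linear in `u`, and
`N (γ • x) (ee (jj γ x) • u) = sg γ.g (N x u)` (`hx_smul`). `Gx x u = hx s x (N x u)`, `Ψ (x, u) = (x, Gx x u)`. At `(z, 0)` with `s z = 0` the
derivative of `Ψ` is invertible (`u ↦ A (N z u)` is injective since `rip u (A (N z u)) = nsq (N z u)` and `trans`), so `Ψ` is a local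
diffeomorphism (`ContDiffAt.toOpenPartialHomeomorph`, `ContDiffAt.to_localInverse`; for `∞` use `OpenPartialHomeomorph.contDiffAt_symm` at
nearby points, where the derivative is still invertible). This gives open `V z ∋ z`, `ρ z > 0` and a smooth `u z` on `V z` with `Gx x (u z x) = 0`, unique in
the ball of radius `ρ z`. Cover the compact set `Z ∩ K` by finitely many `V z`, `ρ = min`, `W = ⋃ {x ∈ V z | ‖u z x‖ < ρ}`. On `orb W` there is exactly one
solution `u x` of norm `< ρ` and it is smooth and equivariant; `r x = mul x (N x (u x))`; `c₀` = the minimum of `nsc ∘ s` on `K \ W`.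
-/

set_option autoImplicit false

open scoped ContDiff Topology
open Set

namespace Pool.Agent.Work.MP_bf98aa_gt.Th

section
variable {E F : Type} [NormedAddCommGroup E] [NormedSpace ℝ E] [FiniteDimensional ℝ E]
  [NormedAddCommGroup F] [NormedSpace ℝ F] [FiniteDimensional ℝ F]

/-- The implicit function on an open set, with uniqueness in a ball. -/
theorem ZRetr_loc {g : E × F → F} (hg : ContDiff ℝ ∞ g) {z : E} (hz : g (z, 0) = 0)
    {B : F →L[ℝ] F} (hB : HasFDerivAt (fun u => g (z, u)) B 0) (hi : ∀ b, B b = 0 → b = 0) :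
    ∃ (V : Set E) (ρ : ℝ) (w : E → F), IsOpen V ∧ z ∈ V ∧ 0 < ρ ∧ ContDiffOn ℝ ∞ w V ∧ w z = 0 ∧
      (∀ x ∈ V, g (x, w x) = 0) ∧ ∀ x ∈ V, ∀ u, ‖u‖ < ρ → g (x, u) = 0 → u = w x := by
  have := FiniteDimensional.complete ℝ E
  have := FiniteDimensional.complete ℝ F
  let Ψ : E × F → E × F := fun p => (p.1, g p)
  have hΨ : ContDiff ℝ ∞ Ψ := contDiff_fst.prodMk hg
  have hn : (∞ : WithTop ℕ∞) ≠ 0 := by simp
  have hd : ∀ p, HasFDerivAt Ψ (fderiv ℝ Ψ p) p := fun p => (hΨ.differentiable hn p).hasFDerivAt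
  have hgd := (hg.differentiable hn (z, 0)).hasFDerivAt
  have e1 : fderiv ℝ Ψ (z, 0) = (ContinuousLinearMap.fst ℝ E F).prod (fderiv ℝ g (z, 0)) :=
    (hasFDerivAt_fst.prodMk hgd).fderiv
  have e2 : (fderiv ℝ g (z, 0)).comp (ContinuousLinearMap.inr ℝ E F) = B :=
    (hgd.comp (0 : F) (hasFDerivAt_prodMk_right z (0 : F))).unique hB
  have hinj : Function.Injective (fderiv ℝ Ψ (z, 0)) := by
    rw [injective_iff_map_eq_zero]
    rintro ⟨a, b⟩ hab
    rw [e1] at hab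
    have ha : a = 0 := congrArg Prod.fst hab
    subst ha
    have hb : B b = 0 := by rw [← e2]; exact congrArg Prod.snd hab
    rw [hi b hb]
    rfl
  let L : (E × F) ≃L[ℝ] (E × F) :=
    (LinearEquiv.ofInjectiveEndo (fderiv ℝ Ψ (z, 0)).toLinearMap hinj).toContinuousLinearEquiv
  have hL : (L : (E × F) →L[ℝ] (E × F)) = fderiv ℝ Ψ (z, 0) := by
    apply ContinuousLinearMap.ext
    intro p
    rfl
  have hdL : HasFDerivAt Ψ (L : (E × F) →L[ℝ] (E × F)) (z, 0) := hL ▸ hd _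
  obtain ⟨Φ, hΦ, hs⟩ : ∃ Φ : OpenPartialHomeomorph (E × F) (E × F), (Φ : E × F → E × F) = Ψ ∧
      (z, 0) ∈ Φ.source :=
    ⟨hΨ.contDiffAt.toOpenPartialHomeomorph Ψ hdL hn, rfl,
      hΨ.contDiffAt.mem_toOpenPartialHomeomorph_source hdL hn⟩
  have hO : IsOpen (fderiv ℝ Ψ ⁻¹' range ((↑) : ((E × F) ≃L[ℝ] (E × F)) → (E × F) →L[ℝ] (E × F))) :=
    ContinuousLinearEquiv.isOpen.preimage (hΨ.continuous_fderiv hn)
  obtain ⟨ρ, hρ, hb⟩ := Metric.isOpen_iff.1 Φ.open_source _ hs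
  have hz' : Φ (z, 0) = (z, 0) := by rw [hΦ]; exact Prod.ext rfl hz
  have hzs : Φ.symm (z, 0) = (z, 0) := by
    have := Φ.left_inv hs
    rwa [hz'] at this
  have hzt : (z, (0 : F)) ∈ Φ.target := hz' ▸ Φ.map_source hs
  have hc : Continuous fun x : E => (x, (0 : F)) := by fun_prop
  have key : ∀ x : E, (x, (0 : F)) ∈ Φ.target → Φ.symm (x, 0) = (x, (Φ.symm (x, 0)).2) ∧
      g (Φ.symm (x, 0)) = 0 := fun x hx => by
    have := Φ.right_inv hx
    rw [hΦ] at this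
    have a1 : (Φ.symm (x, 0)).1 = x := congrArg Prod.fst this
    exact ⟨Prod.ext a1 rfl, congrArg Prod.snd this⟩
  refine ⟨(fun x : E => (x, (0 : F))) ⁻¹' (Φ.target ∩ Φ.symm ⁻¹' _) ∩ Metric.ball z ρ, ρ,
    fun x => (Φ.symm (x, 0)).2,
    ((Φ.isOpen_inter_preimage_symm hO).preimage hc).inter Metric.isOpen_ball,
    ⟨⟨hzt, ?_⟩, Metric.mem_ball_self hρ⟩, hρ, ?_, congrArg Prod.snd hzs, ?_, ?_⟩
  · show fderiv ℝ Ψ (Φ.symm (z, 0)) ∈ range _
    rw [hzs]
    exact ⟨L, hL⟩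
  · rintro x ⟨⟨h1, L', hL'⟩, -⟩
    have h2 : ContDiffAt ℝ ∞ Φ.symm (x, 0) :=
      Φ.contDiffAt_symm (f₀' := L') h1 (by rw [hΦ, hL']; exact hd _) (by rw [hΦ]; exact hΨ.contDiffAt)
    exact (contDiffAt_snd.comp x (h2.comp x
      (contDiffAt_id.prodMk contDiffAt_const))).contDiffWithinAt
  · rintro x ⟨⟨h1, -⟩, -⟩
    rw [← (key x h1).1]
    exact (key x h1).2
  · rintro x ⟨-, h2⟩ u hu h0
    have h3 : (x, u) ∈ Φ.source := hb (by
      rw [← ball_prod_same]
      exact ⟨h2, mem_ball_zero_iff.2 hu⟩)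
    have h4 : Φ (x, u) = (x, 0) := by rw [hΦ]; exact Prod.ext rfl h0
    have h5 := Φ.left_inv h3
    rw [h4] at h5
    show u = (Φ.symm (x, 0)).2
    rw [h5]

omit [FiniteDimensional ℝ E] [FiniteDimensional ℝ F] in
theorem ZRetr_par (H : E → E → F) (hH : ContDiff ℝ ∞ fun p : E × E => H p.1 p.2) :
    (ContDiff ℝ ∞ fun x => fderiv ℝ (H x) 0) ∧ ∀ x, HasFDerivAt (H x) (fderiv ℝ (H x) 0) 0 := by
  have hh : ContDiff ℝ ∞ (Function.uncurry H) := hH
  have hh1 : ∀ x, ContDiff ℝ ∞ (H x) := fun x => hh.comp (contDiff_const.prodMk contDiff_id)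
  exact ⟨hh.fderiv contDiff_const (by simp), fun x =>
    ((hh1 x).differentiable (by simp) 0).hasFDerivAt⟩

/-- The equivariant implicit function near the zero set. -/
theorem ZRetr_abs {Γ : Type} [Group Γ] [MulAction Γ E] (hA : Act Γ E) {g : E × F → F}
    {R : E × F → E} (hg : ContDiff ℝ ∞ g) (hR : ContDiff ℝ ∞ R) (c : Γ → E → F → F)
    (hc : ∀ γ x u, ‖c γ x u‖ = ‖u‖) (hcs : ∀ γ x, Function.Surjective (c γ x))
    (h1 : ∀ γ x u, g (γ • x, c γ x u) = 0 ↔ g (x, u) = 0)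
    (h2 : ∀ γ x u, R (γ • x, c γ x u) = γ • R (x, u)) {f : E → ℝ} (hf : Continuous f)
    (hfi : ∀ (γ : Γ) x, f (γ • x) = f x) (hf0 : ∀ x, g (x, 0) ≠ 0 → 0 < f x)
    (hB : ∀ z, g (z, 0) = 0 → ∃ B : F →L[ℝ] F, HasFDerivAt (fun u => g (z, u)) B 0 ∧
      ∀ b, B b = 0 → b = 0) :
    ∃ (c₀ : ℝ) (w : E → F), 0 < c₀ ∧ (∀ x, f x < c₀ → g (x, w x) = 0) ∧
      (∀ z, f z < c₀ → g (z, 0) = 0 → w z = 0) ∧
      ContDiffOn ℝ ∞ (fun x => R (x, w x)) {x | f x < c₀} ∧
      ∀ (γ : Γ) x, f x < c₀ → R (γ • x, w (γ • x)) = γ • R (x, w x) := by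
  classical
  obtain ⟨K, hK, hKc⟩ := hA.cocpt
  have hloc := fun z : {z // g (z, 0) = 0} =>
    ZRetr_loc hg z.2 (hB z.1 z.2).choose_spec.1 (hB z.1 z.2).choose_spec.2
  choose V ρ w hV hzV hρ hw hw0 hwg hwu using hloc
  have hZ : IsCompact (K ∩ {z | g (z, 0) = 0}) :=
    hK.inter_right (isClosed_eq (hg.continuous.comp (by fun_prop)) continuous_const)
  obtain ⟨T, hT⟩ := hZ.elim_finite_subcover V hV fun z hz => mem_iUnion.2 ⟨⟨z, hz.2⟩, hzV _⟩
  obtain ⟨r, hr, hrT⟩ : ∃ r : ℝ, 0 < r ∧ ∀ z ∈ T, r ≤ ρ z := by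
    induction T using Finset.induction_on with
    | empty => exact ⟨1, one_pos, by simp⟩
    | insert a T _ _ =>
      exact ⟨(insert a T).inf' (Finset.insert_nonempty _ _) ρ,
        (Finset.lt_inf'_iff _).2 fun z _ => hρ z, fun z hz => Finset.inf'_le _ hz⟩
  let W : {z // g (z, 0) = 0} → Set E := fun z => V z ∩ w z ⁻¹' Metric.ball 0 r
  have hW : ∀ z, IsOpen (W z) := fun z =>
    (hw z).continuousOn.isOpen_inter_preimage (hV z) Metric.isOpen_ball
  have hKW : IsCompact (K \ ⋃ z ∈ T, W z) := hK.diff (isOpen_biUnion fun z _ => hW z)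
  obtain ⟨c₀, hc₀, hcK⟩ : ∃ c₀ : ℝ, 0 < c₀ ∧ ∀ x ∈ K \ ⋃ z ∈ T, W z, c₀ ≤ f x := by
    refine hKW.exists_forall_le' hf.continuousOn fun x hx => hf0 x fun h0 => hx.2 ?_
    obtain ⟨z, hz, hx'⟩ := mem_iUnion₂.1 (hT ⟨hx.1, h0⟩)
    refine mem_iUnion₂.2 ⟨z, hz, hx', ?_⟩
    rw [mem_preimage, ← hwu z x hx' 0 (by rw [norm_zero]; exact hρ z) h0]
    exact Metric.mem_ball_self hr
  have hcov : ∀ x, f x < c₀ → ∃ γ : Γ, ∃ z ∈ T, γ • x ∈ W z := fun x hx => by
    obtain ⟨γ, hγ⟩ := hKc x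
    by_contra hn
    refine absurd (hcK (γ • x) ⟨hγ, fun hh => hn ?_⟩) (by rw [hfi]; exact not_le.2 hx)
    obtain ⟨z, hz, hx'⟩ := mem_iUnion₂.1 hh
    exact ⟨γ, z, hz, hx'⟩
  have hex : ∀ x, f x < c₀ → ∃ u, ‖u‖ < r ∧ g (x, u) = 0 := fun x hx => by
    obtain ⟨γ, z, hz, hx'⟩ := hcov x hx
    obtain ⟨u, hu⟩ := hcs γ x (w z (γ • x))
    refine ⟨u, ?_, (h1 γ x u).1 (by rw [hu]; exact hwg z _ hx'.1)⟩
    rw [← hc γ x, hu]
    exact mem_ball_zero_iff.1 hx'.2
  let u : E → F := fun x => if h : ∃ u, ‖u‖ < r ∧ g (x, u) = 0 then h.choose else 0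
  have hu : ∀ x, f x < c₀ → ‖u x‖ < r ∧ g (x, u x) = 0 := fun x hx => by
    have h := hex x hx
    simp only [u, dif_pos h]
    exact h.choose_spec
  have hkey : ∀ (γ : Γ) x v, ‖v‖ < r → g (x, v) = 0 → ∀ z ∈ T, γ • x ∈ V z →
      c γ x v = w z (γ • x) := fun γ x v h3 h4 z hz hx =>
    hwu z _ hx _ (by rw [hc]; exact h3.trans_le (hrT z hz)) ((h1 γ x v).2 h4)
  have hR' : ∀ (γ : Γ) x v, ‖v‖ < r → g (x, v) = 0 → ∀ z ∈ T, γ • x ∈ V z →
      R (x, v) = γ⁻¹ • R (γ • x, w z (γ • x)) := fun γ x v h3 h4 z hz hx => by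
    rw [← hkey γ x v h3 h4 z hz hx, h2, inv_smul_smul]
  refine ⟨c₀, u, hc₀, fun x hx => (hu x hx).2, fun x hx h0 => ?_, fun x hx => ?_, fun γ x hx => ?_⟩
  · obtain ⟨γ, z, hz, hx'⟩ := hcov x hx
    have a1 := hkey γ x _ (hu x hx).1 (hu x hx).2 z hz hx'.1
    rw [← hkey γ x 0 (by rw [norm_zero]; exact hr) h0 z hz hx'.1] at a1
    have a2 := congrArg norm a1
    rw [hc, hc, norm_zero] at a2
    exact norm_eq_zero.1 a2
  · obtain ⟨γ, z, hz, hx'⟩ := hcov x hx
    have a1 : ContDiffAt ℝ ∞ (fun y : E => γ • y) x := (hA.smooth γ).contDiffAt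
    have a2 : ContDiffAt ℝ ∞ (fun y : E => γ⁻¹ • R (γ • y, w z (γ • y))) x :=
      (hA.smooth γ⁻¹).contDiffAt.comp x (hR.contDiffAt.comp x (a1.prodMk
        (((hw z).contDiffAt ((hV z).mem_nhds hx'.1)).comp x a1)))
    refine a2.contDiffWithinAt.congr_of_eventuallyEq ?_ (hR' γ x _ (hu x hx).1 (hu x hx).2 z hz hx'.1)
    filter_upwards [self_mem_nhdsWithin,
      mem_nhdsWithin_of_mem_nhds (a1.continuousAt ((hV z).mem_nhds hx'.1))] with y hy hy'
    exact hR' γ y _ (hu y hy).1 (hu y hy).2 z hz hy'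
  · have hx1 : f (γ • x) < c₀ := by rwa [hfi]
    obtain ⟨γ', z, hz, hx'⟩ := hcov _ hx1
    rw [hR' γ' _ _ (hu _ hx1).1 (hu _ hx1).2 z hz hx'.1, ← h2 γ x,
      hR' γ' (γ • x) (c γ x (u x)) (by rw [hc]; exact (hu x hx).1) ((h1 γ x _).2 (hu x hx).2) z hz
        hx'.1]

end

theorem ZRetr_rip (n' : ℕ) : ∃ B : Cn n' →L[ℝ] Cn n' →L[ℝ] ℝ, ∀ u w, rip u w = B u w := by
  let b : Cn n' →ₗ[ℝ] Cn n' →ₗ[ℝ] ℝ := LinearMap.mk₂ ℝ rip
    (fun a b w => by simp [rip, cip, add_mul, Finset.sum_add_distrib])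
    (fun c a w => by simp [rip, cip, Finset.mul_sum, mul_assoc, mul_add])
    (fun a b w => by simp [rip, cip, mul_add, Finset.sum_add_distrib])
    (fun c a w => by simp [rip, cip, Finset.mul_sum, mul_left_comm, mul_add])
  exact ⟨LinearMap.toContinuousLinearMap
    ((LinearMap.toContinuousLinearMap : (Cn n' →ₗ[ℝ] ℝ) ≃ₗ[ℝ] _).toLinearMap ∘ₗ b), fun _ _ => rfl⟩

theorem ZRetr_unit {n' : ℕ} {c : ℂ} (hc : ‖c‖ = 1) (u w : Cn n') :
    rip (c • u) (c • w) = rip u w := by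
  have h : (starRingEnd ℂ) c * c = 1 := by
    rw [Complex.conj_mul', hc]
    simp
  unfold rip cip
  congr 1
  refine Finset.sum_congr rfl fun l _ => ?_
  rw [Pi.smul_apply, Pi.smul_apply, smul_eq_mul, smul_eq_mul, map_mul, mul_mul_mul_comm, h, one_mul]

theorem ZRetr_sum {S : Type} [Fintype S] [DecidableEq S] (φ : Sp S →L[ℝ] ℝ) (v : Sp S) :
    φ v = ∑ i, v i * φ (Pi.single i 1) := by
  conv_lhs => rw [← Finset.univ_sum_single v, map_sum]
  refine Finset.sum_congr rfl fun i _ => ?_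
  rw [← smul_eq_mul, ← map_smul, ← Pi.single_smul', smul_eq_mul, mul_one]

namespace Nil

variable {S G : Type} [Fintype S] [DecidableEq S] [AddCommGroup G] [Fintype G] {n' : ℕ}
  {D : Nil S G} {Λ : D.Lt} {s : Sp S → Cn n'} {η δ : ℝ}

omit [Fintype G] in
theorem ZRetr_A (h : Don Λ s η δ) : ∃ A : Sp S → Sp S →L[ℝ] Cn n', ContDiff ℝ ∞ A ∧
    (∀ x, HasFDerivAt (D.hx s x) (A x) 0) ∧
    ∀ (γ : Λ.Gp) x v, A (γ • x) v = ee (Lt.jj γ x) • A x (D.sg γ.g v) := by
  obtain ⟨hA, hAd⟩ := ZRetr_par (D.hx s) (D.contDiff_hx h.smooth)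
  refine ⟨fun x => fderiv ℝ (D.hx s x) 0, hA, hAd, fun γ x v => ?_⟩
  have e : D.hx s (γ • x) = fun y => ee (Lt.jj γ x) • D.hx s x (D.sg γ.g y) := funext fun y => by
    rw [← hx_smul h.auto, sg_sg]
  have d : HasFDerivAt (D.hx s x) (fderiv ℝ (D.hx s x) 0) (D.sg γ.g 0) := by
    rw [map_zero]
    exact hAd x
  have d2 : HasFDerivAt (fun y => ee (Lt.jj γ x) • D.hx s x (D.sg γ.g y))
      (ee (Lt.jj γ x) • (fderiv ℝ (D.hx s x) 0).comp (D.sg γ.g)) 0 :=
    (d.comp 0 (D.sg γ.g).hasFDerivAt).const_smul (ee (Lt.jj γ x))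
  show fderiv ℝ (D.hx s (γ • x)) 0 v = _
  rw [e, d2.fderiv]
  rfl

omit [Fintype G] in
theorem ZRetr_N (h : Don Λ s η δ) (hη : 0 < η) : ∃ N : Sp S → Cn n' →L[ℝ] Sp S,
    (ContDiff ℝ ∞ fun p : Sp S × Cn n' => N p.1 p.2) ∧
    (∀ (γ : Λ.Gp) x u, N (γ • x) (ee (Lt.jj γ x) • u) = D.sg γ.g (N x u)) ∧
    ∀ z, s z = 0 → ∃ B : Cn n' →L[ℝ] Cn n', HasFDerivAt (fun u => D.hx s z (N z u)) B 0 ∧
      ∀ u, B u = 0 → u = 0 := by
  obtain ⟨b, hb⟩ := ZRetr_rip n'
  obtain ⟨A, hA, hAd, hAe⟩ := ZRetr_A h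
  obtain ⟨N, hN⟩ : ∃ N : Sp S → Cn n' →L[ℝ] Sp S, ∀ x u i, N x u i = b u (A x (Pi.single i 1)) :=
    ⟨fun x => ContinuousLinearMap.pi fun i => b.flip (A x (Pi.single i 1)), fun _ _ _ => rfl⟩
  refine ⟨N, contDiff_pi.2 fun i => ?_, fun γ x u => funext fun i => ?_, fun z hz => ?_⟩
  · simp only [hN]
    exact (b.contDiff.comp contDiff_snd).clm_apply ((hA.comp contDiff_fst).clm_apply contDiff_const)
  · have e : D.sg γ.g (Pi.single i 1) = sgn (D.ch i.1 γ.g) • (Pi.single i 1 : Sp S) := by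
      funext j
      rw [sg_apply, Pi.smul_apply, smul_eq_mul]
      by_cases hj : j = i
      · rw [hj]
      · rw [Pi.single_eq_of_ne hj, MulZeroClass.mul_zero, MulZeroClass.mul_zero]
    rw [sg_apply, hN, hN, hAe, ← hb, ZRetr_unit (norm_ee _), e, map_smul, hb, map_smul, smul_eq_mul]
  · have d : HasFDerivAt (D.hx s z) (A z) (N z 0) := by
      rw [map_zero]
      exact hAd z
    refine ⟨(A z).comp (N z), d.comp 0 (N z).hasFDerivAt, fun u hu => ?_⟩
    have e : ∀ v, b u (A z v) = ∑ i, v i * N z u i := fun v => by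
      simp only [hN]
      exact ZRetr_sum ((b u).comp (A z)) v
    have e1 := e (N z u)
    rw [show A z (N z u) = 0 from hu, map_zero] at e1
    have e2 : ∀ i, N z u i = 0 := fun i => mul_self_eq_zero.1
      ((Finset.sum_eq_zero_iff_of_nonneg fun j _ => mul_self_nonneg _).1 e1.symm i
        (Finset.mem_univ i))
    obtain ⟨v, -, hv⟩ := h.trans z (by rw [hz, norm_zero]; exact hη) u
    rw [(hAd z).fderiv, hb, e v,
      Finset.sum_eq_zero fun i _ => by rw [e2, MulZeroClass.mul_zero]] at hv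
    exact norm_eq_zero.1 (le_antisymm (nonpos_of_mul_nonpos_right hv hη) (norm_nonneg _))

theorem Don.exists_retr (h : Don Λ s η δ) (hη : 0 < η) :
    ∃ (c₀ : ℝ) (r : Sp S → Sp S), 0 < c₀ ∧ Retr Λ.Gp s {x | nsc (s x) < c₀} r := by
  obtain ⟨N, hNs, hNe, hNi⟩ := ZRetr_N h hη
  have hee : ∀ t, ee t ≠ 0 := fun t e => by
    have := norm_ee t
    rw [e, norm_zero] at this
    exact zero_ne_one this
  have hg0 : ∀ x, D.hx s x (N x 0) = s x := fun x => by rw [map_zero, hx_zero]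
  have hns : ∀ w : Cn n', w ≠ 0 → 0 < nsc w := fun w hw =>
    (pow_pos (norm_pos_iff.2 hw) 2).trans_le (norm_sq_le_nsc w)
  have hcont : Continuous fun x => nsc (s x) := contDiff_nsc.continuous.comp h.smooth.continuous
  obtain ⟨g, hg⟩ : ∃ g : Sp S × Cn n' → Cn n', ∀ x u, g (x, u) = D.hx s x (N x u) :=
    ⟨fun p => D.hx s p.1 (N p.1 p.2), fun _ _ => rfl⟩
  obtain ⟨R, hR⟩ : ∃ R : Sp S × Cn n' → Sp S, ∀ x u, R (x, u) = D.mul x (N x u) :=
    ⟨fun p => D.mul p.1 (N p.1 p.2), fun _ _ => rfl⟩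
  have hgs : ContDiff ℝ ∞ g := by
    rw [show g = (fun p : Sp S × Sp S => D.hx s p.1 p.2) ∘ fun p : Sp S × Cn n' => (p.1, N p.1 p.2)
      from funext fun p => hg p.1 p.2]
    exact (D.contDiff_hx h.smooth).comp (contDiff_fst.prodMk hNs)
  have hRs : ContDiff ℝ ∞ R := by
    rw [show R = (fun p : Sp S × Sp S => D.mul p.1 p.2) ∘ fun p : Sp S × Cn n' => (p.1, N p.1 p.2)
      from funext fun p => hR p.1 p.2]
    exact D.contDiff_mul.comp (contDiff_fst.prodMk hNs)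
  obtain ⟨c₀, w, hc₀, k1, k2, k3, k4⟩ := ZRetr_abs Λ.act hgs hRs
    (fun γ x u => ee (Lt.jj γ x) • u) (fun γ x u => by rw [norm_smul, norm_ee, one_mul])
    (fun γ x u => ⟨(ee (Lt.jj γ x))⁻¹ • u, smul_inv_smul₀ (hee _) u⟩)
    (fun γ x u => by rw [hg, hg, hNe, hx_smul h.auto, smul_eq_zero_iff_right (hee _)])
    (fun γ x u => by rw [hR, hR, hNe, Lt.smul_mul])
    hcont h.nsc_smul (fun x hx => hns _ (by rwa [hg, hg0] at hx))
    (fun z hz => by
      simp only [hg]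
      exact hNi z (by rwa [hg, hg0] at hz))
  have hz : ∀ z, s z = 0 → nsc (s z) < c₀ := fun z hz => by
    rw [hz]
    simpa [nsc] using hc₀
  refine ⟨c₀, fun x => R (x, w x), hc₀, isOpen_lt hcont continuous_const,
    fun γ x hx => ?_, hz, k3, fun x hx => ?_, fun z h0 => ?_, k4⟩
  · show nsc (s (γ • x)) < c₀
    rw [h.nsc_smul]
    exact hx
  · have a := k1 x hx
    rw [hg, Nil.hx, smul_eq_zero_iff_right
      (mul_ne_zero (Complex.ofReal_ne_zero.2 (Real.exp_pos _).ne') (hee _))] at a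
    show s (R (x, w x)) = 0
    rw [hR, a]
  · show R (z, w z) = z
    rw [hR, k2 z (hz z h0) (by rw [hg, hg0, h0]), map_zero, mul_zero]

/-- The homotopy from the identity to the retraction. -/
theorem exists_htp {U : Set (Sp S)} {r : Sp S → Sp S} (h : Retr Λ.Gp s U r) :
    ∃ H : ℝ × Sp S → Sp S, ContDiffOn ℝ ∞ H (univ ×ˢ U) ∧ (∀ x, H (0, x) = x) ∧
      (∀ x, H (1, x) = r x) ∧ ∀ (γ : Λ.Gp) (t : ℝ), ∀ x ∈ U, H (t, γ • x) = γ • H (t, x) := by
  refine ⟨fun p => D.mul p.2 (p.1 • D.mul (-p.2) (r p.2)), ?_, fun x => ?_, fun x => ?_,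
    fun γ t x hx => ?_⟩
  · have h1 : ContDiffOn ℝ ∞ (fun p : ℝ × Sp S => r p.2) (univ ×ˢ U) :=
      h.smooth.comp contDiffOn_snd fun p hp => hp.2
    exact D.contDiff_mul.comp_contDiffOn (contDiffOn_snd.prodMk (contDiffOn_fst.smul
      (D.contDiff_mul.comp_contDiffOn (contDiffOn_snd.neg.prodMk h1))))
  · show D.mul x ((0 : ℝ) • _) = x
    rw [zero_smul, mul_zero]
  · show D.mul x ((1 : ℝ) • _) = r x
    rw [one_smul, mul_neg_cancel]
  · show D.mul (γ • x) (t • D.mul (-(γ • x)) (r (γ • x))) = γ • D.mul x (t • D.mul (-x) (r x))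
    rw [h.equi γ x hx, Lt.neg_smul_mul, Lt.smul_mul, map_smul]

end Nil

end Pool.Agent.Work.MP_bf98aa_gt.Th
end

-- merged part: Pool.Agent.Work.MP_bf98aa_gt.Th.ZMan
section
/-!
The quotient of the zero set is a closed manifold.

PLAN. `exists_chart`: the kernel of `fderiv s z` has dimension `2 n`; take a projection onto it composed with an isomorphism to `Sp (Fin n)`; the map
`x ↦ (π x, s x)` has invertible derivative at `z`; `ContDiffAt.toOpenPartialHomeomorph`, restricted (`restrOpen`) to the open set where the derivative is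
invertible and to the interior of a small neighbourhood (`Act.nhds`); `OpenPartialHomeomorph.contDiffAt_symm`.
`exists_pack`: `Z = {x // s x = 0}`, `M = Quotient` of the orbit relation, with the quotient topology; the quotient map is open; `M` is compact (image of
`Z ∩ K`) and Hausdorff (the relation is closed by `Act.locfin`; or separate two orbits directly). For `m` let `z = out m` and define the chart with source
`q '' (Θ.source ∩ Z)`, target `{y | (y, 0) ∈ Θ.target}`, `toFun m' = π (the lift of m' in Θ.source)`, `invFun y = q (Θ.symm (y, 0))`; the atlas is the range.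
Transition maps are locally `y ↦ π' (γ • Θ.symm (y, 0))` (`isManifold_of_contDiffOn`).
-/

set_option autoImplicit false

open scoped ContDiff Topology Manifold
open Set

namespace Pool.Agent.Work.MP_bf98aa_gt.Th

variable {S : Type} [Fintype S] {n n' : ℕ} {Γ : Type} [Group Γ] [MulAction Γ (Sp S)]
  {s : Sp S → Cn n'}

theorem ZMan_lin (hc : Fintype.card S = n + n') {A : Sp S →L[ℝ] Cn n'}
    (hA : Function.Surjective A) : ∃ (π : Sp S →L[ℝ] Sp (Fin n))
      (L : Sp S ≃L[ℝ] Sp (Fin n) × Cn n'), (L : Sp S →L[ℝ] Sp (Fin n) × Cn n') = π.prod A := by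
  have d1 : Module.finrank ℝ (Sp S) = 2 * n + 2 * n' := by
    rw [Module.finrank_fintype_fun_eq_card, Fintype.card_prod, hc, Fintype.card_fin]
    ring
  have d2 : Module.finrank ℝ (Sp (Fin n)) = 2 * n := by
    rw [Module.finrank_fintype_fun_eq_card, Fintype.card_prod, Fintype.card_fin, Fintype.card_fin]
    ring
  have d3 : Module.finrank ℝ (Cn n') = 2 * n' := by
    rw [Module.finrank_pi_fintype]
    simp [Complex.finrank_real_complex, mul_comm]
  have d4 := LinearMap.finrank_range_add_finrank_ker (A : Sp S →ₗ[ℝ] Cn n')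
  rw [LinearMap.range_eq_top.2 hA, finrank_top, d1, d3] at d4
  let e : LinearMap.ker (A : Sp S →ₗ[ℝ] Cn n') ≃ₗ[ℝ] Sp (Fin n) :=
    LinearEquiv.ofFinrankEq _ _ (by rw [d2]; omega)
  obtain ⟨g, hg⟩ := LinearMap.exists_extend e.toLinearMap
  let L : Sp S →ₗ[ℝ] Sp (Fin n) × Cn n' := g.prod (A : Sp S →ₗ[ℝ] Cn n')
  have hinj : Function.Injective L := by
    refine LinearMap.ker_eq_bot.1 (LinearMap.ker_eq_bot'.2 fun v hv => ?_)
    have h1 : g v = 0 := congrArg Prod.fst hv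
    have h2 : A v = 0 := congrArg Prod.snd hv
    have h3 : e ⟨v, h2⟩ = 0 := by
      rw [← h1]
      exact (LinearMap.congr_fun hg ⟨v, h2⟩).symm
    exact congrArg Subtype.val (e.map_eq_zero_iff.1 h3)
  have hd : Module.finrank ℝ (Sp S) = Module.finrank ℝ (Sp (Fin n) × Cn n') := by
    rw [Module.finrank_prod, d1, d2, d3]
  refine ⟨LinearMap.toContinuousLinearMap g,
    (LinearMap.linearEquivOfInjective L hinj hd).toContinuousLinearEquiv, ?_⟩
  ext1 v
  rfl

theorem exists_chart (hc : Fintype.card S = n + n') (h : Act Γ (Sp S)) (hs : ContDiff ℝ ∞ s)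
    {z : Sp S} (hz : Function.Surjective (fderiv ℝ s z)) :
    ∃ (Θ : OpenPartialHomeomorph (Sp S) (Sp (Fin n) × Cn n')) (π : Sp S →L[ℝ] Sp (Fin n)),
      z ∈ Θ.source ∧ (∀ x, Θ x = (π x, s x)) ∧ ContDiffOn ℝ ∞ Θ.symm Θ.target ∧
      Small Γ Θ.source := by
  obtain ⟨π, L, hL⟩ := ZMan_lin hc hz
  have hf : ContDiff ℝ ∞ fun x => (π x, s x) := π.contDiff.prodMk hs
  have hd : HasFDerivAt (fun x => (π x, s x)) (L : Sp S →L[ℝ] Sp (Fin n) × Cn n') z := by
    rw [hL]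
    exact π.hasFDerivAt.prodMk (hs.differentiable (by simp) z).hasFDerivAt
  obtain ⟨O, hO, hsm⟩ := h.nhds z
  have hW : IsOpen (fderiv ℝ (fun x => (π x, s x)) ⁻¹'
      range ((↑) : (Sp S ≃L[ℝ] Sp (Fin n) × Cn n') → Sp S →L[ℝ] Sp (Fin n) × Cn n')) :=
    ContinuousLinearEquiv.isOpen.preimage (hf.continuous_fderiv (by simp))
  refine ⟨(hf.contDiffAt.toOpenPartialHomeomorph _ hd (by simp)).restrOpen _
    (hW.inter (isOpen_interior (s := O))), π, ⟨hf.contDiffAt.mem_toOpenPartialHomeomorph_source hd _,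
      ⟨L, hd.fderiv.symm⟩, mem_interior_iff_mem_nhds.2 hO⟩, fun x => rfl, fun a ha => ?_,
      fun γ x hx hx' => hsm γ x (interior_subset hx.2.2) (interior_subset hx'.2.2)⟩
  obtain ⟨L', hL'⟩ := (OpenPartialHomeomorph.map_target _ ha).2.1
  refine (OpenPartialHomeomorph.contDiffAt_symm _ (f₀' := L') ha ?_ hf.contDiffAt).contDiffWithinAt
  rw [hL']
  exact (hf.differentiable (by simp) _).hasFDerivAt

theorem ZMan_quot (h : Act Γ (Sp S)) (hs : Continuous s)
    (hZ : ∀ (γ : Γ) (x : Sp S), s x = 0 → s (γ • x) = 0) (hne : ∃ z, s z = 0) :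
    ∃ (M : Type) (_ : TopologicalSpace M) (_ : T2Space M) (_ : CompactSpace M) (q : Sp S → M),
      (∀ z z', s z = 0 → s z' = 0 → (q z = q z' ↔ ∃ γ : Γ, γ • z = z')) ∧
      ContinuousOn q {z | s z = 0} ∧ (∀ m, ∃ z, s z = 0 ∧ q z = m) ∧
      ∀ W, IsOpen W → IsOpen (q '' (W ∩ {z | s z = 0})) := by
  classical
  have : ContinuousConstSMul Γ (Sp S) := ⟨fun γ => (h.smooth γ).continuous⟩
  have : ProperlyDiscontinuousSMul Γ (Sp S) := ⟨fun {K L} hK hL =>
    (h.fin _ (hK.union hL)).subset (by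
      rintro γ ⟨_, ⟨x, hx, rfl⟩, hx'⟩
      exact ⟨x, Or.inl hx, Or.inr hx'⟩)⟩
  obtain ⟨z₀, hz₀⟩ := hne
  let mk : Sp S → Quotient (MulAction.orbitRel Γ (Sp S)) := Quotient.mk _
  have hmk : ∀ z z', mk z = mk z' ↔ ∃ γ : Γ, γ • z = z' := fun z z' => by
    rw [eq_comm]
    exact Quotient.eq.trans MulAction.orbitRel_apply
  have hcont : Continuous mk := continuous_quot_mk
  have hop : IsOpenMap mk := isOpenMap_quotient_mk'_mul
  let q : Sp S → (mk '' {z | s z = 0}) := fun x =>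
    if hx : s x = 0 then ⟨mk x, x, hx, rfl⟩ else ⟨mk z₀, z₀, hz₀, rfl⟩
  have hq : ∀ z, s z = 0 → (q z).1 = mk z := fun z hz => by simp only [q, dif_pos hz]
  obtain ⟨K, hK, hcov⟩ := h.cocpt
  have hcpt : IsCompact (mk '' {z | s z = 0}) := by
    have e : mk '' {z | s z = 0} = mk '' (K ∩ {z | s z = 0}) := by
      refine Subset.antisymm ?_ (image_mono inter_subset_right)
      rintro _ ⟨z, hz, rfl⟩
      obtain ⟨γ, hγ⟩ := hcov z
      exact ⟨γ • z, ⟨hγ, hZ γ z hz⟩, ((hmk _ _).2 ⟨γ, rfl⟩).symm⟩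
    rw [e]
    exact (hK.inter_right (isClosed_eq hs continuous_const)).image hcont
  refine ⟨mk '' {z | s z = 0}, inferInstance, inferInstance, isCompact_iff_compactSpace.1 hcpt, q,
    fun z z' hz hz' => ?_, ?_, ?_, fun W hW => ?_⟩
  · rw [Subtype.ext_iff, hq z hz, hq z' hz', hmk]
  · rw [Topology.IsInducing.subtypeVal.continuousOn_iff]
    exact hcont.continuousOn.congr fun z hz => hq z hz
  · rintro ⟨_, z, hz, rfl⟩
    exact ⟨z, hz, Subtype.ext (hq z hz)⟩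
  · have e : q '' (W ∩ {z | s z = 0}) = Subtype.val ⁻¹' (mk '' W) := by
      ext m
      constructor
      · rintro ⟨z, hz, rfl⟩
        exact ⟨z, hz.1, (hq z hz.2).symm⟩
      · rintro ⟨w, hw, hw'⟩
        obtain ⟨z, hz, hz'⟩ := m.2
        obtain ⟨γ, rfl⟩ := (hmk z w).1 (hz'.trans hw'.symm)
        exact ⟨γ • z, ⟨hw, hZ γ z hz⟩, Subtype.ext ((hq _ (hZ γ z hz)).trans hw')⟩
    rw [e]
    exact (hop W hW).preimage continuous_subtype_val

theorem ZMan_symm {Θ : OpenPartialHomeomorph (Sp S) (Sp (Fin n) × Cn n')}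
    {π : Sp S →L[ℝ] Sp (Fin n)} (hΘ : ∀ x, Θ x = (π x, s x)) {y : Sp (Fin n)}
    (hy : (y, (0 : Cn n')) ∈ Θ.target) :
    Θ.symm (y, 0) ∈ Θ.source ∧ s (Θ.symm (y, 0)) = 0 ∧ π (Θ.symm (y, 0)) = y := by
  have h1 := Θ.right_inv hy
  rw [hΘ] at h1
  exact ⟨Θ.map_target hy, congrArg Prod.snd h1, congrArg Prod.fst h1⟩

theorem ZMan_left {Θ : OpenPartialHomeomorph (Sp S) (Sp (Fin n) × Cn n')}
    {π : Sp S →L[ℝ] Sp (Fin n)} (hΘ : ∀ x, Θ x = (π x, s x)) {z : Sp S} (hz : z ∈ Θ.source)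
    (h0 : s z = 0) : (π z, (0 : Cn n')) ∈ Θ.target ∧ Θ.symm (π z, 0) = z := by
  have h1 := Θ.map_source hz
  have h2 := Θ.left_inv hz
  rw [hΘ, h0] at h1 h2
  exact ⟨h1, h2⟩

theorem ZMan_chart {M : Type} [TopologicalSpace M] {q : Sp S → M}
    (q_eq : ∀ z z', s z = 0 → s z' = 0 → (q z = q z' ↔ ∃ γ : Γ, γ • z = z'))
    (q_cont : ContinuousOn q {z | s z = 0})
    (q_open : ∀ W, IsOpen W → IsOpen (q '' (W ∩ {z | s z = 0})))
    {Θ : OpenPartialHomeomorph (Sp S) (Sp (Fin n) × Cn n')} {π : Sp S →L[ℝ] Sp (Fin n)}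
    (hΘ : ∀ x, Θ x = (π x, s x)) (hsm : Small Γ Θ.source) :
    ∃ c : OpenPartialHomeomorph M (Sp (Fin n)),
      (∀ m, m ∈ c.source ↔ ∃ z ∈ Θ.source, s z = 0 ∧ q z = m) ∧
      (∀ y, y ∈ c.target ↔ (y, 0) ∈ Θ.target) ∧ (∀ y, c.symm y = q (Θ.symm (y, 0))) ∧
      ∀ z ∈ Θ.source, s z = 0 → c (q z) = π z := by
  have hinj : InjOn (fun y : Sp (Fin n) => q (Θ.symm (y, 0))) {y | (y, 0) ∈ Θ.target} := by
    intro y hy y' hy' e
    obtain ⟨a1, a2, a3⟩ := ZMan_symm hΘ hy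
    obtain ⟨b1, b2, b3⟩ := ZMan_symm hΘ hy'
    obtain ⟨γ, hγ⟩ := (q_eq _ _ a2 b2).1 e
    have h1 := hsm γ _ a1 (by rwa [hγ])
    rw [h1, one_smul] at hγ
    rw [← a3, ← b3, hγ]
  let e := hinj.toPartialEquiv
  have hmk : Continuous fun y : Sp (Fin n) => (y, (0 : Cn n')) := by fun_prop
  have hT : IsOpen {y : Sp (Fin n) | (y, (0 : Cn n')) ∈ Θ.target} := Θ.open_target.preimage hmk
  have hinv : ∀ z ∈ Θ.source, s z = 0 → e.symm (q z) = π z := by
    intro z hz h0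
    obtain ⟨a1, a2⟩ := ZMan_left hΘ hz h0
    have h1 : e.symm (e (π z)) = π z := e.left_inv a1
    have h2 : e (π z) = q z := congrArg q a2
    rwa [h2] at h1
  have htgt : ∀ m, m ∈ e.target ↔ ∃ z ∈ Θ.source, s z = 0 ∧ q z = m := by
    intro m
    constructor
    · rintro ⟨y, hy, rfl⟩
      obtain ⟨a1, a2, -⟩ := ZMan_symm hΘ hy
      exact ⟨_, a1, a2, rfl⟩
    · rintro ⟨z, hz, h0, rfl⟩
      obtain ⟨a1, a2⟩ := ZMan_left hΘ hz h0
      exact ⟨π z, a1, congrArg q a2⟩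
  have hpre : ∀ t : Set (Sp (Fin n)), IsOpen t → IsOpen (e.target ∩ e.symm ⁻¹' t) := by
    intro t ht
    have e1 : e.target ∩ e.symm ⁻¹' t = q '' ((Θ.source ∩ π ⁻¹' t) ∩ {z | s z = 0}) := by
      ext m
      constructor
      · rintro ⟨h1, h2⟩
        obtain ⟨z, hz, h0, rfl⟩ := (htgt m).1 h1
        rw [mem_preimage, hinv z hz h0] at h2
        exact ⟨z, ⟨⟨hz, h2⟩, h0⟩, rfl⟩
      · rintro ⟨z, ⟨⟨hz, h2⟩, h0⟩, rfl⟩
        refine ⟨(htgt _).2 ⟨z, hz, h0, rfl⟩, ?_⟩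
        rw [mem_preimage, hinv z hz h0]
        exact h2
    rw [e1]
    exact q_open _ (Θ.open_source.inter (ht.preimage π.continuous))
  have hO : IsOpen e.target := by simpa using hpre univ isOpen_univ
  let c : OpenPartialHomeomorph (Sp (Fin n)) M :=
    { toPartialEquiv := e
      open_source := hT
      open_target := hO
      continuousOn_toFun := q_cont.comp
        (Θ.continuousOn_symm.comp hmk.continuousOn fun y hy => hy) fun y hy => (ZMan_symm hΘ hy).2.1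
      continuousOn_invFun := (continuousOn_open_iff hO).2 hpre }
  exact ⟨c.symm, htgt, fun y => Iff.rfl, fun y => rfl, hinv⟩

theorem exists_pack (hc : Fintype.card S = n + n') (h : Act Γ (Sp S)) (hs : ContDiff ℝ ∞ s)
    (hZ : ∀ (γ : Γ) (x : Sp S), s x = 0 → s (γ • x) = 0)
    (hsurj : ∀ z, s z = 0 → Function.Surjective (fderiv ℝ s z)) (hne : ∃ z, s z = 0) :
    ∃ (M : Type) (_ : TopologicalSpace M) (_ : T2Space M) (_ : CompactSpace M)
      (_ : ChartedSpace (Sp (Fin n)) M) (_ : IsManifold 𝓘(ℝ, Sp (Fin n)) ∞ M),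
      Nonempty (Pack (n := n) Γ s M) := by
  obtain ⟨M, tM, hT2, hC, q, q_eq, q_cont, q_surj, q_open⟩ := ZMan_quot h hs.continuous hZ hne
  choose z hz0 hzq using q_surj
  choose Θ π hzΘ hΘ hsymm hsm using fun m => exists_chart hc h hs (hsurj (z m) (hz0 m))
  choose c hsrc htgt hcs hch using fun m => ZMan_chart q_eq q_cont q_open (hΘ m) (hsm m)
  let cs : ChartedSpace (Sp (Fin n)) M :=
    { atlas := range c
      chartAt := c
      mem_chart_source := fun m => (hsrc m m).2 ⟨z m, hzΘ m, hz0 m, hzq m⟩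
      chart_mem_atlas := fun m => mem_range_self m }
  have hM : IsManifold 𝓘(ℝ, Sp (Fin n)) ∞ M := by
    refine isManifold_of_contDiffOn _ _ _ ?_
    rintro _ _ ⟨p, rfl⟩ ⟨p', rfl⟩
    simp only [modelWithCornersSelf_coe, modelWithCornersSelf_coe_symm, Function.comp_id,
      Function.id_comp, preimage_id, range_id, inter_univ, preimage_id_eq, id_eq]
    intro y hy
    have hy1 : (y, (0 : Cn n')) ∈ (Θ p).target := (htgt p y).1 hy.1
    obtain ⟨z', hz', h0', hq'⟩ := (hsrc p' _).1 hy.2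
    have hq2 : q ((Θ p).symm (y, 0)) = q z' := (hcs p y).symm.trans hq'.symm
    obtain ⟨γ, hγ⟩ := (q_eq _ _ (ZMan_symm (hΘ p) hy1).2.1 h0').1 hq2
    have hmk : ContDiff ℝ ∞ fun y : Sp (Fin n) => (y, (0 : Cn n')) :=
      contDiff_id.prodMk contDiff_const
    have h1 : ContDiffAt ℝ ∞ (fun y : Sp (Fin n) => γ • (Θ p).symm (y, 0)) y :=
      (h.smooth γ).contDiffAt.comp y
        (((hsymm p).contDiffAt ((Θ p).open_target.mem_nhds hy1)).comp y hmk.contDiffAt)
    have h2 : ∀ᶠ y' in 𝓝 y, γ • (Θ p).symm (y', 0) ∈ (Θ p').source :=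
      h1.continuousAt.preimage_mem_nhds ((Θ p').open_source.mem_nhds (by rwa [← hγ] at hz'))
    have h3 : ∀ᶠ y' in 𝓝 y, (y', (0 : Cn n')) ∈ (Θ p).target :=
      hmk.continuous.continuousAt.preimage_mem_nhds ((Θ p).open_target.mem_nhds hy1)
    refine (((π p').contDiff.contDiffAt.comp y h1).congr_of_eventuallyEq ?_).contDiffWithinAt
    filter_upwards [h2, h3] with y' a b
    have b0 := (ZMan_symm (hΘ p) b).2.1
    change c p' ((c p).symm y') = π p' (γ • (Θ p).symm (y', 0))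
    rw [hcs, (q_eq _ _ b0 (hZ γ _ b0)).2 ⟨γ, rfl⟩, hch p' _ a (hZ γ _ b0)]
  exact ⟨M, tM, hT2, hC, cs, hM, ⟨⟨q, Θ, π, q_eq, q_cont, fun m => ⟨z m, hz0 m, hzq m⟩, hΘ, hsymm,
    hsm, hsrc, htgt, fun p y _ => hcs p y, hch⟩⟩⟩

end Pool.Agent.Work.MP_bf98aa_gt.Th
end

-- merged part: Pool.Agent.Work.MP_bf98aa_gt.Th.ZCoh
section
/-!
Cohomology of the quotient.

PLAN. `res_closed`, `res_exact`: `res_loc`, `Cl.pb`, `IsD.pb` on the chart targets and `Filter.EventuallyEq.extDeriv_eq`.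
`coh_surj`: `α₀ = lift r w`, `α₀ - α = d β` on `U`, restrict (`res_lift`, `res (α₀ - α) = (res α₀).sub (res α)`).
`coh_inj`: `res α = d b` gives `pb r α = d (lift r b)` on `U`, and `pb r α - α = d (hK 1 H α)` (`homotopy` with `O = univ ×ˢ U`, `W = univ`,
`hK_nat` for the invariance). `preconn`: for a clopen `A ⊆ M` the function `x ↦ indicator A (q (r x))` is locally constant on `U` and
invariant, hence the restriction of a closed form of degree zero on the whole space, which is constant (`Cl.const`).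
-/

set_option autoImplicit false

open scoped ContDiff Topology Manifold
open Set

namespace Pool.Agent.Work.MP_bf98aa_gt.Th

theorem ZCoh_ne {E : Type} [NormedAddCommGroup E] [NormedSpace ℝ E] :
    (ContinuousAlternatingMap.constOfIsEmpty ℝ E (Fin 0) (1 : ℝ) : Alt E 0) ≠ 0 := fun h => by
  have := congrArg (fun a : Alt E 0 => a 0) h
  simp at this

theorem nonempty_of_inj {E : Type} [NormedAddCommGroup E] [NormedSpace ℝ E] {Γ : Type} [Group Γ]
    [MulAction Γ E] {U : Set E} (h : Inj Γ 0 U univ) : U.Nonempty := by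
  by_contra hU
  exact ZCoh_ne (h (fun _ => ContinuousAlternatingMap.constOfIsEmpty ℝ E (Fin 0) (1 : ℝ))
    ⟨contDiffOn_const, fun x _ => extDeriv_const _ x⟩ (fun γ x _ => pb_deg_zero _ _ x)
    (fun x hx => (hU ⟨x, hx⟩).elim) 0 (mem_univ _))

namespace Pack

variable {S : Type} [Fintype S] {n n' : ℕ} {Γ : Type} [Group Γ] [MulAction Γ (Sp S)]
  {s : Sp S → Cn n'} {M : Type} [TopologicalSpace M] [ChartedSpace (Sp (Fin n)) M]
  [IsManifold 𝓘(ℝ, Sp (Fin n)) ∞ M] (P : Pack (n := n) Γ s M) {k : ℕ} {U : Set (Sp S)}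
  {r : Sp S → Sp S}

theorem ZCoh_sm (h : Act Γ (Sp S)) (hZ : ∀ (γ : Γ) (x : Sp S), s x = 0 → s (γ • x) = 0)
    (hU : IsOpen U) (hs : ∀ z, s z = 0 → z ∈ U) {α : Fm (Sp S) k} (hα : Sm α U)
    (hi : Inv Γ α U) : (P.res α).Smooth ∧ ∀ p, ∀ y ∈ (chartAt (Sp (Fin n)) p).target,
      extDeriv ((P.res α).loc p) y = pb (P.ψ p) (extDeriv α) y := by
  have hi' : Inv Γ α {z | s z = 0} := fun γ x hx => hi γ x (hs x hx)
  have hm : ∀ p, MapsTo (P.ψ p) (chartAt (Sp (Fin n)) p).target U :=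
    fun p y hy => hs _ (P.ψ_zero p hy).1
  refine ⟨fun p => ?_, fun p y hy => ?_⟩
  · exact ContDiffOn.congr (hα.pb (chartAt _ p).open_target hU (P.ψ_smooth p) (hm p))
      fun y hy => P.res_loc h hZ hi' p hy
  · have hn := (chartAt (Sp (Fin n)) p).open_target.mem_nhds hy
    have e : (P.res α).loc p =ᶠ[𝓝 y] pb (P.ψ p) α :=
      Filter.mem_of_superset hn fun y hy => P.res_loc h hZ hi' p hy
    rw [e.extDeriv_eq]
    exact extDeriv_pb (hα.diffAt hU (hm p hy)) ((P.ψ_smooth p).contDiffAt hn)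

theorem res_closed (h : Act Γ (Sp S)) (hZ : ∀ (γ : Γ) (x : Sp S), s x = 0 → s (γ • x) = 0)
    (hU : IsOpen U) (hs : ∀ z, s z = 0 → z ∈ U) {α : Fm (Sp S) k} (hα : Cl α U) (hi : Inv Γ α U) :
    (P.res α).Closed := by
  obtain ⟨h1, h2⟩ := P.ZCoh_sm h hZ hU hs hα.1 hi
  refine ⟨h1, fun p y hy => ?_⟩
  rw [h2 p y hy, pb_congr' (β := 0) (hα.2 _ (hs _ (P.ψ_zero p hy).1))]
  rfl

theorem res_exact (h : Act Γ (Sp S)) (hZ : ∀ (γ : Γ) (x : Sp S), s x = 0 → s (γ • x) = 0)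
    (hU : IsOpen U) (hI : InvSet Γ U) (hs : ∀ z, s z = 0 → z ∈ U) {α : Fm (Sp S) (k + 1)}
    (hα : Triv Γ (k + 1) α U) : (P.res α).Exact := by
  obtain ⟨β, hβ, hi⟩ := hα
  obtain ⟨h1, h2⟩ := P.ZCoh_sm h hZ hU hs hβ.1 hi
  have hi' : Inv Γ α {z | s z = 0} := fun γ x hx => by
    have hx' := hs x hx
    rw [← hβ.2 x hx', ← Inv.extDeriv h hU hI hβ.1 hi γ x hx']
    exact pb_congr' (hβ.2 _ (hI γ x hx')).symm
  refine ⟨P.res β, h1, fun p y hy => ?_⟩
  rw [h2 p y hy, P.res_loc h hZ hi' p hy]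
  exact pb_congr' (hβ.2 _ (hs _ (P.ψ_zero p hy).1))

theorem coh_surj (h : Act Γ (Sp S)) (hZ : ∀ (γ : Γ) (x : Sp S), s x = 0 → s (γ • x) = 0)
    (hr : Retr Γ s U r) (hS : Surj Γ (k + 1) U univ) {w : Form (Sp (Fin n)) M (k + 1)}
    (hw : w.Closed) : ∃ α : Fm (Sp S) (k + 1), Cl α univ ∧ Inv Γ α univ ∧
      (w.sub (P.res α)).Exact := by
  obtain ⟨α, h1, h2, h3⟩ := hS _ (P.lift_cl h hZ hr hw) (P.lift_inv h hZ hr w)
  refine ⟨α, h1, h2, ?_⟩
  have h4 := P.res_exact h hZ hr.isOpen hr.inv hr.sub h3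
  have e : P.res (P.lift r w - α) = (P.res (P.lift r w)).sub (P.res α) := rfl
  rwa [e, P.res_lift h hZ hr] at h4

theorem coh_inj (h : Act Γ (Sp S)) (hZ : ∀ (γ : Γ) (x : Sp S), s x = 0 → s (γ • x) = 0)
    (hr : Retr Γ s U r) {H : ℝ × Sp S → Sp S} (hH : ContDiffOn ℝ ∞ H (univ ×ˢ U))
    (h0 : ∀ x, H (0, x) = x) (h1 : ∀ x, H (1, x) = r x)
    (he : ∀ (γ : Γ) (t : ℝ), ∀ x ∈ U, H (t, γ • x) = γ • H (t, x)) (hI : Inj Γ (k + 1) U univ)
    {α : Fm (Sp S) (k + 1)} (hα : Cl α univ) (hi : Inv Γ α univ) (hx : (P.res α).Exact) :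
    Triv Γ (k + 1) α univ := by
  obtain ⟨b, hb, hd⟩ := hx
  have hO : IsOpen ((univ : Set ℝ) ×ˢ U) := isOpen_univ.prod hr.isOpen
  have h2 := P.lift_isD h hZ hr hb hd
  have h3 := homotopy hO hH isOpen_univ (mapsTo_univ _ _) hα hr.isOpen
    (fun t _ x hx => ⟨mem_univ _, hx⟩) 1 0
  have e1 : hA H α 1 = pb r α := by
    rw [hA, show (fun y => H (1, y)) = r from funext h1]
  have e0 : hA H α 0 = α := by
    rw [hA, show (fun y => H (0, y)) = fun y => y from funext h0, pb_id]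
  refine hI α hα hi ⟨P.lift r b - hK (fun t => 1 + 0 * t) H α,
    ⟨ContDiffOn.sub h2.1 h3.1, fun x hx => ?_⟩, (P.lift_inv h hZ hr b).sub fun γ x hx => ?_⟩
  · rw [extDeriv_sub' (h2.1.diffAt hr.isOpen hx) (h3.1.diffAt hr.isOpen hx), h2.2 x hx,
      h3.2 x hx, P.lift_res h hZ hr (fun γ z _ => hi γ z (mem_univ _)) hx, e1, e0]
    simp only [add_zero, one_smul, zero_smul, sub_zero, sub_sub_cancel]
  · exact hK_nat hO hH isOpen_univ (mapsTo_univ _ _) hα.1 (h.smooth γ) (h.smooth γ)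
      (fun p hp => ⟨mem_univ _, hr.inv γ _ hp.2⟩) (fun p hp => he γ p.1 p.2 hp.2)
      (hi γ) (by fun_prop) fun t _ => ⟨mem_univ _, hx⟩

omit [IsManifold 𝓘(ℝ, Sp (Fin n)) ∞ M] in
include P in
theorem preconn (hZ : ∀ (γ : Γ) (x : Sp S), s x = 0 → s (γ • x) = 0) (hr : Retr Γ s U r)
    (hS : Surj Γ 0 U univ) : PreconnectedSpace M := by
  refine preconnectedSpace_of_forall_constant fun f hf => ?_
  let c : Bool → Alt (Sp S) 0 := fun b =>
    if b then ContinuousAlternatingMap.constOfIsEmpty ℝ (Sp S) (Fin 0) (1 : ℝ) else 0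
  have hc : Function.Injective c := by
    intro a b hab
    cases a <;> cases b
    · rfl
    · exact (ZCoh_ne hab.symm).elim
    · exact (ZCoh_ne hab).elim
    · rfl
  have hg : ContinuousOn (fun x => f (P.q (r x))) U :=
    hf.comp_continuousOn (P.q_cont.comp hr.smooth.continuousOn hr.zero)
  have e : ∀ x ∈ U, (fun y => c (f (P.q (r y)))) =ᶠ[𝓝 x] fun _ => c (f (P.q (r x))) := by
    intro x hx
    have := (hg.continuousAt (hr.isOpen.mem_nhds hx)).preimage_mem_nhds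
      ((isOpen_discrete {f (P.q (r x))}).mem_nhds rfl)
    exact Filter.mem_of_superset this fun y hy => congrArg c hy
  obtain ⟨α, h1, -, h3⟩ := hS (fun y => c (f (P.q (r y))))
    ⟨fun x hx => (contDiffAt_const.congr_of_eventuallyEq (e x hx)).contDiffWithinAt,
      fun x hx => by rw [(e x hx).extDeriv_eq, extDeriv_const]⟩
    (fun γ x hx => by
      rw [pb_deg_zero, hr.equi γ x hx,
        ← (P.q_eq _ _ (hr.zero x hx) (hZ γ _ (hr.zero x hx))).2 ⟨γ, rfl⟩])
  have key : ∀ m, ∃ z, c (f m) = α z := fun m => by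
    obtain ⟨z, hz, rfl⟩ := P.q_surj m
    have : c (f (P.q (r z))) = α z := sub_eq_zero.1 (h3 z (hr.sub z hz))
    rw [hr.fix z hz] at this
    exact ⟨z, this⟩
  intro m m'
  obtain ⟨z, hz⟩ := key m
  obtain ⟨z', hz'⟩ := key m'
  exact hc (hz.trans ((h1.const isOpen_univ isPreconnected_univ (mem_univ _)
    (mem_univ _)).trans hz'.symm))

end Pack

section
variable {E : Type} [NormedAddCommGroup E] [NormedSpace ℝ E] {M : Type} [TopologicalSpace M]
  [ChartedSpace E M] [IsManifold 𝓘(ℝ, E) ∞ M] {k : ℕ}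

theorem Form.Exact.sub {w w' : Form E M (k + 1)} (h : w.Exact) (h' : w'.Exact) :
    (w.sub w').Exact := by
  obtain ⟨b, hb, hd⟩ := h
  obtain ⟨b', hb', hd'⟩ := h'
  refine ⟨b.sub b', fun p => ?_, fun p y hy => ?_⟩
  · rw [loc_sub]
    exact ContDiffOn.sub (hb p) (hb' p)
  · rw [loc_sub, loc_sub, extDeriv_sub' (Sm.diffAt (hb p) (chartAt E p).open_target hy)
      (Sm.diffAt (hb' p) (chartAt E p).open_target hy), hd p y hy, hd' p y hy]
    rfl

theorem Form.sub_sub_sub (a b c : Form E M k) : (a.sub c).sub (b.sub c) = a.sub b := by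
  funext x
  exact sub_sub_sub_cancel_right _ _ _

end

end Pool.Agent.Work.MP_bf98aa_gt.Th
end

-- merged part: Pool.Agent.Work.MP_bf98aa_gt.Th.NNom
section
/-!
The Nomizu theorem for the deck group.

PLAN. Let `T₀ = {γ.nu | γ.g = 0}` (it contains `L • single i 1`, `exists_nu`). Induct on finite sets `I` of coordinates
that are upward closed for `lev` (add the coordinates in decreasing order of level; for instance induct on `card` and pick a
coordinate of largest level outside `I`): the form is `LI (T₀ ∪ {h supported on I})`. Step: `avg_closed` / `avg_prim` with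
`e = single j 1`, `l = lev j`; an `h` supported on `insert j I` is `mul h' (h j • e)` with `h' = mul h (-(h j • e))`
supported on `I` (`mul_add_left`). In `nomizu_surj` accumulate the primitives (all of them `LI T₀`). At the end `eq_lf`.
Averaging over `G`: choose `γ g` with `(γ g).g = g`; for `β` that is `LI T₀`, `card⁻¹ • ∑ g, pb (γ g • ·) β` is invariant
under the whole group, since `γ g * γ = γ' * γ (g + γ.g)` with `γ'.g = 0`. Use `pb_smul_lf`.
-/

set_option autoImplicit false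

open scoped ContDiff Topology
open Set

namespace Pool.Agent.Work.MP_bf98aa_gt.Th

namespace Nil

variable {S G : Type} [Fintype S] [DecidableEq S] [AddCommGroup G] [Fintype G] {D : Nil S G}
  {k : ℕ}

/-- The translations in the deck group and the vectors supported on `I`. -/
def NNom_T (Λ : D.Lt) (I : Finset (S × Fin 2)) : Set (Sp S) :=
  {a | (∃ γ : Λ.Gp, γ.g = 0 ∧ γ.nu = a) ∨ ∀ i ∉ I, a i = 0}

omit [Fintype G] in
theorem NNom_ind {P : Finset (S × Fin 2) → Prop} (h0 : P ∅)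
    (hs : ∀ I j, (∀ i, D.lev j < D.lev i → i ∈ I) → P I → P (insert j I)) : P Finset.univ := by
  suffices h : ∀ I : Finset (S × Fin 2), (∀ i ∈ I, ∀ i', D.lev i < D.lev i' → i' ∈ I) → P I from
    h _ fun _ _ _ _ => Finset.mem_univ _
  intro I
  induction I using Finset.induction_on_min_value D.lev with
  | empty => exact fun _ => h0
  | insert a s _ hm ih =>
    refine fun h => hs s a (fun i hi => ?_) (ih fun i hi i' hi' => ?_)
    · refine (Finset.mem_insert.1 (h a (Finset.mem_insert_self _ _) i hi)).resolve_left ?_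
      rintro rfl
      exact lt_irrefl _ hi
    · refine (Finset.mem_insert.1 (h i (Finset.mem_insert_of_mem hi) i' hi')).resolve_left ?_
      rintro rfl
      exact absurd (hm i hi) (not_le.2 hi')

omit [Fintype G] in
theorem NNom_e (j : S × Fin 2) : (Pi.single j 1 : Sp S) ∈ Fl D.lev (D.lev j) := fun i hi =>
  Pi.single_eq_of_ne (by rintro rfl; exact lt_irrefl _ hi) _

omit [Fintype G] in
theorem NNom_Fl (Λ : D.Lt) {I : Finset (S × Fin 2)} {j : S × Fin 2}
    (hI : ∀ i, D.lev j < D.lev i → i ∈ I) : ∀ h ∈ Fl D.lev (D.lev j + 1), h ∈ NNom_T Λ I :=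
  fun _ hh => Or.inr fun i hi => hh i (Nat.lt_succ_of_le (not_lt.1 fun c => hi (hI i c)))

omit [Fintype G] in
theorem NNom_L (Λ : D.Lt) (I : Finset (S × Fin 2)) (j : S × Fin 2) :
    Λ.L • (Pi.single j 1 : Sp S) ∈ NNom_T Λ I := by
  obtain ⟨γ, h1, h2⟩ := Λ.exists_nu (Pi.single j 1)
  refine Or.inl ⟨γ, h1, h2.trans (funext fun i => ?_)⟩
  by_cases h : i = j
  · simp [h]
  · simp [h]

omit [Fintype G] in
theorem NNom_step (Λ : D.Lt) {I : Finset (S × Fin 2)} {j : S × Fin 2}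
    (hI : ∀ i, D.lev j < D.lev i → i ∈ I) {α : Fm (Sp S) k} (h1 : D.LI (NNom_T Λ I) α)
    (h2 : ∀ t : ℝ, pb (D.mul (t • Pi.single j 1)) α = α) : D.LI (NNom_T Λ (insert j I)) α := by
  rintro h (hh | hh)
  · exact h1 h (Or.inl hh)
  have h3 := D.mul_add_right ((Fl D.lev _).neg_mem ((Fl D.lev _).smul_mem (h j) (NNom_e j))) h 0
  rw [zero_add, D.mul_zero] at h3
  have h4 : D.mul h (-(h j • Pi.single j 1)) ∈ NNom_T Λ I := Or.inr fun i hi => by
    have h5 := h3 i (Nat.lt_succ_of_le (not_lt.1 fun c => hi (hI i c)))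
    by_cases e : i = j
    · subst e
      simpa using h5
    · simpa [e, hh i (by simp [e, hi])] using h5
  refine D.NAvg_cf_inj fun x => ?_
  have e1 := D.NAvg_cf_pb (h j • Pi.single j 1) α x
  have e2 := D.NAvg_cf_pb (D.mul h (-(h j • Pi.single j 1))) α (D.mul (h j • Pi.single j 1) x)
  rw [h2] at e1
  rw [h1 _ h4, D.mul_assoc, D.neg_mul_cancel] at e2
  rw [NAvg_cf_pb, e1, e2]

omit [Fintype G] in
theorem NNom_mono (Λ : D.Lt) (I : Finset (S × Fin 2)) {α : Fm (Sp S) k}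
    (h : D.LI (NNom_T Λ I) α) : D.LI (NNom_T Λ ∅) α := fun a ha =>
  h a (ha.imp_right fun h i _ => h i (Finset.notMem_empty i))

omit [Fintype G] in
theorem NNom_d {T : Set (Sp S)} {β : Fm (Sp S) k} (hβ : Sm β univ) (h : D.LI T β) :
    D.LI T (extDeriv β) := fun a ha => funext fun x => by
  rw [← extDeriv_pb (hβ.diffAt isOpen_univ (mem_univ _)) (D.NAvg_sml a).contDiffAt, h a ha]

omit [Fintype G] in
theorem NNom_closed (Λ : D.Lt) {α : Fm (Sp S) (k + 1)} (hα : Cl α univ)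
    (hi : D.LI (NNom_T Λ ∅) α) : ∃ β : Fm (Sp S) k, Sm β univ ∧ D.LI (NNom_T Λ ∅) β ∧
      D.LI (NNom_T Λ Finset.univ) (α - extDeriv β) := by
  refine NNom_ind (D := D) (P := fun I => ∃ β : Fm (Sp S) k, Sm β univ ∧ D.LI (NNom_T Λ ∅) β ∧
    D.LI (NNom_T Λ I) (α - extDeriv β)) ⟨0, contDiffOn_const, fun a _ => pb_zero _, ?_⟩ ?_
  · rwa [show extDeriv (0 : Fm (Sp S) k) = 0 from funext fun x => extDeriv_const 0 x, sub_zero]
  · rintro I j hI ⟨β, b1, b2, b3⟩
    obtain ⟨β', c1, c2, c3⟩ := D.avg_closed Λ.pos (NNom_e j) (NNom_Fl Λ hI) (NNom_L Λ I j)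
      (hα.sub isOpen_univ (IsD.cl ⟨b1, fun _ _ => rfl⟩ isOpen_univ)) b3
    refine ⟨β + β', b1.add c1, fun a ha => by rw [pb_add, b2 a ha, NNom_mono Λ I c2 a ha], ?_⟩
    rw [show extDeriv (β + β') = extDeriv β + extDeriv β' from funext fun x =>
      extDeriv_add (b1.diffAt isOpen_univ (mem_univ x)) (c1.diffAt isOpen_univ (mem_univ x)),
      ← sub_sub]
    exact NNom_step Λ hI (D.NAvg_LI_sub b3 (NNom_d c1 c2)) c3

omit [Fintype G] in
theorem NNom_prim (Λ : D.Lt) {β : Fm (Sp S) k} (hβ : Sm β univ) (hi : D.LI (NNom_T Λ ∅) β)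
    (hd : D.LI univ (extDeriv β)) : ∃ β' : Fm (Sp S) k, Sm β' univ ∧ extDeriv β' = extDeriv β ∧
      D.LI (NNom_T Λ Finset.univ) β' := by
  refine NNom_ind (D := D) (P := fun I => ∃ β' : Fm (Sp S) k, Sm β' univ ∧
    extDeriv β' = extDeriv β ∧ D.LI (NNom_T Λ I) β') ⟨β, hβ, rfl, hi⟩ ?_
  rintro I j hI ⟨β', b1, b2, b3⟩
  obtain ⟨β'', c1, c2, c3, c4⟩ := D.avg_prim Λ.pos (NNom_e j) (NNom_Fl Λ hI) (NNom_L Λ I j) b1 b3
    (by rwa [b2])
  exact ⟨β'', c1, c3.trans b2, NNom_step Λ hI c2 c4⟩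

omit [Fintype G] in
theorem NNom_lf (Λ : D.Lt) {α : Fm (Sp S) k} (h : D.LI (NNom_T Λ Finset.univ) α) :
    α = D.lf (α 0) := D.eq_lf fun a => h a (Or.inr fun i hi => absurd (Finset.mem_univ i) hi)

omit [Fintype G] in
theorem NNom_nu {Λ : D.Lt} {γ : Λ.Gp} (h : γ.g = 0) : (fun y : Sp S => γ • y) = D.mul γ.nu :=
  funext fun y => by rw [Lt.smul_def, h, D.sg_zero]

omit [Fintype G] in
theorem NNom_inv (Λ : D.Lt) {α : Fm (Sp S) k} (h : Inv Λ.Gp α univ) : D.LI (NNom_T Λ ∅) α := by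
  rintro a (⟨γ, h1, rfl⟩ | ha)
  · rw [← NNom_nu h1]
    exact funext fun x => h γ x (mem_univ x)
  · obtain rfl : a = 0 := funext fun i => ha i (Finset.notMem_empty i)
    rw [show D.mul 0 = fun x => x from funext D.zero_mul, pb_id]

theorem NNom_mul {Λ : D.Lt} (a b : Λ.Gp) (β : Fm (Sp S) k) : pb (fun y : Sp S => (a * b) • y) β =
    pb (fun y : Sp S => b • y) (pb (fun y : Sp S => a • y) β) := funext fun x => by
  rw [← pb_comp β ((Λ.act.smooth b).differentiable (by simp) x)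
    ((Λ.act.smooth a).differentiable (by simp) _)]
  simp only [mul_smul]

theorem NNom_same {Λ : D.Lt} {β : Fm (Sp S) k} (h : D.LI (NNom_T Λ ∅) β) {a b : Λ.Gp}
    (e : a.g = b.g) : pb (fun y : Sp S => a • y) β = pb (fun y : Sp S => b • y) β := by
  have h1 : (a * b⁻¹).g = 0 := by rw [Lt.mul_g, Lt.inv_g, e, add_neg_cancel]
  rw [← inv_mul_cancel_right a b, NNom_mul, NNom_nu h1, h _ (Or.inl ⟨_, h1, rfl⟩)]

/-- The average over the signs. -/
noncomputable def NNom_av {Λ : D.Lt} (γ : G → Λ.Gp) (β : Fm (Sp S) k) : Fm (Sp S) k :=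
  (Fintype.card G : ℝ)⁻¹ • ∑ g, pb (fun y : Sp S => γ g • y) β

variable {Λ : D.Lt} (γ : G → Λ.Gp)

theorem NNom_sm0 (a : Λ.Gp) {β : Fm (Sp S) k} (h : Sm β univ) :
    Sm (pb (fun y : Sp S => a • y) β) univ :=
  h.pb isOpen_univ isOpen_univ (Λ.act.smooth a).contDiffOn (mapsTo_univ _ _)

theorem NNom_sm {β : Fm (Sp S) k} (h : Sm β univ) : Sm (NNom_av γ β) univ := by
  have h1 : Sm (∑ g, pb (fun y : Sp S => γ g • y) β) univ := by
    rw [Finset.sum_fn]
    exact ContDiffOn.sum fun g _ => NNom_sm0 (γ g) h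
  exact ContDiffOn.const_smul (Fintype.card G : ℝ)⁻¹ h1

theorem NNom_dav {β : Fm (Sp S) k} (h : Sm β univ) :
    extDeriv (NNom_av γ β) = NNom_av γ (extDeriv β) := funext fun x => by
  rw [NNom_av, extDeriv_smul, extDeriv_sum' _ fun g _ =>
    (NNom_sm0 (γ g) h).diffAt isOpen_univ (mem_univ x), NNom_av, Pi.smul_apply, Finset.sum_apply]
  exact congrArg _ (Finset.sum_congr rfl fun g _ =>
    extDeriv_pb (h.diffAt isOpen_univ (mem_univ _)) (Λ.act.smooth _).contDiffAt)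

omit [DecidableEq S] in
theorem NNom_sub' {I : Type} [Fintype I] (c : ℝ) (f : I → Sp S → Sp S) (α β : Fm (Sp S) k) :
    c • ∑ g, pb (f g) (α - β) = c • ∑ g, pb (f g) α - c • ∑ g, pb (f g) β := by
  simp only [pb_sub, Finset.sum_sub_distrib, smul_sub]

theorem NNom_sub (α β : Fm (Sp S) k) : NNom_av γ (α - β) = NNom_av γ α - NNom_av γ β :=
  NNom_sub' _ _ α β

theorem NNom_fix {α : Fm (Sp S) k} (h : Inv Λ.Gp α univ) : NNom_av γ α = α := by
  rw [NNom_av, Finset.sum_congr rfl fun g _ => (funext fun x => h (γ g) x (mem_univ x) :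
    pb (fun y : Sp S => γ g • y) α = α), Finset.sum_const, Finset.card_univ,
    ← Nat.cast_smul_eq_nsmul ℝ, inv_smul_smul₀ (Nat.cast_ne_zero.2 Fintype.card_ne_zero)]

theorem NNom_avinv (hγ : ∀ g, (γ g).g = g) {β : Fm (Sp S) k} (h : D.LI (NNom_T Λ ∅) β) :
    Inv Λ.Gp (NNom_av γ β) univ := fun δ x _ => by
  refine congrFun ?_ x
  rw [NNom_av, pb_smul, pb_sum]
  refine congrArg _ (Fintype.sum_equiv (Equiv.addRight δ.g) _ _ fun g => ?_)
  rw [← NNom_mul]
  exact NNom_same h (by rw [Lt.mul_g, hγ, hγ, Equiv.coe_addRight])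

theorem NNom_avlf (hγ : ∀ g, (γ g).g = g) (c : Alt (Sp S) k) :
    ∃ c', D.GI c' ∧ NNom_av γ (D.lf c) = D.lf c' := by
  have h1 : NNom_av γ (D.lf c) = D.lf (NNom_av γ (D.lf c) 0) := D.eq_lf fun a => by
    simp only [NNom_av, pb_smul, pb_sum, D.pb_smul_lf, D.pb_mul_lf]
  refine ⟨_, fun g => ?_, h1⟩
  have h2 := NNom_avinv γ hγ (β := D.lf c) (fun a _ => D.pb_mul_lf a c) (γ g) 0 (mem_univ _)
  rwa [h1, D.pb_smul_lf, D.lf_zero, D.lf_zero, hγ] at h2

theorem nomizu_surj (Λ : D.Lt) {α : Fm (Sp S) (k + 1)} (hα : Cl α univ) (hi : Inv Λ.Gp α univ) :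
    ∃ c : Alt (Sp S) (k + 1), D.GI c ∧ extDeriv (D.lf c) 0 = 0 ∧
      Triv Λ.Gp (k + 1) (α - D.lf c) univ := by
  choose γ hγ using Λ.exists_g
  obtain ⟨β, b1, b2, b3⟩ := NNom_closed Λ hα (NNom_inv Λ hi)
  obtain ⟨c, c1, c2⟩ := NNom_avlf γ hγ ((α - extDeriv β) 0)
  rw [← NNom_lf Λ b3, NNom_sub, NNom_fix γ hi, ← NNom_dav γ b1] at c2
  have b4 := NNom_sm γ b1
  refine ⟨c, c1, ?_, NNom_av γ β, ⟨b4, fun x _ => ?_⟩, NNom_avinv γ hγ b2⟩
  · rw [← c2]
    exact (hα.sub isOpen_univ (IsD.cl ⟨b4, fun _ _ => rfl⟩ isOpen_univ)).2 0 (mem_univ _)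
  · rw [← c2, sub_sub_cancel]

theorem nomizu_inj (Λ : D.Lt) {c : Alt (Sp S) (k + 1)} (hc : D.GI c)
    (h : Triv Λ.Gp (k + 1) (D.lf c) univ) :
    ∃ β : Alt (Sp S) k, D.GI β ∧ extDeriv (D.lf β) 0 = c := by
  choose γ hγ using Λ.exists_g
  obtain ⟨β, ⟨b1, b2⟩, b3⟩ := h
  have e : extDeriv β = D.lf c := funext fun x => b2 x (mem_univ x)
  obtain ⟨β', c1, c2, c3⟩ := NNom_prim Λ b1 (NNom_inv Λ b3) fun a _ => by rw [e, D.pb_mul_lf]
  obtain ⟨b, d1, d2⟩ := NNom_avlf γ hγ (β' 0)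
  refine ⟨b, d1, ?_⟩
  rw [← d2, ← NNom_lf Λ c3, NNom_dav γ c1, c2, e, NNom_fix γ (D.inv_lf Λ hc _), D.lf_zero]

end Nil

end Pool.Agent.Work.MP_bf98aa_gt.Th
end

-- merged part: Pool.Agent.Work.MP_bf98aa_gt.Th.Ana
section
/-!
From the algebraic model to the manifold.
-/

set_option autoImplicit false

open scoped ContDiff Topology Manifold
open Set

namespace Pool.Agent.Work.MP_bf98aa_gt.Th

section
variable {E : Type} [NormedAddCommGroup E] [NormedSpace ℝ E] {M : Type} [TopologicalSpace M]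
  [ChartedSpace E M] [IsManifold 𝓘(ℝ, E) ∞ M] {k : ℕ}

theorem Form.Exact.trans {a b c : Form E M (k + 1)} (h : (a.sub b).Exact) (h' : (b.sub c).Exact) :
    (a.sub c).Exact := by
  have h1 := h.sub ((h'.sub h').sub h')
  have e : (a.sub b).sub (((b.sub c).sub (b.sub c)).sub (b.sub c)) = a.sub c := by
    funext x
    simp only [Form.sub]
    abel
  rwa [e] at h1

theorem Form.Exact.of_sub {a b : Form E M (k + 1)} (h : (a.sub b).Exact) (h' : b.Exact) :
    a.Exact := by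
  have h1 := h.sub ((h'.sub h').sub h')
  have e : (a.sub b).sub ((b.sub b).sub b) = a := by
    funext x
    simp only [Form.sub]
    abel
  rwa [e] at h1

end

namespace Nil

variable {S G : Type} [Fintype S] [DecidableEq S] [AddCommGroup G] {D : Nil S G}

theorem lf_sub {k : ℕ} (c c' : Alt (Sp S) k) : D.lf (c - c') = D.lf c - D.lf c' := by
  funext x
  ext v
  simp [lf]

theorem triv_of_EX (Λ : D.Lt) {c : Alt (Sp S) 2} (h : D.EX c) : Triv Λ.Gp 2 (D.lf c) univ := by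
  obtain ⟨β, h1, h2⟩ := h
  have h3 : D.GI (-β) := fun g => by
    ext v
    have := congrArg (fun w : Alt (Sp S) 1 => w v) (h1 g)
    simpa using this
  refine ⟨D.lf (-β), ⟨(D.contDiff_lf _).contDiffOn, fun x _ => ?_⟩, D.inv_lf Λ h3 _⟩
  have h4 : extDeriv (D.lf (-β)) 0 = c := alt_ext_two fun u v => by
    rw [D.extDeriv_lf_one, h2]
    simp
  rw [D.extDeriv_lf, h4]

theorem EX_of_d {β : Alt (Sp S) 1} {c : Alt (Sp S) 2} (h1 : D.GI β)
    (h : extDeriv (D.lf β) 0 = c) : D.EX c := by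
  refine ⟨-β, fun g => ?_, fun u v => ?_⟩
  · ext v
    have := congrArg (fun w : Alt (Sp S) 1 => w v) (h1 g)
    simpa using this
  · rw [← h, D.extDeriv_lf_one]
    simp

end Nil

theorem Pack.res_sub {S : Type} [Fintype S] {n n' : ℕ} {Γ : Type} [Group Γ] [MulAction Γ (Sp S)]
    {s : Sp S → Cn n'} {M : Type} [TopologicalSpace M] [ChartedSpace (Sp (Fin n)) M]
    (P : Pack (n := n) Γ s M) {k : ℕ} (α β : Fm (Sp S) k) :
    P.res (α - β) = (P.res α).sub (P.res β) := by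
  funext m
  ext v
  simp [Pack.res, Form.sub]

theorem ana_main {S G : Type} [Fintype S] [DecidableEq S] [AddCommGroup G] [Fintype G]
    (D₀ : Nil S G) {n n' r : ℕ} (hn : 3 ≤ n) (e : Fin n ⊕ Fin n' ≃ S)
    (η : (Fin r → ℝ) →ₗ[ℝ] Alt (Sp S) 2) (a : Fin r → ℝ) (h1 : D₀.H1)
    (h2 : ∀ x, D₀.GI (η x) ∧ D₀.CE2 (η x))
    (h3 : ∀ w, D₀.GI w → D₀.CE2 w → ∃! x, D₀.EX (w - η x))
    (h4 : ∀ v, v ≠ 0 → 0 < η a ![v, Jv v]) (h5 : pf (fam e (η a) fun _ => omA) ≠ 0) :
    ∃ (M : Type) (_ : TopologicalSpace M) (_ : T2Space M) (_ : CompactSpace M)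
      (_ : ConnectedSpace M) (_ : ChartedSpace (Sp (Fin n)) M)
      (_ : IsManifold 𝓘(ℝ, Sp (Fin n)) ∞ M) (ξ : (Fin r → ℝ) → Form (Sp (Fin n)) M 2) (C : ℝ),
      0 < C * pf (fam e (η a) fun _ => omA) ∧
      (∀ (c : ℝ) x, comb (fun i => ξ (c • Pi.single i 1)) x = ξ (c • x)) ∧
      (∀ (c : ℝ) x m, ξ (c • x) m = c • ξ x m) ∧
      (∀ b : Form (Sp (Fin n)) M 1, b.Closed → b.Exact) ∧ (∀ x, (ξ x).Closed) ∧
      (∀ w : Form (Sp (Fin n)) M 2, w.Closed → ∃! x : Fin r → ℝ, (w.sub (ξ x)).Exact) ∧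
      (ξ a).Nondeg ∧ ∀ x, HasIntegral (ξ a) (ξ x) (C * pf (fam e (η x) fun _ => omA)) := by
  have hc : Fintype.card S = n + n' := by simpa using (Fintype.card_congr e).symm
  haveI : Nonempty S := ⟨e (Sum.inl ⟨0, by omega⟩)⟩
  obtain ⟨θ₁, p1, g1⟩ := Nil.good S G n' (by omega)
  obtain ⟨θ₂, p2, g2⟩ := Nil.symp G n' h4
  obtain ⟨k, hk, Λ, s, ε, δ, hε, hδ, hle, hD⟩ := D₀.don_main n' (lt_min p1 p2)
  replace h1 := (D₀.scale_H1 hk).2 h1
  replace h2 : ∀ x, (D₀.scale k).GI (η x) ∧ (D₀.scale k).CE2 (η x) := fun x =>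
    ⟨(h2 x).1, (D₀.scale_CE2 hk _).2 (h2 x).2⟩
  replace h3 : ∀ w, (D₀.scale k).GI w → (D₀.scale k).CE2 w → ∃! x, (D₀.scale k).EX (w - η x) :=
    fun w a b => by
      simp only [D₀.scale_EX hk]
      exact h3 w a ((D₀.scale_CE2 hk _).1 b)
  generalize D₀.scale k = D at *
  replace g1 := g1 D Λ s ε δ hε hδ (hle.trans (by gcongr; exact min_le_left _ _)) hD
  replace g2 := g2 D Λ s ε δ hε hδ (hle.trans (by gcongr; exact min_le_right _ _)) hD
  have act := Λ.act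
  have hZ : ∀ (γ : Λ.Gp) (x : Sp S), s x = 0 → s (γ • x) = 0 := fun γ x hx => by
    rw [hD.auto, hx, smul_zero]
  obtain ⟨c₀, ρ, hc₀, hr⟩ := hD.exists_retr hε
  obtain ⟨H, H1, H2, H3, H4⟩ := Nil.exists_htp hr
  have hb := bump act (F := fun y => nsc (s y)) (contDiff_nsc.comp hD.smooth) hD.nsc_smul
    (c₀ := c₀) fun x hx => g1 x (hc₀.trans_le hx)
  obtain ⟨x₀, hx₀⟩ := nonempty_of_inj (hb 0 (by norm_num)).2
  obtain ⟨M, _, _, _, _, _, ⟨P⟩⟩ := exists_pack (n := n) hc act hD.smooth hZ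
    (fun z hz => hD.surj hε hz) ⟨_, hr.zero x₀ hx₀⟩
  haveI := P.preconn hZ hr (hb 0 (by norm_num)).1
  haveI : Nonempty M := ⟨P.q x₀⟩
  haveI : ConnectedSpace M := ⟨inferInstance⟩
  have hI : InvSet Λ.Gp (univ : Set (Sp S)) := fun _ _ _ => mem_univ _
  have nd : ∀ p, ∀ y ∈ (chartAt (Sp (Fin n)) p).target, ∀ u,
      (∀ v, pb (P.ψ p) (D.lf (η a)) y ![u, v] = 0) → u = 0 := fun p y hy u hu => by
    refine P.fderiv_ψ_inj p hy ?_
    rw [map_zero]
    refine g2 _ _ (P.ψ_zero p hy).1 ((P.range_fderiv_ψ hD.smooth p hy _).2 ⟨u, rfl⟩) fun v' hv' => ?_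
    obtain ⟨v, rfl⟩ := (P.range_fderiv_ψ hD.smooth p hy _).1 hv'
    have := hu v
    rw [pb, ContinuousAlternatingMap.compContinuousLinearMap_apply] at this
    rw [← this]
    congr 1
    funext i
    fin_cases i <;> rfl
  obtain ⟨C, hC, hint⟩ := Nil.integral_main P e hD.smooth hD.auto (h2 a).1 (h2 a).2
    (fun p y hy => pf_ne_zero _ (nd p y hy)) h5
  have cl : ∀ x, Cl (D.lf (η x)) univ := fun x => (D.cl_lf_iff _).2 (h2 x).2
  refine ⟨M, inferInstance, inferInstance, inferInstance, inferInstance, inferInstance,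
    inferInstance, fun x => P.res (D.lf (η x)), C, hC, fun c x => ?_, fun c x m => ?_,
    fun b hb' => ?_, fun x => ?_, fun w hw => ?_, fun m u hu => ?_,
    fun x => hint _ (h2 x).1 (h2 x).2⟩
  · have hx : c • x = ∑ i, x i • c • (Pi.single i 1 : Fin r → ℝ) := by
      funext j
      simp [Pi.single_apply, mul_comm]
    have hy : η (c • x) = ∑ i, x i • η (c • Pi.single i 1) := by
      rw [hx, map_sum]
      exact Finset.sum_congr rfl fun i _ => map_smul _ _ _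
    funext m
    refine ContinuousAlternatingMap.ext fun v => ?_
    simp only [comb, Pack.res, Nil.lf, hy, ContinuousAlternatingMap.sum_apply,
      ContinuousAlternatingMap.smul_apply, ContinuousAlternatingMap.compContinuousLinearMap_apply]
  · ext v
    simp [Pack.res, Nil.lf]
  · obtain ⟨α, a1, a2, a3⟩ := P.coh_surj act hZ hr (hb 1 (by norm_num)).1 hb'
    obtain ⟨c, c1, c2, c3⟩ := D.nomizu_surj Λ a1 a2
    have c0 : c = 0 := h1 c c1 fun u v => by
      have := D.extDeriv_lf_one c u v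
      rw [c2] at this
      simpa using this.symm
    have : D.lf (0 : Alt (Sp S) 1) = 0 := by
      funext x
      ext v
      simp [Nil.lf]
    rw [c0, this, sub_zero] at c3
    exact a3.of_sub (P.res_exact act hZ isOpen_univ hI (fun _ _ => mem_univ _) c3)
  · exact P.res_closed act hZ isOpen_univ (fun _ _ => mem_univ _) (cl x) (D.inv_lf Λ (h2 x).1 _)
  · obtain ⟨α, a1, a2, a3⟩ := P.coh_surj act hZ hr (hb 2 le_rfl).1 hw
    obtain ⟨c, c1, c2, c3⟩ := D.nomizu_surj Λ a1 a2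
    have c4 : D.CE2 c := fun u v z => by
      have := D.extDeriv_lf_two c u v z
      rw [c2] at this
      exact neg_eq_zero.1 this.symm
    obtain ⟨x, hx, -⟩ := h3 c c1 c4
    have e1 := P.res_exact act hZ isOpen_univ hI (fun _ _ => mem_univ _) c3
    have e2 := P.res_exact act hZ isOpen_univ hI (fun _ _ => mem_univ _) (Nil.triv_of_EX Λ hx)
    rw [P.res_sub] at e1
    rw [Nil.lf_sub, P.res_sub] at e2
    have e3 := (a3.trans e1).trans e2
    refine ⟨x, e3, fun x' hx' => ?_⟩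
    have e4 := e3.sub hx'
    have e5 : (w.sub (P.res (D.lf (η x)))).sub (w.sub (P.res (D.lf (η x')))) =
        P.res (D.lf (η (x' - x))) := by
      rw [map_sub, Nil.lf_sub, P.res_sub]
      funext m
      simp only [Form.sub]
      abel
    rw [e5] at e4
    obtain ⟨β, b1, b2⟩ := D.nomizu_inj Λ (h2 _).1 (P.coh_inj act hZ hr H1 H2 H3 H4 (hb 2 le_rfl).2
      (cl _) (D.inv_lf Λ (h2 _).1 _) e4)
    have b3 := Nil.EX_of_d b1 b2
    rw [map_sub] at b3
    refine (h3 (η x') (h2 _).1 (h2 _).2).unique ?_ b3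
    rw [sub_self]
    exact ⟨0, fun g => by ext v; simp, fun u v => by simp⟩
  · exact nd m _ (mem_chart_target _ m) u hu

end Pool.Agent.Work.MP_bf98aa_gt.Th
end
end

-- merged part: Pool.Agent.Work.MP_bf98aa_gt.Th.Final
section
-- merged part: Pool.Agent.Work.MP_bf98aa_gt.Th.ANil
section
/-!
The explicit Lie algebra satisfies the requirements.

PLAN. The bracket is bilinear (`LinearMap.mk₂`, `LinearMap.toContinuousLinearMap` twice). `lbr u v ∈ Fl levf 3`, and `lbr u v = 0` if `v ∈ Fl levf 2`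
(`levf_link`); `levf (sG g a, c) = gL (a, c)`. Jacobi: `brf v w ∈ Fl levf 2`, so `lbr u (brf v w) = 0`, and `rs g (brf v w)` agrees with
`gbf (rs g v) (rs g w)` below level three (`gbf_congr`, `rs_ex`, `rs_ex_ne`, `gbf_jac`). Signs: `chv_link`, `sgn_add`, `sgn_mul_self`, and `gbf_sign` with
`ε p = sgn (p.1 * c₁ + p.2 * c₂)` (`chv_sG`). `clo`: `eta_clo` at `(1, 0)`, `eta_one`, `omA_apply`. `free`: `exists_tau`.
-/

set_option autoImplicit false

namespace Pool.Agent.Work.MP_bf98aa_gt.Th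

section
variable {U : Type} {r : ℕ}

theorem ANil_lev (s : Sl U r) : 1 ≤ levf (s, 0) ∧ 1 ≤ levf (s, 1) ∧ levf (s, 0) + levf (s, 1) ≤ 4 := by
  have h : ∀ a : Fin 7, 1 ≤ gL (a, 0) ∧ 1 ≤ gL (a, 1) ∧ gL (a, 0) + gL (a, 1) ≤ 4 := by decide
  rcases s with j | i | ⟨g, i | j | a⟩
  exacts [by simp [levf], by simp [levf], by simp [levf], by simp [levf], h a]

theorem ANil_pos (i : Sl U r × Fin 2) : 1 ≤ levf i := by
  obtain ⟨s, c⟩ := i
  fin_cases c
  exacts [(ANil_lev s).1, (ANil_lev s).2.1]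

variable [Fintype U] [DecidableEq U] (T : UD U r)

omit [Fintype U] [DecidableEq U] in
theorem ANil_one (u : Sp (Sl U r)) : u ∈ Fl levf 1 := fun i hi => absurd (ANil_pos i) (not_le.2 hi)

omit [Fintype U] [DecidableEq U] in
theorem ANil_rs (g : U) {a : ℕ} {u : Sp (Sl U r)} (hu : u ∈ Fl levf a) : rs g u ∈ Fl gL a :=
  fun i hi => hu (sG g i.1, i.2) hi

omit [Fintype U] in
theorem ANil_ex (g : U) {a : ℕ} {z : Sp (Fin 7)} (hz : z ∈ Fl gL a) :
    (ex g z : Sp (Sl U r)) ∈ Fl levf a := by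
  rintro ⟨j | i | ⟨g', i | j | b⟩, c⟩ hi
  exacts [rfl, rfl, rfl, rfl, ite_eq_right_iff.2 fun _ => hz (b, c) hi]

theorem ANil_l3 (u v : Sp (Sl U r)) : T.lbr u v ∈ Fl levf 3 :=
  Submodule.sum_mem _ fun l _ => Submodule.sum_mem _ fun t _ => Submodule.smul_mem _ _
    fun i hi => Pi.single_eq_of_ne (fun e => by
      rw [e, (levf_link l t).2] at hi
      exact lt_irrefl _ hi) _

theorem ANil_l0 (u : Sp (Sl U r)) {v : Sp (Sl U r)} (hv : v ∈ Fl levf 2) : T.lbr u v = 0 := by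
  have h : ∀ l t, v (lS l t, 0) = 0 := fun l t => hv _ (by rw [(levf_link l t).1]; omega)
  simp [UD.lbr, wd, h]

theorem ANil_lanti (u v : Sp (Sl U r)) : T.lbr u v = -T.lbr v u := by
  simp only [UD.lbr, ← Finset.sum_neg_distrib, ← neg_smul]
  exact Finset.sum_congr rfl fun l _ => Finset.sum_congr rfl fun t _ => by
    rw [wd_anti, mul_neg]

theorem ANil_anti (u v : Sp (Sl U r)) : T.brf u v = -T.brf v u := by
  rw [UD.brf, UD.brf, ANil_lanti, neg_add, ← Finset.sum_neg_distrib]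
  refine congrArg _ (Finset.sum_congr rfl fun g _ => ?_)
  obtain ⟨A, hA⟩ := exists_exL (r := r) g
  rw [hA, hA, gbf_anti, map_neg]

theorem ANil_filt {a b : ℕ} {u v : Sp (Sl U r)} (hu : u ∈ Fl levf a) (hv : v ∈ Fl levf b) :
    T.brf u v ∈ Fl levf (a + b) := by
  refine add_mem ?_ (Submodule.sum_mem _ fun g _ =>
    ANil_ex g (gbf_filt _ (ANil_rs g hu) (ANil_rs g hv)))
  by_cases hb : 2 ≤ b
  · rw [ANil_l0 T u (Fl_anti _ hb hv)]
    exact zero_mem _
  by_cases ha : 2 ≤ a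
  · rw [ANil_lanti, ANil_l0 T v (Fl_anti _ ha hu), neg_zero]
    exact zero_mem _
  exact Fl_anti _ (by omega) (ANil_l3 T u v)

theorem ANil_add (u u' v : Sp (Sl U r)) : T.brf (u + u') v = T.brf u v + T.brf u' v := by
  simp only [UD.brf, UD.lbr]
  rw [add_add_add_comm]
  simp only [← Finset.sum_add_distrib, ← add_smul]
  refine congrArg₂ (· + ·) (Finset.sum_congr rfl fun l _ => Finset.sum_congr rfl fun t _ =>
    congrArg (· • _) ?_) (Finset.sum_congr rfl fun g _ => ?_)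
  · simp only [wd, Pi.add_apply]
    ring
  · obtain ⟨A, hA⟩ := exists_exL (r := r) g
    obtain ⟨B, hB⟩ := exists_gbL (T.Q g)
    rw [hA, hA, hA, hB, hB, hB, show rs g (u + u') = rs g u + rs g u' from rfl, map_add,
      add_apply, map_add]

theorem ANil_smul (c : ℝ) (u v : Sp (Sl U r)) : T.brf (c • u) v = c • T.brf u v := by
  simp only [UD.brf, UD.lbr, smul_add, Finset.smul_sum, smul_smul]
  refine congrArg₂ (· + ·) (Finset.sum_congr rfl fun l _ => Finset.sum_congr rfl fun t _ =>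
    congrArg (· • _) ?_) (Finset.sum_congr rfl fun g _ => ?_)
  · simp only [wd, Pi.smul_apply, smul_eq_mul]
    ring
  · obtain ⟨A, hA⟩ := exists_exL (r := r) g
    obtain ⟨B, hB⟩ := exists_gbL (T.Q g)
    rw [hA, hA, hB, hB, show rs g (c • u) = c • rs g u from rfl, map_smul,
      smul_apply, map_smul]

theorem ANil_bil : ∃ B : Sp (Sl U r) →L[ℝ] Sp (Sl U r) →L[ℝ] Sp (Sl U r),
    ∀ u v, B u v = T.brf u v :=
  ⟨LinearMap.toContinuousLinearMap (LinearMap.toContinuousLinearMap.toLinearMap ∘ₗ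
    LinearMap.mk₂ ℝ T.brf (ANil_add T) (ANil_smul T)
      (fun u v v' => by rw [ANil_anti, ANil_add, neg_add, ← ANil_anti, ← ANil_anti])
      fun c u v => by rw [ANil_anti, ANil_smul, ← smul_neg, ← ANil_anti]), fun _ _ => rfl⟩

theorem ANil_two (u v w : Sp (Sl U r)) : T.brf u (T.brf v w) =
    ∑ g, ex g (gbf (T.Q g) (rs g u) (gbf (T.Q g) (rs g v) (rs g w))) := by
  rw [UD.brf, ANil_l0 T u (ANil_filt T (ANil_one v) (ANil_one w)), zero_add]
  refine Finset.sum_congr rfl fun g _ => congrArg _ (gbf_congr _ _ fun i hi => ?_)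
  have h1 : T.lbr v w (sG g i.1, i.2) = 0 := ANil_l3 T v w _ hi
  have h2 : rs g (T.brf v w) i = T.lbr v w (sG g i.1, i.2) +
      ∑ g', rs g (ex g' (gbf (T.Q g') (rs g' v) (rs g' w)) : Sp (Sl U r)) i :=
    congrArg _ (Finset.sum_apply _ _ _)
  rw [h2, h1, zero_add, Finset.sum_eq_single g (fun g' _ k => by rw [rs_ex_ne k.symm]; rfl)
    fun k => absurd (Finset.mem_univ g) k, rs_ex]

theorem ANil_jac (u v w : Sp (Sl U r)) :
    T.brf u (T.brf v w) + T.brf v (T.brf w u) + T.brf w (T.brf u v) = 0 := by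
  rw [ANil_two, ANil_two, ANil_two, ← Finset.sum_add_distrib, ← Finset.sum_add_distrib]
  refine Finset.sum_eq_zero fun g _ => ?_
  obtain ⟨A, hA⟩ := exists_exL (r := r) g
  rw [hA, hA, hA, ← map_add, ← map_add, gbf_jac, map_zero]

theorem ANil_rat {u v : Sp (Sl U r)} (hu : ∀ i, ∃ q : ℚ, u i = q) (hv : ∀ i, ∃ q : ℚ, v i = q)
    (k : Sl U r × Fin 2) : ∃ q : ℚ, T.brf u v k = q := by
  have h : ∀ x : ℝ, x ∈ (Rat.castHom ℝ).range ↔ ∃ q : ℚ, x = q := fun x =>
    exists_congr fun q => eq_comm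
  rw [← h, UD.brf, UD.lbr, Pi.add_apply, Finset.sum_apply, Finset.sum_apply]
  refine add_mem (sum_mem fun l _ => ?_) (sum_mem fun g _ => ?_)
  · rw [Finset.sum_apply]
    refine sum_mem fun t _ => mul_mem (mul_mem ⟨_, rfl⟩ (sub_mem (mul_mem ((h _).2 (hu _))
      ((h _).2 (hv _))) (mul_mem ((h _).2 (hu _)) ((h _).2 (hv _))))) ?_
    rw [ev, Pi.single_apply]
    split_ifs
    exacts [one_mem _, zero_mem _]
  · rcases k with ⟨j | i | ⟨g', i | j | b⟩, c⟩
    iterate 4 exact zero_mem _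
    rw [ex]
    split_ifs
    exacts [(h _).2 (gbf_rat _ (fun i => hu _) (fun i => hv _) (b, c)), zero_mem _]

theorem ANil_link (γ : Kx U r → ZMod 2) (l : Lk U r) (t : Fin 3) :
    sgn (chf (lS l (t + 1)) γ) * sgn (chf (lS l (t + 2)) γ) = sgn (chf (lS l t) γ) := by
  have h1 : chf (lS l 0) γ + chf (lS l 1) γ + chf (lS l 2) γ = 0 := by
    have h := chv_link l
    simp only [chf, AddMonoidHom.mk'_apply, ← Finset.sum_add_distrib, ← add_mul]
    exact Finset.sum_eq_zero fun k _ => mul_eq_zero_of_left (congrFun h k) _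
  have h2 : ∀ a b c : ZMod 2, a + b + c = 0 → b + c = a ∧ c + a = b ∧ a + b = c := by decide
  rw [← sgn_add]
  fin_cases t
  exacts [congrArg sgn (h2 _ _ _ h1).1, congrArg sgn (h2 _ _ _ h1).2.1,
    congrArg sgn (h2 _ _ _ h1).2.2]

theorem ANil_aut (γ : Kx U r → ZMod 2) (u v : Sp (Sl U r)) :
    T.brf (sg chf γ u) (sg chf γ v) = sg chf γ (T.brf u v) := by
  have h0 : ∀ (u : Sp (Sl U r)) i, sg chf γ u i = sgn (chf i.1 γ) * u i := fun _ _ => rfl
  simp only [UD.brf, UD.lbr, map_add, map_sum, map_smul]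
  refine congrArg₂ (· + ·) (Finset.sum_congr rfl fun l _ => Finset.sum_congr rfl fun t _ => ?_)
    (Finset.sum_congr rfl fun g _ => ?_)
  · have h1 : sg chf γ (ev (lS l t, 1)) = sgn (chf (lS l t) γ) • ev (lS l t, 1) := by
      funext i
      rw [h0, Pi.smul_apply, smul_eq_mul, ev, Pi.single_apply]
      split_ifs with e
      · rw [e]
      · rw [mul_zero, mul_zero]
    rw [h1, smul_smul, ← ANil_link]
    refine congrArg (· • _) ?_
    simp only [wd, h0]
    ring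
  · obtain ⟨c₁, c₂, hc⟩ := chv_sG (r := r) g
    have h1 : ∀ a, chf (sG g a : Sl U r) γ =
        (lc a).1 * (∑ k, c₁ k * γ k) + (lc a).2 * ∑ k, c₂ k * γ k := fun a => by
      simp only [chf, AddMonoidHom.mk'_apply, hc, Finset.mul_sum, ← Finset.sum_add_distrib,
        Pi.add_apply, Pi.smul_apply, smul_eq_mul, add_mul, mul_assoc]
    have h2 := gbf_sign (T.Q g)
      (ε := fun p => sgn (p.1 * (∑ k, c₁ k * γ k) + p.2 * ∑ k, c₂ k * γ k))
      (fun a b => by
        rw [← sgn_add, Prod.fst_add, Prod.snd_add]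
        exact congrArg sgn (by ring)) (by simp [sgn]) (rs g u) (rs g v)
    simp only [← h1] at h2
    refine (congrArg (ex g) h2).trans (funext ?_)
    rintro ⟨j | i | ⟨g', i | j | b⟩, c⟩
    iterate 4 exact (mul_zero _).symm
    rw [h0]
    by_cases e : g' = g
    · subst e
      exact (if_pos rfl).trans (congrArg _ (if_pos rfl).symm)
    · exact (if_neg e).trans ((congrArg _ (if_neg e)).trans (mul_zero _)).symm

end

theorem UD.exists_nil {U : Type} {r : ℕ} [Fintype U] [DecidableEq U] (T : UD U r) :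
    ∃ D : Nil (Sl U r) (Kx U r → ZMod 2), T.Is D := by
  obtain ⟨B, hB⟩ := ANil_bil T
  obtain ⟨tau, htau⟩ := exists_tau U r
  have h1 : ∀ j i : Sl U r × Fin 2, ∃ q : ℚ, (Pi.single j 1 : Sp (Sl U r)) i = q := fun j i => by
    rw [Pi.single_apply]
    split_ifs
    exacts [⟨1, by simp⟩, ⟨0, by simp⟩]
  refine ⟨⟨B, levf, chf, tau, fun u v => ?_, fun u v w => ?_, ANil_pos, fun s => (ANil_lev s).2.2,
    fun a b u hu v hv => ?_, fun i j k => ?_, fun g u v => ?_, htau, fun u v w => ?_⟩, hB, rfl⟩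
  · rw [hB, hB, ANil_anti]
  · simp only [hB]
    exact ANil_jac T u v w
  · rw [hB]
    exact ANil_filt T hu hv
  · rw [hB]
    exact ANil_rat T (h1 i) (h1 j) k
  · rw [hB, hB, ANil_aut]
  · simpa only [hB, T.eta_one, omA_apply] using T.eta_clo (1, 0) u v w

end Pool.Agent.Work.MP_bf98aa_gt.Th
end

-- merged part: Pool.Agent.Work.MP_bf98aa_gt.Th.AE1
section
/-!
The moment vectors of the gadgets generate everything as an additive monoid.
-/

set_option autoImplicit false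

open Finset

namespace Pool.Agent.Work.MP_bf98aa_gt.Th

/-- Real and imaginary part of `(1 + i Q) ^ j`. -/
def AE_cp (Q : ℚ) : ℕ → ℚ × ℚ
  | 0 => (1, 0)
  | j + 1 => ((AE_cp Q j).1 - Q * (AE_cp Q j).2, (AE_cp Q j).2 + Q * (AE_cp Q j).1)

/-- The power sums of the gadget eigenvalues. -/
def AE_rho (j : ℕ) (Q : ℚ) : ℚ := (1 + 2 ^ j) * (2 * (AE_cp Q j).1)

theorem AE_cp_eq (Q : ℚ) (j : ℕ) :
    (1 + (Q : ℂ) * Complex.I) ^ j = (AE_cp Q j).1 + (AE_cp Q j).2 * Complex.I ∧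
      (1 - (Q : ℂ) * Complex.I) ^ j = (AE_cp Q j).1 - (AE_cp Q j).2 * Complex.I := by
  induction j with
  | zero => simp [AE_cp]
  | succ j ih =>
    rw [pow_succ, pow_succ, ih.1, ih.2, AE_cp]
    push_cast
    constructor
    · linear_combination (Q * (AE_cp Q j).2 : ℂ) * Complex.I_mul_I
    · linear_combination (Q * (AE_cp Q j).2 : ℂ) * Complex.I_mul_I

/-- The vector `m` is the vector of moments of a finite family. -/
def AE_Mo (m : ℕ → ℚ) : Prop := ∃ (V : Type) (_ : Fintype V) (θ Q : V → ℚ), (∀ v, Q v ≠ 0) ∧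
  ∀ i, m i = ∑ v, AE_rho i (Q v) * θ v ^ i

theorem AE_Mo_zero : AE_Mo 0 :=
  ⟨Empty, inferInstance, Empty.elim, Empty.elim, fun v => v.elim, fun i => by simp⟩

theorem AE_Mo.add {m m' : ℕ → ℚ} (h : AE_Mo m) (h' : AE_Mo m') : AE_Mo (m + m') := by
  obtain ⟨V, _, θ, Q, h1, h2⟩ := h
  obtain ⟨V', _, θ', Q', h1', h2'⟩ := h'
  refine ⟨V ⊕ V', inferInstance, Sum.elim θ θ', Sum.elim Q Q', ?_, fun i => ?_⟩
  · rintro (v | v)
    exacts [h1 v, h1' v]
  · simp [Fintype.sum_sum_type, h2, h2']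

theorem AE_Mo.scale {m : ℕ → ℚ} (h : AE_Mo m) (t : ℚ) : AE_Mo fun i => t ^ i * m i := by
  obtain ⟨V, _, θ, Q, h1, h2⟩ := h
  refine ⟨V, inferInstance, fun v => t * θ v, Q, h1, fun i => ?_⟩
  simp only [h2, mul_sum]
  exact sum_congr rfl fun v _ => by ring

theorem AE_Mo.nsmul {m : ℕ → ℚ} (h : AE_Mo m) (k : ℕ) : AE_Mo fun i => k * m i := by
  induction k with
  | zero => simp only [Nat.cast_zero, zero_mul]; exact AE_Mo_zero
  | succ k ih => simp only [Nat.cast_succ, add_mul, one_mul]; exact ih.add h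

theorem AE_Mo_sum {I : Type} (s : Finset I) {m : I → ℕ → ℚ} (h : ∀ i, AE_Mo (m i)) :
    AE_Mo (∑ i ∈ s, m i) :=
  sum_induction _ _ (fun _ _ => AE_Mo.add) AE_Mo_zero fun i _ => h i

theorem AE_gen {j : ℕ} (hj : 0 < j) {σ : ℚ} (hσ : σ ≠ 0) : ∃ z, AE_Mo z ∧ 0 < σ * z j := by
  obtain ⟨ζ, hζ⟩ := IsAlgClosed.exists_pow_nat_eq (σ : ℂ) hj
  have hD : Dense (Set.range ((↑) : ℚ → ℝ) \ {0}) := Dense.sdiff_singleton Rat.denseRange_cast 0
  have hc : Continuous fun p : ℝ × ℝ => (σ : ℝ) * (((p.1 : ℂ) + p.2 * Complex.I) ^ j).re := by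
    fun_prop
  obtain ⟨p, hp, ⟨⟨x, hx⟩, hx0⟩, ⟨y, hy⟩, hy0⟩ := (hD.prod hD).inter_open_nonempty _
    (isOpen_lt continuous_const hc) ⟨(ζ.re, ζ.im), show (0 : ℝ) < _ by
      rw [Complex.re_add_im, hζ, Complex.ratCast_re]
      exact mul_self_pos.2 (by exact_mod_cast hσ)⟩
  have x0 : x ≠ 0 := fun e => hx0 (by rw [← hx, e]; simp)
  have y0 : y ≠ 0 := fun e => hy0 (by rw [← hy, e]; simp)
  refine ⟨fun i => AE_rho i (y / x) * x ^ i, ⟨Unit, inferInstance, fun _ => x, fun _ => y / x,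
    fun _ => div_ne_zero y0 x0, fun i => by simp⟩, ?_⟩
  have e : ((p.1 : ℂ) + p.2 * Complex.I) ^ j =
      ((x ^ j : ℚ) : ℂ) * (1 + ((y / x : ℚ) : ℂ) * Complex.I) ^ j := by
    have : (x : ℂ) ≠ 0 := by exact_mod_cast x0
    rw [← hx, ← hy, Rat.cast_pow, ← mul_pow]
    push_cast
    field_simp
  have hp' : (0 : ℝ) < σ * (((p.1 : ℂ) + p.2 * Complex.I) ^ j).re := hp
  rw [e, (AE_cp_eq _ j).1] at hp'
  simp only [Complex.mul_re, Complex.add_re, Complex.ratCast_re, Complex.ratCast_im,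
    Complex.I_re, Complex.I_im, mul_zero, zero_mul, sub_zero, add_zero] at hp'
  have h2 : 0 < σ * (x ^ j * (AE_cp (y / x) j).1) := by exact_mod_cast hp'
  have h3 : (0 : ℚ) < (1 + 2 ^ j) * 2 := by positivity
  simp only [AE_rho]
  linarith [mul_pos h3 h2]

theorem AE_cone (n : ℕ) : ∀ c : ℕ → ℚ, ∃ m, AE_Mo m ∧ ∀ i, 1 ≤ i → i ≤ n → m i = c i := by
  induction n with
  | zero => exact fun c => ⟨0, AE_Mo_zero, fun i h1 h2 => by omega⟩
  | succ n ih =>
    have K : ∀ σ : ℚ, σ ≠ 0 → ∃ m, AE_Mo m ∧ (∀ i, 1 ≤ i → i ≤ n → m i = 0) ∧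
        0 < σ * m (n + 1) := fun σ hσ => by
      obtain ⟨z, hz, hz'⟩ := AE_gen (j := n + 1) n.succ_pos hσ
      choose w hw hw' using fun i : ℕ => ih fun i' => if i' = i then -z i else 0
      obtain ⟨q, hq⟩ := exists_nat_gt ((∑ i ∈ Icc 1 n, |σ * w i (n + 1)|) / (σ * z (n + 1)))
      have q0 : (0 : ℚ) < q := lt_of_le_of_lt (by positivity) hq
      have q1 : (1 : ℚ) ≤ q := by exact_mod_cast Nat.succ_le_of_lt (by exact_mod_cast q0)
      refine ⟨z + ∑ i ∈ Icc 1 n, fun i' => ((q ^ i : ℕ) : ℚ) * ((q : ℚ)⁻¹ ^ i' * w i i'),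
        hz.add (AE_Mo_sum _ fun i => ((hw i).scale _).nsmul _), fun i h1 h2 => ?_, ?_⟩
      · simp only [Pi.add_apply, Finset.sum_apply, hw' _ i h1 h2]
        rw [sum_eq_single i (fun b _ hb => by simp [hb.symm]) (by simp [h1, h2])]
        push_cast
        rw [← mul_assoc, ← mul_pow, mul_inv_cancel₀ q0.ne']
        simp
      · simp only [Pi.add_apply, Finset.sum_apply, mul_add, mul_sum]
        have h1 : ∀ i ∈ Icc 1 n, -(|σ * w i (n + 1)| / q) ≤
            σ * (((q ^ i : ℕ) : ℚ) * ((q : ℚ)⁻¹ ^ (n + 1) * w i (n + 1))) := fun i hi => by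
          have a1 : (q : ℚ) ^ i * (q : ℚ)⁻¹ ^ (n + 1) ≤ (q : ℚ)⁻¹ := by
            rw [pow_succ, ← mul_assoc, inv_pow, ← div_eq_mul_inv ((q : ℚ) ^ i)]
            exact mul_le_of_le_one_left (by positivity)
              ((div_le_one (by positivity)).2 (pow_le_pow_right₀ q1 (mem_Icc.1 hi).2))
          have a2 : (0 : ℚ) ≤ (q : ℚ) ^ i * (q : ℚ)⁻¹ ^ (n + 1) := by positivity
          have a3 := mul_le_mul_of_nonneg_left (neg_abs_le (σ * w i (n + 1))) a2
          have a4 := mul_le_mul_of_nonneg_right a1 (abs_nonneg (σ * w i (n + 1)))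
          push_cast
          rw [div_eq_inv_mul]
          linarith
        have h2 := sum_le_sum h1
        rw [sum_neg_distrib, ← sum_div] at h2
        rw [div_lt_iff₀ hz', mul_comm, ← div_lt_iff₀ q0] at hq
        linarith
    have K2 : ∀ d : ℚ, ∃ m, AE_Mo m ∧ (∀ i, 1 ≤ i → i ≤ n → m i = 0) ∧ m (n + 1) = d := fun d => by
      rcases eq_or_ne d 0 with rfl | hd
      · exact ⟨0, AE_Mo_zero, fun _ _ _ => rfl, rfl⟩
      obtain ⟨m, h1, h2, h3⟩ := K d hd
      have m0 : m (n + 1) ≠ 0 := fun e => by simp [e] at h3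
      have h4 : 0 < d / m (n + 1) := div_pos_iff.2 (mul_pos_iff.1 h3)
      have h5 : ((d / m (n + 1)).num.natAbs : ℚ) = d / m (n + 1) * (d / m (n + 1)).den := by
        rw [Rat.mul_den_eq_num, Nat.cast_natAbs, abs_of_pos (Rat.num_pos.2 h4)]
      have h6 : ((d / m (n + 1)).den : ℚ) ≠ 0 := by exact_mod_cast (d / m (n + 1)).den_nz
      refine ⟨_, (h1.scale ((d / m (n + 1)).den : ℚ)⁻¹).nsmul
        ((d / m (n + 1)).num.natAbs * (d / m (n + 1)).den ^ n), fun i a b => by simp [h2 i a b], ?_⟩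
      push_cast
      rw [h5, inv_pow]
      generalize ((d / m (n + 1)).den : ℚ) = u at h6
      field_simp
      ring
    intro c
    obtain ⟨m, h1, h2⟩ := ih c
    obtain ⟨m', h3, h4, h5⟩ := K2 (c (n + 1) - m (n + 1))
    refine ⟨m + m', h1.add h3, fun i a b => ?_⟩
    rcases Nat.lt_or_eq_of_le b with b | rfl
    · rw [Pi.add_apply, h2 i a (by omega), h4 i a (by omega), add_zero]
    · rw [Pi.add_apply, h5, add_sub_cancel]

end Pool.Agent.Work.MP_bf98aa_gt.Th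
end

-- merged part: Pool.Agent.Work.MP_bf98aa_gt.Th.AE2
section
/-!
Polarisation, and families of fixed shape with arbitrary moments.
-/

set_option autoImplicit false

open Finset MvPolynomial

namespace Pool.Agent.Work.MP_bf98aa_gt.Th

/-- The sign of a subset. -/
def AE_sg {j : ℕ} (ε : Fin j → Bool) : ℚ := ∏ t, if ε t then 1 else -1

/-- The sum over a subset. -/
def AE_ss {R : Type} [AddCommMonoid R] {j : ℕ} (ε : Fin j → Bool) (z : Fin j → R) : R :=
  ∑ t, if ε t then z t else 0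

theorem AE_pol (j : ℕ) : ∃ c : ℕ, 0 < c ∧ ∀ z : Fin j → ℝ,
    ∑ ε : Fin j → Bool, (AE_sg ε : ℝ) * AE_ss ε z ^ j = c * ∏ t, z t := by
  classical
  refine ⟨#{f : Fin j → Fin j | Function.Surjective f},
    card_pos.2 ⟨id, mem_filter.2 ⟨mem_univ _, Function.surjective_id⟩⟩, fun z => ?_⟩
  have key : ∀ f : Fin j → Fin j, ∑ ε : Fin j → Bool, (AE_sg ε : ℝ) *
      ∏ i, (if ε (f i) then z (f i) else 0) =
        if Function.Surjective f then ∏ t, z t else 0 := fun f => by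
    have e : ∀ ε : Fin j → Bool, (AE_sg ε : ℝ) * ∏ i, (if ε (f i) then z (f i) else 0) =
        (∏ t, (if ε t then (1 : ℝ) else if t ∈ Set.range f then 0 else -1)) * ∏ i, z (f i) :=
      fun ε => by
        by_cases h : ∀ i, ε (f i) = true
        · simp only [h, if_true, AE_sg, Rat.cast_prod]
          refine congrArg (· * _) (prod_congr rfl fun t _ => ?_)
          by_cases ht : ε t = true
          · simp [ht]
          · rw [if_neg ht, if_neg ht, if_neg fun ⟨i, hi⟩ => ht (hi ▸ h i)]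
            simp
        · obtain ⟨i, hi⟩ := not_forall.1 h
          rw [prod_eq_zero (mem_univ i) (if_neg hi), prod_eq_zero (mem_univ (f i))
            (by rw [if_neg hi, if_pos ⟨i, rfl⟩]), mul_zero, zero_mul]
    simp only [e]
    rw [← sum_mul, ← Fintype.prod_sum
      fun t (b : Bool) => if b then (1 : ℝ) else if t ∈ Set.range f then 0 else -1]
    split_ifs with h
    · rw [prod_eq_one fun t _ => by simp [h t], one_mul]
      exact (Finite.surjective_iff_bijective.1 h).prod_comp z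
    · obtain ⟨t, ht⟩ := not_forall.1 h
      rw [prod_eq_zero (mem_univ t) (by simp [ht]), zero_mul]
  simp only [AE_ss, Fintype.sum_pow, mul_sum]
  rw [sum_comm]
  simp only [key]
  rw [← sum_filter, sum_const, nsmul_eq_mul]

theorem AE_dec {r j : ℕ} {A : Type} [CommRing A] {P : MvPolynomial (Fin r) A}
    (h : P.IsHomogeneous j) :
    ∃ k : (Fin j → Fin r) → A, P = ∑ m, C (k m) * ∏ t, X (m t) := by
  have h1 := (mem_homogeneousSubmodule j P).2 h
  rw [← homogeneousSubmodule_one_pow, homogeneousSubmodule_one_eq_span_X, Submodule.span_pow] at h1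
  have h2 : P ∈ Submodule.span A (Set.range fun m : Fin j → Fin r => ∏ t, (X (m t) :
      MvPolynomial (Fin r) A)) := Submodule.span_mono (fun p hp => by
    obtain ⟨f, rfl⟩ := Set.mem_pow.1 hp
    choose m hm using fun t => (f t).2
    exact ⟨m, by simp only [List.prod_ofFn, hm]⟩) h1
  obtain ⟨k, hk⟩ := (Submodule.mem_span_range_iff_exists_fun A).1 h2
  exact ⟨k, by simp only [← hk, smul_eq_C_mul]⟩

theorem AE_one (n r j : ℕ) : ∃ (U : Type) (_ : Fintype U) (dir : U → Fin r → ℕ) (Q : U → ℚ),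
    (∀ g, Q g ≠ 0) ∧ ∀ (A : Type) [CommRing A] [Algebra ℚ A] (P : MvPolynomial (Fin r) A),
      P.IsHomogeneous (j + 1) → ∃ θ : U → A, ∀ (ψ : A →+* ℝ) (y : Fin r → ℝ) (i : ℕ), 1 ≤ i →
        i ≤ n → ∑ g, (AE_rho i (Q g) : ℝ) * (ψ (θ g) * ∑ l, (dir g l : ℝ) * y l) ^ i =
          if i = j + 1 then eval₂ ψ y P else 0 := by
  obtain ⟨c, c0, hc⟩ := AE_pol (j + 1)
  choose m hm hm' using fun e : (Fin (j + 1) → Bool) × (Fin (j + 1) → Bool) =>
    AE_cone n fun i => if i = j + 1 then AE_sg e.1 * AE_sg e.2 / c ^ 2 else 0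
  choose V hV θ₀ Q hQ hθ using hm
  refine ⟨(Fin (j + 1) → Fin r) × Σ e, V e, inferInstance,
    fun g l => AE_ss g.2.1.1 fun t => (Pi.single (g.1 t) 1 : Fin r → ℕ) l, fun g => Q _ g.2.2, fun g => hQ _ _,
    fun A _ _ P hP => ?_⟩
  obtain ⟨k, rfl⟩ := AE_dec hP
  refine ⟨fun g => algebraMap ℚ A (θ₀ _ g.2.2) *
    AE_ss g.2.1.2 (Fin.cons (k g.1) 1 : Fin (j + 1) → A),
    fun ψ y i h1 h2 => ?_⟩
  have e1 : ∀ q : ℚ, ψ (algebraMap ℚ A q) = q := fun q => eq_ratCast (ψ.comp (algebraMap ℚ A)) q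
  have e2 : ∀ (ε : Fin (j + 1) → Bool) (μ : Fin (j + 1) → Fin r),
      ∑ l, ((AE_ss ε fun t => (Pi.single (μ t) 1 : Fin r → ℕ) l : ℕ) : ℝ) * y l =
        AE_ss ε fun t => y (μ t) := fun ε μ => by
    simp only [AE_ss, Nat.cast_sum, sum_mul]
    rw [sum_comm]
    exact sum_congr rfl fun t _ => by by_cases h : ε t = true <;> simp [h, Pi.single_apply]
  have e4 : ∀ (ε : Fin (j + 1) → Bool) (z : Fin (j + 1) → A),
      ψ (AE_ss ε z) = AE_ss ε fun t => ψ (z t) := fun ε z => by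
    simp only [AE_ss, map_sum, apply_ite ψ, map_zero]
  have e3 : ∀ e (a b : ℝ), ∑ v : V e, (AE_rho i (Q e v) : ℝ) * (θ₀ e v * a * b) ^ i =
      if i = j + 1 then (AE_sg e.1 * b ^ (j + 1)) * (AE_sg e.2 * a ^ (j + 1)) / c ^ 2 else 0 :=
    fun e a b => by
      have h := congrArg (fun q : ℚ => (q : ℝ) * (a * b) ^ i) ((hθ e i).symm.trans (hm' e i h1 h2))
      simp only [Rat.cast_sum, sum_mul] at h
      refine (sum_congr rfl fun v _ => by push_cast; ring).trans (h.trans ?_)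
      split_ifs with hi
      · rw [hi]; push_cast; ring
      · simp
  rw [Fintype.sum_prod_type]
  simp only [Fintype.sum_sigma, map_mul, e1, e2, e3, e4]
  split_ifs with hi
  · rw [eval₂_sum]
    refine sum_congr rfl fun μ _ => ?_
    simp only [Fintype.sum_prod_type, ← sum_div, ← mul_sum, ← sum_mul]
    rw [hc fun t => y (μ t), hc fun t => ψ ((Fin.cons (k μ) 1 : Fin (j + 1) → A) t)]
    have : (c : ℝ) ≠ 0 := by exact_mod_cast c0.ne'
    simp only [eval₂_mul, eval₂_C, eval₂_prod, eval₂_X, Fin.prod_univ_succ, Fin.cons_zero,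
      Fin.cons_succ, Pi.one_apply, map_one, prod_const_one]
    field_simp
  · simp

theorem AE_moments (n r : ℕ) : ∃ (U : Type) (_ : Fintype U) (dir : U → Fin r → ℕ) (Q : U → ℚ),
    (∀ g, Q g ≠ 0) ∧ n ≤ Fintype.card U ∧ ∀ (A : Type) [CommRing A] [Algebra ℚ A]
      (P : ℕ → MvPolynomial (Fin r) A), (∀ j, (P j).IsHomogeneous j) → ∃ θ : U → A,
      ∀ (ψ : A →+* ℝ) (y : Fin r → ℝ) (i : ℕ), 1 ≤ i → i ≤ n →
        ∑ g, (AE_rho i (Q g) : ℝ) * (ψ (θ g) * ∑ l, (dir g l : ℝ) * y l) ^ i =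
          eval₂ ψ y (P i) := by
  choose U hU dir Q hQ h using fun j : Fin n => AE_one n r j
  refine ⟨(Σ j, U j) ⊕ Fin n, inferInstance, Sum.elim (fun g => dir _ g.2) 0,
    Sum.elim (fun g => Q _ g.2) 1, ?_, by simp, fun A _ _ P hP => ?_⟩
  · rintro (g | g)
    exacts [hQ _ _, one_ne_zero]
  choose θ hθ using fun j : Fin n => h j A (P (j + 1)) (hP _)
  refine ⟨Sum.elim (fun g => θ _ g.2) 0, fun ψ y i h1 h2 => ?_⟩
  simp only [Fintype.sum_sum_type, Fintype.sum_sigma, Sum.elim_inl, Sum.elim_inr, hθ _ ψ y i h1 h2]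
  rw [sum_eq_single (⟨i - 1, by omega⟩ : Fin n) (fun j _ hj => if_neg fun e => hj (Fin.ext (by
    simp [e]))) (by simp), if_pos (by simp; omega), show i - 1 + 1 = i by omega]
  simp [show i ≠ 0 by omega]

end Pool.Agent.Work.MP_bf98aa_gt.Th
end

-- merged part: Pool.Agent.Work.MP_bf98aa_gt.Th.AE3
section
/-!
Newton identities, shift of elementary symmetric functions, Taylor expansion of a form.
-/

set_option autoImplicit false

open Finset MvPolynomial

namespace Pool.Agent.Work.MP_bf98aa_gt.Th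

/-- The power sums that belong to given elementary symmetric functions. -/
def AE_nP {B : Type} [CommRing B] (E : ℕ → B) (k : ℕ) : B :=
  (-1) ^ (k + 1) * k * E k - ∑ a ∈ ((antidiagonal k).filter fun a => a.1 ∈ Set.Ioo 0 k).attach,
    (-1) ^ a.1.1 * E a.1.1 * AE_nP E a.1.2
decreasing_by
  have h := mem_filter.1 a.2
  have h1 := mem_antidiagonal.1 h.1
  have h2 := h.2.1
  omega

theorem AE_nP_eq {B : Type} [CommRing B] (E : ℕ → B) (k : ℕ) : AE_nP E k =
    (-1) ^ (k + 1) * k * E k - ∑ a ∈ antidiagonal k with a.1 ∈ Set.Ioo 0 k,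
      (-1) ^ a.1 * E a.1 * AE_nP E a.2 := by
  rw [AE_nP, sum_attach _ fun a : ℕ × ℕ => (-1) ^ a.1 * E a.1 * AE_nP E a.2]

theorem AE_nP_hom {r : ℕ} {A : Type} [CommRing A] {E : ℕ → MvPolynomial (Fin r) A}
    (h : ∀ j, (E j).IsHomogeneous j) (k : ℕ) : (AE_nP E k).IsHomogeneous k := by
  have c : ∀ (a : ℕ) {j : ℕ} {p : MvPolynomial (Fin r) A}, p.IsHomogeneous j →
      ((-1) ^ a * p).IsHomogeneous j := fun a j p hp => by
    simpa using hp.C_mul ((-1) ^ a)
  induction k using Nat.strong_induction_on with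
  | _ k ih =>
    rw [AE_nP_eq, mul_assoc]
    refine (c _ (by simpa using (h k).C_mul k)).sub (IsHomogeneous.sum _ _ _ fun a ha => ?_)
    have h0 := mem_filter.1 ha
    have h1 := mem_antidiagonal.1 h0.1
    have h2 := h0.2.1
    exact h1 ▸ (c _ (h _)).mul (ih _ (by omega))

theorem AE_newton {S B : Type} [Fintype S] [CommRing B] (E : ℕ → B) (φ : B →+* ℂ) (f : S → ℂ)
    (n : ℕ) (h : ∀ k, 1 ≤ k → k ≤ n → ∑ s, f s ^ k = φ (AE_nP E k)) (k : ℕ) (h1 : 1 ≤ k)
    (h2 : k ≤ n) : es k f = φ (E k) := by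
  induction k using Nat.strong_induction_on with
  | _ k ih =>
    have e := congrArg (aeval f) (psum_eq_mul_esymm_sub_sum S ℂ k h1)
    have e1 : ∀ j, aeval f (esymm S ℂ j) = es j f := fun j => by simp [esymm, es]
    have e2 : ∀ j, aeval f (psum S ℂ j) = ∑ s, f s ^ j := fun j => by simp [psum]
    simp only [map_sub, map_mul, map_sum, map_pow, map_neg, map_one, map_natCast, e1, e2] at e
    rw [h k h1 h2, AE_nP_eq] at e
    simp only [map_sub, map_mul, map_sum, map_pow, map_neg, map_one, map_natCast] at e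
    rw [sum_congr rfl fun a ha => ?_, sub_left_inj] at e
    · exact (mul_left_cancel₀ (mul_ne_zero (pow_ne_zero _ (by norm_num))
        (Nat.cast_ne_zero.2 (by omega))) e).symm
    · have h0 := mem_filter.1 ha
      have h3 := mem_antidiagonal.1 h0.1
      have h4 := h0.2.1
      have h5 := h0.2.2
      rw [ih a.1 h5 h4 (by omega), h a.2 (by omega) (by omega)]

theorem AE_shift {S : Type} [Fintype S] {n : ℕ} (hn : n ≤ Fintype.card S) (t : ℂ) (f : S → ℂ) :
    es n (fun s => t + f s) = ∑ j ∈ range (n + 1),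
      ((Fintype.card S - j).choose (Fintype.card S - n) : ℂ) * t ^ (n - j) * es j f := by
  have e1 := prod_X_add_C_coeff univ (fun s => t + f s) (Nat.sub_le #(univ : Finset S) n)
  have e2 : ∏ s, (Polynomial.X + Polynomial.C (t + f s)) =
      (∏ s, (Polynomial.X + Polynomial.C (f s))).comp (Polynomial.X + Polynomial.C t) := by
    simp [Polynomial.prod_comp, add_assoc]
  have e3 := Multiset.prod_X_add_C_eq_sum_esymm (univ.val.map f)
  rw [Multiset.map_map, Multiset.card_map] at e3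
  rw [card_univ, Nat.sub_sub_self hn, e2, show ∏ s, (Polynomial.X + Polynomial.C (f s)) = _ from e3]
    at e1
  refine e1.symm.trans ?_
  simp only [Polynomial.sum_comp, Polynomial.mul_comp, Polynomial.C_comp, Polynomial.pow_comp,
    Polynomial.X_comp, Polynomial.finsetSum_coeff, Polynomial.coeff_C_mul,
    Polynomial.coeff_X_add_C_pow, esymm_map_val, card_val, card_univ]
  rw [← sum_subset (range_mono (Nat.succ_le_succ hn)) fun j h1 h2 => by
    rw [Nat.choose_eq_zero_of_lt (by simp at h1 h2; omega)]; simp]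
  refine sum_congr rfl fun j hj => ?_
  rw [show Fintype.card S - j - (Fintype.card S - n) = n - j by simp at hj; omega, es]
  ring

theorem AE_map {B σ : Type} [CommRing B] [Algebra ℚ B] (φ : B →+* ℝ) (g : σ → B)
    (μ : MvPolynomial σ ℚ) : φ (aeval g μ) = aeval (fun i => φ (g i)) μ := by
  rw [map_aeval, aeval_eq_eval₂Hom, Subsingleton.elim (φ.comp _) (algebraMap ℚ ℝ)]

theorem AE_tay {n r : ℕ} {μ : MvPolynomial (Fin (r + 1)) ℚ} (hμ : μ.IsHomogeneous n)
    (i₀ : Fin (r + 1)) {A : Type} [CommRing A] [Algebra ℚ A] (b : Fin (r + 1) → A) :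
    ∃ E : ℕ → MvPolynomial (Fin r) A, (∀ j, (E j).IsHomogeneous j) ∧
      ∀ (ψ : A →+* ℝ) (s : ℝ) (y : Fin r → ℝ),
        aeval (fun i => s * ψ (b i) + (i₀.insertNth 0 y : Fin (r + 1) → ℝ) i) μ =
          ∑ j ∈ range n, s ^ (n - (j + 1)) * eval₂ ψ y (E (j + 1)) +
            s ^ n * aeval (fun i => ψ (b i)) μ := by
  obtain ⟨ν, hν⟩ : ∃ ν : MvPolynomial (Fin (r + 1)) A, ν = aeval (fun i => C (b i) * X 0 +
    (i₀.insertNth 0 fun l => X l.succ : Fin (r + 1) → MvPolynomial (Fin (r + 1)) A) i) μ := ⟨_, rfl⟩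
  have h1 : ν.IsHomogeneous n := by
    rw [hν, ← one_mul n]
    refine hμ.aeval _ fun i => (isHomogeneous_C_mul_X _ _).add ?_
    induction i using i₀.succAboveCases
    · simpa using isHomogeneous_zero _ _ _
    · simpa using isHomogeneous_X _ _
  have h2 : ∀ j, (if j ≤ n then (finSuccEquiv A r ν).coeff (n - j) else 0).IsHomogeneous j :=
    fun j => by
      split_ifs with h
      exacts [h1.finSuccEquiv_coeff_isHomogeneous _ _ (by omega), isHomogeneous_zero _ _ _]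
  have h3 : ∀ (ψ : A →+* ℝ) (s : ℝ) (y : Fin r → ℝ),
      aeval (fun i => s * ψ (b i) + (i₀.insertNth 0 y : Fin (r + 1) → ℝ) i) μ =
        ∑ j ∈ range (n + 1), s ^ (n - j) *
          eval₂ ψ y (if j ≤ n then (finSuccEquiv A r ν).coeff (n - j) else 0) := fun ψ s y => by
    have e : (Polynomial.eval₂RingHom (eval₂Hom ψ y) s).comp (finSuccEquiv A r).toRingHom =
        eval₂Hom ψ (Fin.cons s y) := ringHom_ext (fun a => by simp [finSuccEquiv_apply]) fun i => by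
      induction i using Fin.cases <;> simp [finSuccEquiv_X_zero, finSuccEquiv_X_succ]
    have e1 : Polynomial.eval₂ (eval₂Hom ψ y) s (finSuccEquiv A r ν) =
        eval₂Hom ψ (Fin.cons s y) ν := RingHom.congr_fun e ν
    rw [Polynomial.eval₂_eq_sum_range' _ (n := n + 1) (by
      rw [natDegree_finSuccEquiv]
      exact Nat.lt_succ_of_le ((degreeOf_le_totalDegree _ _).trans h1.totalDegree_le)),
      ← sum_range_reflect] at e1
    refine Eq.trans ?_ (e1.symm.trans (sum_congr rfl fun j hj => ?_))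
    · rw [hν, AE_map]
      refine congrArg (fun g => aeval g μ) (funext fun i => ?_)
      induction i using i₀.succAboveCases <;> simp [mul_comm]
    · rw [if_pos (by simp at hj; omega), mul_comm]
      rfl
  refine ⟨_, h2, fun ψ s y => ?_⟩
  have h4 := h3 ψ 1 0
  obtain ⟨k, hk⟩ := AE_dec (h2 0)
  rw [sum_range_succ', sum_eq_zero fun j _ => by
    obtain ⟨k, hk⟩ := AE_dec (h2 (j + 1))
    rw [hk]
    simp, hk] at h4
  rw [h3, sum_range_succ', hk]
  simp only [Fin.insertNth_zero_right, Pi.single_zero, Pi.zero_apply, add_zero, one_mul] at h4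
  simp [h4]

end Pool.Agent.Work.MP_bf98aa_gt.Th
end

-- merged part: Pool.Agent.Work.MP_bf98aa_gt.Th.AEig
section
/-!
Prescribing the elementary symmetric function of the eigenvalues.

PLAN (section 2 of the write-up). (1) cone lemma: the vectors `(θ ^ j * ρ j Q) (1 ≤ j ≤ n)`, `θ, Q` rational, `Q ≠ 0`,
`ρ j Q = (1 + 2 ^ j) * ((1 + i Q) ^ j + (1 - i Q) ^ j)`, generate `ℚ ^ n` as a cone, so for each `j` and sign a finite family has moments
`± N j * δ i j`. (2) `moments`: a family of fixed shape `U, dir, Q` with `n ≤ card U` such that for every commutative `ℚ`-algebra `A` and homogeneous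
`P j : MvPolynomial (Fin r) A` there is `θ : U → A` with `∑ g, ρ j (Q g) * (θ g * ∑ i, dir g i * X i) ^ j = P j` for `1 ≤ j ≤ n` (polarisation).
(3) Newton identities (`MvPolynomial.psum_eq_mul_esymm_sub_sum`): power sums determine the `es j`. (4) `es n (t + f) = ∑ j, choose (m - j) (n - j) * t ^ (n - j) * es j f`.
(5) `A` = functions of `a'` that are continuous at `a` and rational at rational points; `x = s • a' + ∑ y i • e (i₀.succAbove i)`; take `a'` rational close to `a`.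
-/

set_option autoImplicit false

open Finset MvPolynomial Filter Topology

namespace Pool.Agent.Work.MP_bf98aa_gt.Th

theorem AE_val {U : Type} {r : ℕ} (T : UD U r) (s : Sl U r) :
    ∃ v : (U → ℝ) × (Fin r → ℝ) → ℝ, Continuous v ∧ (∀ θ, v (θ, 0) = 0) ∧
      ∀ (th : U → ℚ) (y : Fin r → ℝ), UD.val { T with th := th } y s = v (fun g => th g, y) := by
  have c : ∀ g i, Continuous (T.ell g i) := fun g i => continuous_finsetSum _ fun j _ => by
    split_ifs <;> fun_prop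
  have z : ∀ g i, T.ell g i 0 = 0 := fun g i => by simp [UD.ell]
  rcases s with j | i | ⟨g, i | j | a⟩
  · exact ⟨0, continuous_const, fun _ => rfl, fun _ _ => rfl⟩
  · exact ⟨fun p => p.2 i, by fun_prop, fun _ => rfl, fun _ _ => rfl⟩
  · exact ⟨fun p => T.ell g i p.2 / T.AA g i, ((c g i).comp continuous_snd).div_const _,
      fun _ => by simp [z], fun _ _ => rfl⟩
  · exact ⟨0, continuous_const, fun _ => rfl, fun _ _ => rfl⟩
  · exact ⟨fun p => p.1 g * T.ell g (Fin.last r) p.2 * gA a, (Continuous.mul (by fun_prop)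
      ((c g _).comp continuous_snd)).mul continuous_const, fun _ => by simp [z], fun _ _ => rfl⟩

theorem AE_pow {U : Type} [Fintype U] {r : ℕ} (T : UD U r) (x : ℝ × (Fin r → ℝ)) {j : ℕ}
    (hj : 1 ≤ j) : ∑ s, ((T.val x.2 s : ℂ) + (T.bef x s : ℂ) * Complex.I) ^ j =
      ((∑ i, x.2 i ^ j + ∑ g, ∑ i, (T.ell g i x.2 / T.AA g i) ^ j +
        ∑ g, (AE_rho j (T.Q g) : ℝ) * (T.th g * ∑ l, (T.dir g l : ℝ) * x.2 l) ^ j : ℝ) : ℂ) := by
  have e : ∀ g, T.ell g (Fin.last r) x.2 = ∑ l, (T.dir g l : ℝ) * x.2 l := fun g => by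
    simp [UD.ell]
  simp only [Fintype.sum_sum_type, Fintype.sum_prod_type, UD.val, UD.bef, ← e, sum_add_distrib,
    Complex.ofReal_zero, zero_mul, add_zero, zero_pow (show j ≠ 0 by omega), sum_const_zero,
    zero_add]
  push_cast
  rw [add_assoc]
  refine congrArg _ (congrArg _ (sum_congr rfl fun g _ => ?_))
  generalize (T.ell g (Fin.last r) x.2 : ℂ) = u
  obtain ⟨h1, h2⟩ := AE_cp_eq (T.Q g) j
  have a : ∀ c d : ℂ, (T.th g * u * c + T.Q g * T.th g * u * (c * d) * Complex.I) ^ j =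
      c ^ j * (T.th g * u) ^ j * (1 + d * (T.Q g * Complex.I)) ^ j := fun c d => by
    rw [← mul_pow, ← mul_pow]
    exact congrArg (· ^ j) (by ring)
  have a1 := a 1 1
  have a2 := a 1 (-1)
  have a3 := a 2 1
  have a4 := a 2 (-1)
  simp only [one_mul, mul_one, neg_mul, mul_neg, ← sub_eq_add_neg, h1, h2, one_pow] at a1 a2 a3 a4
  simp [Fin.sum_univ_seven, gA, gB, AE_rho, ← sub_eq_add_neg, a1, a2, a3, a4,
    zero_pow (show j ≠ 0 by omega)]
  ring

/-- Coordinates adapted to the vector `b`. -/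
noncomputable def AE_Phi {r : ℕ} (i₀ : Fin (r + 1)) (b : Fin (r + 1) → ℝ) (hb : b i₀ ≠ 0) :
    (Fin (r + 1) → ℝ) ≃ₗ[ℝ] ℝ × (Fin r → ℝ) where
  toFun x := (x i₀ / b i₀, fun l => x (i₀.succAbove l) - x i₀ / b i₀ * b (i₀.succAbove l))
  invFun p i := p.1 * b i + (i₀.insertNth 0 p.2 : Fin (r + 1) → ℝ) i
  map_add' x x' := Prod.ext (add_div _ _ _) (funext fun l => by simp; ring)
  map_smul' c x := Prod.ext (mul_div_assoc _ _ _) (funext fun l => by simp; ring)
  left_inv x := funext fun i => by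
    induction i using i₀.succAboveCases <;> simp [hb]
  right_inv p := Prod.ext (by simp [hb]) (funext fun l => by simp [hb])

theorem eigen (n r : ℕ) (hn : 1 ≤ n) (μ : MvPolynomial (Fin (r + 1)) ℚ) (hμ : μ.IsHomogeneous n)
    (a : Fin (r + 1) → ℝ) (ha : 0 < MvPolynomial.aeval a μ) :
    ∃ (U : Type) (_ : Fintype U) (_ : DecidableEq U) (T : UD U r)
      (Φ : (Fin (r + 1) → ℝ) ≃ₗ[ℝ] ℝ × (Fin r → ℝ)) (C : ℝ), C ≠ 0 ∧ n ≤ Fintype.card U ∧
      (∀ s, 0 < T.alf (Φ a) s) ∧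
      ∀ x, es n (fun s => (T.alf (Φ x) s : ℂ) + (T.bef (Φ x) s : ℂ) * Complex.I) =
        ((C * MvPolynomial.aeval x μ : ℝ) : ℂ) := by
  classical
  obtain ⟨U, _, dir, Q, hQ, hU, hm⟩ := AE_moments n r
  obtain ⟨i₀, hi₀⟩ : ∃ i, a i ≠ 0 := by
    by_contra! h
    obtain ⟨n, rfl⟩ := Nat.exists_eq_add_of_le' hn
    obtain ⟨k, rfl⟩ := AE_dec hμ
    simp [h] at ha
  have hS : n ≤ Fintype.card (Sl U r) := hU.trans (Fintype.card_le_of_injective (sZ · 0)
    fun g g' e => by simpa using e)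
  obtain ⟨m, hm'⟩ : ∃ m, m = Fintype.card (Sl U r) := ⟨_, rfl⟩
  let A := MvPolynomial (Option (Fin (r + 1))) ℚ
  let T₀ : UD U r := ⟨dir, Q, 0, hQ⟩
  obtain ⟨E, hE, hE'⟩ := AE_tay hμ i₀ fun i => (X (some i) : A)
  let E' : ℕ → MvPolynomial (Fin r) A := fun j =>
    C (algebraMap ℚ A (m.choose (m - n) / (m - j).choose (m - n)) * X none) * E j
  let c : ℕ → MvPolynomial (Fin r) A := fun j => ∑ i, X i ^ j + ∑ g, ∑ i,
    (C (algebraMap ℚ A (T₀.AA g i)⁻¹) *
      ∑ l : Fin r, if (l : ℕ) < i then C (dir g l : A) * X l else 0) ^ j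
  have hp : ∀ (p : MvPolynomial (Fin r) A) (j : ℕ), p.IsHomogeneous 1 → (p ^ j).IsHomogeneous j :=
    fun p j h => by simpa only [one_mul] using h.pow j
  obtain ⟨θ, hθ⟩ := hm A (fun j => AE_nP E' j - c j) fun j =>
    (AE_nP_hom (fun j => (hE j).C_mul _) j).sub ((IsHomogeneous.sum _ _ _ fun i _ =>
      isHomogeneous_X_pow _ _).add (IsHomogeneous.sum _ _ _ fun g _ => IsHomogeneous.sum _ _ _
        fun i _ => hp _ j ((IsHomogeneous.sum _ _ _ fun l _ => by
          split_ifs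
          exacts [isHomogeneous_C_mul_X _ _, isHomogeneous_zero _ _ _]).C_mul _)))
  let ψ : (Fin (r + 1) → ℝ) → A →+* ℝ := fun b =>
    (aeval fun o : Option (Fin (r + 1)) => o.elim (aeval b μ)⁻¹ b).toRingHom
  have ca : ∀ {σ : Type} (p : MvPolynomial σ ℚ), Continuous fun b : σ → ℝ => aeval b p :=
    fun p => by simpa only [aeval_def, eval₂_eq_eval_map] using MvPolynomial.continuous_eval _
  have cψ : ∀ p, ContinuousAt (fun b => ψ b p) a := fun p =>
    (ca p).continuousAt.comp (continuousAt_pi.2 fun o => by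
      cases o
      exacts [(ca μ).continuousAt.inv₀ ha.ne', continuousAt_apply _ _])
  choose v hv hv0 hv1 using AE_val T₀
  have c0 : ContinuousAt (fun b : Fin (r + 1) → ℝ => a i₀ / b i₀) a :=
    continuousAt_const.div (continuousAt_apply _ _) hi₀
  have ev : ∀ᶠ b in 𝓝 a, b i₀ ≠ 0 ∧ 0 < aeval b μ ∧ ∀ s, 0 < a i₀ / b i₀ + v s (fun g => ψ b (θ g),
      fun l => a (i₀.succAbove l) - a i₀ / b i₀ * b (i₀.succAbove l)) := by
    refine ((continuousAt_apply _ _).eventually_ne hi₀).and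
      (((ca μ).continuousAt.eventually (lt_mem_nhds ha)).and (eventually_all.2 fun s => ?_))
    refine (c0.add ((hv s).continuousAt.comp ((continuousAt_pi.2 fun g => cψ _).prodMk
      (continuousAt_pi.2 fun l => continuousAt_const.sub
        (c0.mul (continuousAt_apply _ _)))))).eventually (lt_mem_nhds ?_)
    simp [hi₀, ← Pi.zero_def, hv0]
  obtain ⟨q, q1, q2, q3⟩ := (DenseRange.piMap fun _ : Fin (r + 1) =>
    (Rat.denseRange_cast (𝕜 := ℝ))).mem_nhds ev
  generalize hb : Pi.map (fun _ => ((↑) : ℚ → ℝ)) q = b at q1 q2 q3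
  let T : UD U r :=
    { T₀ with th := fun g => aeval (fun o : Option (Fin (r + 1)) => o.elim (aeval q μ)⁻¹ q) (θ g) }
  have e0 : ∀ g, (T.th g : ℝ) = ψ b (θ g) := fun g => by
    refine (AE_map (algebraMap ℚ ℝ) _ _).trans (congrArg (aeval · (θ g)) (funext fun o => ?_))
    cases o
    · exact (map_inv₀ _ _).trans (congrArg _ ((AE_map _ _ _).trans (hb ▸ rfl)))
    · exact hb ▸ rfl
  have e1 : ∀ q : ℚ, ψ b (algebraMap ℚ A q) = q := fun q =>
    eq_ratCast ((ψ b).comp (algebraMap ℚ A)) q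
  have e2 : ∀ o, ψ b (X o) = o.elim (aeval b μ)⁻¹ b := fun o => aeval_X _ _
  have m0 : ∀ j ≤ n, (((m - j).choose (m - n) : ℕ) : ℝ) ≠ 0 := fun j hj =>
    Nat.cast_ne_zero.2 (Nat.choose_pos (by omega)).ne'
  refine ⟨U, inferInstance, inferInstance, T, AE_Phi i₀ b q1, m.choose (m - n) / aeval b μ,
    div_ne_zero (m0 0 n.zero_le) q2.ne', hU, fun s => ?_, fun x => ?_⟩
  · refine (q3 s).trans_eq (congrArg _ ?_)
    rw [← funext e0]
    exact (hv1 s _ _).symm
  obtain ⟨p, rfl⟩ := (AE_Phi i₀ b q1).symm.surjective x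
  have hN := AE_newton E' (Complex.ofRealHom.comp (eval₂Hom (ψ b) p.2))
    (fun s => (T.val p.2 s : ℂ) + (T.bef p s : ℂ) * Complex.I) n fun k h1 h2 => by
      have e := hθ (ψ b) p.2 k h1 h2
      rw [eval₂_sub, eq_sub_iff_add_eq'] at e
      rw [AE_pow T p h1]
      refine congrArg Complex.ofReal (Eq.trans ?_ e)
      simp only [e0]
      refine congrArg (· + _) ?_
      rw [← coe_eval₂Hom]
      simp only [c, map_add, map_sum, map_pow, map_mul, eval₂Hom_X', eval₂Hom_C, e1,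
        apply_ite (eval₂Hom (ψ b) p.2), map_zero, map_natCast, Rat.cast_inv, div_eq_inv_mul]
      rfl
  have hT := hE' (ψ b) p.1 p.2
  simp only [e2, Option.elim_some] at hT
  rw [LinearEquiv.apply_symm_apply, show aeval ((AE_Phi i₀ b q1).symm p) μ = _ from hT]
  simp only [UD.alf, Complex.ofReal_add, add_assoc]
  rw [AE_shift hS, ← hm', sum_range_succ', mul_add, mul_sum, Complex.ofReal_add, Complex.ofReal_sum]
  refine congrArg₂ _ (sum_congr rfl fun j hj => ?_) ?_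
  · have hj' : j + 1 ≤ n := mem_range.1 hj
    have := m0 _ hj'
    rw [hN _ (by omega) hj']
    simp only [E', RingHom.comp_apply, map_mul, eval₂Hom_C, e1, e2, Option.elim_none,
      Complex.ofRealHom_eq_coe, coe_eval₂Hom]
    norm_cast
    push_cast
    field_simp
  · rw [show es 0 _ = 1 by simp [es]]
    norm_cast
    have := q2.ne'
    simp only [Nat.sub_zero]
    field_simp

end Pool.Agent.Work.MP_bf98aa_gt.Th
end

-- merged part: Pool.Agent.Work.MP_bf98aa_gt.Th.AMain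
section
/-!
The algebraic model.

PLAN. `r = 0` is impossible (a homogeneous polynomial of positive degree in no variables is zero). For `r + 1` take `U, T, Φ, C` from `eigen`, `D` from `exists_nil`,
`n' = card (Sl U r) - n` (`n ≤ card U ≤ card (Sl U r)`), `e` from `Fintype.equivOfCardEq`, `η = L ∘ Φ` (`exists_etaL`); `Is.rigid`, `Is.uniq` with `EX.sub`;
`etaA_tame`; `pf_eta`, `pf_omA` and `Nat.choose_pos` give the constant.
-/

set_option autoImplicit false

namespace Pool.Agent.Work.MP_bf98aa_gt.Th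

theorem alg_main (n r : ℕ) (hn : 1 ≤ n) (μ : MvPolynomial (Fin r) ℚ) (hμ : μ.IsHomogeneous n)
    (a : Fin r → ℝ) (ha : 0 < MvPolynomial.aeval a μ) :
    ∃ (S G : Type) (_ : Fintype S) (_ : DecidableEq S) (_ : AddCommGroup G) (_ : Fintype G)
      (D : Nil S G) (n' : ℕ) (e : Fin n ⊕ Fin n' ≃ S) (η : (Fin r → ℝ) →ₗ[ℝ] Alt (Sp S) 2) (C : ℝ),
      D.H1 ∧ (∀ x, D.GI (η x) ∧ D.CE2 (η x)) ∧
      (∀ w, D.GI w → D.CE2 w → ∃! x, D.EX (w - η x)) ∧ (∀ v, v ≠ 0 → 0 < η a ![v, Jv v]) ∧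
      C ≠ 0 ∧ ∀ x, pf (fam e (η x) fun _ => omA) = C * MvPolynomial.aeval x μ := by
  cases r with
  | zero =>
    rw [MvPolynomial.eq_C_of_isEmpty μ, hμ.coeff_eq_zero (by rw [map_zero]; omega), map_zero,
      map_zero] at ha
    exact absurd ha (lt_irrefl _)
  | succ r =>
    obtain ⟨U, _, _, T, Φ, C, hC, hU, hpos, hes⟩ := eigen n r hn μ hμ a ha
    obtain ⟨D, hD⟩ := T.exists_nil
    obtain ⟨L, hL⟩ := T.exists_etaL
    have hc : n ≤ Fintype.card (Sl U r) := hU.trans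
      (Fintype.card_le_of_injective (fun g : U => (sP g 0 : Sl U r)) fun g g' h =>
        congrArg Prod.fst (Sum.inr.inj (Sum.inr.inj h)))
    obtain ⟨n', hn'⟩ := Nat.exists_eq_add_of_le hc
    have e : Fin n ⊕ Fin n' ≃ Sl U r := Fintype.equivOfCardEq (by
      rw [hn', Fintype.card_sum, Fintype.card_fin, Fintype.card_fin])
    have hη : ∀ x, (L ∘ₗ Φ.toLinearMap) x = T.eta (Φ x) := fun x => (hL _).symm
    have h0 : (((n + n').choose n : ℕ) : ℝ) ≠ 0 :=
      Nat.cast_ne_zero.2 (Nat.choose_pos (Nat.le_add_right n n')).ne'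
    refine ⟨Sl U r, Kx U r → ZMod 2, inferInstance, inferInstance, inferInstance, inferInstance, D,
      n', e, L ∘ₗ Φ.toLinearMap,
      (pf fun _ : Sl U r => (omA : Alt (Sp (Sl U r)) 2)) * C / ((n + n').choose n : ℕ), hD.H1,
      fun x => ?_, fun w hi hc => ?_, fun v hv => ?_,
      div_ne_zero (mul_ne_zero pf_omA.ne' hC) h0, fun x => ?_⟩
    · rw [hη]
      exact ⟨hD.GI_eta _, hD.CE2_eta _⟩
    · obtain ⟨y, hy⟩ := hD.rigid hi hc
      refine ⟨Φ.symm y, ?_, fun x hx => ?_⟩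
      · show D.EX (w - (L ∘ₗ Φ.toLinearMap) _)
        rwa [hη, Φ.apply_symm_apply]
      · have k := hy.sub (show D.EX (w - T.eta (Φ x)) from hη x ▸ hx)
        rw [sub_sub_sub_cancel_left] at k
        rw [← hD.uniq k, Φ.symm_apply_apply]
    · rw [hη]
      exact etaA_tame pif_pif (T.bef_pif _) hpos hv
    · have k := pf_eta e pif_pif (T.alf_pif (Φ x)) (T.bef_pif (Φ x))
      rw [hes, ← Complex.ofReal_mul, Complex.ofReal_inj] at k
      rw [hη, div_mul_eq_mul_div, eq_div_iff h0, mul_comm, mul_assoc]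
      exact k

end Pool.Agent.Work.MP_bf98aa_gt.Th
end

-- merged part: Pool.Agent.Work.MP_bf98aa_gt.Th.Final
section
/-!
The realisation theorem.
-/

set_option autoImplicit false

open scoped ContDiff Topology Manifold

namespace Pool.Agent.Work.MP_bf98aa_gt.Th

theorem aeval_smul_hom {r n : ℕ} {μ : MvPolynomial (Fin r) ℚ} (hμ : μ.IsHomogeneous n) (c : ℝ)
    (x : Fin r → ℝ) : MvPolynomial.aeval (c • x) μ = c ^ n * MvPolynomial.aeval x μ := by
  rw [MvPolynomial.aeval_def, MvPolynomial.aeval_def, MvPolynomial.eval₂_eq,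
    MvPolynomial.eval₂_eq, Finset.mul_sum]
  refine Finset.sum_congr rfl fun d hd => ?_
  have h := hμ (MvPolynomial.mem_support_iff.1 hd)
  rw [← h, Finsupp.weight_apply, Finsupp.sum]
  simp only [Pi.smul_apply, smul_eq_mul, mul_pow, Finset.prod_mul_distrib,
    Finset.prod_pow_eq_pow_sum, Pi.one_apply, mul_one]
  ring

theorem top_smul {n : ℕ} (c : ℝ) (w : Alt (Sp (Fin n)) 2) : top (c • w) = c ^ n * top w := by
  rw [top, top, pf_smul (fun _ => c) fun _ => w]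
  simp [mul_div_assoc]

theorem realise (n r : ℕ) (hn : 3 ≤ n) (μ : MvPolynomial (Fin r) ℚ) (hμ : μ.IsHomogeneous n)
    (a : Fin r → ℝ) (ha : 0 < MvPolynomial.aeval a μ) :
    ∃ (M : Type) (_ : TopologicalSpace M) (_ : T2Space M) (_ : CompactSpace M)
      (_ : ConnectedSpace M) (_ : ChartedSpace (Sp (Fin n)) M)
      (_ : IsManifold 𝓘(ℝ, Sp (Fin n)) ∞ M) (η : Fin r → Form (Sp (Fin n)) M 2),
      (∀ b : Form (Sp (Fin n)) M 1, b.Closed → b.Exact) ∧ (∀ i, (η i).Closed) ∧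
      (∀ w : Form (Sp (Fin n)) M 2, w.Closed → ∃! x : Fin r → ℝ, (w.sub (comb η x)).Exact) ∧
      (comb η a).Nondeg ∧
      ∀ x, HasIntegral (comb η a) (comb η x) (MvPolynomial.aeval x μ) := by
  obtain ⟨S, G, _, _, _, _, D, n', e, η, C, h1, h2, h3, h4, hC, h5⟩ :=
    alg_main n r (by omega) μ hμ a ha
  obtain ⟨M, _, _, _, _, _, _, ξ, C', k0, k1, k2, k3, k4, k5, k6, k7⟩ :=
    ana_main D hn e η a h1 h2 h3 h4 (by rw [h5]; exact mul_ne_zero hC ha.ne')
  have hK : 0 < C' * C := by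
    rw [h5, ← mul_assoc] at k0
    exact (mul_pos_iff_of_pos_right ha).1 k0
  obtain ⟨c, hc, hcn⟩ : ∃ c : ℝ, 0 < c ∧ c ^ n = (C' * C)⁻¹ :=
    ⟨(C' * C)⁻¹ ^ ((n : ℝ)⁻¹), by positivity,
      Real.rpow_inv_natCast_pow (by positivity) (by omega)⟩
  refine ⟨M, inferInstance, inferInstance, inferInstance, inferInstance, inferInstance,
    inferInstance, fun i => ξ (c • Pi.single i 1), k3, fun i => k4 _, fun w hw => ?_,
    fun m u hu => ?_, fun x t ρ r1 r2 r3 => ?_⟩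
  · simp only [k1]
    obtain ⟨x, hx, hu⟩ := k5 w hw
    refine ⟨c⁻¹ • x, by simpa [smul_smul, hc.ne'] using hx, fun y hy => ?_⟩
    rw [← hu _ hy, smul_smul, inv_mul_cancel₀ hc.ne', one_smul]
  · refine k6 m u fun v => ?_
    have := hu v
    rw [k1, k2] at this
    simpa [hc.ne'] using this
  · have := k7 (c • x) t ρ r1 r2 r3
    rw [h5, aeval_smul_hom hμ, hcn, ← mul_assoc, ← mul_assoc, mul_inv_cancel₀ hK.ne',
      one_mul] at this
    rw [← this, k1, k1]
    refine Finset.sum_congr rfl fun p _ => ?_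
    congr 1
    funext y
    have e1 : (ξ (c • a)).loc p y = c • (ξ a).loc p y := by
      refine ContinuousAlternatingMap.ext fun v => ?_
      simp [Form.loc, k2]
    rw [e1, top_smul, sign_mul, sign_pos (pow_pos hc n), one_mul]

end Pool.Agent.Work.MP_bf98aa_gt.Th
end
end
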