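import Pool.Agent.Work.MP_bf98aa_gt.Th.IPf
import Pool.Agent.Work.MP_0b08b2_co.Prob
import Pool.Agent.Work.MP_0b08b2_co.LLL
import Pool.Agent.Work.MP_bf98aa_gt.Th.NAvg
import Pool.Agent.Work.MP_bf98aa_gt.Th.ZRes

-- merged part: Pool.Agent.Work.MP_bf98aa_gt.Th.DLip
section
-- merged part: Pool.Agent.Work.MP_bf98aa_gt.Th.DLip
section
/-!
Elementary facts on `ee`, `cut`, packing, and polynomial bounds for the flat jets.

PLAN. `card_sep`: `q ↦ fun i => ⌊2 * q i⌋` is injective on a `1/2`-separated set and takes values in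
`Fintype.piFinset fun _ => Finset.Icc (-⌈2ρ⌉-1) ⌈2ρ⌉`. `lip_J`: use the predicate BL f B := on the unit ball
`‖f y‖ ≤ B` and `‖f y - f y'‖ ≤ B ‖y - y'‖`; it is closed under sums and products (constant `2 B₁ B₂`); check it for
`ee (linear)`, `exp (-t)` on `t ≥ 0`, `cut` (Lipschitz: smooth and eventually constant), `nsq (q + y)`, `zc (q + y) s`.
-/

set_option autoImplicit false

open scoped ContDiff Topology ComplexConjugate

namespace Pool.Agent.Work.MP_bf98aa_gt.Th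

theorem ee_add (s t : ℝ) : ee (s + t) = ee s * ee t := by
  unfold ee
  rw [← Complex.exp_add]
  congr 1
  push_cast
  ring

theorem ee_zero : ee 0 = 1 := by
  simp [ee]

theorem ee_int (z : ℤ) : ee z = 1 := by
  unfold ee
  rw [← Complex.exp_int_mul_two_pi_mul_I z]
  congr 1
  push_cast
  ring

theorem norm_ee (t : ℝ) : ‖ee t‖ = 1 := by
  unfold ee
  rw [← Complex.norm_exp_ofReal_mul_I (2 * Real.pi * t)]
  congr 2
  push_cast
  ring

theorem contDiff_ee : ContDiff ℝ ∞ ee := by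
  unfold ee
  exact ContDiff.cexp (contDiff_const.mul Complex.ofRealCLM.contDiff)

theorem hasDerivAt_ee (t : ℝ) : HasDerivAt ee (2 * Real.pi * Complex.I * ee t) t := by
  have h1 : HasDerivAt (fun t : ℝ => (t : ℂ)) 1 t := Complex.ofRealCLM.hasDerivAt
  have h2 := (h1.const_mul (2 * Real.pi * Complex.I)).cexp
  have h3 : Complex.exp (2 * Real.pi * Complex.I * t) * (2 * Real.pi * Complex.I * 1) =
      2 * Real.pi * Complex.I * ee t := by
    unfold ee
    ring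
  rw [h3] at h2
  exact h2

theorem contDiff_cut : ContDiff ℝ ∞ cut := by
  unfold cut
  exact Real.smoothTransition.contDiff.comp (contDiff_const.sub contDiff_id)

theorem cut_one {t : ℝ} (h : t ≤ 1) : cut t = 1 := by
  unfold cut
  exact Real.smoothTransition.one_of_one_le (by linarith)

theorem cut_zero {t : ℝ} (h : 2 ≤ t) : cut t = 0 := by
  unfold cut
  exact Real.smoothTransition.zero_of_nonpos (by linarith)

theorem DLip_co (N : ℕ) (a : Fin (2 * N + 1)) : |(((a : ℕ) : ℝ) - N) / N| ≤ 1 := by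
  rcases Nat.eq_zero_or_pos N with h | h
  · have h' : (N : ℝ) = 0 := by exact_mod_cast h
    rw [h', div_zero, abs_zero]
    exact zero_le_one
  · have hN : (0 : ℝ) < N := by exact_mod_cast h
    have h1 : ((a : ℕ) : ℝ) ≤ 2 * N := by
      have := a.2
      exact_mod_cast Nat.lt_succ_iff.1 this
    have h0 : (0 : ℝ) ≤ ((a : ℕ) : ℝ) := Nat.cast_nonneg _
    rw [abs_div, abs_of_pos hN, div_le_one hN, abs_le]
    constructor <;> linarith only [h1]

theorem norm_gv_le {N : ℕ} (a : Gr N) : ‖gv N a‖ ≤ 2 := by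
  refine (Complex.norm_le_abs_re_add_abs_im _).trans ?_
  have h1 := DLip_co N a.1
  have h2 := DLip_co N a.2
  simp only [gv]
  linarith only [h1, h2]

theorem norm_cip_le {n' : ℕ} (u w : Cn n') : ‖cip u w‖ ≤ n' * (‖u‖ * ‖w‖) := by
  unfold cip
  refine (norm_sum_le _ _).trans ?_
  have h : ∀ l ∈ (Finset.univ : Finset (Fin n')), ‖conj (u l) * w l‖ ≤ ‖u‖ * ‖w‖ := by
    intro l _
    rw [norm_mul, Complex.norm_conj]
    exact mul_le_mul (norm_le_pi_norm u l) (norm_le_pi_norm w l) (norm_nonneg _) (norm_nonneg _)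
  refine (Finset.sum_le_card_nsmul _ _ _ h).trans ?_
  simp

theorem norm_sq_le_nsc {n' : ℕ} (w : Cn n') : ‖w‖ ^ 2 ≤ nsc w := by
  have h0 : 0 ≤ nsc w := Finset.sum_nonneg fun l _ => Complex.normSq_nonneg _
  have h1 : ‖w‖ ≤ Real.sqrt (nsc w) := by
    refine (pi_norm_le_iff_of_nonneg (Real.sqrt_nonneg _)).2 fun l => ?_
    refine Real.le_sqrt_of_sq_le ?_
    rw [← Complex.normSq_eq_norm_sq]
    exact Finset.single_le_sum (f := fun l => Complex.normSq (w l))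
      (fun l _ => Complex.normSq_nonneg _) (Finset.mem_univ l)
  calc ‖w‖ ^ 2 ≤ Real.sqrt (nsc w) ^ 2 := pow_le_pow_left₀ (norm_nonneg _) h1 2
    _ = nsc w := Real.sq_sqrt h0

theorem nsc_le {n' : ℕ} (w : Cn n') : nsc w ≤ n' * ‖w‖ ^ 2 := by
  unfold nsc
  have h : ∀ l ∈ (Finset.univ : Finset (Fin n')), Complex.normSq (w l) ≤ ‖w‖ ^ 2 := by
    intro l _
    rw [Complex.normSq_eq_norm_sq]
    exact pow_le_pow_left₀ (norm_nonneg _) (norm_le_pi_norm w l) 2
  refine (Finset.sum_le_card_nsmul _ _ _ h).trans ?_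
  simp

theorem rip_self {n' : ℕ} (w : Cn n') : rip w w = nsc w := by
  unfold rip cip nsc
  rw [Complex.re_sum]
  refine Finset.sum_congr rfl fun l _ => ?_
  rw [← Complex.normSq_eq_conj_mul_self, Complex.ofReal_re]

theorem contDiff_nsc {n' : ℕ} : ContDiff ℝ ∞ (nsc : Cn n' → ℝ) := by
  unfold nsc
  refine ContDiff.sum fun l _ => ?_
  have h : ContDiff ℝ ∞ fun w : Cn n' => w l := contDiff_apply ℝ ℂ l
  have h1 : ContDiff ℝ ∞ fun w : Cn n' => (w l).re := Complex.reCLM.contDiff.comp h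
  have h2 : ContDiff ℝ ∞ fun w : Cn n' => (w l).im := Complex.imCLM.contDiff.comp h
  simp only [Complex.normSq_apply]
  exact (h1.mul h1).add (h2.mul h2)

variable {S : Type} [Fintype S] {n' : ℕ}

theorem norm_csg {ε : S → ℝ} (h : ∀ s, |ε s| = 1) (c : Co S n') : ‖csg ε c‖ = ‖c‖ := by
  have h1 : ∀ o, ‖csg ε c o‖ = ‖c o‖ := by
    intro o
    cases o with
    | none => rfl
    | some s =>
      show ‖(ε s : ℂ) • c (some s)‖ = _
      rw [norm_smul, Complex.norm_real, Real.norm_eq_abs, h s, one_mul]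
  apply le_antisymm
  · refine (pi_norm_le_iff_of_nonneg (norm_nonneg _)).2 fun o => ?_
    rw [h1]
    exact norm_le_pi_norm c o
  · refine (pi_norm_le_iff_of_nonneg (norm_nonneg _)).2 fun o => ?_
    rw [← h1]
    exact norm_le_pi_norm (csg ε c) o

theorem contDiff_pk (R : ℝ) : ContDiff ℝ ∞ fun p : Co S n' × Sp S => pk R p.1 p.2 := by
  unfold pk gau Pc
  have hn : ContDiff ℝ ∞ fun p : Co S n' × Sp S => nsq p.2 := contDiff_nsq.comp contDiff_snd
  have hc : ∀ o, ContDiff ℝ ∞ fun p : Co S n' × Sp S => p.1 o := fun o =>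
    (contDiff_apply ℝ (Cn n') o).comp contDiff_fst
  have h1 : ContDiff ℝ ∞ fun p : Co S n' × Sp S =>
      cut (nsq p.2 / R ^ 2) * Real.exp (-(Real.pi * nsq p.2 / 2)) :=
    (contDiff_cut.comp (hn.div_const _)).mul
      (ContDiff.exp ((contDiff_const.mul hn).div_const _).neg)
  have h2 : ContDiff ℝ ∞ fun p : Co S n' × Sp S =>
      ((cut (nsq p.2 / R ^ 2) * Real.exp (-(Real.pi * nsq p.2 / 2)) : ℝ) : ℂ) :=
    Complex.ofRealCLM.contDiff.comp h1
  refine h2.smul ((hc none).add (ContDiff.sum fun s _ => ?_))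
  exact ((contDiff_zc s).comp contDiff_snd).smul (hc (some s))

theorem pk_eq_zero {R : ℝ} (hR : 0 < R) (c : Co S n') {z : Sp S} (h : 3 / 2 * R ≤ ‖z‖) :
    pk R c z = 0 := by
  have h1 : (3 / 2 * R) ^ 2 ≤ nsq z :=
    (pow_le_pow_left₀ (by positivity) h 2).trans (norm_sq_le_nsq z)
  have h2 : 2 ≤ nsq z / R ^ 2 := by
    rw [le_div_iff₀ (by positivity)]
    linarith only [h1, sq_nonneg R, sq_nonneg R]
  unfold pk gau
  rw [cut_zero h2]
  simp

theorem card_sep {I : Type} (A : Finset I) (q : I → Sp S) {ρ : ℝ} (hρ : 0 ≤ ρ)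
    (h1 : ∀ i ∈ A, ‖q i‖ ≤ ρ) (h2 : ∀ i ∈ A, ∀ j ∈ A, i ≠ j → 1 / 2 ≤ ‖q i - q j‖) :
    (A.card : ℝ) ≤ (4 * ρ + 4) ^ (2 * Fintype.card S) := by
  classical
  have hmap : ∀ i ∈ A, (fun k => ⌊2 * q i k⌋) ∈
      Fintype.piFinset fun _ : S × Fin 2 => Finset.Icc ⌊-(2 * ρ)⌋ ⌊2 * ρ⌋ := by
    intro i hi
    refine Fintype.mem_piFinset.2 fun k => ?_
    have h3 : |q i k| ≤ ρ := (norm_le_pi_norm (q i) k).trans (h1 i hi)
    rw [abs_le] at h3
    exact Finset.mem_Icc.2 ⟨Int.floor_le_floor (by linarith [h3.1]),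
      Int.floor_le_floor (by linarith [h3.2])⟩
  have hinj : Set.InjOn (fun i => fun k => ⌊2 * q i k⌋) (A : Set I) := by
    intro i hi j hj hij
    by_contra hne
    have h3 := h2 i hi j hj hne
    have h4 : ‖q i - q j‖ < 1 / 2 := by
      refine (pi_norm_lt_iff (by norm_num)).2 fun k => ?_
      have h5 : ⌊2 * q i k⌋ = ⌊2 * q j k⌋ := congrFun hij k
      have h6 := Int.abs_sub_lt_one_of_floor_eq_floor h5
      rw [abs_lt] at h6
      rw [Pi.sub_apply, Real.norm_eq_abs, abs_lt]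
      constructor <;> linarith only [h6, h6.1, h6.2]
    linarith only [h3, h4]
  have h3 := Finset.card_le_card_of_injOn _ hmap hinj
  rw [Fintype.card_piFinset, Finset.prod_const, Finset.card_univ, Fintype.card_prod,
    Fintype.card_fin, Int.card_Icc] at h3
  have h4 : (((⌊2 * ρ⌋ + 1 - ⌊-(2 * ρ)⌋).toNat : ℕ) : ℝ) ≤ 4 * ρ + 4 := by
    have h5 : ⌊-(2 * ρ)⌋ ≤ ⌊2 * ρ⌋ := Int.floor_le_floor (by linarith only [hρ])
    have h6 : (((⌊2 * ρ⌋ + 1 - ⌊-(2 * ρ)⌋).toNat : ℕ) : ℤ) = ⌊2 * ρ⌋ + 1 - ⌊-(2 * ρ)⌋ :=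
      Int.toNat_of_nonneg (by linarith only [h5])
    have h7 : (((⌊2 * ρ⌋ + 1 - ⌊-(2 * ρ)⌋).toNat : ℕ) : ℝ) =
        (⌊2 * ρ⌋ : ℝ) + 1 - (⌊-(2 * ρ)⌋ : ℝ) := by exact_mod_cast congrArg (Int.cast : ℤ → ℝ) h6
    rw [h7]
    linarith only [Int.floor_le (2 * ρ), Int.lt_floor_add_one (-(2 * ρ))]
  calc (A.card : ℝ) ≤ (((⌊2 * ρ⌋ + 1 - ⌊-(2 * ρ)⌋).toNat : ℕ) : ℝ) ^ (Fintype.card S * 2) := by
        exact_mod_cast h3
    _ ≤ (4 * ρ + 4) ^ (Fintype.card S * 2) := pow_le_pow_left₀ (Nat.cast_nonneg _) h4 _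
    _ = _ := by rw [mul_comm (Fintype.card S)]

/-- Polynomially bounded and polynomially Lipschitz on the unit ball. -/
def DLip_BL {X Y E : Type} [NormedAddCommGroup Y] [NormedAddCommGroup E] (ρ : X → ℝ)
    (f : X → Y → E) : Prop :=
  ∃ (C : ℝ) (N : ℕ), 0 < C ∧ ∀ x y y', ‖y‖ ≤ 1 → ‖y'‖ ≤ 1 →
    ‖f x y‖ ≤ C * ρ x ^ N ∧ ‖f x y - f x y'‖ ≤ C * ρ x ^ N * ‖y - y'‖

section
variable {X Y E F G : Type} [NormedAddCommGroup Y] [NormedAddCommGroup E] [NormedAddCommGroup F]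
  [NormedAddCommGroup G] {ρ : X → ℝ}

theorem DLip_mono {r C C' : ℝ} {N N' : ℕ} (hr : 1 ≤ r) (h0 : 0 ≤ C) (hC : C ≤ C') (hN : N ≤ N') :
    C * r ^ N ≤ C' * r ^ N' :=
  mul_le_mul hC (pow_le_pow_right₀ hr hN) (by positivity) (h0.trans hC)

theorem DLip_par {h : X → E} {C : ℝ} {N : ℕ} (hC : 0 < C) (hρ : ∀ x, 1 ≤ ρ x)
    (hh : ∀ x, ‖h x‖ ≤ C * ρ x ^ N) : DLip_BL ρ fun x (_ : Y) => h x := by
  refine ⟨C, N, hC, fun x y y' _ _ => ⟨hh x, ?_⟩⟩
  have := hρ x
  rw [sub_self, norm_zero]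
  positivity

theorem DLip_const (hρ : ∀ x, 1 ≤ ρ x) (a : E) : DLip_BL ρ fun _ (_ : Y) => a :=
  DLip_par (C := ‖a‖ + 1) (N := 0) (by positivity) hρ fun x => by simp

theorem DLip_id : DLip_BL ρ fun _ (y : Y) => y :=
  ⟨1, 0, one_pos, fun x y y' hy _ => ⟨by simpa using hy, by simp⟩⟩

theorem DLip_add (hρ : ∀ x, 1 ≤ ρ x) {f g : X → Y → E} (hf : DLip_BL ρ f) (hg : DLip_BL ρ g) :
    DLip_BL ρ fun x y => f x y + g x y := by
  obtain ⟨C, N, hC, hf⟩ := hf
  obtain ⟨C', N', hC', hg⟩ := hg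
  refine ⟨C + C', N + N', by positivity, fun x y y' hy hy' => ?_⟩
  obtain ⟨a1, a2⟩ := hf x y y' hy hy'
  obtain ⟨b1, b2⟩ := hg x y y' hy hy'
  have m1 : C * ρ x ^ N ≤ C * ρ x ^ (N + N') := DLip_mono (hρ x) hC.le le_rfl (by omega)
  have m2 : C' * ρ x ^ N' ≤ C' * ρ x ^ (N + N') := DLip_mono (hρ x) hC'.le le_rfl (by omega)
  constructor
  · refine (norm_add_le _ _).trans ?_
    linarith only [a1, b1, m1, m2]
  · have e : f x y + g x y - (f x y' + g x y') = (f x y - f x y') + (g x y - g x y') := by abel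
    show ‖f x y + g x y - (f x y' + g x y')‖ ≤ _
    rw [e]
    refine (norm_add_le _ _).trans ?_
    have n1 := mul_le_mul_of_nonneg_right m1 (norm_nonneg (y - y'))
    have n2 := mul_le_mul_of_nonneg_right m2 (norm_nonneg (y - y'))
    linarith only [a2, b2, n1, n2]

theorem DLip_lipOn (hρ : ∀ x, 1 ≤ ρ x) {f : X → Y → E} (hf : DLip_BL ρ f) (g : E → F)
    (s : Set E) (h0 : (0 : E) ∈ s) (hs : ∀ x y, f x y ∈ s) {K : ℝ} (hK : 0 ≤ K)
    (hg : ∀ u ∈ s, ∀ v ∈ s, ‖g u - g v‖ ≤ K * ‖u - v‖) : DLip_BL ρ fun x y => g (f x y) := by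
  obtain ⟨C, N, hC, hf⟩ := hf
  refine ⟨‖g 0‖ + K * C + 1, N, by positivity, fun x y y' hy hy' => ?_⟩
  obtain ⟨a1, a2⟩ := hf x y y' hy hy'
  have h1 : 1 ≤ ρ x ^ N := one_le_pow₀ (hρ x)
  have h2 : 0 ≤ ‖g 0‖ := norm_nonneg _
  constructor
  · have h3 := hg _ (hs x y) _ h0
    rw [sub_zero] at h3
    have h4 : ‖g (f x y)‖ ≤ ‖g 0‖ + ‖g (f x y) - g 0‖ := norm_le_norm_add_norm_sub' _ _
    have h5 := mul_le_mul_of_nonneg_left a1 hK
    have h6 := mul_le_mul_of_nonneg_left h1 h2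
    show ‖g (f x y)‖ ≤ _
    linarith only [h1, h3, h4, h5, h6]
  · have h3 := hg _ (hs x y) _ (hs x y')
    have h5 := mul_le_mul_of_nonneg_left a2 hK
    have h6 : 0 ≤ (‖g 0‖ + 1) * ρ x ^ N * ‖y - y'‖ := by positivity
    show ‖g (f x y) - g (f x y')‖ ≤ _
    linarith only [h3, h5, h6]

theorem DLip_lip (hρ : ∀ x, 1 ≤ ρ x) {f : X → Y → E} (hf : DLip_BL ρ f) (g : E → F)
    {K : ℝ} (hK : 0 ≤ K) (hg : ∀ u v, ‖g u - g v‖ ≤ K * ‖u - v‖) :
    DLip_BL ρ fun x y => g (f x y) :=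
  DLip_lipOn hρ hf g Set.univ trivial (fun _ _ => trivial) hK fun u _ v _ => hg u v

theorem DLip_sum (hρ : ∀ x, 1 ≤ ρ x) {I : Type} (A : Finset I) {f : I → X → Y → E}
    (hf : ∀ i, DLip_BL ρ (f i)) : DLip_BL ρ fun x y => ∑ i ∈ A, f i x y := by
  classical
  induction A using Finset.induction_on with
  | empty => simpa using DLip_const hρ (0 : E)
  | insert a A ha ih => simpa [Finset.sum_insert ha] using DLip_add hρ (hf a) ih

variable [NormedSpace ℝ E] [NormedSpace ℝ F] [NormedSpace ℝ G]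

theorem DLip_clm (hρ : ∀ x, 1 ≤ ρ x) {f : X → Y → E} (hf : DLip_BL ρ f) (L : E →L[ℝ] F) :
    DLip_BL ρ fun x y => L (f x y) :=
  DLip_lip hρ hf L (norm_nonneg L) fun u v => by
    rw [← map_sub]
    exact L.le_opNorm _

theorem DLip_bil (hρ : ∀ x, 1 ≤ ρ x) {f : X → Y → E} {g : X → Y → F} (hf : DLip_BL ρ f)
    (hg : DLip_BL ρ g) (B : E →L[ℝ] F →L[ℝ] G) : DLip_BL ρ fun x y => B (f x y) (g x y) := by
  obtain ⟨C, N, hC, hf⟩ := hf
  obtain ⟨C', N', hC', hg⟩ := hg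
  refine ⟨2 * (‖B‖ + 1) * C * C', N + N', by positivity, fun x y y' hy hy' => ?_⟩
  obtain ⟨a1, a2⟩ := hf x y y' hy hy'
  obtain ⟨b1, b2⟩ := hg x y y' hy hy'
  obtain ⟨c1, -⟩ := hg x y' y hy' hy
  have h1 : 0 < ρ x := lt_of_lt_of_le one_pos (hρ x)
  obtain ⟨P, hP⟩ : ∃ P, P = C * ρ x ^ N := ⟨_, rfl⟩
  obtain ⟨Q, hQ⟩ : ∃ Q, Q = C' * ρ x ^ N' := ⟨_, rfl⟩
  have e : 2 * (‖B‖ + 1) * C * C' * ρ x ^ (N + N') = 2 * (‖B‖ + 1) * (P * Q) := by
    rw [hP, hQ, pow_add]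
    ring
  have hP0 : 0 ≤ P := by rw [hP]; positivity
  have hQ0 : 0 ≤ Q := by rw [hQ]; positivity
  rw [← hP] at a1 a2
  rw [← hQ] at b1 b2 c1
  rw [e]
  have hB : 0 ≤ ‖B‖ := B.opNorm_nonneg
  have hb : ∀ (u : E) (v : F) (a b : ℝ), ‖u‖ ≤ a → ‖v‖ ≤ b → ‖B u v‖ ≤ ‖B‖ * (a * b) := by
    intro u v a b ha hb
    refine (B.le_opNorm₂ u v).trans ?_
    rw [mul_assoc]
    exact mul_le_mul_of_nonneg_left
      (mul_le_mul ha hb (norm_nonneg _) ((norm_nonneg _).trans ha)) hB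
  have hPQ : 0 ≤ P * Q := mul_nonneg hP0 hQ0
  constructor
  · have h2 := hb _ _ _ _ a1 b1
    have h3 : 0 ≤ ‖B‖ * (P * Q) := mul_nonneg hB hPQ
    show ‖B (f x y) (g x y)‖ ≤ _
    linarith only [hPQ, h2, h3]
  · have e2 : B (f x y) (g x y) - B (f x y') (g x y') =
        B (f x y) (g x y - g x y') + B (f x y - f x y') (g x y') := by
      simp only [map_sub, sub_apply]
      abel
    show ‖B (f x y) (g x y) - B (f x y') (g x y')‖ ≤ _
    rw [e2]
    refine (norm_add_le _ _).trans ?_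
    have h2 := hb _ _ _ _ a1 b2
    have h3 := hb _ _ _ _ a2 c1
    have h4 : 0 ≤ P * Q * ‖y - y'‖ := mul_nonneg hPQ (norm_nonneg _)
    linarith only [h2, h3, h4]

end

theorem DLip_ee (u v : ℝ) : ‖ee u - ee v‖ ≤ 2 * Real.pi * ‖u - v‖ := by
  have e : ee u - ee v = ee v * (ee (u - v) - 1) := by
    rw [mul_sub, ← ee_add, mul_one, add_sub_cancel]
  have e2 : ee (u - v) = Complex.exp (Complex.I * ((2 * Real.pi * (u - v) : ℝ) : ℂ)) := by
    unfold ee
    congr 1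
    push_cast
    ring
  rw [e, norm_mul, norm_ee, one_mul, e2]
  refine Real.norm_exp_I_mul_ofReal_sub_one_le.trans ?_
  rw [norm_mul, Real.norm_of_nonneg (by positivity)]

theorem DLip_exp (u : ℝ) (hu : u ∈ Set.Iic (0 : ℝ)) (v : ℝ) (hv : v ∈ Set.Iic (0 : ℝ)) :
    ‖Real.exp u - Real.exp v‖ ≤ 1 * ‖u - v‖ := by
  have key : ∀ a b : ℝ, a ≤ 0 → b ≤ a → Real.exp a - Real.exp b ≤ a - b := by
    intro a b ha hb
    have h1 : Real.exp b = Real.exp a * Real.exp (b - a) := by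
      rw [← Real.exp_add, add_sub_cancel]
    have h2 := Real.add_one_le_exp (b - a)
    have h3 : Real.exp a ≤ 1 := Real.exp_le_one_iff.2 ha
    have h4 := Real.exp_pos a
    rw [h1]
    linarith only [hb, h3, h2, h4, mul_nonneg_of_nonpos_of_nonpos (Mathlib.Tactic.Linarith.sub_nonpos_of_le hb) (Mathlib.Tactic.Linarith.sub_nonpos_of_le h3), mul_nonneg_of_nonpos_of_nonpos (Mathlib.Tactic.Linarith.sub_nonpos_of_le h2) (le_of_lt (Mathlib.Tactic.Linarith.sub_neg_of_lt h4))]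
  rw [one_mul, Real.norm_eq_abs, Real.norm_eq_abs]
  rcases le_total u v with h | h
  · have h1 := key v u hv h
    have h2 := Real.exp_le_exp.2 h
    rw [abs_of_nonpos (by linarith), abs_of_nonpos (by linarith)]
    linarith
  · have h1 := key u v hu h
    have h2 := Real.exp_le_exp.2 h
    rw [abs_of_nonneg (by linarith), abs_of_nonneg (by linarith)]
    linarith

theorem DLip_cut : ∃ K : ℝ, 0 ≤ K ∧ ∀ u v : ℝ, ‖cut u - cut v‖ ≤ K * ‖u - v‖ := by
  have h1 : ContDiff ℝ 1 cut := contDiff_cut.of_le (by simp)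
  obtain ⟨K, hK⟩ := (h1.locallyLipschitz.locallyLipschitzOn
    (s := Set.Icc (1 : ℝ) 2)).exists_lipschitzOnWith_of_compact isCompact_Icc
  have e : ∀ t : ℝ, cut t = cut (max 1 (min t 2)) := by
    intro t
    rcases le_total t 1 with h | h
    · rw [cut_one h, cut_one (max_le le_rfl ((min_le_left _ _).trans h))]
    · rcases le_total t 2 with h' | h'
      · rw [min_eq_left h', max_eq_right h]
      · rw [cut_zero h', min_eq_right h', cut_zero (le_max_right _ _)]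
  have m : ∀ t : ℝ, max 1 (min t 2) ∈ Set.Icc (1 : ℝ) 2 := fun t =>
    ⟨le_max_left _ _, max_le (by norm_num) (min_le_right _ _)⟩
  refine ⟨K, K.2, fun u v => ?_⟩
  rw [e u, e v]
  refine (hK.norm_sub_le (m u) (m v)).trans (mul_le_mul_of_nonneg_left ?_ K.2)
  rw [Real.norm_eq_abs, Real.norm_eq_abs, max_comm 1, max_comm 1]
  refine (abs_max_sub_max_le_abs _ _ _).trans ?_
  refine (abs_min_sub_min_le_max _ _ _ _).trans ?_
  simp

theorem DLip_zc (s : S) (u v : Sp S) : ‖zc u s - zc v s‖ ≤ 2 * ‖u - v‖ := by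
  have e : zc u s - zc v s = zc (u - v) s := by
    apply Complex.ext <;> simp [zc]
  rw [e]
  exact norm_zc_le _ _

theorem DLip_fin {X Y E I : Type} [NormedAddCommGroup Y] [NormedAddCommGroup E] [Fintype I]
    {ρ : X → ℝ} (hρ : ∀ x, 1 ≤ ρ x) {f : I → X → Y → E} (hf : ∀ i, DLip_BL ρ (f i)) :
    ∃ (C : ℝ) (N : ℕ), 0 < C ∧ ∀ i x y y', ‖y‖ ≤ 1 → ‖y'‖ ≤ 1 →
      ‖f i x y‖ ≤ C * ρ x ^ N ∧ ‖f i x y - f i x y'‖ ≤ C * ρ x ^ N * ‖y - y'‖ := by
  choose C N hC h using hf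
  have h0 : 0 ≤ ∑ i, C i := Finset.sum_nonneg fun i _ => (hC i).le
  refine ⟨∑ i, C i + 1, ∑ i, N i, by positivity, fun i x y y' hy hy' => ?_⟩
  obtain ⟨a1, a2⟩ := h i x y y' hy hy'
  have m : C i * ρ x ^ N i ≤ (∑ i, C i + 1) * ρ x ^ ∑ i, N i := by
    refine DLip_mono (hρ x) (hC i).le ?_ ?_
    · have := Finset.single_le_sum (f := C) (fun i _ => (hC i).le) (Finset.mem_univ i)
      linarith
    · exact Finset.single_le_sum (f := N) (fun i _ => Nat.zero_le _) (Finset.mem_univ i)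
  exact ⟨a1.trans m, a2.trans (mul_le_mul_of_nonneg_right m (norm_nonneg _))⟩

theorem DLip_main {X : Type} {ρ : X → ℝ} (hρ : ∀ x, 1 ≤ ρ x) (q : X → Sp S) (c : X → Co S n')
    (hq : ∀ x, ‖q x‖ ≤ 2 * ρ x + 2) (hc : ∀ x, ‖c x‖ ≤ 2) (o : Option S) :
    DLip_BL ρ fun x (y : Sp S) =>
      Option.elim o (J0 (ρ x) (q x) y (c x)) (J1 (ρ x) (q x) y (c x)) := by
  obtain ⟨B, hB⟩ := exists_omL (S := S)
  obtain ⟨J, hJ⟩ := exists_JL (S := S)
  obtain ⟨K, hK, hcut⟩ := DLip_cut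
  have h1 : DLip_BL ρ fun x (_ : Sp S) => q x :=
    DLip_par (C := 4) (N := 1) (by norm_num) hρ fun x => by
      have := hq x
      have := hρ x
      rw [pow_one]
      linarith
  have h2 : ∀ o, DLip_BL ρ fun x (_ : Sp S) => c x o := fun o =>
    DLip_par (C := 2) (N := 0) (by norm_num) hρ fun x => by
      have := (norm_le_pi_norm (c x) o).trans (hc x)
      simpa using this
  have h3 : DLip_BL ρ fun x (y : Sp S) => q x + y := DLip_add hρ h1 DLip_id
  have hsc : ∀ {f : X → Sp S → ℝ} (a : ℝ), DLip_BL ρ f → DLip_BL ρ fun x y => a * f x y :=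
    fun a hf => DLip_bil hρ (DLip_const hρ a) hf (ContinuousLinearMap.mul ℝ ℝ)
  have h4 : DLip_BL ρ fun x (y : Sp S) => ee (-(om (q x) y / 2)) := by
    have h := DLip_lip hρ (hsc (-(1 / 2)) (DLip_bil hρ h1 DLip_id B)) ee (by positivity) DLip_ee
    have e : (fun x (y : Sp S) => ee (-(om (q x) y / 2))) =
        fun x (y : Sp S) => ee (-(1 / 2) * B (q x) y) := by
      funext x y
      rw [hB]
      congr 1
      ring
    rw [e]
    exact h
  have h5 : DLip_BL ρ fun x (y : Sp S) => nsq (q x + y) := by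
    have h := DLip_bil hρ h3 (DLip_clm hρ h3 J) B
    have e : (fun x (y : Sp S) => nsq (q x + y)) =
        fun x (y : Sp S) => B (q x + y) (J (q x + y)) := by
      funext x y
      rw [← hB, ← hJ, om_Jv]
    rw [e]
    exact h
  have h6 : DLip_BL ρ fun x (_ : Sp S) => (ρ x ^ 2)⁻¹ :=
    DLip_par (C := 1) (N := 0) one_pos hρ fun x => by
      have h : 1 ≤ ρ x ^ 2 := one_le_pow₀ (hρ x)
      rw [Real.norm_of_nonneg (by positivity), pow_zero, mul_one]
      exact inv_le_one_of_one_le₀ h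
  have h7 : DLip_BL ρ fun x (y : Sp S) => cut (nsq (q x + y) / ρ x ^ 2) :=
    DLip_lip hρ (DLip_bil hρ h5 h6 (ContinuousLinearMap.mul ℝ ℝ)) cut hK hcut
  have h8 : DLip_BL ρ fun x (y : Sp S) => Real.exp (-(Real.pi * nsq (q x + y) / 2)) := by
    have h := DLip_lipOn hρ (hsc (-(Real.pi / 2)) h5) Real.exp (Set.Iic 0) (le_refl (0 : ℝ))
      (fun x y => by
        have h0 : 0 ≤ nsq (q x + y) := (sq_nonneg _).trans (norm_sq_le_nsq _)
        have h9 : 0 ≤ Real.pi / 2 * nsq (q x + y) := by positivity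
        show -(Real.pi / 2) * nsq (q x + y) ≤ 0
        linarith only [h9]) zero_le_one DLip_exp
    have e : (fun x (y : Sp S) => Real.exp (-(Real.pi * nsq (q x + y) / 2))) =
        fun x (y : Sp S) => Real.exp (-(Real.pi / 2) * nsq (q x + y)) := by
      funext x y
      congr 1
      ring
    rw [e]
    exact h
  have h9 : DLip_BL ρ fun x (y : Sp S) => ((gau (ρ x) (q x + y) : ℝ) : ℂ) :=
    DLip_clm hρ (DLip_bil hρ h7 h8 (ContinuousLinearMap.mul ℝ ℝ)) Complex.ofRealCLM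
  have hz : ∀ s, DLip_BL ρ fun x (y : Sp S) => zc (q x + y) s := fun s =>
    DLip_lip hρ h3 (fun v => zc v s) (by norm_num) (DLip_zc s)
  have hsm : ∀ {f : X → Sp S → ℂ} {g : X → Sp S → Cn n'}, DLip_BL ρ f → DLip_BL ρ g →
      DLip_BL ρ fun x y => f x y • g x y :=
    fun hf hg => DLip_bil hρ hf hg (ContinuousLinearMap.lsmul ℝ ℂ)
  have hm : ∀ {f g : X → Sp S → ℂ}, DLip_BL ρ f → DLip_BL ρ g →
      DLip_BL ρ fun x y => f x y * g x y :=
    fun hf hg => DLip_bil hρ hf hg (ContinuousLinearMap.mul ℝ ℂ)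
  have hP : DLip_BL ρ fun x (y : Sp S) => Pc (c x) (q x + y) :=
    DLip_add hρ (h2 none) (DLip_sum hρ Finset.univ fun s => hsm (hz s) (h2 (some s)))
  cases o with
  | none => exact hsm h4 (hsm h9 hP)
  | some s =>
    have hcj : DLip_BL ρ fun x (y : Sp S) => conj (zc (q x + y) s) :=
      DLip_clm hρ (hz s) (Complex.conjCLE : ℂ →L[ℝ] ℂ)
    have h10 := DLip_lip hρ (hsm (hm (DLip_const hρ ((Real.pi : ℝ) : ℂ)) hcj) hP)
      (fun v : Cn n' => -v) zero_le_one fun u v => by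
        rw [one_mul, neg_sub_neg, norm_sub_rev]
    have h11 := hsm (hm h4 h9) (DLip_add hρ (h2 (some s)) h10)
    simp only [← sub_eq_add_neg] at h11
    exact h11

theorem lip_J (S : Type) [Fintype S] (n' : ℕ) : ∃ (C : ℝ) (N : ℕ), 0 < C ∧ ∀ R : ℝ, 1 ≤ R →
    ∀ (q : Sp S) (c : Co S n'), ‖q‖ ≤ 2 * R + 2 → ‖c‖ ≤ 2 → ∀ y y' : Sp S, ‖y‖ ≤ 1 → ‖y'‖ ≤ 1 →
      ‖J0 R q y c - J0 R q y' c‖ ≤ C * R ^ N * ‖y - y'‖ ∧
      ∀ s, ‖J1 R q y c s‖ ≤ C * R ^ N ∧
        ‖J1 R q y c s - J1 R q y' c s‖ ≤ C * R ^ N * ‖y - y'‖ := by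
  obtain ⟨C, N, hC, h⟩ := DLip_fin
    (X := {p : ℝ × Sp S × Co S n' // 1 ≤ p.1 ∧ ‖p.2.1‖ ≤ 2 * p.1 + 2 ∧ ‖p.2.2‖ ≤ 2})
    (ρ := fun x => x.1.1) (fun x => x.2.1)
    (DLip_main
      (X := {p : ℝ × Sp S × Co S n' // 1 ≤ p.1 ∧ ‖p.2.1‖ ≤ 2 * p.1 + 2 ∧ ‖p.2.2‖ ≤ 2})
      (ρ := fun x => x.1.1) (fun x => x.2.1) (fun x => x.1.2.1) (fun x => x.1.2.2)
      (fun x => x.2.2.1) (fun x => x.2.2.2))
  refine ⟨C, N, hC, fun R hR q c hq hc y y' hy hy' => ⟨?_, fun s => ?_⟩⟩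
  · exact (h none ⟨(R, q, c), hR, hq, hc⟩ y y' hy hy').2
  · exact h (some s) ⟨(R, q, c), hR, hq, hc⟩ y y' hy hy'

end Pool.Agent.Work.MP_bf98aa_gt.Th
end

-- merged part: Pool.Agent.Work.MP_bf98aa_gt.Th.DProb
section
/-!
The probability that the jet at one point is degenerate in one direction.

PLAN. `pr_near`: a disc of radius `ρ` contains at most `(2 ρ N + 1) ^ 2 ≤ (3 ρ N) ^ 2` grid points.
`pr_stage`: split the coordinates with `Equiv.piEquivPiSubtypeProd (· ∈ T)`, `pr_equiv`, `pr_prod_le`, and induct on `T`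
(or count `Fintype.piFinset`). `prob_cell`: uncurry the sample space to `Option S × Fin n' → Gr N` (`pr_equiv`,
`Equiv.curry`). On the event, `Pc` is within `η / a₀` of `-(a μ)⁻¹ b₀`, so `ω (none, l)` is near a number that depends only on
the coordinates `(some s, l)`; and `cip u (ε s • c (some s))` is within `C η` of a constant, so `ω (some s, l₀)` is near a
number that depends only on the coordinates `(some s, l)`, `l ≠ l₀`. Apply `pr_stage` twice.
-/

set_option autoImplicit false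

open scoped ComplexConjugate
open Pool.Agent.TC

namespace Pool.Agent.Work.MP_bf98aa_gt.Th

theorem DProb_line {N : ℕ} (hN : 1 ≤ N) {ρ : ℝ} (h : 1 ≤ ρ * N) (b : ℝ) :
    pr (fun a : Fin (2 * N + 1) => |((a : ℝ) - N) / N - b| < ρ) ≤ 2 * ρ := by
  classical
  have hN' : (0 : ℝ) < N := by exact_mod_cast hN
  have h1 := Int.lt_floor_add_one (N + b * N - ρ * N)
  have h2 := Int.ceil_lt_add_one (N + b * N + ρ * N)
  have h3 : (0 : ℝ) < ρ := (mul_pos_iff_of_pos_right hN').1 (one_pos.trans_le h)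
  refine le_of_mul_le_mul_right ?_ (Nat.cast_pos.2 (Fintype.card_pos (α := Fin (2 * N + 1))))
  rw [pr_eq_card_mul, Fintype.card_fin]
  refine (Nat.cast_le.2 (Finset.card_le_card_of_injOn
    (fun a : Fin (2 * N + 1) => ((a : ℕ) : ℤ))
    (t := Finset.Ioo ⌊N + b * N - ρ * N⌋ ⌈N + b * N + ρ * N⌉) (fun a ha => ?_)
    fun a _ a' _ e => Fin.val_injective (Int.natCast_inj.1 e))).trans ?_
  · have := (Finset.mem_filter.1 ha).2
    rw [abs_lt, lt_sub_iff_add_lt, sub_lt_iff_lt_add, lt_div_iff₀ hN', div_lt_iff₀ hN'] at this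
    rw [Finset.mem_coe, Finset.mem_Ioo, Int.floor_lt, Int.lt_ceil, Int.cast_natCast]
    constructor <;> linarith only [this, this.1, this.2]
  · rw [Int.card_Ioo, ← Int.cast_natCast, Int.toNat_eq_max]
    push_cast
    exact max_le (by linarith only [h, h1, h2, h3]) (by positivity)

theorem pr_near {N : ℕ} (hN : 1 ≤ N) {ρ : ℝ} (h : 1 ≤ ρ * N) (b : ℂ) :
    pr (fun a : Gr N => ‖gv N a - b‖ < ρ) ≤ (2 * ρ) ^ 2 := by
  refine (pr_mono (E' := fun a : Gr N => |((a.1 : ℝ) - N) / N - b.re| < ρ ∧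
    |((a.2 : ℝ) - N) / N - b.im| < ρ) fun a ha => ⟨(Complex.abs_re_le_norm _).trans_lt ha,
      (Complex.abs_im_le_norm _).trans_lt ha⟩).trans ?_
  rw [pr_prod_mul (fun a : Fin (2 * N + 1) => |((a : ℝ) - N) / N - b.re| < ρ)
    fun a : Fin (2 * N + 1) => |((a : ℝ) - N) / N - b.im| < ρ, sq]
  exact mul_le_mul (DProb_line hN h _) (DProb_line hN h _) (pr_nonneg _)
    ((pr_nonneg _).trans (DProb_line hN h 0))

theorem DProb_one {I A : Type} [Fintype I] [DecidableEq I] [Fintype A] [Nonempty A] (i : I)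
    (E : (I → A) → Prop) (W : (I → A) → A → Prop) {κ : ℝ} (hκ : 0 ≤ κ)
    (hE : ∀ ω ω', (∀ j, j ≠ i → ω j = ω' j) → E ω → E ω')
    (hW : ∀ ω ω', (∀ j, j ≠ i → ω j = ω' j) → W ω = W ω') (h : ∀ ω, pr (W ω) ≤ κ) :
    pr (fun ω => E ω ∧ W ω (ω i)) ≤ κ * pr E := by
  obtain ⟨a₀⟩ := ‹Nonempty A›
  let e := ((Equiv.funSplitAt i A).trans (Equiv.prodComm _ _)).symm
  have h1 : ∀ x a a' j, j ≠ i → e (x, a) j = e (x, a') j := fun x a a' j hj => by simp [e, hj]
  have := Nonempty.intro a₀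
  rw [← pr_equiv e, ← pr_equiv e E, pr_congr (E := fun p => E (e p)) (E' := fun p => E (e (p.1, a₀)))
    fun p => ⟨hE _ _ (h1 _ _ _), hE _ _ (h1 _ _ _)⟩, pr_fst fun x => E (e (x, a₀))]
  refine pr_prod_le _ _ _ hκ (fun x a k => hE _ _ (h1 _ _ _) k.1) fun x _ =>
    (pr_mono fun a k => ?_).trans (h (e (x, a₀)))
  rw [← hW _ _ (h1 x a a₀)]
  simpa [e] using k.2

theorem DProb_gen {I J A : Type} [Fintype I] [DecidableEq I] [Fintype A] [Nonempty A] {ι : J → I}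
    (hι : Function.Injective ι) (T : Finset J) (E : (I → A) → Prop)
    (W : J → (I → A) → A → Prop) {κ : ℝ} (hκ : 0 ≤ κ)
    (hE : ∀ ω ω', (∀ i, (∀ j ∈ T, ι j ≠ i) → ω i = ω' i) → E ω → E ω')
    (hW : ∀ j ω ω', (∀ i, (∀ j ∈ T, ι j ≠ i) → ω i = ω' i) → W j ω = W j ω')
    (h : ∀ j ω, pr (W j ω) ≤ κ) :
    pr (fun ω => E ω ∧ ∀ j ∈ T, W j ω (ω (ι j))) ≤ κ ^ T.card * pr E := by
  classical
  refine Finset.induction_on' (motive := fun T' =>
    pr (fun ω => E ω ∧ ∀ j ∈ T', W j ω (ω (ι j))) ≤ κ ^ T'.card * pr E) T (by simp)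
    fun {a s} ha _ has ih => ?_
  have k : ∀ ω ω' : I → A, (∀ i, i ≠ ι a → ω i = ω' i) → ∀ i, (∀ j ∈ T, ι j ≠ i) → ω i = ω' i :=
    fun ω ω' k i hi => k i (hi a ha).symm
  rw [Finset.card_insert_of_notMem has, pow_succ', mul_assoc]
  refine ((pr_mono fun ω k => ⟨⟨k.1, fun j hj => k.2 j (Finset.mem_insert_of_mem hj)⟩,
    k.2 a (Finset.mem_insert_self _ _)⟩).trans (DProb_one (ι a)
      (fun ω => E ω ∧ ∀ j ∈ s, W j ω (ω (ι j))) (W a) hκ (fun ω ω' e k' => ⟨hE _ _ (k _ _ e) k'.1,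
        fun j hj => ?_⟩) (fun ω ω' e => hW a _ _ (k _ _ e)) (h a))).trans
    (mul_le_mul_of_nonneg_left ih hκ)
  rw [← hW j _ _ (k _ _ e), ← e _ fun n => has (hι n ▸ hj)]
  exact k'.2 j hj

theorem pr_stage {I A : Type} [Fintype I] [DecidableEq I] [Fintype A] [Nonempty A] (T : Finset I)
    (E : (I → A) → Prop) (W : I → (I → A) → A → Prop) {κ : ℝ} (hκ : 0 ≤ κ)
    (hE : ∀ ω ω', (∀ i, i ∉ T → ω i = ω' i) → E ω → E ω')
    (hW : ∀ i ω ω', (∀ j, j ∉ T → ω j = ω' j) → W i ω = W i ω')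
    (h : ∀ i ω, pr (W i ω) ≤ κ) :
    pr (fun ω => E ω ∧ ∀ i ∈ T, W i ω (ω i)) ≤ κ ^ T.card * pr E := by
  exact DProb_gen Function.injective_id T E W hκ
    (fun ω ω' e => hE _ _ fun i hi => e i fun j hj n => hi (n ▸ hj))
    (fun j ω ω' e => hW _ _ _ fun i hi => e i fun j hj n => hi (n ▸ hj)) h

theorem DProb_div {a r : ℝ} (ha : 0 < a) {μ p x q : ℂ} (hμ : a ≤ ‖μ‖)
    (h : ‖p + μ * (x + q)‖ < r) : ‖x - (-(p / μ) - q)‖ < r / a := by
  have h0 : μ ≠ 0 := norm_pos_iff.1 (ha.trans_le hμ)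
  have e : p + μ * (x + q) = μ * (x - (-(p / μ) - q)) := by field_simp; ring
  rw [e, norm_mul] at h
  rw [lt_div_iff₀' ha]
  exact (mul_le_mul_of_nonneg_right hμ (norm_nonneg _)).trans_lt h

theorem prob_cell (S : Type) [Fintype S] [DecidableEq S] (n' : ℕ) {a₀ : ℝ} (ha : 0 < a₀) :
    ∃ C : ℝ, 0 < C ∧ ∀ (N : ℕ) (η : ℝ), 1 ≤ N → 1 ≤ η * N → ∀ (y : Sp S) (u : Cn n') (l₀ : Fin n')
      (ε : S → ℝ) (μ : ℂ) (b₀ : Cn n') (b₁ : S → Cn n'), ‖y‖ ≤ 1 → ‖u‖ ≤ 2 → u l₀ = 1 →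
      (∀ s, |ε s| = 1) → a₀ ≤ ‖μ‖ → ‖μ‖ ≤ 1 →
      pr (fun ω : Option S → Fin n' → Gr N =>
        ‖b₀ + μ • Pc (csg ε fun o l => gv N (ω o l)) y‖ < η ∧
        ∀ s, ‖cip u (b₁ s + μ • (csg ε (fun o l => gv N (ω o l)) (some s) -
          ((Real.pi : ℝ) * conj (zc y s)) • Pc (csg ε fun o l => gv N (ω o l)) y))‖ < η) ≤
        (C * η) ^ (2 * (Fintype.card S + n')) := by
  refine ⟨2 * ((1 + 16 * n') / a₀), by positivity,
    fun N η hN hη y u l₀ ε μ b₀ b₁ hy hu hl hε h1 h2 => ?_⟩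
  have hN' : (0 : ℝ) < N := by exact_mod_cast hN
  have h3 : 0 < η := (mul_pos_iff_of_pos_right hN').1 (one_pos.trans_le hη)
  have h4 : η ≤ (1 + 16 * n') * η := le_mul_of_one_le_left h3.le (by simp)
  have h5 : 1 ≤ (1 + 16 * n') * η / a₀ * N := hη.trans (mul_le_mul_of_nonneg_right
    (h4.trans (le_div_self (h3.le.trans h4) ha (h1.trans h2))) hN'.le)
  obtain ⟨ρ, hρ⟩ : ∃ ρ, ρ = (1 + 16 * n') * η / a₀ := ⟨_, rfl⟩
  let E : (Option S × Fin n' → Gr N) → Prop := fun ω => True ∧ ∀ s ∈ (Finset.univ : Finset S),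
    ‖gv N (ω (some s, l₀)) - (-(cip u (b₁ s + ((Real.pi : ℝ) * conj (zc y s)) • b₀) / (μ * ε s)) -
      ∑ l ∈ Finset.univ.erase l₀, conj (u l) * gv N (ω (some s, l)))‖ < ρ
  have k1 : pr E ≤ ((2 * ρ) ^ 2) ^ Fintype.card S * pr fun _ : Option S × Fin n' → Gr N => True :=
    DProb_gen (ι := fun s => (some s, l₀)) (fun _ _ e => Option.some.inj (congrArg Prod.fst e)) _ _
      (fun s ω a => ‖gv N a - (-(cip u (b₁ s + ((Real.pi : ℝ) * conj (zc y s)) • b₀) / (μ * ε s)) -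
        ∑ l ∈ Finset.univ.erase l₀, conj (u l) * gv N (ω (some s, l)))‖ < ρ) (sq_nonneg _)
      (fun _ _ _ => id) (fun s ω ω' e => by
        rw [Finset.sum_congr rfl fun l hl => by
          rw [e (some s, l) fun _ _ n => Finset.ne_of_mem_erase hl (congrArg Prod.snd n).symm]])
      fun _ _ => pr_near hN (hρ ▸ h5) _
  have k2 := DProb_gen (ι := fun l : Fin n' => ((none : Option S), l))
    (fun _ _ e => congrArg Prod.snd e) Finset.univ E (fun l ω a =>
      ‖gv N a - (-(b₀ l / μ) - ∑ s, zc y s * (ε s * gv N (ω (some s, l))))‖ < ρ) (sq_nonneg _)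
    (fun ω ω' e => by simp only [E, fun s l => e (some s, l) (by simp), imp_self])
    (fun _ ω ω' e => by simp only [fun s l => e (some s, l) (by simp)])
    fun _ _ => pr_near hN (hρ ▸ h5) _
  rw [← pr_equiv (Equiv.curry _ _ _)]
  refine (pr_mono fun ω k => ⟨⟨trivial, fun s _ => ?_⟩, fun l _ => ?_⟩).trans
    (k2.trans ((mul_le_mul_of_nonneg_left k1 (by positivity)).trans_eq ?_))
  · rw [pr_true, Finset.card_univ, Fintype.card_fin, mul_one, ← pow_add, ← pow_mul, add_comm, hρ]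
    exact congrArg (· ^ _) (by ring)
  · refine hρ ▸ DProb_div ha (by rwa [norm_mul, Complex.norm_real, Real.norm_eq_abs, hε, mul_one]) ?_
    obtain ⟨P, hP⟩ : ∃ P, P = Pc (csg ε fun o l => gv N (Equiv.curry _ _ _ ω o l)) y := ⟨_, rfl⟩
    have k3 := k.1
    have k5 := k.2 s
    rw [← hP] at k3 k5
    have k6 : ‖(Real.pi : ℝ) * conj (zc y s) * cip u (b₀ + μ • P)‖ ≤ 4 * 2 * (n' * (2 * η)) := by
      rw [norm_mul, norm_mul, Complex.norm_real, Real.norm_eq_abs, abs_of_pos Real.pi_pos,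
        Complex.norm_conj]
      have := (norm_zc_le y s).trans (mul_le_of_le_one_right zero_le_two hy)
      have := (norm_cip_le u (b₀ + μ • P)).trans (mul_le_mul_of_nonneg_left
        (mul_le_mul hu k3.le (norm_nonneg _) zero_le_two) (Nat.cast_nonneg _))
      gcongr
      exact Real.pi_le_four
    refine lt_of_eq_of_lt (congrArg _ ?_) (((norm_add_le _ _).trans_lt
      (add_lt_add_of_lt_of_le k5 k6)).trans_eq (by ring))
    rw [← one_mul (gv N _), ← map_one conj, ← hl,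
      Finset.add_sum_erase _ (fun l => conj (u l) * gv N (ω (some s, l))) (Finset.mem_univ _)]
    simp only [cip, csg, Finset.mul_sum, ← Finset.sum_add_distrib, Pi.add_apply, Pi.smul_apply,
      Pi.sub_apply, smul_eq_mul, Equiv.curry_apply, Function.curry_apply]
    exact Finset.sum_congr rfl fun _ _ => by ring
  · refine hρ ▸ DProb_div ha h1 (lt_of_eq_of_lt (congrArg _ ?_)
      (((norm_le_pi_norm _ l).trans_lt k.1).trans_le h4))
    simp [Pc, csg, mul_add]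

end Pool.Agent.Work.MP_bf98aa_gt.Th
end

-- merged part: Pool.Agent.Work.MP_bf98aa_gt.Th.DLll
section
/-!
Uniform transversality of the flat jets by the local lemma.

PLAN. `M = ⌈(8R+12)^(2m)⌉` bounds `card (Nb v)` (`card_sep`); `Λ = M C R^N` bounds the Lipschitz constants and the norms of
the sums (`lip_J`). Sample space `V → (Option S → Fin n' → Gr N)`, `B v ω` the failure of the conclusion at `v`,
`Q v ω = (Nb v).image who`; apply `lll_fun`. For `h3`: at most `M` cells `v'` have `v ∈ Q v'` (symmetry), so it suffices that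
`pr (B v) ≤ 1 / (3 M ^ 2)`. If `B v ω` holds with `y₀, u`, then `u ≠ 0`; divide `u` by a coordinate `u l₀` of largest norm;
approximate `y₀` by a grid point `(j - N₁)/N₁`, `j : S × Fin 2 → Fin (2 N₁ + 1)`, and `u l` (`l ≠ l₀`) by `gv N₁`,
indexed by `{l // l ≠ l₀} → Gr N₁`; with `N₁ = ⌈Λ / η⌉` the event of `prob_cell` holds with `C' η`. Condition on the other
variables (`Equiv.funSplitAt`, `pr_prod_le`): the term `i` with `who i = v` has `q = 0`, `gau R y₀ ≥ exp (-π m)`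
(`cut = 1` as `nsq y₀ ≤ 2 m ≤ R ^ 2`), the other terms are the constants `b₀, b₁`. Union bound `pr_exists_le`:
`n' (2 N₁ + 1) ^ (2 m + 2 (n' - 1)) (C η) ^ (2 m + 2 n') ≤ poly(R) η ^ 2`; choose `η = 1 / (C R ^ N)` and any `N` with `η N ≥ 1`.
-/

set_option autoImplicit false

open scoped ComplexConjugate
open Pool.Agent.TC

namespace Pool.Agent.Work.MP_bf98aa_gt.Th

theorem DLll_real {N : ℕ} (hN : 1 ≤ N) {t : ℝ} (ht : |t| ≤ 1) :
    ∃ j : Fin (2 * N + 1), |t - ((j : ℝ) - N) / N| ≤ 1 / N := by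
  have hN' : (0 : ℝ) < N := by exact_mod_cast hN
  obtain ⟨h1, h2⟩ := abs_le.1 ht
  have h0 : 0 ≤ (t + 1) * N := mul_nonneg (by linarith only [h1]) hN'.le
  have h3 : ⌊(t + 1) * N⌋₊ ≤ 2 * N := Nat.floor_le_of_le (by push_cast; linarith only [h2, mul_nonneg_of_nonpos_of_nonpos (Mathlib.Tactic.Linarith.sub_nonpos_of_le (Mathlib.Tactic.Linarith.natCast_nonneg ℝ N)) (Mathlib.Tactic.Linarith.sub_nonpos_of_le h2)])
  refine ⟨⟨⌊(t + 1) * N⌋₊, by omega⟩, ?_⟩
  have h4 := Nat.floor_le h0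
  have h5 := Nat.lt_floor_add_one ((t + 1) * N)
  have h6 : t - ((⌊(t + 1) * N⌋₊ : ℝ) - N) / N = ((t + 1) * N - ⌊(t + 1) * N⌋₊) / N := by
    field_simp
    ring
  rw [h6, abs_div, abs_of_pos hN']
  exact div_le_div_of_nonneg_right (abs_le.2 ⟨by linarith only [h4], by linarith only [h5]⟩) hN'.le

theorem DLll_cx {N : ℕ} (hN : 1 ≤ N) {z : ℂ} (hz : ‖z‖ ≤ 1) :
    ∃ a : Gr N, ‖z - gv N a‖ ≤ 2 / N := by
  obtain ⟨j, hj⟩ := DLll_real hN ((Complex.abs_re_le_norm z).trans hz)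
  obtain ⟨k, hk⟩ := DLll_real hN ((Complex.abs_im_le_norm z).trans hz)
  refine ⟨(j, k), (Complex.norm_le_abs_re_add_abs_im _).trans ?_⟩
  have h : (2 : ℝ) / N = 1 / N + 1 / N := by ring
  rw [h]
  exact add_le_add hj hk

/-- grid points in the unit ball -/
noncomputable def DLll_gy {S : Type} (N : ℕ) (j : S × Fin 2 → Fin (2 * N + 1)) : Sp S :=
  fun i => ((j i : ℝ) - N) / N

/-- grid directions -/
noncomputable def DLll_gu {n' : ℕ} (N : ℕ) (l₀ : Fin n') (a : {l // l ≠ l₀} → Gr N) : Cn n' :=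
  fun l => if h : l = l₀ then 1 else gv N (a ⟨l, h⟩)

theorem DLll_gy_le {S : Type} [Fintype S] {N : ℕ} (hN : 1 ≤ N) (j : S × Fin 2 → Fin (2 * N + 1)) :
    ‖DLll_gy N j‖ ≤ 1 := by
  have hN' : (0 : ℝ) < N := by exact_mod_cast hN
  refine (pi_norm_le_iff_of_nonneg zero_le_one).2 fun i => ?_
  have h1 : ((j i : ℕ) : ℝ) ≤ 2 * N := by exact_mod_cast Nat.lt_succ_iff.1 (j i).2
  have h2 : (0 : ℝ) ≤ ((j i : ℕ) : ℝ) := Nat.cast_nonneg _
  rw [Real.norm_eq_abs, DLll_gy, abs_div, abs_of_pos hN', div_le_one hN']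
  exact abs_le.2 ⟨by linarith only [], by linarith⟩

theorem DLll_gu_le {n' N : ℕ} (l₀ : Fin n') (a : {l // l ≠ l₀} → Gr N) :
    ‖DLll_gu N l₀ a‖ ≤ 2 := by
  refine (pi_norm_le_iff_of_nonneg zero_le_two).2 fun l => ?_
  unfold DLll_gu
  split_ifs
  · simp
  · exact norm_gv_le _

theorem DLll_net {S : Type} [Fintype S] [Nonempty S] {n' N : ℕ} (hN : 1 ≤ N) {Λ η : ℝ}
    (hΛ : 0 ≤ Λ) (hη : Λ ≤ η * N) (F0 : Sp S → Cn n') (F1 : Sp S → S → Cn n')
    (hF : ∀ y y' : Sp S, ‖y‖ ≤ 1 → ‖y'‖ ≤ 1 → ‖F0 y - F0 y'‖ ≤ Λ * ‖y - y'‖ ∧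
      ∀ s, ‖F1 y s‖ ≤ Λ ∧ ‖F1 y s - F1 y' s‖ ≤ Λ * ‖y - y'‖)
    {y : Sp S} (hy : ‖y‖ ≤ 1) (h0 : ‖F0 y‖ < η) {u : Cn n'}
    (h1 : ∀ s, ‖cip u (F1 y s)‖ < η * ‖u‖) :
    ∃ (l₀ : Fin n') (j : S × Fin 2 → Fin (2 * N + 1)) (a : {l // l ≠ l₀} → Gr N),
      ‖F0 (DLll_gy N j)‖ < (4 * n' + 2) * η ∧
        ∀ s, ‖cip (DLll_gu N l₀ a) (F1 (DLll_gy N j) s)‖ < (4 * n' + 2) * η := by
  have hN' : (0 : ℝ) < N := by exact_mod_cast hN
  have hη0 : 0 < η := (norm_nonneg _).trans_lt h0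
  have hu : 0 < ‖u‖ :=
    pos_of_mul_pos_right ((norm_nonneg _).trans_lt (h1 (Classical.arbitrary S))) hη0.le
  have hne : Nonempty (Fin n') := by
    by_contra h
    rw [not_nonempty_iff] at h
    rw [Subsingleton.elim u 0, norm_zero] at hu
    exact lt_irrefl _ hu
  obtain ⟨l₀, hl⟩ := Finite.exists_max fun l => ‖u l‖
  have hl₀ : ‖u l₀‖ = ‖u‖ :=
    le_antisymm (norm_le_pi_norm u l₀) ((pi_norm_le_iff_of_nonneg (norm_nonneg _)).2 hl)
  have hz : u l₀ ≠ 0 := norm_pos_iff.1 (hl₀ ▸ hu)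
  have hdiv : ∀ l, ‖(u l₀)⁻¹ * u l‖ ≤ 1 := fun l => by
    rw [norm_mul, norm_inv, inv_mul_le_iff₀ (norm_pos_iff.2 hz), mul_one]
    exact hl l
  choose j hj using fun i : S × Fin 2 =>
    DLll_real hN (show |y i| ≤ 1 from (norm_le_pi_norm y i).trans hy)
  choose a ha using fun l : {l // l ≠ l₀} => DLll_cx hN (hdiv l.1)
  have hy' : ‖DLll_gy N j - y‖ ≤ 1 / N := by
    rw [norm_sub_rev]
    exact (pi_norm_le_iff_of_nonneg (by positivity)).2 hj
  have hu' : ‖DLll_gu N l₀ a - (u l₀)⁻¹ • u‖ ≤ 2 / N := by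
    rw [norm_sub_rev]
    refine (pi_norm_le_iff_of_nonneg (by positivity)).2 fun l => ?_
    by_cases h : l = l₀
    · have h2 : ((u l₀)⁻¹ • u - DLll_gu N l₀ a) l = 0 := by
        simp [DLll_gu, h, hz]
      rw [h2, norm_zero]
      positivity
    · have h2 : ((u l₀)⁻¹ • u - DLll_gu N l₀ a) l = (u l₀)⁻¹ * u l - gv N (a ⟨l, h⟩) := by
        simp [DLll_gu, h]
      rw [h2]
      exact ha ⟨l, h⟩
  have hΛN : Λ * (1 / N) ≤ η := by
    rw [mul_one_div, div_le_iff₀ hN']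
    exact hη
  have hd : Λ * ‖DLll_gy N j - y‖ ≤ η := (mul_le_mul_of_nonneg_left hy' hΛ).trans hΛN
  obtain ⟨k0, k1⟩ := hF (DLll_gy N j) y (DLll_gy_le hN j) hy
  have hn : (0 : ℝ) ≤ n' * η := by positivity
  refine ⟨l₀, j, a, ?_, fun s => ?_⟩
  · have h2 := norm_sub_norm_le (F0 (DLll_gy N j)) (F0 y)
    linarith only [h0, hd, k0, hn, h2]
  · have e : cip (DLll_gu N l₀ a) (F1 (DLll_gy N j) s) =
        conj (u l₀)⁻¹ * cip u (F1 y s) + cip (DLll_gu N l₀ a - (u l₀)⁻¹ • u) (F1 y s) +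
          cip (DLll_gu N l₀ a) (F1 (DLll_gy N j) s - F1 y s) := by
      simp only [cip, Finset.mul_sum, ← Finset.sum_add_distrib]
      refine Finset.sum_congr rfl fun l _ => ?_
      simp only [Pi.sub_apply, Pi.smul_apply, smul_eq_mul, map_sub, map_mul]
      ring
    have b1 : ‖conj (u l₀)⁻¹ * cip u (F1 y s)‖ < η := by
      rw [norm_mul, Complex.norm_conj, norm_inv, hl₀, inv_mul_lt_iff₀ hu, mul_comm]
      exact h1 s
    have b2 : ‖cip (DLll_gu N l₀ a - (u l₀)⁻¹ • u) (F1 y s)‖ ≤ n' * (2 * η) := by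
      refine (norm_cip_le _ _).trans (mul_le_mul_of_nonneg_left ?_ (Nat.cast_nonneg _))
      refine (mul_le_mul hu' ((hF y y hy hy).2 s).1 (norm_nonneg _) (by positivity)).trans ?_
      have h3 : 2 / (N : ℝ) * Λ = 2 * (Λ * (1 / N)) := by ring
      linarith only [hΛN, h3]
    have b3 : ‖cip (DLll_gu N l₀ a) (F1 (DLll_gy N j) s - F1 y s)‖ ≤ n' * (2 * η) :=
      (norm_cip_le _ _).trans (mul_le_mul_of_nonneg_left
        (mul_le_mul (DLll_gu_le l₀ a) ((k1 s).2.trans hd) (norm_nonneg _) zero_le_two)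
        (Nat.cast_nonneg _))
    rw [e]
    have h4 := norm_add₃_le (a := conj (u l₀)⁻¹ * cip u (F1 y s))
      (b := cip (DLll_gu N l₀ a - (u l₀)⁻¹ • u) (F1 y s))
      (c := cip (DLll_gu N l₀ a) (F1 (DLll_gy N j) s - F1 y s))
    linarith only [hη0, b1, b2, b3, h4]

theorem DLll_cond {V A : Type} [Fintype V] [DecidableEq V] [Fintype A] [Nonempty A]
    (E : (V → A) → Prop) (v : V) {δ : ℝ} (hδ : 0 ≤ δ)
    (h : ∀ ω, pr (fun a => E (Function.update ω v a)) ≤ δ) : pr E ≤ δ := by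
  rw [← pr_equiv ((Equiv.prodComm _ _).trans (Equiv.funSplitAt v A).symm) E]
  refine (pr_prod_le _ (fun _ => True) δ hδ (fun _ _ _ => trivial) fun b _ => ?_).trans
    (mul_le_of_le_one_right hδ (pr_le_one _))
  refine le_trans (le_of_eq (congrArg pr (funext fun a => congrArg E ?_)))
    (h ((Equiv.funSplitAt v A).symm (Classical.arbitrary A, b)))
  funext j
  by_cases hj : j = v
  · simp [hj]
  · simp [hj]

/-- the value of the sum -/
noncomputable def DLll_F0 {S I : Type} [Fintype S] {n' : ℕ} (R : ℝ) (A : Finset I) (q : I → Sp S)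
    (la : I → ℂ) (c : I → Co S n') (y : Sp S) : Cn n' := ∑ i ∈ A, la i • J0 R (q i) y (c i)

/-- the derivative of the sum -/
noncomputable def DLll_F1 {S I : Type} [Fintype S] {n' : ℕ} (R : ℝ) (A : Finset I) (q : I → Sp S)
    (la : I → ℂ) (c : I → Co S n') (y : Sp S) (s : S) : Cn n' :=
  ∑ i ∈ A, la i • J1 R (q i) y (c i) s

/-- the coefficients of a sample -/
noncomputable def DLll_cv {S : Type} {n' : ℕ} (N : ℕ) (a : Option S → Fin n' → Gr N) : Co S n' :=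
  fun o l => gv N (a o l)

theorem DLll_cv_le {S : Type} [Fintype S] {n' N : ℕ} (a : Option S → Fin n' → Gr N) :
    ‖DLll_cv N a‖ ≤ 2 :=
  (pi_norm_le_iff_of_nonneg zero_le_two).2 fun _ =>
    (pi_norm_le_iff_of_nonneg zero_le_two).2 fun _ => norm_gv_le _

theorem DLll_sum {I : Type} {n' : ℕ} (A : Finset I) {la : I → ℂ} (hla : ∀ i, ‖la i‖ = 1)
    (f : I → Cn n') {b M : ℝ} (hb : 0 ≤ b) (hM : (A.card : ℝ) ≤ M) (h : ∀ i ∈ A, ‖f i‖ ≤ b) :
    ‖∑ i ∈ A, la i • f i‖ ≤ M * b := by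
  refine (norm_sum_le _ _).trans (le_trans (Finset.sum_le_card_nsmul A _ b fun i hi => ?_) ?_)
  · rw [norm_smul, hla, one_mul]
    exact h i hi
  · rw [nsmul_eq_mul]
    exact mul_le_mul_of_nonneg_right hM hb

theorem DLll_lip {S I : Type} [Fintype S] {n' : ℕ} {R L M : ℝ} (hL : 0 ≤ L) (A : Finset I)
    (q : I → Sp S) {la : I → ℂ} (hla : ∀ i, ‖la i‖ = 1) (c : I → Co S n')
    (hM : (A.card : ℝ) ≤ M)
    (h : ∀ i ∈ A, ∀ y y' : Sp S, ‖y‖ ≤ 1 → ‖y'‖ ≤ 1 →
      ‖J0 R (q i) y (c i) - J0 R (q i) y' (c i)‖ ≤ L * ‖y - y'‖ ∧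
      ∀ s, ‖J1 R (q i) y (c i) s‖ ≤ L ∧
        ‖J1 R (q i) y (c i) s - J1 R (q i) y' (c i) s‖ ≤ L * ‖y - y'‖)
    (y y' : Sp S) (hy : ‖y‖ ≤ 1) (hy' : ‖y'‖ ≤ 1) :
    ‖DLll_F0 R A q la c y - DLll_F0 R A q la c y'‖ ≤ M * L * ‖y - y'‖ ∧
      ∀ s, ‖DLll_F1 R A q la c y s‖ ≤ M * L ∧
        ‖DLll_F1 R A q la c y s - DLll_F1 R A q la c y' s‖ ≤ M * L * ‖y - y'‖ := by
  have hb : 0 ≤ L * ‖y - y'‖ := mul_nonneg hL (norm_nonneg _)
  refine ⟨?_, fun s => ⟨DLll_sum A hla _ hL hM fun i hi => ((h i hi y y' hy hy').2 s).1, ?_⟩⟩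
  · unfold DLll_F0
    rw [← Finset.sum_sub_distrib, mul_assoc]
    simp only [← smul_sub]
    exact DLll_sum A hla _ hb hM fun i hi => (h i hi y y' hy hy').1
  · unfold DLll_F1
    rw [← Finset.sum_sub_distrib, mul_assoc]
    simp only [← smul_sub]
    exact DLll_sum A hla _ hb hM fun i hi => ((h i hi y y' hy hy').2 s).2

theorem DLll_gau {S : Type} [Fintype S] {R : ℝ} (hR : 2 * Fintype.card S + 1 ≤ R) {y : Sp S}
    (hy : ‖y‖ ≤ 1) : Real.exp (-(Real.pi * Fintype.card S)) ≤ gau R y ∧ gau R y ≤ 1 := by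
  have hm : (0 : ℝ) ≤ Fintype.card S := Nat.cast_nonneg _
  have h0 : 0 ≤ nsq y := (sq_nonneg _).trans (norm_sq_le_nsq y)
  have h1 : nsq y ≤ 2 * Fintype.card S :=
    (nsq_le y).trans (mul_le_of_le_one_right (by positivity) (pow_le_one₀ (norm_nonneg _) hy))
  have h2 : nsq y / R ^ 2 ≤ 1 := by
    rw [div_le_one (by linarith only [hR, mul_nonneg_of_nonpos_of_nonpos (Mathlib.Tactic.Linarith.sub_nonpos_of_le (Mathlib.Tactic.Linarith.natCast_nonneg ℝ (Fintype.card S))) (Mathlib.Tactic.Linarith.sub_nonpos_of_le (Mathlib.Tactic.Linarith.natCast_nonneg ℝ (Fintype.card S))), mul_nonneg_of_nonpos_of_nonpos (Mathlib.Tactic.Linarith.sub_nonpos_of_le (Mathlib.Tactic.Linarith.natCast_nonneg ℝ (Fintype.card S))) (Mathlib.Tactic.Linarith.sub_nonpos_of_le hR), mul_nonneg_of_nonpos_of_nonpos (Mathlib.Tactic.Linarith.sub_nonpos_of_le hR) (Mathlib.Tactic.Linarith.sub_nonpos_of_le hR)])]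
    linarith only [hR, h1, sq_nonneg R, mul_nonneg_of_nonpos_of_nonpos (Mathlib.Tactic.Linarith.sub_nonpos_of_le (Mathlib.Tactic.Linarith.natCast_nonneg ℝ (Fintype.card S))) (Mathlib.Tactic.Linarith.sub_nonpos_of_le (Mathlib.Tactic.Linarith.natCast_nonneg ℝ (Fintype.card S))), mul_nonneg_of_nonpos_of_nonpos (Mathlib.Tactic.Linarith.sub_nonpos_of_le (Mathlib.Tactic.Linarith.natCast_nonneg ℝ (Fintype.card S))) (Mathlib.Tactic.Linarith.sub_nonpos_of_le hR), mul_nonneg_of_nonpos_of_nonpos (Mathlib.Tactic.Linarith.sub_nonpos_of_le hR) (Mathlib.Tactic.Linarith.sub_nonpos_of_le hR)]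
  have h3 := Real.pi_pos
  unfold gau
  rw [cut_one h2, one_mul]
  refine ⟨Real.exp_le_exp.2 (by linarith only [h1, h3, mul_nonneg_of_nonpos_of_nonpos (Mathlib.Tactic.Linarith.sub_nonpos_of_le h1) (le_of_lt (Mathlib.Tactic.Linarith.sub_neg_of_lt h3))]), Real.exp_le_one_iff.2 ?_⟩
  have h4 := mul_nonneg h3.le h0
  linarith only [h4]

theorem DLll_cell (S : Type) [Fintype S] [DecidableEq S] (n' : ℕ) :
    ∃ C : ℝ, 0 < C ∧ ∀ R : ℝ, 2 * Fintype.card S + 1 ≤ R → ∀ (N : ℕ) (η : ℝ), 1 ≤ N → 1 ≤ η * N →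
    ∀ (V I : Type) [Fintype V] [DecidableEq V] [DecidableEq I] (A : Finset I) (who : I → V)
      (q : I → Sp S) (la : I → ℂ) (ε : I → S → ℝ) (v : V), (∀ i, ‖la i‖ = 1) →
      (∀ i s, |ε i s| = 1) → (∃ i ∈ A, who i = v ∧ q i = 0 ∧ ∀ j ∈ A, who j = v → j = i) →
      ∀ (y : Sp S) (u : Cn n') (l₀ : Fin n'), ‖y‖ ≤ 1 → ‖u‖ ≤ 2 → u l₀ = 1 →
      pr (fun ω : V → Option S → Fin n' → Gr N =>
        ‖DLll_F0 R A q la (fun i => csg (ε i) (DLll_cv N (ω (who i)))) y‖ < η ∧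
        ∀ s, ‖cip u (DLll_F1 R A q la (fun i => csg (ε i) (DLll_cv N (ω (who i)))) y s)‖ < η) ≤
        (C * η) ^ (2 * (Fintype.card S + n')) := by
  obtain ⟨C, hC, h⟩ := prob_cell S n' (Real.exp_pos (-(Real.pi * Fintype.card S)))
  refine ⟨C, hC, fun R hR N η hN hη V I _ _ _ A who q la ε v hla hε hi y u l₀ hy hu hl => ?_⟩
  obtain ⟨i, hi, hw, hq, huq⟩ := hi
  refine DLll_cond _ v (Even.pow_nonneg (even_two_mul _) _) fun ω => ?_
  obtain ⟨g1, g2⟩ := DLll_gau hR hy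
  have hμ : ‖la i * (ee (-(om 0 y / 2)) * (gau R y : ℝ))‖ = gau R y := by
    rw [norm_mul, norm_mul, hla, norm_ee, one_mul, one_mul, Complex.norm_real,
      Real.norm_of_nonneg ((Real.exp_pos _).le.trans g1)]
  refine le_trans (le_of_eq (congrArg pr (funext fun a => ?_)))
    (h N η hN hη y u l₀ (ε i) (la i * (ee (-(om 0 y / 2)) * (gau R y : ℝ)))
      (DLll_F0 R (A.erase i) q la (fun j => csg (ε j) (DLll_cv N (ω (who j)))) y)
      (DLll_F1 R (A.erase i) q la (fun j => csg (ε j) (DLll_cv N (ω (who j)))) y)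
      hy hu hl (hε i) (g1.trans hμ.ge) (hμ.le.trans g2))
  have hne : ∀ j ∈ A.erase i, Function.update ω v a (who j) = ω (who j) := fun j hj =>
    Function.update_of_ne (fun e => (Finset.mem_erase.1 hj).1
      (huq j (Finset.mem_erase.1 hj).2 e)) _ _
  have hi' : Function.update ω v a (who i) = a := by rw [hw, Function.update_self]
  have e0 : DLll_F0 R A q la (fun j => csg (ε j) (DLll_cv N (Function.update ω v a (who j)))) y =
      DLll_F0 R (A.erase i) q la (fun j => csg (ε j) (DLll_cv N (ω (who j)))) y +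
        (la i * (ee (-(om 0 y / 2)) * (gau R y : ℝ))) • Pc (csg (ε i) (DLll_cv N a)) y := by
    simp only [DLll_F0]
    rw [← Finset.sum_erase_add A _ hi, hi', hq, J0, pk, zero_add, smul_smul, smul_smul, mul_assoc,
      Finset.sum_congr rfl fun j hj => by rw [hne j hj]]
  have e1 : ∀ s,
      DLll_F1 R A q la (fun j => csg (ε j) (DLll_cv N (Function.update ω v a (who j)))) y s =
      DLll_F1 R (A.erase i) q la (fun j => csg (ε j) (DLll_cv N (ω (who j)))) y s +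
        (la i * (ee (-(om 0 y / 2)) * (gau R y : ℝ))) • (csg (ε i) (DLll_cv N a) (some s) -
          ((Real.pi : ℝ) * conj (zc y s)) • Pc (csg (ε i) (DLll_cv N a)) y) := by
    intro s
    simp only [DLll_F1]
    rw [← Finset.sum_erase_add A _ hi, hi', hq, J1, zero_add, smul_smul,
      Finset.sum_congr rfl fun j hj => by rw [hne j hj]]
  simp only [e0, e1]
  rfl

theorem DLll_bad {Ω S : Type} [Fintype Ω] [Fintype S] [DecidableEq S] [Nonempty S] {n' N : ℕ}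
    (hN : 1 ≤ N) {Λ η δ : ℝ} (hΛ : 0 ≤ Λ) (hη : Λ ≤ η * N) (F0 : Ω → Sp S → Cn n')
    (F1 : Ω → Sp S → S → Cn n')
    (hF : ∀ ω, ∀ y y' : Sp S, ‖y‖ ≤ 1 → ‖y'‖ ≤ 1 → ‖F0 ω y - F0 ω y'‖ ≤ Λ * ‖y - y'‖ ∧
      ∀ s, ‖F1 ω y s‖ ≤ Λ ∧ ‖F1 ω y s - F1 ω y' s‖ ≤ Λ * ‖y - y'‖)
    (hc : ∀ (y : Sp S) (u : Cn n') (l₀ : Fin n'), ‖y‖ ≤ 1 → ‖u‖ ≤ 2 → u l₀ = 1 →
      pr (fun ω => ‖F0 ω y‖ < (4 * n' + 2) * η ∧
        ∀ s, ‖cip u (F1 ω y s)‖ < (4 * n' + 2) * η) ≤ δ) :
    pr (fun ω => ∃ y : Sp S, ‖y‖ ≤ 1 ∧ ‖F0 ω y‖ < η ∧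
      ∃ u : Cn n', ∀ s, ‖cip u (F1 ω y s)‖ < η * ‖u‖) ≤
      n' * ((2 * N + 1) ^ (2 * Fintype.card S + 2 * (n' - 1)) * δ) := by
  refine (pr_mono (E' := fun ω => ∃ l₀ ∈ (Finset.univ : Finset (Fin n')),
    ∃ t ∈ (Finset.univ : Finset ((S × Fin 2 → Fin (2 * N + 1)) × ({l // l ≠ l₀} → Gr N))),
      ‖F0 ω (DLll_gy N t.1)‖ < (4 * n' + 2) * η ∧
        ∀ s, ‖cip (DLll_gu N l₀ t.2) (F1 ω (DLll_gy N t.1) s)‖ < (4 * n' + 2) * η) ?_).trans ?_
  · rintro ω ⟨y, hy, h0, u, h1⟩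
    obtain ⟨l₀, j, a, h⟩ := DLll_net hN hΛ hη (F0 ω) (F1 ω) (hF ω) hy h0 h1
    exact ⟨l₀, Finset.mem_univ _, (j, a), Finset.mem_univ _, h⟩
  · refine (pr_exists_le _ _).trans ((Finset.sum_le_card_nsmul _ _
      ((2 * N + 1) ^ (2 * Fintype.card S + 2 * (n' - 1)) * δ) fun l₀ _ => ?_).trans_eq (by simp))
    refine (pr_exists_le _ _).trans ((Finset.sum_le_card_nsmul _ _ δ fun t _ =>
      hc _ _ l₀ (DLll_gy_le hN _) (DLll_gu_le l₀ _) (by simp [DLll_gu])).trans_eq ?_)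
    have h1 : Fintype.card {l // l ≠ l₀} = n' - 1 := by
      rw [Fintype.card_subtype_compl, Fintype.card_fin, Fintype.card_subtype_eq]
    rw [nsmul_eq_mul, Finset.card_univ, Fintype.card_prod, Fintype.card_fun, Fintype.card_fun, h1,
      Fintype.card_prod, Fintype.card_prod, Fintype.card_fin, Fintype.card_fin]
    push_cast
    rw [pow_add, pow_mul _ 2 (n' - 1), sq, mul_comm 2 (Fintype.card S)]

theorem DLll_arith (m n' : ℕ) {x c η B : ℝ} (hx : 0 ≤ x) (hc : 0 ≤ c) (h0 : 0 ≤ η) (h1 : η ≤ 1)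
    (hB : x * η ≤ B) : n' * (x ^ (2 * m + 2 * (n' - 1)) * (c * η) ^ (2 * (m + n'))) ≤
      n' * (B * c) ^ (2 * m + 2 * (n' - 1)) * c ^ 2 * η := by
  cases n' with
  | zero => simp
  | succ k =>
    rw [Nat.add_sub_cancel, show 2 * (m + (k + 1)) = 2 * m + 2 * k + 2 by ring]
    generalize 2 * m + 2 * k = D
    have h2 : (x * η * c) ^ D ≤ (B * c) ^ D :=
      pow_le_pow_left₀ (by positivity) (mul_le_mul_of_nonneg_right hB hc) D
    have h3 : η * η ≤ η := mul_le_of_le_one_right h0 h1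
    calc ((k + 1 : ℕ) : ℝ) * (x ^ D * (c * η) ^ (D + 2))
        = (k + 1 : ℕ) * c ^ 2 * ((x * η * c) ^ D * (η * η)) := by ring
      _ ≤ (k + 1 : ℕ) * c ^ 2 * ((B * c) ^ D * η) :=
        mul_le_mul_of_nonneg_left (mul_le_mul h2 h3 (by positivity)
          ((by positivity : 0 ≤ (x * η * c) ^ D).trans h2)) (by positivity)
      _ = _ := by ring

theorem DLll_const (m n' NL : ℕ) {CL c : ℝ} (hCL : 0 < CL) (hc : 0 < c) :
    ∃ (C : ℝ) (N : ℕ), 0 < C ∧ ∀ R : ℝ, 1 ≤ R → ∃ M N₁ : ℕ, 0 < M ∧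
      (4 * (2 * R + 2) + 4) ^ (2 * m) ≤ M ∧ 1 ≤ N₁ ∧
      M * (CL * R ^ NL) ≤ 1 / (C * R ^ N) * N₁ ∧
      n' * ((2 * N₁ + 1) ^ (2 * m + 2 * (n' - 1)) * (c * (1 / (C * R ^ N))) ^ (2 * (m + n'))) ≤
        1 / (3 * (M : ℝ) ^ 2) := by
  obtain ⟨D, hD⟩ : ∃ D, D = 2 * m + 2 * (n' - 1) := ⟨_, rfl⟩
  obtain ⟨c₀, hc₀⟩ : ∃ c₀ : ℝ, c₀ = 2 * 20 ^ (2 * m) := ⟨_, rfl⟩
  have p₀ : 0 < c₀ := by rw [hc₀]; positivity
  obtain ⟨C₀, hC₀⟩ : ∃ C₀ : ℝ, C₀ = 3 * c₀ ^ 2 * (n' * ((2 * (c₀ * CL) + 3) * c) ^ D * c ^ 2) :=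
    ⟨_, rfl⟩
  have p₁ : 0 ≤ C₀ := by rw [hC₀]; positivity
  refine ⟨C₀ + 1, 2 * m * 2 + (2 * m + NL) * D, by linarith only [p₁], fun R hR => ?_⟩
  have hR0 : 0 < R := by linarith only [hR]
  have r1 : ∀ k : ℕ, 1 ≤ R ^ k := fun k => one_le_pow₀ hR
  obtain ⟨T, hT⟩ : ∃ T : ℝ, T = (C₀ + 1) * R ^ (2 * m * 2 + (2 * m + NL) * D) := ⟨_, rfl⟩
  rw [← hT]
  have hT1 : 1 ≤ T := by
    rw [hT]
    exact one_le_mul_of_one_le_of_one_le (by linarith only [p₁]) (r1 _)
  have hT0 : 0 < T := by linarith only [hT1]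
  obtain ⟨M, hM⟩ : ∃ M : ℕ, M = ⌈(4 * (2 * R + 2) + 4) ^ (2 * m)⌉₊ := ⟨_, rfl⟩
  have hM0 : 0 < M := by
    rw [hM]
    exact Nat.ceil_pos.2 (by positivity)
  have hM0' : (0 : ℝ) < M := by exact_mod_cast hM0
  have hM2 : (M : ℝ) ≤ c₀ * R ^ (2 * m) := by
    have h1 := Nat.ceil_lt_add_one (by positivity : 0 ≤ (4 * (2 * R + 2) + 4) ^ (2 * m))
    have h2 : (4 * (2 * R + 2) + 4) ^ (2 * m) ≤ (20 * R) ^ (2 * m) :=
      pow_le_pow_left₀ (by positivity) (by linarith only [hR]) _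
    have h3 : 1 ≤ (20 * R) ^ (2 * m) := one_le_pow₀ (by linarith only [hR])
    rw [hM, hc₀, mul_assoc, ← mul_pow]
    linarith only [h1, h2, h3]
  have hΛ : 0 < M * (CL * R ^ NL) * T := by positivity
  have hη1 : 1 / T ≤ 1 := (div_le_one hT0).2 hT1
  refine ⟨M, ⌈M * (CL * R ^ NL) * T⌉₊, hM0, hM ▸ Nat.le_ceil _, Nat.ceil_pos.2 hΛ, ?_, ?_⟩
  · rw [one_div, le_inv_mul_iff₀ hT0, mul_comm T]
    exact Nat.le_ceil _
  · have h1 := Nat.ceil_lt_add_one hΛ.le
    have h2 : (2 * (⌈M * (CL * R ^ NL) * T⌉₊ : ℝ) + 1) * (1 / T) ≤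
        (2 * (c₀ * CL) + 3) * R ^ (2 * m + NL) := by
      rw [mul_one_div, div_le_iff₀ hT0]
      have h3 : M * (CL * R ^ NL) * T ≤ c₀ * CL * R ^ (2 * m + NL) * T := by
        refine mul_le_mul_of_nonneg_right ?_ hT0.le
        calc (M : ℝ) * (CL * R ^ NL) ≤ c₀ * R ^ (2 * m) * (CL * R ^ NL) :=
              mul_le_mul_of_nonneg_right hM2 (by positivity)
          _ = _ := by ring
      have h4 : 1 ≤ R ^ (2 * m + NL) * T := one_le_mul_of_one_le_of_one_le (r1 _) hT1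
      linarith only [h1, h3, h4]
    refine (DLll_arith m n' (by positivity) hc.le (by positivity) hη1 h2).trans ?_
    rw [← hD, le_div_iff₀ (by positivity), mul_one_div, div_mul_eq_mul_div, div_le_one hT0]
    have h5 : (M : ℝ) ^ 2 ≤ (c₀ * R ^ (2 * m)) ^ 2 := pow_le_pow_left₀ hM0'.le hM2 2
    calc (n' : ℝ) * ((2 * (c₀ * CL) + 3) * R ^ (2 * m + NL) * c) ^ D * c ^ 2 * (3 * (M : ℝ) ^ 2)
        ≤ n' * ((2 * (c₀ * CL) + 3) * R ^ (2 * m + NL) * c) ^ D * c ^ 2 *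
          (3 * (c₀ * R ^ (2 * m)) ^ 2) :=
          mul_le_mul_of_nonneg_left (by linarith only [h5]) (by positivity)
      _ = C₀ * R ^ (2 * m * 2 + (2 * m + NL) * D) := by
          rw [hC₀, mul_right_comm (2 * (c₀ * CL) + 3), mul_pow _ (R ^ (2 * m + NL)), ← pow_mul,
            mul_pow c₀, ← pow_mul, pow_add R (2 * m * 2)]
          ring
      _ ≤ T := by
          rw [hT]
          exact mul_le_mul_of_nonneg_right (by linarith only []) (by positivity)

theorem flat_lll (S : Type) [Fintype S] [DecidableEq S] [Nonempty S] (n' : ℕ) :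
    ∃ (C : ℝ) (N : ℕ), 0 < C ∧ ∀ R : ℝ, 2 * Fintype.card S + 1 ≤ R →
    ∀ (V I : Type) [Fintype V] [DecidableEq V] [DecidableEq I] (Nb : V → Finset I) (who : I → V)
      (q : V → I → Sp S) (la : V → I → ℂ) (ε : I → S → ℝ),
      (∀ v, ∀ i ∈ Nb v, ‖q v i‖ ≤ 2 * R + 2) →
      (∀ v, ∀ i ∈ Nb v, ∀ j ∈ Nb v, i ≠ j → 1 / 2 ≤ ‖q v i - q v j‖) →
      (∀ v i, ‖la v i‖ = 1) → (∀ i s, |ε i s| = 1) →
      (∀ v, ∃ i ∈ Nb v, who i = v ∧ q v i = 0 ∧ ∀ j ∈ Nb v, who j = v → j = i) →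
      (∀ v v', (∃ i ∈ Nb v, who i = v') → ∃ j ∈ Nb v', who j = v) →
      ∃ c : V → Co S n', (∀ v, ‖c v‖ ≤ 2) ∧ ∀ v (y₀ : Sp S), ‖y₀‖ ≤ 1 →
        ‖∑ i ∈ Nb v, la v i • J0 R (q v i) y₀ (csg (ε i) (c (who i)))‖ < 1 / (C * R ^ N) →
        ∀ u : Cn n', ∃ s, 1 / (C * R ^ N) * ‖u‖ ≤
          ‖cip u (∑ i ∈ Nb v, la v i • J1 R (q v i) y₀ (csg (ε i) (c (who i))) s)‖ := by
  classical
  obtain ⟨CL, NL, hCL, hL⟩ := lip_J S n'
  obtain ⟨C₂, hC₂, hcell⟩ := DLll_cell S n'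
  obtain ⟨C, N, hC, hK⟩ := DLll_const (Fintype.card S) n' NL hCL
    (show 0 < C₂ * (4 * n' + 2) by positivity)
  refine ⟨C, N, hC, fun R hR V I _ _ _ Nb who q la ε hq hsep hla hε hown hsym => ?_⟩
  have hR1 : 1 ≤ R := by
    have : (0 : ℝ) ≤ Fintype.card S := Nat.cast_nonneg _
    linarith only [hR]
  obtain ⟨M, N₁, hM0, hM, hN₁, hΛ, hδ⟩ := hK R hR1
  have hT : 0 < C * R ^ N := by positivity
  obtain ⟨η, hη⟩ : ∃ η : ℝ, η = 1 / (C * R ^ N) := ⟨_, rfl⟩
  have hη0 : 0 < η := by rw [hη]; positivity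
  rw [← hη] at hΛ hδ ⊢
  have hcard : ∀ v, ((Nb v).card : ℝ) ≤ M := fun v =>
    (card_sep (Nb v) (q v) (by linarith only [hR]) (hq v) (hsep v)).trans hM
  have hcard' : ∀ v, ((Nb v).image who).card ≤ M := fun v =>
    Finset.card_image_le.trans (by exact_mod_cast hcard v)
  obtain ⟨N₂, hN₂, hηN⟩ : ∃ N₂ : ℕ, 1 ≤ N₂ ∧ 1 ≤ (4 * n' + 2) * η * N₂ := by
    refine ⟨⌈1 / η⌉₊, Nat.ceil_pos.2 (by positivity), ?_⟩
    have h1 := (div_le_iff₀ hη0).1 (Nat.le_ceil (1 / η))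
    have h2 : (0 : ℝ) ≤ n' * (⌈1 / η⌉₊ * η) := by positivity
    linarith only [h1, h2]
  have hM0' : (0 : ℝ) < M := by exact_mod_cast hM0
  have hbad : ∀ v, pr (fun ω : V → Option S → Fin n' → Gr N₂ => ∃ y : Sp S, ‖y‖ ≤ 1 ∧
      ‖DLll_F0 R (Nb v) (q v) (la v) (fun i => csg (ε i) (DLll_cv N₂ (ω (who i)))) y‖ < η ∧
      ∃ u : Cn n', ∀ s, ‖cip u (DLll_F1 R (Nb v) (q v) (la v)
        (fun i => csg (ε i) (DLll_cv N₂ (ω (who i)))) y s)‖ < η * ‖u‖) ≤
      1 / (3 * (M : ℝ) ^ 2) := by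
    intro v
    refine le_trans (DLll_bad hN₁ (by positivity) hΛ _ _ (fun ω => ?_) fun y u l₀ hy hu hl =>
      hcell R hR N₂ _ hN₂ hηN V I (Nb v) who (q v) (la v) ε v (hla v) hε (hown v) y u l₀ hy hu hl)
      ?_
    · exact DLll_lip (by positivity) (Nb v) (q v) (hla v) _ (hcard v) fun i hi =>
        hL R hR1 (q v i) _ (hq v i hi) (by rw [norm_csg (hε i)]; exact DLll_cv_le _)
    · rw [← mul_assoc C₂]
      exact hδ
  obtain ⟨ω, hω⟩ := lll_fun (V := V) (A := Option S → Fin n' → Gr N₂)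
    (fun v ω => ∃ y : Sp S, ‖y‖ ≤ 1 ∧
      ‖DLll_F0 R (Nb v) (q v) (la v) (fun i => csg (ε i) (DLll_cv N₂ (ω (who i)))) y‖ < η ∧
      ∃ u : Cn n', ∀ s, ‖cip u (DLll_F1 R (Nb v) (q v) (la v)
        (fun i => csg (ε i) (DLll_cv N₂ (ω (who i)))) y s)‖ < η * ‖u‖)
    (fun v _ => (Nb v).image who) M hM0
    (by
      rintro v ω ω' ⟨y, hy, h0, u, h1⟩ h
      have e : ∀ i ∈ Nb v, ω (who i) = ω' (who i) := fun i hi =>
        h _ (Finset.mem_image_of_mem _ hi)
      refine ⟨⟨y, hy, ?_, u, fun s => ?_⟩, rfl⟩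
      · simp only [DLll_F0] at h0 ⊢
        rwa [Finset.sum_congr rfl fun i hi => by rw [← e i hi]]
      · have h2 := h1 s
        simp only [DLll_F1] at h2 ⊢
        rwa [Finset.sum_congr rfl fun i hi => by rw [← e i hi]])
    (fun v _ _ => ⟨by
      obtain ⟨i, hi, -⟩ := hown v
      exact ⟨who i, Finset.mem_image_of_mem _ hi⟩, hcard' v⟩)
    (by
      intro v
      refine le_trans (Finset.sum_le_sum (g := fun v' =>
        if v' ∈ (Nb v).image who then 1 / (3 * (M : ℝ) ^ 2) else 0) fun v' _ => ?_) ?_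
      · split_ifs with h
        · exact (pr_mono fun ω hω => hω.1).trans (hbad v')
        · refine (pr_eq_zero fun ω hω => h ?_).le
          exact Finset.mem_image.2 (hsym v' v (Finset.mem_image.1 hω.2))
      · rw [Finset.sum_ite_mem, Finset.univ_inter, Finset.sum_const, nsmul_eq_mul]
        have h1 : (((Nb v).image who).card : ℝ) ≤ M := by exact_mod_cast hcard' v
        refine (mul_le_mul_of_nonneg_right h1 (by positivity)).trans_eq ?_
        field_simp)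
  refine ⟨fun v => DLll_cv N₂ (ω v), fun v => DLll_cv_le _, fun v y hy h0 u => ?_⟩
  by_contra h
  exact hω v ⟨y, hy, h0, u, fun s => not_le.1 fun e => h ⟨s, e⟩⟩

end Pool.Agent.Work.MP_bf98aa_gt.Th
end

-- merged part: Pool.Agent.Work.MP_bf98aa_gt.Th.DSec
section
/-!
The sum of peaks: smoothness, automorphy, local form.

PLAN. `sec_smooth`: `contDiff_finsum_smul` with `K = mul (p v) '' closedBall 0 (2R)` (`pk_eq_zero`). `sec_auto`: reindex the
finsum by `Equiv.mulRight γ'` (`finsum_comp_equiv`), `Lt.jj_mul`, `ee_int`. `hx_sec`: with `P' = γ⁻¹ • p v'`,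
`mul (-p v') (γ • w) = sg γ.g (mul (-P') w)` (`neg_smul_mul`), `qq = mul (-P') (p v)`, `pk R c (sg g z) = pk R (csg .. c) z`;
for the phases put `q₀ = mul (-p v') (γ • p v)`, `w = mul y₀ y` and use `Lt.phi_smul γ (p v) w`, `phi_cocycle (-p v') (γ • p v) (sg g w)`,
`phi_cocycle (p v) y₀ y`, `phi_cocycle qq y₀ y`, `phi_sg`. Terms outside `Nb` vanish: if `z = mul (mul qq y₀) y` has `‖z‖ < 3R/2` then
`qq = mul (mul z (-y)) (-y₀)` has norm at most `2R+2` by `hb`.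
-/

set_option autoImplicit false

open scoped ContDiff Topology

namespace Pool.Agent.Work.MP_bf98aa_gt.Th

namespace Nil

variable {S G : Type} [Fintype S] [DecidableEq S] [AddCommGroup G] {D : Nil S G} {n' : ℕ}

theorem hx_zero (s : Sp S → Cn n') (x : Sp S) : D.hx s x 0 = s x := by
  simp [hx, nsq, D.phi_zero_right, D.mul_zero, ee_zero]

theorem contDiff_hx {s : Sp S → Cn n'} (hs : ContDiff ℝ ∞ s) :
    ContDiff ℝ ∞ fun p : Sp S × Sp S => D.hx s p.1 p.2 :=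
  ((Complex.ofRealCLM.contDiff.comp
    ((contDiff_const.mul (contDiff_nsq.comp contDiff_snd)).div_const 2).exp).mul
    (contDiff_ee.comp D.contDiff_phi.neg)).smul (hs.comp D.contDiff_mul)

theorem hx_smul {Λ : D.Lt} {s : Sp S → Cn n'}
    (h : ∀ (γ : Λ.Gp) (x : Sp S), s (γ • x) = ee (Lt.jj γ x) • s x) (γ : Λ.Gp) (x y : Sp S) :
    D.hx s (γ • x) (D.sg γ.g y) = ee (Lt.jj γ x) • D.hx s x y := by
  rw [hx, hx, ← Lt.smul_mul, h, Lt.phi_smul, D.nsq_sg, smul_smul, smul_smul, _root_.mul_assoc,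
    ← ee_add, mul_left_comm, ← ee_add]
  congr 3
  ring

variable [Fintype G] {Λ : D.Lt} {V : Type} [Fintype V] [DecidableEq V] {p : V → Sp S} {R : ℝ}

omit [Fintype G] in
theorem DSec_cpt (a : Sp S) (ρ : ℝ) : IsCompact (D.mul a '' Metric.closedBall 0 ρ) :=
  (isCompact_closedBall 0 ρ).image (D.contDiff_mul.continuous.comp (Continuous.prodMk_right a))

omit [Fintype G] in
theorem DSec_mem {a x : Sp S} {ρ : ℝ} (h : ‖D.mul (-a) x‖ ≤ ρ) :
    x ∈ D.mul a '' Metric.closedBall 0 ρ :=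
  ⟨_, mem_closedBall_zero_iff.2 h, D.mul_neg_cancel a x⟩

theorem sec_smooth (hR : 0 < R) (c : V → Co S n') : ContDiff ℝ ∞ (sec Λ p c R) := by
  refine ContDiff.sum fun v _ => contDiff_finsum_smul Λ.act (fun γ => ?_)
    (DSec_cpt (D := D) (p v) (2 * R)) fun γ x hx => ?_
  · have h : ContDiff ℝ ∞ fun x : Sp S => (-p v, γ • x) := contDiff_const.prodMk (Λ.act.smooth γ)
    have h1 : ContDiff ℝ ∞ fun x : Sp S => D.phi (-p v) (γ • x) :=
      D.contDiff_phi.comp (f := fun x : Sp S => (-p v, γ • x)) h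
    have h2 : ContDiff ℝ ∞ fun x : Sp S => D.mul (-p v) (γ • x) :=
      D.contDiff_mul.comp (f := fun x : Sp S => (-p v, γ • x)) h
    have h3 : ContDiff ℝ ∞ fun x : Sp S => pk R (c v) (D.mul (-p v) (γ • x)) :=
      (contDiff_pk R).comp (f := fun x : Sp S => (c v, D.mul (-p v) (γ • x)))
        (contDiff_const.prodMk h2)
    exact (contDiff_ee.comp ((Lt.contDiff_jj γ).add h1).neg).smul h3
  · have := not_le.1 fun h => hx (DSec_mem h)
    rw [pk_eq_zero hR _ (by linarith only [hR, this]), smul_zero]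

theorem sec_auto (c : V → Co S n') (γ : Λ.Gp) (x : Sp S) :
    sec Λ p c R (γ • x) = ee (Lt.jj γ x) • sec Λ p c R x := by
  rw [sec, sec, Finset.smul_sum]
  refine Finset.sum_congr rfl fun v _ => ?_
  rw [smul_finsum]
  refine Eq.trans (finsum_congr fun δ => ?_) (finsum_comp_equiv (Equiv.mulRight γ))
  obtain ⟨z, hz⟩ := Lt.jj_mul δ γ
  rw [Equiv.coe_mulRight, mul_smul, hz, smul_smul (ee _), ← ee_add, ← mul_one (ee (_ + _)),
    ← ee_int z, ← ee_add]
  congr 2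
  ring

theorem exists_Nb (Λ : D.Lt) (p : V → Sp S) (ρ : ℝ) :
    ∃ Nb : V → Finset (V × Λ.Gp), ∀ v i, i ∈ Nb v ↔ ‖qq p v i‖ ≤ ρ := by
  have h : ∀ v, {i : V × Λ.Gp | ‖qq p v i‖ ≤ ρ}.Finite := fun v => by
    choose O hO hf using fun v' => Λ.act.locfin (DSec_cpt (D := D) (p v') ρ) (p v)
    refine (Set.finite_iUnion fun v' => (hf v').image (Prod.mk v')).subset fun i hi => ?_
    refine Set.mem_iUnion.2 ⟨i.1, i.2, ⟨p v, mem_of_mem_nhds (hO i.1), DSec_mem ?_⟩, rfl⟩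
    exact (D.norm_sg i.2.g _).ge.trans hi
  exact ⟨fun v => (h v).toFinset, fun v i => (h v).mem_toFinset⟩

omit [Fintype G] [Fintype V] [DecidableEq V] in
theorem DSec_qq (v : V) (i : V × Λ.Gp) : qq p v i = D.mul (-(i.2⁻¹ • p i.1)) (p v) := by
  rw [← D.sg_sg i.2.g (D.mul (-(i.2⁻¹ • p i.1)) (p v)), ← Lt.neg_smul_mul, smul_inv_smul, qq]

theorem qq_sep (hb : ∀ u v : Sp S, ‖u‖ ≤ 4 * R + 10 → ‖v‖ ≤ 4 * R + 10 →
      ‖D.mul u v - (u + v)‖ ≤ 1 / 4) (hR : 0 < R)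
    (hp : ∀ (v v' : V) (γ : Λ.Gp), v' ≠ v ∨ γ ≠ 1 → 1 ≤ ‖D.mul (-p v') (γ • p v)‖) (v : V)
    {i j : V × Λ.Gp} (hi : ‖qq p v i‖ ≤ 2 * R + 2) (hj : ‖qq p v j‖ ≤ 2 * R + 2) (hij : i ≠ j) :
    1 / 2 ≤ ‖qq p v i - qq p v j‖ := by
  have h1 := hb (qq p v i) (-qq p v j) (by linarith only [hR, hi]) (by rw [norm_neg]; linarith)
  have h2 : 1 ≤ ‖D.mul (qq p v i) (-qq p v j)‖ := by
    rw [DSec_qq, DSec_qq, D.neg_mul_rev, neg_neg, D.mul_assoc, D.mul_neg_cancel,
      ← D.norm_sg i.2.g, ← Lt.neg_smul_mul, smul_inv_smul, ← mul_smul]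
    refine hp _ _ _ (not_and_or.1 fun h => hij (Prod.ext h.1 (mul_inv_eq_one.1 h.2)))
  have h3 := norm_le_insert' (D.mul (qq p v i) (-qq p v j)) (qq p v i + -qq p v j)
  rw [sub_eq_add_neg]
  linarith only [h1, h2, h3]

theorem qq_self (v : V) : qq p v ((v, 1) : V × Λ.Gp) = 0 := by
  rw [qq, one_smul, D.neg_mul, map_zero]

theorem qq_unique (hL : 4 * R + 4 < Λ.L) (v : V) {γ : Λ.Gp}
    (h : ‖qq p v ((v, γ) : V × Λ.Gp)‖ ≤ 2 * R + 2) : γ = 1 := by
  by_contra hγ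
  have := Lt.sep hγ (p v)
  rw [qq, D.norm_sg] at h
  linarith only [hL, h, this]

theorem norm_qq_symm (v v' : V) (γ : Λ.Gp) :
    ‖qq p v' ((v, γ⁻¹) : V × Λ.Gp)‖ = ‖qq p v ((v', γ) : V × Λ.Gp)‖ := by
  rw [DSec_qq, inv_inv, qq, D.norm_sg, ← norm_neg, D.neg_mul_rev, neg_neg]

omit [Fintype G] in
theorem DSec_pk (R : ℝ) (c : Co S n') (g : G) (z : Sp S) :
    pk R c (D.sg g z) = pk R (csg (fun s => sgn (D.ch s g)) c) z := by
  simp only [pk, gau, Pc, csg, D.nsq_sg, D.zc_sg, smul_smul, mul_comm (zc z _)]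

omit [DecidableEq V] in
theorem DSec_sum {Γ M : Type} [AddCommMonoid M] (T : V × Γ → M) {Nb : Finset (V × Γ)}
    (h : ∀ i, i ∉ Nb → T i = 0) : ∑ v, ∑ᶠ γ, T (v, γ) = ∑ i ∈ Nb, T i := by
  have hs : Function.support T ⊆ Nb := fun i hi => by_contra fun hn => hi (h i hn)
  rw [← finsum_eq_sum_of_support_subset T hs, finsum_curry T (Nb.finite_toSet.subset hs),
    finsum_eq_sum_of_fintype]

omit [Fintype G] [Fintype V] [DecidableEq V] in
theorem DSec_pos (v : V) (i : V × Λ.Gp) (y₀ y : Sp S) :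
    D.mul (-p i.1) (i.2 • D.mul (D.mul (p v) y₀) y) =
      D.sg i.2.g (D.mul (D.mul (qq p v i) y₀) y) := by
  rw [D.mul_assoc, D.mul_assoc, Lt.smul_mul, ← D.mul_assoc, ← D.mul_sg _ (qq p v i), qq, D.sg_sg]

omit [Fintype G] [Fintype V] [DecidableEq V] in
theorem DSec_phase (v : V) (i : V × Λ.Gp) (y₀ y : Sp S) :
    -D.phi (D.mul (p v) y₀) y + -(Lt.jj i.2 (D.mul (D.mul (p v) y₀) y) +
      D.phi (-p i.1) (i.2 • D.mul (D.mul (p v) y₀) y)) = D.phi (p v) y₀ + (-tq p v i +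
        -(D.phi (qq p v i) y₀ + D.phi (D.mul (qq p v i) y₀) y)) := by
  have h1 := Lt.phi_smul i.2 (p v) (D.mul y₀ y)
  have h2 := D.phi_cocycle (-p i.1) (i.2 • p v) (D.sg i.2.g (D.mul y₀ y))
  have h3 := D.phi_cocycle (p v) y₀ y
  have h4 := D.phi_cocycle (qq p v i) y₀ y
  have h5 := D.phi_sg i.2.g (qq p v i) (D.mul y₀ y)
  rw [qq, D.sg_sg, ← qq] at h5
  rw [D.mul_assoc, Lt.smul_mul, tq]
  linarith only [h1, h2, h3, h4, h5]

omit [Fintype G] in
theorem DSec_far (hR : 1 ≤ R) (hb : ∀ u v : Sp S, ‖u‖ ≤ 4 * R + 10 → ‖v‖ ≤ 4 * R + 10 →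
      ‖D.mul u v - (u + v)‖ ≤ 1 / 4) {q y₀ y : Sp S} (h0 : ‖y₀‖ ≤ 1) (hy : ‖y‖ < 1 / 4)
    (h : ‖D.mul (D.mul q y₀) y‖ < 3 / 2 * R) : ‖q‖ ≤ 2 * R + 2 := by
  have e : ∀ a b : Sp S, ‖D.mul a b‖ ≤ 4 * R + 10 → ‖b‖ ≤ 4 * R + 10 →
      ‖a‖ ≤ ‖D.mul a b‖ + ‖b‖ + 1 / 4 := fun a b ha hb' => by
    have h1 := hb (D.mul a b) (-b) ha (by rwa [norm_neg])
    rw [D.mul_assoc, D.mul_neg, D.mul_zero] at h1
    have h2 := norm_le_insert' a (D.mul a b + -b)
    have h3 := norm_add_le (D.mul a b) (-b)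
    rw [norm_neg] at h3
    linarith only [h1, h2, h3]
  have h1 := e (D.mul q y₀) y (by linarith only [hR, h]) (by linarith only [hR, hy])
  have h2 := e q y₀ (by linarith only [hR, hy, h, h1]) (by linarith only [hR, h0])
  linarith only [hR, h0, hy, h, h1, h2]

theorem hx_sec (hR : 1 ≤ R) (hb : ∀ u v : Sp S, ‖u‖ ≤ 4 * R + 10 → ‖v‖ ≤ 4 * R + 10 →
      ‖D.mul u v - (u + v)‖ ≤ 1 / 4) (c : V → Co S n') (v : V) {Nb : Finset (V × Λ.Gp)}
    (hNb : ∀ i, i ∈ Nb ↔ ‖qq p v i‖ ≤ 2 * R + 2) {y₀ y : Sp S} (h0 : ‖y₀‖ ≤ 1) (hy : ‖y‖ < 1 / 4) :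
    D.hx (sec Λ p c R) (D.mul (p v) y₀) y = ee (D.phi (p v) y₀) • ∑ i ∈ Nb, ee (-tq p v i) •
      Tm D.br R (qq p v i) y₀ (csg (fun s => sgn (D.ch s i.2.g)) (c i.1)) y := by
  rw [hx, sec, DSec_sum (fun i : V × Λ.Gp => ee (-(Lt.jj i.2 (D.mul (D.mul (p v) y₀) y) +
    D.phi (-p i.1) (i.2 • D.mul (D.mul (p v) y₀) y))) •
      pk R (c i.1) (D.mul (-p i.1) (i.2 • D.mul (D.mul (p v) y₀) y))) (Nb := Nb) fun i hi => ?_,
    Finset.smul_sum, Finset.smul_sum]
  · refine Finset.sum_congr rfl fun i _ => ?_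
    rw [DSec_pos, DSec_pk, Tm, smul_smul, smul_smul, smul_smul, _root_.mul_assoc, ← ee_add,
      DSec_phase, ee_add, ee_add]
    refine congrArg₂ (· • ·) ?_ rfl
    simp only [phi, mul]
    ring
  · rw [DSec_pos, pk_eq_zero (by linarith only [hR]), smul_zero]
    rw [D.norm_sg]
    exact not_lt.1 fun h => hi ((hNb i).2 (DSec_far hR hb h0 hy h))

end Nil

end Pool.Agent.Work.MP_bf98aa_gt.Th
end

-- merged part: Pool.Agent.Work.MP_bf98aa_gt.Th.ZLin
section
/-!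
Linear algebra: negative subspaces and right inverses with bounds.

PLAN. `neg_subspace`: construct `v 0, ..., v 3 ∈ K` pairwise `H`-orthogonal with `H (v i) (v i) < 0`: given `j ≤ 3` of them, the
subspace of `w ∈ K` with `H (v i) w = 0 = H (v i) (J w)` has dimension at least `8 - 2 j > 0`
(kernel of a linear map `K → (Fin j → ℝ × ℝ)`, `LinearMap.finrank_range_add_finrank_ker`); one of `w`, `J w` is negative.
`right_inv`: `A '' closedBall 0 1` is compact and convex; if `f` with `n' ‖f‖ ≤ η` were outside, separate it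
(`geometric_hahn_banach_point_closed` or `_closed_point`); every real linear form on `Cn n'` is `rip u`; `norm_cip_le`.
-/

set_option autoImplicit false

namespace Pool.Agent.Work.MP_bf98aa_gt.Th

theorem ZLin_orth {V : Type} [NormedAddCommGroup V] [NormedSpace ℝ V] [FiniteDimensional ℝ V]
    (J : V →L[ℝ] V) (K : Submodule ℝ V) (hK : 8 ≤ Module.finrank ℝ K)
    (H : V →L[ℝ] V →L[ℝ] ℝ) (hs : ∀ u v, H u v = H v u)
    (h : ∀ v ∈ K, v ≠ 0 → H v v + H (J v) (J v) < 0) (j : ℕ) (hj : j ≤ 4) :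
    ∃ v : Fin j → V, (∀ i, H (v i) (v i) < 0) ∧ ∀ i k, i ≠ k → H (v i) (v k) = 0 := by
  induction j with
  | zero => exact ⟨fun i => i.elim0, fun i => i.elim0, fun i => i.elim0⟩
  | succ j ih =>
    obtain ⟨v, h1, h2⟩ := ih (by omega)
    let φ : K →ₗ[ℝ] (Fin j → ℝ × ℝ) := LinearMap.pi fun i =>
      LinearMap.prod ((H (v i)).toLinearMap.comp K.subtype)
        ((H (v i)).toLinearMap.comp (J.toLinearMap.comp K.subtype))
    have hlt : Module.finrank ℝ (Fin j → ℝ × ℝ) < Module.finrank ℝ K := by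
      rw [Module.finrank_pi_fintype]
      simp only [Module.finrank_prod, Module.finrank_self, Finset.sum_const, Finset.card_univ,
        Fintype.card_fin, smul_eq_mul]
      omega
    obtain ⟨w, hw, hw0⟩ := (Submodule.ne_bot_iff _).1 (LinearMap.ker_ne_bot_of_finrank_lt (f := φ) hlt)
    have hw1 : ∀ i, H (v i) w = 0 ∧ H (v i) (J w) = 0 := by
      intro i
      have := congrFun (LinearMap.mem_ker.1 hw) i
      exact ⟨congrArg Prod.fst this, congrArg Prod.snd this⟩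
    have hw2 := h w w.2 fun e => hw0 (Subtype.ext e)
    obtain ⟨x, hx, hx'⟩ : ∃ x : V, H x x < 0 ∧ ∀ i, H (v i) x = 0 := by
      by_cases hc : H w w < 0
      · exact ⟨w, hc, fun i => (hw1 i).1⟩
      · exact ⟨J w, by linarith only [hw2, hc], fun i => (hw1 i).2⟩
    refine ⟨Fin.cons x v, fun i => ?_, fun i k hik => ?_⟩
    · refine Fin.cases ?_ (fun i => ?_) i
      · simpa using hx
      · simpa using h1 i
    · revert hik
      refine Fin.cases ?_ (fun i => ?_) i <;> refine Fin.cases ?_ (fun k => ?_) k <;> intro hik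
      · exact absurd rfl hik
      · simpa [hs x] using hx' k
      · simpa using hx' i
      · simpa using h2 i k fun e => hik (congrArg Fin.succ e)

theorem neg_subspace {V : Type} [NormedAddCommGroup V] [NormedSpace ℝ V] [FiniteDimensional ℝ V]
    (J : V →L[ℝ] V) (K : Submodule ℝ V) (hJ : ∀ v ∈ K, J v ∈ K) (hK : 8 ≤ Module.finrank ℝ K)
    (H : V →L[ℝ] V →L[ℝ] ℝ) (hs : ∀ u v, H u v = H v u)
    (h : ∀ v ∈ K, v ≠ 0 → H v v + H (J v) (J v) < 0) :
    ∃ v : Fin 4 → V, ∀ c : Fin 4 → ℝ, c ≠ 0 → H (∑ i, c i • v i) (∑ i, c i • v i) < 0 := by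
  obtain ⟨v, h1, h2⟩ := ZLin_orth J K hK H hs h 4 le_rfl
  refine ⟨v, fun c hc => ?_⟩
  have e : H (∑ i, c i • v i) (∑ i, c i • v i) = ∑ i, c i ^ 2 * H (v i) (v i) := by
    rw [map_sum H, ContinuousLinearMap.sum_apply]
    refine Finset.sum_congr rfl fun i _ => ?_
    rw [map_sum, Finset.sum_eq_single i]
    · simp only [map_smul, ContinuousLinearMap.smul_apply, smul_eq_mul]
      ring
    · intro k _ hk
      simp only [map_smul, ContinuousLinearMap.smul_apply, smul_eq_mul]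
      rw [h2 i k (Ne.symm hk)]
      ring
    · intro hi
      exact absurd (Finset.mem_univ i) hi
  rw [e]
  obtain ⟨i, hi⟩ := Function.ne_iff.1 hc
  refine Finset.sum_neg' (fun k _ => ?_) ⟨i, Finset.mem_univ i, ?_⟩
  · exact mul_nonpos_of_nonneg_of_nonpos (sq_nonneg _) (h1 k).le
  · exact mul_neg_of_pos_of_neg (lt_of_le_of_ne (sq_nonneg _) (pow_ne_zero 2 hi).symm) (h1 i)

theorem exists_rip {n' : ℕ} (f : Cn n' →L[ℝ] ℝ) : ∃ u : Cn n', ∀ w, f w = rip u w := by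
  refine ⟨fun l => ⟨f (Pi.single l 1), f (Pi.single l Complex.I)⟩, fun w => ?_⟩
  have e : w = ∑ l, ((w l).re • (Pi.single l 1 : Cn n') + (w l).im • (Pi.single l Complex.I : Cn n')) := by
    funext k
    rw [Finset.sum_apply, Finset.sum_eq_single k]
    · simp
    · intro l _ hl
      simp [Pi.single_eq_of_ne (Ne.symm hl)]
    · intro hk
      exact absurd (Finset.mem_univ k) hk
  conv_lhs => rw [e]
  rw [map_sum, rip, cip, Complex.re_sum]
  refine Finset.sum_congr rfl fun l _ => ?_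
  rw [map_add, map_smul, map_smul]
  simp only [smul_eq_mul, Complex.mul_re, Complex.conj_re, Complex.conj_im]
  ring

theorem right_inv {V : Type} [NormedAddCommGroup V] [NormedSpace ℝ V] [FiniteDimensional ℝ V]
    {n' : ℕ} (A : V →L[ℝ] Cn n') {η : ℝ} (hη : 0 < η)
    (h : ∀ u : Cn n', ∃ v : V, ‖v‖ ≤ 1 ∧ η * ‖u‖ ≤ rip u (A v)) (f : Cn n') :
    ∃ e : V, A e = f ∧ η * ‖e‖ ≤ n' * ‖f‖ := by
  by_cases hf : f = 0
  · exact ⟨0, by rw [hf, map_zero], by rw [hf]; simp⟩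
  have hn : (0 : ℝ) < n' := by
    rcases Nat.eq_zero_or_pos n' with h0 | h0
    · subst h0
      exact absurd (Subsingleton.elim _ _) hf
    · exact_mod_cast h0
  have hf' : 0 < ‖f‖ := norm_pos_iff.2 hf
  have hp : 0 < (n' : ℝ) * ‖f‖ := mul_pos hn hf'
  have hg : (η / (n' * ‖f‖)) • f ∈ A '' Metric.closedBall 0 1 := by
    by_contra hc
    have hcv : Convex ℝ (A '' Metric.closedBall (0 : V) 1) :=
      (convex_closedBall 0 1).linear_image A.toLinearMap
    have hcl : IsClosed (A '' Metric.closedBall (0 : V) 1) :=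
      ((isCompact_closedBall 0 1).image A.continuous).isClosed
    obtain ⟨φ, t, h1, h2⟩ := geometric_hahn_banach_closed_point hcv hcl hc
    obtain ⟨u, hu⟩ := exists_rip φ
    obtain ⟨v, hv, hv'⟩ := h u
    have h3 := h1 (A v) ⟨v, mem_closedBall_zero_iff.2 hv, rfl⟩
    rw [hu] at h2 h3
    have h4 : rip u ((η / (n' * ‖f‖)) • f) ≤ n' * (‖u‖ * ‖(η / (n' * ‖f‖)) • f‖) :=
      (Complex.re_le_norm _).trans (norm_cip_le _ _)
    rw [norm_smul, Real.norm_of_nonneg (div_pos hη hp).le] at h4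
    have h5 : (n' : ℝ) * (‖u‖ * (η / (n' * ‖f‖) * ‖f‖)) = η * ‖u‖ := by
      field_simp
    linarith only [h2, hv', h3, h4, h5]
  obtain ⟨v, hv, hv'⟩ := hg
  refine ⟨(n' * ‖f‖ / η) • v, ?_, ?_⟩
  · rw [map_smul, hv', smul_smul]
    have : (n' : ℝ) * ‖f‖ / η * (η / (n' * ‖f‖)) = 1 := by
      field_simp
    rw [this, one_smul]
  · rw [norm_smul, Real.norm_of_nonneg (div_pos hp hη).le]
    have h1 : η * ((n' : ℝ) * ‖f‖ / η * ‖v‖) = n' * ‖f‖ * ‖v‖ := by
      field_simp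
    rw [h1]
    exact mul_le_of_le_one_right hp.le (mem_closedBall_zero_iff.1 hv)

/-- The vectors whose complex linear image lies on a given line. -/
theorem exists_cx_subspace {S : Type} [Fintype S] {n' : ℕ} (hn : n' + 3 ≤ Fintype.card S)
    (B : Sp S →L[ℝ] Cn n') (hB : ∀ v, B (Jv v) = Complex.I • B v) {h : Cn n'} (hh : h ≠ 0) :
    ∃ K : Submodule ℝ (Sp S), (∀ v ∈ K, Jv v ∈ K) ∧ 8 ≤ Module.finrank ℝ K ∧
      ∀ v ∈ K, ∃ κ : ℂ, B v = κ • h := by
  let ψ : ℂ →ₗ[ℝ] Cn n' := (LinearMap.toSpanSingleton ℂ (Cn n') h).restrictScalars ℝ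
  have hψ : Function.Injective ψ := fun a b e => smul_left_injective ℂ hh e
  have hL : Module.finrank ℝ (LinearMap.range ψ) = 2 := by
    rw [LinearMap.finrank_range_of_inj hψ, Complex.finrank_real_complex]
  let φ := (LinearMap.range ψ).mkQ.comp B.toLinearMap
  have hmem : ∀ v, v ∈ LinearMap.ker φ ↔ ∃ κ : ℂ, B v = κ • h := by
    intro v
    rw [LinearMap.mem_ker, LinearMap.comp_apply, Submodule.mkQ_apply,
      Submodule.Quotient.mk_eq_zero]
    exact ⟨fun ⟨κ, e⟩ => ⟨κ, e.symm⟩, fun ⟨κ, e⟩ => ⟨κ, e.symm⟩⟩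
  refine ⟨LinearMap.ker φ, fun v hv => ?_, ?_, fun v hv => (hmem v).1 hv⟩
  · obtain ⟨κ, e⟩ := (hmem v).1 hv
    exact (hmem _).2 ⟨Complex.I * κ, by rw [hB, e, smul_smul]⟩
  · have h1 := LinearMap.finrank_range_add_finrank_ker φ
    have h2 := Submodule.finrank_le (LinearMap.range φ)
    have h3 := Submodule.finrank_quotient_add_finrank (LinearMap.range ψ)
    have h4 : Module.finrank ℝ (Cn n') = n' * 2 := by
      rw [Module.finrank_pi_fintype]
      simp [Complex.finrank_real_complex]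
    have h5 : Module.finrank ℝ (Sp S) = Fintype.card S * 2 := by
      rw [Module.finrank_fintype_fun_eq_card]
      simp
    omega

end Pool.Agent.Work.MP_bf98aa_gt.Th
end

-- merged part: Pool.Agent.Work.MP_bf98aa_gt.Th.ZGood
section
/-!
Consequences of the estimates: index of the critical points, regularity and nondegeneracy of the zero set.

PLAN. `Φ = mul x` (`exists_homeo`), `h = hx s x`, `f y = nsc (s (mul x y)) = exp (-π nsq y) * nsc (h y)`. `fderiv f 0 v = 2 rip (h 0) (Dh v)`,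
`D2 f 0 v v = -2π nsq v * nsc (h 0) + 2 nsc (Dh v) + 2 rip (h 0) (D2 h 0 v v)` (restrict to lines, `hasDerivAt_D2`).
If `fderiv f 0 = 0` and `h 0 ≠ 0` then `η ≤ ‖h 0‖` by `trans` with `u = h 0`. Let `B v = (1/2) (Dh v - I • Dh (Jv v))` (complex linear),
`‖Dh v - B v‖ ≤ δ ‖v‖ / 2` by `hol1`; `K` from `exists_cx_subspace`. For `v ∈ K`, `B v = κ • h 0`, and `rip (h 0) (Dh v) = 0 = rip (h 0) (Dh (Jv v))`
give `‖κ‖ nsc (h 0) ≤ C δ ‖v‖ ‖h 0‖`, so `‖Dh v‖ ≤ C δ ‖v‖`; the sum of the two second derivatives is at most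
`-4π η² ‖v‖² (‖h 0‖/η)² + C δ² ‖v‖² + C δ ‖h 0‖ ‖v‖² < 0`. Finish with `neg_subspace`, `D2_symm`.
At a zero `z`: `fderiv (hx s z) 0 = fderiv s z ∘ fr z`. `symp`: `c₀ ‖v‖² ≤ w₀ ![v, Jv v]` by compactness; for `v' = th z v` in the kernel of
`A = fderiv (hx s z) 0` take `e` with `A e = A (Jv v')` from `right_inv` and test with `fr z (Jv v' - e)`.
-/

set_option autoImplicit false

open scoped ContDiff Topology

namespace Pool.Agent.Work.MP_bf98aa_gt.Th

section Aux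

variable {S : Type} [Fintype S] {n' : ℕ}

theorem ZGood_nsc_smul (c : ℂ) (w : Cn n') : nsc (c • w) = Complex.normSq c * nsc w := by
  simp only [nsc, Pi.smul_apply, smul_eq_mul, map_mul, Finset.mul_sum]

theorem ZGood_normSq_ee (t : ℝ) : Complex.normSq (ee t) = 1 := by
  rw [Complex.normSq_eq_norm_sq, norm_ee, one_pow]

theorem ZGood_cip_smul (u w : Cn n') (c : ℂ) : cip u (c • w) = c * cip u w := by
  simp only [cip, Pi.smul_apply, smul_eq_mul, Finset.mul_sum, mul_left_comm]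

theorem ZGood_cip_sub (u w w' : Cn n') : cip u (w - w') = cip u w - cip u w' := by
  simp only [cip, Pi.sub_apply, mul_sub, Finset.sum_sub_distrib]

theorem ZGood_cip_self (u : Cn n') : cip u u = (nsc u : ℝ) := by
  simp only [cip, nsc, Complex.ofReal_sum, Complex.normSq_eq_conj_mul_self]

theorem ZGood_rip_comm (u w : Cn n') : rip u w = rip w u := by
  simp only [rip, cip, Complex.re_sum, Complex.mul_re, Complex.conj_re, Complex.conj_im]
  exact Finset.sum_congr rfl fun l _ => by ring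

theorem ZGood_rip_le (u w : Cn n') : rip u w ≤ n' * (‖u‖ * ‖w‖) :=
  (Complex.re_le_norm _).trans (norm_cip_le u w)

theorem ZGood_rip (n' : ℕ) : ∃ R : Cn n' →L[ℝ] Cn n' →L[ℝ] ℝ, ∀ u w, rip u w = R u w := by
  let a : Fin n' → Cn n' →L[ℝ] ℝ := fun l =>
    Complex.reCLM.comp (ContinuousLinearMap.proj (R := ℝ) (φ := fun _ : Fin n' => ℂ) l)
  let b : Fin n' → Cn n' →L[ℝ] ℝ := fun l =>
    Complex.imCLM.comp (ContinuousLinearMap.proj (R := ℝ) (φ := fun _ : Fin n' => ℂ) l)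
  refine ⟨∑ l, ((a l).smulRight (a l) + (b l).smulRight (b l)), fun u w => ?_⟩
  simp [rip, cip, a, b]

theorem ZGood_line {h : Sp S → Cn n'} (hh : ContDiff ℝ ∞ h) (v : Sp S) :
    fderiv ℝ (fun y => Real.exp (-(Real.pi * nsq y)) * nsc (h y)) 0 v =
        2 * rip (h 0) (fderiv ℝ h 0 v) ∧
      D2 (fun y => Real.exp (-(Real.pi * nsq y)) * nsc (h y)) 0 v v =
        -(2 * Real.pi * nsq v) * nsc (h 0) + 2 * nsc (fderiv ℝ h 0 v) +
          2 * rip (h 0) (D2 h 0 v v) := by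
  obtain ⟨R, hR⟩ := ZGood_rip n'
  have hg : ContDiff ℝ ∞ fun y => Real.exp (-(Real.pi * nsq y)) * nsc (h y) :=
    (Real.contDiff_exp.comp (contDiff_const.mul contDiff_nsq).neg).mul (contDiff_nsc.comp hh)
  obtain ⟨g1, g2⟩ := hasDerivAt_D2 (x := 0) hg.contDiffAt v
  obtain ⟨p1, p2⟩ := hasDerivAt_D2 (x := 0) hh.contDiffAt v
  have hq : ∀ t : ℝ, nsq ((0 : Sp S) + t • v) = t ^ 2 * nsq v := fun t => by
    simp only [nsq, zero_add, Pi.smul_apply, smul_eq_mul, mul_pow, Finset.mul_sum]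
  have hE : ∀ t : ℝ, HasDerivAt (fun t : ℝ => Real.exp (-(Real.pi * (t ^ 2 * nsq v))))
      (Real.exp (-(Real.pi * (t ^ 2 * nsq v))) * (-(2 * Real.pi * nsq v) * t)) t := fun t => by
    refine ((((hasDerivAt_pow 2 t).mul_const (nsq v)).const_mul Real.pi).fun_neg.exp).congr_deriv ?_
    simp only [Nat.cast_ofNat, Nat.add_one_sub_one, pow_one]
    ring
  have key : (fun t : ℝ => fderiv ℝ (fun y => Real.exp (-(Real.pi * nsq y)) * nsc (h y))
      (0 + t • v) v) =ᶠ[𝓝 0] fun t : ℝ => Real.exp (-(Real.pi * (t ^ 2 * nsq v))) *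
        (-(2 * Real.pi * nsq v) * t * R (h (0 + t • v)) (h (0 + t • v)) +
          2 * R (h (0 + t • v)) (fderiv ℝ h (0 + t • v) v)) := by
    filter_upwards [g2, p2] with t a b
    simp only [hq, ← rip_self, hR] at a ⊢
    have c := (hE t).fun_mul ((R.hasFDerivAt.comp_hasDerivAt t b).clm_apply b)
    refine (a.unique c).trans ?_
    have e : R (fderiv ℝ h (0 + t • v) v) (h (0 + t • v)) =
        R (h (0 + t • v)) (fderiv ℝ h (0 + t • v) v) := by rw [← hR, ← hR, ZGood_rip_comm]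
    simp only [Function.comp_apply, e]
    ring
  constructor
  · have := key.self_of_nhds
    simpa [hR] using this
  · have b := p2.self_of_nhds
    have c := (hE 0).fun_mul ((((hasDerivAt_id' (0 : ℝ)).const_mul
      (-(2 * Real.pi * nsq v))).fun_mul
        ((R.hasFDerivAt.comp_hasDerivAt 0 b).clm_apply b)).fun_add
      (((R.hasFDerivAt.comp_hasDerivAt 0 b).clm_apply p1).const_mul 2))
    refine (g1.unique (c.congr_of_eventuallyEq key)).trans ?_
    simp only [← rip_self, hR, Function.comp_apply, zero_smul, add_zero, mul_zero, zero_mul,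
      ne_eq, OfNat.ofNat_ne_zero, not_false_eq_true, zero_pow, neg_zero, Real.exp_zero]
    ring

theorem ZGood_small {u : Cn n'} (hu : u ≠ 0) {a b : Cn n'} {κ : ℂ} {ε : ℝ} (ha : rip u a = 0)
    (hb : rip u b = 0) (h : ‖b - Complex.I • a‖ ≤ ε)
    (hκ : (1 / 2 : ℝ) • (a - Complex.I • b) = κ • u) : ‖a‖ ≤ (n' + 1) * ε := by
  have hε : 0 ≤ ε := (norm_nonneg _).trans h
  have hu0 : 0 < ‖u‖ := norm_pos_iff.2 hu
  have hn : (0 : ℝ) ≤ n' := n'.cast_nonneg
  have h1 : a - Complex.I • b = (2 * κ) • u := by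
    rw [mul_smul, ← hκ, two_smul, ← add_smul]
    norm_num
  have h2 : cip u a - Complex.I * cip u b =
      Complex.I * (starRingEnd ℂ) (cip u b - Complex.I * cip u a) := by
    have ha' : (cip u a).re = 0 := ha
    have hb' : (cip u b).re = 0 := hb
    apply Complex.ext <;> simp [ha', hb']
  have h3 : ‖2 * κ‖ * nsc u ≤ n' * (‖u‖ * ε) := by
    have e := congrArg (cip u) h1
    rw [ZGood_cip_sub, ZGood_cip_smul, ZGood_cip_smul, ZGood_cip_self, h2, ← ZGood_cip_smul,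
      ← ZGood_cip_sub] at e
    have e' := congrArg norm e
    rw [norm_mul, Complex.norm_I, one_mul, Complex.norm_conj, norm_mul, Complex.norm_real,
      Real.norm_of_nonneg ((sq_nonneg _).trans (norm_sq_le_nsc u))] at e'
    rw [← e']
    exact (norm_cip_le _ _).trans (by gcongr)
  have h4 : ‖2 * κ‖ * ‖u‖ ≤ n' * ε := by
    refine le_of_mul_le_mul_right ?_ hu0
    have := mul_le_mul_of_nonneg_left (norm_sq_le_nsc u) (norm_nonneg (2 * κ))
    linarith only [h3, this]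
  have h5 : (2 : ℂ) • a = (2 * κ) • u + Complex.I • (b - Complex.I • a) := by
    rw [← h1, smul_sub, smul_smul, Complex.I_mul_I, two_smul, neg_one_smul]
    abel
  have h6 := congrArg norm h5
  have h7 := norm_add_le ((2 * κ) • u) (Complex.I • (b - Complex.I • a))
  rw [norm_smul, norm_smul, Complex.norm_I, one_mul] at h7
  rw [norm_smul, Complex.norm_ofNat] at h6
  linarith only [h, h4, h6, h7, norm_nonneg a]

theorem ZGood_num {N U V δ q w a₁ a₂ r : ℝ} (hN : 0 ≤ N) (hU : 0 < U) (hV : 0 < V) (hδ : 0 ≤ δ)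
    (h : (N + 1) ^ 2 * δ ≤ U) (hq : V ^ 2 ≤ q) (hw : U ^ 2 ≤ w)
    (h1 : a₁ ≤ N * ((N + 1) * (δ * V)) ^ 2) (h2 : a₂ ≤ N * ((N + 1) * (δ * V)) ^ 2)
    (h3 : r ≤ N * (U * (δ * V ^ 2))) :
    -(4 * Real.pi * (q * w)) + 2 * a₁ + 2 * a₂ + 2 * r < 0 := by
  have e0 : 0 < V ^ 2 * U ^ 2 := by positivity
  have e1 : V ^ 2 * U ^ 2 ≤ q * w := mul_le_mul hq hw (by positivity) (by linarith only [hq, sq_nonneg V])
  have e2 : N ≤ (N + 1) ^ 2 := by linarith only [hN, sq_nonneg (N + (1 : ℝ)), mul_nonneg_of_nonpos_of_nonpos (Mathlib.Tactic.Linarith.sub_nonpos_of_le hN) (Mathlib.Tactic.Linarith.sub_nonpos_of_le hN)]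
  have e3 : N * δ ≤ U := (mul_le_mul_of_nonneg_right e2 hδ).trans h
  have e4 : N * ((N + 1) * (δ * V)) ^ 2 ≤ V ^ 2 * U ^ 2 := by
    calc N * ((N + 1) * (δ * V)) ^ 2 = V ^ 2 * ((N * δ) * ((N + 1) ^ 2 * δ)) := by ring
      _ ≤ V ^ 2 * (U * U) := by gcongr
      _ = V ^ 2 * U ^ 2 := by ring
  have e5 : N * (U * (δ * V ^ 2)) ≤ V ^ 2 * U ^ 2 := by
    calc N * (U * (δ * V ^ 2)) = V ^ 2 * (U * (N * δ)) := by ring
      _ ≤ V ^ 2 * (U * U) := by gcongr
      _ = V ^ 2 * U ^ 2 := by ring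
  have e6 : 3 * (q * w) ≤ Real.pi * (q * w) :=
    mul_le_mul_of_nonneg_right Real.pi_gt_three.le (e0.le.trans e1)
  linarith only [h1, h2, h3, e0, e1, e4, e5, e6]

theorem ZGood_neg (hn : n' + 3 ≤ Fintype.card S) {h : Sp S → Cn n'} (hh : ContDiff ℝ ∞ h)
    {δ : ℝ} (hδ : 0 ≤ δ) (hu : h 0 ≠ 0) (hU : (n' + 1) ^ 2 * δ ≤ ‖h 0‖)
    (h0 : ∀ v, rip (h 0) (fderiv ℝ h 0 v) = 0)
    (h1 : ∀ v, ‖fderiv ℝ h 0 (Jv v) - Complex.I • fderiv ℝ h 0 v‖ ≤ δ * ‖v‖)
    (h2 : ∀ v, ‖D2 h 0 v v + D2 h 0 (Jv v) (Jv v)‖ ≤ δ * ‖v‖ ^ 2) :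
    NegDir fun y => Real.exp (-(Real.pi * nsq y)) * nsc (h y) := by
  obtain ⟨J, hJ⟩ := exists_JL (S := S)
  obtain ⟨R, hR⟩ := ZGood_rip n'
  have hg : ContDiff ℝ ∞ fun y => Real.exp (-(Real.pi * nsq y)) * nsc (h y) :=
    (Real.contDiff_exp.comp (contDiff_const.mul contDiff_nsq).neg).mul (contDiff_nsc.comp hh)
  let B : Sp S →L[ℝ] Cn n' := (1 / 2 : ℝ) • (fderiv ℝ h 0 - Complex.I • (fderiv ℝ h 0).comp J)
  have hB : ∀ v, B v = (1 / 2 : ℝ) • (fderiv ℝ h 0 v - Complex.I • fderiv ℝ h 0 (Jv v)) :=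
    fun v => by rw [hJ]; rfl
  obtain ⟨K, k1, k2, k3⟩ := exists_cx_subspace hn B (fun v => by
    rw [hB, hB, Jv_Jv, map_neg, smul_comm Complex.I, smul_sub Complex.I, smul_smul Complex.I,
      Complex.I_mul_I, neg_one_smul, smul_neg, sub_neg_eq_add, sub_neg_eq_add, add_comm]) hu
  have hn0 : (0 : ℝ) ≤ n' := n'.cast_nonneg
  have hA : ∀ v ∈ K, nsc (fderiv ℝ h 0 v) ≤ n' * ((n' + 1) * (δ * ‖v‖)) ^ 2 := fun v hv => by
    obtain ⟨κ, hκ⟩ := k3 v hv
    rw [hB] at hκ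
    have := ZGood_small hu (h0 v) (h0 _) (h1 v) hκ
    exact (nsc_le _).trans (by gcongr)
  refine neg_subspace J K (fun v hv => hJ v ▸ k1 v hv) k2 _
    (D2_symm hg.contDiffAt) fun v hv hv0 => ?_
  have a1 := hA v hv
  have a2 := hA _ (k1 v hv)
  rw [norm_Jv] at a2
  have a3 : rip (h 0) (D2 h 0 v v + D2 h 0 (Jv v) (Jv v)) ≤ n' * (‖h 0‖ * (δ * ‖v‖ ^ 2)) :=
    (ZGood_rip_le _ _).trans (by have := h2 v; gcongr)
  have a4 := ZGood_num hn0 (norm_pos_iff.2 hu) (norm_pos_iff.2 hv0) hδ hU (norm_sq_le_nsq v)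
    (norm_sq_le_nsc (h 0)) a1 a2 a3
  rw [← hJ, (ZGood_line hh v).2, (ZGood_line hh (Jv v)).2, nsq_Jv]
  rw [hR, map_add, ← hR, ← hR] at a4
  linarith only [a4]

theorem ZGood_pos {B : Sp S →L[ℝ] Sp S →L[ℝ] ℝ} (hw : ∀ v, v ≠ 0 → 0 < B v (Jv v)) :
    ∃ c : ℝ, 0 < c ∧ ∀ v, c * ‖v‖ ^ 2 ≤ B v (Jv v) := by
  obtain ⟨J, hJ⟩ := exists_JL (S := S)
  simp only [hJ] at hw ⊢
  obtain ⟨c, hc, h⟩ := (isCompact_sphere (0 : Sp S) 1).exists_forall_le'
    (f := fun v => B v (J v)) (by fun_prop) (a := 0) fun v hv => hw v (by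
      rintro rfl
      simp at hv)
  refine ⟨c, hc, fun v => ?_⟩
  by_cases hv : v = 0
  · simp [hv]
  have h0 : ‖v‖ ≠ 0 := norm_ne_zero_iff.2 hv
  have h1 := h (‖v‖⁻¹ • v) (by simp [norm_smul, h0])
  simp only [map_smul, smul_apply, smul_eq_mul] at h1
  have h2 := mul_le_mul_of_nonneg_right h1 (sq_nonneg ‖v‖)
  refine h2.trans (le_of_eq ?_)
  field_simp

end Aux

namespace Nil

variable {S G : Type} [Fintype S] [DecidableEq S] [AddCommGroup G] {n' : ℕ}

theorem fderiv_hx_of_zero {D : Nil S G} {s : Sp S → Cn n'} (hs : ContDiff ℝ ∞ s) {z : Sp S}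
    (hz : s z = 0) : fderiv ℝ (D.hx s z) 0 = (fderiv ℝ s z).comp (D.fr z) := by
  have ha : ContDiff ℝ ∞ fun y : Sp S =>
      ((Real.exp (Real.pi * nsq y / 2) : ℝ) : ℂ) * ee (-D.phi z y) :=
    (Complex.ofRealCLM.contDiff.comp
      (Real.contDiff_exp.comp ((contDiff_const.mul contDiff_nsq).div_const 2))).mul
      (contDiff_ee.comp (D.contDiff_phi.comp (contDiff_const.prodMk contDiff_id)).neg)
  have h1 : HasFDerivAt s (fderiv ℝ s z) (D.mul z 0) := by
    rw [D.mul_zero]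
    exact (hs.differentiable (by simp) z).hasFDerivAt
  have h2 := (ha.differentiable (by simp) 0).hasFDerivAt.smul
    (h1.comp 0 (D.hasFDerivAt_mul_zero z))
  refine h2.fderiv.trans (ContinuousLinearMap.ext fun v => ?_)
  simp [D.mul_zero, hz, D.phi_zero_right, ee_zero, nsq]

theorem Don.nsc_smul {D : Nil S G} {Λ : D.Lt} {s : Sp S → Cn n'} {η δ : ℝ} (h : Don Λ s η δ)
    (γ : Λ.Gp) (x : Sp S) : nsc (s (γ • x)) = nsc (s x) := by
  rw [h.auto, ZGood_nsc_smul, ZGood_normSq_ee, one_mul]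

theorem Don.surj {D : Nil S G} {Λ : D.Lt} {s : Sp S → Cn n'} {η δ : ℝ} (h : Don Λ s η δ)
    (hη : 0 < η) {z : Sp S} (hz : s z = 0) : Function.Surjective (fderiv ℝ s z) := by
  intro f
  obtain ⟨e, he, -⟩ := right_inv _ hη (h.trans z (by rwa [hz, norm_zero])) f
  rw [fderiv_hx_of_zero h.smooth hz] at he
  exact ⟨_, he⟩

theorem good (S G : Type) [Fintype S] [DecidableEq S] [AddCommGroup G] (n' : ℕ)
    (hn : n' + 3 ≤ Fintype.card S) : ∃ θ : ℝ, 0 < θ ∧ ∀ (D : Nil S G) (Λ : D.Lt)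
      (s : Sp S → Cn n') (η δ : ℝ), 0 < η → 0 ≤ δ → δ ≤ θ * η → Don Λ s η δ →
      ∀ x, 0 < nsc (s x) → GoodAt (fun y => nsc (s y)) x := by
  have hm : (0 : ℝ) < (n' + 1) ^ 2 := by positivity
  refine ⟨1 / (n' + 1) ^ 2, by positivity, fun D Λ s η δ hη hδ hθ h x hp => ?_⟩
  obtain ⟨Φ, e1, e2⟩ := D.exists_homeo x
  have hc : ∀ a, ContDiff ℝ ∞ (D.mul a) := fun a =>
    D.contDiff_mul.comp (contDiff_const.prodMk contDiff_id)
  refine ⟨Φ, by rw [e1]; exact hc x, by rw [e2]; exact hc (-x), by rw [e1, D.mul_zero], ?_⟩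
  have hh : ContDiff ℝ ∞ (D.hx s x) :=
    ((contDiff_hx (D := D) h.smooth).comp (f := fun y => (x, y))
      (contDiff_const.prodMk contDiff_id) :)
  have e : (fun y => nsc (s y)) ∘ Φ =
      fun y => Real.exp (-(Real.pi * nsq y)) * nsc (D.hx s x y) := by
    funext y
    rw [hx, ZGood_nsc_smul, map_mul, ZGood_normSq_ee, Complex.normSq_ofReal, mul_one,
      ← Real.exp_add, add_halves, ← _root_.mul_assoc, ← Real.exp_add, neg_add_cancel,
      Real.exp_zero, one_mul, e1, Function.comp_apply]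
  rw [e]
  refine or_iff_not_imp_left.2 fun h0 => ?_
  have hu : D.hx s x 0 ≠ 0 := by
    rw [hx_zero]
    intro k
    rw [k] at hp
    simp [nsc] at hp
  have h1 : ∀ v, rip (D.hx s x 0) (fderiv ℝ (D.hx s x) 0 v) = 0 := fun v => by
    have := (ZGood_line hh v).1
    rw [not_not.1 h0, zero_apply] at this
    linarith only [this]
  have h2 : η ≤ ‖D.hx s x 0‖ := by
    by_contra k
    obtain ⟨v, -, hv⟩ := h.trans x (by rw [← hx_zero (D := D) s x]; exact not_le.1 k) (D.hx s x 0)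
    rw [h1] at hv
    exact absurd (mul_pos hη (norm_pos_iff.2 hu)) (not_lt.2 hv)
  refine ZGood_neg hn hh hδ hu (le_trans ?_ h2) h1 (h.hol1 x) (h.hol2 x)
  rwa [one_div, inv_mul_eq_div, le_div_iff₀' hm] at hθ

theorem symp (G : Type) [AddCommGroup G] (n' : ℕ) {w₀ : Alt (Sp S) 2}
    (hw : ∀ v, v ≠ 0 → 0 < w₀ ![v, Jv v]) : ∃ θ : ℝ, 0 < θ ∧ ∀ (D : Nil S G) (Λ : D.Lt)
      (s : Sp S → Cn n') (η δ : ℝ), 0 < η → 0 ≤ δ → δ ≤ θ * η → Don Λ s η δ →
      ∀ z v, s z = 0 → fderiv ℝ s z v = 0 →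
        (∀ v', fderiv ℝ s z v' = 0 → D.lf w₀ z ![v, v'] = 0) → v = 0 := by
  obtain ⟨B, hB⟩ := exists_bilin w₀
  obtain ⟨c, hc, h0⟩ := ZGood_pos (B := B) fun v hv => hB v (Jv v) ▸ hw v hv
  have hm : (0 : ℝ) < ‖B‖ * n' + 1 := by positivity
  refine ⟨c / (‖B‖ * n' + 1), by positivity, fun D Λ s η δ hη hδ hθ h z v hz hv ht => ?_⟩
  have hA := fderiv_hx_of_zero (D := D) h.smooth hz
  have a1 : fderiv ℝ (D.hx s z) 0 (D.th z v) = 0 := by
    rw [hA, ContinuousLinearMap.comp_apply, D.fr_th, hv]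
  have a2 := h.hol1 z (D.th z v)
  rw [a1, smul_zero, sub_zero] at a2
  obtain ⟨e, b1, b2⟩ := right_inv _ hη (h.trans z (by rwa [hz, norm_zero]))
    (fderiv ℝ (D.hx s z) 0 (Jv (D.th z v)))
  have a3 := ht (D.fr z (Jv (D.th z v) - e)) (by
    rw [← ContinuousLinearMap.comp_apply, ← hA, map_sub, b1, sub_self])
  rw [lf, NLf_two, D.th_fr, hB, map_sub, sub_eq_zero] at a3
  have a4 := h0 (D.th z v)
  rw [a3] at a4
  have a5 : B (D.th z v) e ≤ ‖B‖ * ‖D.th z v‖ * ‖e‖ := (le_abs_self _).trans (B.le_opNorm₂ _ _)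
  rw [← D.fr_th z v]
  generalize D.th z v = u at *
  have a6 : u = 0 := by
    by_contra k
    have hu : 0 < ‖u‖ := norm_pos_iff.2 k
    have hn : (0 : ℝ) ≤ n' := n'.cast_nonneg
    have c1 : η * ‖e‖ ≤ n' * (δ * ‖u‖) := b2.trans (by gcongr)
    have c2 : c * ‖u‖ ≤ ‖B‖ * ‖e‖ := by
      refine le_of_mul_le_mul_right ?_ hu
      linarith only [a4, a5]
    have c3 : δ * (‖B‖ * n' + 1) ≤ c * η := by
      rwa [div_mul_eq_mul_div, le_div_iff₀ hm] at hθ
    have c4 : η * (c * ‖u‖) ≤ ‖B‖ * (n' * (δ * ‖u‖)) := by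
      calc η * (c * ‖u‖) ≤ η * (‖B‖ * ‖e‖) := by gcongr
        _ = ‖B‖ * (η * ‖e‖) := by ring
        _ ≤ _ := by gcongr
    have c5 : c * η ≤ δ * (‖B‖ * n') := by
      refine le_of_mul_le_mul_right ?_ hu
      linarith only [c4]
    have c6 : δ = 0 := by nlinarith
    rw [c6, MulZeroClass.zero_mul] at c5
    exact absurd (mul_pos hc hη) (not_lt.2 c5)
  rw [a6, map_zero]

end Nil

end Pool.Agent.Work.MP_bf98aa_gt.Th
end
end

-- merged part: Pool.Agent.Work.MP_bf98aa_gt.Th.IMain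
section
-- merged part: Pool.Agent.Work.MP_bf98aa_gt.Th.ITau
section
/-!
Thom forms.

PLAN. Write `ξ = re s_l`, `ζ = im s_l`, `N = ξ² + ζ²`. The function `g N = rr (N / ε²) / N` is smooth (it vanishes for `N < ε² / 2`) and
`g' N * N + g N = deriv rr (N / ε²) / ε²` for all `N`. `d_aF`: `extDeriv_one_apply`, product rule, `D2_symm`.
`aF_nat`: differentiate `s (f x) = ee (j x) • s x`. `tele`: replace the `tauG` by `2π • lf omA` one slot at a time (induction on a finite set of slots,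
`exists_pfM`, `MultilinearMap.map_update_add`), using `d_aF`, `d_lam`, `inv_stokes`, `aF_nat` with `lam_smul`; finally `pf_smul`, `pf_comp`, `det_th`.
-/

set_option autoImplicit false

open scoped ContDiff Topology
open Set MeasureTheory

namespace Pool.Agent.Work.MP_bf98aa_gt.Th

variable {S : Type} [Fintype S] {n n' : ℕ} {s : Sp S → Cn n'} {lam : Sp S → Sp S →L[ℝ] ℝ}

theorem contDiff_rr : ContDiff ℝ ∞ rr := by
  exact Real.smoothTransition.contDiff.comp ((contDiff_const.mul contDiff_id).sub contDiff_const)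

theorem rr_one {t : ℝ} (h : 1 ≤ t) : rr t = 1 ∧ deriv rr t = 0 := by
  have h1 : rr t = 1 := Real.smoothTransition.one_of_one_le (by linarith only [h])
  refine ⟨h1, IsLocalMax.deriv_eq_zero (Filter.Eventually.of_forall fun y => ?_)⟩
  rw [h1]
  exact Real.smoothTransition.le_one _

theorem ITau_zero {t : ℝ} (h : t ≤ 1 / 2) : rr t = 0 :=
  Real.smoothTransition.zero_of_nonpos (by linarith only [h])

theorem ITau_mul (ε N : ℝ) : rr (N / ε ^ 2) / N * N = rr (N / ε ^ 2) := by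
  rcases eq_or_ne N 0 with rfl | h
  · rw [mul_zero, zero_div, ITau_zero (by norm_num)]
  · exact div_mul_cancel₀ _ h

theorem ITau_r (ε : ℝ) : ContDiff ℝ ∞ fun N : ℝ => rr (N / ε ^ 2) :=
  contDiff_rr.comp (contDiff_id.div_const _)

theorem ITau_dr (ε N : ℝ) :
    HasDerivAt (fun N : ℝ => rr (N / ε ^ 2)) (deriv rr (N / ε ^ 2) / ε ^ 2) N := by
  have h := (contDiff_rr.differentiable (by simp) (N / ε ^ 2)).hasDerivAt.comp N
    ((hasDerivAt_id N).div_const (ε ^ 2))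
  rw [mul_one_div] at h
  exact h

theorem ITau_g {ε : ℝ} (hε : ε ≠ 0) : ContDiff ℝ ∞ fun N : ℝ => rr (N / ε ^ 2) / N := by
  refine contDiff_iff_contDiffAt.2 fun N => ?_
  rcases eq_or_ne N 0 with rfl | h
  · have h2 : 0 < ε ^ 2 := by positivity
    refine (contDiffAt_const (c := (0 : ℝ))).congr_of_eventuallyEq ?_
    filter_upwards [Iio_mem_nhds (half_pos h2)] with y hy
    rw [ITau_zero, zero_div]
    rw [div_le_iff₀ h2]
    have : y < ε ^ 2 / 2 := hy
    linarith only [this]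
  · exact (ITau_r ε).contDiffAt.div contDiffAt_id h

theorem ITau_dg {ε : ℝ} (hε : ε ≠ 0) (N : ℝ) : ∃ g' : ℝ,
    HasDerivAt (fun N : ℝ => rr (N / ε ^ 2) / N) g' N ∧
      g' * N + rr (N / ε ^ 2) / N = deriv rr (N / ε ^ 2) / ε ^ 2 := by
  have h := ((ITau_g hε).differentiable (by simp) N).hasDerivAt
  refine ⟨_, h, ?_⟩
  have h2 := h.fun_mul (hasDerivAt_id' N)
  simp only [ITau_mul, mul_one] at h2
  exact h2.unique (ITau_dr ε N)

theorem ITau_re (hs : ContDiff ℝ ∞ s) (l : Fin n') : ContDiff ℝ ∞ fun y => (s y l).re :=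
  Complex.reCLM.contDiff.comp (contDiff_pi.1 hs l)

theorem ITau_im (hs : ContDiff ℝ ∞ s) (l : Fin n') : ContDiff ℝ ∞ fun y => (s y l).im :=
  Complex.imCLM.contDiff.comp (contDiff_pi.1 hs l)

theorem ITau_N (hs : ContDiff ℝ ∞ s) (l : Fin n') :
    ContDiff ℝ ∞ fun y => Complex.normSq (s y l) :=
  ((ITau_re hs l).mul (ITau_re hs l)).add ((ITau_im hs l).mul (ITau_im hs l))

theorem contDiff_dre (hs : ContDiff ℝ ∞ s) (l : Fin n') : ContDiff ℝ ∞ (dre s l) := by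
  exact (ITau_re hs l).fderiv_right (m := ∞) (by simp)

theorem contDiff_dim (hs : ContDiff ℝ ∞ s) (l : Fin n') : ContDiff ℝ ∞ (dim s l) := by
  exact (ITau_im hs l).fderiv_right (m := ∞) (by simp)

theorem dre_apply (hs : ContDiff ℝ ∞ s) (l : Fin n') (x v : Sp S) :
    dre s l x v = (fderiv ℝ s x v l).re := by
  have h := (Complex.reCLM.comp (ContinuousLinearMap.proj (R := ℝ) (φ := fun _ : Fin n' => ℂ)
    l)).hasFDerivAt.comp x (hs.differentiable (by simp) x).hasFDerivAt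
  exact congrArg (fun A : Sp S →L[ℝ] ℝ => A v) h.fderiv

theorem dim_apply (hs : ContDiff ℝ ∞ s) (l : Fin n') (x v : Sp S) :
    dim s l x v = (fderiv ℝ s x v l).im := by
  have h := (Complex.imCLM.comp (ContinuousLinearMap.proj (R := ℝ) (φ := fun _ : Fin n' => ℂ)
    l)).hasFDerivAt.comp x (hs.differentiable (by simp) x).hasFDerivAt
  exact congrArg (fun A : Sp S →L[ℝ] ℝ => A v) h.fderiv

theorem contDiff_aF (hs : ContDiff ℝ ∞ s) (hl : ContDiff ℝ ∞ lam) (l : Fin n') {ε : ℝ}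
    (hε : ε ≠ 0) : ContDiff ℝ ∞ (aF s lam l ε) := by
  exact contDiff_alt1.comp ((((ITau_g hε).comp (ITau_N hs l)).smul
    (((ITau_re hs l).smul (contDiff_dim hs l)).sub ((ITau_im hs l).smul (contDiff_dre hs l)))).sub
    ((contDiff_const.mul ((ITau_r ε).comp (ITau_N hs l))).smul hl))

theorem ITau_ev {A : Sp S → Sp S →L[ℝ] ℝ} {x : Sp S} (h : DifferentiableAt ℝ A x) (w : Sp S) :
    HasFDerivAt (fun y => A y w) ((fderiv ℝ A x).flip w) x :=
  (h.hasFDerivAt.clm_apply (hasFDerivAt_const w x)).congr_fderiv (by simp)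

theorem d_aF (hs : ContDiff ℝ ∞ s) (hl : ContDiff ℝ ∞ lam) (l : Fin n') {ε : ℝ} (hε : ε ≠ 0)
    (x : Sp S) : tauG s (extDeriv fun y => alt1 (lam y)) lam l ε x =
      (2 * Real.pi) • extDeriv (fun y => alt1 (lam y)) x + extDeriv (aF s lam l ε) x := by
  refine alt_ext_two fun u v => ?_
  obtain ⟨g', hg, hg'⟩ := ITau_dg hε (Complex.normSq (s x l))
  have hξ : HasFDerivAt (fun y => (s y l).re) (dre s l x) x :=
    ((ITau_re hs l).differentiable (by simp) x).hasFDerivAt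
  have hζ : HasFDerivAt (fun y => (s y l).im) (dim s l x) x :=
    ((ITau_im hs l).differentiable (by simp) x).hasFDerivAt
  have hN : HasFDerivAt (fun y => Complex.normSq (s y l)) _ x :=
    (hξ.fun_mul hξ).fun_add (hζ.fun_mul hζ)
  have h1 := ITau_ev ((contDiff_dre hs l).differentiable (by simp) x)
  have h2 := ITau_ev ((contDiff_dim hs l).differentiable (by simp) x)
  have h3 := ITau_ev (hl.differentiable (by simp) x)
  have hA := fun w => ((hg.comp_hasFDerivAt x hN).fun_mul ((hξ.fun_mul (h2 w)).fun_sub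
    (hζ.fun_mul (h1 w)))).fun_sub ((((ITau_dr ε _).comp_hasFDerivAt x hN).const_mul
      (2 * Real.pi)).fun_mul (h3 w))
  have d1 := (contDiff_aF hs hl l hε).differentiable (by simp) x
  have d2 : DifferentiableAt ℝ (fun y => alt1 (lam y)) x :=
    (contDiff_alt1.comp hl).differentiable (by simp) x
  have e1 := fun w z => Nil.NLf_ev d1 ![w] (fun y => by
    simp only [aF, alt1_apply, sub_apply, smul_apply, smul_eq_mul]; rfl) (hA w) z
  have e2 := fun w z => Nil.NLf_ev d2 ![w] (fun y => by simp only [alt1_apply]; rfl) (h3 w) z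
  have s1 : fderiv ℝ (dre s l) x u v = fderiv ℝ (dre s l) x v u :=
    D2_symm (ITau_re hs l).contDiffAt u v
  have s2 : fderiv ℝ (dim s l) x u v = fderiv ℝ (dim s l) x v u :=
    D2_symm (ITau_im hs l).contDiffAt u v
  simp only [tauG, ContinuousAlternatingMap.add_apply, ContinuousAlternatingMap.sub_apply,
    ContinuousAlternatingMap.smul_apply, wedge_apply, extDeriv_one_apply d1,
    extDeriv_one_apply d2, e1, e2, add_apply, sub_apply, smul_apply, smul_eq_mul,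
    ContinuousLinearMap.flip_apply, Function.comp_apply, Matrix.cons_val_zero,
    Matrix.cons_val_one, s1, s2]
  rw [mul_div_assoc, mul_div_assoc, ← hg']
  generalize rr (Complex.normSq (s x l) / ε ^ 2) / Complex.normSq (s x l) = g
  generalize rr (Complex.normSq (s x l) / ε ^ 2) = r
  rw [Complex.normSq_apply]
  ring

theorem ITau_ee (t : ℝ) : Complex.normSq (ee t) = 1 := by
  rw [Complex.normSq_eq_norm_sq, norm_ee, one_pow]

theorem ITau_d (hs : ContDiff ℝ ∞ s) {f : Sp S → Sp S} {j : Sp S → ℝ} (hf : ContDiff ℝ ∞ f)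
    (hj : ContDiff ℝ ∞ j) (h1 : ∀ x, s (f x) = ee (j x) • s x) (l : Fin n') (x v : Sp S) :
    fderiv ℝ s (f x) (fderiv ℝ f x v) l =
      ee (j x) * (2 * Real.pi * Complex.I * (fderiv ℝ j x v : ℝ) * s x l + fderiv ℝ s x v l) := by
  have a1 := (hs.differentiable (by simp) (f x)).hasFDerivAt.comp x
    (hf.differentiable (by simp) x).hasFDerivAt
  have a2 := ((hasDerivAt_ee (j x)).hasFDerivAt.comp x
    (hj.differentiable (by simp) x).hasFDerivAt).fun_smul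
    (hs.differentiable (by simp) x).hasFDerivAt
  have a3 := congrArg (fun A : Sp S →L[ℝ] Cn n' => A v l)
    (a1.unique (a2.congr_of_eventuallyEq (Filter.Eventually.of_forall h1)))
  simp only [ContinuousLinearMap.comp_apply, add_apply, smul_apply, Pi.add_apply, Pi.smul_apply,
    ContinuousLinearMap.smulRight_apply, ContinuousLinearMap.toSpanSingleton_apply,
    Function.comp_apply, smul_eq_mul, Complex.real_smul] at a3
  rw [a3]
  ring

theorem aF_nat (hs : ContDiff ℝ ∞ s) {f : Sp S → Sp S} {j : Sp S → ℝ} (hf : ContDiff ℝ ∞ f)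
    (hj : ContDiff ℝ ∞ j) (h1 : ∀ x, s (f x) = ee (j x) • s x)
    (h2 : ∀ x, (lam (f x)).comp (fderiv ℝ f x) = lam x + fderiv ℝ j x) (l : Fin n') (ε : ℝ) :
    pb f (aF s lam l ε) = aF s lam l ε := by
  funext x
  refine alt_ext_one fun v => ?_
  have h3 := ITau_d hs hf hj h1 l x v
  have h4 : lam (f x) (fderiv ℝ f x v) = lam x v + fderiv ℝ j x v :=
    congrArg (fun A : Sp S →L[ℝ] ℝ => A v) (h2 x)
  have h5 : s (f x) l = ee (j x) * s x l := by rw [h1]; rfl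
  have h6 := ITau_ee (j x)
  have h7 : Complex.normSq (s (f x) l) = Complex.normSq (s x l) := by
    rw [h5, map_mul, h6, one_mul]
  have h8 := ITau_mul ε (Complex.normSq (s x l))
  simp only [pb, aF, Nil.NLf_one, alt1_apply, ContinuousLinearMap.comp_apply, sub_apply, smul_apply,
    smul_eq_mul, Matrix.cons_val_zero, dre_apply hs, dim_apply hs, h3, h4, h7]
  rw [h5]
  generalize rr (Complex.normSq (s x l) / ε ^ 2) / Complex.normSq (s x l) = g at h8 ⊢
  generalize rr (Complex.normSq (s x l) / ε ^ 2) = r at h8 ⊢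
  rw [Complex.normSq_apply] at h6 h8
  simp only [Complex.mul_re, Complex.mul_im, Complex.add_re, Complex.add_im, Complex.ofReal_re,
    Complex.ofReal_im, Complex.I_re, Complex.I_im, Complex.re_ofNat, Complex.im_ofNat]
  linear_combination (2 * Real.pi * fderiv ℝ j x v) * h8 +
    (g * (2 * Real.pi * fderiv ℝ j x v * ((s x l).re * (s x l).re + (s x l).im * (s x l).im) +
      ((s x l).re * (fderiv ℝ s x v l).im - (s x l).im * (fderiv ℝ s x v l).re))) * h6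

theorem area_nat (hs : ContDiff ℝ ∞ s) {f : Sp S → Sp S} {j : Sp S → ℝ} (hf : ContDiff ℝ ∞ f)
    (hj : ContDiff ℝ ∞ j) (h1 : ∀ x, s (f x) = ee (j x) • s x) (l : Fin n') {z : Sp S}
    (hz : s z = 0) : pb f (fun x => wedge (dre s l x) (dim s l x)) z =
      wedge (dre s l z) (dim s l z) := by
  refine alt_ext_two fun u v => ?_
  have h6 := ITau_ee (j z)
  rw [Complex.normSq_apply] at h6
  simp only [pb, Nil.NLf_two, wedge_apply, Matrix.cons_val_zero, Matrix.cons_val_one,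
    dre_apply hs, dim_apply hs, ITau_d hs hf hj h1, hz, Pi.zero_apply, mul_zero, zero_add,
    Complex.mul_re, Complex.mul_im]
  linear_combination ((fderiv ℝ s z u l).re * (fderiv ℝ s z v l).im -
    (fderiv ℝ s z v l).re * (fderiv ℝ s z u l).im) * h6

theorem tauG_eq_zero (Ω : Fm (Sp S) 2) (l : Fin n') {ε : ℝ} (hε : 0 < ε) {x : Sp S}
    (h : ε ≤ ‖s x l‖) : tauG s Ω lam l ε x = 0 := by
  have h1 : 1 ≤ Complex.normSq (s x l) / ε ^ 2 := by
    rw [Complex.normSq_eq_norm_sq, one_le_div (by positivity)]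
    exact pow_le_pow_left₀ hε.le h 2
  simp only [tauG, (rr_one h1).1, (rr_one h1).2, sub_self, mul_zero, zero_div, zero_smul, add_zero]

theorem continuous_tauG (hs : ContDiff ℝ ∞ s) (hl : Continuous lam) {Ω : Fm (Sp S) 2}
    (hΩ : Continuous Ω) (l : Fin n') (ε : ℝ) : Continuous (tauG s Ω lam l ε) := by
  have a1 : Continuous fun x => rr (Complex.normSq (s x l) / ε ^ 2) :=
    ((ITau_r ε).comp (ITau_N hs l)).continuous
  have a2 : Continuous fun x => deriv rr (Complex.normSq (s x l) / ε ^ 2) :=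
    (contDiff_rr.continuous_deriv (by simp)).comp ((ITau_N hs l).continuous.div_const (ε ^ 2))
  have a3 := (contDiff_dre hs l).continuous
  have a4 := (contDiff_dim hs l).continuous
  have a5 : ∀ {a b : Sp S → Sp S →L[ℝ] ℝ}, Continuous a → Continuous b →
      Continuous fun x => wedge (a x) (b x) := fun ha hb =>
    ((contDiff_wedge (E := Sp S) (n := 0)).continuous.comp (ha.prodMk hb) :)
  have a6 : Continuous fun x => (2 * (s x l).re) • dre s l x + (2 * (s x l).im) • dim s l x :=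
    ((continuous_const.mul (ITau_re hs l).continuous).smul a3).add
      ((continuous_const.mul (ITau_im hs l).continuous).smul a4)
  unfold tauG
  exact (((continuous_const.mul (continuous_const.sub a1)).smul hΩ).add
    (((continuous_const.mul a2).div_const _).smul (a5 a3 a4))).sub
    (((continuous_const.mul a2).div_const _).smul (a5 a6 hl))

namespace Nil

variable {G : Type} [DecidableEq S] [AddCommGroup G] [Fintype G] {D : Nil S G} {Λ : D.Lt}

omit [Fintype G] in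
theorem ITau_eq (hs : ContDiff ℝ ∞ s) (l : Fin n') {ε : ℝ} (hε : ε ≠ 0) :
    tauG s (D.lf omA) D.lam l ε = (2 * Real.pi) • D.lf omA + extDeriv (aF s D.lam l ε) := by
  funext x
  have h := d_aF hs D.contDiff_lam l hε x
  rw [D.d_lam] at h
  exact h

theorem ITau_inv (hs : ContDiff ℝ ∞ s)
    (ha : ∀ (γ : Λ.Gp) (x : Sp S), s (γ • x) = ee (Lt.jj γ x) • s x) (l : Fin n') (ε : ℝ) :
    Inv Λ.Gp (aF s D.lam l ε) univ := fun γ x _ =>
  congrFun (aF_nat hs (Λ.act.smooth γ) (Lt.contDiff_jj γ) (ha γ) (D.lam_smul γ) l ε) x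

omit [Fintype G] in
theorem ITau_om (Λ : D.Lt) (t : ℝ) :
    Cl (t • D.lf omA) univ ∧ Inv Λ.Gp (t • D.lf omA) univ := by
  refine ⟨⟨((D.contDiff_lf omA).const_smul t).contDiffOn, fun x hx => ?_⟩, fun γ x hx => ?_⟩
  · rw [extDeriv_smul, ((D.cl_lf_iff omA).2 D.CE2_omA).2 x hx, smul_zero]
  · rw [pb_smul, Pi.smul_apply, D.inv_lf Λ D.GI_omA univ γ x hx, Pi.smul_apply]

theorem tau_cl_inv (hs : ContDiff ℝ ∞ s)
    (ha : ∀ (γ : Λ.Gp) (x : Sp S), s (γ • x) = ee (Lt.jj γ x) • s x) (l : Fin n') {ε : ℝ}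
    (hε : ε ≠ 0) : Cl (tauG s (D.lf omA) D.lam l ε) univ ∧
      Inv Λ.Gp (tauG s (D.lf omA) D.lam l ε) univ := by
  have a1 := contDiff_aF hs D.contDiff_lam l hε
  have a2 : ContDiff ℝ ∞ ((2 * Real.pi) • fun y => alt1 (D.lam y)) :=
    (contDiff_alt1.comp D.contDiff_lam).const_smul (2 * Real.pi)
  constructor
  · refine IsD.cl (β := (2 * Real.pi) • (fun y => alt1 (D.lam y)) + aF s D.lam l ε)
      ⟨(a2.add a1).contDiffOn, fun x _ => ?_⟩ isOpen_univ
    rw [extDeriv_add (a2.differentiable (by simp) x) (a1.differentiable (by simp) x),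
      extDeriv_smul, ITau_eq hs l hε, D.d_lam]
    rfl
  · rw [ITau_eq hs l hε]
    exact (ITau_om Λ _).2.add (Inv.extDeriv Λ.act isOpen_univ (fun _ _ _ => trivial) a1.contDiffOn
      (ITau_inv hs ha l ε))

theorem tele (hs : ContDiff ℝ ∞ s)
    (ha : ∀ (γ : Λ.Gp) (x : Sp S), s (γ • x) = ee (Lt.jj γ x) • s x) (e : Fin n ⊕ Fin n' ≃ S)
    {ρ : Sp S → ℝ} (h1 : ContDiff ℝ ∞ ρ) (h2 : HasCompactSupport ρ)
    (h3 : ∀ x, ∑ᶠ γ : Λ.Gp, ρ (γ • x) = 1) {c : Alt (Sp S) 2} (hc : D.GI c) (hc' : D.CE2 c)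
    {ε : ℝ} (hε : ε ≠ 0) :
    ∫ x, ρ x * pf (fam e (D.lf c x) fun l => tauG s (D.lf omA) D.lam l ε x) =
      (2 * Real.pi) ^ n' * pf (fam e c fun _ => omA) * ∫ x, ρ x := by
  classical
  obtain ⟨Φ, hΦ⟩ := exists_pfM (S := S)
  let W : Finset (Fin n') → S → Fm (Sp S) 2 := fun T => fam e (D.lf c) fun l =>
    if l ∈ T then tauG s (D.lf omA) D.lam l ε else (2 * Real.pi) • D.lf omA
  have hW : ∀ T i, Cl (W T i) univ ∧ Inv Λ.Gp (W T i) univ := fun T i => by
    simp only [W, fam]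
    rcases e.symm i with a | a
    · exact ⟨(D.cl_lf_iff c).2 hc', D.inv_lf Λ hc _⟩
    · simp only [Sum.elim_inr]
      split_ifs
      · exact tau_cl_inv hs ha a hε
      · exact ITau_om Λ _
  have hI : ∀ w : S → Fm (Sp S) 2, (∀ i, Continuous (w i)) →
      Integrable fun x => ρ x * pf fun i => w i x := fun w hw =>
    (h1.continuous.mul ((contDiff_pf (S := S)).continuous.comp
      (continuous_pi hw))).integrable_of_hasCompactSupport h2.mul_right
  have hC : ∀ T i, Continuous (W T i) := fun T i => (contDiffOn_univ.1 (hW T i).1.1).continuous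
  have key : ∀ T, ∫ x, ρ x * pf (fun i => W T i x) = ∫ x, ρ x * pf fun i => W ∅ i x := by
    intro T
    induction T using Finset.induction_on with
    | empty => rfl
    | insert l T hl ih =>
      have a1 := contDiff_aF hs D.contDiff_lam l hε
      have a2 := inv_stokes Λ.act Lt.det_smul h1 h2 h3 (e (Sum.inr l)) a1 (ITau_inv hs ha l ε)
        (w := W T) fun i _ => hW T i
      have a3 := hI (fun i x => if i = e (Sum.inr l) then extDeriv (aF s D.lam l ε) x else W T i x)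
        fun i => by
          split_ifs
          · exact (contDiffOn_univ.1 (Sm.extDeriv a1.contDiffOn isOpen_univ)).continuous
          · exact hC T i
      rw [← ih, ← add_zero (∫ x, ρ x * pf fun i => W T i x), ← a2, ← integral_add (hI _ (hC T)) a3]
      refine integral_congr_ae (Filter.Eventually.of_forall fun x => ?_)
      have b1 : (fun i => W (insert l T) i x) = Function.update (fun i => W T i x) (e (Sum.inr l))
          (W T (e (Sum.inr l)) x + extDeriv (aF s D.lam l ε) x) := by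
        funext i
        obtain ⟨i, rfl⟩ := e.surjective i
        rcases eq_or_ne i (Sum.inr l) with rfl | h
        · simp only [W, fam, Function.update_self, Equiv.symm_apply_apply, Sum.elim_inr,
            Finset.mem_insert_self, if_true, if_neg hl, ITau_eq hs l hε, Pi.add_apply]
        · rw [Function.update_of_ne (e.injective.ne h)]
          rcases i with a | a
          · simp only [W, fam, Equiv.symm_apply_apply, Sum.elim_inl]
          · have h' : a ≠ l := fun k => h (congrArg _ k)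
            simp only [W, fam, Equiv.symm_apply_apply, Sum.elim_inr, Finset.mem_insert, h',
              false_or]
      have b2 : (fun i => if i = e (Sum.inr l) then extDeriv (aF s D.lam l ε) x else W T i x) =
          Function.update (fun i => W T i x) (e (Sum.inr l)) (extDeriv (aF s D.lam l ε) x) :=
        funext fun i => by rw [Function.update_apply]
      simp only [b1, b2, ← hΦ, Φ.map_update_add, Function.update_eq_self, mul_add]
  have c1 : ∀ x, (fam e (D.lf c x) fun l => tauG s (D.lf omA) D.lam l ε x) =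
      fun i => W Finset.univ i x := fun x => funext fun i => by
    simp only [W, fam, Finset.mem_univ, if_true]
    rcases e.symm i with a | a <;> rfl
  have c2 : ∀ x, (fun i => W ∅ i x) = fun i => fam e (1 : ℝ) (fun _ => 2 * Real.pi) i •
      (fam e c (fun _ => omA) i).compContinuousLinearMap (D.th x) := fun x => funext fun i => by
    simp only [W, fam, Finset.notMem_empty, if_false]
    rcases e.symm i with a | a
    · exact (one_smul _ _).symm
    · rfl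
  have c3 : ∏ i, fam e (1 : ℝ) (fun _ => 2 * Real.pi) i = (2 * Real.pi) ^ n' := by
    rw [← e.prod_comp]
    simp [fam]
  simp only [c1, key Finset.univ, c2, pf_smul, pf_comp, D.det_th, one_mul, c3]
  rw [integral_mul_const, mul_comm]

end Nil

end Pool.Agent.Work.MP_bf98aa_gt.Th
end

-- merged part: Pool.Agent.Work.MP_bf98aa_gt.Th.ILoc
section
/-!
Localisation of the Thom forms on the zero set, in one chart.

PLAN. `spl e` is a linear isomorphism; let `Ψ x = Θ.symm (spl e x)` on the open set `O = spl e ⁻¹' Θ.target`; `s (Ψ x) = zL (prC e x)` there.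
Let `δ ε x = inE (prE x) + ε • inC (prC x)`, `det = ε ^ (2 n') > 0`, `Ψ ε = Ψ ∘ δ ε`. Change of variables
(`integral_image_eq_integral_abs_det_fderiv_smul` on `δ ε ⁻¹' O`) and `pf_comp` turn the integral into
`∫ x, u (Ψ ε x) * sign (det (fderiv Ψ (δ ε x))) * pf (pull-backs by Ψ ε)`, with the integrand extended by zero. The pull-back of `tauG` is
`2π (1 - rr t) Ω' + 2 rr' t • area_l - 2π rr' t • wedge (d t) lam'`, `t = normSq (zc (prC x) l)`, where `Ω', lam', w'` are the values at `Ψ (δ ε x)`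
composed with `fderiv Ψ (δ ε x) ∘ δ ε`. It vanishes unless `‖prC x‖ ≤ 1`, and `prE x` stays in a compact set; the integrands are uniformly bounded
(`δ ε x` lies in the compact set `Ψ ⁻¹' tsupport u`) and converge pointwise, so `tendsto_integral_filter_of_dominated_convergence` applies. At `ε = 0` use
`pf_block` (`fderiv Ψ ∘ inE = fderiv ψ`), then split the integral (`MeasurableEquiv.sumPiEquivProdPi`, `MeasurableEquiv.piCongrLeft`, `integral_prod_mul`).
`loc_sign`: `pf_comp` with `A = fderiv Ψ`, `pf_block'`, `pf_area`.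
-/

set_option autoImplicit false
set_option linter.unusedSectionVars false

open scoped ContDiff Topology
open Set MeasureTheory Filter

namespace Pool.Agent.Work.MP_bf98aa_gt.Th

variable {S : Type} [Fintype S] [DecidableEq S] {n n' : ℕ} {s : Sp S → Cn n'}

theorem integral_split (e : Fin n ⊕ Fin n' ≃ S) (f : Sp (Fin n) → ℝ) (g : Sp (Fin n') → ℝ) :
    ∫ x : Sp S, f (prE e x) * g (prC e x) = (∫ y, f y) * ∫ ζ, g ζ := by
  have h := (volume_measurePreserving_sumPiEquivProdPi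
    (fun _ : (Fin n × Fin 2) ⊕ (Fin n' × Fin 2) => ℝ)).comp
    (volume_measurePreserving_piCongrLeft (fun _ : S × Fin 2 => ℝ)
      ((Equiv.sumProdDistrib _ _ _).symm.trans (e.prodCongr (Equiv.refl _)))).symm
  rw [← integral_prod_mul, ← Measure.volume_eq_prod]
  exact h.integral_comp (((MeasurableEquiv.piCongrLeft (fun _ : S × Fin 2 => ℝ)
    ((Equiv.sumProdDistrib _ _ _).symm.trans (e.prodCongr (Equiv.refl _)))).symm.trans
    (MeasurableEquiv.sumPiEquivProdPi _)).measurableEmbedding) fun z => f z.1 * g z.2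

section Lin

variable (e : Fin n ⊕ Fin n' ≃ S)

theorem ILoc_EE (y : Sp (Fin n)) : prE e (inE e y) = y := by
  funext i
  simp [prE, inE]

theorem ILoc_CE (y : Sp (Fin n)) : prC e (inE e y) = 0 := by
  funext i
  simp [prC, inE]

theorem ILoc_EC (y : Sp (Fin n')) : prE e (inC e y) = 0 := by
  funext i
  simp [prE, inC]

theorem ILoc_CC (y : Sp (Fin n')) : prC e (inC e y) = y := by
  funext i
  simp [prC, inC]

theorem ILoc_all {Q : S × Fin 2 → Prop} (h1 : ∀ a j, Q (e (Sum.inl a), j))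
    (h2 : ∀ a j, Q (e (Sum.inr a), j)) (i : S × Fin 2) : Q i := by
  obtain ⟨i, j⟩ := i
  obtain ⟨a | a, rfl⟩ := e.surjective i
  exacts [h1 a j, h2 a j]

theorem ILoc_zL (ζ : Sp (Fin n')) (l : Fin n') : zL n' ζ l = zc ζ l := by
  refine Complex.ext ?_ ?_ <;> simp [zL, zc]

/-- The rescaled splitting. -/
noncomputable def ILoc_L (ε : ℝ) : Sp S →L[ℝ] Sp (Fin n) × Cn n' :=
  (ContinuousLinearMap.inl ℝ _ _).comp (prE e) +
    ε • (ContinuousLinearMap.inr ℝ _ _).comp ((zL n').comp (prC e))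

theorem ILoc_L_apply (ε : ℝ) (x : Sp S) : ILoc_L e ε x = (prE e x, ε • zL n' (prC e x)) := by
  simp [ILoc_L]

theorem ILoc_L_one : ILoc_L e 1 = spl e := by
  refine ContinuousLinearMap.ext fun x => ?_
  rw [ILoc_L_apply, one_smul]
  rfl

theorem ILoc_L_inj {ε : ℝ} (hε : ε ≠ 0) : Function.Injective (ILoc_L e ε) := by
  refine (injective_iff_map_eq_zero _).2 fun x hx => ?_
  rw [ILoc_L_apply, Prod.mk_eq_zero, smul_eq_zero_iff_right hε] at hx
  funext i
  refine ILoc_all e (Q := fun i => x i = 0) (fun a j => congrFun hx.1 (a, j)) (fun a j => ?_) i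
  have := congrFun hx.2 a
  rw [ILoc_zL] at this
  fin_cases j
  exacts [congrArg Complex.re this, congrArg Complex.im this]

theorem ILoc_L_surj {ε : ℝ} (hε : ε ≠ 0) : Function.Surjective (ILoc_L e ε) := by
  intro p
  refine ⟨inE e p.1 + ε⁻¹ • inC e fun i => ![(p.2 i.1).re, (p.2 i.1).im] i.2, ?_⟩
  rw [ILoc_L_apply, map_add, map_add, map_smul, map_smul, ILoc_EE, ILoc_EC, ILoc_CE, ILoc_CC,
    smul_zero, add_zero, zero_add, map_smul, smul_inv_smul₀ hε]
  refine Prod.ext rfl (funext fun l => ?_)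
  exact ILoc_zL _ l

theorem ILoc_delta {ε : ℝ} (hε : 0 < ε) :
    ∃ δ : Sp S →L[ℝ] Sp S, 0 < δ.det ∧ ILoc_L e ε = (spl e).comp δ := by
  let c : S × Fin 2 → ℝ := fun i => Sum.elim (fun _ => 1) (fun _ => ε) (e.symm i.1)
  refine ⟨LinearMap.toContinuousLinearMap (Matrix.toLin' (Matrix.diagonal c)), ?_, ?_⟩
  · change 0 < LinearMap.det (Matrix.toLin' (Matrix.diagonal c))
    rw [LinearMap.det_toLin', Matrix.det_diagonal]
    refine Finset.prod_pos fun i _ => ?_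
    exact ILoc_all e (Q := fun i => 0 < c i) (fun a j => by simp [c]) (fun a j => by simp [c, hε]) i
  · refine ContinuousLinearMap.ext fun x => ?_
    rw [ILoc_L_apply, ← map_smul]
    refine Prod.ext (funext fun i => ?_) (congrArg (zL n') (funext fun i => ?_))
    · simp [spl, prE, c, Matrix.mulVec_diagonal]
    · simp [prC, c, Matrix.mulVec_diagonal]

/-- A normal coordinate. -/
noncomputable def ILoc_X (l : Fin n') (j : Fin 2) : Sp S →L[ℝ] ℝ :=
  (ContinuousLinearMap.proj (R := ℝ) (φ := fun _ : Fin n' × Fin 2 => ℝ) (l, j)).comp (prC e)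

theorem ILoc_X_apply (l : Fin n') (j : Fin 2) (x : Sp S) : ILoc_X e l j x = prC e x (l, j) := rfl

/-- The rescaled Thom form. -/
noncomputable def ILoc_tau (l : Fin n') (Ω : Alt (Sp S) 2) (lam : Sp S →L[ℝ] ℝ)
    (ζ : Sp (Fin n')) : Alt (Sp S) 2 :=
  (2 * Real.pi * (1 - rr (Complex.normSq (zc ζ l)))) • Ω +
    (2 * deriv rr (Complex.normSq (zc ζ l))) • wedge (ILoc_X e l 0) (ILoc_X e l 1) -
    (2 * Real.pi * deriv rr (Complex.normSq (zc ζ l))) •
      wedge ((2 * ζ (l, 0)) • ILoc_X e l 0 + (2 * ζ (l, 1)) • ILoc_X e l 1) lam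

theorem ILoc_tau_cont (l : Fin n') :
    Continuous fun q : Alt (Sp S) 2 × (Sp S →L[ℝ] ℝ) × Sp (Fin n') =>
      ILoc_tau e l q.1 q.2.1 q.2.2 := by
  have h0 : Continuous fun q : Alt (Sp S) 2 × (Sp S →L[ℝ] ℝ) × Sp (Fin n') =>
      Complex.normSq (zc q.2.2 l) := by
    simp only [← ILoc_zL]
    exact Complex.continuous_normSq.comp ((continuous_apply l).comp
      ((zL n').continuous.comp continuous_snd.snd))
  have h1 := contDiff_rr.continuous.comp h0
  have h2 := (contDiff_rr.continuous_deriv (by simp)).comp h0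
  have h3 : Continuous fun q : Alt (Sp S) 2 × (Sp S →L[ℝ] ℝ) × Sp (Fin n') =>
      ((2 * q.2.2 (l, 0)) • ILoc_X e l 0 + (2 * q.2.2 (l, 1)) • ILoc_X e l 1, q.2.1) := by
    fun_prop
  have h4 := (contDiff_wedge (E := Sp S) (n := 0)).continuous.comp h3
  have h5 := ((((continuous_const (y := 2 * Real.pi)).mul
    ((continuous_const (y := (1 : ℝ))).sub h1)).smul continuous_fst).add
    (((continuous_const (y := (2 : ℝ))).mul h2).smul
      (continuous_const (y := wedge (ILoc_X e l 0) (ILoc_X e l 1))))).sub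
      (((continuous_const (y := 2 * Real.pi)).mul h2).smul h4)
  exact h5

theorem ILoc_tau_zero {l : Fin n'} (Ω : Alt (Sp S) 2) (lam : Sp S →L[ℝ] ℝ) {ζ : Sp (Fin n')}
    {j : Fin 2} (h : 1 ≤ |ζ (l, j)|) : ILoc_tau e l Ω lam ζ = 0 := by
  have h1 : 1 ≤ Complex.normSq (zc ζ l) := by
    have h2 := (one_le_sq_iff_one_le_abs _).2 h
    rw [zc, Complex.normSq_mk]
    fin_cases j
    · exact le_add_of_le_of_nonneg (by simpa [sq] using h2) (mul_self_nonneg _)
    · exact le_add_of_nonneg_of_le (mul_self_nonneg _) (by simpa [sq] using h2)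
  simp [ILoc_tau, (rr_one h1).1, (rr_one h1).2]

theorem ILoc_fam (w : Alt (Sp S) 2) (τ : Fin n' → Alt (Sp S) 2) (B : Sp S →L[ℝ] Sp S) :
    (fun s => (fam e w τ s).compContinuousLinearMap B) =
      fam e (w.compContinuousLinearMap B) fun l => (τ l).compContinuousLinearMap B := by
  funext s
  unfold fam
  cases e.symm s <;> rfl

theorem ILoc_pf_cont :
    Continuous fun q : Alt (Sp S) 2 × (Fin n' → Alt (Sp S) 2) => pf (fam e q.1 q.2) := by
  refine (contDiff_pf (S := S)).continuous.comp (continuous_pi fun s => ?_)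
  unfold fam
  cases e.symm s with
  | inl a => exact continuous_fst
  | inr a => exact (continuous_apply a).comp continuous_snd

variable {X : Type} [TopologicalSpace X] {x : X}

theorem ILoc_pf_at {a : X → Alt (Sp S) 2} {τ : X → Fin n' → Alt (Sp S) 2} (ha : ContinuousAt a x)
    (hτ : ∀ l, ContinuousAt (fun q => τ q l) x) :
    ContinuousAt (fun q => pf (fam e (a q) (τ q))) x :=
  (ILoc_pf_cont e).continuousAt.comp (f := fun q => (a q, τ q)) (ha.prodMk (continuousAt_pi.2 hτ))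

theorem ILoc_tau_at (l : Fin n') {a : X → Alt (Sp S) 2} {b : X → Sp S →L[ℝ] ℝ}
    {c : X → Sp (Fin n')} (ha : ContinuousAt a x) (hb : ContinuousAt b x) (hc : ContinuousAt c x) :
    ContinuousAt (fun q => ILoc_tau e l (a q) (b q) (c q)) x :=
  (ILoc_tau_cont e l).continuousAt.comp (f := fun q => (a q, b q, c q)) (ha.prodMk (hb.prodMk hc))

theorem ILoc_alt_at {a : X → Alt (Sp S) 2} {B : X → Sp S →L[ℝ] Sp S} (ha : ContinuousAt a x)
    (hB : ContinuousAt B x) : ContinuousAt (fun q => (a q).compContinuousLinearMap (B q)) x :=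
  continuous_alt_comp.continuousAt.comp (f := fun q => (a q, B q)) (ha.prodMk hB)

theorem ILoc_sign_at {d : X → Sp S →L[ℝ] Sp S} (hd : ContinuousAt d x) (h : (d x).det ≠ 0) :
    ContinuousAt (fun q => ((SignType.sign (d q).det : SignType) : ℝ)) x :=
  (continuous_of_discreteTopology (f := fun a : SignType => (a : ℝ))).continuousAt.comp
    ((continuousAt_sign_of_ne_zero h).comp (f := fun q => (d q).det)
      (ContinuousLinearMap.continuous_det.continuousAt.comp hd))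

theorem ILoc_gen {w Ω : Fm (Sp S) 2} {lam : Sp S → Sp S →L[ℝ] ℝ} {u : Sp S → ℝ}
    (hw : Continuous w) (hΩ : Continuous Ω) (hl : Continuous lam) (hu : Continuous u)
    {z : X → Sp S} {d B : X → Sp S →L[ℝ] Sp S} {c : X → Sp (Fin n')} (hz : ContinuousAt z x)
    (hd : ContinuousAt d x) (hB : ContinuousAt B x) (hc : ContinuousAt c x) (h : (d x).det ≠ 0) :
    ContinuousAt (fun q => u (z q) * (((SignType.sign (d q).det : SignType) : ℝ) *
      pf (fam e ((w (z q)).compContinuousLinearMap (B q)) fun l =>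
        ILoc_tau e l ((Ω (z q)).compContinuousLinearMap (B q)) ((lam (z q)).comp (B q)) (c q)))) x :=
  (hu.continuousAt.comp hz).mul ((ILoc_sign_at hd h).mul (ILoc_pf_at e
    (ILoc_alt_at (hw.continuousAt.comp hz) hB) fun l => ILoc_tau_at e l
      (ILoc_alt_at (hΩ.continuousAt.comp hz) hB) ((hl.continuousAt.comp hz).clm_comp hB) hc))

end Lin

section Chart

variable {Θ : OpenPartialHomeomorph (Sp S) (Sp (Fin n) × Cn n')} {π : Sp S →L[ℝ] Sp (Fin n)}
  {p : Sp (Fin n) × Cn n'}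

theorem ILoc_diff (hsm : ContDiffOn ℝ ∞ Θ.symm Θ.target) (hp : p ∈ Θ.target) :
    HasFDerivAt Θ.symm (fderiv ℝ Θ.symm p) p :=
  ((hsm.contDiffAt (Θ.open_target.mem_nhds hp)).differentiableAt (by simp)).hasFDerivAt

theorem ILoc_inv (hs : ContDiff ℝ ∞ s) (hΘ : ∀ x, Θ x = (π x, s x))
    (hsm : ContDiffOn ℝ ∞ Θ.symm Θ.target) (hp : p ∈ Θ.target) (v : Sp (Fin n) × Cn n') :
    (π (fderiv ℝ Θ.symm p v), fderiv ℝ s (Θ.symm p) (fderiv ℝ Θ.symm p v)) = v := by
  have h1 := (π.hasFDerivAt.prodMk (hs.differentiable (by simp) (Θ.symm p)).hasFDerivAt).comp p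
    (ILoc_diff hsm hp)
  have h2 : HasFDerivAt ((fun x => (π x, s x)) ∘ Θ.symm) (ContinuousLinearMap.id ℝ _) p := by
    refine (hasFDerivAt_id p).congr_of_eventuallyEq ?_
    filter_upwards [Θ.open_target.mem_nhds hp] with q hq
    exact (hΘ _).symm.trans (Θ.right_inv hq)
  exact DFunLike.congr_fun (h1.unique h2) v

theorem ILoc_det (e : Fin n ⊕ Fin n' ≃ S) (hs : ContDiff ℝ ∞ s) (hΘ : ∀ x, Θ x = (π x, s x))
    (hsm : ContDiffOn ℝ ∞ Θ.symm Θ.target) (hp : p ∈ Θ.target) :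
    ((fderiv ℝ Θ.symm p).comp (spl e)).det ≠ 0 := by
  intro h
  refine LinearMap.det_eq_zero_iff_ker_ne_bot.1 h (LinearMap.ker_eq_bot'.2 fun v hv => ?_)
  have hv' : fderiv ℝ Θ.symm p (spl e v) = 0 := hv
  have := ILoc_inv hs hΘ hsm hp (spl e v)
  rw [hv', map_zero, map_zero, ← ILoc_L_one] at this
  exact ILoc_L_inj e one_ne_zero (this.symm.trans (map_zero _).symm)

theorem ILoc_d (e : Fin n ⊕ Fin n' ≃ S) (hs : ContDiff ℝ ∞ s) (hΘ : ∀ x, Θ x = (π x, s x))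
    (hsm : ContDiffOn ℝ ∞ Θ.symm Θ.target) (hp : p ∈ Θ.target) (ε : ℝ) (l : Fin n') (v : Sp S) :
    dre s l (Θ.symm p) (fderiv ℝ Θ.symm p (ILoc_L e ε v)) = ε * prC e v (l, 0) ∧
      dim s l (Θ.symm p) (fderiv ℝ Θ.symm p (ILoc_L e ε v)) = ε * prC e v (l, 1) := by
  have := congrArg Prod.snd (ILoc_inv hs hΘ hsm hp (ILoc_L e ε v))
  simp only at this
  rw [dre_apply hs, dim_apply hs, this, ILoc_L_apply]
  simp [ILoc_zL, zc]

theorem ILoc_psi (hsm : ContDiffOn ℝ ∞ Θ.symm Θ.target) {y : Sp (Fin n)}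
    (hy : (y, 0) ∈ Θ.target) : fderiv ℝ (fun y => Θ.symm (y, 0)) y =
      (fderiv ℝ Θ.symm (y, 0)).comp (ContinuousLinearMap.inl ℝ _ _) :=
  ((ILoc_diff hsm hy).comp y (hasFDerivAt_prodMk_left y 0)).fderiv

theorem ILoc_pull (e : Fin n ⊕ Fin n' ≃ S) (hs : ContDiff ℝ ∞ s) (hΘ : ∀ x, Θ x = (π x, s x))
    (hsm : ContDiffOn ℝ ∞ Θ.symm Θ.target) {ε : ℝ} (hε : ε ≠ 0) {x : Sp S}
    (hp : ILoc_L e ε x ∈ Θ.target) (Ω : Fm (Sp S) 2) (lam : Sp S → Sp S →L[ℝ] ℝ) (l : Fin n') :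
    (tauG s Ω lam l ε (Θ.symm (ILoc_L e ε x))).compContinuousLinearMap
        ((fderiv ℝ Θ.symm (ILoc_L e ε x)).comp (ILoc_L e ε)) =
      ILoc_tau e l ((Ω (Θ.symm (ILoc_L e ε x))).compContinuousLinearMap
        ((fderiv ℝ Θ.symm (ILoc_L e ε x)).comp (ILoc_L e ε)))
        ((lam (Θ.symm (ILoc_L e ε x))).comp ((fderiv ℝ Θ.symm (ILoc_L e ε x)).comp (ILoc_L e ε)))
        (prC e x) := by
  have h1 : s (Θ.symm (ILoc_L e ε x)) l = ε • zc (prC e x) l := by
    have := congrArg Prod.snd ((hΘ _).symm.trans (Θ.right_inv hp))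
    simp only at this
    rw [this, ILoc_L_apply, ← ILoc_zL]
    rfl
  have h2 : Complex.normSq (s (Θ.symm (ILoc_L e ε x)) l) / ε ^ 2 =
      Complex.normSq (zc (prC e x) l) := by
    rw [h1, Complex.real_smul, map_mul, Complex.normSq_ofReal]
    field_simp
  have h3 : (s (Θ.symm (ILoc_L e ε x)) l).re = ε * prC e x (l, 0) := by
    rw [h1]
    simp [zc]
  have h4 : (s (Θ.symm (ILoc_L e ε x)) l).im = ε * prC e x (l, 1) := by
    rw [h1]
    simp [zc]
  have h5 := ILoc_d e hs hΘ hsm hp ε l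
  ext v
  simp only [tauG, ILoc_tau, h2, h3, h4, ContinuousAlternatingMap.compContinuousLinearMap_apply,
    ContinuousAlternatingMap.sub_apply, ContinuousAlternatingMap.add_apply,
    ContinuousAlternatingMap.smul_apply, wedge_apply, Function.comp_apply,
    ContinuousLinearMap.comp_apply, _root_.add_apply, _root_.smul_apply, (h5 _).1, (h5 _).2,
    smul_eq_mul, ILoc_X_apply]
  field_simp

/-- The rescaled integrand. -/
noncomputable def ILoc_H (e : Fin n ⊕ Fin n' ≃ S)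
    (Θ : OpenPartialHomeomorph (Sp S) (Sp (Fin n) × Cn n')) (w Ω : Fm (Sp S) 2)
    (lam : Sp S → Sp S →L[ℝ] ℝ) (u : Sp S → ℝ) (q : ℝ × Sp S) : ℝ :=
  u (Θ.symm (ILoc_L e q.1 q.2)) *
    (((SignType.sign ((fderiv ℝ Θ.symm (ILoc_L e q.1 q.2)).comp (spl e)).det : SignType) : ℝ) *
      pf (fam e ((w (Θ.symm (ILoc_L e q.1 q.2))).compContinuousLinearMap
        ((fderiv ℝ Θ.symm (ILoc_L e q.1 q.2)).comp (ILoc_L e q.1))) fun l =>
        ILoc_tau e l ((Ω (Θ.symm (ILoc_L e q.1 q.2))).compContinuousLinearMap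
          ((fderiv ℝ Θ.symm (ILoc_L e q.1 q.2)).comp (ILoc_L e q.1)))
          ((lam (Θ.symm (ILoc_L e q.1 q.2))).comp
            ((fderiv ℝ Θ.symm (ILoc_L e q.1 q.2)).comp (ILoc_L e q.1))) (prC e q.2)))

variable {w Ω : Fm (Sp S) 2} {lam : Sp S → Sp S →L[ℝ] ℝ} {u : Sp S → ℝ}

theorem ILoc_L_cont (e : Fin n ⊕ Fin n' ≃ S) : Continuous (ILoc_L e) :=
  continuous_const.add (continuous_id.smul continuous_const)

theorem ILoc_H_at (e : Fin n ⊕ Fin n' ≃ S) (hs : ContDiff ℝ ∞ s) (hΘ : ∀ x, Θ x = (π x, s x))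
    (hsm : ContDiffOn ℝ ∞ Θ.symm Θ.target) (hw : Continuous w) (hΩ : Continuous Ω)
    (hl : Continuous lam) (hu : Continuous u) {q : ℝ × Sp S} (hq : ILoc_L e q.1 q.2 ∈ Θ.target) :
    ContinuousAt (ILoc_H e Θ w Ω lam u) q := by
  have h0 : Continuous fun q : ℝ × Sp S => ILoc_L e q.1 := (ILoc_L_cont e).comp continuous_fst
  have h1 : Continuous fun q : ℝ × Sp S => ILoc_L e q.1 q.2 := h0.clm_apply continuous_snd
  have h2 := hsm.contDiffAt (Θ.open_target.mem_nhds hq)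
  have hz : ContinuousAt (fun q : ℝ × Sp S => Θ.symm (ILoc_L e q.1 q.2)) q :=
    h2.continuousAt.comp (f := fun q : ℝ × Sp S => ILoc_L e q.1 q.2) h1.continuousAt
  have hT : ContinuousAt (fun q : ℝ × Sp S => fderiv ℝ Θ.symm (ILoc_L e q.1 q.2)) q :=
    (h2.continuousAt_fderiv (by simp)).comp (f := fun q : ℝ × Sp S => ILoc_L e q.1 q.2)
      h1.continuousAt
  have hc : ContinuousAt (fun q : ℝ × Sp S => prC e q.2) q :=
    ((prC e).continuous.comp continuous_snd).continuousAt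
  have := ILoc_gen e hw hΩ hl hu hz (hT.clm_comp (continuousAt_const (y := spl e)))
    (hT.clm_comp h0.continuousAt) hc (ILoc_det e hs hΘ hsm hq)
  exact this

theorem ILoc_H_zero (e : Fin n ⊕ Fin n' ≃ S) {q : ℝ × Sp S}
    (hq : ILoc_L e q.1 q.2 ∉ Θ '' tsupport u) :
    {q : ℝ × Sp S | ILoc_L e q.1 q.2 ∈ Θ.target}.indicator (ILoc_H e Θ w Ω lam u) q = 0 := by
  refine indicator_apply_eq_zero.2 fun h => ?_
  have : u (Θ.symm (ILoc_L e q.1 q.2)) = 0 :=
    image_eq_zero_of_notMem_tsupport fun k => hq ⟨_, k, Θ.right_inv h⟩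
  rw [ILoc_H, this, zero_mul]

theorem ILoc_H_cont (e : Fin n ⊕ Fin n' ≃ S) (hs : ContDiff ℝ ∞ s) (hΘ : ∀ x, Θ x = (π x, s x))
    (hsm : ContDiffOn ℝ ∞ Θ.symm Θ.target) (hw : Continuous w) (hΩ : Continuous Ω)
    (hl : Continuous lam) (hu : Continuous u) (hc : HasCompactSupport u)
    (hsup : tsupport u ⊆ Θ.source) : Continuous fun ε : ℝ => ∫ x,
      {q : ℝ × Sp S | ILoc_L e q.1 q.2 ∈ Θ.target}.indicator (ILoc_H e Θ w Ω lam u) (ε, x) := by
  have hC : IsCompact (Θ '' tsupport u) :=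
    hc.isCompact.image_of_continuousOn (Θ.continuousOn.mono hsup)
  have h1 : Continuous fun q : ℝ × Sp S => ILoc_L e q.1 q.2 :=
    ((ILoc_L_cont e).comp continuous_fst).clm_apply continuous_snd
  have h2 : Continuous
      ({q : ℝ × Sp S | ILoc_L e q.1 q.2 ∈ Θ.target}.indicator (ILoc_H e Θ w Ω lam u)) := by
    refine continuous_iff_continuousAt.2 fun q => ?_
    by_cases hq : ILoc_L e q.1 q.2 ∈ Θ.target
    · refine (ILoc_H_at e hs hΘ hsm hw hΩ hl hu hq).congr ?_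
      filter_upwards [(Θ.open_target.preimage h1).mem_nhds hq] with r hr
      exact (indicator_of_mem hr _).symm
    · refine (continuousAt_const (y := (0 : ℝ))).congr ?_
      have : ILoc_L e q.1 q.2 ∈ (Θ '' tsupport u)ᶜ := by
        rintro ⟨z, hz, e'⟩
        exact hq (e' ▸ Θ.map_source (hsup hz))
      filter_upwards [(hC.isClosed.isOpen_compl.preimage h1).mem_nhds this] with r hr
      exact (ILoc_H_zero e hr).symm
  obtain ⟨R, hR⟩ := hC.isBounded.exists_norm_le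
  refine (continuous_parametric_integral_of_continuous (μ := volume) (f := fun ε x =>
    {q : ℝ × Sp S | ILoc_L e q.1 q.2 ∈ Θ.target}.indicator (ILoc_H e Θ w Ω lam u) (ε, x)) h2
    (isCompact_closedBall (0 : Sp S) (max R 1))).congr fun ε => ?_
  refine setIntegral_eq_integral_of_forall_compl_eq_zero fun x hx => ?_
  by_contra h
  refine hx (mem_closedBall_zero_iff.2 ((pi_norm_le_iff_of_nonneg (by positivity)).2 fun i => ?_))
  refine ILoc_all e (Q := fun i => ‖x i‖ ≤ max R 1) (fun a j => ?_) (fun a j => ?_) i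
  · have h3 := hR _ (by_contra fun k => h (ILoc_H_zero e (q := (ε, x)) k))
    rw [ILoc_L_apply] at h3
    exact ((norm_le_pi_norm (prE e x) (a, j)).trans ((norm_fst_le _).trans h3)).trans
      (le_max_left _ _)
  · refine le_trans (not_lt.1 fun k => h (indicator_apply_eq_zero.2 fun _ => ?_)) (le_max_right _ _)
    rw [ILoc_H, pf_eq_zero (s := e (Sum.inr a)), mul_zero, mul_zero]
    rw [fam, e.symm_apply_apply]
    exact ILoc_tau_zero e _ _ (j := j) k.le

theorem ILoc_change (e : Fin n ⊕ Fin n' ≃ S) (hs : ContDiff ℝ ∞ s) (hΘ : ∀ x, Θ x = (π x, s x))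
    (hsm : ContDiffOn ℝ ∞ Θ.symm Θ.target) (hsup : tsupport u ⊆ Θ.source) {ε : ℝ} (hε : 0 < ε) :
    ∫ x, {q : ℝ × Sp S | ILoc_L e q.1 q.2 ∈ Θ.target}.indicator (ILoc_H e Θ w Ω lam u) (ε, x) =
      ∫ x, u x * pf (fam e (w x) fun l => tauG s Ω lam l ε x) := by
  have hO : MeasurableSet (ILoc_L e ε ⁻¹' Θ.target) :=
    (Θ.open_target.preimage (ILoc_L e ε).continuous).measurableSet
  have h1 := integral_image_eq_integral_abs_det_fderiv_smul volume hO
    (f := fun x => Θ.symm (ILoc_L e ε x))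
    (f' := fun x => (fderiv ℝ Θ.symm (ILoc_L e ε x)).comp (ILoc_L e ε))
    (fun x hx => ((ILoc_diff hsm hx).comp x (ILoc_L e ε).hasFDerivAt).hasFDerivWithinAt)
    (fun x hx y hy h => ILoc_L_inj e hε.ne' (Θ.symm.injOn hx hy h))
    fun x => u x * pf (fam e (w x) fun l => tauG s Ω lam l ε x)
  have h2 : (fun x => Θ.symm (ILoc_L e ε x)) '' (ILoc_L e ε ⁻¹' Θ.target) = Θ.source := by
    refine Subset.antisymm ?_ fun z hz => ?_
    · rintro _ ⟨x, hx, rfl⟩
      exact Θ.map_target hx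
    · obtain ⟨x, hx⟩ := ILoc_L_surj e hε.ne' (Θ z)
      exact ⟨x, by rw [mem_preimage, hx]; exact Θ.map_source hz, by
        simp only [hx]; exact Θ.left_inv hz⟩
  rw [h2, setIntegral_eq_integral_of_forall_compl_eq_zero fun x hx => by
    rw [image_eq_zero_of_notMem_tsupport fun k => hx (hsup k), zero_mul]] at h1
  rw [h1, ← integral_indicator hO]
  refine integral_congr_ae (.of_forall fun x => ?_)
  by_cases hx : ILoc_L e ε x ∈ Θ.target
  · obtain ⟨δ, d1, d2⟩ := ILoc_delta e hε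
    have h3 : SignType.sign ((fderiv ℝ Θ.symm (ILoc_L e ε x)).comp (ILoc_L e ε)).det =
        SignType.sign ((fderiv ℝ Θ.symm (ILoc_L e ε x)).comp (spl e)).det := by
      generalize fderiv ℝ Θ.symm (ILoc_L e ε x) = T
      have : (T.comp (ILoc_L e ε)).det = (T.comp (spl e)).det * δ.det := by
        rw [d2]
        exact LinearMap.det_comp (T.comp (spl e) : Sp S →ₗ[ℝ] Sp S) (δ : Sp S →ₗ[ℝ] Sp S)
      rw [this, sign_mul, sign_pos d1, mul_one]
    refine (indicator_of_mem (s := {q : ℝ × Sp S | ILoc_L e q.1 q.2 ∈ Θ.target}) hx _).trans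
      (Eq.trans ?_ (indicator_of_mem (s := ILoc_L e ε ⁻¹' Θ.target) hx _).symm)
    simp only [ILoc_H, ← ILoc_pull e hs hΘ hsm hε.ne' hx]
    rw [← ILoc_fam, pf_comp, ← h3, ← sign_mul_self, smul_eq_mul]
    ring
  · exact (indicator_of_notMem (s := {q : ℝ × Sp S | ILoc_L e q.1 q.2 ∈ Θ.target}) hx _).trans
      (indicator_of_notMem (s := ILoc_L e ε ⁻¹' Θ.target) hx _).symm

theorem ILoc_at_zero (e : Fin n ⊕ Fin n' ≃ S) (hsm : ContDiffOn ℝ ∞ Θ.symm Θ.target) (x : Sp S) :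
    {q : ℝ × Sp S | ILoc_L e q.1 q.2 ∈ Θ.target}.indicator (ILoc_H e Θ w Ω lam u) (0, x) =
      {y | (y, 0) ∈ Θ.target}.indicator (fun y => u (Θ.symm (y, 0)) *
        (((SignType.sign ((fderiv ℝ Θ.symm (y, 0)).comp (spl e)).det : SignType) : ℝ) *
          pf fun _ : Fin n => pb (fun y => Θ.symm (y, 0)) w y)) (prE e x) *
        pf fun l : Fin n' =>
          (2 * deriv rr (Complex.normSq (zc (prC e x) l))) • alt2 (dxy (l, 0) (l, 1)) := by
  have h0 : ∀ v, ILoc_L e 0 v = (prE e v, 0) := fun v => by rw [ILoc_L_apply, zero_smul]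
  by_cases hx : (prE e x, 0) ∈ Θ.target
  · rw [indicator_of_mem (by rw [mem_ofPred_eq, h0]; exact hx),
      indicator_of_mem (s := {y | (y, 0) ∈ Θ.target}) hx]
    have h1 : (w (Θ.symm (prE e x, 0))).compContinuousLinearMap
        ((fderiv ℝ Θ.symm (prE e x, 0)).comp (ILoc_L e 0)) =
        (pb (fun y => Θ.symm (y, 0)) w (prE e x)).compContinuousLinearMap (prE e) := by
      rw [pb, ILoc_psi hsm hx]
      ext v
      exact congrArg _ (funext fun i => congrArg (fderiv ℝ Θ.symm (prE e x, 0)) (h0 _))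
    simp only [ILoc_H, h0, h1]
    rw [pf_block, mul_assoc, mul_assoc]
    refine congrArg _ (congrArg _ (congrArg _ (congrArg _ (funext fun l => ?_))))
    have h2 : ∀ v, fderiv ℝ Θ.symm (prE e x, 0) (ILoc_L e 0 (inC e v)) = 0 := fun v => by
      rw [h0, ILoc_EC]
      exact map_zero _
    ext v
    have h3 : Ω (Θ.symm (prE e x, 0))
        (((fderiv ℝ Θ.symm (prE e x, 0)).comp (ILoc_L e 0)) ∘ inC e ∘ v) = 0 :=
      (Ω _).map_coord_zero 0 (h2 _)
    simp only [ILoc_tau, ContinuousAlternatingMap.compContinuousLinearMap_apply,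
      ContinuousAlternatingMap.sub_apply, ContinuousAlternatingMap.add_apply,
      ContinuousAlternatingMap.smul_apply, wedge_apply, alt2_apply, Function.comp_apply,
      ContinuousLinearMap.comp_apply, h2, h3, map_zero, smul_eq_mul, ILoc_X_apply, ILoc_CC]
    simp [dxy, mul_comm]
  · rw [indicator_of_notMem (by rw [mem_ofPred_eq, h0]; exact hx),
      indicator_of_notMem (s := {y | (y, 0) ∈ Θ.target}) hx, zero_mul]

end Chart

theorem loc_sign (e : Fin n ⊕ Fin n' ≃ S) (hs : ContDiff ℝ ∞ s)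
    (Θ : OpenPartialHomeomorph (Sp S) (Sp (Fin n) × Cn n')) (π : Sp S →L[ℝ] Sp (Fin n))
    (hΘ : ∀ x, Θ x = (π x, s x)) (hsm : ContDiffOn ℝ ∞ Θ.symm Θ.target) (w : Fm (Sp S) 2)
    {y : Sp (Fin n)} (hy : (y, 0) ∈ Θ.target) :
    ((fderiv ℝ Θ.symm (y, 0)).comp (spl e)).det ≠ 0 ∧
      ((fderiv ℝ Θ.symm (y, 0)).comp (spl e)).det * pf (fam e (w (Θ.symm (y, 0))) fun l =>
        wedge (dre s l (Θ.symm (y, 0))) (dim s l (Θ.symm (y, 0)))) =
      pf (fun _ : Fin n => pb (fun y => Θ.symm (y, 0)) w y) * 2 ^ n' := by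
  refine ⟨ILoc_det e hs hΘ hsm hy, ?_⟩
  have h1 : (fun l => (wedge (dre s l (Θ.symm (y, 0))) (dim s l (Θ.symm (y, 0)))
      ).compContinuousLinearMap ((fderiv ℝ Θ.symm (y, 0)).comp (spl e))) =
      fun l : Fin n' => (alt2 (dxy (l, 0) (l, 1))).compContinuousLinearMap (prC e) := by
    funext l
    have h5 := ILoc_d e hs hΘ hsm hy 1 l
    rw [ILoc_L_one] at h5
    ext v
    simp only [ContinuousAlternatingMap.compContinuousLinearMap_apply, wedge_apply, alt2_apply,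
      Function.comp_apply, ContinuousLinearMap.comp_apply, (h5 _).1, (h5 _).2]
    simp [dxy]
  rw [← pf_comp, ILoc_fam, h1, pf_block', pf_area, Fintype.card_fin, pb, ILoc_psi hsm hy]
  refine congrArg (· * _) (congrArg _ (funext fun _ => ?_))
  ext v
  refine congrArg _ (funext fun i => congrArg (fderiv ℝ Θ.symm (y, 0)) ?_)
  change spl e (inE e (v i)) = (v i, 0)
  rw [← ILoc_L_one, ILoc_L_apply, ILoc_EE, ILoc_CE, map_zero, smul_zero]

theorem loc_limit (e : Fin n ⊕ Fin n' ≃ S) (hs : ContDiff ℝ ∞ s)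
    (Θ : OpenPartialHomeomorph (Sp S) (Sp (Fin n) × Cn n')) (π : Sp S →L[ℝ] Sp (Fin n))
    (hΘ : ∀ x, Θ x = (π x, s x)) (hsm : ContDiffOn ℝ ∞ Θ.symm Θ.target) {w Ω : Fm (Sp S) 2}
    {lam : Sp S → Sp S →L[ℝ] ℝ} (hw : Continuous w) (hΩ : Continuous Ω) (hl : Continuous lam)
    {u : Sp S → ℝ} (hu : Continuous u) (hc : HasCompactSupport u) (hsup : tsupport u ⊆ Θ.source) :
    Tendsto (fun ε => ∫ x, u x * pf (fam e (w x) fun l => tauG s Ω lam l ε x)) (𝓝[>] 0)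
      (𝓝 (kap n' * ∫ y in {y | (y, 0) ∈ Θ.target}, u (Θ.symm (y, 0)) *
        (((SignType.sign ((fderiv ℝ Θ.symm (y, 0)).comp (spl e)).det : SignType) : ℝ) *
          pf fun _ : Fin n => pb (fun y => Θ.symm (y, 0)) w y))) := by
  have h1 := ((ILoc_H_cont e hs hΘ hsm hw hΩ hl hu hc hsup).tendsto 0).mono_left
    (nhdsWithin_le_nhds (s := Ioi 0))
  have hO : MeasurableSet {y : Sp (Fin n) | (y, (0 : Cn n')) ∈ Θ.target} :=
    (Θ.open_target.preimage (Continuous.prodMk_left 0)).measurableSet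
  simp only [ILoc_at_zero e hsm] at h1
  rw [integral_split e _ fun ζ => pf fun l : Fin n' =>
    (2 * deriv rr (Complex.normSq (zc ζ l))) • alt2 (dxy (l, 0) (l, 1)), integral_indicator hO,
    mul_comm] at h1
  refine h1.congr' ?_
  filter_upwards [self_mem_nhdsWithin] with ε hε
  exact ILoc_change e hs hΘ hsm hsup hε

end Pool.Agent.Work.MP_bf98aa_gt.Th
end

-- merged part: Pool.Agent.Work.MP_bf98aa_gt.Th.ISum
section
/-!
Localisation of the Thom forms on the zero set, globally.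

PLAN. `vanish`: cover `tsupport u` by the open set `{s ≠ 0}` and the sources of the `Θ p` (every zero `z` lies in `γ⁻¹ • (Θ (q z)).source`; to stay inside
one chart use invariance of the integrand and `integral_smul_eq`, or cover by the translates `{x | γ • x ∈ (Θ p).source}`); split `u` by a finite
continuous partition of unity (`exists_continuous_sum_one_of_isOpen_isCompact`). On the piece supported in `{s ≠ 0}` the integrand vanishes for small `ε`
(`tauG_eq_zero`, `pf_eq_zero`); the other pieces tend to zero by `loc_limit`. `exists_ext`: `u x = ρ (q (ψ (π x))) * b (s x)` on the source, zero outside,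
`b` a bump of small radius (tube lemma for the compact set `chart '' tsupport ρ`). `sum_limit`: `unfold` for `u p * T ε`, and `vanish` for
`ρ₀ * (1 - ∑ p, ∑ᶠ γ, u p (γ • x))`.
-/

set_option autoImplicit false

open scoped ContDiff Topology Manifold
open Set MeasureTheory Filter

namespace Pool.Agent.Work.MP_bf98aa_gt.Th

theorem ISum_pou {X ι : Type} [NormedAddCommGroup X] [ProperSpace X] [MeasureSpace X]
    [OpensMeasurableSpace X] [IsFiniteMeasureOnCompacts (volume : Measure X)] {O : ι → Set X}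
    {T : ℝ → X → ℝ} {l : Filter ℝ} (hT : ∀ ε, Continuous (T ε)) {u : X → ℝ} (hu : Continuous u)
    (hc : HasCompactSupport u) (hO : ∀ i, IsOpen (O i)) (hcov : ∀ x, ∃ i, x ∈ O i)
    (h : ∀ i (f : X → ℝ), Continuous f → (tsupport fun x => f x * u x) ⊆ O i →
      Tendsto (fun ε => ∫ x, f x * u x * T ε x) l (𝓝 0)) :
    Tendsto (fun ε => ∫ x, u x * T ε x) l (𝓝 0) := by
  obtain ⟨t, ht⟩ := hc.isCompact.elim_finite_subcover O hO fun x _ => mem_iUnion.2 (hcov x)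
  obtain ⟨f, f1, f2, -, -⟩ := exists_continuous_sum_one_of_isOpen_isCompact
    (s := fun j => O (t.equivFin.symm j)) (fun j => hO _) hc.isCompact fun x hx => by
      obtain ⟨i, hi, q⟩ := mem_iUnion₂.1 (ht hx)
      exact mem_iUnion.2 ⟨t.equivFin ⟨i, hi⟩, by rwa [Equiv.symm_apply_apply]⟩
  have k := tendsto_finsetSum Finset.univ fun j _ =>
    h _ (f j) (f j).continuous (tsupport_mul_subset_left.trans (f1 j))
  rw [Finset.sum_const_zero] at k
  refine k.congr fun ε => ?_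
  rw [← integral_finsetSum _ fun j _ => Continuous.integrable_of_hasCompactSupport
    (f := fun x => f j x * u x * T ε x) (((f j).continuous.mul hu).mul (hT ε))
      hc.mul_left.mul_right]
  refine integral_congr_ae (Eventually.of_forall fun x => ?_)
  beta_reduce
  rw [← Finset.sum_mul, ← Finset.sum_mul]
  by_cases q : u x = 0
  · rw [q, mul_zero]
  · have := f2 (subset_tsupport _ q)
    rw [Finset.sum_apply, Pi.one_apply] at this
    rw [this, one_mul]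

section
variable {S : Type} [Fintype S] [DecidableEq S] {n n' : ℕ} {s : Sp S → Cn n'}

theorem ISum_cont (e : Fin n ⊕ Fin n' ≃ S) (hs : ContDiff ℝ ∞ s) {w Ω : Fm (Sp S) 2}
    {lam : Sp S → Sp S →L[ℝ] ℝ} (hw : Continuous w) (hΩ : Continuous Ω) (hl : Continuous lam)
    (ε : ℝ) : Continuous fun x => pf (fam e (w x) fun l => tauG s Ω lam l ε x) := by
  refine (contDiff_pf (S := S)).continuous.comp (continuous_pi fun i => ?_)
  unfold fam
  rcases e.symm i with j | j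
  · exact hw
  · exact continuous_tauG hs hl hΩ j ε

theorem ISum_off (e : Fin n ⊕ Fin n' ≃ S) (hs : ContDiff ℝ ∞ s) (w Ω : Fm (Sp S) 2)
    (lam : Sp S → Sp S →L[ℝ] ℝ) {v : Sp S → ℝ} (hc : HasCompactSupport v)
    (h : tsupport v ⊆ {x | s x ≠ 0}) :
    Tendsto (fun ε => ∫ x, v x * pf (fam e (w x) fun l => tauG s Ω lam l ε x)) (𝓝[>] 0) (𝓝 0) := by
  obtain ⟨δ, hδ, k⟩ := hc.isCompact.exists_forall_le' hs.continuous.norm.continuousOn
    fun x hx => norm_pos_iff.2 (h hx)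
  refine tendsto_const_nhds.congr' (mem_of_superset (Ioo_mem_nhdsGT hδ) fun ε hε => ?_)
  refine (integral_eq_zero_of_ae (Eventually.of_forall fun x => ?_)).symm
  by_cases q : v x = 0
  · simp only [q, zero_mul, Pi.zero_apply]
  · have k1 := k x (subset_tsupport _ q)
    obtain ⟨l, hl⟩ : ∃ l, ε ≤ ‖s x l‖ := by
      by_contra r
      have := (pi_norm_lt_iff hε.1).2 fun l => not_le.1 fun r' => r ⟨l, r'⟩
      linarith [hε.2]
    refine mul_eq_zero_of_right _ (pf_eq_zero (s := e (Sum.inr l)) ?_)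
    rw [fam, Equiv.symm_apply_apply]
    exact tauG_eq_zero Ω l hε.1 hl

end

namespace Pack

variable {S : Type} [Fintype S] [DecidableEq S] {n n' : ℕ} {Γ : Type} [Group Γ]
  [MulAction Γ (Sp S)] {s : Sp S → Cn n'} {M : Type} [TopologicalSpace M]
  [ChartedSpace (Sp (Fin n)) M] (P : Pack (n := n) Γ s M)

include P in
theorem vanish (h : Act Γ (Sp S))
    (hd : ∀ (γ : Γ) (x : Sp S), (fderiv ℝ (fun y : Sp S => γ • y) x).det = 1)
    (hZ : ∀ (γ : Γ) (x : Sp S), s x = 0 → s (γ • x) = 0) (e : Fin n ⊕ Fin n' ≃ S)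
    (hs : ContDiff ℝ ∞ s) {w Ω : Fm (Sp S) 2} {lam : Sp S → Sp S →L[ℝ] ℝ} (hw : Continuous w)
    (hΩ : Continuous Ω) (hl : Continuous lam)
    (hT : ∀ ε : ℝ, 0 < ε → ∀ (γ : Γ) (x : Sp S),
      pf (fam e (w (γ • x)) fun l => tauG s Ω lam l ε (γ • x)) =
        pf (fam e (w x) fun l => tauG s Ω lam l ε x))
    {u : Sp S → ℝ} (hu : Continuous u) (hc : HasCompactSupport u) (h0 : ∀ z, s z = 0 → u z = 0) :
    Tendsto (fun ε => ∫ x, u x * pf (fam e (w x) fun l => tauG s Ω lam l ε x)) (𝓝[>] 0) (𝓝 0) := by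
  refine ISum_pou (ι := Option (Γ × M))
    (O := fun i => i.elim {x | s x ≠ 0} fun j => {x | j.1 • x ∈ (P.Θ j.2).source})
    (fun ε => ISum_cont e hs hw hΩ hl ε) hu hc ?_ (fun x => ?_) ?_
  · rintro (_ | ⟨γ, p⟩)
    · exact isOpen_ne_fun hs.continuous continuous_const
    · exact (P.Θ p).open_source.preimage (h.smooth γ).continuous
  · by_cases hx : s x = 0
    · obtain ⟨z, hz, hz0, hq⟩ := (P.src (P.q x) (P.q x)).1 (mem_chart_source _ _)
      obtain ⟨γ, rfl⟩ := (P.q_eq x z hx hz0).1 hq.symm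
      exact ⟨some (γ, P.q x), hz⟩
    · exact ⟨none, hx⟩
  · rintro (_ | ⟨γ, p⟩) f hf hs'
    · exact ISum_off e hs w Ω lam hc.mul_left hs'
    · have : ContinuousConstSMul Γ (Sp S) := ⟨fun g => (h.smooth g).continuous⟩
      have k := loc_limit e hs (P.Θ p) (P.π p) (P.Θ_eq p) (P.symm_smooth p) hw hΩ hl
        (u := (fun x => f x * u x) ∘ Homeomorph.smul γ⁻¹)
        ((hf.mul hu).comp (Homeomorph.continuous _)) (hc.mul_left.comp_homeomorph _) (by
          rw [tsupport_comp_eq_preimage]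
          intro x hx
          have := hs' hx
          rwa [Option.elim, mem_ofPred_eq, Homeomorph.smul_apply, smul_inv_smul] at this)
      rw [setIntegral_eq_zero_of_forall_eq_zero, mul_zero] at k
      · refine k.congr' (eventually_mem_nhdsWithin.mono fun ε hε => ?_)
        beta_reduce
        rw [← integral_smul_eq h hd γ]
        refine integral_congr_ae (Eventually.of_forall fun x => ?_)
        beta_reduce
        rw [hT ε hε, Function.comp, Homeomorph.smul_apply, inv_smul_smul]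
      · intro y hy
        have k1 : s ((P.Θ p).symm (y, 0)) = 0 := (P.ψ_zero p ((P.tgt p y).2 hy)).1
        rw [Function.comp, Homeomorph.smul_apply, h0 _ (hZ _ _ k1), mul_zero, zero_mul]

theorem exists_ext [CompactSpace M] (p : M) {ρ : M → ℝ} (hρ : Continuous ρ)
    (hsup : tsupport ρ ⊆ (chartAt (Sp (Fin n)) p).source) :
    ∃ u : Sp S → ℝ, Continuous u ∧ HasCompactSupport u ∧ tsupport u ⊆ (P.Θ p).source ∧
      ∀ z ∈ (P.Θ p).source, s z = 0 → u z = ρ (P.q z) := by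
  have hK : IsCompact (P.ψ p '' (chartAt (Sp (Fin n)) p '' tsupport ρ)) :=
    ((isClosed_tsupport ρ).isCompact.image_of_continuousOn
      ((chartAt (Sp (Fin n)) p).continuousOn.mono hsup)).image_of_continuousOn
        ((P.ψ_smooth p).continuousOn.mono (by
          rintro _ ⟨m, hm, rfl⟩
          exact (chartAt (Sp (Fin n)) p).map_source (hsup hm)))
  have hV : IsOpen ((P.Θ p).source ∩ P.π p ⁻¹' (chartAt (Sp (Fin n)) p).target) :=
    (P.Θ p).open_source.inter ((chartAt (Sp (Fin n)) p).open_target.preimage (P.π p).continuous)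
  obtain ⟨χ, c1, c2, c3, -⟩ := exists_continuousMap_one_of_isCompact_subset_isOpen hK hV (by
    rintro _ ⟨_, ⟨m, hm, rfl⟩, rfl⟩
    have k := (chartAt (Sp (Fin n)) p).map_source (hsup hm)
    obtain ⟨-, k1, k2⟩ := P.ψ_zero p k
    exact ⟨k1, by rwa [mem_preimage, k2]⟩)
  refine ⟨fun x => χ x * ρ ((chartAt (Sp (Fin n)) p).symm (P.π p x)), ?_,
    HasCompactSupport.mul_right c2, fun x hx => (c3 (tsupport_mul_subset_left hx)).1,
    fun z hz h0 => ?_⟩
  · refine ContinuousOn.continuous_of_tsupport_subset (χ.continuous.continuousOn.mul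
      (hρ.comp_continuousOn ((chartAt (Sp (Fin n)) p).continuousOn_symm.comp
        (P.π p).continuous.continuousOn fun x hx => hx.2))) hV (tsupport_mul_subset_left.trans c3)
  · obtain ⟨k1, k2⟩ := P.ψ_π p hz h0
    have k3 : (chartAt (Sp (Fin n)) p).symm (P.π p z) = P.q z :=
      (P.symm_eq p _ k1).trans (congrArg P.q k2)
    beta_reduce
    rw [k3]
    by_cases q : ρ (P.q z) = 0
    · rw [q, mul_zero]
    · rw [c1 ⟨_, ⟨_, subset_tsupport _ q, P.chart_eq p z hz h0⟩, k2⟩, Pi.one_apply, one_mul]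

omit [DecidableEq S] in
theorem ISum_fin (hZ : ∀ (γ : Γ) (x : Sp S), s x = 0 → s (γ • x) = 0) (p : M) {ρ : M → ℝ}
    (hsup : tsupport ρ ⊆ (chartAt (Sp (Fin n)) p).source) {u : Sp S → ℝ}
    (h1 : tsupport u ⊆ (P.Θ p).source) (h2 : ∀ z ∈ (P.Θ p).source, s z = 0 → u z = ρ (P.q z))
    {z : Sp S} (hz : s z = 0) : ∑ᶠ γ : Γ, u (γ • z) = ρ (P.q z) := by
  have k : ∀ x, x ∉ (P.Θ p).source → u x = 0 := fun x hx =>
    image_eq_zero_of_notMem_tsupport fun q => hx (h1 q)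
  by_cases q : P.q z ∈ (chartAt (Sp (Fin n)) p).source
  · obtain ⟨z', a1, a2, a3⟩ := (P.src p _).1 q
    obtain ⟨g, rfl⟩ := (P.q_eq z z' hz a2).1 a3.symm
    rw [finsum_eq_single _ g fun γ hγ => k _ fun r => hγ ?_, h2 _ a1 a2, a3]
    exact mul_inv_eq_one.1 (P.small p (γ * g⁻¹) _ a1 (by rwa [mul_smul, inv_smul_smul]))
  · rw [image_eq_zero_of_notMem_tsupport fun r => q (hsup r)]
    exact finsum_eq_zero_of_forall_eq_zero fun γ => k _ fun r => q ((P.src p _).2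
      ⟨_, r, hZ γ z hz, ((P.q_eq z _ hz (hZ γ z hz)).2 ⟨γ, rfl⟩).symm⟩)



theorem sum_limit [CompactSpace M] (h : Act Γ (Sp S))
    (hd : ∀ (γ : Γ) (x : Sp S), (fderiv ℝ (fun y : Sp S => γ • y) x).det = 1)
    (hZ : ∀ (γ : Γ) (x : Sp S), s x = 0 → s (γ • x) = 0) (e : Fin n ⊕ Fin n' ≃ S)
    (hs : ContDiff ℝ ∞ s) {w Ω : Fm (Sp S) 2} {lam : Sp S → Sp S →L[ℝ] ℝ} (hw : Continuous w)
    (hΩ : Continuous Ω) (hl : Continuous lam)
    (hT : ∀ ε : ℝ, 0 < ε → ∀ (γ : Γ) (x : Sp S),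
      pf (fam e (w (γ • x)) fun l => tauG s Ω lam l ε (γ • x)) =
        pf (fam e (w x) fun l => tauG s Ω lam l ε x))
    {ρ₀ : Sp S → ℝ} (h1 : Continuous ρ₀) (h2 : HasCompactSupport ρ₀)
    (h3 : ∀ x, ∑ᶠ γ : Γ, ρ₀ (γ • x) = 1) (t : Finset M) (ρ : M → M → ℝ)
    (hρ : ∀ p, Continuous (ρ p)) (hsup : ∀ p, tsupport (ρ p) ⊆ (chartAt (Sp (Fin n)) p).source)
    (hsum : ∀ x, ∑ p ∈ t, ρ p x = 1) :
    Tendsto (fun ε => ∫ x, ρ₀ x * pf (fam e (w x) fun l => tauG s Ω lam l ε x)) (𝓝[>] 0)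
      (𝓝 (kap n' * ∑ p ∈ t, ∫ y in (chartAt (Sp (Fin n)) p).target,
        ρ p ((chartAt (Sp (Fin n)) p).symm y) *
          (((SignType.sign ((fderiv ℝ (P.Θ p).symm (y, 0)).comp (spl e)).det : SignType) : ℝ) *
            pf fun _ : Fin n => pb (P.ψ p) w y))) := by
  choose u u1 u2 u3 u4 using fun p => P.exists_ext p (hρ p) (hsup p)
  have hc := fun ε => ISum_cont (lam := lam) e hs hw hΩ hl ε
  have hU : ∀ p, Continuous fun x => ∑ᶠ γ : Γ, u p (γ • x) := fun p =>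
    continuous_finsum_smul h (fun γ => (u1 p).comp (h.smooth γ).continuous) (u2 p)
      fun _ _ hx => image_eq_zero_of_notMem_tsupport hx
  have hv : Continuous fun x => ρ₀ x * (1 - ∑ p ∈ t, ∑ᶠ γ : Γ, u p (γ • x)) :=
    h1.mul (continuous_const.sub (continuous_finsetSum _ fun p _ => hU p))
  have k0 := P.vanish h hd hZ e hs hw hΩ hl hT hv h2.mul_right fun z hz => by
    rw [Finset.sum_congr rfl fun p _ => P.ISum_fin hZ p (hsup p) (u3 p) (u4 p) hz, hsum, sub_self,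
      mul_zero]
  have k1 := tendsto_finsetSum t fun p _ => loc_limit e hs (P.Θ p) (P.π p) (P.Θ_eq p)
    (P.symm_smooth p) hw hΩ hl (u1 p) (u2 p) (u3 p)
  have k2 := k0.add k1
  rw [zero_add, ← Finset.mul_sum] at k2
  refine (k2.congr' (eventually_mem_nhdsWithin.mono fun ε hε => ?_)).trans (le_of_eq ?_)
  · beta_reduce
    have i1 : ∀ p, Integrable fun x => ρ₀ x * (∑ᶠ γ : Γ, u p (γ • x)) *
        pf (fam e (w x) fun l => tauG s Ω lam l ε x) := fun p =>
      ((h1.mul (hU p)).mul (hc ε)).integrable_of_hasCompactSupport h2.mul_right.mul_right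
    have i3 : Integrable fun x => ρ₀ x * (1 - ∑ p ∈ t, ∑ᶠ γ : Γ, u p (γ • x)) *
        pf (fam e (w x) fun l => tauG s Ω lam l ε x) :=
      (hv.mul (hc ε)).integrable_of_hasCompactSupport h2.mul_right.mul_right
    have i2 : ∀ p, ∫ x, u p x * pf (fam e (w x) fun l => tauG s Ω lam l ε x) =
        ∫ x, ρ₀ x * (∑ᶠ γ : Γ, u p (γ • x)) * pf (fam e (w x) fun l => tauG s Ω lam l ε x) :=
      fun p => by
        refine (unfold h hd h1 h2 h3 ((u1 p).mul (hc ε)) (u2 p).mul_right).symm.trans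
          (integral_congr_ae (Eventually.of_forall fun x => ?_))
        simp only [Pi.mul_apply, hT ε hε, mul_assoc, finsum_mul]
    rw [Finset.sum_congr rfl fun p _ => i2 p, ← integral_finsetSum _ fun p _ => i1 p,
      ← integral_add i3 (integrable_finsetSum _ fun p _ => i1 p)]
    refine integral_congr_ae (Eventually.of_forall fun x => ?_)
    beta_reduce
    rw [← Finset.sum_mul, ← Finset.mul_sum]
    ring
  · refine congrArg (fun a => 𝓝 (kap n' * a)) (Finset.sum_congr rfl fun p _ => ?_)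
    rw [show {y | (y, 0) ∈ (P.Θ p).target} = (chartAt (Sp (Fin n)) p).target from
      Set.ext fun y => (P.tgt p y).symm]
    refine setIntegral_congr_fun (chartAt (Sp (Fin n)) p).open_target.measurableSet fun y hy => ?_
    obtain ⟨a1, a2, -⟩ := P.ψ_zero p hy
    beta_reduce
    rw [P.symm_eq p y hy, ← u4 p ((P.Θ p).symm (y, 0)) a2 a1]
    rfl

end Pack

end Pool.Agent.Work.MP_bf98aa_gt.Th
end

-- merged part: Pool.Agent.Work.MP_bf98aa_gt.Th.IMain
section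
/-!
The integral of the top power of an invariant form over the quotient of the zero set.

PLAN. `exists_part`: `PartitionOfUnity.exists_isSubordinate` for the cover by chart sources; only finitely many members are nonzero
(`LocallyFinite.finite_nonempty_of_compact`). `sign_const`: `Q z = pf (fam e (lf w₀ z) (area forms at z))` is continuous, invariant on the zero set
(`pf_inv`, `area_nat`, `inv_lf`) and nonzero (`loc_sign`, `hnd`), so `m ↦ sign (Q (pt m))` is locally constant on `M` (in the chart at `p` it is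
`sign (Q (ψ p (chartAt p m)))`), hence constant. `integral_main`: by `tele` and `sum_limit` (uniqueness of limits)
`kap * σ * 2 ^ n * I = (2π) ^ n' * pf (fam e c om) * ∫ ρ₀` for every partition, where `I` is the sum in `HasIntegral` (`res_loc`,
`setIntegral_congr_fun`); for `c = w₀` and a nonnegative partition `kap ≠ 0` and `I ≥ 0`.
-/

set_option autoImplicit false

open scoped ContDiff Topology Manifold
open Set MeasureTheory Filter

namespace Pool.Agent.Work.MP_bf98aa_gt.Th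

theorem IMain_fam {S X Y : Type} {n n' : ℕ} (e : Fin n ⊕ Fin n' ≃ S)
    (w : X → Y) (τ : Fin n' → X → Y) (x : X) :
    (fam e (w x) fun l => τ l x) = fun t => fam e w τ t x := by
  funext t
  unfold fam
  cases e.symm t <;> rfl

theorem IMain_fam_ind {S Y : Type} {n n' : ℕ} (e : Fin n ⊕ Fin n' ≃ S) {w : Y} {τ : Fin n' → Y}
    {p : Y → Prop} (h1 : p w) (h2 : ∀ l, p (τ l)) (t : S) : p (fam e w τ t) := by
  unfold fam
  cases e.symm t with
  | inl _ => exact h1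
  | inr l => exact h2 l

theorem exists_part (E : Type) [NormedAddCommGroup E] [NormedSpace ℝ E] (M : Type)
    [TopologicalSpace M] [T2Space M] [CompactSpace M] [ChartedSpace E M] :
    ∃ (t : Finset M) (ρ : M → M → ℝ), (∀ p, Continuous (ρ p)) ∧
      (∀ p, tsupport (ρ p) ⊆ (chartAt E p).source) ∧ (∀ x, ∑ p ∈ t, ρ p x = 1) ∧
      ∀ p x, 0 ≤ ρ p x := by
  obtain ⟨f, hf⟩ := PartitionOfUnity.exists_isSubordinate (X := M) isClosed_univ
    (fun p : M => (chartAt E p).source) (fun p => (chartAt E p).open_source)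
    fun x _ => mem_iUnion.2 ⟨x, mem_chart_source E x⟩
  have hfin := f.locallyFinite.finite_nonempty_of_compact
  refine ⟨hfin.toFinset, fun p => f p, fun p => (f p).continuous, hf, fun x => ?_,
    fun p x => f.nonneg p x⟩
  rw [← f.sum_eq_one (mem_univ x)]
  refine (finsum_eq_sum_of_support_subset _ fun p hp => ?_).symm
  exact Finset.mem_coe.2 (hfin.mem_toFinset.2 ⟨x, hp⟩)

namespace Nil

variable {S G : Type} [Fintype S] [DecidableEq S] [AddCommGroup G] [Fintype G] {D : Nil S G}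
  {Λ : D.Lt} {n n' : ℕ} {s : Sp S → Cn n'} {M : Type} [TopologicalSpace M] [T2Space M]
  [CompactSpace M] [PreconnectedSpace M] [ChartedSpace (Sp (Fin n)) M]
  [IsManifold 𝓘(ℝ, Sp (Fin n)) ∞ M]

theorem sign_const (P : Pack (n := n) Λ.Gp s M) (e : Fin n ⊕ Fin n' ≃ S) (hs : ContDiff ℝ ∞ s)
    (ha : ∀ (γ : Λ.Gp) (x : Sp S), s (γ • x) = ee (Lt.jj γ x) • s x) {w₀ : Alt (Sp S) 2}
    (hw : D.GI w₀) (hnd : ∀ p, ∀ y ∈ (chartAt (Sp (Fin n)) p).target,
      pf (fun _ : Fin n => pb (P.ψ p) (D.lf w₀) y) ≠ 0) :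
    ∃ σ : ℝ, (σ = 1 ∨ σ = -1) ∧ ∀ p, ∀ y ∈ (chartAt (Sp (Fin n)) p).target,
      ((SignType.sign ((fderiv ℝ (P.Θ p).symm (y, 0)).comp (spl e)).det : SignType) : ℝ) =
        σ * ((SignType.sign (top (pb (P.ψ p) (D.lf w₀) y)) : SignType) : ℝ) := by
  let Q : Sp S → ℝ := fun z =>
    pf fun t => fam e (D.lf w₀) (fun l x => wedge (dre s l x) (dim s l x)) t z
  have hQ : Continuous Q := by
    refine (contDiff_pf (S := S)).continuous.comp (continuous_pi fun t => ?_)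
    refine IMain_fam_ind e (p := fun f : Fm (Sp S) 2 => Continuous f)
      (D.contDiff_lf w₀).continuous (fun l => ?_) t
    exact ((contDiff_wedge (n := 0)).continuous.comp
      ((contDiff_dre hs l).continuous.prodMk (contDiff_dim hs l).continuous) :)
  have hinv : ∀ (γ : Λ.Gp) z, s z = 0 → Q (γ • z) = Q z := fun γ z hz => by
    refine pf_inv Λ.act Lt.det_smul γ z fun t => ?_
    refine IMain_fam_ind e (p := fun f : Fm (Sp S) 2 => pb (fun y : Sp S => γ • y) f z = f z)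
      (D.inv_lf Λ hw univ γ z (mem_univ z)) (fun l => ?_) t
    exact area_nat hs (Λ.act.smooth γ) (Lt.contDiff_jj γ) (ha γ) l hz
  have hloc : ∀ p, ∀ y ∈ (chartAt (Sp (Fin n)) p).target,
      ((fderiv ℝ (P.Θ p).symm (y, 0)).comp (spl e)).det ≠ 0 ∧
      ((fderiv ℝ (P.Θ p).symm (y, 0)).comp (spl e)).det * Q (P.ψ p y) =
        pf (fun _ : Fin n => pb (P.ψ p) (D.lf w₀) y) * 2 ^ n' := fun p y hy => by
    have h := loc_sign e hs (P.Θ p) (P.π p) (P.Θ_eq p) (P.symm_smooth p) (D.lf w₀)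
      ((P.tgt p y).1 hy)
    rw [IMain_fam e (D.lf w₀) fun l x => wedge (dre s l x) (dim s l x)] at h
    exact h
  have hne : ∀ p, ∀ y ∈ (chartAt (Sp (Fin n)) p).target, Q (P.ψ p y) ≠ 0 := fun p y hy h0 => by
    have h := (hloc p y hy).2
    rw [h0, MulZeroClass.mul_zero] at h
    exact mul_ne_zero (hnd p y hy) (by positivity) h.symm
  have hpt : ∀ p, ∀ y ∈ (chartAt (Sp (Fin n)) p).target,
      Q (P.pt ((chartAt (Sp (Fin n)) p).symm y)) = Q (P.ψ p y) := fun p y hy => by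
    obtain ⟨γ, hγ⟩ := (P.q_eq _ _ (P.ψ_zero p hy).1 (P.pt_zero _).1).1
      ((P.symm_eq p y hy).symm.trans (P.pt_zero _).2.symm)
    rw [← hγ, hinv γ _ (P.ψ_zero p hy).1]
  have hF : Continuous fun m : M => SignType.sign (Q (P.pt m)) := by
    refine continuous_iff_continuousAt.2 fun m => ?_
    have hm := mem_chart_target (Sp (Fin n)) m
    have h1 : ContinuousAt (fun m' : M => Q (P.ψ m (chartAt (Sp (Fin n)) m m'))) m :=
      hQ.continuousAt.comp (ContinuousAt.comp (g := P.ψ m)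
        ((P.ψ_smooth m).continuousOn.continuousAt ((chartAt _ m).open_target.mem_nhds hm))
        ((chartAt _ m).continuousAt (mem_chart_source _ m)))
    have h2 := ContinuousAt.comp (g := SignType.sign)
      (f := fun m' : M => Q (P.ψ m (chartAt (Sp (Fin n)) m m'))) (x := m)
      (continuousAt_sign_of_ne_zero (hne m _ hm)) h1
    refine h2.congr ?_
    filter_upwards [chart_source_mem_nhds (Sp (Fin n)) m] with m' hm'
    have := hpt m _ ((chartAt _ m).map_source hm')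
    rw [(chartAt _ m).left_inv hm'] at this
    rw [this]
    rfl
  rcases isEmpty_or_nonempty M with hM | ⟨⟨m₀⟩⟩
  · exact ⟨1, .inl rfl, fun p => hM.elim p⟩
  have h0 : Q (P.pt m₀) ≠ 0 := hne m₀ _ (mem_chart_target _ m₀)
  have hσ : ((SignType.sign (Q (P.pt m₀)) : SignType) : ℝ) = 1 ∨
      ((SignType.sign (Q (P.pt m₀)) : SignType) : ℝ) = -1 := by
    rcases lt_or_gt_of_ne h0 with h | h
    · exact .inr (by rw [sign_neg h]; simp)
    · exact .inl (by rw [sign_pos h]; simp)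
  refine ⟨_, hσ, fun p y hy => ?_⟩
  have h1 : SignType.sign (Q (P.pt m₀)) = SignType.sign (Q (P.ψ p y)) := by
    rw [← hpt p y hy]
    exact PreconnectedSpace.constant inferInstance hF
  have h2 := congrArg SignType.sign (hloc p y hy).2
  rw [sign_mul, sign_mul, ← h1, sign_pos (by positivity : (0 : ℝ) < 2 ^ n'), mul_one] at h2
  have h3 : SignType.sign (top (pb (P.ψ p) (D.lf w₀) y)) =
      SignType.sign (pf fun _ : Fin n => pb (P.ψ p) (D.lf w₀) y) := by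
    rw [top, div_eq_mul_inv, sign_mul, sign_pos (by positivity : (0 : ℝ) < (2 ^ n)⁻¹), mul_one]
  rw [h3, ← h2, SignType.coe_mul]
  rcases hσ with h | h <;> rw [h] <;> ring

theorem integral_main (P : Pack (n := n) Λ.Gp s M) (e : Fin n ⊕ Fin n' ≃ S) (hs : ContDiff ℝ ∞ s)
    (ha : ∀ (γ : Λ.Gp) (x : Sp S), s (γ • x) = ee (Lt.jj γ x) • s x) {w₀ : Alt (Sp S) 2}
    (hw : D.GI w₀) (hw' : D.CE2 w₀) (hnd : ∀ p, ∀ y ∈ (chartAt (Sp (Fin n)) p).target,
      pf (fun _ : Fin n => pb (P.ψ p) (D.lf w₀) y) ≠ 0)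
    (hpf : pf (fam e w₀ fun _ => omA) ≠ 0) :
    ∃ C : ℝ, 0 < C * pf (fam e w₀ fun _ => omA) ∧ ∀ c : Alt (Sp S) 2, D.GI c → D.CE2 c →
      HasIntegral (P.res (D.lf w₀)) (P.res (D.lf c)) (C * pf (fam e c fun _ => omA)) := by
  obtain ⟨σ, hσ, hsg⟩ := sign_const P e hs ha hw hnd
  obtain ⟨ρ₀, r1, r2, -, r3, r4⟩ := exists_rho Λ.act
  have hZ : ∀ (γ : Λ.Gp) (x : Sp S), s x = 0 → s (γ • x) = 0 := fun γ x h => by
    rw [ha, h, smul_zero]
  have key : ∀ c : Alt (Sp S) 2, D.GI c → D.CE2 c → ∀ (t : Finset M) (ρ : M → M → ℝ),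
      (∀ p, Continuous (ρ p)) → (∀ p, tsupport (ρ p) ⊆ (chartAt (Sp (Fin n)) p).source) →
      (∀ x, ∑ p ∈ t, ρ p x = 1) →
      (2 * Real.pi) ^ n' * pf (fam e c fun _ => omA) * ∫ x, ρ₀ x = kap n' * (σ * 2 ^ n) *
        ∑ p ∈ t, ∫ y in (chartAt (Sp (Fin n)) p).target, ρ p ((chartAt (Sp (Fin n)) p).symm y) *
          (((SignType.sign (top ((P.res (D.lf w₀)).loc p y)) : SignType) : ℝ) *
            top ((P.res (D.lf c)).loc p y)) := by
    intro c hc hc' t ρ h1 h2 h3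
    have hl := P.sum_limit Λ.act Lt.det_smul hZ e hs (D.contDiff_lf c).continuous
      (D.contDiff_lf omA).continuous D.contDiff_lam.continuous (fun ε hε γ x => by
        rw [IMain_fam e (D.lf c) fun l => tauG s (D.lf omA) D.lam l ε,
          IMain_fam e (D.lf c) fun l => tauG s (D.lf omA) D.lam l ε]
        refine pf_inv Λ.act Lt.det_smul γ x fun t => ?_
        exact IMain_fam_ind e
          (p := fun f : Fm (Sp S) 2 => pb (fun y : Sp S => γ • y) f x = f x)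
          (D.inv_lf Λ hc univ γ x (mem_univ x))
          (fun l => (tau_cl_inv hs ha l hε.ne').2 γ x (mem_univ x)) t)
      r1.continuous r2 r3 t ρ h1 h2 h3
    have hc0 : Tendsto (fun ε => ∫ x, ρ₀ x *
        pf (fam e (D.lf c x) fun l => tauG s (D.lf omA) D.lam l ε x)) (𝓝[>] 0)
        (𝓝 ((2 * Real.pi) ^ n' * pf (fam e c fun _ => omA) * ∫ x, ρ₀ x)) := by
      refine tendsto_const_nhds.congr' ?_
      filter_upwards [self_mem_nhdsWithin] with ε hε
      exact (tele hs ha e r1 r2 r3 hc hc' (ne_of_gt hε)).symm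
    rw [tendsto_nhds_unique hc0 hl, _root_.mul_assoc (kap n'), Finset.mul_sum t _ (σ * 2 ^ n)]
    refine congrArg _ (Finset.sum_congr rfl fun p _ => ?_)
    rw [← integral_const_mul]
    refine setIntegral_congr_fun (chartAt _ p).open_target.measurableSet fun y hy => ?_
    have e2 : (pf fun _ : Fin n => pb (P.ψ p) (D.lf c) y) =
        2 ^ n * top (pb (P.ψ p) (D.lf c) y) := by
      rw [top, mul_div_cancel₀ _ (by positivity)]
    simp only [P.res_loc Λ.act hZ (D.inv_lf Λ hc _) p hy, P.res_loc Λ.act hZ (D.inv_lf Λ hw _) p hy,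
      hsg p y hy, e2]
    ring
  obtain ⟨t, ρ, h1, h2, h3, h4⟩ := exists_part (Sp (Fin n)) M
  have k0 := key w₀ hw hw' t ρ h1 h2 h3
  have hA : (2 * Real.pi) ^ n' * pf (fam e w₀ fun _ => omA) * ∫ x, ρ₀ x ≠ 0 :=
    mul_ne_zero (mul_ne_zero (by positivity) hpf) r4.ne'
  have hK : kap n' * (σ * 2 ^ n) ≠ 0 := left_ne_zero_of_mul (k0 ▸ hA)
  have hI := right_ne_zero_of_mul (k0 ▸ hA)
  have hC : ∀ a I : ℝ, (2 * Real.pi) ^ n' * a * ∫ x, ρ₀ x = kap n' * (σ * 2 ^ n) * I →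
      I = ((2 * Real.pi) ^ n' * ∫ x, ρ₀ x) / (kap n' * (σ * 2 ^ n)) * a := fun a I h => by
    rw [div_mul_eq_mul_div, eq_div_iff hK]
    linear_combination -h
  refine ⟨((2 * Real.pi) ^ n' * ∫ x, ρ₀ x) / (kap n' * (σ * 2 ^ n)), ?_,
    fun c hc hc' t ρ h1 h2 h3 => hC _ _ (key c hc hc' t ρ h1 h2 h3)⟩
  rw [← hC _ _ k0]
  refine lt_of_le_of_ne (Finset.sum_nonneg fun p _ => integral_nonneg fun y => ?_) hI.symm
  refine mul_nonneg (h4 _ _) ?_
  rw [sign_mul_self]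
  exact abs_nonneg _

end Nil

end Pool.Agent.Work.MP_bf98aa_gt.Th
end
end
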