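import Mathlib

/-!
Differential forms on a smooth manifold, read in the charts `chartAt p`, and the integral of the
top power of a 2-form.
-/

set_option autoImplicit false

open scoped Manifold ContDiff

namespace Pool.Agent.Work.MP_bf98aa_gt.Th

/-- The model space of dimension `2 n`, with coordinates `(j, 0), (j, 1)`. -/
abbrev Sp (S : Type) : Type := S × Fin 2 → ℝ

/-- The mixed Pfaffian: `2 ^ card S` times the coefficient of the wedge product of the `w s`. -/
noncomputable def pf {S : Type} [Fintype S] [DecidableEq S]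
    (w : S → Sp S [⋀^Fin 2]→L[ℝ] ℝ) : ℝ :=
  ∑ σ : Equiv.Perm (S × Fin 2), ((Equiv.Perm.sign σ : ℤ) : ℝ) *
    ∏ s, w s ![Pi.single (σ (s, 0)) 1, Pi.single (σ (s, 1)) 1]

/-- The coefficient of the `n`-th power of a 2-form. -/
noncomputable def top {n : ℕ} (w : Sp (Fin n) [⋀^Fin 2]→L[ℝ] ℝ) : ℝ := pf (fun _ => w) / 2 ^ n

section
variable (E : Type) [NormedAddCommGroup E] [NormedSpace ℝ E] (M : Type) [TopologicalSpace M]
  [ChartedSpace E M]

/-- Fields of alternating `k`-forms on the tangent spaces. -/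
def Form (k : ℕ) : Type := (x : M) → TangentSpace 𝓘(ℝ, E) x [⋀^Fin k]→L[ℝ] ℝ

variable {E M} {k : ℕ}

/-- A form read in the chart at `p`. -/
noncomputable def Form.loc (w : Form E M k) (p : M) (y : E) : E [⋀^Fin k]→L[ℝ] ℝ :=
  (w ((chartAt E p).symm y)).compContinuousLinearMap
    (mfderiv 𝓘(ℝ, E) 𝓘(ℝ, E) (chartAt E p).symm y)

/-- Smooth in every chart. -/
def Form.Smooth (w : Form E M k) : Prop :=
  ∀ p, ContDiffOn ℝ ∞ (w.loc p) (chartAt E p).target

/-- Smooth with vanishing exterior derivative. -/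
def Form.Closed (w : Form E M k) : Prop :=
  w.Smooth ∧ ∀ p, ∀ y ∈ (chartAt E p).target, extDeriv (w.loc p) y = 0

/-- The exterior derivative of a smooth form. -/
def Form.Exact (w : Form E M (k + 1)) : Prop :=
  ∃ b : Form E M k, b.Smooth ∧
    ∀ p, ∀ y ∈ (chartAt E p).target, extDeriv (b.loc p) y = w.loc p y

/-- The difference of two forms. -/
noncomputable def Form.sub (w w' : Form E M k) : Form E M k := fun x => w x - w' x

/-- A linear combination of forms. -/
noncomputable def comb {r : ℕ} (η : Fin r → Form E M k) (c : Fin r → ℝ) : Form E M k :=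
  fun x => ∑ i, c i • η i x

/-- Nondegenerate at every point. -/
def Form.Nondeg (w : Form E M 2) : Prop := ∀ x u, (∀ v, w x ![u, v] = 0) → u = 0

end

/-- The integral of `w ^ n` for the orientation given by `o ^ n` equals `c`: it is computed with
any finite continuous partition of unity subordinate to the charts. -/
def HasIntegral {n : ℕ} {M : Type} [TopologicalSpace M] [ChartedSpace (Sp (Fin n)) M]
    (o w : Form (Sp (Fin n)) M 2) (c : ℝ) : Prop :=
  ∀ (s : Finset M) (ρ : M → M → ℝ), (∀ p, Continuous (ρ p)) →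
    (∀ p, tsupport (ρ p) ⊆ (chartAt (Sp (Fin n)) p).source) → (∀ x, ∑ p ∈ s, ρ p x = 1) →
    ∑ p ∈ s, ∫ y in (chartAt (Sp (Fin n)) p).target, ρ p ((chartAt (Sp (Fin n)) p).symm y) *
      (((SignType.sign (top (o.loc p y)) : SignType) : ℝ) * top (w.loc p y)) = c

end Pool.Agent.Work.MP_bf98aa_gt.Th
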